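import Pool.Agent.Saus2.DefsQ

/-!
# Saus2, package Q1: the gradient of the support function
-/

namespace Pool.Agent.Saus2

open MeasureTheory ProbabilityTheory Set Metric Filter Topology Real
open scoped InnerProductSpace Pointwise
open Pool.Agent.Sausage27 (Eu Body skel hS betaV)

section S0

variable {E : Type*} [NormedAddCommGroup E] [InnerProductSpace ℝ E] [FiniteDimensional ℝ E]

/-- Q1. -/
theorem grd_inner (D : Set E) (x v : E) : ⟪grd D x, v⟫_ℝ = fderiv ℝ (hS D) x v := by
  unfold grd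
  rw [sum_inner]
  have h : v = ∑ i, ⟪stdOrthonormalBasis ℝ E i, v⟫_ℝ • stdOrthonormalBasis ℝ E i :=
    ((stdOrthonormalBasis ℝ E).sum_repr' v).symm
  conv_rhs => rw [h, map_sum]
  apply Finset.sum_congr rfl
  intro i _
  rw [real_inner_smul_left, map_smul, smul_eq_mul, mul_comm]

/-- Q1. Compare `hS D` with the linear function `⟪x*, ·⟫`, `x* ∈ D` a point with
`⟪x*, x⟫ = hS D x`: `hS D - ⟪x*, ·⟫ ≥ 0` with equality at `x`, so the derivatives agree and
`grd D x = x*`. -/
theorem grd_mem {D : Set E} (hD : Body D) {x : E} (hx : DifferentiableAt ℝ (hS D) x) :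
    grd D x ∈ D ∧ ⟪grd D x, x⟫_ℝ = hS D x := by
  obtain ⟨y, hy, hxy⟩ := hD.exists_eq x
  have hlin : HasFDerivAt (fun z : E => ⟪y, z⟫_ℝ) (innerSL ℝ y) x :=
    (innerSL ℝ y).hasFDerivAt
  have hsub : HasFDerivAt (fun z => hS D z - ⟪y, z⟫_ℝ) (fderiv ℝ (hS D) x - innerSL ℝ y) x :=
    hx.hasFDerivAt.sub hlin
  have hmin : IsLocalMin (fun z => hS D z - ⟪y, z⟫_ℝ) x := by
    apply Filter.Eventually.of_forall
    intro z
    change hS D x - ⟪y, x⟫_ℝ ≤ hS D z - ⟪y, z⟫_ℝ
    rw [hxy, sub_self, sub_nonneg]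
    exact hD.inner_le hy z
  have hzero : fderiv ℝ (hS D) x - innerSL ℝ y = 0 := hmin.hasFDerivAt_eq_zero hsub
  have hfd : fderiv ℝ (hS D) x = innerSL ℝ y := sub_eq_zero.1 hzero
  have hg : grd D x = y := by
    apply ext_inner_right ℝ
    intro v
    rw [grd_inner, hfd]
    rfl
  rw [hg]
  exact ⟨hy, hxy.symm⟩

/-- Q1. `hS D (r • y) = r * hS D y`. -/
theorem diff_smul {D : Set E} (hD : Body D) {r : ℝ} (hr : 0 < r) (x : E) :
    (DifferentiableAt ℝ (hS D) (r • x) ↔ DifferentiableAt ℝ (hS D) x) ∧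
      grd D (r • x) = grd D x := by
  have hpos : (0 : ℝ) ≤ r⁻¹ := (inv_pos.2 hr).le
  have key : ∀ {c : ℝ} (_ : 0 < c) (z : E) {L : E →L[ℝ] ℝ}, HasFDerivAt (hS D) L z →
      HasFDerivAt (hS D) L (c • z) := by
    intro c hc z L hL
    have h1 : hS D = fun y => c * hS D (c⁻¹ • y) := by
      funext y
      rw [hD.hS_smul (inv_pos.2 hc).le, ← mul_assoc, mul_inv_cancel₀ hc.ne', one_mul]
    have h2 : HasFDerivAt (fun y : E => c⁻¹ • y) (c⁻¹ • ContinuousLinearMap.id ℝ E) (c • z) :=
      (hasFDerivAt_id (c • z)).const_smul c⁻¹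
    have hz : c⁻¹ • (c • z) = z := by
      rw [smul_smul, inv_mul_cancel₀ hc.ne', one_smul]
    have h3 : HasFDerivAt (fun y => hS D (c⁻¹ • y))
        (L.comp (c⁻¹ • ContinuousLinearMap.id ℝ E)) (c • z) := by
      have hL' : HasFDerivAt (hS D) L (c⁻¹ • (c • z)) := by
        rw [hz]
        exact hL
      exact HasFDerivAt.comp (c • z) hL' h2
    have h4 := h3.const_mul c
    rw [← h1] at h4
    refine h4.congr_fderiv ?_
    ext v
    change c * L (c⁻¹ • v) = L v
    rw [map_smul, smul_eq_mul, ← mul_assoc, mul_inv_cancel₀ hc.ne', one_mul]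
  have hback : r⁻¹ • (r • x) = x := by
    rw [smul_smul, inv_mul_cancel₀ hr.ne', one_smul]
  have hiff : DifferentiableAt ℝ (hS D) (r • x) ↔ DifferentiableAt ℝ (hS D) x := by
    constructor
    · intro h
      have h1 := (key (inv_pos.2 hr) (r • x) h.hasFDerivAt).differentiableAt
      rw [hback] at h1
      exact h1
    · intro h
      exact (key hr x h.hasFDerivAt).differentiableAt
  refine ⟨hiff, ?_⟩
  have hfd : fderiv ℝ (hS D) (r • x) = fderiv ℝ (hS D) x := by
    by_cases h : DifferentiableAt ℝ (hS D) x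
    · exact (key hr x h.hasFDerivAt).fderiv
    · rw [fderiv_zero_of_not_differentiableAt h,
        fderiv_zero_of_not_differentiableAt (fun h' => h (hiff.1 h'))]
  unfold grd
  rw [hfd]

end S0

section S1

variable {E : Type*} [NormedAddCommGroup E] [InnerProductSpace ℝ E] [FiniteDimensional ℝ E]
  [MeasurableSpace E] [BorelSpace E]

/-- Q1. `measurable_fderiv_apply_const`. -/
theorem measurable_grd {D : Set E} (hD : Body D) : Measurable (grd D) := by
  unfold grd
  apply Finset.measurable_fun_sum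
  intro i _
  exact (measurable_fderiv_apply_const ℝ (hS D) _).smul_const _

end S1

end Pool.Agent.Saus2
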