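import Pool.Agent.Saus2.DefsQ

/-!
# Saus2, package Q10: zonotopes approximate the disc
-/

namespace Pool.Agent.Saus2

open MeasureTheory ProbabilityTheory Set Metric Filter Topology Real
open scoped InnerProductSpace Pointwise
open Pool.Agent.Sausage27 (Eu Body skel hS betaV)

private lemma q10_int (θ : ℝ) : ∫ x in θ..(θ + π), |cos x| = 2 := by
  have hper : Function.Periodic (fun x : ℝ => |cos x|) π := by
    intro x
    simp only [Real.cos_add_pi, abs_neg]
  rw [hper.intervalIntegral_add_eq θ (-(π / 2))]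
  have h1 : ∫ x in (-(π / 2))..(-(π / 2) + π), |cos x| =
      ∫ x in (-(π / 2))..(-(π / 2) + π), cos x := by
    apply intervalIntegral.integral_congr
    intro x hx
    rw [Set.uIcc_of_le (by linarith [Real.pi_pos])] at hx
    exact abs_of_nonneg (Real.cos_nonneg_of_mem_Icc ⟨hx.1, by linarith [hx.2]⟩)
  rw [h1, integral_cos]
  have h2 : -(π / 2) + π = π / 2 := by ring
  rw [h2, Real.sin_neg, Real.sin_pi_div_two]
  norm_num

private lemma q10_riem (θ : ℝ) {N : ℕ} (hN : 0 < N) :
    |(π / N) * ∑ j ∈ Finset.range N, |cos (θ + π * j / N)| - 2| ≤ π ^ 2 / N := by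
  have hN' : (0 : ℝ) < N := by exact_mod_cast hN
  have hpi := Real.pi_pos
  have hc : Continuous fun x : ℝ => |cos x| := Real.continuous_cos.abs
  have hsum : ∑ k ∈ Finset.range N, ∫ x in (θ + π * (k : ℕ) / N)..(θ + π * ((k + 1 : ℕ)) / N),
      |cos x| = ∫ x in (θ + π * ((0 : ℕ) : ℝ) / N)..(θ + π * (N : ℕ) / N), |cos x| := by
    apply intervalIntegral.sum_integral_adjacent_intervals
      (a := fun k : ℕ => θ + π * (k : ℝ) / N)
    intro k _
    exact hc.intervalIntegrable _ _
  have h0 : θ + π * ((0 : ℕ) : ℝ) / N = θ := by simp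
  have h1 : θ + π * (N : ℝ) / N = θ + π := by field_simp
  rw [h0, h1, q10_int] at hsum
  rw [← hsum, Finset.mul_sum, ← Finset.sum_sub_distrib]
  refine (Finset.abs_sum_le_sum_abs _ _).trans ?_
  have hterm : ∀ k ∈ Finset.range N, abs (π / N * abs (cos (θ + π * k / N)) -
      ∫ x in (θ + π * (k : ℕ) / N)..(θ + π * ((k + 1 : ℕ)) / N), abs (cos x)) ≤
        (π / N) * (π / N) := by
    intro k _
    have hlen : (θ + π * ((k + 1 : ℕ) : ℝ) / N) - (θ + π * (k : ℝ) / N) = π / N := by
      push_cast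
      ring
    have hle : θ + π * (k : ℝ) / N ≤ θ + π * ((k + 1 : ℕ) : ℝ) / N := by
      have : 0 < π / N := by positivity
      linarith
    have hconst : π / N * |cos (θ + π * k / N)| =
        ∫ _x in (θ + π * (k : ℕ) / N)..(θ + π * ((k + 1 : ℕ)) / N), |cos (θ + π * k / N)| := by
      rw [intervalIntegral.integral_const, hlen, smul_eq_mul]
    rw [hconst, ← intervalIntegral.integral_sub (intervalIntegrable_const)
      (hc.intervalIntegrable _ _), ← Real.norm_eq_abs]
    refine (intervalIntegral.norm_integral_le_of_norm_le_const (C := π / N) ?_).trans ?_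
    · intro x hx
      rw [Set.uIoc_of_le hle] at hx
      rw [Real.norm_eq_abs]
      refine (abs_abs_sub_abs_le_abs_sub _ _).trans ((Real.abs_cos_sub_cos_le _ _).trans ?_)
      rw [abs_sub_comm, abs_of_nonneg (by linarith [hx.1])]
      linarith [hx.2]
    · rw [hlen, abs_of_pos (by positivity)]
  refine (Finset.sum_le_sum hterm).trans ?_
  rw [Finset.sum_const, Finset.card_range, nsmul_eq_mul]
  apply le_of_eq
  field_simp

/-- The sides of the polygon. -/
private noncomputable def q10a (N : ℕ) (j : Fin N) : ℂ :=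
  ⟨π / N * cos (π * (j : ℕ) / N), π / N * sin (π * (j : ℕ) / N)⟩

private lemma q10_key {N : ℕ} (hN : 0 < N) (v : ℂ) :
    |(∑ j : Fin N, |v.re * (q10a N j).re + v.im * (q10a N j).im|) - 2 * ‖v‖| ≤
      ‖v‖ * (π ^ 2 / N) := by
  have hN' : (0 : ℝ) < N := by exact_mod_cast hN
  have hpi := Real.pi_pos
  have hterm : ∀ j : Fin N, |v.re * (q10a N j).re + v.im * (q10a N j).im| =
      ‖v‖ * (π / N * |cos (-Complex.arg v + π * (j : ℕ) / N)|) := by
    intro j
    have h1 : v.re = ‖v‖ * cos (Complex.arg v) := (Complex.norm_mul_cos_arg v).symm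
    have h2 : v.im = ‖v‖ * sin (Complex.arg v) := (Complex.norm_mul_sin_arg v).symm
    have h3 : v.re * (q10a N j).re + v.im * (q10a N j).im =
        ‖v‖ * (π / N * cos (-Complex.arg v + π * (j : ℕ) / N)) := by
      unfold q10a
      rw [Real.cos_add, Real.cos_neg, Real.sin_neg]
      simp only
      rw [h1, h2]
      simp only [Complex.norm_mul_cos_arg, Complex.norm_mul_sin_arg]
      have h1' := Complex.norm_mul_cos_arg v
      have h2' := Complex.norm_mul_sin_arg v
      rw [← h1', ← h2']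
      ring_nf
    rw [h3, abs_mul, abs_mul, abs_of_nonneg (norm_nonneg v), abs_of_nonneg (by positivity)]
  rw [Finset.sum_congr rfl (fun j _ => hterm j), ← Finset.mul_sum, ← Finset.mul_sum,
    Finset.sum_range (fun j : ℕ => |cos (-Complex.arg v + π * (j : ℕ) / N)|) |>.symm]
  have h := q10_riem (-Complex.arg v) hN
  have h4 : ‖v‖ * (π / N * ∑ j ∈ Finset.range N, |cos (-Complex.arg v + π * (j : ℕ) / N)|) -
      2 * ‖v‖ = ‖v‖ * ((π / N) * ∑ j ∈ Finset.range N,
        |cos (-Complex.arg v + π * (j : ℕ) / N)| - 2) := by ring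
  rw [h4, abs_mul, abs_of_nonneg (norm_nonneg v)]
  exact mul_le_mul_of_nonneg_left h (norm_nonneg v)

/-- Q10. The disc is approximated by zonotopes. For `N ≥ 1` put `a_j = (π/N) exp(iπj/N)`,
`j < N`, and `Z = {∑ s_j a_j | s_j ∈ [0,1]}`, `z₀ = (1/2) ∑ a_j`. The support function of `Z - z₀`
is `(π/(2N)) ∑ |cos(θ - πj/N)|`, a Riemann sum of `(1/2) ∫_0^π |cos| = 1` of a 1-Lipschitz
function, with error at most `π²/(2N)`. Compare support functions. -/
theorem disc_zono {δ : ℝ} (hδ : 0 < δ) :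
    ∃ (N : ℕ) (a : Fin N → ℂ) (z₀ : ℂ),
      (∀ s : Fin N → ℝ, (∀ i, s i ∈ Icc 0 1) → ‖(∑ i, s i • a i) - z₀‖ ≤ 1 + δ) ∧
      ∀ z : ℂ, ‖z‖ ≤ 1 - δ → ∃ s : Fin N → ℝ, (∀ i, s i ∈ Icc 0 1) ∧ z = (∑ i, s i • a i) - z₀ := by
  obtain ⟨N, hNgt⟩ := exists_nat_gt (π ^ 2 / (2 * δ))
  have hpi := Real.pi_pos
  have hN' : (0 : ℝ) < N := lt_trans (by positivity) hNgt
  have hN : 0 < N := by exact_mod_cast hN'
  have hNδ : π ^ 2 / N ≤ 2 * δ := by
    rw [div_le_iff₀ hN']
    rw [div_lt_iff₀ (by positivity)] at hNgt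
    linarith
  have hkey1 : ∀ v : ℂ, ∑ j : Fin N, |v.re * (q10a N j).re + v.im * (q10a N j).im| ≤
      2 * (‖v‖ * (1 + δ)) := by
    intro v
    have h1 := (abs_le.1 (q10_key hN v)).2
    have h2 : ‖v‖ * (π ^ 2 / N) ≤ ‖v‖ * (2 * δ) := mul_le_mul_of_nonneg_left hNδ (norm_nonneg v)
    linarith
  have hkey2 : ∀ v : ℂ, 2 * (‖v‖ * (1 - δ)) ≤
      ∑ j : Fin N, |v.re * (q10a N j).re + v.im * (q10a N j).im| := by
    intro v
    have h1 := (abs_le.1 (q10_key hN v)).1
    have h2 : ‖v‖ * (π ^ 2 / N) ≤ ‖v‖ * (2 * δ) := mul_le_mul_of_nonneg_left hNδ (norm_nonneg v)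
    linarith
  have hlin : ∀ (s : Fin N → ℝ) (v : ℂ),
      v.re * ((∑ i, s i • q10a N i) - ((1 / 2 : ℝ) • ∑ i, q10a N i)).re +
        v.im * ((∑ i, s i • q10a N i) - ((1 / 2 : ℝ) • ∑ i, q10a N i)).im =
      ∑ i, (s i - 1 / 2) * (v.re * (q10a N i).re + v.im * (q10a N i).im) := by
    intro s v
    have h1 : (∑ i, s i • q10a N i) - ((1 / 2 : ℝ) • ∑ i, q10a N i) =
        ∑ i, (s i - 1 / 2) • q10a N i := by
      rw [Finset.smul_sum, ← Finset.sum_sub_distrib]
      exact Finset.sum_congr rfl fun i _ => (sub_smul _ _ _).symm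
    rw [h1, Complex.re_sum, Complex.im_sum, Finset.mul_sum, Finset.mul_sum,
      ← Finset.sum_add_distrib]
    refine Finset.sum_congr rfl fun i _ => ?_
    rw [Complex.real_smul, Complex.re_ofReal_mul, Complex.im_ofReal_mul]
    ring
  refine ⟨N, q10a N, (1 / 2 : ℝ) • ∑ i, q10a N i, ?_, ?_⟩
  · intro s hs
    set w : ℂ := (∑ i, s i • q10a N i) - ((1 / 2 : ℝ) • ∑ i, q10a N i) with hw
    have h1 : ‖w‖ ^ 2 = w.re * w.re + w.im * w.im := by
      rw [← Complex.normSq_eq_norm_sq, Complex.normSq_apply]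
    have h2 := hlin s w
    rw [← hw] at h2
    have h3 : ∑ i, (s i - 1 / 2) * (w.re * (q10a N i).re + w.im * (q10a N i).im) ≤
        ∑ i, 1 / 2 * |w.re * (q10a N i).re + w.im * (q10a N i).im| := by
      refine Finset.sum_le_sum fun i _ => ?_
      refine (le_abs_self _).trans ?_
      rw [abs_mul]
      refine mul_le_mul_of_nonneg_right ?_ (abs_nonneg _)
      rw [abs_le]
      constructor
      · linarith [(hs i).1]
      · linarith [(hs i).2]
    rw [← Finset.mul_sum] at h3
    have h4 := hkey1 w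
    have h5 : ‖w‖ * ‖w‖ ≤ ‖w‖ * (1 + δ) := by
      rw [← sq, h1, h2]
      linarith
    rcases (norm_nonneg w).eq_or_lt with h6 | h6
    · rw [← h6]
      linarith
    · exact le_of_mul_le_mul_left h5 h6
  · intro z hz
    set Z : Set ℂ := (fun s : Fin N → ℝ => (∑ i, s i • q10a N i) -
      ((1 / 2 : ℝ) • ∑ i, q10a N i)) '' (Icc 0 1) with hZ
    by_contra hcon
    have hzZ : z ∉ Z := by
      rintro ⟨s, hs, hsz⟩
      exact hcon ⟨s, fun i => ⟨hs.1 i, hs.2 i⟩, hsz.symm⟩
    have hcont : Continuous (fun s : Fin N → ℝ => (∑ i, s i • q10a N i) -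
      ((1 / 2 : ℝ) • ∑ i, q10a N i)) := by fun_prop
    have hcomp : IsCompact Z := isCompact_Icc.image hcont
    have hconv : Convex ℝ Z := by
      rintro _ ⟨s, hs, rfl⟩ _ ⟨t, ht, rfl⟩ x y hx hy hxy
      refine ⟨x • s + y • t, convex_Icc 0 1 hs ht hx hy hxy, ?_⟩
      have hA : ∑ i, (x • s + y • t) i • q10a N i =
          x • (∑ i, s i • q10a N i) + y • (∑ i, t i • q10a N i) := by
        simp only [Pi.add_apply, Pi.smul_apply, smul_eq_mul, add_smul, mul_smul,
          Finset.sum_add_distrib, ← Finset.smul_sum]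
      have hB : x • (1 / 2 : ℝ) • (∑ i, q10a N i) + y • (1 / 2 : ℝ) • (∑ i, q10a N i) =
          (1 / 2 : ℝ) • ∑ i, q10a N i := by
        rw [← add_smul, hxy, one_smul]
      simp only []
      rw [hA, smul_sub, smul_sub]
      calc _ = x • (∑ i, s i • q10a N i) + y • (∑ i, t i • q10a N i) -
            (x • (1 / 2 : ℝ) • (∑ i, q10a N i) + y • (1 / 2 : ℝ) • (∑ i, q10a N i)) := by rw [hB]
        _ = _ := by abel
    obtain ⟨f, u, hf1, hf2⟩ := geometric_hahn_banach_closed_point hconv hcomp.isClosed hzZ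
    set v : ℂ := ⟨f 1, f Complex.I⟩ with hv
    have hfv : ∀ w : ℂ, f w = v.re * w.re + v.im * w.im := by
      intro w
      have h1 : w = w.re • (1 : ℂ) + w.im • Complex.I := by
        apply Complex.ext <;> simp
      conv_lhs => rw [h1]
      rw [map_add, map_smul, map_smul, smul_eq_mul, smul_eq_mul, hv]
      ring
    set s : Fin N → ℝ := fun j => if 0 < v.re * (q10a N j).re + v.im * (q10a N j).im then 1 else 0
      with hs
    have hsI : s ∈ Icc (0 : Fin N → ℝ) 1 := by
      constructor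
      · intro i
        simp only [hs, Pi.zero_apply]
        split_ifs <;> norm_num
      · intro i
        simp only [hs, Pi.one_apply]
        split_ifs <;> norm_num
    have h1 := hf1 _ ⟨s, hsI, rfl⟩
    rw [hfv, hlin s v] at h1
    have h2 : ∑ i, (s i - 1 / 2) * (v.re * (q10a N i).re + v.im * (q10a N i).im) =
        ∑ i, 1 / 2 * |v.re * (q10a N i).re + v.im * (q10a N i).im| := by
      refine Finset.sum_congr rfl fun i _ => ?_
      simp only [hs]
      split_ifs with h
      · rw [abs_of_pos h]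
        ring
      · rw [abs_of_nonpos (not_lt.1 h)]
        ring
    rw [h2, ← Finset.mul_sum] at h1
    have h3 := hkey2 v
    rw [hfv] at hf2
    have h4 : v.re * z.re + v.im * z.im ≤ ‖v‖ * ‖z‖ := by
      have h5 := real_inner_le_norm v z
      rw [Complex.inner] at h5
      simp only [Complex.mul_re, Complex.conj_re, Complex.conj_im] at h5
      linarith
    have h6 : ‖v‖ * ‖z‖ ≤ ‖v‖ * (1 - δ) := mul_le_mul_of_nonneg_left hz (norm_nonneg v)
    linarith

end Pool.Agent.Saus2
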