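import Pool.Agent.Saus2.DefsQ

/-!
# Saus2, package Q9a: sweeping a planar body, equality
-/

namespace Pool.Agent.Saus2

open MeasureTheory ProbabilityTheory Set Metric Filter Topology Real
open scoped InnerProductSpace Pointwise
open Pool.Agent.Sausage27 (Eu Body skel hS betaV)

/-- the slices of a horizontally swept planar body -/
private theorem slice_Q9a {Y : Set (ℝ × ℝ)} (hY : IsCompact Y) (hc : Convex ℝ Y) {m M' : ℝ}
    (hm : ∀ v : ℝ, v ∈ Icc m M' ↔ ∃ x : ℝ, (x, v) ∈ Y) (v : ℝ) :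
    volume ((fun x : ℝ => (x, v)) ⁻¹'
      ((fun q : (ℝ × ℝ) × ℝ => q.1 + q.2 • ((1 : ℝ), (0 : ℝ))) '' (Y ×ˢ Icc 0 1))) =
      volume ((fun x : ℝ => (x, v)) ⁻¹' Y) + (Icc m M').indicator 1 v := by
  set Z : Set ℝ := (fun x : ℝ => (x, v)) ⁻¹' Y with hZ
  by_cases hne : Z.Nonempty
  · have hind : (Icc m M').indicator (1 : ℝ → ENNReal) v = 1 := by
      obtain ⟨x, hx⟩ := hne
      have h1 : (x, v) ∈ Y := hx
      rw [indicator_of_mem ((hm v).2 ⟨x, h1⟩)]
      rfl
    have hZc : IsCompact Z := by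
      refine IsCompact.of_isClosed_subset (hY.image continuous_fst)
        (hY.isClosed.preimage (by fun_prop)) ?_
      intro x hx
      exact ⟨(x, v), hx, rfl⟩
    have hZconv : Convex ℝ Z := by
      intro x hx y hy α β hα hβ hαβ
      have h1 := hc hx hy hα hβ hαβ
      have h2 : α • (x, v) + β • (y, v) = (α • x + β • y, v) := by
        ext
        · simp
        · simp only [Prod.snd_add, Prod.smul_snd, smul_eq_mul]
          rw [← add_mul, hαβ, one_mul]
      rw [h2] at h1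
      exact h1
    have hZe : Z = Icc (sInf Z) (sSup Z) :=
      eq_Icc_of_connected_compact ⟨hne, hZconv.isPreconnected⟩ hZc
    have hle : sInf Z ≤ sSup Z := by
      obtain ⟨x, hx⟩ := hne
      rw [hZe] at hx
      exact hx.1.trans hx.2
    have hsub : (fun x : ℝ => (x, v)) ⁻¹'
        ((fun q : (ℝ × ℝ) × ℝ => q.1 + q.2 • ((1 : ℝ), (0 : ℝ))) '' (Y ×ˢ Icc 0 1)) =
        Icc (sInf Z) (sSup Z + 1) := by
      apply Subset.antisymm
      · rintro x ⟨⟨y, t⟩, ⟨hy, ht⟩, hq⟩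
        have h1 : y.1 + t = x := by
          have := congrArg Prod.fst hq
          simpa using this
        have h2 : y.2 = v := by
          have := congrArg Prod.snd hq
          simpa using this
        have h3 : y.1 ∈ Z := by
          change (y.1, v) ∈ Y
          rw [← h2]
          exact hy
        rw [hZe] at h3
        have ht1 : 0 ≤ t := ht.1
        have ht2 : t ≤ 1 := ht.2
        exact ⟨by linarith [h3.1], by linarith [h3.2]⟩
      · rintro x ⟨hx1, hx2⟩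
        have key : ∀ z : ℝ, sInf Z ≤ z → z ≤ sSup Z → z ≤ x → x ≤ z + 1 →
            x ∈ (fun x : ℝ => (x, v)) ⁻¹'
              ((fun q : (ℝ × ℝ) × ℝ => q.1 + q.2 • ((1 : ℝ), (0 : ℝ))) '' (Y ×ˢ Icc 0 1)) := by
          intro z hz1 hz2 hz3 hz4
          have hzZ : z ∈ Z := by
            rw [hZe]
            exact ⟨hz1, hz2⟩
          refine ⟨((z, v), x - z), ⟨hzZ, ⟨by linarith, by linarith⟩⟩, ?_⟩
          ext
          · simp
          · simp
        rcases le_or_gt (x - 1) (sInf Z) with h | h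
        · exact key (sInf Z) le_rfl hle hx1 (by linarith)
        · exact key (x - 1) h.le (by linarith) (by linarith) (by linarith)
    have hvZ : volume Z = ENNReal.ofReal (sSup Z - sInf Z) := by
      conv_lhs => rw [hZe]
      exact Real.volume_Icc
    rw [hsub, Real.volume_Icc, hvZ, hind, ← ENNReal.ofReal_one,
      ← ENNReal.ofReal_add (by linarith) zero_le_one]
    congr 1
    ring
  · have hemp : (fun x : ℝ => (x, v)) ⁻¹'
        ((fun q : (ℝ × ℝ) × ℝ => q.1 + q.2 • ((1 : ℝ), (0 : ℝ))) '' (Y ×ˢ Icc 0 1)) = ∅ := by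
      rw [eq_empty_iff_forall_notMem]
      rintro x ⟨⟨y, t⟩, ⟨hy, _⟩, hq⟩
      have h2 : y.2 = v := by
        have := congrArg Prod.snd hq
        simpa using this
      refine hne ⟨y.1, ?_⟩
      change (y.1, v) ∈ Y
      rw [← h2]
      exact hy
    have hv : v ∉ Icc m M' := by
      intro hv
      obtain ⟨x, hx⟩ := (hm v).1 hv
      exact hne ⟨x, hx⟩
    have hZe : Z = ∅ := not_nonempty_iff_eq_empty.1 hne
    rw [hemp, hZe, indicator_of_notMem hv, measure_empty, add_zero]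

/-- the horizontal case -/
private theorem horiz_Q9a {Y : Set (ℝ × ℝ)} (hY : IsCompact Y) (hc : Convex ℝ Y) {m M' : ℝ}
    (hm : ∀ v : ℝ, v ∈ Icc m M' ↔ ∃ x : ℝ, (x, v) ∈ Y) :
    volume ((fun q : (ℝ × ℝ) × ℝ => q.1 + q.2 • ((1 : ℝ), (0 : ℝ))) '' (Y ×ˢ Icc 0 1)) =
      volume Y + ENNReal.ofReal (M' - m) := by
  have hS : IsCompact ((fun q : (ℝ × ℝ) × ℝ => q.1 + q.2 • ((1 : ℝ), (0 : ℝ))) ''
      (Y ×ˢ Icc 0 1)) := (hY.prod isCompact_Icc).image (by fun_prop)
  have h1 : volume ((fun q : (ℝ × ℝ) × ℝ => q.1 + q.2 • ((1 : ℝ), (0 : ℝ))) ''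
      (Y ×ˢ Icc 0 1)) = ∫⁻ v : ℝ, volume ((fun x : ℝ => (x, v)) ⁻¹'
      ((fun q : (ℝ × ℝ) × ℝ => q.1 + q.2 • ((1 : ℝ), (0 : ℝ))) '' (Y ×ˢ Icc 0 1))) := by
    rw [Measure.volume_eq_prod, Measure.prod_apply_symm hS.measurableSet]
  have h2 : volume Y = ∫⁻ v : ℝ, volume ((fun x : ℝ => (x, v)) ⁻¹' Y) := by
    rw [Measure.volume_eq_prod, Measure.prod_apply_symm hY.measurableSet]
  rw [h1, h2]
  simp only [slice_Q9a hY hc hm]
  rw [lintegral_add_right _ (measurable_one.indicator measurableSet_Icc),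
    lintegral_indicator_one measurableSet_Icc, Real.volume_Icc]

/-- the change of coordinates -/
private noncomputable def chg_Q9a (a : ℝ × ℝ) : (ℝ × ℝ) →ₗ[ℝ] (ℝ × ℝ) where
  toFun p := (p.1 * a.1 - p.2 * a.2, p.1 * a.2 + p.2 * a.1)
  map_add' p q := by
    ext
    · simp only [Prod.fst_add, Prod.snd_add]
      ring
    · simp only [Prod.fst_add, Prod.snd_add]
      ring
  map_smul' r p := by
    ext
    · simp only [Prod.smul_fst, Prod.smul_snd, smul_eq_mul, RingHom.id_apply]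
      ring
    · simp only [Prod.smul_fst, Prod.smul_snd, smul_eq_mul, RingHom.id_apply]
      ring

private theorem det_Q9a (a : ℝ × ℝ) : LinearMap.det (chg_Q9a a) = a.1 ^ 2 + a.2 ^ 2 := by
  rw [← LinearMap.det_toMatrix (Module.Basis.finTwoProd ℝ), Matrix.det_fin_two]
  simp only [LinearMap.toMatrix_apply, Module.Basis.finTwoProd_zero, Module.Basis.finTwoProd_one,
    chg_Q9a, LinearMap.coe_mk, AddHom.coe_mk, Module.Basis.coe_finTwoProd_repr]
  simp
  ring

/-- the sweep of a nonzero vector -/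
private theorem sweep_Q9a {Y : Set (ℝ × ℝ)} (hY : IsCompact Y) (hc : Convex ℝ Y) {a : ℝ × ℝ}
    (ha : a ≠ 0) {m M' : ℝ}
    (hm : (fun y : ℝ × ℝ => a.1 * y.2 - a.2 * y.1) '' Y = Icc m M') :
    volume ((fun q : (ℝ × ℝ) × ℝ => q.1 + q.2 • a) '' (Y ×ˢ Icc 0 1)) =
      volume Y + ENNReal.ofReal (M' - m) := by
  set D : ℝ := a.1 ^ 2 + a.2 ^ 2 with hD
  have hD0 : 0 < D := by
    rcases eq_or_ne a.1 0 with h1 | h1
    · have h2 : a.2 ≠ 0 := by
        intro h2
        exact ha (Prod.ext h1 h2)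
      positivity
    · positivity
  set L := chg_Q9a a with hL
  have hLa : ∀ p : ℝ × ℝ, L p = (p.1 * a.1 - p.2 * a.2, p.1 * a.2 + p.2 * a.1) :=
    fun p => rfl
  set G : ℝ × ℝ → ℝ × ℝ :=
    fun p => ((p.1 * a.1 + p.2 * a.2) / D, (a.1 * p.2 - a.2 * p.1) / D) with hG
  have hLG : ∀ p, L (G p) = p := by
    intro p
    rw [hLa]
    ext
    · simp only [hG]
      rw [div_mul_eq_mul_div, div_mul_eq_mul_div, ← sub_div, div_eq_iff hD0.ne', hD]
      ring
    · simp only [hG]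
      rw [div_mul_eq_mul_div, div_mul_eq_mul_div, ← add_div, div_eq_iff hD0.ne', hD]
      ring
  have hGL : ∀ p, G (L p) = p := by
    intro p
    rw [hLa]
    ext
    · simp only [hG]
      rw [div_eq_iff hD0.ne', hD]
      ring
    · simp only [hG]
      rw [div_eq_iff hD0.ne', hD]
      ring
  have hGc : Continuous G := by
    simp only [hG]
    fun_prop
  have hLc : Continuous L := L.continuous_of_finiteDimensional
  have hYc : IsCompact (L ⁻¹' Y) := by
    refine IsCompact.of_isClosed_subset (hY.image hGc) (hY.isClosed.preimage hLc) ?_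
    intro p hp
    exact ⟨L p, hp, hGL p⟩
  have hYconv : Convex ℝ (L ⁻¹' Y) := hc.linear_preimage L
  have hsurj : Function.Surjective L := fun p => ⟨G p, hLG p⟩
  have hYL : L '' (L ⁻¹' Y) = Y := image_preimage_eq Y hsurj
  have hcr : ∀ p : ℝ × ℝ, a.1 * (L p).2 - a.2 * (L p).1 = p.2 * D := by
    intro p
    rw [hLa, hD]
    ring
  have h1 := horiz_Q9a hYc hYconv (m := m / D) (M' := M' / D) (fun v => by
    constructor
    · rintro ⟨hv1, hv2⟩
      rw [div_le_iff₀ hD0] at hv1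
      rw [le_div_iff₀ hD0] at hv2
      have h2 : v * D ∈ (fun y : ℝ × ℝ => a.1 * y.2 - a.2 * y.1) '' Y := by
        rw [hm]
        exact ⟨hv1, hv2⟩
      obtain ⟨y, hy, hyv⟩ := h2
      simp only at hyv
      have h3 : (G y).2 = v := by
        simp only [hG]
        rw [hyv, mul_div_cancel_right₀ _ hD0.ne']
      refine ⟨(G y).1, ?_⟩
      rw [← h3]
      change L (G y) ∈ Y
      rw [hLG]
      exact hy
    · rintro ⟨x, hx⟩
      have h2 : v * D ∈ (fun y : ℝ × ℝ => a.1 * y.2 - a.2 * y.1) '' Y := by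
        refine ⟨L (x, v), hx, ?_⟩
        exact hcr (x, v)
      rw [hm] at h2
      exact ⟨by rw [div_le_iff₀ hD0]; exact h2.1, by rw [le_div_iff₀ hD0]; exact h2.2⟩)
  have h3 : L ((1 : ℝ), (0 : ℝ)) = a := by
    rw [hLa]
    ext
    · simp
    · simp
  have hsub : (fun q : (ℝ × ℝ) × ℝ => q.1 + q.2 • a) '' (Y ×ˢ Icc 0 1) =
      L '' ((fun q : (ℝ × ℝ) × ℝ => q.1 + q.2 • ((1 : ℝ), (0 : ℝ))) ''
        ((L ⁻¹' Y) ×ˢ Icc 0 1)) := by
    apply Subset.antisymm
    · rintro x ⟨⟨y, t⟩, ⟨hy, ht⟩, hq⟩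
      refine ⟨G y + t • ((1 : ℝ), (0 : ℝ)), ⟨(G y, t), ⟨?_, ht⟩, rfl⟩, ?_⟩
      · change L (G y) ∈ Y
        rw [hLG]
        exact hy
      · rw [map_add, map_smul, hLG, h3]
        exact hq
    · rintro x ⟨z, ⟨⟨y, t⟩, ⟨hy, ht⟩, rfl⟩, rfl⟩
      refine ⟨(L y, t), ⟨hy, ht⟩, ?_⟩
      simp only
      rw [map_add, map_smul, h3]
  have hdet : |LinearMap.det L| = D := by
    rw [hL, det_Q9a, abs_of_pos hD0]
  rw [hsub, Measure.addHaar_image_linearMap, hdet, h1, mul_add, ← ENNReal.ofReal_mul hD0.le]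
  have h4 : D * (M' / D - m / D) = M' - m := by
    rw [← sub_div, mul_div_cancel₀ _ hD0.ne']
  have h5 : ENNReal.ofReal D * volume (L ⁻¹' Y) = volume Y := by
    conv_rhs => rw [← hYL, Measure.addHaar_image_linearMap, hdet]
  rw [h4, h5]

/-- Q9. The equality case of `sweep_area` (same proof, with equality). -/
theorem sweep_area_eq {Y : Set (ℝ × ℝ)} (hY : IsCompact Y) (hc : Convex ℝ Y) (hne : Y.Nonempty)
    (a : ℝ × ℝ) :
    (volume ((fun q : (ℝ × ℝ) × ℝ => q.1 + q.2 • a) '' (Y ×ˢ Icc 0 1))).toReal =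
      (volume Y).toReal + (sSup ((fun y : ℝ × ℝ => a.1 * y.2 - a.2 * y.1) '' Y) -
        sInf ((fun y : ℝ × ℝ => a.1 * y.2 - a.2 * y.1) '' Y)) := by
  have hfin : volume Y ≠ ⊤ := hY.measure_lt_top.ne
  have hcf : Continuous (fun y : ℝ × ℝ => a.1 * y.2 - a.2 * y.1) := by fun_prop
  set F : Set ℝ := (fun y : ℝ × ℝ => a.1 * y.2 - a.2 * y.1) '' Y with hF
  have hFe : F = Icc (sInf F) (sSup F) :=
    eq_Icc_of_connected_compact
      ⟨hne.image _, hc.isPreconnected.image _ hcf.continuousOn⟩ (hY.image hcf)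
  have hle : sInf F ≤ sSup F := by
    obtain ⟨x, hx⟩ := hne.image (fun y : ℝ × ℝ => a.1 * y.2 - a.2 * y.1)
    rw [← hF, hFe] at hx
    exact hx.1.trans hx.2
  by_cases ha : a = 0
  · have h1 : (fun q : (ℝ × ℝ) × ℝ => q.1 + q.2 • a) '' (Y ×ˢ Icc 0 1) = Y := by
      apply Subset.antisymm
      · rintro x ⟨⟨y, t⟩, ⟨hy, _⟩, hq⟩
        have h1 : y = x := by
          rw [ha] at hq
          simpa using hq
        rw [← h1]
        exact hy
      · intro y hy
        refine ⟨(y, 0), ⟨hy, ⟨le_rfl, zero_le_one⟩⟩, ?_⟩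
        simp
    have h2 : F = {0} := by
      rw [hF, ha]
      ext v
      simp only [Prod.fst_zero, Prod.snd_zero, zero_mul, sub_self, mem_image,
        mem_singleton_iff]
      constructor
      · rintro ⟨y, _, h⟩
        exact h.symm
      · rintro rfl
        obtain ⟨y, hy⟩ := hne
        exact ⟨y, hy, rfl⟩
    rw [h1, h2]
    simp
  · rw [sweep_Q9a hY hc ha hFe, ENNReal.toReal_add hfin ENNReal.ofReal_ne_top,
      ENNReal.toReal_ofReal (by linarith)]

end Pool.Agent.Saus2
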