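import Pool.Agent.Saus2.DefsQ
import Pool.Agent.Saus2.Q9a

/-!
# Saus2, package Q9b: adding segments to a planar body
-/

namespace Pool.Agent.Saus2

open MeasureTheory ProbabilityTheory Set Metric Filter Topology Real
open scoped InnerProductSpace Pointwise
open Pool.Agent.Sausage27 (Eu Body skel hS betaV)

/-- the sum of a planar body and of segments -/
private def zono_Q9b (Y : Set (ℝ × ℝ)) {N : ℕ} (a : Fin N → ℝ × ℝ) (t : ℝ) : Set (ℝ × ℝ) :=
  {y : ℝ × ℝ | ∃ y₀ ∈ Y, ∃ s : Fin N → ℝ, (∀ i, s i ∈ Icc 0 t) ∧ y = y₀ + ∑ i, s i • a i}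

private noncomputable def map_Q9b {N : ℕ} (a : Fin N → ℝ × ℝ) :
    ((ℝ × ℝ) × (Fin N → ℝ)) →ₗ[ℝ] (ℝ × ℝ) where
  toFun q := q.1 + ∑ i, q.2 i • a i
  map_add' q q' := by
    simp only [Prod.fst_add, Prod.snd_add, Pi.add_apply, add_smul, Finset.sum_add_distrib]
    abel
  map_smul' r q := by
    simp only [Prod.smul_fst, Prod.smul_snd, Pi.smul_apply, smul_eq_mul, RingHom.id_apply,
      smul_add, Finset.smul_sum, smul_smul]

private theorem zono_eq_Q9b (Y : Set (ℝ × ℝ)) {N : ℕ} (a : Fin N → ℝ × ℝ) (t : ℝ) :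
    zono_Q9b Y a t = map_Q9b a '' (Y ×ˢ (Set.pi univ fun _ => Icc 0 t)) := by
  apply Subset.antisymm
  · rintro y ⟨y₀, hy, s, hs, rfl⟩
    exact ⟨(y₀, s), ⟨hy, fun i _ => hs i⟩, rfl⟩
  · rintro _ ⟨⟨y₀, s⟩, ⟨hy, hs⟩, rfl⟩
    exact ⟨y₀, hy, s, fun i => hs i (mem_univ i), rfl⟩

private theorem compact_Q9b {Y : Set (ℝ × ℝ)} (hY : IsCompact Y) {N : ℕ} (a : Fin N → ℝ × ℝ)
    (t : ℝ) : IsCompact (zono_Q9b Y a t) := by
  rw [zono_eq_Q9b]
  exact (hY.prod (isCompact_univ_pi fun _ => isCompact_Icc)).image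
    (map_Q9b a).continuous_of_finiteDimensional

private theorem convex_Q9b {Y : Set (ℝ × ℝ)} (hY : Convex ℝ Y) {N : ℕ} (a : Fin N → ℝ × ℝ)
    (t : ℝ) : Convex ℝ (zono_Q9b Y a t) := by
  rw [zono_eq_Q9b]
  exact (hY.prod (convex_pi fun _ _ => convex_Icc 0 t)).linear_image _

private theorem nonempty_Q9b {Y : Set (ℝ × ℝ)} (hY : Y.Nonempty) {N : ℕ} (a : Fin N → ℝ × ℝ)
    {t : ℝ} (ht : 0 ≤ t) : (zono_Q9b Y a t).Nonempty := by
  obtain ⟨y, hy⟩ := hY
  exact ⟨_, y, hy, fun _ => 0, fun _ => ⟨le_rfl, ht⟩, rfl⟩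

/-- the greatest value of a linear function -/
private theorem greatest_Q9b {Y : Set (ℝ × ℝ)} {N : ℕ} (a : Fin N → ℝ × ℝ)
    (g : (ℝ × ℝ) →ₗ[ℝ] ℝ) {M t : ℝ} (hM : IsGreatest (g '' Y) M) (ht : 0 ≤ t) :
    IsGreatest (g '' zono_Q9b Y a t) (M + t * ∑ i, max (g (a i)) 0) := by
  constructor
  · obtain ⟨y, hy, hyM⟩ := hM.1
    refine ⟨y + ∑ i, (if 0 ≤ g (a i) then t else 0) • a i,
      ⟨y, hy, fun i => if 0 ≤ g (a i) then t else 0, fun i => ?_, rfl⟩, ?_⟩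
    · show (if 0 ≤ g (a i) then t else 0) ∈ Icc 0 t
      split_ifs
      · exact ⟨ht, le_rfl⟩
      · exact ⟨le_rfl, ht⟩
    · rw [map_add, map_sum, hyM, Finset.mul_sum]
      congr 1
      refine Finset.sum_congr rfl fun i _ => ?_
      rw [map_smul, smul_eq_mul]
      split_ifs with h
      · rw [max_eq_left h]
      · rw [max_eq_right (not_le.1 h).le, mul_zero, zero_mul]
  · rintro _ ⟨_, ⟨y, hy, s, hs, rfl⟩, rfl⟩
    rw [map_add, map_sum, Finset.mul_sum]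
    refine add_le_add (hM.2 ⟨y, hy, rfl⟩) (Finset.sum_le_sum fun i _ => ?_)
    rw [map_smul, smul_eq_mul]
    have h1 := hs i
    calc s i * g (a i) ≤ s i * max (g (a i)) 0 :=
          mul_le_mul_of_nonneg_left (le_max_left _ _) h1.1
      _ ≤ t * max (g (a i)) 0 := mul_le_mul_of_nonneg_right h1.2 (le_max_right _ _)

/-- the least value of a linear function -/
private theorem least_Q9b {Y : Set (ℝ × ℝ)} {N : ℕ} (a : Fin N → ℝ × ℝ)
    (g : (ℝ × ℝ) →ₗ[ℝ] ℝ) {M t : ℝ} (hM : IsLeast (g '' Y) M) (ht : 0 ≤ t) :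
    IsLeast (g '' zono_Q9b Y a t) (M - t * ∑ i, max (-g (a i)) 0) := by
  have h0 : ∀ S : Set (ℝ × ℝ), ∀ c : ℝ, IsGreatest ((-g) '' S) (-c) ↔ IsLeast (g '' S) c := by
    intro S c
    constructor
    · rintro ⟨⟨y, hy, hyc⟩, h2⟩
      refine ⟨⟨y, hy, ?_⟩, ?_⟩
      · rw [LinearMap.neg_apply, neg_inj] at hyc
        exact hyc
      · rintro _ ⟨z, hz, rfl⟩
        have h3 := h2 ⟨z, hz, rfl⟩
        rw [LinearMap.neg_apply, neg_le_neg_iff] at h3
        exact h3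
    · rintro ⟨⟨y, hy, hyc⟩, h2⟩
      refine ⟨⟨y, hy, ?_⟩, ?_⟩
      · rw [LinearMap.neg_apply, hyc]
      · rintro _ ⟨z, hz, rfl⟩
        rw [LinearMap.neg_apply, neg_le_neg_iff]
        exact h2 ⟨z, hz, rfl⟩
  rw [← h0] at hM ⊢
  have h1 := greatest_Q9b a (-g) hM ht
  have h2 : -(M - t * ∑ i, max (-g (a i)) 0) = -M + t * ∑ i, max ((-g) (a i)) 0 := by
    simp only [LinearMap.neg_apply]
    ring
  rw [h2]
  exact h1

/-- Q9. A finite sum of segments `[0, t] a_i` added to `Y`: by induction on `N` and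
`sweep_area_eq`, the area is a quadratic polynomial in `t ≥ 0` with constant term `volume Y`
(the width of a Minkowski sum is the sum of the widths, and the width of `[0,t] a_i` in the
direction given by `a` is `t |a.1 a_i.2 - a.2 a_i.1|`). -/
theorem zono_poly {Y : Set (ℝ × ℝ)} (hY : IsCompact Y) (hc : Convex ℝ Y) (hne : Y.Nonempty)
    {N : ℕ} (a : Fin N → ℝ × ℝ) :
    ∃ b c : ℝ, ∀ t : ℝ, 0 ≤ t →
      (volume {y : ℝ × ℝ | ∃ y₀ ∈ Y, ∃ s : Fin N → ℝ, (∀ i, s i ∈ Icc 0 t) ∧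
        y = y₀ + ∑ i, s i • a i}).toReal = (volume Y).toReal + b * t + c * t ^ 2 := by
  change ∃ b c : ℝ, ∀ t : ℝ, 0 ≤ t →
    (volume (zono_Q9b Y a t)).toReal = (volume Y).toReal + b * t + c * t ^ 2
  induction N with
  | zero =>
    refine ⟨0, 0, fun t _ => ?_⟩
    have h1 : zono_Q9b Y a t = Y := by
      apply Subset.antisymm
      · rintro _ ⟨y, hy, s, -, rfl⟩
        simpa using hy
      · intro y hy
        exact ⟨y, hy, fun _ => 0, fun i => i.elim0, by simp⟩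
    rw [h1]
    ring
  | succ N ih =>
    obtain ⟨b, c, hbc⟩ := ih (fun i => a i.castSucc)
    set e : ℝ × ℝ := a (Fin.last N) with he
    let g : (ℝ × ℝ) →ₗ[ℝ] ℝ :=
      e.1 • LinearMap.snd ℝ ℝ ℝ - e.2 • LinearMap.fst ℝ ℝ ℝ
    have hg : ∀ y, g y = e.1 * y.2 - e.2 * y.1 := fun y => rfl
    have hgc : Continuous g := g.continuous_of_finiteDimensional
    obtain ⟨M, hM⟩ := (hY.image hgc).exists_isGreatest (hne.image g)
    obtain ⟨m, hm⟩ := (hY.image hgc).exists_isLeast (hne.image g)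
    refine ⟨b + (M - m), c + ∑ i : Fin N, max (g (a i.castSucc)) 0 +
      ∑ i : Fin N, max (-g (a i.castSucc)) 0, fun t ht => ?_⟩
    set Z := zono_Q9b Y (fun i : Fin N => a i.castSucc) t with hZ
    have h1 : zono_Q9b Y a t = (fun q : (ℝ × ℝ) × ℝ => q.1 + q.2 • (t • e)) '' (Z ×ˢ Icc 0 1) := by
      apply Subset.antisymm
      · rintro _ ⟨y, hy, s, hs, rfl⟩
        have h2 := hs (Fin.last N)
        obtain ⟨r, hr, hrs⟩ : ∃ r ∈ Icc (0 : ℝ) 1, r * t = s (Fin.last N) := by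
          rcases ht.eq_or_lt with h0 | h0
          · refine ⟨0, ⟨le_rfl, zero_le_one⟩, ?_⟩
            rw [← h0] at h2
            rw [zero_mul]
            exact le_antisymm h2.1 h2.2
          · refine ⟨s (Fin.last N) / t, ⟨div_nonneg h2.1 ht, (div_le_one h0).2 h2.2⟩, ?_⟩
            rw [div_mul_cancel₀ _ h0.ne']
        refine ⟨(y + ∑ i : Fin N, s i.castSucc • a i.castSucc, r),
          ⟨⟨y, hy, fun i => s i.castSucc, fun i => hs _, rfl⟩, hr⟩, ?_⟩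
        simp only
        rw [Fin.sum_univ_castSucc, smul_smul, hrs, add_assoc]
      · rintro _ ⟨⟨_, r⟩, ⟨⟨y, hy, s, hs, rfl⟩, hr⟩, rfl⟩
        refine ⟨y, hy, Fin.snoc s (r * t), fun i => ?_, ?_⟩
        · refine Fin.lastCases ?_ (fun i => ?_) i
          · rw [Fin.snoc_last]
            exact ⟨mul_nonneg hr.1 ht, by nlinarith [hr.2]⟩
          · rw [Fin.snoc_castSucc]
            exact hs i
        · simp only
          rw [Fin.sum_univ_castSucc]
          simp only [Fin.snoc_castSucc, Fin.snoc_last]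
          rw [smul_smul, add_assoc]
    have h2 := sweep_area_eq (compact_Q9b hY (fun i : Fin N => a i.castSucc) t)
      (convex_Q9b hc _ t) (nonempty_Q9b hne _ ht) (t • e)
    have h3 := greatest_Q9b (fun i : Fin N => a i.castSucc) g hM ht
    have h4 := least_Q9b (fun i : Fin N => a i.castSucc) g hm ht
    have h5 : (fun y : ℝ × ℝ => (t • e).1 * y.2 - (t • e).2 * y.1) = fun y => t * g y := by
      funext y
      rw [hg, Prod.smul_fst, Prod.smul_snd, smul_eq_mul, smul_eq_mul]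
      ring
    have h6 : IsGreatest ((fun y : ℝ × ℝ => t * g y) '' Z)
        (t * (M + t * ∑ i : Fin N, max (g (a i.castSucc)) 0)) := by
      obtain ⟨⟨y, hy, hyM⟩, h7⟩ := h3
      refine ⟨⟨y, hy, by simp only; rw [hyM]⟩, ?_⟩
      rintro _ ⟨z, hz, rfl⟩
      exact mul_le_mul_of_nonneg_left (h7 ⟨z, hz, rfl⟩) ht
    have h7 : IsLeast ((fun y : ℝ × ℝ => t * g y) '' Z)
        (t * (m - t * ∑ i : Fin N, max (-g (a i.castSucc)) 0)) := by
      obtain ⟨⟨y, hy, hyM⟩, h7⟩ := h4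
      refine ⟨⟨y, hy, by simp only; rw [hyM]⟩, ?_⟩
      rintro _ ⟨z, hz, rfl⟩
      exact mul_le_mul_of_nonneg_left (h7 ⟨z, hz, rfl⟩) ht
    rw [h1, hZ, h2, h5, h6.csSup_eq, h7.csInf_eq, hbc t ht]
    ring

end Pool.Agent.Saus2
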