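import Pool.Agent.Saus2.DefsQ
import Pool.Agent.Saus2.Q9b
import Pool.Agent.Saus2.Q10

/-!
# Saus2, package Q11: the area of planar parallel bodies is a polynomial
-/

namespace Pool.Agent.Saus2

open MeasureTheory ProbabilityTheory Set Metric Filter Topology Real
open scoped InnerProductSpace Pointwise
open Pool.Agent.Sausage27 (Eu Body skel hS betaV)

private lemma q11_vol (S : Set ℂ) :
    volume ((fun z : ℂ => (z.re, z.im)) '' S) = volume S := by
  have h := Complex.volume_preserving_equiv_real_prod.measure_preimage_equiv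
    ((fun z : ℂ => (z.re, z.im)) '' S)
  rw [← h]
  congr 1
  ext z
  simp only [Set.mem_preimage, Complex.measurableEquivRealProd_apply, Set.mem_image, Prod.mk.injEq]
  constructor
  · rintro ⟨w, hw, h1, h2⟩
    have : w = z := Complex.ext h1 h2
    rwa [← this]
  · intro hz
    exact ⟨z, hz, rfl, rfl⟩

private lemma q11_smul (S : Set ℂ) (c : ℂ) (r : ℝ) :
    volume ((fun z : ℂ => c + r • z) '' S) = ENNReal.ofReal (r ^ 2) * volume S := by
  have h1 : (fun z : ℂ => c + r • z) '' S = (fun z : ℂ => c + z) '' (r • S) := by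
    rw [← Set.image_smul, Set.image_image]
  rw [h1, Set.image_add_left, measure_preimage_add, Measure.addHaar_smul,
    Complex.finrank_real_complex, abs_of_nonneg (sq_nonneg r)]

private lemma q11_cmp {K : Set ℂ} (hK : Body K) {δ : ℝ} (hδ : 0 < δ) (hδ1 : δ < 1) :
    ∃ b c : ℝ, ∀ t : ℝ, 0 < t →
      (1 - δ) ^ 2 * (volume (K + closedBall (0 : ℂ) t)).toReal ≤
        (volume K).toReal + b * t + c * t ^ 2 ∧
      (volume K).toReal + b * t + c * t ^ 2 ≤
        (1 + δ) ^ 2 * (volume (K + closedBall (0 : ℂ) t)).toReal := by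
  obtain ⟨N, a, z₀, ha1, ha2⟩ := disc_zono hδ
  obtain ⟨k₀, hk₀⟩ := hK.ne
  have hKc := hK.conv
  set Y : Set (ℝ × ℝ) := (fun z : ℂ => (z.re, z.im)) '' K with hY
  have hYc : IsCompact Y := hK.comp.image (by fun_prop)
  have hYconv : Convex ℝ Y := by
    rintro _ ⟨z, hz, rfl⟩ _ ⟨w, hw, rfl⟩ x y hx hy hxy
    refine ⟨x • z + y • w, hKc hz hw hx hy hxy, ?_⟩
    simp
  obtain ⟨b, c, hbc⟩ := zono_poly hYc hYconv ⟨_, ⟨k₀, hk₀, rfl⟩⟩
    (fun i => ((a i).re, (a i).im))
  refine ⟨b, c, fun t ht => ?_⟩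
  set Q : Set ℂ := {z | ∃ k ∈ K, ∃ s : Fin N → ℝ, (∀ i, s i ∈ Icc 0 t) ∧
    z = k + ∑ i, s i • a i} with hQ
  have hQY : {y : ℝ × ℝ | ∃ y₀ ∈ Y, ∃ s : Fin N → ℝ, (∀ i, s i ∈ Icc 0 t) ∧
        y = y₀ + ∑ i, s i • ((a i).re, (a i).im)} = (fun z : ℂ => (z.re, z.im)) '' Q := by
    have hsum : ∀ (k : ℂ) (s : Fin N → ℝ), ((k + ∑ i, s i • a i).re, (k + ∑ i, s i • a i).im) =
        (k.re, k.im) + ∑ i, s i • ((a i).re, (a i).im) := by
      intro k s
      ext
      · simp [Complex.re_sum, Prod.fst_sum]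
      · simp [Complex.im_sum, Prod.snd_sum]
    ext y
    constructor
    · rintro ⟨_, ⟨k, hk, rfl⟩, s, hs, rfl⟩
      exact ⟨_, ⟨k, hk, s, hs, rfl⟩, hsum k s⟩
    · rintro ⟨_, ⟨k, hk, s, hs, rfl⟩, rfl⟩
      exact ⟨_, ⟨k, hk, rfl⟩, s, hs, hsum k s⟩
  have hvQ := hbc t ht.le
  rw [hQY, q11_vol, hY, q11_vol] at hvQ
  rw [← hvQ]
  have hcl : IsCompact (K + closedBall (0 : ℂ) t) := hK.comp.add (isCompact_closedBall _ _)
  have hfin : volume (K + closedBall (0 : ℂ) t) ≠ ⊤ := hcl.measure_lt_top.ne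
  have hup : Q ⊆ (fun z : ℂ => (t • z₀ - δ • k₀) + (1 + δ) • z) '' (K + closedBall (0 : ℂ) t) := by
    rintro _ ⟨k, hk, s, hs, rfl⟩
    have h1 : ∀ i, s i / t ∈ Icc (0 : ℝ) 1 := fun i =>
      ⟨div_nonneg (hs i).1 ht.le, (div_le_one ht).2 (hs i).2⟩
    have h2 := ha1 _ h1
    set w : ℂ := (∑ i, (s i / t) • a i) - z₀ with hw
    have h3 : ∑ i, s i • a i = t • z₀ + t • w := by
      rw [hw, smul_sub, Finset.smul_sum, add_sub_cancel]
      refine Finset.sum_congr rfl fun i _ => ?_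
      rw [smul_smul, mul_div_cancel₀ _ ht.ne']
    refine ⟨((1 + δ)⁻¹ • k + (δ * (1 + δ)⁻¹) • k₀) + (t * (1 + δ)⁻¹) • w,
      Set.add_mem_add ?_ ?_, ?_⟩
    · exact hKc hk hk₀ (by positivity) (by positivity) (by field_simp)
    · rw [mem_closedBall_zero_iff, norm_smul, Real.norm_eq_abs, abs_of_pos (by positivity)]
      calc t * (1 + δ)⁻¹ * ‖w‖ ≤ t * (1 + δ)⁻¹ * (1 + δ) :=
            mul_le_mul_of_nonneg_left h2 (by positivity)
        _ = t := by field_simp
    · simp only
      rw [h3, smul_add, smul_add, smul_smul, smul_smul, smul_smul]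
      have e1 : (1 + δ) * (1 + δ)⁻¹ = 1 := by field_simp
      have e2 : (1 + δ) * (δ * (1 + δ)⁻¹) = δ := by field_simp
      have e3 : (1 + δ) * (t * (1 + δ)⁻¹) = t := by field_simp
      rw [e1, e2, e3, one_smul]
      abel
  have hlo : (fun z : ℂ => (t • z₀ + δ • k₀) + (1 - δ) • z) '' (K + closedBall (0 : ℂ) t) ⊆ Q := by
    rintro _ ⟨_, ⟨k, hk, u, hu, rfl⟩, rfl⟩
    rw [mem_closedBall_zero_iff] at hu
    have h1 : ‖((1 - δ) * t⁻¹) • u‖ ≤ 1 - δ := by
      rw [norm_smul, Real.norm_eq_abs, abs_of_nonneg (mul_nonneg (by linarith) (by positivity))]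
      calc (1 - δ) * t⁻¹ * ‖u‖ ≤ (1 - δ) * t⁻¹ * t :=
            mul_le_mul_of_nonneg_left hu (mul_nonneg (by linarith) (by positivity))
        _ = 1 - δ := by field_simp
    obtain ⟨s, hs, hsu⟩ := ha2 _ h1
    refine ⟨(1 - δ) • k + δ • k₀, hKc hk hk₀ (by linarith) hδ.le (by ring),
      fun i => t * s i, fun i => ⟨mul_nonneg ht.le (hs i).1, ?_⟩, ?_⟩
    · calc t * s i ≤ t * 1 := mul_le_mul_of_nonneg_left (hs i).2 ht.le
        _ = t := mul_one t
    · have h2 : (1 - δ) • u = t • ((∑ i, s i • a i) - z₀) := by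
        rw [← hsu, smul_smul]
        congr 1
        field_simp
      have h3 : ∑ i, (t * s i) • a i = t • ∑ i, s i • a i := by
        rw [Finset.smul_sum]
        exact Finset.sum_congr rfl fun i _ => mul_smul _ _ _
      simp only
      rw [smul_add, h2, h3, smul_sub]
      abel
  have hQfin : volume Q ≠ ⊤ := by
    refine ne_top_of_le_ne_top ?_ (measure_mono hup)
    rw [q11_smul]
    exact ENNReal.mul_ne_top ENNReal.ofReal_ne_top hfin
  constructor
  · have h1 := measure_mono (μ := volume) hlo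
    rw [q11_smul] at h1
    have h2 := ENNReal.toReal_mono hQfin h1
    rwa [ENNReal.toReal_mul, ENNReal.toReal_ofReal (sq_nonneg _)] at h2
  · have h1 := measure_mono (μ := volume) hup
    rw [q11_smul] at h1
    have h2 := ENNReal.toReal_mono (ENNReal.mul_ne_top ENNReal.ofReal_ne_top hfin) h1
    rwa [ENNReal.toReal_mul, ENNReal.toReal_ofReal (sq_nonneg _)] at h2

/-- Q11. For every `δ` compare `K + t B` with `K + t (Z - z₀)` (`disc_zono`), whose area is a
quadratic polynomial in `t` with constant term `volume K` (`zono_poly`, after identifying `ℂ` with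
`ℝ × ℝ`; the translation by `t z₀` does not change the area). The area of `K + t B` is continuous
in `t`; so for each `t` it is the limit of these polynomials, and a pointwise limit of quadratic
polynomials with the same constant term is such a polynomial (determined by `t = 1, 2`). -/
theorem planar_poly {K : Set ℂ} (hK : Body K) :
    ∃ b c : ℝ, ∀ t : ℝ, 0 ≤ t →
      (volume (K + closedBall (0 : ℂ) t)).toReal = (volume K).toReal + b * t + c * t ^ 2 := by
  set A : ℝ → ℝ := fun t => (volume (K + closedBall (0 : ℂ) t)).toReal with hA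
  set V : ℝ := (volume K).toReal with hV
  have hd0 : ∀ n : ℕ, 0 < 1 / ((n : ℝ) + 2) := fun n => by positivity
  have hd1 : ∀ n : ℕ, 1 / ((n : ℝ) + 2) < 1 := by
    intro n
    rw [div_lt_one (by positivity)]
    have := Nat.cast_nonneg (α := ℝ) n
    linarith
  have hdlim : Tendsto (fun n : ℕ => 1 / ((n : ℝ) + 2)) atTop (𝓝 0) := by
    have h1 := tendsto_one_div_add_atTop_nhds_zero_nat (𝕜 := ℝ)
    have h2 := (tendsto_add_atTop_iff_nat 1).2 h1
    refine h2.congr fun n => ?_
    push_cast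
    ring_nf
  choose b c hbc using fun n : ℕ => q11_cmp hK (hd0 n) (hd1 n)
  have hlim : ∀ t : ℝ, 0 < t → Tendsto (fun n => V + b n * t + c n * t ^ 2) atTop (𝓝 (A t)) := by
    intro t ht
    have hl : Tendsto (fun n : ℕ => (1 - 1 / ((n : ℝ) + 2)) ^ 2 * A t) atTop (𝓝 (A t)) := by
      have h := ((tendsto_const_nhds (x := (1 : ℝ))).sub hdlim).pow 2
      have h' := h.mul_const (A t)
      simpa using h'
    have hu : Tendsto (fun n : ℕ => (1 + 1 / ((n : ℝ) + 2)) ^ 2 * A t) atTop (𝓝 (A t)) := by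
      have h := ((tendsto_const_nhds (x := (1 : ℝ))).add hdlim).pow 2
      have h' := h.mul_const (A t)
      simpa using h'
    exact tendsto_of_tendsto_of_tendsto_of_le_of_le hl hu (fun n => (hbc n t ht).1)
      (fun n => (hbc n t ht).2)
  have h1 := hlim 1 one_pos
  have h2 := hlim 2 two_pos
  have hclim : Tendsto c atTop (𝓝 ((A 2 - V) / 2 - (A 1 - V))) := by
    have h3 := ((h2.sub_const V).div_const 2).sub (h1.sub_const V)
    refine h3.congr fun n => ?_
    ring
  have hblim : Tendsto b atTop (𝓝 (2 * (A 1 - V) - (A 2 - V) / 2)) := by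
    have h3 := ((h1.sub_const V).const_mul 2).sub ((h2.sub_const V).div_const 2)
    refine h3.congr fun n => ?_
    ring
  refine ⟨2 * (A 1 - V) - (A 2 - V) / 2, (A 2 - V) / 2 - (A 1 - V), fun t ht => ?_⟩
  rcases ht.eq_or_lt with h0 | h0
  · rw [← h0, closedBall_zero, Set.add_singleton]
    simp [hV]
  · have h3 : Tendsto (fun n => V + b n * t + c n * t ^ 2) atTop
        (𝓝 (V + (2 * (A 1 - V) - (A 2 - V) / 2) * t + ((A 2 - V) / 2 - (A 1 - V)) * t ^ 2)) :=
      ((hblim.mul_const t).const_add V).add (hclim.mul_const (t ^ 2))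
    exact tendsto_nhds_unique (hlim t h0) h3

end Pool.Agent.Saus2
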