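import Pool.Agent.Saus2.DefsQ
import Pool.Agent.Saus2.Q1

/-!
# Saus2, package Q2: almost everywhere differentiability
-/

namespace Pool.Agent.Saus2

open MeasureTheory ProbabilityTheory Set Metric Filter Topology Real
open scoped InnerProductSpace Pointwise
open Pool.Agent.Sausage27 (Eu Body skel hS betaV)

private theorem Q2_density (j : ℕ) :
    (Measure.pi fun _ : Fin j => gaussianReal 0 1) = (volume : Measure (Fin j → ℝ)).withDensity
      (fun x => ENNReal.ofReal (∏ i, gaussianPDFReal 0 1 (x i))) := by
  apply Measure.pi_eq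
  intro s hs
  rw [withDensity_apply _ (MeasurableSet.univ_pi hs)]
  have hm : ∀ i : Fin j, Integrable (gaussianPDFReal 0 1)
      ((volume : Measure ℝ).restrict (s i)) := fun i =>
    (integrable_gaussianPDFReal 0 1).restrict
  rw [volume_pi, Measure.restrict_pi_pi, ← ofReal_integral_eq_lintegral_ofReal]
  · rw [integral_fintype_prod_eq_prod (f := fun _ : Fin j => gaussianPDFReal 0 1),
      ENNReal.ofReal_prod_of_nonneg]
    · refine Finset.prod_congr rfl fun i _ => ?_
      rw [gaussianReal_apply_eq_integral 0 one_ne_zero]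
    · exact fun i _ => integral_nonneg fun x => gaussianPDFReal_nonneg 0 1 x
  · exact Integrable.fintype_prod hm
  · exact Filter.Eventually.of_forall fun x =>
      Finset.prod_nonneg fun i _ => gaussianPDFReal_nonneg 0 1 (x i)

section S0

variable {E : Type*} [NormedAddCommGroup E] [InnerProductSpace ℝ E] [FiniteDimensional ℝ E]
  [MeasurableSpace E] [BorelSpace E]

/-- Q2. Rademacher (`LipschitzWith.ae_differentiableAt`). -/
theorem ae_diff {D : Set E} (hD : Body D) :
    ∀ᵐ x ∂(volume : Measure E), DifferentiableAt ℝ (hS D) x := by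
  obtain ⟨R, hR, -, -, hL⟩ := hD.exists_bound
  have h : LipschitzWith (⟨R, hR.le⟩ : NNReal) (hS D) := by
    refine LipschitzWith.of_dist_le_mul fun u v => ?_
    rw [Real.dist_eq, dist_eq_norm]
    exact hL u v
  exact h.ae_differentiableAt

/-- Q2. The set of nonzero points of non-differentiability is a cone of measure zero;
`Measure.toSphere_apply'`. -/
theorem ae_diff_sphere {D : Set E} (hD : Body D) :
    ∀ᵐ u : sphere (0 : E) 1 ∂((volume : Measure E).toSphere),
      DifferentiableAt ℝ (hS D) u.1 := by
  have hm : MeasurableSet {x : E | DifferentiableAt ℝ (hS D) x} :=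
    measurableSet_of_differentiableAt ℝ (hS D)
  have hms : MeasurableSet {u : sphere (0 : E) 1 | ¬ DifferentiableAt ℝ (hS D) u.1} :=
    (measurable_subtype_coe hm).compl
  rw [ae_iff, Measure.toSphere_apply' _ hms]
  have h0 : (volume : Measure E)
      (Ioo (0 : ℝ) 1 • ((↑) '' {u : sphere (0 : E) 1 | ¬ DifferentiableAt ℝ (hS D) u.1})) = 0 := by
    refine measure_mono_null ?_ (ae_iff.1 (ae_diff hD))
    rintro _ ⟨r, hr, _, ⟨u, hu, rfl⟩, rfl⟩
    simp only [mem_setOf_eq] at hu ⊢
    rw [(diff_smul hD hr.1 u.1).1]
    exact hu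
  rw [h0, mul_zero]

/-- Q2. The standard Gaussian measure is absolutely continuous (image of a product of
`gaussianReal 0 1` under a linear isometry and `ofLp`; or the density as in package G2). -/
theorem gauss_ac : stdGaussian E ≪ (volume : Measure E) := by
  set b := stdOrthonormalBasis ℝ E with hb
  have h1 : (Measure.pi fun _ : Fin (Module.finrank ℝ E) => gaussianReal 0 1) ≪
      (volume : Measure (Fin (Module.finrank ℝ E) → ℝ)) := by
    rw [Q2_density]
    exact withDensity_absolutelyContinuous _ _
  have h2 : Measurable (fun x : Fin (Module.finrank ℝ E) → ℝ => ∑ i, x i • b i) := by fun_prop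
  have h3 := h1.map h2
  have h4 : (volume : Measure (Fin (Module.finrank ℝ E) → ℝ)).map
      (fun x : Fin (Module.finrank ℝ E) → ℝ => ∑ i, x i • b i) = (volume : Measure E) := by
    have e1 : (fun x : Fin (Module.finrank ℝ E) → ℝ => ∑ i, x i • b i) =
        (fun y => b.repr.symm y) ∘ (WithLp.toLp 2) := by
      funext x
      rw [Function.comp_apply, ← b.sum_repr_symm]
    rw [e1]
    exact ((b.repr.symm.measurePreserving).comp
      (PiLp.volume_preserving_toLp (Fin (Module.finrank ℝ E)))).map_eq
  rw [h4] at h3
  exact h3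

end S0

end Pool.Agent.Saus2
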