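import Pool.Agent.Saus2.DefsQ
import Pool.Agent.Saus2.Q1

/-!
# Saus2, package Q4: asymptotics of these bounds
-/

namespace Pool.Agent.Saus2

open MeasureTheory ProbabilityTheory Set Metric Filter Topology Real
open scoped InnerProductSpace Pointwise
open Pool.Agent.Sausage27 (Eu Body skel hS betaV)

section S0

variable {E : Type*} [NormedAddCommGroup E] [InnerProductSpace ℝ E] [FiniteDimensional ℝ E]

private theorem sqrt_lim_Q4 (b : ℝ) :
    Tendsto (fun t : ℝ => t * (√(t ^ 2 + b) - t)) atTop (𝓝 (b / 2)) := by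
  have h0 : Tendsto (fun t : ℝ => b / t ^ 2) atTop (𝓝 0) :=
    tendsto_const_nhds.div_atTop (tendsto_pow_atTop (by norm_num))
  have h1 : Tendsto (fun t : ℝ => b / (√(1 + b / t ^ 2) + 1)) atTop (𝓝 (b / 2)) := by
    have h2 : Tendsto (fun t : ℝ => √(1 + b / t ^ 2) + 1) atTop (𝓝 (√(1 + 0) + 1)) :=
      ((h0.const_add 1).sqrt).add_const 1
    have h3 : √(1 + 0 : ℝ) + 1 = 2 := by
      rw [add_zero, Real.sqrt_one]
      norm_num
    rw [h3] at h2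
    exact tendsto_const_nhds.div h2 (by norm_num)
  refine h1.congr' ?_
  have h4 : ∀ᶠ t : ℝ in atTop, -1 < b / t ^ 2 :=
    h0.eventually (lt_mem_nhds (by norm_num))
  filter_upwards [h4, eventually_gt_atTop 0] with t ht ht0
  have h5 : 0 < 1 + b / t ^ 2 := by linarith
  set r := √(1 + b / t ^ 2) with hr
  have hr2 : r ^ 2 = 1 + b / t ^ 2 := Real.sq_sqrt h5.le
  have hr0 : 0 ≤ r := Real.sqrt_nonneg _
  have h6 : √(t ^ 2 + b) = t * r := by
    have h7 : t ^ 2 + b = (t * r) ^ 2 := by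
      rw [mul_pow, hr2]
      field_simp
    rw [h7, Real.sqrt_sq (mul_nonneg ht0.le hr0)]
  rw [h6, div_eq_iff (by positivity)]
  have h8 : t * (t * r - t) * (r + 1) = t ^ 2 * (r ^ 2 - 1) := by ring
  rw [h8, hr2]
  field_simp
  ring

private theorem lip_Q4 {D : Set E} (hD : Body D) {R : ℝ} (hR : ∀ x ∈ D, ‖x‖ ≤ R) (p q : E) :
    |hS D p - hS D q| ≤ R * ‖p - q‖ := by
  have key : ∀ u v, hS D u - hS D v ≤ R * ‖u - v‖ := by
    intro u v
    obtain ⟨x, hx, he⟩ := hD.exists_eq u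
    have h1 := hD.inner_le hx v
    have h2 : ⟪x, u⟫_ℝ - ⟪x, v⟫_ℝ = ⟪x, u - v⟫_ℝ := by rw [inner_sub_right]
    have h3 : ⟪x, u - v⟫_ℝ ≤ ‖x‖ * ‖u - v‖ := real_inner_le_norm _ _
    have h4 : ‖x‖ * ‖u - v‖ ≤ R * ‖u - v‖ :=
      mul_le_mul_of_nonneg_right (hR x hx) (norm_nonneg _)
    linarith
  have h1 := key p q
  have h2 := key q p
  rw [norm_sub_rev q p] at h2
  rw [abs_le]
  constructor <;> linarith

/-- The basic facts: `h = ⟪g, u⟫`, `w = g - h u` has `‖w‖ ^ 2 = sg D u = ⟪g, w⟫`. -/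
private theorem basic_Q4 {D : Set E} (hD : Body D) {u : E} (hu : ‖u‖ = 1)
    (hdiff : DifferentiableAt ℝ (hS D) u) :
    grd D u ∈ D ∧ ‖grd D u - hS D u • u‖ ^ 2 = sg D u ∧
      ⟪grd D u, grd D u - hS D u • u⟫_ℝ = sg D u := by
  obtain ⟨h1, h2⟩ := grd_mem hD hdiff
  refine ⟨h1, ?_, ?_⟩
  · rw [norm_sub_sq_real, inner_smul_right, h2, norm_smul, hu, mul_one, Real.norm_eq_abs, sq_abs,
      sg]
    ring
  · rw [inner_sub_right, inner_smul_right, h2, real_inner_self_eq_norm_sq, sg]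
    ring

private theorem sg_Q4 {D : Set E} (hD : Body D) {u : E} (hu : ‖u‖ = 1)
    (hdiff : DifferentiableAt ℝ (hS D) u) {R : ℝ} (hR : ∀ x ∈ D, ‖x‖ ≤ R) :
    0 ≤ R ∧ 0 ≤ sg D u ∧ sg D u ≤ R ^ 2 := by
  obtain ⟨h1, h2, -⟩ := basic_Q4 hD hu hdiff
  have h3 := hR _ h1
  have h4 := norm_nonneg (grd D u)
  have h5 : 0 ≤ R := h4.trans h3
  refine ⟨h5, ?_, ?_⟩
  · rw [← h2]
    positivity
  · have h6 : ‖grd D u‖ ^ 2 ≤ R ^ 2 := pow_le_pow_left₀ h4 h3 2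
    unfold sg
    nlinarith [sq_nonneg (hS D u)]

/-- Q4. `0 ≤ sg D u ≤ R²` and `-t a / (√(t² - a) + t)` lies between `-a` and `0`. -/
theorem low_bd {D : Set E} (hD : Body D) {u : E} (hu : ‖u‖ = 1)
    (hdiff : DifferentiableAt ℝ (hS D) u) {R t : ℝ} (hR : ∀ x ∈ D, ‖x‖ ≤ R) (ht : 0 < t)
    (hRt : R ≤ t) : |t * (lowf D t u - t - hS D u)| ≤ R ^ 2 := by
  obtain ⟨h0, h1, h2⟩ := sg_Q4 hD hu hdiff hR
  have h3 : 0 ≤ t ^ 2 - sg D u := by nlinarith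
  have h4 : √(t ^ 2 - sg D u) ^ 2 = t ^ 2 - sg D u := Real.sq_sqrt h3
  have h5 := Real.sqrt_nonneg (t ^ 2 - sg D u)
  have h6 : lowf D t u - t - hS D u = √(t ^ 2 - sg D u) - t := by
    unfold lowf
    ring
  rw [h6]
  generalize √(t ^ 2 - sg D u) = s at h4 h5
  have h7 : s ≤ t := by nlinarith
  rw [abs_le]
  constructor <;> nlinarith

/-- Q4. `|hS D (u - t⁻¹ w) - hS D u| ≤ R ‖w‖ / t` with `‖w‖² = sg D u ≤ R²`. -/
theorem up_bd {D : Set E} (hD : Body D) {u : E} (hu : ‖u‖ = 1)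
    (hdiff : DifferentiableAt ℝ (hS D) u) {R t : ℝ} (hR0 : 0 ≤ R) (hR : ∀ x ∈ D, ‖x‖ ≤ R)
    (ht : 0 < t) : |t * (upf D t u - t - hS D u)| ≤ 2 * R ^ 2 := by
  obtain ⟨-, h1, h2⟩ := sg_Q4 hD hu hdiff hR
  obtain ⟨-, h3, -⟩ := basic_Q4 hD hu hdiff
  have h4 : ‖grd D u - hS D u • u‖ ≤ R := by
    refine abs_le_of_sq_le_sq' ?_ hR0 |>.2
    rw [h3]
    exact h2
  have h5 := lip_Q4 hD hR (u - t⁻¹ • (grd D u - hS D u • u)) u
  have h6 : ‖u - t⁻¹ • (grd D u - hS D u • u) - u‖ = t⁻¹ * ‖grd D u - hS D u • u‖ := by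
    rw [sub_sub_cancel_left, norm_neg, norm_smul, Real.norm_of_nonneg (inv_nonneg.mpr ht.le)]
  rw [h6] at h5
  have h7 : |t * (hS D (u - t⁻¹ • (grd D u - hS D u • u)) - hS D u)| ≤ R ^ 2 := by
    rw [abs_mul, abs_of_pos ht]
    calc t * |hS D (u - t⁻¹ • (grd D u - hS D u • u)) - hS D u|
        ≤ t * (R * (t⁻¹ * ‖grd D u - hS D u • u‖)) := mul_le_mul_of_nonneg_left h5 ht.le
      _ = R * ‖grd D u - hS D u • u‖ := by field_simp
      _ ≤ R * R := mul_le_mul_of_nonneg_left h4 hR0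
      _ = R ^ 2 := by ring
  have h8 : 0 ≤ t ^ 2 + sg D u := by positivity
  have h9 : √(t ^ 2 + sg D u) ^ 2 = t ^ 2 + sg D u := Real.sq_sqrt h8
  have h10 := Real.sqrt_nonneg (t ^ 2 + sg D u)
  have h11 : t * (upf D t u - t - hS D u) =
      t * (hS D (u - t⁻¹ • (grd D u - hS D u • u)) - hS D u) +
        t * (√(t ^ 2 + sg D u) - t) := by
    unfold upf
    ring
  rw [h11]
  generalize √(t ^ 2 + sg D u) = s at h9 h10
  have h12 : t ≤ s := by nlinarith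
  have h13 : |t * (s - t)| ≤ R ^ 2 := by
    rw [abs_le]
    constructor <;> nlinarith
  refine (abs_add_le _ _).trans ?_
  linarith

/-- Q4. -/
theorem low_lim {D : Set E} (hD : Body D) {u : E} (hu : ‖u‖ = 1)
    (hdiff : DifferentiableAt ℝ (hS D) u) :
    Tendsto (fun t : ℝ => t * (lowf D t u - t - hS D u)) atTop (𝓝 (-(sg D u) / 2)) := by
  refine (sqrt_lim_Q4 (-(sg D u))).congr fun t => ?_
  unfold lowf
  rw [← sub_eq_add_neg]
  ring

/-- Q4. `t (hS D (u - t⁻¹ w) - hS D u) → - ⟪grd D u, w⟫ = - sg D u`. -/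
theorem up_lim {D : Set E} (hD : Body D) {u : E} (hu : ‖u‖ = 1)
    (hdiff : DifferentiableAt ℝ (hS D) u) :
    Tendsto (fun t : ℝ => t * (upf D t u - t - hS D u)) atTop (𝓝 (-(sg D u) / 2)) := by
  obtain ⟨-, -, h1⟩ := basic_Q4 hD hu hdiff
  have h2 : Tendsto (fun t : ℝ => ‖t‖) atTop atTop := tendsto_norm_atTop_atTop
  have h3 := hdiff.hasFDerivAt.lim (-(grd D u - hS D u • u)) (c := fun t : ℝ => t) h2
  have h4 : fderiv ℝ (hS D) u (-(grd D u - hS D u • u)) = -(sg D u) := by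
    rw [map_neg, ← grd_inner, h1]
  rw [h4] at h3
  have h5 := h3.add (sqrt_lim_Q4 (sg D u))
  have h6 : -(sg D u) + sg D u / 2 = -(sg D u) / 2 := by ring
  rw [h6] at h5
  refine h5.congr fun t => ?_
  unfold upf
  rw [smul_neg, ← sub_eq_add_neg, smul_eq_mul]
  ring

end S0

end Pool.Agent.Saus2
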