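import Pool.Agent.Saus2.DefsQ

/-!
# Saus2, package Q5: expansion of a power under the integral
-/

namespace Pool.Agent.Saus2

open MeasureTheory ProbabilityTheory Set Metric Filter Topology Real
open scoped InnerProductSpace Pointwise
open Pool.Agent.Sausage27 (Eu Body skel hS betaV)

/-- The second order remainder of `(1 + x) ^ d`. -/
private theorem Q5_rem (d : ℕ) : ∃ P : ℝ → ℝ, Continuous P ∧
    P 0 = (d : ℝ) * ((d : ℝ) - 1) / 2 ∧ ∀ x : ℝ, (1 + x) ^ d = 1 + d * x + x ^ 2 * P x := by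
  induction d with
  | zero => exact ⟨fun _ => 0, continuous_const, by simp, fun x => by simp⟩
  | succ d ih =>
    obtain ⟨P, hP, h0, h1⟩ := ih
    refine ⟨fun x => P x * (1 + x) + d, by fun_prop, ?_, fun x => ?_⟩
    · simp only [h0]
      push_cast
      ring
    · rw [pow_succ, h1]
      push_cast
      ring

/-- The integrand for `t > 0`. -/
private theorem Q5_alg {d : ℕ} (hd : 2 ≤ d) {P : ℝ → ℝ}
    (hP : ∀ x : ℝ, (1 + x) ^ d = 1 + d * x + x ^ 2 * P x) {t h b : ℝ} (ht : 0 < t) :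
    ((t + h + b / t) ^ d - t ^ d - d * h * t ^ (d - 1)) / (d * t ^ (d - 2)) =
      (h + b / t) ^ 2 * P ((h + b / t) / t) / d + b := by
  obtain ⟨m, rfl⟩ := Nat.exists_eq_add_of_le hd
  have hd0 : ((2 + m : ℕ) : ℝ) ≠ 0 := by positivity
  have h1 : t + h + b / t = t * (1 + (h + b / t) / t) := by
    field_simp
    ring
  have h2 : 2 + m - 1 = m + 1 := by omega
  have h3 : 2 + m - 2 = m := by omega
  rw [h1, mul_pow, hP, h2, h3, div_eq_iff (by positivity)]
  have h4 : t ^ (2 + m) = t ^ m * t ^ 2 := by rw [add_comm, pow_add]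
  have h5 : t ^ (m + 1) = t ^ m * t := pow_succ t m
  rw [h4, h5]
  generalize P ((h + b / t) / t) = p
  field_simp
  ring

/-- Q5. Put `x = (h u + b t u / t) / t`. Then the integrand is
`t² ((1 + x)^d - 1 - d x) / d + b t u`, and `(1 + x)^d - 1 - d x = x² P(x)` with
`P(x) = ∑_{k ≥ 2} C(d,k) x^(k-2)`, `P(0) = d(d-1)/2`, and `t x → h u`. Dominated convergence
(`|t x| ≤ R + C` for `t ≥ 1`). -/
theorem pow_lim {S : Type*} [MeasurableSpace S] (μ : Measure S) [IsFiniteMeasure μ] {d : ℕ}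
    (hd : 2 ≤ d) {h : S → ℝ} (hm : Measurable h) {b : ℝ → S → ℝ} (hbm : ∀ t, Measurable (b t))
    {b' : S → ℝ} {R C t₀ : ℝ} (hR : ∀ u, |h u| ≤ R) (hb : ∀ t ≥ t₀, ∀ᵐ u ∂μ, |b t u| ≤ C)
    (hlim : ∀ᵐ u ∂μ, Tendsto (fun t => b t u) atTop (𝓝 (b' u))) :
    Tendsto (fun t : ℝ => ∫ u, ((t + h u + b t u / t) ^ d - t ^ d - d * h u * t ^ (d - 1)) /
      (d * t ^ (d - 2)) ∂μ) atTop (𝓝 (∫ u, (((d : ℝ) - 1) / 2 * h u ^ 2 + b' u) ∂μ)) := by
  obtain ⟨P, hPc, hP0, hP⟩ := Q5_rem d
  have hd0 : (0 : ℝ) < d := by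
    have : 0 < d := by omega
    exact_mod_cast this
  obtain ⟨K, hK⟩ := (isCompact_Icc (a := -(|R| + |C|))
    (b := |R| + |C|)).exists_bound_of_continuousOn hPc.continuousOn
  refine tendsto_integral_filter_of_dominated_convergence
    (fun _ => (|R| + |C|) ^ 2 * K / d + |C|) ?_ ?_ (integrable_const _) ?_
  · refine Eventually.of_forall fun t => Measurable.aestronglyMeasurable ?_
    have h1 := hbm t
    fun_prop
  · filter_upwards [eventually_ge_atTop (max 1 t₀)] with t ht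
    have ht1 : 1 ≤ t := (le_max_left _ _).trans ht
    have ht0 : 0 < t := by linarith
    filter_upwards [hb t ((le_max_right _ _).trans ht)] with u hu
    rw [Q5_alg hd hP ht0, Real.norm_eq_abs]
    have h1 : |b t u| ≤ |C| := hu.trans (le_abs_self C)
    have h2 : |h u| ≤ |R| := (hR u).trans (le_abs_self R)
    have h3 : |b t u / t| ≤ |C| := by
      rw [abs_div, abs_of_pos ht0, div_le_iff₀ ht0]
      nlinarith [abs_nonneg C]
    have h4 : |h u + b t u / t| ≤ |R| + |C| := (abs_add_le _ _).trans (add_le_add h2 h3)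
    have h5 : |(h u + b t u / t) / t| ≤ |R| + |C| := by
      rw [abs_div, abs_of_pos ht0, div_le_iff₀ ht0]
      nlinarith [abs_nonneg R, abs_nonneg C]
    have h6 : |P ((h u + b t u / t) / t)| ≤ K := hK _ (abs_le.1 h5)
    have h7 : (h u + b t u / t) ^ 2 ≤ (|R| + |C|) ^ 2 := by
      rw [← sq_abs]
      exact pow_le_pow_left₀ (abs_nonneg _) h4 2
    refine (abs_add_le _ _).trans (add_le_add ?_ h1)
    rw [abs_div, abs_mul, abs_of_pos hd0, abs_of_nonneg (sq_nonneg (h u + b t u / t))]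
    refine div_le_div_of_nonneg_right ?_ hd0.le
    exact mul_le_mul h7 h6 (abs_nonneg _) (sq_nonneg _)
  · filter_upwards [hlim] with u hu
    have h1 : Tendsto (fun t : ℝ => b t u / t) atTop (𝓝 0) := hu.div_atTop tendsto_id
    have h2 : Tendsto (fun t : ℝ => h u + b t u / t) atTop (𝓝 (h u + 0)) :=
      tendsto_const_nhds.add h1
    have h3 : Tendsto (fun t : ℝ => (h u + b t u / t) / t) atTop (𝓝 0) :=
      h2.div_atTop tendsto_id
    have h4 : Tendsto (fun t : ℝ => P ((h u + b t u / t) / t)) atTop (𝓝 (P 0)) :=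
      (hPc.tendsto 0).comp h3
    have h5 : Tendsto (fun t : ℝ => (h u + b t u / t) ^ 2 * P ((h u + b t u / t) / t) / d +
        b t u) atTop (𝓝 ((h u + 0) ^ 2 * P 0 / d + b' u)) :=
      (((h2.pow 2).mul h4).div_const _).add hu
    have h6 : (h u + 0) ^ 2 * P 0 / d + b' u = ((d : ℝ) - 1) / 2 * h u ^ 2 + b' u := by
      rw [hP0]
      field_simp
      ring
    rw [h6] at h5
    refine h5.congr' ?_
    filter_upwards [eventually_gt_atTop 0] with t ht
    exact (Q5_alg hd hP ht).symm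

end Pool.Agent.Saus2
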