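import Pool.Agent.Saus2.DefsQ
import Pool.Agent.Saus2.Q1

/-!
# Saus2, package Q3: bounds for the radial function of the parallel body
-/

namespace Pool.Agent.Saus2

open MeasureTheory ProbabilityTheory Set Metric Filter Topology Real
open scoped InnerProductSpace Pointwise
open Pool.Agent.Sausage27 (Eu Body skel hS betaV)

section S0

variable {E : Type*} [NormedAddCommGroup E] [InnerProductSpace ℝ E] [FiniteDimensional ℝ E]

/-- Q3. `‖r u - grd D u‖² = (r - hS D u)² + sg D u`; so the right end point belongs to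
`D + closedBall 0 t`, which is convex and contains `0` (`R ≤ t`). -/
theorem low_mem {D : Set E} (hD : Body D) {u : E} (hu : ‖u‖ = 1)
    (hdiff : DifferentiableAt ℝ (hS D) u) {R t r : ℝ} (hR : ∀ x ∈ D, ‖x‖ ≤ R) (hRt : R ≤ t)
    (hr0 : 0 ≤ r) (hr : r ≤ lowf D t u) : r • u ∈ D + closedBall (0 : E) t := by
  obtain ⟨hgD, hgi⟩ := grd_mem hD hdiff
  have ht0 : 0 ≤ t := (norm_nonneg _).trans ((hR _ hgD).trans hRt)
  have hconv : Convex ℝ (D + closedBall (0 : E) t) := hD.conv.add (convex_closedBall 0 t)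
  have h0 : (0 : E) ∈ D + closedBall (0 : E) t := by
    refine ⟨grd D u, hgD, -grd D u, ?_, add_neg_cancel _⟩
    rw [mem_closedBall_zero_iff, norm_neg]
    exact (hR _ hgD).trans hRt
  have hsg : 0 ≤ t ^ 2 - sg D u := by
    have h1 : ‖grd D u‖ ^ 2 ≤ t ^ 2 := by
      have h2 := (hR _ hgD).trans hRt
      gcongr
    unfold sg
    nlinarith [sq_nonneg (hS D u)]
  have hnorm : ‖lowf D t u • u - grd D u‖ ^ 2 = t ^ 2 := by
    rw [norm_sub_sq_real, norm_smul, hu, mul_one, real_inner_smul_left, real_inner_comm, hgi,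
      Real.norm_eq_abs, sq_abs]
    have h1 := Real.sq_sqrt hsg
    unfold lowf
    unfold sg at h1 ⊢
    nlinarith
  have hend : lowf D t u • u ∈ D + closedBall (0 : E) t := by
    refine ⟨grd D u, hgD, lowf D t u • u - grd D u, ?_, add_sub_cancel _ _⟩
    rw [mem_closedBall_zero_iff]
    exact (pow_le_pow_iff_left₀ (norm_nonneg _) ht0 two_ne_zero).1 hnorm.le
  rcases hr0.eq_or_lt with h | h
  · rw [← h, zero_smul]
    exact h0
  · have hl : 0 < lowf D t u := h.trans_le hr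
    have h1 := hconv h0 hend (a := 1 - r / lowf D t u) (b := r / lowf D t u)
      (sub_nonneg.2 ((div_le_one hl).2 hr)) (div_nonneg hr0 hl.le) (by ring)
    rwa [smul_zero, zero_add, smul_smul, div_mul_cancel₀ _ hl.ne'] at h1

/-- Q3. If `r • u = x + b` then `r ⟪u, v⟫ ≤ hS D v + t ‖v‖` for all `v`; take
`v = u - t⁻¹ w`, `w = grd D u - hS D u • u`, which is orthogonal to `u` with `‖w‖² = sg D u`, so
`⟪u, v⟫ = 1` and `t ‖v‖ = √(t² + sg D u)`. -/
theorem up_le {D : Set E} (hD : Body D) {u : E} (hu : ‖u‖ = 1)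
    (hdiff : DifferentiableAt ℝ (hS D) u) {t r : ℝ} (ht : 0 < t)
    (hr : r • u ∈ D + closedBall (0 : E) t) : r ≤ upf D t u := by
  obtain ⟨hgD, hgi⟩ := grd_mem hD hdiff
  obtain ⟨x, hx, b, hb, hxb⟩ := hr
  have hxb' : x + b = r • u := hxb
  set w : E := grd D u - hS D u • u with hw
  have huu : ⟪u, u⟫_ℝ = 1 := by rw [real_inner_self_eq_norm_sq, hu]; norm_num
  have huw : ⟪u, w⟫_ℝ = 0 := by
    rw [hw, inner_sub_right, real_inner_smul_right, huu, real_inner_comm, hgi]
    ring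
  have hww : ‖w‖ ^ 2 = sg D u := by
    rw [hw, norm_sub_sq_real, norm_smul, hu, mul_one, real_inner_smul_right, hgi,
      Real.norm_eq_abs, sq_abs]
    unfold sg
    ring
  have huv : ⟪u, u - t⁻¹ • w⟫_ℝ = 1 := by
    rw [inner_sub_right, real_inner_smul_right, huu, huw]
    ring
  have hv : t * ‖u - t⁻¹ • w‖ = √(t ^ 2 + sg D u) := by
    have h4 : (t * ‖u - t⁻¹ • w‖) ^ 2 = t ^ 2 + sg D u := by
      rw [mul_pow, norm_sub_sq_real, norm_smul, mul_pow, hww, hu, real_inner_smul_right, huw,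
        Real.norm_eq_abs, sq_abs]
      field_simp
      ring
    rw [← h4, Real.sqrt_sq (by positivity)]
  have h1 : ⟪r • u, u - t⁻¹ • w⟫_ℝ = r := by
    rw [real_inner_smul_left, huv, mul_one]
  rw [← hxb', inner_add_left] at h1
  have h2 : ⟪x, u - t⁻¹ • w⟫_ℝ ≤ hS D (u - t⁻¹ • w) := hD.inner_le hx _
  have h3 : ⟪b, u - t⁻¹ • w⟫_ℝ ≤ t * ‖u - t⁻¹ • w‖ := by
    refine (real_inner_le_norm _ _).trans ?_
    rw [mem_closedBall_zero_iff] at hb
    gcongr
  unfold upf
  rw [← hw, ← hv]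
  linarith

end S0

end Pool.Agent.Saus2
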