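import Pool.Agent.Saus2.DefsQ
import Pool.Agent.Sausage27.VO28
import Pool.Agent.Saus2.Q1
import Pool.Agent.Saus2.Q2
import Pool.Agent.Saus2.Q3
import Pool.Agent.Saus2.Q4

/-!
# Saus2, package Q6: volume of the parallel body between two integrals
-/

namespace Pool.Agent.Saus2

open MeasureTheory ProbabilityTheory Set Metric Filter Topology Real
open scoped InnerProductSpace Pointwise
open Pool.Agent.Sausage27 (Eu Body skel hS betaV)

section S0

variable {E : Type*} [NormedAddCommGroup E] [InnerProductSpace ℝ E] [FiniteDimensional ℝ E]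
  [MeasurableSpace E] [BorelSpace E]

private theorem Q6_sing (n : ℕ) (a : Ioi (0 : ℝ)) : Measure.volumeIoiPow n {a} = 0 := by
  have h1 : (Measure.comap Subtype.val volume : Measure (Ioi (0 : ℝ))) {a} = 0 := by
    rw [comap_subtype_coe_apply measurableSet_Ioi, image_singleton, Real.volume_singleton]
  exact withDensity_absolutelyContinuous _ _ h1

private theorem Q6_Iic (n : ℕ) (a : Ioi (0 : ℝ)) :
    Measure.volumeIoiPow n (Iic a) ≤ Measure.volumeIoiPow n (Iio a) := by
  rw [← Iio_union_right]
  refine (measure_union_le _ _).trans ?_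
  rw [Q6_sing, add_zero]

private theorem Q6_measurable {D : Set E} (hD : Body D) (t : ℝ) :
    Measurable (lowf D t) ∧ Measurable (upf D t) := by
  have h1 : Measurable (hS D) := hD.continuous_hS.measurable
  have h2 : Measurable (grd D) := measurable_grd hD
  have h3 : Measurable (sg D) := (h2.norm.pow_const 2).sub (h1.pow_const 2)
  have h4 : Measurable fun u : E => u - t⁻¹ • (grd D u - hS D u • u) :=
    measurable_id.sub ((h2.sub (h1.smul measurable_id)).const_smul t⁻¹)
  exact ⟨h1.add (measurable_const.sub h3).sqrt, (h1.comp h4).add (measurable_const.add h3).sqrt⟩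

private theorem Q6_abs {R t x y c : ℝ} (hR0 : 0 < R) (ht : 2 * R + 1 ≤ t) (hc : c ≤ 2 * R ^ 2)
    (hy : |y| ≤ R) (hx : |t * (x - t - y)| ≤ c) : 0 < x ∧ x ≤ t + 2 * R := by
  have htpos : 0 < t := by linarith
  rw [abs_mul, abs_of_pos htpos] at hx
  have h1 : |x - t - y| ≤ R := by
    refine le_of_mul_le_mul_left ?_ htpos
    nlinarith
  have h2 := abs_le.1 h1
  have h3 := abs_le.1 hy
  constructor <;> linarith [h2.1, h2.2, h3.1, h3.2]

/-- Q6. Polar coordinates (`Sausage27.VO28_lpolar`) for the indicator function of `D + t B`, with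
`low_mem` and `up_le` for almost every direction. -/
theorem vol_bounds {d : ℕ} (hd : 1 ≤ d) (hE : Module.finrank ℝ E = d) {D : Set E} (hD : Body D)
    {R t : ℝ} (hR0 : 0 < R) (hR : ∀ x ∈ D, ‖x‖ ≤ R) (ht : 2 * R + 1 ≤ t) :
    ∫ u : sphere (0 : E) 1, lowf D t u.1 ^ d / d ∂((volume : Measure E).toSphere) ≤
      (volume (D + closedBall (0 : E) t)).toReal ∧
    (volume (D + closedBall (0 : E) t)).toReal ≤
      ∫ u : sphere (0 : E) 1, upf D t u.1 ^ d / d ∂((volume : Measure E).toSphere) := by
  have hnt : Nontrivial E := Module.nontrivial_of_finrank_pos (R := ℝ) (by omega)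
  have htpos : 0 < t := by linarith
  have hRt : R ≤ t := by linarith
  have hcomp : IsCompact (D + closedBall (0 : E) t) := hD.comp.add (isCompact_closedBall _ _)
  have hmeas : MeasurableSet (D + closedBall (0 : E) t) := hcomp.isClosed.measurableSet
  have hfin : volume (D + closedBall (0 : E) t) ≠ ⊤ := hcomp.measure_ne_top
  have hdR : ((d - 1 : ℕ) : ℝ) + 1 = d := by
    rw [Nat.cast_sub hd]; simp
  have hdn : d - 1 + 1 = d := by omega
  have hd0 : (0 : ℝ) < d := by exact_mod_cast hd
  -- volume in polar coordinates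
  have hpol : volume (D + closedBall (0 : E) t) =
      ∫⁻ u : sphere (0 : E) 1, Measure.volumeIoiPow (d - 1)
        {r : Ioi (0 : ℝ) | r.1 • u.1 ∈ D + closedBall (0 : E) t}
        ∂((volume : Measure E).toSphere) := by
    rw [← lintegral_indicator_one hmeas,
      Sausage27.VO28_lpolar _ (measurable_one.indicator hmeas), hE]
    congr 1
    ext u
    have hms : MeasurableSet {r : Ioi (0 : ℝ) | r.1 • u.1 ∈ D + closedBall (0 : E) t} := by
      apply MeasurableSet.preimage hmeas
        (f := fun r : Ioi (0 : ℝ) => r.1 • u.1)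
      exact (measurable_subtype_coe.smul_const _)
    rw [← lintegral_indicator_one hms]
    congr 1
  have hhb : ∀ u : sphere (0 : E) 1, |hS D u.1| ≤ R := by
    intro u
    have hu : ‖u.1‖ = 1 := by simp
    obtain ⟨x, hx, hxe⟩ := hD.exists_eq u.1
    rw [hxe]
    refine (abs_real_inner_le_norm _ _).trans ?_
    rw [hu, mul_one]; exact hR x hx
  have hae := ae_diff_sphere hD
  have hlow : ∀ᵐ u : sphere (0 : E) 1 ∂((volume : Measure E).toSphere),
      0 < lowf D t u.1 ∧ lowf D t u.1 ≤ t + 2 * R := by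
    filter_upwards [hae] with u hu
    have hu1 : ‖u.1‖ = 1 := by simp
    exact Q6_abs hR0 ht (by nlinarith [sq_nonneg R]) (hhb u) (low_bd hD hu1 hu hR htpos hRt)
  have hup : ∀ᵐ u : sphere (0 : E) 1 ∂((volume : Measure E).toSphere),
      0 < upf D t u.1 ∧ upf D t u.1 ≤ t + 2 * R := by
    filter_upwards [hae] with u hu
    have hu1 : ‖u.1‖ = 1 := by simp
    exact Q6_abs hR0 ht le_rfl (hhb u) (up_bd hD hu1 hu hR0.le hR htpos)
  have hint : ∀ f : E → ℝ, Measurable f →
      (∀ᵐ u : sphere (0 : E) 1 ∂((volume : Measure E).toSphere), 0 < f u.1 ∧ f u.1 ≤ t + 2 * R) →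
      Integrable (fun u : sphere (0 : E) 1 => f u.1 ^ d / d) (volume : Measure E).toSphere := by
    intro f hf hb
    refine Integrable.of_bound
      (((hf.comp measurable_subtype_coe).pow_const d).div_const _).aestronglyMeasurable
      ((t + 2 * R) ^ d / d) ?_
    filter_upwards [hb] with u hu
    have h0 := hu.1
    rw [Real.norm_eq_abs, abs_of_nonneg (by positivity)]
    exact div_le_div_of_nonneg_right (pow_le_pow_left₀ hu.1.le hu.2 d) hd0.le
  have hmf := Q6_measurable hD t
  have hnn : ∀ f : E → ℝ, (∀ᵐ u : sphere (0 : E) 1 ∂((volume : Measure E).toSphere),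
      0 < f u.1 ∧ f u.1 ≤ t + 2 * R) →
      0 ≤ᵐ[(volume : Measure E).toSphere] fun u : sphere (0 : E) 1 => f u.1 ^ d / d := by
    intro f hb
    filter_upwards [hb] with u hu
    have h0 := hu.1
    show 0 ≤ f u.1 ^ d / d
    positivity
  constructor
  · rw [← ENNReal.ofReal_le_iff_le_toReal hfin, ofReal_integral_eq_lintegral_ofReal
      (hint _ hmf.1 hlow) (hnn _ hlow), hpol]
    refine lintegral_mono_ae ?_
    filter_upwards [hae, hlow] with u hu hpos
    have hu1 : ‖u.1‖ = 1 := by simp
    have h1 := Measure.volumeIoiPow_apply_Iio (d - 1) ⟨lowf D t u.1, hpos.1⟩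
    rw [hdR, hdn] at h1
    rw [← h1]
    apply measure_mono
    intro r hr
    have hr' : r.1 < lowf D t u.1 := hr
    exact low_mem hD hu1 hu hR hRt (le_of_lt r.2) hr'.le
  · apply ENNReal.toReal_le_of_le_ofReal
    · exact integral_nonneg_of_ae (hnn _ hup)
    · rw [ofReal_integral_eq_lintegral_ofReal (hint _ hmf.2 hup) (hnn _ hup), hpol]
      refine lintegral_mono_ae ?_
      filter_upwards [hae, hup] with u hu hpos
      have hu1 : ‖u.1‖ = 1 := by simp
      have h1 := Measure.volumeIoiPow_apply_Iio (d - 1) ⟨upf D t u.1, hpos.1⟩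
      rw [hdR, hdn] at h1
      rw [← h1]
      refine le_trans (measure_mono ?_) (Q6_Iic (d - 1) ⟨upf D t u.1, hpos.1⟩)
      intro r hr
      have hr' : r.1 ≤ upf D t u.1 := up_le hD hu1 hu htpos hr
      exact hr'

end S0

end Pool.Agent.Saus2
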