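import Pool.Agent.Saus2.DefsQ
import Pool.Agent.Saus2.Q1
import Pool.Agent.Saus2.Q2
import Pool.Agent.Saus2.Q4
import Pool.Agent.Saus2.Q5
import Pool.Agent.Saus2.Q6

/-!
# Saus2, package Q7: second order asymptotics of the volume of the parallel body
-/

namespace Pool.Agent.Saus2

open MeasureTheory ProbabilityTheory Set Metric Filter Topology Real
open scoped InnerProductSpace Pointwise
open Pool.Agent.Sausage27 (Eu Body skel hS betaV)

section S0

variable {E : Type*} [NormedAddCommGroup E] [InnerProductSpace ℝ E] [FiniteDimensional ℝ E]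
  [MeasurableSpace E] [BorelSpace E]

omit [InnerProductSpace ℝ E] [FiniteDimensional ℝ E] [MeasurableSpace E] [BorelSpace E] in
private theorem q7_norm (u : sphere (0 : E) 1) : ‖(u : E)‖ = 1 :=
  mem_sphere_zero_iff_norm.1 u.2

private theorem q7_sg {D : Set E} (hD : Body D) :
    Measurable fun u : sphere (0 : E) 1 => sg D u.1 := by
  have h1 : Measurable fun u : sphere (0 : E) 1 => grd D u.1 :=
    (measurable_grd hD).comp measurable_subtype_coe
  have h2 : Measurable fun u : sphere (0 : E) 1 => hS D u.1 :=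
    (hD.continuous_hS.comp continuous_subtype_val).measurable
  unfold sg
  exact (h1.norm.pow_const 2).sub (h2.pow_const 2)

private theorem q7_low {D : Set E} (hD : Body D) (t : ℝ) :
    Measurable fun u : sphere (0 : E) 1 => lowf D t u.1 := by
  have h2 : Measurable fun u : sphere (0 : E) 1 => hS D u.1 :=
    (hD.continuous_hS.comp continuous_subtype_val).measurable
  unfold lowf
  exact h2.add ((measurable_const.sub (q7_sg hD)).sqrt)

private theorem q7_up {D : Set E} (hD : Body D) (t : ℝ) :
    Measurable fun u : sphere (0 : E) 1 => upf D t u.1 := by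
  have h1 : Measurable fun u : sphere (0 : E) 1 => grd D u.1 :=
    (measurable_grd hD).comp measurable_subtype_coe
  have h2 : Measurable fun u : sphere (0 : E) 1 => hS D u.1 :=
    (hD.continuous_hS.comp continuous_subtype_val).measurable
  have h3 : Measurable fun u : sphere (0 : E) 1 => (u : E) := measurable_subtype_coe
  unfold upf
  refine Measurable.add ?_ ((measurable_const.add (q7_sg hD)).sqrt)
  exact hD.continuous_hS.measurable.comp
    (h3.sub ((h1.sub (h2.smul h3)).const_smul t⁻¹))

private theorem q7_eq {S : Type*} [MeasurableSpace S] {μ : Measure S} [IsFiniteMeasure μ] {d : ℕ}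
    (hd : 2 ≤ d) {h g : S → ℝ} (hm : Measurable h) (hgm : Measurable g) {R C t κ : ℝ}
    (ht : 0 < t) (hR : ∀ u, |h u| ≤ R) (hb : ∀ᵐ u ∂μ, |t * (g u - t - h u)| ≤ C)
    (hκ : (μ univ).toReal = d * κ) :
    ∫ u, ((t + h u + t * (g u - t - h u) / t) ^ d - t ^ d - d * h u * t ^ (d - 1)) /
      (d * t ^ (d - 2)) ∂μ =
    ((∫ u, g u ^ d / d ∂μ) - κ * t ^ d - (∫ u, h u ∂μ) * t ^ (d - 1)) / t ^ (d - 2) := by
  have hd0 : (d : ℝ) ≠ 0 := by
    have : d ≠ 0 := by omega
    exact_mod_cast this
  have hi1 : Integrable (fun u => g u ^ d / d) μ := by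
    have h1 : ∀ᵐ u ∂μ, ‖g u ^ d / d‖ ≤ (t + R + C / t) ^ d / d := by
      filter_upwards [hb] with u hu
      rw [abs_mul, abs_of_pos ht] at hu
      have h2 : |g u - t - h u| ≤ C / t := by
        rw [le_div_iff₀ ht, mul_comm]
        exact hu
      have h3 : |g u| ≤ t + R + C / t := by
        have h4 := abs_le.1 h2
        have h5 := abs_le.1 (hR u)
        rw [abs_le]
        constructor <;> linarith
      rw [norm_div, norm_pow, Real.norm_eq_abs, Real.norm_natCast]
      gcongr
    exact Integrable.of_bound ((hgm.pow_const d).div_const _).aestronglyMeasurable _ h1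
  have hi2 : Integrable h μ :=
    Integrable.of_bound hm.aestronglyMeasurable R (Eventually.of_forall fun u => by
      rw [Real.norm_eq_abs]
      exact hR u)
  have hpt : ∀ u, ((t + h u + t * (g u - t - h u) / t) ^ d - t ^ d - d * h u * t ^ (d - 1)) /
      (d * t ^ (d - 2)) = (g u ^ d / d - t ^ d / d - h u * t ^ (d - 1)) / t ^ (d - 2) := by
    intro u
    have h1 : t + h u + t * (g u - t - h u) / t = g u := by
      rw [mul_div_cancel_left₀ _ ht.ne']
      ring
    rw [h1]
    have h2 : t ^ (d - 2) ≠ 0 := pow_ne_zero _ ht.ne'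
    field_simp
  have hi3 : Integrable (fun u => g u ^ d / d - t ^ d / d) μ := hi1.sub (integrable_const _)
  have hi4 : Integrable (fun u => h u * t ^ (d - 1)) μ := hi2.mul_const _
  have e1 : ∫ u, (g u ^ d / d - t ^ d / d - h u * t ^ (d - 1)) ∂μ =
      (∫ u, g u ^ d / d ∂μ) - κ * t ^ d - (∫ u, h u ∂μ) * t ^ (d - 1) := by
    rw [integral_sub hi3 hi4, integral_sub hi1 (integrable_const _), integral_const,
      integral_mul_const, smul_eq_mul, Measure.real, hκ]
    congr 2
    field_simp
  rw [integral_congr_ae (Eventually.of_forall hpt), integral_div, e1]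

/-- Q7. Second order asymptotics of the volume of the parallel body: `vol_bounds`, `pow_lim` with
`b t u = t (lowf D t u - t - hS D u)` and `b t u = t (upf D t u - t - hS D u)`, and Q4; the mass of
`toSphere` is `d * volume (ball 0 1)`; `((d-1)/2) h² - sg/2 = (d h² - ‖grd‖²)/2`. -/
theorem steiner_two {d : ℕ} (hd : 2 ≤ d) (hE : Module.finrank ℝ E = d) {D : Set E}
    (hD : Body D) :
    Tendsto (fun t : ℝ => ((volume (D + closedBall (0 : E) t)).toReal -
      (volume (ball (0 : E) 1)).toReal * t ^ d -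
      (∫ u : sphere (0 : E) 1, hS D u.1 ∂((volume : Measure E).toSphere)) * t ^ (d - 1)) /
        t ^ (d - 2)) atTop
      (𝓝 (∫ u : sphere (0 : E) 1, (d * hS D u.1 ^ 2 - ‖grd D u.1‖ ^ 2) / 2
        ∂((volume : Measure E).toSphere))) := by
  obtain ⟨R, hR0, hR, hRh, -⟩ := hD.exists_bound
  have hh : ∀ u : sphere (0 : E) 1, |hS D u.1| ≤ R := fun u => by
    have h1 := hRh u.1
    rwa [q7_norm, mul_one] at h1
  have hmh : Measurable fun u : sphere (0 : E) 1 => hS D u.1 :=
    (hD.continuous_hS.comp continuous_subtype_val).measurable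
  have hκ : ((volume : Measure E).toSphere univ).toReal =
      d * (volume (ball (0 : E) 1)).toReal := by
    rw [Measure.toSphere_apply_univ, ENNReal.toReal_mul, hE, ENNReal.toReal_natCast]
  have hdf := ae_diff_sphere hD
  have hml : ∀ t : ℝ, Measurable fun u : sphere (0 : E) 1 =>
      t * (lowf D t u.1 - t - hS D u.1) := fun t =>
    (((q7_low hD t).sub_const t).sub hmh).const_mul t
  have hmu : ∀ t : ℝ, Measurable fun u : sphere (0 : E) 1 =>
      t * (upf D t u.1 - t - hS D u.1) := fun t =>
    (((q7_up hD t).sub_const t).sub hmh).const_mul t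
  have hbl : ∀ t ≥ 2 * R + 1, ∀ᵐ u : sphere (0 : E) 1 ∂((volume : Measure E).toSphere),
      |t * (lowf D t u.1 - t - hS D u.1)| ≤ R ^ 2 := fun t ht => by
    filter_upwards [hdf] with u hu
    exact low_bd hD (q7_norm u) hu hR (by linarith) (by linarith)
  have hbu : ∀ t ≥ 2 * R + 1, ∀ᵐ u : sphere (0 : E) 1 ∂((volume : Measure E).toSphere),
      |t * (upf D t u.1 - t - hS D u.1)| ≤ 2 * R ^ 2 := fun t ht => by
    filter_upwards [hdf] with u hu
    exact up_bd hD (q7_norm u) hu hR0.le hR (by linarith)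
  have hll : ∀ᵐ u : sphere (0 : E) 1 ∂((volume : Measure E).toSphere),
      Tendsto (fun t : ℝ => t * (lowf D t u.1 - t - hS D u.1)) atTop (𝓝 (-(sg D u.1) / 2)) := by
    filter_upwards [hdf] with u hu
    exact low_lim hD (q7_norm u) hu
  have hlu : ∀ᵐ u : sphere (0 : E) 1 ∂((volume : Measure E).toSphere),
      Tendsto (fun t : ℝ => t * (upf D t u.1 - t - hS D u.1)) atTop (𝓝 (-(sg D u.1) / 2)) := by
    filter_upwards [hdf] with u hu
    exact up_lim hD (q7_norm u) hu
  have hint : (fun u : sphere (0 : E) 1 =>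
      (((d : ℝ) - 1) / 2 * hS D u.1 ^ 2 + -(sg D u.1) / 2)) =
      fun u => (d * hS D u.1 ^ 2 - ‖grd D u.1‖ ^ 2) / 2 := by
    funext u
    unfold sg
    ring
  have L1 := pow_lim ((volume : Measure E).toSphere) hd hmh hml hh hbl hll
  have L2 := pow_lim ((volume : Measure E).toSphere) hd hmh hmu hh hbu hlu
  rw [hint] at L1 L2
  refine tendsto_of_tendsto_of_tendsto_of_le_of_le' L1 L2 ?_ ?_
  · filter_upwards [eventually_ge_atTop (2 * R + 1)] with t ht
    have ht0 : 0 < t := by linarith
    have hv := (vol_bounds (by omega) hE hD hR0 hR ht).1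
    rw [q7_eq hd hmh (q7_low hD t) ht0 hh (hbl t ht) hκ]
    have h2 : 0 < t ^ (d - 2) := pow_pos ht0 _
    gcongr
  · filter_upwards [eventually_ge_atTop (2 * R + 1)] with t ht
    have ht0 : 0 < t := by linarith
    have hv := (vol_bounds (by omega) hE hD hR0 hR ht).2
    rw [q7_eq hd hmh (q7_up hD t) ht0 hh (hbu t ht) hκ]
    have h2 : 0 < t ^ (d - 2) := pow_pos ht0 _
    gcongr

end S0

end Pool.Agent.Saus2
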