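import Pool.Agent.Saus2.DefsQ
import Pool.Agent.Sausage27.VO28

/-!
# Saus2, package Q8: spherical and Gaussian means
-/

namespace Pool.Agent.Saus2

open MeasureTheory ProbabilityTheory Set Metric Filter Topology Real
open scoped InnerProductSpace Pointwise
open Pool.Agent.Sausage27 (Eu Body skel hS betaV)

section S0

variable {E : Type*} [NormedAddCommGroup E] [InnerProductSpace ℝ E] [FiniteDimensional ℝ E]
  [MeasurableSpace E] [BorelSpace E]

/-- The standard Gaussian measure has density `(2π)^(-n/2) exp(-‖x‖²/2)`. -/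
private theorem Q8_density (j : ℕ) :
    (Measure.pi fun _ : Fin j => gaussianReal 0 1) = (volume : Measure (Fin j → ℝ)).withDensity
      (fun x => ENNReal.ofReal (∏ i, gaussianPDFReal 0 1 (x i))) := by
  apply Measure.pi_eq
  intro s hs
  rw [withDensity_apply _ (MeasurableSet.univ_pi hs)]
  have hm : ∀ i : Fin j, Integrable (gaussianPDFReal 0 1)
      ((volume : Measure ℝ).restrict (s i)) := fun i =>
    (integrable_gaussianPDFReal 0 1).restrict
  rw [volume_pi, Measure.restrict_pi_pi, ← ofReal_integral_eq_lintegral_ofReal]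
  · rw [integral_fintype_prod_eq_prod (f := fun _ : Fin j => gaussianPDFReal 0 1),
      ENNReal.ofReal_prod_of_nonneg]
    · refine Finset.prod_congr rfl fun i _ => ?_
      rw [gaussianReal_apply_eq_integral 0 one_ne_zero]
    · exact fun i _ => integral_nonneg fun x => gaussianPDFReal_nonneg 0 1 x
  · exact Integrable.fintype_prod hm
  · exact Filter.Eventually.of_forall fun x =>
      Finset.prod_nonneg fun i _ => gaussianPDFReal_nonneg 0 1 (x i)

private theorem Q8_prod {j : ℕ} (x : EuclideanSpace ℝ (Fin j)) :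
    ∏ i, gaussianPDFReal 0 1 (x i) = (√(2 * π))⁻¹ ^ j * rexp (-‖x‖ ^ 2 / 2) := by
  have h1 : ∀ t : ℝ, gaussianPDFReal 0 1 t = (√(2 * π))⁻¹ * rexp (-t ^ 2 / 2) := by
    intro t
    simp [gaussianPDFReal]
  simp_rw [h1]
  rw [Finset.prod_mul_distrib, Finset.prod_const, ← Real.exp_sum, EuclideanSpace.real_norm_sq_eq]
  simp [neg_div, Finset.sum_div]

private theorem Q8_pi (j : ℕ) (g : EuclideanSpace ℝ (Fin j) → ℝ) :
    ∫ x : Fin j → ℝ, g (WithLp.toLp 2 x)
        ∂(Measure.pi fun _ : Fin j => gaussianReal 0 1) =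
      (√(2 * π))⁻¹ ^ j * ∫ y : EuclideanSpace ℝ (Fin j), g y * rexp (-‖y‖ ^ 2 / 2) := by
  rw [Q8_density, integral_withDensity_eq_integral_toReal_smul]
  · have h1 : ∀ x : Fin j → ℝ, (ENNReal.ofReal (∏ i, gaussianPDFReal 0 1 (x i))).toReal •
        g (WithLp.toLp 2 x) =
        (fun y : EuclideanSpace ℝ (Fin j) => (√(2 * π))⁻¹ ^ j *
          (g y * rexp (-‖y‖ ^ 2 / 2))) (WithLp.toLp 2 x) := by
      intro x
      rw [ENNReal.toReal_ofReal
        (Finset.prod_nonneg fun i _ => gaussianPDFReal_nonneg 0 1 (x i)), smul_eq_mul]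
      have := Q8_prod (WithLp.toLp 2 x)
      simp only at this ⊢
      rw [this]
      ring
    simp_rw [h1]
    rw [(PiLp.volume_preserving_toLp (Fin j)).integral_comp
      (MeasurableEquiv.toLp 2 (Fin j → ℝ)).measurableEmbedding
      (fun y : EuclideanSpace ℝ (Fin j) => (√(2 * π))⁻¹ ^ j * (g y * rexp (-‖y‖ ^ 2 / 2)))]
    rw [integral_const_mul]
  · fun_prop
  · simp

private theorem Q8_gauss {f : E → ℝ} (hf : Measurable f) :
    ∫ x, f x ∂(stdGaussian E) =
      (Sausage27.Zg E)⁻¹ * ∫ x, f x * rexp (-‖x‖ ^ 2 / 2) := by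
  set b := stdOrthonormalBasis ℝ E with hb
  have hZ : (Sausage27.Zg E)⁻¹ = (√(2 * π))⁻¹ ^ (Module.finrank ℝ E) := by
    rw [Sausage27.GF8_Zg b, Fintype.card_fin, inv_pow]
  have hm : Measurable fun y : EuclideanSpace ℝ (Fin (Module.finrank ℝ E)) =>
      f (b.repr.symm y) := hf.comp b.repr.symm.continuous.measurable
  have h1 : ∫ x, f x ∂(stdGaussian E) =
      ∫ y, f (b.repr.symm y)
        ∂(stdGaussian (EuclideanSpace ℝ (Fin (Module.finrank ℝ E)))) := by
    rw [← stdGaussian_map b.repr.symm, integral_map (by fun_prop) hf.aestronglyMeasurable]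
  have h2 : ∫ y, f (b.repr.symm y)
        ∂(stdGaussian (EuclideanSpace ℝ (Fin (Module.finrank ℝ E)))) =
      ∫ x : Fin (Module.finrank ℝ E) → ℝ, f (b.repr.symm (WithLp.toLp 2 x))
        ∂(Measure.pi fun _ : Fin (Module.finrank ℝ E) => gaussianReal 0 1) := by
    rw [← map_pi_eq_stdGaussian, integral_map (by fun_prop) hm.aestronglyMeasurable]
  rw [h1, h2, Q8_pi _ fun y => f (b.repr.symm y), hZ]
  congr 1
  rw [← b.repr.symm.measurePreserving.integral_comp
    b.repr.symm.toHomeomorph.measurableEmbedding (fun x : E => f x * rexp (-‖x‖ ^ 2 / 2))]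
  refine integral_congr_ae (Filter.Eventually.of_forall fun x => ?_)
  simp only [LinearIsometryEquiv.norm_map]

private theorem Q8_polar {f : E → ℝ} (k : ℕ)
    (hhom : ∀ r : ℝ, 0 < r → ∀ x, f (r • x) = r ^ k * f x) (hE : 1 ≤ Module.finrank ℝ E) :
    ∫ x, f x * rexp (-‖x‖ ^ 2 / 2) =
      (∫ u : sphere (0 : E) 1, f u.1 ∂((volume : Measure E).toSphere)) *
        ∫ r : Ioi (0 : ℝ), r.1 ^ k * rexp (-r.1 ^ 2 / 2)
          ∂(Measure.volumeIoiPow (Module.finrank ℝ E - 1)) := by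
  have : Nontrivial E := Module.finrank_pos_iff (R := ℝ).1 (by omega)
  rw [Sausage27.VO28_polar, ← integral_prod_mul]
  congr 1
  ext p
  have hu : ‖p.1.1‖ = 1 := by simp
  have hp : (0 : ℝ) < p.2.1 := p.2.2
  rw [hhom _ hp, norm_smul, hu, Real.norm_of_nonneg hp.le]
  ring_nf

private theorem Q8_normsq : ∫ x : E, ‖x‖ ^ 2 * rexp (-‖x‖ ^ 2 / 2) =
    Module.finrank ℝ E * Sausage27.Zg E := by
  set b := stdOrthonormalBasis ℝ E with hb
  have h1 : ∀ x : E, ‖x‖ ^ 2 * rexp (-‖x‖ ^ 2 / 2) =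
      ∑ i, ⟪b i, x⟫_ℝ ^ 2 * rexp (-‖x‖ ^ 2 / 2) := by
    intro x
    rw [← Finset.sum_mul, ← Sausage27.GF8_norm_sq b x]
  simp_rw [h1]
  rw [integral_finsetSum]
  · rw [Finset.sum_congr rfl fun i _ => Sausage27.gauss_sq (b.norm_eq_one i)]
    simp
  · exact fun i _ => Sausage27.GF8_integrable_sq (b.norm_eq_one i)

private theorem Q8_ball :
    0 < (volume (ball (0 : E) 1)).toReal :=
  ENNReal.toReal_pos (measure_ball_pos _ _ one_pos).ne' measure_ball_lt_top.ne

/-- Q8. The density of the standard Gaussian measure and polar coordinates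
(`Sausage27.VO28_polar`); both constants are determined by `f = ‖x‖²` and `f = 1`. -/
theorem sphere_gauss_two {f : E → ℝ} (hf : Measurable f)
    (hhom : ∀ r : ℝ, 0 < r → ∀ x, f (r • x) = r ^ 2 * f x) (hE : 1 ≤ Module.finrank ℝ E) :
    ∫ u : sphere (0 : E) 1, f u.1 ∂((volume : Measure E).toSphere) =
      (volume (ball (0 : E) 1)).toReal * ∫ x, f x ∂(stdGaussian E) := by
  have hn : (0 : ℝ) < Module.finrank ℝ E := by exact_mod_cast hE
  have hZ := Sausage27.Zg_pos (E := E)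
  have hv := Q8_ball (E := E)
  have h1 := Q8_polar (f := fun x : E => ‖x‖ ^ 2) 2
    (fun r hr x => by rw [norm_smul, Real.norm_of_nonneg hr.le, mul_pow]) hE
  have h2 : ∫ u : sphere (0 : E) 1, (fun x : E => ‖x‖ ^ 2) u.1
      ∂((volume : Measure E).toSphere) =
      Module.finrank ℝ E * (volume (ball (0 : E) 1)).toReal := by
    simp [measureReal_def]
  rw [h2, Q8_normsq] at h1
  rw [Q8_gauss hf, Q8_polar 2 hhom hE]
  generalize (∫ r : Ioi (0 : ℝ), r.1 ^ 2 * rexp (-r.1 ^ 2 / 2)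
          ∂(Measure.volumeIoiPow (Module.finrank ℝ E - 1))) = I at *
  have h3 : Sausage27.Zg E = (volume (ball (0 : E) 1)).toReal * I := by
    have := mul_left_cancel₀ hn.ne' (h1.trans (mul_assoc _ _ _))
    exact this
  generalize (∫ u : sphere (0 : E) 1, f u.1 ∂((volume : Measure E).toSphere)) = S at *
  rw [show (volume (ball (0 : E) 1)).toReal * ((Sausage27.Zg E)⁻¹ * (S * I)) =
    ((volume (ball (0 : E) 1)).toReal * I) * (Sausage27.Zg E)⁻¹ * S by ring, ← h3,
    mul_inv_cancel₀ hZ.ne', one_mul]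

/-- Q8. -/
theorem sphere_gauss_zero {f : E → ℝ} (hf : Measurable f)
    (hhom : ∀ r : ℝ, 0 < r → ∀ x, f (r • x) = f x) (hE : 1 ≤ Module.finrank ℝ E) :
    ∫ u : sphere (0 : E) 1, f u.1 ∂((volume : Measure E).toSphere) =
      Module.finrank ℝ E * (volume (ball (0 : E) 1)).toReal * ∫ x, f x ∂(stdGaussian E) := by
  have hZ := Sausage27.Zg_pos (E := E)
  have h1 := Q8_polar (f := fun _ : E => 1) 0 (fun r hr x => by simp) hE
  have h2 : ∫ u : sphere (0 : E) 1, (fun _ : E => (1 : ℝ)) u.1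
      ∂((volume : Measure E).toSphere) =
      Module.finrank ℝ E * (volume (ball (0 : E) 1)).toReal := by
    simp [measureReal_def]
  have h0 : ∫ x : E, (fun _ : E => (1 : ℝ)) x * rexp (-‖x‖ ^ 2 / 2) = Sausage27.Zg E := by
    simp only [one_mul]
    rfl
  rw [h2, h0] at h1
  rw [Q8_gauss hf, Q8_polar 0 (fun r hr x => by rw [hhom r hr, pow_zero, one_mul]) hE]
  generalize (∫ r : Ioi (0 : ℝ), r.1 ^ 0 * rexp (-r.1 ^ 2 / 2)
          ∂(Measure.volumeIoiPow (Module.finrank ℝ E - 1))) = I at *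
  generalize (∫ u : sphere (0 : E) 1, f u.1 ∂((volume : Measure E).toSphere)) = S at *
  rw [show (Module.finrank ℝ E : ℝ) * (volume (ball (0 : E) 1)).toReal *
    ((Sausage27.Zg E)⁻¹ * (S * I)) =
    ((Module.finrank ℝ E : ℝ) * (volume (ball (0 : E) 1)).toReal * I) *
      (Sausage27.Zg E)⁻¹ * S by ring, ← h1,
    mul_inv_cancel₀ hZ.ne', one_mul]

end S0

end Pool.Agent.Saus2
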