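import Pool.Agent.Saus2.DefsQ
import Pool.Agent.Saus2.Q1
import Pool.Agent.Saus2.Q7
import Pool.Agent.Saus2.Q8
import Pool.Agent.Saus2.Q11

/-!
# Saus2, package Q12: Gaussian formula for planar area
-/

namespace Pool.Agent.Saus2

open MeasureTheory ProbabilityTheory Set Metric Filter Topology Real
open scoped InnerProductSpace Pointwise
open Pool.Agent.Sausage27 (Eu Body skel hS betaV)

private theorem q12_grd_bound {K : Set ℂ} (hK : Body K) :
    ∃ R : ℝ, 0 ≤ R ∧ ∀ x, ‖grd K x‖ ≤ R := by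
  obtain ⟨R, hR⟩ := hK.comp.isBounded.exists_norm_le
  refine ⟨max R 0, le_max_right _ _, fun x => ?_⟩
  by_cases hx : DifferentiableAt ℝ (hS K) x
  · exact (hR _ (grd_mem hK hx).1).trans (le_max_left _ _)
  · unfold grd
    rw [fderiv_zero_of_not_differentiableAt hx]
    simp

private theorem q12_grd_smul {K : Set ℂ} (hK : Body K) {r : ℝ} (hr : 0 < r) (x : ℂ) :
    grd K (r • x) = grd K x := (diff_smul hK hr x).2

private theorem q12_const {A b c p q L : ℝ}
    (h : Tendsto (fun t : ℝ => (A + b * t + c * t ^ 2 - p * t ^ 2 - q * t ^ 1) / t ^ 0) atTop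
      (𝓝 L)) : A = L := by
  have h1 : Tendsto (fun t : ℝ => A + (b - q) * t + (c - p) * t ^ 2) atTop (𝓝 L) := by
    refine h.congr fun t => ?_
    rw [pow_zero, div_one]
    ring
  have h2 : Tendsto (fun t : ℝ => 2 * t) atTop atTop :=
    tendsto_id.const_mul_atTop (by norm_num)
  have h3 : Tendsto (fun t : ℝ => 3 * t) atTop atTop :=
    tendsto_id.const_mul_atTop (by norm_num)
  -- third difference with nodes `t`, `2 t`, `3 t`: `3 p(t) - 3 p(2 t) + p(3 t) = p(0)`
  have h4 := ((h1.const_mul 3).sub ((h1.comp h2).const_mul 3)).add (h1.comp h3)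
  have h5 : Tendsto (fun _ : ℝ => A) atTop (𝓝 (3 * L - 3 * L + L)) := by
    refine h4.congr fun t => ?_
    simp only [Function.comp]
    ring
  have h6 := tendsto_nhds_unique tendsto_const_nhds h5
  linarith

/-- Q12. `steiner_two` for `E = ℂ` and `planar_poly`: `A + b t + c t² - π t² - t ∫ h` tends to
`∫ (2 h² - ‖grd‖²)/2`, so it is constant and `A` is that integral; then `sphere_gauss_two`,
`sphere_gauss_zero` (`Module.finrank ℝ ℂ = 2`, the unit disc has area `π`). -/
theorem planar_gauss {K : Set ℂ} (hK : Body K) :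
    (volume K).toReal = π * (∫ ζ, hS K ζ ^ 2 ∂(stdGaussian ℂ) -
      ∫ ζ, ‖grd K ζ‖ ^ 2 ∂(stdGaussian ℂ)) := by
  have hfin : Module.finrank ℝ ℂ = 2 := Complex.finrank_real_complex
  have hball : (volume (ball (0 : ℂ) 1)).toReal = π := by
    rw [Complex.volume_ball]
    simp
  obtain ⟨b, c, hbc⟩ := planar_poly hK
  have h1 := steiner_two (le_refl 2) hfin hK
  have h2 : (volume K).toReal =
      ∫ u : sphere (0 : ℂ) 1, (((2 : ℕ) : ℝ) * hS K u.1 ^ 2 - ‖grd K u.1‖ ^ 2) / 2
        ∂((volume : Measure ℂ).toSphere) := by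
    refine q12_const (b := b) (c := c) (p := (volume (ball (0 : ℂ) 1)).toReal)
      (q := ∫ u : sphere (0 : ℂ) 1, hS K u.1 ∂((volume : Measure ℂ).toSphere)) ?_
    refine h1.congr' ?_
    filter_upwards [eventually_ge_atTop (0 : ℝ)] with t ht
    rw [hbc t ht]
  obtain ⟨R, hR0, hR⟩ := q12_grd_bound hK
  have hmg : Measurable (grd K) := measurable_grd hK
  have hint1 : Integrable (fun u : sphere (0 : ℂ) 1 => hS K u.1 ^ 2)
      ((volume : Measure ℂ).toSphere) := by
    have hc : Continuous fun u : sphere (0 : ℂ) 1 => hS K u.1 ^ 2 :=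
      (hK.continuous_hS.comp continuous_subtype_val).pow 2
    exact hc.integrable_of_hasCompactSupport (HasCompactSupport.of_compactSpace _)
  have hint2 : Integrable (fun u : sphere (0 : ℂ) 1 => ‖grd K u.1‖ ^ 2)
      ((volume : Measure ℂ).toSphere) := by
    refine Integrable.of_bound (C := R ^ 2) ?_ ?_
    · exact ((hmg.comp measurable_subtype_coe).norm.pow_const 2).aestronglyMeasurable
    · refine ae_of_all _ fun u => ?_
      rw [Real.norm_of_nonneg (by positivity)]
      exact pow_le_pow_left₀ (norm_nonneg _) (hR _) 2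
  have h3 : ∫ u : sphere (0 : ℂ) 1, (((2 : ℕ) : ℝ) * hS K u.1 ^ 2 - ‖grd K u.1‖ ^ 2) / 2
        ∂((volume : Measure ℂ).toSphere) =
      (∫ u : sphere (0 : ℂ) 1, hS K u.1 ^ 2 ∂((volume : Measure ℂ).toSphere)) -
        (∫ u : sphere (0 : ℂ) 1, ‖grd K u.1‖ ^ 2 ∂((volume : Measure ℂ).toSphere)) / 2 := by
    rw [← integral_div, ← integral_sub hint1 (hint2.div_const 2)]
    refine integral_congr_ae (ae_of_all _ fun u => ?_)
    push_cast
    ring
  have h4 := sphere_gauss_two (E := ℂ) (f := fun x => hS K x ^ 2)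
    (hK.continuous_hS.measurable.pow_const 2)
    (fun r hr x => by rw [hK.hS_smul hr.le, mul_pow]) (by rw [hfin]; norm_num)
  have h5 := sphere_gauss_zero (E := ℂ) (f := fun x => ‖grd K x‖ ^ 2)
    (hmg.norm.pow_const 2)
    (fun r hr x => by rw [q12_grd_smul hK hr]) (by rw [hfin]; norm_num)
  rw [h2, h3, h4, h5, hball, hfin]
  push_cast
  ring

end Pool.Agent.Saus2
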