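import Pool.Agent.Saus2.DefsQ
import Pool.Agent.Saus2.Q1

/-!
# Saus2, package Q13: the shadow in the complex plane
-/

namespace Pool.Agent.Saus2

open MeasureTheory ProbabilityTheory Set Metric Filter Topology Real
open scoped InnerProductSpace Pointwise
open Pool.Agent.Sausage27 (Eu Body skel hS betaV)

section S0

variable {E : Type*} [NormedAddCommGroup E] [InnerProductSpace ℝ E] [FiniteDimensional ℝ E]
  [MeasurableSpace E] [BorelSpace E]

/-- Q13. `Complex.measurableEquivRealProd` is volume preserving. -/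
theorem sarea_eq_cshadow (D : Set E) (p : E × E) :
    sarea D p = (volume (cshadow D p)).toReal := by
  have h1 := Complex.volume_preserving_equiv_real_prod.measure_preimage_equiv (shadow D p)
  have h2 : Complex.measurableEquivRealProd ⁻¹' (shadow D p) = cshadow D p := by
    ext w
    constructor
    · rintro ⟨z, hz, h⟩
      refine ⟨z, hz, ?_⟩
      have h3 : (⟪p.1, z⟫_ℝ, ⟪p.2, z⟫_ℝ) = (w.re, w.im) := h
      have h4 := congrArg Prod.fst h3
      have h5 := congrArg Prod.snd h3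
      exact Complex.ext h4 h5
    · rintro ⟨z, hz, h⟩
      exact ⟨z, hz, by rw [← h]; rfl⟩
  unfold sarea
  rw [← h1, h2]

/-- the map of the shadow -/
private noncomputable def Q13L (p : E × E) : E →L[ℝ] ℂ :=
  (Complex.equivRealProdCLM.symm : ℝ × ℝ →L[ℝ] ℂ).comp ((innerSL ℝ p.1).prod (innerSL ℝ p.2))

private theorem Q13L_apply (p : E × E) (z : E) : Q13L p z = (⟨⟪p.1, z⟫_ℝ, ⟪p.2, z⟫_ℝ⟩ : ℂ) := by
  apply Complex.ext
  · simp [Q13L]
  · simp [Q13L]

private theorem Q13_image (D : Set E) (p : E × E) : cshadow D p = Q13L p '' D := by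
  unfold cshadow
  exact image_congr fun z _ => (Q13L_apply p z).symm

/-- the adjoint map -/
private noncomputable def Q13M (p : E × E) : ℂ →L[ℝ] E :=
  Complex.reCLM.smulRight p.1 + Complex.imCLM.smulRight p.2

private theorem Q13M_apply (p : E × E) (ζ : ℂ) : Q13M p ζ = ζ.re • p.1 + ζ.im • p.2 := by
  simp [Q13M]

private theorem Q13_inner (a b : ℂ) : ⟪a, b⟫_ℝ = a.re * b.re + a.im * b.im := by
  rw [Complex.inner]
  simp [Complex.mul_re]
  ring

/-- Q13. -/
theorem cshadow_body {D : Set E} (hD : Body D) (p : E × E) : Body (cshadow D p) := by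
  rw [Q13_image]
  exact ⟨hD.conv.linear_image (Q13L p).toLinearMap, hD.comp.image (Q13L p).continuous,
    hD.ne.image _⟩

/-- Q13. -/
theorem hS_cshadow {D : Set E} (hD : Body D) (p : E × E) (ζ : ℂ) :
    hS (cshadow D p) ζ = hS D (ζ.re • p.1 + ζ.im • p.2) := by
  unfold hS cshadow
  rw [image_image]
  congr 1
  refine image_congr fun z _ => ?_
  rw [Q13_inner, inner_add_right, inner_smul_right, inner_smul_right, real_inner_comm z p.1,
    real_inner_comm z p.2]
  ring

/-- Q13. Chain rule: the gradient is `(⟪g, p.1⟫, ⟪g, p.2⟫)`. -/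
theorem grd_cshadow {D : Set E} (hD : Body D) (p : E × E) (ζ : ℂ)
    (hdiff : DifferentiableAt ℝ (hS D) (ζ.re • p.1 + ζ.im • p.2)) :
    ‖grd (cshadow D p) ζ‖ ^ 2 = ⟪grd D (ζ.re • p.1 + ζ.im • p.2), p.1⟫_ℝ ^ 2 +
      ⟪grd D (ζ.re • p.1 + ζ.im • p.2), p.2⟫_ℝ ^ 2 := by
  have h1 : hS (cshadow D p) = fun ξ => hS D (Q13M p ξ) := by
    funext ξ
    rw [hS_cshadow hD p ξ, Q13M_apply]
  have hd : DifferentiableAt ℝ (hS D) (Q13M p ζ) := by
    rw [Q13M_apply]
    exact hdiff
  have h2 : ∀ v : ℂ, ⟪grd (cshadow D p) ζ, v⟫_ℝ =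
      ⟪grd D (ζ.re • p.1 + ζ.im • p.2), v.re • p.1 + v.im • p.2⟫_ℝ := by
    intro v
    rw [grd_inner, grd_inner, h1]
    have h3 : HasFDerivAt (fun ξ => hS D (Q13M p ξ))
        ((fderiv ℝ (hS D) (Q13M p ζ)).comp (Q13M p)) ζ :=
      hd.hasFDerivAt.comp ζ (Q13M p).hasFDerivAt
    rw [h3.fderiv, ContinuousLinearMap.comp_apply, Q13M_apply, Q13M_apply]
  have h4 := h2 1
  have h5 := h2 Complex.I
  rw [Q13_inner] at h4 h5
  simp only [Complex.one_re, Complex.one_im, Complex.I_re, Complex.I_im, mul_one, mul_zero,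
    add_zero, zero_add, one_smul, zero_smul] at h4 h5
  rw [Complex.sq_norm, Complex.normSq_apply, h4, h5]
  ring

end S0

end Pool.Agent.Saus2
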