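import Pool.Agent.Saus2.DefsC

/-!
# Saus2, package G1: Gaussian laws by characteristic functions
-/

namespace Pool.Agent.Saus2

open MeasureTheory ProbabilityTheory Set Metric Filter Topology Real
open scoped InnerProductSpace
open Pool.Agent.Sausage27 (Eu Body skel hS betaV)

section S0

variable {E : Type*} [NormedAddCommGroup E] [InnerProductSpace ℝ E] [FiniteDimensional ℝ E]
  [MeasurableSpace E] [BorelSpace E]

omit [FiniteDimensional ℝ E] [MeasurableSpace E] [BorelSpace E] in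
private theorem inner_perp_G1 (e x y : E) : ⟪perp e x, y⟫_ℝ = ⟪x, perp e y⟫_ℝ := by
  unfold perp
  rw [inner_sub_left, inner_sub_right, real_inner_smul_left, real_inner_smul_right,
    real_inner_comm e x]
  ring

omit [FiniteDimensional ℝ E] [MeasurableSpace E] [BorelSpace E] in
private theorem norm_perp_G1 {e : E} (he : ‖e‖ = 1) (x : E) :
    ‖perp e x‖ ^ 2 = ‖x‖ ^ 2 - ⟪e, x⟫_ℝ ^ 2 := by
  have h1 : ⟪e, e⟫_ℝ = 1 := by rw [real_inner_self_eq_norm_sq, he, one_pow]
  rw [← real_inner_self_eq_norm_sq, ← real_inner_self_eq_norm_sq]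
  unfold perp
  rw [inner_sub_left, inner_sub_right, inner_sub_right, real_inner_smul_left,
    real_inner_smul_right, real_inner_smul_left, real_inner_smul_right, h1,
    real_inner_comm e x]
  ring

/-- Ga. Characteristic functions: `∫ exp(i⟪ξ, t e + perp e x⟫) = exp(-⟪ξ,e⟫²/2) exp(-‖perp e ξ‖²/2)`
(`integral_prod_mul`, `charFun_stdGaussian`, `charFun_gaussianReal`), and
`⟪ξ,e⟫² + ‖perp e ξ‖² = ‖ξ‖²`; then `Measure.ext_of_charFun`. -/
theorem gauss_split {e : E} (he : ‖e‖ = 1) :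
    ((gaussianReal 0 1).prod (stdGaussian E)).map (fun p : ℝ × E => p.1 • e + perp e p.2) =
      stdGaussian E := by
  have hmeas : Measurable (fun p : ℝ × E => p.1 • e + perp e p.2) := by
    unfold perp
    fun_prop
  have := Measure.isProbabilityMeasure_map
    (μ := (gaussianReal 0 1).prod (stdGaussian E)) hmeas.aemeasurable
  apply Measure.ext_of_charFun
  ext ξ
  rw [charFun_apply, integral_map hmeas.aemeasurable
    (Measurable.aestronglyMeasurable (by fun_prop)), charFun_stdGaussian]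
  have h1 : ∀ p : ℝ × E, Complex.exp ((⟪p.1 • e + perp e p.2, ξ⟫_ℝ : ℂ) * Complex.I) =
      Complex.exp (((⟪e, ξ⟫_ℝ : ℝ) : ℂ) * (p.1 : ℂ) * Complex.I) *
        Complex.exp (((⟪p.2, perp e ξ⟫_ℝ : ℝ) : ℂ) * Complex.I) := by
    intro p
    rw [← Complex.exp_add, inner_add_left, real_inner_smul_left, inner_perp_G1]
    congr 1
    push_cast
    ring
  simp only [h1]
  rw [integral_prod_mul (μ := gaussianReal 0 1) (ν := stdGaussian E)
    (fun x : ℝ => Complex.exp (((⟪e, ξ⟫_ℝ : ℝ) : ℂ) * (x : ℂ) * Complex.I))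
    (fun y : E => Complex.exp (((⟪y, perp e ξ⟫_ℝ : ℝ) : ℂ) * Complex.I)), ← charFun_apply_real,
    ← charFun_apply, charFun_gaussianReal, charFun_stdGaussian, ← Complex.exp_add]
  congr 1
  have h2 : ((‖perp e ξ‖ : ℝ) : ℂ) ^ 2 = (‖ξ‖ : ℂ) ^ 2 - ((⟪e, ξ⟫_ℝ : ℝ) : ℂ) ^ 2 := by
    exact_mod_cast congrArg (fun t : ℝ => (t : ℂ)) (norm_perp_G1 he ξ)
  rw [h2]
  simp only [Complex.ofReal_zero, mul_zero, zero_mul, NNReal.coe_one, Complex.ofReal_one,
    one_mul]
  ring

/-- Gb. Characteristic functions again. -/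
theorem gauss_comb {a b : ℝ} (h : a ^ 2 + b ^ 2 = 1) :
    ((stdGaussian E).prod (stdGaussian E)).map (fun p : E × E => a • p.1 + b • p.2) =
      stdGaussian E := by
  have hmeas : Measurable (fun p : E × E => a • p.1 + b • p.2) := by fun_prop
  have := Measure.isProbabilityMeasure_map
    (μ := (stdGaussian E).prod (stdGaussian E)) hmeas.aemeasurable
  apply Measure.ext_of_charFun
  ext ξ
  rw [charFun_apply, integral_map hmeas.aemeasurable
    (Measurable.aestronglyMeasurable (by fun_prop)), charFun_stdGaussian]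
  have h1 : ∀ p : E × E, Complex.exp ((⟪a • p.1 + b • p.2, ξ⟫_ℝ : ℂ) * Complex.I) =
      Complex.exp (((⟪p.1, a • ξ⟫_ℝ : ℝ) : ℂ) * Complex.I) *
        Complex.exp (((⟪p.2, b • ξ⟫_ℝ : ℝ) : ℂ) * Complex.I) := by
    intro p
    rw [← Complex.exp_add, inner_add_left, real_inner_smul_left, real_inner_smul_left,
      real_inner_smul_right, real_inner_smul_right]
    congr 1
    push_cast
    ring
  simp only [h1]
  rw [integral_prod_mul (μ := stdGaussian E) (ν := stdGaussian E)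
    (fun x : E => Complex.exp (((⟪x, a • ξ⟫_ℝ : ℝ) : ℂ) * Complex.I))
    (fun y : E => Complex.exp (((⟪y, b • ξ⟫_ℝ : ℝ) : ℂ) * Complex.I)), ← charFun_apply,
    ← charFun_apply, charFun_stdGaussian, charFun_stdGaussian, ← Complex.exp_add]
  congr 1
  have h2 : ∀ c : ℝ, ((‖c • ξ‖ : ℝ) : ℂ) ^ 2 = (c : ℂ) ^ 2 * (‖ξ‖ : ℂ) ^ 2 := by
    intro c
    have h3 : ‖c • ξ‖ ^ 2 = c ^ 2 * ‖ξ‖ ^ 2 := by
      rw [norm_smul, mul_pow, Real.norm_eq_abs, sq_abs]
    exact_mod_cast congrArg (fun t : ℝ => (t : ℂ)) h3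
  have h4 : (a : ℂ) ^ 2 + (b : ℂ) ^ 2 = 1 := by exact_mod_cast congrArg (fun t : ℝ => (t : ℂ)) h
  rw [h2, h2]
  linear_combination (-(‖ξ‖ : ℂ) ^ 2 / 2) * h4

/-- Gp. Characteristic functions: `⟪P x, v⟫ = ⟪x, v⟫` for `v : W`. -/
theorem gauss_sub (W : Submodule ℝ E) :
    (stdGaussian E).map (fun x => W.orthogonalProjectionOnto x) = stdGaussian W := by
  have hmeas : Measurable (fun x : E => W.orthogonalProjectionOnto x) :=
    (W.orthogonalProjectionOnto).continuous.measurable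
  have := Measure.isProbabilityMeasure_map (μ := stdGaussian E) hmeas.aemeasurable
  apply Measure.ext_of_charFun
  ext v
  rw [charFun_apply, integral_map hmeas.aemeasurable
    (Measurable.aestronglyMeasurable (by fun_prop)), charFun_stdGaussian]
  have h1 : ∀ x : E, ⟪W.orthogonalProjectionOnto x, v⟫_ℝ = ⟪x, (v : E)⟫_ℝ := by
    intro x
    exact Submodule.inner_orthogonalProjectionOnto_eq_of_mem_right v x
  simp only [h1]
  rw [← charFun_apply, charFun_stdGaussian]
  rfl

end S0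

end Pool.Agent.Saus2
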