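import Pool.Agent.Saus2.DefsQ
import Pool.Agent.Saus2.Q1
import Pool.Agent.Saus2.Q2
import Pool.Agent.Saus2.G1

/-!
# Saus2, package Q14: two Gaussian means
-/

namespace Pool.Agent.Saus2

open MeasureTheory ProbabilityTheory Set Metric Filter Topology Real
open scoped InnerProductSpace Pointwise
open Pool.Agent.Sausage27 (Eu Body skel hS betaV)

section S0

variable {E : Type*} [NormedAddCommGroup E] [InnerProductSpace ℝ E] [FiniteDimensional ℝ E]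
  [MeasurableSpace E] [BorelSpace E]

private theorem Q14_sq (g : E) : ∫ y, ⟪g, y⟫_ℝ ^ 2 ∂(stdGaussian E) = ‖g‖ ^ 2 := by
  have h1 := variance_dual_stdGaussian (E := E) (innerSL ℝ g)
  rw [innerSL_apply_norm] at h1
  rw [← h1, variance_of_integral_eq_zero (by fun_prop) (integral_strongDual_stdGaussian _)]
  rfl

private theorem Q14_int : Integrable (fun x : E => ‖x‖ ^ 2) (stdGaussian E) := by
  have h : MemLp id 2 (stdGaussian E) := IsGaussian.memLp_two_id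
  exact h.integrable_norm_pow two_ne_zero

omit [MeasurableSpace E] [BorelSpace E] in
private theorem Q14_bound {D : Set E} (hD : Body D) :
    ∃ R : ℝ, 0 < R ∧ ∀ x, ‖grd D x‖ ≤ R := by
  obtain ⟨R, hR, h1, -, -⟩ := hD.exists_bound
  refine ⟨R, hR, fun x => ?_⟩
  by_cases hx : DifferentiableAt ℝ (hS D) x
  · exact h1 _ (grd_mem hD hx).1
  · have h2 : grd D x = 0 := by
      unfold grd
      rw [fderiv_zero_of_not_differentiableAt hx]
      simp
    rw [h2, norm_zero]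
    exact hR.le

private theorem Q14_rot (θ : ℝ) :
    ((stdGaussian E).prod (stdGaussian E)).map (ContinuousLinearMap.rotation θ) =
      (stdGaussian E).prod (stdGaussian E) :=
  IsGaussian.map_rotation_eq_self (by simp) θ

/-- Q14. With `ρ = ‖ζ‖`, the pair `z = (ζ.re x + ζ.im y)/ρ`, `z' = (-ζ.im x + ζ.re y)/ρ` is again
standard Gaussian (characteristic functions, as `gauss_comb`); `hS D (ρ z) = ρ hS D z`. -/
theorem mean_h_sq {D : Set E} (hD : Body D) (ζ : ℂ) :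
    ∫ p : E × E, hS D (ζ.re • p.1 + ζ.im • p.2) ^ 2 ∂((stdGaussian E).prod (stdGaussian E)) =
      ‖ζ‖ ^ 2 * ∫ x, hS D x ^ 2 ∂(stdGaussian E) := by
  by_cases hζ : ζ = 0
  · subst hζ
    have h0 : hS D (0 : E) = 0 := by
      have h1 := hD.hS_smul (t := 0) le_rfl (0 : E)
      simpa using h1
    simp [h0]
  · have hρ : 0 < ‖ζ‖ := norm_pos_iff.2 hζ
    have hab : (ζ.re / ‖ζ‖) ^ 2 + (ζ.im / ‖ζ‖) ^ 2 = 1 := by
      have h1 : ‖ζ‖ ^ 2 = ζ.re ^ 2 + ζ.im ^ 2 := by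
        rw [Complex.sq_norm, Complex.normSq_apply]
        ring
      rw [div_pow, div_pow, ← add_div, ← h1]
      exact div_self (pow_ne_zero 2 hρ.ne')
    have h2 : ∀ p : E × E, hS D (ζ.re • p.1 + ζ.im • p.2) ^ 2 =
        ‖ζ‖ ^ 2 * hS D ((ζ.re / ‖ζ‖) • p.1 + (ζ.im / ‖ζ‖) • p.2) ^ 2 := by
      intro p
      have h3 : ζ.re • p.1 + ζ.im • p.2 =
          ‖ζ‖ • ((ζ.re / ‖ζ‖) • p.1 + (ζ.im / ‖ζ‖) • p.2) := by
        rw [smul_add, smul_smul, smul_smul, mul_div_cancel₀ _ hρ.ne', mul_div_cancel₀ _ hρ.ne']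
      rw [h3, hD.hS_smul hρ.le, mul_pow]
    rw [integral_congr_ae (Filter.Eventually.of_forall h2), integral_const_mul]
    congr 1
    have hcont : Continuous (fun x : E => hS D x ^ 2) := hD.continuous_hS.pow 2
    conv_rhs => rw [← gauss_comb (E := E) hab]
    rw [integral_map (by fun_prop) hcont.aestronglyMeasurable]

/-- Q14. With the same substitution `⟪g, x⟫² + ⟪g, y⟫² = ⟪g, z⟫² + ⟪g, z'⟫²`, `g = grd D z`,
`⟪g, z⟫ = hS D z`, and `∫ ⟪g, z'⟫² dγ(z') = ‖g‖²`. -/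
theorem mean_grd_sq {D : Set E} (hD : Body D) {ζ : ℂ} (hζ : ζ ≠ 0) :
    ∫ p : E × E, (⟪grd D (ζ.re • p.1 + ζ.im • p.2), p.1⟫_ℝ ^ 2 +
      ⟪grd D (ζ.re • p.1 + ζ.im • p.2), p.2⟫_ℝ ^ 2) ∂((stdGaussian E).prod (stdGaussian E)) =
      ∫ x, hS D x ^ 2 ∂(stdGaussian E) + ∫ x, ‖grd D x‖ ^ 2 ∂(stdGaussian E) := by
  obtain ⟨R, hR, hb⟩ := Q14_bound hD
  have hρ : 0 < ‖ζ‖ := norm_pos_iff.2 hζ
  obtain ⟨θ, hc, hs⟩ : ∃ θ : ℝ, ζ.re = ‖ζ‖ * Real.cos θ ∧ ζ.im = ‖ζ‖ * Real.sin θ :=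
    ⟨Complex.arg ζ, (Complex.norm_mul_cos_arg ζ).symm, (Complex.norm_mul_sin_arg ζ).symm⟩
  have hgm := measurable_grd hD
  have hm1 : Measurable (fun x : E => ⟪grd D x, x⟫_ℝ ^ 2) :=
    (hgm.inner measurable_id).pow_const 2
  have hm2 : Measurable (fun q : E × E => ⟪grd D q.1, q.2⟫_ℝ ^ 2) :=
    ((hgm.comp measurable_fst).inner measurable_snd).pow_const 2
  have hbd : ∀ x y : E, ‖⟪grd D x, y⟫_ℝ ^ 2‖ ≤ R ^ 2 * ‖y‖ ^ 2 := by
    intro x y
    rw [norm_pow, ← mul_pow]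
    refine pow_le_pow_left₀ (norm_nonneg _) ?_ 2
    exact (norm_inner_le_norm _ _).trans (mul_le_mul_of_nonneg_right (hb x) (norm_nonneg y))
  have hi1 : Integrable (fun x : E => ⟪grd D x, x⟫_ℝ ^ 2) (stdGaussian E) :=
    (Q14_int.const_mul (R ^ 2)).mono' hm1.aestronglyMeasurable
      (Filter.Eventually.of_forall fun x => hbd x x)
  have hi1' : Integrable (fun q : E × E => ⟪grd D q.1, q.1⟫_ℝ ^ 2)
      ((stdGaussian E).prod (stdGaussian E)) := hi1.comp_fst (stdGaussian E)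
  have hi2 : Integrable (fun q : E × E => ⟪grd D q.1, q.2⟫_ℝ ^ 2)
      ((stdGaussian E).prod (stdGaussian E)) :=
    ((Q14_int.comp_snd (stdGaussian E)).const_mul (R ^ 2)).mono' hm2.aestronglyMeasurable
      (Filter.Eventually.of_forall fun q => hbd q.1 q.2)
  have hF : ∀ p : E × E, ⟪grd D (ζ.re • p.1 + ζ.im • p.2), p.1⟫_ℝ ^ 2 +
      ⟪grd D (ζ.re • p.1 + ζ.im • p.2), p.2⟫_ℝ ^ 2 =
        (fun q : E × E => ⟪grd D q.1, q.1⟫_ℝ ^ 2 + ⟪grd D q.1, q.2⟫_ℝ ^ 2)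
          (ContinuousLinearMap.rotation θ p) := by
    intro p
    have h1 : ζ.re • p.1 + ζ.im • p.2 = ‖ζ‖ • (Real.cos θ • p.1 + Real.sin θ • p.2) := by
      rw [smul_add, smul_smul, smul_smul, ← hc, ← hs]
    rw [h1, (diff_smul hD hρ _).2]
    change _ = ⟪grd D (Real.cos θ • p.1 + Real.sin θ • p.2),
      Real.cos θ • p.1 + Real.sin θ • p.2⟫_ℝ ^ 2 +
      ⟪grd D (Real.cos θ • p.1 + Real.sin θ • p.2), -Real.sin θ • p.1 + Real.cos θ • p.2⟫_ℝ ^ 2
    generalize grd D (Real.cos θ • p.1 + Real.sin θ • p.2) = g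
    rw [inner_add_right, inner_add_right, real_inner_smul_right, real_inner_smul_right,
      real_inner_smul_right, real_inner_smul_right]
    linear_combination (-(⟪g, p.1⟫_ℝ ^ 2 + ⟪g, p.2⟫_ℝ ^ 2)) * Real.cos_sq_add_sin_sq θ
  rw [integral_congr_ae (Filter.Eventually.of_forall hF),
    ← integral_map (μ := (stdGaussian E).prod (stdGaussian E))
      (φ := ContinuousLinearMap.rotation θ)
      (f := fun q : E × E => ⟪grd D q.1, q.1⟫_ℝ ^ 2 + ⟪grd D q.1, q.2⟫_ℝ ^ 2)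
      (by fun_prop) ((hm1.comp measurable_fst).add hm2).aestronglyMeasurable,
    Q14_rot, integral_add hi1' hi2]
  congr 1
  · rw [integral_prod _ hi1']
    have h1 : ∀ x : E, ∫ _ : E, ⟪grd D x, x⟫_ℝ ^ 2 ∂(stdGaussian E) = ⟪grd D x, x⟫_ℝ ^ 2 := by
      intro x
      simp
    simp only [h1]
    refine integral_congr_ae ?_
    filter_upwards [gauss_ac.ae_le (ae_diff hD)] with x hx
    rw [(grd_mem hD hx).2]
  · rw [integral_prod _ hi2]
    simp only [Q14_sq]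

end S0

end Pool.Agent.Saus2
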