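import Pool.Agent.Saus2.DefsQ
import Pool.Agent.Saus2.Q1
import Pool.Agent.Saus2.Q2
import Pool.Agent.Saus2.Q12
import Pool.Agent.Saus2.Q13
import Pool.Agent.Saus2.Q14

/-!
# Saus2, package Q15: Gaussian formula for V2
-/

namespace Pool.Agent.Saus2

open MeasureTheory ProbabilityTheory Set Metric Filter Topology Real
open scoped InnerProductSpace Pointwise
open Pool.Agent.Sausage27 (Eu Body skel hS betaV)

section S0

variable {E : Type*} [NormedAddCommGroup E] [InnerProductSpace ℝ E] [FiniteDimensional ℝ E]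
  [MeasurableSpace E] [BorelSpace E]

private theorem Q15_norm_sq : ∫ x : E, ‖x‖ ^ 2 ∂(stdGaussian E) = Module.finrank ℝ E := by
  have h5 : ∀ x : E, ‖x‖ ^ 2 = ∑ i, (⟪stdOrthonormalBasis ℝ E i, x⟫_ℝ) ^ 2 := fun x =>
    ((stdOrthonormalBasis ℝ E).sum_sq_inner_right x).symm
  have h6 : ∀ i, MemLp (fun x : E => ⟪stdOrthonormalBasis ℝ E i, x⟫_ℝ) 2 (stdGaussian E) := by
    intro i
    exact (innerSL ℝ (stdOrthonormalBasis ℝ E i)).comp_memLp'
      (IsGaussian.memLp_two_id (μ := stdGaussian E))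
  simp_rw [h5]
  rw [integral_finsetSum _ fun i _ => (h6 i).integrable_sq]
  have h7 : ∀ i, ∫ x : E, ⟪stdOrthonormalBasis ℝ E i, x⟫_ℝ ^ 2 ∂(stdGaussian E) = 1 := by
    intro i
    have h8 := variance_dual_stdGaussian (E := E) (innerSL ℝ (stdOrthonormalBasis ℝ E i))
    rw [variance_of_integral_eq_zero
      (innerSL ℝ (stdOrthonormalBasis ℝ E i)).continuous.aemeasurable
      (integral_strongDual_stdGaussian _)] at h8
    simpa using h8
  simp [h7]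

private theorem Q15_int_sq : Integrable (fun x : E => ‖x‖ ^ 2) (stdGaussian E) :=
  ((IsGaussian.memLp_two_id (μ := stdGaussian E)).norm).integrable_sq

private theorem Q15_int_sq2 : Integrable (fun p : E × E => ‖p.1‖ ^ 2 + ‖p.2‖ ^ 2)
    ((stdGaussian E).prod (stdGaussian E)) :=
  (Q15_int_sq.comp_fst (stdGaussian E)).add (Q15_int_sq.comp_snd (stdGaussian E))

omit [MeasurableSpace E] [BorelSpace E] in
private theorem Q15_grd_norm {D : Set E} (hD : Body D) {R : ℝ} (hR0 : 0 < R)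
    (hR : ∀ x ∈ D, ‖x‖ ≤ R) (x : E) : ‖grd D x‖ ≤ R := by
  by_cases h : DifferentiableAt ℝ (hS D) x
  · exact hR _ (grd_mem hD h).1
  · have h1 : grd D x = 0 := by
      unfold grd
      rw [fderiv_zero_of_not_differentiableAt h]
      simp
    rw [h1, norm_zero]
    exact hR0.le

omit [FiniteDimensional ℝ E] [MeasurableSpace E] [BorelSpace E] in
private theorem Q15_vec (ζ : ℂ) (p : E × E) :
    ‖ζ.re • p.1 + ζ.im • p.2‖ ^ 2 ≤ 2 * (‖p.1‖ ^ 2 + ‖p.2‖ ^ 2) * ‖ζ‖ ^ 2 := by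
  have h1 : ‖ζ.re • p.1 + ζ.im • p.2‖ ≤ ‖ζ‖ * (‖p.1‖ + ‖p.2‖) := by
    refine (norm_add_le _ _).trans ?_
    rw [norm_smul, norm_smul, mul_add]
    have h2 : ‖ζ.re‖ ≤ ‖ζ‖ := Complex.abs_re_le_norm ζ
    have h3 : ‖ζ.im‖ ≤ ‖ζ‖ := Complex.abs_im_le_norm ζ
    exact add_le_add (mul_le_mul_of_nonneg_right h2 (norm_nonneg _))
      (mul_le_mul_of_nonneg_right h3 (norm_nonneg _))
  have h4 : ‖ζ.re • p.1 + ζ.im • p.2‖ ^ 2 ≤ (‖ζ‖ * (‖p.1‖ + ‖p.2‖)) ^ 2 :=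
    pow_le_pow_left₀ (norm_nonneg _) h1 2
  refine h4.trans ?_
  have h5 : (‖p.1‖ + ‖p.2‖) ^ 2 ≤ 2 * (‖p.1‖ ^ 2 + ‖p.2‖ ^ 2) := by
    nlinarith [sq_nonneg (‖p.1‖ - ‖p.2‖)]
  rw [mul_pow, mul_comm]
  exact mul_le_mul_of_nonneg_right h5 (sq_nonneg _)

private theorem Q15_int1 {D : Set E} (hD : Body D) :
    Integrable (fun q : (E × E) × ℂ => hS D (q.2.re • q.1.1 + q.2.im • q.1.2) ^ 2)
      (((stdGaussian E).prod (stdGaussian E)).prod (stdGaussian ℂ)) := by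
  obtain ⟨R, hR0, -, hR, -⟩ := hD.exists_bound
  have h1 : Integrable (fun q : (E × E) × ℂ =>
      (2 * R ^ 2 * (‖q.1.1‖ ^ 2 + ‖q.1.2‖ ^ 2)) * ‖q.2‖ ^ 2)
      (((stdGaussian E).prod (stdGaussian E)).prod (stdGaussian ℂ)) :=
    (Q15_int_sq2.const_mul (2 * R ^ 2)).mul_prod Q15_int_sq
  have hc : Continuous (fun q : (E × E) × ℂ => hS D (q.2.re • q.1.1 + q.2.im • q.1.2) ^ 2) := by
    refine (hD.continuous_hS.comp ?_).pow 2
    have h2 : Continuous (fun q : (E × E) × ℂ => q.2.re) :=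
      Complex.continuous_re.comp continuous_snd
    have h3 : Continuous (fun q : (E × E) × ℂ => q.2.im) :=
      Complex.continuous_im.comp continuous_snd
    exact (h2.smul (continuous_fst.comp continuous_fst)).add
      (h3.smul (continuous_snd.comp continuous_fst))
  refine Integrable.mono' h1 hc.aestronglyMeasurable (Filter.Eventually.of_forall fun q => ?_)
  rw [Real.norm_eq_abs, abs_pow]
  have h2 : |hS D (q.2.re • q.1.1 + q.2.im • q.1.2)| ^ 2 ≤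
      (R * ‖q.2.re • q.1.1 + q.2.im • q.1.2‖) ^ 2 := pow_le_pow_left₀ (abs_nonneg _) (hR _) 2
  have h3 := mul_le_mul_of_nonneg_left (Q15_vec q.2 q.1) (sq_nonneg R)
  rw [mul_pow] at h2
  exact h2.trans (h3.trans (le_of_eq (by ring)))

private theorem Q15_int2 {D : Set E} (hD : Body D) :
    Integrable (fun q : (E × E) × ℂ =>
      ⟪grd D (q.2.re • q.1.1 + q.2.im • q.1.2), q.1.1⟫_ℝ ^ 2 +
        ⟪grd D (q.2.re • q.1.1 + q.2.im • q.1.2), q.1.2⟫_ℝ ^ 2)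
      (((stdGaussian E).prod (stdGaussian E)).prod (stdGaussian ℂ)) := by
  obtain ⟨R, hR0, hR, -, -⟩ := hD.exists_bound
  have h1 : Integrable (fun q : (E × E) × ℂ => R ^ 2 * (‖q.1.1‖ ^ 2 + ‖q.1.2‖ ^ 2))
      (((stdGaussian E).prod (stdGaussian E)).prod (stdGaussian ℂ)) :=
    (Q15_int_sq2.const_mul (R ^ 2)).comp_fst (stdGaussian ℂ)
  have hv : Measurable (fun q : (E × E) × ℂ => q.2.re • q.1.1 + q.2.im • q.1.2) := by
    have h2 : Continuous (fun q : (E × E) × ℂ => q.2.re) :=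
      Complex.continuous_re.comp continuous_snd
    have h3 : Continuous (fun q : (E × E) × ℂ => q.2.im) :=
      Complex.continuous_im.comp continuous_snd
    exact ((h2.smul (continuous_fst.comp continuous_fst)).add
      (h3.smul (continuous_snd.comp continuous_fst))).measurable
  have hg : Measurable (fun q : (E × E) × ℂ => grd D (q.2.re • q.1.1 + q.2.im • q.1.2)) :=
    (measurable_grd hD).comp hv
  have hm : Measurable (fun q : (E × E) × ℂ =>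
      ⟪grd D (q.2.re • q.1.1 + q.2.im • q.1.2), q.1.1⟫_ℝ ^ 2 +
        ⟪grd D (q.2.re • q.1.1 + q.2.im • q.1.2), q.1.2⟫_ℝ ^ 2) :=
    ((hg.inner (measurable_fst.comp measurable_fst)).pow_const 2).add
      ((hg.inner (measurable_snd.comp measurable_fst)).pow_const 2)
  refine Integrable.mono' h1 hm.aestronglyMeasurable (Filter.Eventually.of_forall fun q => ?_)
  have h2 : ∀ z : E, ⟪grd D (q.2.re • q.1.1 + q.2.im • q.1.2), z⟫_ℝ ^ 2 ≤ R ^ 2 * ‖z‖ ^ 2 := by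
    intro z
    have h3 := abs_real_inner_le_norm (grd D (q.2.re • q.1.1 + q.2.im • q.1.2)) z
    have h4 := mul_le_mul_of_nonneg_right
      (Q15_grd_norm hD hR0 hR (q.2.re • q.1.1 + q.2.im • q.1.2)) (norm_nonneg z)
    rw [← mul_pow, ← sq_abs]
    exact pow_le_pow_left₀ (abs_nonneg _) (h3.trans h4) 2
  rw [Real.norm_eq_abs, abs_of_nonneg (add_nonneg (sq_nonneg _) (sq_nonneg _)), mul_add]
  exact add_le_add (h2 _) (h2 _)

private theorem Q15_ae {D : Set E} (hD : Body D) {ζ : ℂ} (hζ : ζ ≠ 0) :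
    ∀ᵐ p ∂((stdGaussian E).prod (stdGaussian E)),
      DifferentiableAt ℝ (hS D) (ζ.re • p.1 + ζ.im • p.2) := by
  have hρ : 0 < ‖ζ‖ := norm_pos_iff.mpr hζ
  have h1 : (ζ.re / ‖ζ‖) ^ 2 + (ζ.im / ‖ζ‖) ^ 2 = 1 := by
    rw [div_pow, div_pow, ← add_div, Complex.sq_norm, Complex.normSq_apply, ← pow_two, ← pow_two]
    refine div_self ?_
    have h2 : ζ.re ^ 2 + ζ.im ^ 2 = ‖ζ‖ ^ 2 := by
      rw [Complex.sq_norm, Complex.normSq_apply, ← pow_two, ← pow_two]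
    rw [h2]
    positivity
  have h2 : ∀ᵐ x ∂(stdGaussian E), DifferentiableAt ℝ (hS D) x := gauss_ac.ae_le (ae_diff hD)
  rw [← gauss_comb h1] at h2
  have h3 := ae_of_ae_map (Measurable.aemeasurable (by fun_prop)) h2
  filter_upwards [h3] with p hp
  have h4 := (diff_smul hD hρ ((ζ.re / ‖ζ‖) • p.1 + (ζ.im / ‖ζ‖) • p.2)).1.mpr hp
  rw [smul_add, smul_smul, smul_smul, mul_div_cancel₀ _ hρ.ne', mul_div_cancel₀ _ hρ.ne'] at h4
  exact h4

private theorem Q15_ne : ∀ᵐ ζ : ℂ ∂(stdGaussian ℂ), ζ ≠ 0 := by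
  have h : ∀ᵐ ζ : ℂ ∂(volume : Measure ℂ), ζ ≠ 0 := by
    rw [ae_iff]
    simp
  exact gauss_ac.ae_le h

private theorem Q15_ae_ae {D : Set E} (hD : Body D) :
    ∀ᵐ p ∂((stdGaussian E).prod (stdGaussian E)), ∀ᵐ ζ : ℂ ∂(stdGaussian ℂ),
      DifferentiableAt ℝ (hS D) (ζ.re • p.1 + ζ.im • p.2) := by
  have hv : Measurable (fun q : (E × E) × ℂ => q.2.re • q.1.1 + q.2.im • q.1.2) := by
    have h2 : Continuous (fun q : (E × E) × ℂ => q.2.re) :=
      Complex.continuous_re.comp continuous_snd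
    have h3 : Continuous (fun q : (E × E) × ℂ => q.2.im) :=
      Complex.continuous_im.comp continuous_snd
    exact ((h2.smul (continuous_fst.comp continuous_fst)).add
      (h3.smul (continuous_snd.comp continuous_fst))).measurable
  have hm : MeasurableSet {q : (E × E) × ℂ |
      DifferentiableAt ℝ (hS D) (q.2.re • q.1.1 + q.2.im • q.1.2)} :=
    hv (measurableSet_of_differentiableAt ℝ (hS D))
  rw [Measure.ae_ae_comm (p := fun (p : E × E) (ζ : ℂ) =>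
    DifferentiableAt ℝ (hS D) (ζ.re • p.1 + ζ.im • p.2)) hm]
  filter_upwards [Q15_ne] with ζ hζ
  exact Q15_ae hD hζ

/-- Q15. `planar_gauss` for the shadow, Fubini, `mean_h_sq` with `∫ ‖ζ‖² = 2`, `mean_grd_sq`;
`hS D` is differentiable at `ζ.re x + ζ.im y` for almost all `(ζ, x, y)` (for fixed `ζ ≠ 0` the law
of this vector is that of `‖ζ‖` times a standard Gaussian vector; `gauss_ac`, `ae_diff`). -/
theorem V2_gauss {D : Set E} (hD : Body D) :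
    V2 D = π * (∫ x, hS D x ^ 2 ∂(stdGaussian E) - ∫ x, ‖grd D x‖ ^ 2 ∂(stdGaussian E)) := by
  have hF1 := Q15_int1 hD
  have hF2 := Q15_int2 hD
  have h1 : V2 D = ∫ p : E × E, π *
      ((∫ ζ : ℂ, hS D (ζ.re • p.1 + ζ.im • p.2) ^ 2 ∂(stdGaussian ℂ)) -
        ∫ ζ : ℂ, (⟪grd D (ζ.re • p.1 + ζ.im • p.2), p.1⟫_ℝ ^ 2 +
          ⟪grd D (ζ.re • p.1 + ζ.im • p.2), p.2⟫_ℝ ^ 2) ∂(stdGaussian ℂ))
      ∂((stdGaussian E).prod (stdGaussian E)) := by
    unfold V2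
    refine integral_congr_ae ?_
    filter_upwards [Q15_ae_ae hD] with p hp
    have h2 : (volume (shadow D p)).toReal = (volume (cshadow D p)).toReal :=
      sarea_eq_cshadow D p
    have h3 : ∫ ζ, ‖grd (cshadow D p) ζ‖ ^ 2 ∂(stdGaussian ℂ) =
        ∫ ζ : ℂ, (⟪grd D (ζ.re • p.1 + ζ.im • p.2), p.1⟫_ℝ ^ 2 +
          ⟪grd D (ζ.re • p.1 + ζ.im • p.2), p.2⟫_ℝ ^ 2) ∂(stdGaussian ℂ) := by
      refine integral_congr_ae ?_
      filter_upwards [hp] with ζ hζ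
      exact grd_cshadow hD p ζ hζ
    rw [h2, planar_gauss (cshadow_body hD p), h3]
    simp only [hS_cshadow hD]
  rw [h1, integral_const_mul]
  congr 1
  rw [integral_sub hF1.integral_prod_left hF2.integral_prod_left]
  have h4 : ∫ p : E × E, ∫ ζ : ℂ, hS D (ζ.re • p.1 + ζ.im • p.2) ^ 2 ∂(stdGaussian ℂ)
      ∂((stdGaussian E).prod (stdGaussian E)) = 2 * ∫ x, hS D x ^ 2 ∂(stdGaussian E) := by
    rw [integral_integral_swap (f := fun (p : E × E) (ζ : ℂ) =>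
      hS D (ζ.re • p.1 + ζ.im • p.2) ^ 2) hF1]
    simp only [mean_h_sq hD]
    rw [integral_mul_const, Q15_norm_sq, Complex.finrank_real_complex]
    norm_num
  have h5 : ∫ p : E × E, ∫ ζ : ℂ, (⟪grd D (ζ.re • p.1 + ζ.im • p.2), p.1⟫_ℝ ^ 2 +
          ⟪grd D (ζ.re • p.1 + ζ.im • p.2), p.2⟫_ℝ ^ 2) ∂(stdGaussian ℂ)
      ∂((stdGaussian E).prod (stdGaussian E)) =
      ∫ x, hS D x ^ 2 ∂(stdGaussian E) + ∫ x, ‖grd D x‖ ^ 2 ∂(stdGaussian E) := by
    rw [integral_integral_swap (f := fun (p : E × E) (ζ : ℂ) =>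
      ⟪grd D (ζ.re • p.1 + ζ.im • p.2), p.1⟫_ℝ ^ 2 +
        ⟪grd D (ζ.re • p.1 + ζ.im • p.2), p.2⟫_ℝ ^ 2) hF2]
    have h6 : ∫ ζ : ℂ, (∫ p : E × E, (⟪grd D (ζ.re • p.1 + ζ.im • p.2), p.1⟫_ℝ ^ 2 +
        ⟪grd D (ζ.re • p.1 + ζ.im • p.2), p.2⟫_ℝ ^ 2)
        ∂((stdGaussian E).prod (stdGaussian E))) ∂(stdGaussian ℂ) =
        ∫ _ζ : ℂ, (∫ x, hS D x ^ 2 ∂(stdGaussian E) + ∫ x, ‖grd D x‖ ^ 2 ∂(stdGaussian E))
          ∂(stdGaussian ℂ) := by
      refine integral_congr_ae ?_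
      filter_upwards [Q15_ne] with ζ hζ
      exact mean_grd_sq hD hζ
    rw [h6, integral_const]
    simp
  rw [h4, h5]
  ring

end S0

end Pool.Agent.Saus2
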