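import Pool.Agent.Saus2.DefsQ
import Pool.Agent.Sausage27.ConstA

/-!
# Saus2, package Q16: the volumes of unit balls
-/

namespace Pool.Agent.Saus2

open MeasureTheory ProbabilityTheory Set Metric Filter Topology Real
open scoped InnerProductSpace Pointwise
open Pool.Agent.Sausage27 (Eu Body skel hS betaV)

/-- Q16. `κ_d = 2 π κ_{d-2} / d`. -/
theorem kap_rec {d : ℕ} (hd : 2 ≤ d) :
    Sausage27.kap d * ((d : ℝ) / 2) = π * Sausage27.kap (d - 2) := by
  obtain ⟨m, rfl⟩ : ∃ m, d = m + 2 := ⟨d - 2, by omega⟩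
  rw [Nat.add_sub_cancel, Sausage27.ConstA_kap, Sausage27.ConstA_kap]
  have h1 : (((m + 2 : ℕ) : ℝ)) / 2 = (m : ℝ) / 2 + 1 := by
    push_cast
    ring
  have h2 : (0 : ℝ) < (m : ℝ) / 2 + 1 := by positivity
  have h3 := Real.Gamma_pos_of_pos h2
  have h4 : √π ^ 2 = π := Real.sq_sqrt Real.pi_pos.le
  rw [h1, Real.Gamma_add_one h2.ne', pow_add, h4]
  field_simp

end Pool.Agent.Saus2
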