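import Pool.Agent.Saus2.DefsQ
import Pool.Agent.Sausage27.VO28
import Pool.Agent.Saus2.Q1
import Pool.Agent.Saus2.Q7
import Pool.Agent.Saus2.Q8
import Pool.Agent.Saus2.Q15
import Pool.Agent.Saus2.Q16

/-!
# Saus2, package Q17: the Steiner formula to second order
-/

namespace Pool.Agent.Saus2

open MeasureTheory ProbabilityTheory Set Metric Filter Topology Real
open scoped InnerProductSpace Pointwise
open Pool.Agent.Sausage27 (Eu Body skel hS betaV)

private lemma Q17_ball {d : ℕ} (hd : 2 ≤ d) :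
    (volume (ball (0 : Eu d) 1)).toReal = Sausage27.kap d := by
  have : Nontrivial (Eu d) := by
    have : Nonempty (Fin d) := ⟨⟨0, by omega⟩⟩
    infer_instance
  unfold Sausage27.kap
  rw [Measure.addHaar_closedBall_eq_addHaar_ball]

/-- Q17. `kap (d-1) * V1 D` is the integral of `hS D` over the sphere. -/
theorem Q17_V1 {d : ℕ} (hd : 2 ≤ d) {D : Set (Eu d)} (hD : Body D) :
    Sausage27.kap (d - 1) * Sausage27.V1 D =
      ∫ u : sphere (0 : Eu d) 1, hS D u.1 ∂((volume : Measure (Eu d)).toSphere) := by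
  obtain ⟨C, hC, hV⟩ := Sausage27.V1_eq d (by omega)
  have h1 := hV D hD
  have hV1 : Sausage27.V1 D = C * Sausage27.G D := h1.limUnder_eq
  have h2 := steiner_two hd (by simp) hD
  rw [Q17_ball hd] at h2
  set I : ℝ := ∫ u : sphere (0 : Eu d) 1, hS D u.1 ∂((volume : Measure (Eu d)).toSphere) with hI
  have hk := Sausage27.kap_pos (d - 1)
  have h3 : Tendsto (fun t : ℝ => (t⁻¹ * (((volume (D + closedBall (0 : Eu d) t)).toReal -
      Sausage27.kap d * t ^ d - I * t ^ (d - 1)) / t ^ (d - 2)) + I) / Sausage27.kap (d - 1))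
      atTop (𝓝 (I / Sausage27.kap (d - 1))) := by
    have h4 := (((tendsto_inv_atTop_zero (𝕜 := ℝ)).mul h2).add_const I).div_const
      (Sausage27.kap (d - 1))
    simpa using h4
  have h5 : Tendsto (fun t : ℝ => ((volume (D + closedBall (0 : Eu d) t)).toReal -
      Sausage27.kap d * t ^ d) / (Sausage27.kap (d - 1) * t ^ (d - 1))) atTop
      (𝓝 (I / Sausage27.kap (d - 1))) := by
    refine h3.congr' ?_
    filter_upwards [eventually_gt_atTop (0 : ℝ)] with t ht
    have e1 : t ^ (d - 1) = t ^ (d - 2) * t := by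
      rw [← pow_succ]
      congr 1
      omega
    have ht2 : t ^ (d - 2) ≠ 0 := (pow_pos ht _).ne'
    rw [e1]
    field_simp
    ring
  have h6 := tendsto_nhds_unique h1 h5
  rw [hV1, h6]
  field_simp

/-- Q17. The Steiner formula to second order: `steiner_two`, `V2_gauss`, `sphere_gauss_two`,
`sphere_gauss_zero`, `kap_rec`; `kap (d-1) * V1 D` is the integral of `hS D` over the sphere (by
uniqueness of limits from `Sausage27.V1_eq`: divide `steiner_two` by `t`). -/
theorem V2_steiner {d : ℕ} (hd : 2 ≤ d) {D : Set (Eu d)} (hD : Body D) :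
    Tendsto (fun t : ℝ =>
      ((volume (D + closedBall (0 : Eu d) t)).toReal - Sausage27.kap d * t ^ d -
        Sausage27.kap (d - 1) * Sausage27.V1 D * t ^ (d - 1)) /
          (Sausage27.kap (d - 2) * t ^ (d - 2))) atTop (𝓝 (V2 D)) := by
  have h2 := steiner_two hd (by simp) hD
  rw [Q17_ball hd, ← Q17_V1 hd hD] at h2
  have hk := Sausage27.kap_pos (d - 2)
  have h3 := h2.div_const (Sausage27.kap (d - 2))
  have hfr : Module.finrank ℝ (Eu d) = d := by simp
  obtain ⟨R, hR, hDR, hb, -⟩ := hD.exists_bound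
  -- the two spherical integrals
  have hm1 : Measurable (fun x : Eu d => hS D x ^ 2) := hD.continuous_hS.measurable.pow_const 2
  have hm2 : Measurable (fun x : Eu d => ‖grd D x‖ ^ 2) := (measurable_grd hD).norm.pow_const 2
  have e1 := sphere_gauss_two (E := Eu d) hm1 (fun r hr x => by
    rw [hD.hS_smul hr.le x]
    ring) (by rw [hfr]; omega)
  have e2 := sphere_gauss_zero (E := Eu d) hm2 (fun r hr x => by
    rw [(diff_smul hD hr x).2]) (by rw [hfr]; omega)
  have i1 : Integrable (fun u : sphere (0 : Eu d) 1 => hS D u.1 ^ 2)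
      ((volume : Measure (Eu d)).toSphere) := by
    refine Integrable.of_bound (C := R ^ 2)
      (hm1.comp measurable_subtype_coe).aestronglyMeasurable ?_
    refine Eventually.of_forall fun u => ?_
    have h4 := hb u.1
    have h5 : ‖u.1‖ = 1 := by simp
    rw [h5, mul_one] at h4
    rw [Real.norm_eq_abs, abs_pow]
    exact pow_le_pow_left₀ (abs_nonneg _) h4 2
  have hg : ∀ x : Eu d, ‖grd D x‖ ≤ R := by
    intro x
    by_cases hx : DifferentiableAt ℝ (hS D) x
    · exact hDR _ (grd_mem hD hx).1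
    · have : grd D x = 0 := by
        unfold grd
        rw [fderiv_zero_of_not_differentiableAt hx]
        simp
      rw [this, norm_zero]
      exact hR.le
  have i2 : Integrable (fun u : sphere (0 : Eu d) 1 => ‖grd D u.1‖ ^ 2)
      ((volume : Measure (Eu d)).toSphere) := by
    refine Integrable.of_bound (C := R ^ 2)
      (hm2.comp measurable_subtype_coe).aestronglyMeasurable ?_
    refine Eventually.of_forall fun u => ?_
    rw [Real.norm_eq_abs, abs_of_nonneg (by positivity)]
    exact pow_le_pow_left₀ (norm_nonneg _) (hg u.1) 2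
  have e3 : ∫ u : sphere (0 : Eu d) 1, (d * hS D u.1 ^ 2 - ‖grd D u.1‖ ^ 2) / 2
      ∂((volume : Measure (Eu d)).toSphere) = Sausage27.kap (d - 2) * V2 D := by
    have h4 : (fun u : sphere (0 : Eu d) 1 => (d * hS D u.1 ^ 2 - ‖grd D u.1‖ ^ 2) / 2) =
        fun u => (d : ℝ) / 2 * hS D u.1 ^ 2 - 1 / 2 * ‖grd D u.1‖ ^ 2 := by
      funext u
      ring
    rw [h4, integral_sub (i1.const_mul _) (i2.const_mul _), integral_const_mul,
      integral_const_mul, e1, e2, Q17_ball hd, hfr, V2_gauss hD]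
    have h5 := kap_rec hd
    have h6 : Sausage27.kap (d - 2) * (π * (∫ x, hS D x ^ 2 ∂(stdGaussian (Eu d)) -
        ∫ x, ‖grd D x‖ ^ 2 ∂(stdGaussian (Eu d)))) =
        (π * Sausage27.kap (d - 2)) * (∫ x, hS D x ^ 2 ∂(stdGaussian (Eu d)) -
        ∫ x, ‖grd D x‖ ^ 2 ∂(stdGaussian (Eu d))) := by ring
    rw [h6, ← h5]
    ring
  rw [e3] at h3
  have e4 : Sausage27.kap (d - 2) * V2 D / Sausage27.kap (d - 2) = V2 D := by
    field_simp
  rw [e4] at h3
  refine h3.congr' ?_
  filter_upwards [eventually_gt_atTop (0 : ℝ)] with t ht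
  rw [div_div, mul_comm (t ^ (d - 2))]

/-- Q17. -/
theorem V2S_eq {d : ℕ} (hd : 2 ≤ d) {D : Set (Eu d)} (hD : Body D) : V2S D = V2 D := by
  exact (V2_steiner hd hD).limUnder_eq

end Pool.Agent.Saus2
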