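import Pool.Agent.Saus2.ATri

/-!
# Atoms

Criterion for finitely many atoms: `M_S² - Σ_{i<j ∈ S} m_i m_j d_ij² ≤ 1/4` for every subset `S`.
-/

set_option autoImplicit false

namespace Pool.Agent.Saus2

open MeasureTheory Set Metric Filter Topology Real
open scoped InnerProductSpace

/-- The load of finitely many atoms on a set `S` of atoms which are all visible. -/
theorem atoms_visible {ι : Type*} (S : Finset ι) (m : ι → ℝ) (hm : ∀ i ∈ S, 0 ≤ m i)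
    (X : ι → ℂ) (c : ℂ) (hc : ∀ i ∈ S, ‖X i - c‖ ≤ 1)
    (hS : (∑ i ∈ S, m i) ^ 2 - (∑ i ∈ S, ∑ j ∈ S, m i * m j * ‖X i - X j‖ ^ 2) / 2 ≤ 1 / 4) :
    ∑ i ∈ S, m i * (2 * √(1 - ‖X i - c‖ ^ 2)) ≤ 1 := by
  set M := ∑ i ∈ S, m i with hM
  have hM0 : 0 ≤ M := Finset.sum_nonneg hm
  -- Cauchy-Schwarz
  have hcs : (∑ i ∈ S, m i * √(1 - ‖X i - c‖ ^ 2)) ^ 2 ≤
      M * ∑ i ∈ S, m i * (1 - ‖X i - c‖ ^ 2) := by
    have h1 := Finset.sum_mul_sq_le_sq_mul_sq S (fun i => √(m i))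
      (fun i => √(m i) * √(1 - ‖X i - c‖ ^ 2))
    have e1 : ∑ i ∈ S, √(m i) * (√(m i) * √(1 - ‖X i - c‖ ^ 2)) =
        ∑ i ∈ S, m i * √(1 - ‖X i - c‖ ^ 2) := by
      apply Finset.sum_congr rfl
      intro i hi
      rw [← mul_assoc, Real.mul_self_sqrt (hm i hi)]
    have e2 : ∑ i ∈ S, √(m i) ^ 2 = M := by
      apply Finset.sum_congr rfl
      intro i hi
      rw [Real.sq_sqrt (hm i hi)]
    have e3 : ∑ i ∈ S, (√(m i) * √(1 - ‖X i - c‖ ^ 2)) ^ 2 =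
        ∑ i ∈ S, m i * (1 - ‖X i - c‖ ^ 2) := by
      apply Finset.sum_congr rfl
      intro i hi
      have : 0 ≤ 1 - ‖X i - c‖ ^ 2 := by
        have := hc i hi
        nlinarith [norm_nonneg (X i - c)]
      rw [mul_pow, Real.sq_sqrt (hm i hi), Real.sq_sqrt this]
    rw [e1, e2, e3] at h1
    exact h1
  -- the moment identity
  have hid : M * ∑ i ∈ S, m i * ‖X i - c‖ ^ 2 =
      (∑ i ∈ S, ∑ j ∈ S, m i * m j * ‖X i - X j‖ ^ 2) / 2 +
        ‖∑ i ∈ S, (m i : ℝ) • (X i - c)‖ ^ 2 := by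
    have e1 : ‖∑ i ∈ S, (m i : ℝ) • (X i - c)‖ ^ 2 =
        ∑ i ∈ S, ∑ j ∈ S, m i * m j * ⟪X i - c, X j - c⟫_ℝ := by
      rw [← real_inner_self_eq_norm_sq, sum_inner]
      apply Finset.sum_congr rfl
      intro i _
      rw [inner_sum]
      apply Finset.sum_congr rfl
      intro j _
      rw [real_inner_smul_left, real_inner_smul_right]
      ring
    have e2 : ∑ i ∈ S, ∑ j ∈ S, m i * m j * ‖X i - X j‖ ^ 2 =
        ∑ i ∈ S, ∑ j ∈ S, (m i * m j * ‖X i - c‖ ^ 2 + m i * m j * ‖X j - c‖ ^ 2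
          - 2 * (m i * m j * ⟪X i - c, X j - c⟫_ℝ)) := by
      apply Finset.sum_congr rfl
      intro i _
      apply Finset.sum_congr rfl
      intro j _
      have : X i - X j = (X i - c) - (X j - c) := by ring
      rw [this, norm_sub_sq_real]
      ring
    have e3 : ∑ i ∈ S, ∑ j ∈ S, m i * m j * ‖X i - c‖ ^ 2 =
        M * ∑ i ∈ S, m i * ‖X i - c‖ ^ 2 := by
      rw [hM, Finset.sum_mul_sum, Finset.sum_comm]
      apply Finset.sum_congr rfl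
      intro i _
      apply Finset.sum_congr rfl
      intro j _
      ring
    have e4 : ∑ i ∈ S, ∑ j ∈ S, m i * m j * ‖X j - c‖ ^ 2 =
        M * ∑ i ∈ S, m i * ‖X i - c‖ ^ 2 := by
      rw [hM, Finset.sum_mul_sum]
      apply Finset.sum_congr rfl
      intro i _
      apply Finset.sum_congr rfl
      intro j _
      ring
    have e5 : ∑ i ∈ S, ∑ j ∈ S, (m i * m j * ‖X i - c‖ ^ 2 + m i * m j * ‖X j - c‖ ^ 2
          - 2 * (m i * m j * ⟪X i - c, X j - c⟫_ℝ)) =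
        ∑ i ∈ S, ∑ j ∈ S, m i * m j * ‖X i - c‖ ^ 2 + ∑ i ∈ S, ∑ j ∈ S, m i * m j * ‖X j - c‖ ^ 2
          - 2 * ∑ i ∈ S, ∑ j ∈ S, m i * m j * ⟪X i - c, X j - c⟫_ℝ := by
      rw [Finset.mul_sum, ← Finset.sum_add_distrib, ← Finset.sum_sub_distrib]
      apply Finset.sum_congr rfl
      intro i _
      rw [Finset.mul_sum, ← Finset.sum_add_distrib, ← Finset.sum_sub_distrib]
    rw [e2, e5, e1, e3, e4]
    ring
  have h4 : (∑ i ∈ S, m i * √(1 - ‖X i - c‖ ^ 2)) ^ 2 ≤ 1 / 4 := by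
    have e5 : ∑ i ∈ S, m i * (1 - ‖X i - c‖ ^ 2) = M - ∑ i ∈ S, m i * ‖X i - c‖ ^ 2 := by
      rw [hM, ← Finset.sum_sub_distrib]
      apply Finset.sum_congr rfl
      intro i _
      ring
    rw [e5] at hcs
    have := sq_nonneg ‖∑ i ∈ S, (m i : ℝ) • (X i - c)‖
    nlinarith
  have h5 : 0 ≤ ∑ i ∈ S, m i * √(1 - ‖X i - c‖ ^ 2) :=
    Finset.sum_nonneg fun i hi => mul_nonneg (hm i hi) (Real.sqrt_nonneg _)
  have h6 : ∑ i ∈ S, m i * √(1 - ‖X i - c‖ ^ 2) ≤ 1 / 2 := by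
    nlinarith
  have e7 : ∑ i ∈ S, m i * (2 * √(1 - ‖X i - c‖ ^ 2)) =
      2 * ∑ i ∈ S, m i * √(1 - ‖X i - c‖ ^ 2) := by
    rw [Finset.mul_sum]
    apply Finset.sum_congr rfl
    intro i _
    ring
  rw [e7]
  linarith

/-- **Atoms.** -/
theorem atoms_load {ι : Type*} [Fintype ι] (m : ι → ℝ) (hm : ∀ i, 0 ≤ m i) (X : ι → ℂ)
    (hS : ∀ S : Finset ι, (∑ i ∈ S, m i) ^ 2 -
      (∑ i ∈ S, ∑ j ∈ S, m i * m j * ‖X i - X j‖ ^ 2) / 2 ≤ 1 / 4) (c : ℂ) :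
    ∑ i, m i * (2 * √(1 - ‖X i - c‖ ^ 2)) ≤ 1 := by
  classical
  set S : Finset ι := Finset.univ.filter fun i => ‖X i - c‖ ≤ 1 with hSd
  have h1 := atoms_visible S m (fun i _ => hm i) X c (fun i hi => (Finset.mem_filter.mp hi).2) (hS S)
  have h2 : ∑ i, m i * (2 * √(1 - ‖X i - c‖ ^ 2)) =
      ∑ i ∈ S, m i * (2 * √(1 - ‖X i - c‖ ^ 2)) := by
    rw [hSd, Finset.sum_filter]
    apply Finset.sum_congr rfl
    intro i _
    split_ifs with h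
    · rfl
    · rw [Real.sqrt_eq_zero_of_nonpos]
      · ring
      · push Not at h
        nlinarith
  rw [h2]
  exact h1

end Pool.Agent.Saus2
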