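import Pool.Agent.Saus2.ACrudeIneq

/-!
# Choice of the measure for long sets
-/

namespace Pool.Agent.Saus2

open MeasureTheory Set Metric Filter Topology Real

theorem hp_lower : (1.45769 : ℝ) ≤ 58 / 125 * π := by
  have := Real.pi_gt_d6
  norm_num at this
  linarith

/-- A linear lower bound of `Hg m` near `w` and the corresponding inequality. -/
theorem crude_key {w m : ℝ} (hw : 6 ≤ w) (hm : 0 ≤ m) (hmw : m ≤ w) :
    ∃ A c : ℝ, 0 ≤ A ∧ A ≤ Fs m ∧ (∀ l, w - 1 ≤ l → A * l - c ≤ Hg m l) ∧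
      Nn w m ≤ 58 / 125 * π + (58 / 125 * π - 1) * Fs m +
        A * (w - 58 / 125 * π * (1 - 1 / Fs m)) - c := by
  have hp := hp_lower
  rcases le_or_gt (m ^ 2) 3 with h3 | h3
  · set r := √(1 - m ^ 2 / 4) with hr
    have hr2 : r ^ 2 = 1 - m ^ 2 / 4 := Real.sq_sqrt (by linarith)
    have hr0 : 1 / 2 ≤ r := by
      apply Real.le_sqrt_of_sq_le
      nlinarith
    have hr1 : r ≤ 1 := by
      apply Real.sqrt_le_one.mpr
      nlinarith [sq_nonneg m]
    have hF : Fs m = 1 / r := Fs_small h3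
    have hmr : m ^ 2 = 4 * (1 - r ^ 2) := by linarith
    refine ⟨3 / (2 + r), 1 + 0.014 * (1 - r ^ 2), by positivity, ?_, ?_, ?_⟩
    · rw [hF, div_le_div_iff₀ (by linarith) (by linarith)]
      linarith
    · intro l hl
      have hl5 : 5 ≤ l := by linarith
      have h := Hg_small (m := m) (l := l) (by linarith) h3
      set ρ := √(1 - (m / l) ^ 2 / 4) with hρ
      have hml : (m / l) ^ 2 / 4 ≤ (1 - r ^ 2) / 25 := by
        rw [div_pow, hmr, div_div, div_le_div_iff₀ (by positivity) (by norm_num)]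
        nlinarith [mul_nonneg (by nlinarith : 0 ≤ 1 - r ^ 2) (by nlinarith : 0 ≤ l ^ 2 - 25)]
      have hρ2 : ρ ^ 2 = 1 - (m / l) ^ 2 / 4 := Real.sq_sqrt (by nlinarith)
      have hρ0 : 0 ≤ ρ := Real.sqrt_nonneg _
      have hρ1 : ρ ≤ 1 := by
        apply Real.sqrt_le_one.mpr
        nlinarith [sq_nonneg (m / l)]
      have hρ3 : 1 - (1 - r ^ 2) / 25 ≤ ρ := by nlinarith
      have h4 : 3 / (2 + ρ) ≤ 1 + 0.014 * (1 - r ^ 2) := by
        rw [div_le_iff₀ (by linarith)]
        have h5 : 0 ≤ 1 - r ^ 2 := by nlinarith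
        have h6 : 1 - r ^ 2 ≤ 1 := by nlinarith
        nlinarith [mul_nonneg h5 (by linarith : 0 ≤ 1 - (1 - r ^ 2)),
          mul_le_mul_of_nonneg_left hρ3 (by nlinarith : 0 ≤ 1 + 0.014 * (1 - r ^ 2))]
      have h7 : 3 / (2 + r) * l = 3 * l / (2 + r) := by ring
      rw [h7]
      linarith
    · rw [hF, one_div_one_div]
      have := polyA (w := w) (m := m) (r := r) (p := 58 / 125 * π) hw hm hr0 hr1 hmr hp
      linarith
  · have hm0 : 0 < m := by
      rcases eq_or_lt_of_le hm with h | h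
      · rw [← h] at h3
        norm_num at h3
      · exact h
    have h3' : 3 ≤ m ^ 2 := h3.le
    have hF : Fs m = 2 := Fs_big h3'
    have hs3 : √(3:ℝ) ^ 2 = 3 := Real.sq_sqrt (by norm_num)
    have hs0 : 0 ≤ √(3:ℝ) := Real.sqrt_nonneg _
    have hsm : √(3:ℝ) ≤ m := by nlinarith
    have h5 : 4 / 5 * √3 / m ≤ 4 / 5 := by
      rw [div_le_iff₀ hm0]
      nlinarith
    have h5' : 0 ≤ 4 / 5 * √3 / m := by positivity
    refine ⟨2 - 4 / 5 * √3 / m, 1.0715, by linarith, ?_, ?_, ?_⟩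
    · rw [hF]
      linarith
    · intro l hl
      have hl5 : 5 ≤ l := by linarith
      have hml : m ≤ 6 / 5 * l := by linarith
      have h := Hg_big (m := m) (l := l) (by linarith) hm0 h3' (by nlinarith)
      set ρ := √(1 - (m / l) ^ 2 / 4) with hρ
      have hml2 : (m / l) ^ 2 ≤ 36 / 25 := by
        rw [div_pow, div_le_div_iff₀ (by positivity) (by norm_num)]
        nlinarith
      have hρ0 : 4 / 5 ≤ ρ := by
        apply Real.le_sqrt_of_sq_le
        nlinarith
      have h4 : 3 / (2 + ρ) ≤ 1.0715 := by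
        rw [div_le_iff₀ (by linarith)]
        linarith
      have h7 : (2 - 4 / 5 * √3 / m) * l = 2 * l - 4 / 5 * √3 * l / m := by ring
      rw [h7]
      linarith
    · rw [hF]
      have := polyB (w := w) (m := m) (p := 58 / 125 * π) hw hmw hm0 h3' hp
      have e : (1:ℝ) - 1 / 2 = 1 / 2 := by norm_num
      rw [e]
      exact this

/-- Choice between the measures (S) and (U). -/
theorem crude_cases {w m x0 : ℝ} (hw : 6 ≤ w) (hm : 0 ≤ m) (hmw : m ≤ w) (hx0 : 0 ≤ x0) :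
    (x0 ≤ 1 ∧ Nn w m ≤ 58 / 125 * π * (1 + Fs m) + Hg m (w - x0) - Fs m) ∨
    (0 < x0 ∧ x0 ≤ 1 ∧ Nn w m ≤ 2 * (58 / 125 * π) + Hg m (w - x0) - (1 - x0) * Fs m) ∨
    (1 ≤ x0 ∧ Nn w m ≤ 2 * (58 / 125 * π) + Hg m (w - 1)) := by
  obtain ⟨A, c, hA0, hAF, hH, hN⟩ := crude_key hw hm hmw
  set p := 58 / 125 * π with hp
  set F := Fs m with hF
  have hF1 : 1 ≤ F := one_le_Fs m
  have hF2 : F ≤ 2 := Fs_le_two m
  have hp0 : 0 < p := by positivity
  have hp2 : p < 1.46 := by
    have := Real.pi_lt_d6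
    norm_num at this
    rw [hp]
    linarith
  set xs := p * (1 - 1 / F) with hxs
  have hxsF : xs * F = p * (F - 1) := by
    rw [hxs]
    field_simp
  have hinv : 1 / 2 ≤ 1 / F := one_div_le_one_div_of_le (by linarith) hF2
  have hinv1 : 1 / F ≤ 1 := by
    rw [div_le_one (by linarith)]
    exact hF1
  have hxs0 : 0 ≤ xs := mul_nonneg hp0.le (by linarith)
  have hxs1 : xs ≤ 1 := by
    have : xs ≤ p * (1 / 2) := mul_le_mul_of_nonneg_left (by linarith) hp0.le
    linarith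
  rcases le_or_gt x0 xs with h1 | h1
  · left
    refine ⟨by linarith, ?_⟩
    have h2 := hH (w - x0) (by linarith)
    nlinarith [mul_le_mul_of_nonneg_left h1 hA0]
  · right
    rcases le_or_gt x0 1 with h2 | h2
    · left
      refine ⟨by linarith, h2, ?_⟩
      have h3 := hH (w - x0) (by linarith)
      nlinarith [mul_nonneg (by linarith : 0 ≤ F - A) (by linarith : 0 ≤ x0 - xs)]
    · right
      refine ⟨h2.le, ?_⟩
      have h3 := hH (w - 1) le_rfl
      nlinarith [mul_nonneg (by linarith : 0 ≤ F - A) (by linarith : 0 ≤ 1 - xs)]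

end Pool.Agent.Saus2
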