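import Pool.Agent.Saus2.ACrudeGeo
import Pool.Agent.Saus2.ACrudeCases

/-!
# Long sets

A compact convex planar set of diameter at least `6` contains a compact convex set with an
admissible measure of mass `κ`.
-/

set_option autoImplicit false

namespace Pool.Agent.Saus2

open MeasureTheory Set Metric Filter Topology Real
open scoped InnerProductSpace

theorem Nn_mono {w m m' : ℝ} (hw : 0 < w) (hm : 0 ≤ m) (hmm : m ≤ m') (hm' : m' ≤ w) :
    Nn w m ≤ Nn w m' := by
  have e : Nn w m' - Nn w m = (m' - m) * (1 - (m' + m) / (2 * w)) +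
      (m' ^ 3 - m ^ 3) / (6 * w ^ 2) := by
    unfold Nn
    field_simp
    ring
  have h1 : 0 ≤ 1 - (m' + m) / (2 * w) := by
    rw [sub_nonneg, div_le_one (by positivity)]
    linarith
  have h2 : 0 ≤ (m' ^ 3 - m ^ 3) / (6 * w ^ 2) :=
    div_nonneg (sub_nonneg.mpr (pow_le_pow_left₀ hm hmm 3)) (by positivity)
  have h3 := mul_nonneg (sub_nonneg.mpr hmm) h1
  linarith

/-- Affine isometries. -/
def AffIso (g : ℂ ≃ᵢ ℂ) : Prop :=
  ∀ (a b : ℂ) (s t : ℝ), s + t = 1 → g (s • a + t • b) = s • g a + t • g b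

theorem AffIso.preimage {g : ℂ ≃ᵢ ℂ} (hg : AffIso g) {C : Set ℂ} (hC : Convex ℝ C) :
    Convex ℝ (g ⁻¹' C) := by
  intro a ha b hb s t hs ht hst
  rw [mem_preimage, hg a b s t hst]
  exact hC ha hb hs ht hst

theorem AffIso.image {g : ℂ ≃ᵢ ℂ} (hg : AffIso g) {K : Set ℂ} (hK : Convex ℝ K) :
    Convex ℝ (g '' K) := by
  rintro _ ⟨a, ha, rfl⟩ _ ⟨b, hb, rfl⟩ s t hs ht hst
  exact ⟨s • a + t • b, hK ha hb hs ht hst, hg a b s t hst⟩

theorem AffIso.hull {g : ℂ ≃ᵢ ℂ} (hg : AffIso g) {C S : Set ℂ} (hC : Convex ℝ C)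
    (hS : ∀ x ∈ S, g x ∈ C) : g '' convexHull ℝ S ⊆ C := by
  rw [image_subset_iff]
  exact convexHull_min hS (hg.preimage hC)

theorem pt_sub_norm (x y x' y' : ℝ) : ‖pt x y - pt x' y'‖ ^ 2 = (x - x') ^ 2 + (y - y') ^ 2 := by
  rw [Complex.sq_norm, Complex.normSq_apply]
  simp [pt_re, pt_im]
  ring

/-- Long sets in standard position. -/
theorem crude_std {C : Set ℂ} (hconv : Convex ℝ C) {w m x0 η1 η2 : ℝ} (hw : 6 ≤ w)
    (hm : 0 ≤ m) {g : ℂ ≃ᵢ ℂ} (hg : AffIso g) (hd : ∀ a ∈ C, ∀ b ∈ C, ‖a - b‖ ≤ w)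
    (h0 : g (pt 0 0) ∈ C) (hw' : g (pt w 0) ∈ C) (h1 : g (pt x0 η1) ∈ C)
    (h2 : g (pt x0 η2) ∈ C) (hη : η1 - η2 = m) (hx : x0 ≤ w / 2)
    (hk : π * kap C ≤ Nn w m) :
    ∃ K ⊆ C, IsCompact K ∧ Convex ℝ K ∧ K.Nonempty ∧ Adm K (kap C) := by
  have hpi := Real.pi_pos
  have hdist : ∀ a b : ℂ, g a ∈ C → g b ∈ C → ‖a - b‖ ≤ w := by
    intro a b ha hb
    have := hd _ ha _ hb
    rwa [← dist_eq_norm, g.isometry.dist_eq, dist_eq_norm] at this
  have hx0 : 0 ≤ x0 := by
    have h3 := hdist _ _ h1 hw'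
    have h4 := pt_sub_norm x0 η1 w 0
    have h5 : ‖pt x0 η1 - pt w 0‖ ^ 2 ≤ w ^ 2 := pow_le_pow_left₀ (norm_nonneg _) h3 2
    by_contra hcon
    push Not at hcon
    nlinarith [sq_nonneg (η1 - 0)]
  have hbase : g (pt x0 0) ∈ C := by
    have hmem : pt x0 0 ∈ g ⁻¹' C := by
      have hw0 : 0 < w := by linarith
      have e : pt x0 0 = (1 - x0 / w) • pt 0 0 + (x0 / w) • pt w 0 := by
        apply Complex.ext
        · simp [pt_re]
          field_simp
        · simp [pt_im]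
      rw [e]
      apply hg.preimage hconv h0 hw' _ _ (by ring)
      · rw [sub_nonneg, div_le_one hw0]
        linarith
      · positivity
    exact hmem
  set y1 := max η1 0 with hy1
  set y2 := max (-η2) 0 with hy2
  have hy10 : 0 ≤ y1 := le_max_right _ _
  have hy20 : 0 ≤ y2 := le_max_right _ _
  have hT : g (pt x0 y1) ∈ C := by
    rcases max_cases η1 0 with h | h
    · rw [hy1, h.1]
      exact h1
    · rw [hy1, h.1]
      exact hbase
  have hB : g (pt x0 (-y2)) ∈ C := by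
    rcases max_cases (-η2) 0 with h | h
    · rw [hy2, h.1, neg_neg]
      exact h2
    · rw [hy2, h.1, neg_zero]
      exact hbase
  set m' := y1 + y2 with hm'
  have hmm' : m ≤ m' := by
    have a1 : η1 ≤ y1 := le_max_left _ _
    have a2 : -η2 ≤ y2 := le_max_left _ _
    linarith
  have hm'0 : 0 ≤ m' := by positivity
  have hm'w : m' ≤ w := by
    have h3 := hdist _ _ hT hB
    have h4 := pt_sub_norm x0 y1 x0 (-y2)
    have h5 : ‖pt x0 y1 - pt x0 (-y2)‖ ^ 2 ≤ w ^ 2 := pow_le_pow_left₀ (norm_nonneg _) h3 2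
    have h6 : m' ^ 2 ≤ w ^ 2 := by
      rw [h4] at h5
      nlinarith
    exact abs_le_of_sq_le_sq' h6 (by linarith) |>.2
  have hk' : π * kap C ≤ Nn w m' := hk.trans (Nn_mono (by linarith) hm hmm' hm'w)
  rcases crude_cases hw hm'0 hm'w hx0 with ⟨c1, c2⟩ | ⟨c0, c1, c2⟩ | ⟨c1, c2⟩
  · -- measure (S)
    refine ⟨g '' convexHull ℝ {pt x0 y1, pt x0 (-y2), pt w 0}, hg.hull hconv ?_, ?_, ?_, ?_, ?_⟩
    · intro x hx
      simp only [mem_insert_iff, mem_singleton_iff] at hx
      rcases hx with rfl | rfl | rfl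
      exacts [hT, hB, hw']
    · exact ((Set.Finite.isCompact_convexHull (𝕜 := ℝ) (by simp)).image g.continuous)
    · exact hg.image (convex_convexHull ℝ _)
    · exact (Set.Nonempty.convexHull ⟨_, mem_insert _ _⟩).image _
    · apply Adm.isometry _ g
      refine Adm.mono (adm_S (by linarith) hy10 hy20) ?_
      have h3 := S_mass (w := w) (x0 := x0) (m := m') (by linarith) hm'0
      rw [← mul_le_mul_iff_right₀ hpi]
      refine hk'.trans (c2.trans ?_)
      rw [mul_add π, mul_div_cancel₀ _ hpi.ne']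
      linarith
  · refine ⟨g '' convexHull ℝ {pt 0 0, pt x0 y1, pt x0 (-y2), pt w 0}, hg.hull hconv ?_, ?_, ?_,
      ?_, ?_⟩
    · intro x hx
      simp only [mem_insert_iff, mem_singleton_iff] at hx
      rcases hx with rfl | rfl | rfl | rfl
      exacts [h0, hT, hB, hw']
    · exact ((Set.Finite.isCompact_convexHull (𝕜 := ℝ) (by simp)).image g.continuous)
    · exact hg.image (convex_convexHull ℝ _)
    · exact (Set.Nonempty.convexHull ⟨_, mem_insert _ _⟩).image _
    · apply Adm.isometry _ g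
      refine Adm.mono (adm_U (by linarith) c0 (by linarith) hy10 hy20) ?_
      have h3 := U_mass1 (w := w) (x0 := x0) (m := m') (by linarith) c0 c1 hm'0
      rw [← mul_le_mul_iff_right₀ hpi]
      refine hk'.trans (c2.trans ?_)
      rw [mul_add π, mul_div_cancel₀ _ hpi.ne']
      linarith
  · refine ⟨g '' convexHull ℝ {pt 0 0, pt x0 y1, pt x0 (-y2), pt w 0}, hg.hull hconv ?_, ?_, ?_,
      ?_, ?_⟩
    · intro x hx
      simp only [mem_insert_iff, mem_singleton_iff] at hx
      rcases hx with rfl | rfl | rfl | rfl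
      exacts [h0, hT, hB, hw']
    · exact ((Set.Finite.isCompact_convexHull (𝕜 := ℝ) (by simp)).image g.continuous)
    · exact hg.image (convex_convexHull ℝ _)
    · exact (Set.Nonempty.convexHull ⟨_, mem_insert _ _⟩).image _
    · apply Adm.isometry _ g
      refine Adm.mono (adm_U (by linarith) (by linarith) (by linarith) hy10 hy20) ?_
      have h3 := U_mass2 (w := w) (x0 := x0) (m := m') c1 (by linarith) hm'0
      rw [← mul_le_mul_iff_right₀ hpi]
      refine hk'.trans (c2.trans ?_)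
      rw [mul_add π, mul_div_cancel₀ _ hpi.ne']
      linarith

/-- The isometry `z ↦ P + u z`. -/
noncomputable def rigid (P : ℂ) (u : Circle) : ℂ ≃ᵢ ℂ :=
  (rotation u).toIsometryEquiv.trans (IsometryEquiv.addLeft P)

theorem rigid_apply (P : ℂ) (u : Circle) (z : ℂ) : rigid P u z = P + u * z := rfl

theorem rigid_aff (P : ℂ) (u : Circle) : AffIso (rigid P u) := by
  intro a b s t hst
  rw [rigid_apply, rigid_apply, rigid_apply]
  simp only [Complex.real_smul]
  have : ((s : ℂ) + t) = 1 := by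
    rw [← Complex.ofReal_add, hst, Complex.ofReal_one]
  linear_combination (-P) * this

/-- **Long sets.** -/
theorem crude {C : Set ℂ} (hC : IsCompact C) (hconv : Convex ℝ C) {P Q : ℂ} (hP : P ∈ C)
    (hQ : Q ∈ C) (hw : 6 ≤ ‖P - Q‖) (hd : ∀ a ∈ C, ∀ b ∈ C, ‖a - b‖ ≤ ‖P - Q‖) :
    ∃ K ⊆ C, IsCompact K ∧ Convex ℝ K ∧ K.Nonempty ∧ Adm K (kap C) := by
  have hne : C.Nonempty := ⟨P, hP⟩
  obtain ⟨θ0, hθ0⟩ := exists_min_wd hC
  set w := ‖P - Q‖ with hwdef
  have hw0 : 0 < w := by linarith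
  set m := wd C θ0 with hm
  have hm0 : 0 ≤ m := wd_nonneg hC hne θ0
  have hk : π * kap C ≤ Nn w m := kap_le hC hne hw0 hd
  -- one orientation
  have key : ∀ P Q : ℂ, P ∈ C → Q ∈ C → ‖P - Q‖ = w → ∀ a b : ℂ, a ∈ C → b ∈ C →
      a - b = ((m / w : ℝ) : ℂ) * Complex.I * (Q - P) →
      ((a - P) / ((Q - P) / (w : ℂ))).re ≤ w / 2 →
      ∃ K ⊆ C, IsCompact K ∧ Convex ℝ K ∧ K.Nonempty ∧ Adm K (kap C) := by
    intro P Q hP hQ hPQ a b ha hb hab hx
    have hwc : (w : ℂ) ≠ 0 := Complex.ofReal_ne_zero.mpr hw0.ne'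
    set U : ℂ := (Q - P) / (w : ℂ) with hU
    have hun : ‖U‖ = 1 := by
      rw [hU, norm_div, norm_sub_rev, hPQ, Complex.norm_real, Real.norm_of_nonneg hw0.le,
        div_self hw0.ne']
    have hU0 : U ≠ 0 := by
      intro h
      rw [h, norm_zero] at hun
      exact zero_ne_one hun
    have hQP : Q - P = U * w := by
      rw [hU]
      field_simp
    set u : Circle := Circle.exp (Complex.arg U) with hu
    have huU : (u : ℂ) = U := by
      rw [hu, Circle.coe_exp]
      have := Complex.norm_mul_exp_arg_mul_I U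
      rwa [hun, Complex.ofReal_one, one_mul] at this
    have hg : ∀ z, rigid P u z = P + U * z := by
      intro z
      rw [rigid_apply, huU]
    set za : ℂ := (a - P) / U with hza
    set zb : ℂ := (b - P) / U with hzb
    have hab' : za - zb = ((m : ℝ) : ℂ) * Complex.I := by
      rw [hza, hzb, ← sub_div, sub_sub_sub_cancel_right, hab, hQP]
      push_cast
      field_simp
    have hre : zb.re = za.re := by
      have := congrArg Complex.re hab'
      simp at this
      linarith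
    have him : za.im - zb.im = m := by
      have := congrArg Complex.im hab'
      simpa using this
    have ea : pt za.re za.im = za := Complex.ext rfl rfl
    have eb : pt za.re zb.im = zb := Complex.ext hre.symm rfl
    apply crude_std (x0 := za.re) (η1 := za.im) (η2 := zb.im) hconv hw hm0 (rigid_aff P u) hd
      _ _ _ _ him hx hk
    · rw [hg]
      have : pt 0 0 = 0 := Complex.ext rfl rfl
      rw [this, mul_zero, add_zero]
      exact hP
    · rw [hg]
      have : pt w 0 = (w : ℂ) := Complex.ext rfl rfl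
      rw [this, ← hQP]
      simpa using hQ
    · rw [hg, ea, hza, mul_div_cancel₀ _ hU0]
      simpa using ha
    · rw [hg, eb, hzb, mul_div_cancel₀ _ hU0]
      simpa using hb
  have hv : ‖((m / w : ℝ) : ℂ) * Complex.I * (Q - P)‖ ≤ m := by
    rw [norm_mul, norm_mul, Complex.norm_I, mul_one, Complex.norm_real,
      Real.norm_of_nonneg (by positivity), norm_sub_rev, ← hwdef, div_mul_cancel₀ _ hw0.ne']
  obtain ⟨a, ha, b, hb, hab⟩ := exists_chord hC hconv hne hθ0 hv
  have hwc : (w : ℂ) ≠ 0 := Complex.ofReal_ne_zero.mpr hw0.ne'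
  have hQP0 : Q - P ≠ 0 := by
    intro h
    have h2 : P - Q = 0 := by rw [← neg_sub, h, neg_zero]
    rw [hwdef, h2, norm_zero] at hw0
    exact lt_irrefl _ hw0
  rcases le_total ((a - P) / ((Q - P) / (w : ℂ))).re (w / 2) with h | h
  · exact key P Q hP hQ rfl a b ha hb hab h
  · apply key Q P hQ hP (by rw [norm_sub_rev]) b a hb ha (by rw [← neg_sub, hab]; ring)
    have e : (b - Q) / ((P - Q) / (w : ℂ)) = (w : ℂ) - (a - P) / ((Q - P) / (w : ℂ)) +
        ((m : ℝ) : ℂ) * Complex.I := by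
      have e1 : b = a - ((m / w : ℝ) : ℂ) * Complex.I * (Q - P) := by rw [← hab]; ring
      have hPQ0 : P - Q ≠ 0 := by
        rw [← neg_sub]
        exact neg_ne_zero.mpr hQP0
      rw [e1]
      push_cast
      have e2 : P - Q = -(Q - P) := by ring
      rw [e2]
      field_simp
      ring
    rw [e]
    simp
    linarith

/-- `planar` for sets of diameter at least `6`. -/
theorem planar_large {C : Set ℂ} (hC : IsCompact C) (hconv : Convex ℝ C) {P Q : ℂ} (hP : P ∈ C)
    (hQ : Q ∈ C) (hw : 6 ≤ ‖P - Q‖) (hd : ∀ a ∈ C, ∀ b ∈ C, ‖a - b‖ ≤ ‖P - Q‖)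
    {N : ℕ} (z : Fin N → ℂ) {M : ℝ} (hM : 0 < M)
    (hcov : ∀ x ∈ frontier C, M ≤ ∑ j, 2 * √(1 - ‖x - z j‖ ^ 2)) : M * kap C ≤ N := by
  obtain ⟨K, hKC, hK, hKc, hKne, hA⟩ := crude hC hconv hP hQ hw hd
  exact hA.covers hK hKc hKne hC hKC z hM hcov

end Pool.Agent.Saus2
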