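import Pool.Agent.Saus2.Defs

/-!
# Admissible loads on plane convex sets

`Adm K s`: any `N` points of `K` whose unit discs cover the frontier of `K` with (weighted)
multiplicity `M` satisfy `M s ≤ N`.
-/

namespace Pool.Agent.Saus2

open MeasureTheory Set Metric Filter Topology Real
open scoped InnerProductSpace

/-- Any `N` points of `K` which cover the frontier of `K` with multiplicity `M` have `M s ≤ N`. -/
def Adm (K : Set ℂ) (s : ℝ) : Prop :=
  ∀ (N : ℕ) (z : Fin N → ℂ) (M : ℝ), 0 < M → (∀ j, z j ∈ K) →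
    (∀ x ∈ frontier K, M ≤ ∑ j, 2 * √(1 - ‖x - z j‖ ^ 2)) → M * s ≤ N

theorem Adm.mono {K : Set ℂ} {s t : ℝ} (h : Adm K s) (hts : t ≤ s) : Adm K t := by
  intro N z M hM hz hc
  exact (mul_le_mul_of_nonneg_left hts hM.le).trans (h N z M hM hz hc)

/-- Nearest point map. -/
theorem exists_proj {K : Set ℂ} (hK : IsCompact K) (hc : Convex ℝ K) (hne : K.Nonempty) :
    ∃ p : ℂ → ℂ, (∀ z, p z ∈ K) ∧ (∀ z, ∀ q ∈ K, ⟪z - p z, q - p z⟫_ℝ ≤ 0) := by
  have h : ∀ z : ℂ, ∃ v ∈ K, ∀ q ∈ K, ⟪z - v, q - v⟫_ℝ ≤ 0 := by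
    intro z
    obtain ⟨v, hv, hv2⟩ := exists_norm_eq_iInf_of_complete_convex hne hK.isComplete hc z
    exact ⟨v, hv, (norm_eq_iInf_iff_real_inner_le_zero hc hv).mp hv2⟩
  choose p hp1 hp2 using h
  exact ⟨p, hp1, hp2⟩

theorem proj_unique {K : Set ℂ} {z v v' : ℂ} (hv : v ∈ K) (hv' : v' ∈ K)
    (h : ∀ q ∈ K, ⟪z - v, q - v⟫_ℝ ≤ 0) (h' : ∀ q ∈ K, ⟪z - v', q - v'⟫_ℝ ≤ 0) : v = v' := by
  have h1 := h v' hv'
  have h2 := h' v hv
  have h3 : ⟪z - v, v' - v⟫_ℝ + ⟪z - v', v - v'⟫_ℝ = ‖v' - v‖ ^ 2 := by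
    have e : z - v' = (z - v) - (v' - v) := by ring
    have e2 : v - v' = -(v' - v) := by ring
    rw [e, e2, inner_neg_right, inner_sub_left (z - v) (v' - v), real_inner_self_eq_norm_sq]
    ring
  have h4 : ‖v' - v‖ ^ 2 ≤ 0 := by linarith
  have h5 : ‖v' - v‖ = 0 := by
    have := sq_nonneg ‖v' - v‖
    nlinarith [norm_nonneg (v' - v)]
  exact (sub_eq_zero.mp (norm_eq_zero.mp h5)).symm

theorem proj_contract {K : Set ℂ} {z z' v v' : ℂ} (hv : v ∈ K) (hv' : v' ∈ K)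
    (h : ∀ q ∈ K, ⟪z - v, q - v⟫_ℝ ≤ 0) (h' : ∀ q ∈ K, ⟪z' - v', q - v'⟫_ℝ ≤ 0) :
    ‖v - v'‖ ≤ ‖z - z'‖ := by
  have h1 := h v' hv'
  have h2 := h' v hv
  have h3 : ⟪z - z', v - v'⟫_ℝ = ‖v - v'‖ ^ 2 - ⟪z - v, v' - v⟫_ℝ - ⟪z' - v', v - v'⟫_ℝ := by
    have e : z - z' = (v - v') + ((z - v) - (z' - v')) := by ring
    have e2 : v' - v = -(v - v') := by ring
    rw [e, inner_add_left, inner_sub_left (z - v) (z' - v'), real_inner_self_eq_norm_sq, e2,
      inner_neg_right]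
    ring
  have h4 : ‖v - v'‖ ^ 2 ≤ ‖z - z'‖ * ‖v - v'‖ := by
    have := real_inner_le_norm (z - z') (v - v')
    linarith
  rcases eq_or_lt_of_le (norm_nonneg (v - v')) with h5 | h5
  · rw [← h5]
    exact norm_nonneg _
  · have : ‖v - v'‖ * ‖v - v'‖ ≤ ‖z - z'‖ * ‖v - v'‖ := by nlinarith
    exact le_of_mul_le_mul_right this h5

/-- Every point outside `K` is moved along its normal ray to the frontier of `C ⊇ K`. -/
theorem exists_frontier {K C : Set ℂ} (hC : IsCompact C) (hKC : K ⊆ C) {z v : ℂ} (hv : v ∈ K)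
    (hz : z ≠ v) (h : ∀ q ∈ K, ⟪z - v, q - v⟫_ℝ ≤ 0) :
    ∃ x' ∈ frontier C, ∀ q ∈ K, ⟪x' - v, q - v⟫_ℝ ≤ 0 := by
  obtain ⟨R, hR⟩ := hC.isBounded.exists_norm_le
  -- far point on the ray
  have hpos : 0 < ‖z - v‖ := norm_pos_iff.mpr (sub_ne_zero.mpr hz)
  have hvR := hR v (hKC hv)
  set T : ℝ := (R + ‖v‖ + 1) / ‖z - v‖ with hT
  have hR0 : 0 ≤ R := (norm_nonneg _).trans hvR
  have hT0 : 0 < T := by positivity
  have hfar : v + T • (z - v) ∉ C := by
    intro hc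
    have h1 := hR _ hc
    have h2 : ‖T • (z - v)‖ = R + ‖v‖ + 1 := by
      rw [norm_smul, Real.norm_of_nonneg hT0.le, hT]
      field_simp
    have h3 : ‖T • (z - v)‖ ≤ ‖v + T • (z - v)‖ + ‖v‖ := by
      have := norm_sub_le (v + T • (z - v)) v
      simpa using this
    linarith
  have hconn : IsPreconnected (segment ℝ v (v + T • (z - v))) :=
    (convex_segment _ _).isPreconnected
  have h1 : (segment ℝ v (v + T • (z - v)) ∩ C).Nonempty :=
    ⟨v, left_mem_segment _ _ _, hKC hv⟩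
  have h2 : (segment ℝ v (v + T • (z - v)) ∩ Cᶜ).Nonempty :=
    ⟨_, right_mem_segment _ _ _, hfar⟩
  have hex : (segment ℝ v (v + T • (z - v)) ∩ frontier C).Nonempty := by
    by_contra hcon
    rw [Set.not_nonempty_iff_eq_empty] at hcon
    have hsub : segment ℝ v (v + T • (z - v)) ⊆ interior C ∪ Cᶜ := by
      intro y hy
      by_cases hyC : y ∈ C
      · left
        by_contra hyi
        have : y ∈ segment ℝ v (v + T • (z - v)) ∩ frontier C :=
          ⟨hy, (mem_frontier_iff_notMem_interior hyC).mpr hyi⟩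
        rw [hcon] at this
        exact this
      · right
        exact hyC
    have h1' : (segment ℝ v (v + T • (z - v)) ∩ interior C).Nonempty := by
      obtain ⟨y, hy, hyC⟩ := h1
      rcases hsub hy with h3 | h3
      · exact ⟨y, hy, h3⟩
      · exact absurd hyC h3
    obtain ⟨y, _, hy2, hy3⟩ := hconn (interior C) Cᶜ isOpen_interior
      hC.isClosed.isOpen_compl hsub h1' h2
    exact hy3 (interior_subset hy2)
  obtain ⟨x', hx1, hx2⟩ := hex
  refine ⟨x', hx2, ?_⟩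
  rw [segment_eq_image'] at hx1
  obtain ⟨t, ht, rfl⟩ := hx1
  intro q hq
  have e : v + t • (v + T • (z - v) - v) - v = (t * T) • (z - v) := by
    simp [mul_smul]
  simp only
  rw [e, real_inner_smul_left]
  exact mul_nonpos_of_nonneg_of_nonpos (mul_nonneg ht.1 hT0.le) (h q hq)

/-- Passage from an inner convex set `K` with `Adm K s` to `C ⊇ K`. -/
theorem Adm.covers {K C : Set ℂ} {s : ℝ} (hA : Adm K s) (hK : IsCompact K) (hKc : Convex ℝ K)
    (hKne : K.Nonempty) (hC : IsCompact C) (hKC : K ⊆ C) {N : ℕ} (z : Fin N → ℂ) {M : ℝ}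
    (hM : 0 < M) (hcov : ∀ x ∈ frontier C, M ≤ ∑ j, 2 * √(1 - ‖x - z j‖ ^ 2)) :
    M * s ≤ N := by
  obtain ⟨p, hp1, hp2⟩ := exists_proj hK hKc hKne
  have hcontr : ∀ a b, ‖p a - p b‖ ≤ ‖a - b‖ := fun a b =>
    proj_contract (hp1 a) (hp1 b) (hp2 a) (hp2 b)
  have hpid : ∀ a ∈ K, p a = a := by
    intro a ha
    apply proj_unique (hp1 a) ha (hp2 a)
    intro q _
    simp
  have hpc : Continuous p := by
    have : LipschitzWith 1 p := LipschitzWith.of_dist_le_mul (by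
      intro a b
      simpa [dist_eq_norm] using hcontr a b)
    exact this.continuous
  apply hA N (fun j => p (z j)) M hM (fun j => hp1 _)
  intro x hx
  have hclosed : IsClosed {y : ℂ | M ≤ ∑ j, 2 * √(1 - ‖y - p (z j)‖ ^ 2)} :=
    isClosed_le continuous_const (by fun_prop)
  have hout : ∀ y ∉ K, p y ∈ {y : ℂ | M ≤ ∑ j, 2 * √(1 - ‖y - p (z j)‖ ^ 2)} := by
    intro y hy
    have hne : y ≠ p y := fun h => hy (h ▸ hp1 y)
    obtain ⟨x', hx', hx'2⟩ := exists_frontier hC hKC (hp1 y) hne (hp2 y)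
    have hpx : p x' = p y := proj_unique (hp1 x') (hp1 y) (hp2 x') hx'2
    refine (hcov x' hx').trans ?_
    apply Finset.sum_le_sum
    intro j _
    have h1 : ‖p y - p (z j)‖ ≤ ‖x' - z j‖ := by
      rw [← hpx]
      exact hcontr _ _
    have h2 : ‖p y - p (z j)‖ ^ 2 ≤ ‖x' - z j‖ ^ 2 := by
      have := norm_nonneg (p y - p (z j))
      nlinarith
    have h3 : √(1 - ‖x' - z j‖ ^ 2) ≤ √(1 - ‖p y - p (z j)‖ ^ 2) :=
      Real.sqrt_le_sqrt (by linarith)
    linarith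
  have hxK : x ∈ K := hK.isClosed.frontier_subset hx
  have hxc : x ∈ closure Kᶜ := (frontier_eq_closure_inter_closure (s := K) ▸ hx).2
  have h4 : p x ∈ closure (p '' Kᶜ) := by
    exact image_closure_subset_closure_image hpc ⟨x, hxc, rfl⟩
  have h5 : p '' Kᶜ ⊆ {y : ℂ | M ≤ ∑ j, 2 * √(1 - ‖y - p (z j)‖ ^ 2)} := by
    rintro _ ⟨y, hy, rfl⟩
    exact hout y hy
  have h6 := closure_minimal h5 hclosed h4
  rw [hpid x hxK] at h6
  exact h6

/-- Isometries transport admissibility. -/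
theorem Adm.isometry {K : Set ℂ} {s : ℝ} (h : Adm K s) (f : ℂ ≃ᵢ ℂ) : Adm (f '' K) s := by
  intro N z M hM hz hc
  apply h N (fun j => f.symm (z j)) M hM
  · intro j
    obtain ⟨y, hy, hyz⟩ := hz j
    rw [← hyz]
    simpa using hy
  · intro x hx
    have h1 : f x ∈ frontier (f '' K) := by
      have := f.toHomeomorph.image_frontier K
      have h2 : f x ∈ f.toHomeomorph '' frontier K := ⟨x, hx, rfl⟩
      rw [this] at h2
      exact h2
    refine (hc _ h1).trans (le_of_eq ?_)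
    apply Finset.sum_congr rfl
    intro j _
    have h3 : ‖f x - z j‖ = ‖x - f.symm (z j)‖ := by
      rw [← dist_eq_norm, ← dist_eq_norm, ← f.dist_eq x (f.symm (z j)), f.apply_symm_apply]
    rw [h3]

/-- Criterion: atoms `a i` at frontier points `x i` and densities `ρ k` along frontier curves
`γ k` on `[p k, q k]`, of load at most one at every centre in `K`. -/
theorem adm_of_atoms_curves {K : Set ℂ} {ι κ : Type} [Fintype ι] [Fintype κ]
    (a : ι → ℝ) (x : ι → ℂ) (ha : ∀ i, 0 ≤ a i) (hx : ∀ i, x i ∈ frontier K)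
    (p q : κ → ℝ) (hpq : ∀ k, p k ≤ q k) (ρ : κ → ℝ → ℝ)
    (hρ : ∀ k, ContinuousOn (ρ k) (Icc (p k) (q k)))
    (hρ0 : ∀ k, ∀ t ∈ Icc (p k) (q k), 0 ≤ ρ k t) (γ : κ → ℝ → ℂ)
    (hγ : ∀ k, ContinuousOn (γ k) (Icc (p k) (q k)))
    (hγf : ∀ k, ∀ t ∈ Icc (p k) (q k), γ k t ∈ frontier K)
    (hload : ∀ c ∈ K, ∑ i, a i * (2 * √(1 - ‖x i - c‖ ^ 2)) +
      ∑ k, ∫ t in (p k)..(q k), ρ k t * (2 * √(1 - ‖γ k t - c‖ ^ 2)) ≤ 1) :
    Adm K (∑ i, a i + ∑ k, ∫ t in (p k)..(q k), ρ k t) := by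
  intro N z M hM hz hc
  have hld : ∀ c : ℂ, Continuous fun y : ℂ => 2 * √(1 - ‖y - c‖ ^ 2) := by
    intro c
    fun_prop
  have hint : ∀ k c, IntervalIntegrable (fun t => ρ k t * (2 * √(1 - ‖γ k t - c‖ ^ 2)))
      volume (p k) (q k) := by
    intro k c
    apply ContinuousOn.intervalIntegrable
    rw [uIcc_of_le (hpq k)]
    exact (hρ k).mul ((hld c).comp_continuousOn (hγ k))
  have h1 : ∀ i, M * a i ≤ ∑ j, a i * (2 * √(1 - ‖x i - z j‖ ^ 2)) := by
    intro i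
    rw [← Finset.mul_sum]
    nlinarith [mul_le_mul_of_nonneg_left (hc _ (hx i)) (ha i)]
  have h2 : ∀ k, M * ∫ t in (p k)..(q k), ρ k t ≤
      ∑ j, ∫ t in (p k)..(q k), ρ k t * (2 * √(1 - ‖γ k t - z j‖ ^ 2)) := by
    intro k
    rw [← intervalIntegral.integral_finsetSum (fun j _ => hint k (z j)),
      ← intervalIntegral.integral_const_mul]
    apply intervalIntegral.integral_mono_on (hpq k)
    · apply IntervalIntegrable.const_mul
      apply ContinuousOn.intervalIntegrable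
      rw [uIcc_of_le (hpq k)]
      exact hρ k
    · apply ContinuousOn.intervalIntegrable
      rw [uIcc_of_le (hpq k)]
      apply continuousOn_finsetSum
      intro j _
      exact (hρ k).mul ((hld (z j)).comp_continuousOn (hγ k))
    · intro t ht
      rw [← Finset.mul_sum]
      nlinarith [mul_le_mul_of_nonneg_left (hc _ (hγf k t ht)) (hρ0 k t ht)]
  have h3 : M * (∑ i, a i + ∑ k, ∫ t in (p k)..(q k), ρ k t) ≤
      ∑ j, (∑ i, a i * (2 * √(1 - ‖x i - z j‖ ^ 2)) +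
        ∑ k, ∫ t in (p k)..(q k), ρ k t * (2 * √(1 - ‖γ k t - z j‖ ^ 2))) := by
    rw [mul_add, Finset.mul_sum, Finset.mul_sum, Finset.sum_add_distrib, Finset.sum_comm,
      Finset.sum_comm (f := fun j k => ∫ t in (p k)..(q k), ρ k t * (2 * √(1 - ‖γ k t - z j‖ ^ 2)))]
    exact add_le_add (Finset.sum_le_sum fun i _ => h1 i) (Finset.sum_le_sum fun k _ => h2 k)
  refine h3.trans ?_
  calc _ ≤ ∑ _j : Fin N, (1 : ℝ) := Finset.sum_le_sum fun j _ => hload _ (hz j)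
    _ = N := by simp

/-- A point of `K` where a nonzero linear functional is maximal over `K` is a frontier point. -/
theorem mem_frontier_of_max {K : Set ℂ} {x n : ℂ} (hx : x ∈ K) (hn : n ≠ 0)
    (h : ∀ y ∈ K, ⟪n, y⟫_ℝ ≤ ⟪n, x⟫_ℝ) : x ∈ frontier K := by
  rw [mem_frontier_iff_notMem_interior hx]
  intro hi
  rw [mem_interior_iff_mem_nhds, Metric.mem_nhds_iff] at hi
  obtain ⟨ε, hε, hb⟩ := hi
  have hpos : 0 < ‖n‖ := norm_pos_iff.mpr hn
  have h1 : x + (ε / 2 / ‖n‖) • n ∈ ball x ε := by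
    rw [mem_ball, dist_eq_norm, add_sub_cancel_left, norm_smul, Real.norm_of_nonneg (by positivity)]
    field_simp
    linarith
  have h2 := h _ (hb h1)
  rw [inner_add_right, real_inner_smul_right, real_inner_self_eq_norm_sq] at h2
  have h3 : 0 < ε / 2 / ‖n‖ * ‖n‖ ^ 2 := by positivity
  linarith

end Pool.Agent.Saus2
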