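import Pool.Agent.Saus2.ASel
import Pool.Agent.Saus2.Adm

/-!
# Mean width and chords in terms of the minimal width
-/

set_option autoImplicit false

namespace Pool.Agent.Saus2

open MeasureTheory Set Metric Filter Topology Real
open scoped InnerProductSpace Pointwise

/-- Width of `C` in the direction `θ`. -/
noncomputable def wd (C : Set ℂ) (θ : ℝ) : ℝ := hs C θ + hs C (θ + π)

theorem dirf_add_pi (θ : ℝ) (z : ℂ) : dirf (θ + π) z = -dirf θ z := by
  rw [dirf_eq, dirf_eq, Real.cos_add_pi, Real.sin_add_pi]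
  ring

theorem dirf_sub (θ : ℝ) (a b : ℂ) : dirf θ (a - b) = dirf θ a - dirf θ b := by
  rw [dirf_eq, dirf_eq, dirf_eq, Complex.sub_re, Complex.sub_im]
  ring

theorem sub_le_wd {C : Set ℂ} (hC : IsCompact C) {a b : ℂ} (ha : a ∈ C) (hb : b ∈ C) (θ : ℝ) :
    dirf θ (a - b) ≤ wd C θ := by
  have h1 := dirf_le_hs hC ha θ
  have h2 := dirf_le_hs hC hb (θ + π)
  rw [dirf_add_pi] at h2
  rw [dirf_sub]
  unfold wd
  linarith

theorem exists_wd {C : Set ℂ} (hC : IsCompact C) (hne : C.Nonempty) (θ : ℝ) :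
    ∃ a ∈ C, ∃ b ∈ C, dirf θ (a - b) = wd C θ := by
  obtain ⟨a, ha, h1⟩ := exists_hs hC hne θ
  obtain ⟨b, hb, h2⟩ := exists_hs hC hne (θ + π)
  refine ⟨a, ha, b, hb, ?_⟩
  rw [dirf_add_pi] at h2
  rw [dirf_sub]
  unfold wd
  linarith

theorem dirf_rot (θ φ : ℝ) (z : ℂ) :
    dirf (θ + φ) z = dirf θ z * Real.cos φ + dirf (θ + π / 2) z * Real.sin φ := by
  rw [dirf_eq, dirf_eq, dirf_eq, Real.cos_add, Real.sin_add, Real.cos_add_pi_div_two,
    Real.sin_add_pi_div_two]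
  ring

theorem dirf_sq (θ : ℝ) (z : ℂ) : dirf θ z ^ 2 + dirf (θ + π / 2) z ^ 2 = ‖z‖ ^ 2 := by
  rw [dirf_eq, dirf_eq, Real.cos_add_pi_div_two, Real.sin_add_pi_div_two, Complex.sq_norm,
    Complex.normSq_apply]
  have := Real.sin_sq_add_cos_sq θ
  have e : (z.re * Real.cos θ + z.im * Real.sin θ) ^ 2 +
      (z.re * -Real.sin θ + z.im * Real.cos θ) ^ 2 =
      (z.re ^ 2 + z.im ^ 2) * (Real.sin θ ^ 2 + Real.cos θ ^ 2) := by ring
  rw [e, this]
  ring

theorem wd_le {C : Set ℂ} (hC : IsCompact C) (hne : C.Nonempty) {w : ℝ}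
    (hd : ∀ a ∈ C, ∀ b ∈ C, ‖a - b‖ ≤ w) (θ : ℝ) : wd C θ ≤ w := by
  obtain ⟨a, ha, b, hb, h⟩ := exists_wd hC hne θ
  rw [← h]
  exact (dirf_le_norm _ _).trans (hd a ha b hb)

theorem wd_nonneg {C : Set ℂ} (hC : IsCompact C) (hne : C.Nonempty) (θ : ℝ) : 0 ≤ wd C θ := by
  obtain ⟨a, ha⟩ := hne
  have := sub_le_wd hC ha ha θ
  rw [dirf_sub] at this
  linarith

theorem sqrt_key {P m w c s R r : ℝ} (hPm : P ≤ m) (hP0 : 0 ≤ P) (hc0 : 0 ≤ c)
    (hs0 : 0 ≤ s) (hR0 : 0 ≤ R) (hr0 : 0 ≤ r) (hrR : r ≤ R) (hr2 : r ^ 2 = w ^ 2 - m ^ 2)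
    (hR2 : R ^ 2 = w ^ 2 - P ^ 2) (hrws : w * s ≤ r) (h : m ≤ w * c) :
    s * (R - r) ≤ (m - P) * c := by
  have hm0 : 0 ≤ m := hP0.trans hPm
  rcases eq_or_lt_of_le (add_nonneg hR0 hr0) with h0 | h0
  · have h1 : R = 0 := by linarith
    have h2 : r = 0 := by linarith
    rw [h1, h2]
    have := mul_nonneg (sub_nonneg.mpr hPm) hc0
    linarith
  · refine le_of_mul_le_mul_right ?_ h0
    have e0 : (R - r) * (R + r) = (m - P) * (m + P) := by linear_combination hR2 - hr2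
    have e1 : s * (R - r) * (R + r) = s * ((m - P) * (m + P)) := by
      rw [mul_assoc, e0]
    rw [e1]
    have h3 : s * (m + P) ≤ s * (2 * (w * c)) :=
      mul_le_mul_of_nonneg_left (by linarith) hs0
    have h4 : c * (2 * (w * s)) ≤ c * (R + r) :=
      mul_le_mul_of_nonneg_left (by linarith) hc0
    have h2 : s * (m + P) ≤ c * (R + r) := by linarith
    have h5 := mul_le_mul_of_nonneg_left h2 (sub_nonneg.mpr hPm)
    linarith

theorem wd_le2 {C : Set ℂ} (hC : IsCompact C) (hne : C.Nonempty) {w θ0 φ : ℝ}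
    (hd : ∀ a ∈ C, ∀ b ∈ C, ‖a - b‖ ≤ w) (hφ : 0 ≤ Real.cos φ)
    (h : wd C θ0 ≤ w * Real.cos φ) :
    wd C (θ0 + φ) ≤ wd C θ0 * Real.cos φ + √(w ^ 2 - wd C θ0 ^ 2) * |Real.sin φ| := by
  set m := wd C θ0 with hm
  obtain ⟨a, ha, b, hb, hab⟩ := exists_wd hC hne (θ0 + φ)
  have hm0 : 0 ≤ m := wd_nonneg hC hne θ0
  set P := |dirf θ0 (a - b)| with hP
  have hP0 : 0 ≤ P := abs_nonneg _
  have hPm : P ≤ m := by
    rw [hP, abs_le]
    constructor
    · have := sub_le_wd hC hb ha θ0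
      rw [dirf_sub] at this ⊢
      linarith
    · exact sub_le_wd hC ha hb θ0
  have hn := hd a ha b hb
  have hw0 : 0 ≤ w := (norm_nonneg _).trans hn
  have hsq := dirf_sq θ0 (a - b)
  have hn2 : ‖a - b‖ ^ 2 ≤ w ^ 2 := pow_le_pow_left₀ (norm_nonneg _) hn 2
  set c := Real.cos φ with hc
  set s := |Real.sin φ| with hs
  have hs0 : 0 ≤ s := abs_nonneg _
  have hcs : c ^ 2 + s ^ 2 = 1 := by
    rw [hs, sq_abs, hc]
    linarith [Real.sin_sq_add_cos_sq φ]
  have hP2 : P ^ 2 = dirf θ0 (a - b) ^ 2 := sq_abs _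
  have hq : |dirf (θ0 + π / 2) (a - b)| ≤ √(w ^ 2 - P ^ 2) := by
    apply Real.abs_le_sqrt
    linarith
  set R := √(w ^ 2 - P ^ 2) with hR
  set r := √(w ^ 2 - m ^ 2) with hr
  have hc1 : c ≤ 1 := Real.cos_le_one φ
  have hmw : m ≤ w := h.trans (by nlinarith)
  have hm2 : m ^ 2 ≤ w ^ 2 := pow_le_pow_left₀ hm0 hmw 2
  have hr2 : r ^ 2 = w ^ 2 - m ^ 2 := Real.sq_sqrt (by linarith)
  have hR2 : R ^ 2 = w ^ 2 - P ^ 2 := Real.sq_sqrt (by nlinarith)
  have hr0 : 0 ≤ r := Real.sqrt_nonneg _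
  have hR0 : 0 ≤ R := Real.sqrt_nonneg _
  have hrR : r ≤ R := Real.sqrt_le_sqrt (by nlinarith)
  have hrws : w * s ≤ r := by
    apply Real.le_sqrt_of_sq_le
    have : m ^ 2 ≤ (w * c) ^ 2 := pow_le_pow_left₀ hm0 h 2
    have e : (w * s) ^ 2 = w ^ 2 * (1 - c ^ 2) := by rw [mul_pow, ← hcs]; ring
    rw [e]
    nlinarith
  have hkey : s * (R - r) ≤ (m - P) * c :=
    sqrt_key hPm hP0 hφ hs0 hR0 hr0 hrR hr2 hR2 hrws h
  rw [← hab, dirf_rot]
  have h1 : dirf θ0 (a - b) * c ≤ P * c := mul_le_mul_of_nonneg_right (le_abs_self _) hφ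
  have h2 : dirf (θ0 + π / 2) (a - b) * Real.sin φ ≤ R * s := by
    calc dirf (θ0 + π / 2) (a - b) * Real.sin φ
        ≤ |dirf (θ0 + π / 2) (a - b) * Real.sin φ| := le_abs_self _
      _ = |dirf (θ0 + π / 2) (a - b)| * s := abs_mul _ _
      _ ≤ R * s := mul_le_mul_of_nonneg_right hq hs0
  linarith

theorem continuous_wd {C : Set ℂ} (hC : IsCompact C) : Continuous (wd C) := by
  unfold wd
  have := continuous_hs hC
  fun_prop

/-- `2 π κ` as an integral of widths over a quarter of the circle. -/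
theorem two_pi_kap {C : Set ℂ} (hC : IsCompact C) (θ0 : ℝ) :
    2 * π * kap C = (∫ φ in (0:ℝ)..(π / 2), wd C (θ0 + φ)) +
      ∫ φ in (0:ℝ)..(π / 2), wd C (θ0 - φ) := by
  have hc := continuous_hs hC
  have hI := intervalIntegrable_hs hC
  unfold wd
  rw [intervalIntegral.integral_add (by apply Continuous.intervalIntegrable; fun_prop)
    (by apply Continuous.intervalIntegrable; fun_prop),
    intervalIntegral.integral_add (by apply Continuous.intervalIntegrable; fun_prop)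
    (by apply Continuous.intervalIntegrable; fun_prop)]
  have e1 : ∫ φ in (0:ℝ)..(π / 2), hs C (θ0 + φ) = ∫ θ in θ0..(θ0 + π / 2), hs C θ := by
    rw [intervalIntegral.integral_comp_add_left (fun θ => hs C θ) θ0]
    simp
  have e2 : ∫ φ in (0:ℝ)..(π / 2), hs C (θ0 + φ + π) =
      ∫ θ in (θ0 + π)..(θ0 + 3 * π / 2), hs C θ := by
    have h : ∀ φ : ℝ, hs C (θ0 + φ + π) = (fun θ => hs C θ) ((θ0 + π) + φ) := by
      intro φ
      show hs C _ = hs C _
      congr 1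
      ring
    simp only [h]
    rw [intervalIntegral.integral_comp_add_left (fun θ => hs C θ) (θ0 + π)]
    congr 1 <;> ring
  have e3 : ∫ φ in (0:ℝ)..(π / 2), hs C (θ0 - φ) = ∫ θ in (θ0 - π / 2)..θ0, hs C θ := by
    rw [intervalIntegral.integral_comp_sub_left (fun θ => hs C θ) θ0]
    simp
  have e4 : ∫ φ in (0:ℝ)..(π / 2), hs C (θ0 - φ + π) =
      ∫ θ in (θ0 + π / 2)..(θ0 + π), hs C θ := by
    have h : ∀ φ : ℝ, hs C (θ0 - φ + π) = (fun θ => hs C θ) ((θ0 + π) - φ) := by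
      intro φ
      show hs C _ = hs C _
      congr 1
      ring
    simp only [h]
    rw [intervalIntegral.integral_comp_sub_left (fun θ => hs C θ) (θ0 + π)]
    congr 1 <;> ring
  rw [e1, e2, e3, e4, kap_mul]
  have h5 := (hs_periodic C).intervalIntegral_add_eq (θ0 - π / 2) 0
  rw [zero_add] at h5
  rw [← h5]
  have a1 := intervalIntegral.integral_add_adjacent_intervals (hI (θ0 - π / 2) θ0)
    (hI θ0 (θ0 + π / 2))
  have a2 := intervalIntegral.integral_add_adjacent_intervals (hI (θ0 - π / 2) (θ0 + π / 2))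
    (hI (θ0 + π / 2) (θ0 + π))
  have a3 := intervalIntegral.integral_add_adjacent_intervals (hI (θ0 - π / 2) (θ0 + π))
    (hI (θ0 + π) (θ0 + 3 * π / 2))
  have e6 : θ0 - π / 2 + 2 * π = θ0 + 3 * π / 2 := by ring
  rw [e6, ← a3, ← a2, ← a1]
  ring

theorem trig_ineq {ψ : ℝ} (h0 : 0 ≤ ψ) (h1 : ψ ≤ π / 2) :
    Real.cos ψ + ψ ≤ 1 + Real.sin ψ - Real.sin ψ ^ 2 / 2 + Real.sin ψ ^ 3 / 6 := by
  set F : ℝ → ℝ := fun ψ =>
    1 + Real.sin ψ - Real.sin ψ ^ 2 / 2 + Real.sin ψ ^ 3 / 6 - Real.cos ψ - ψ with hF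
  have hd : ∀ x, HasDerivAt F (Real.cos x * (1 - Real.sin x + Real.sin x ^ 2 / 2) -
      (1 - Real.sin x)) x := by
    intro x
    have hs := Real.hasDerivAt_sin x
    have e2 : HasDerivAt (fun y => Real.sin y ^ 2 / 2) (Real.sin x * Real.cos x) x := by
      refine ((hs.fun_pow 2).div_const 2).congr_deriv ?_
      norm_num
      try ring
    have e3 : HasDerivAt (fun y => Real.sin y ^ 3 / 6) (Real.sin x ^ 2 * Real.cos x / 2) x := by
      refine ((hs.fun_pow 3).div_const 6).congr_deriv ?_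
      norm_num
      try ring
    have := (((((hasDerivAt_const x (1:ℝ)).fun_add hs).fun_sub e2).fun_add e3).fun_sub
      (Real.hasDerivAt_cos x)).fun_sub (hasDerivAt_id' x)
    have e : 0 + Real.cos x - Real.sin x * Real.cos x + Real.sin x ^ 2 * Real.cos x / 2 -
        (-Real.sin x) - 1 = Real.cos x * (1 - Real.sin x + Real.sin x ^ 2 / 2) -
      (1 - Real.sin x) := by ring
    rw [← e]
    exact this
  have hmono : MonotoneOn F (Icc 0 (π / 2)) := by
    apply monotoneOn_of_deriv_nonneg (convex_Icc _ _)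
    · exact fun x _ => (hd x).continuousAt.continuousWithinAt
    · exact fun x _ => (hd x).differentiableAt.differentiableWithinAt
    · intro x hx
      rw [interior_Icc] at hx
      rw [(hd x).deriv]
      have hs0 : 0 ≤ Real.sin x := Real.sin_nonneg_of_nonneg_of_le_pi hx.1.le
        (by linarith [hx.2, Real.pi_pos])
      have hs1 := Real.sin_le_one x
      have hc0 : 0 ≤ Real.cos x := Real.cos_nonneg_of_mem_Icc
        ⟨by linarith [hx.1, Real.pi_pos], hx.2.le⟩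
      have hcs := Real.sin_sq_add_cos_sq x
      set s := Real.sin x
      set c := Real.cos x
      have hq : 0 ≤ 1 - s + s ^ 2 / 2 := by nlinarith
      have hsq : (1 - s) ^ 2 ≤ (c * (1 - s + s ^ 2 / 2)) ^ 2 := by
        have e : (c * (1 - s + s ^ 2 / 2)) ^ 2 =
            (1 - s) * ((1 + s) * (1 - s + s ^ 2 / 2) ^ 2) := by
          have : c ^ 2 = 1 - s ^ 2 := by linarith
          rw [mul_pow, this]
          ring
        rw [e]
        have h3 : 1 - s ≤ (1 + s) * (1 - s + s ^ 2 / 2) ^ 2 := by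
          have e2 : (1 + s) * (1 - s + s ^ 2 / 2) ^ 2 - (1 - s) =
              s ^ 3 * (1 - 3 / 4 * s + 1 / 4 * s ^ 2) := by ring
          have : 0 ≤ s ^ 3 * (1 - 3 / 4 * s + 1 / 4 * s ^ 2) :=
            mul_nonneg (pow_nonneg hs0 3) (by nlinarith)
          linarith
        nlinarith
      have := (le_abs_self _).trans (abs_le_of_sq_le_sq hsq (mul_nonneg hc0 hq))
      linarith
  have hF0 : F 0 = 0 := by simp [hF]
  have := hmono (left_mem_Icc.mpr (by positivity)) ⟨h0, h1⟩ h0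
  rw [hF0] at this
  simp only [hF] at this
  linarith

/-- The mean width in terms of the diameter `w` and the width `m` in one direction. -/
theorem kap_le {C : Set ℂ} (hC : IsCompact C) (hne : C.Nonempty) {w θ0 : ℝ} (hw : 0 < w)
    (hd : ∀ a ∈ C, ∀ b ∈ C, ‖a - b‖ ≤ w) :
    π * kap C ≤ w + wd C θ0 - wd C θ0 ^ 2 / (2 * w) + wd C θ0 ^ 3 / (6 * w ^ 2) := by
  set m := wd C θ0 with hm
  have hm0 : 0 ≤ m := wd_nonneg hC hne θ0
  have hmw : m ≤ w := wd_le hC hne hd θ0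
  have hmw1 : m / w ≤ 1 := (div_le_one hw).mpr hmw
  have hmw0 : 0 ≤ m / w := by positivity
  set ψ := Real.arcsin (m / w) with hψ
  have hψ0 : 0 ≤ ψ := Real.arcsin_nonneg.mpr hmw0
  have hψ1 : ψ ≤ π / 2 := Real.arcsin_le_pi_div_two _
  have hsin : Real.sin ψ = m / w := Real.sin_arcsin (by linarith) hmw1
  have hmm : m = w * Real.sin ψ := by
    rw [hsin]
    field_simp
  have hcos0 : 0 ≤ Real.cos ψ := Real.cos_arcsin_nonneg _
  have hr : √(w ^ 2 - m ^ 2) = w * Real.cos ψ := by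
    rw [show w ^ 2 - m ^ 2 = (w * Real.cos ψ) ^ 2 by
      rw [hmm, mul_pow, mul_pow]
      nlinarith [Real.sin_sq_add_cos_sq ψ]]
    exact Real.sqrt_sq (by positivity)
  have hwc := continuous_wd hC
  -- bound of the integrals
  have hb : ∀ f : ℝ → ℝ, Continuous f → (∀ φ ∈ Icc (0:ℝ) (π / 2), f φ ≤ w) →
      (∀ φ ∈ Icc (0:ℝ) (π / 2), m ≤ w * Real.cos φ →
        f φ ≤ m * Real.cos φ + √(w ^ 2 - m ^ 2) * Real.sin φ) →
      ∫ φ in (0:ℝ)..(π / 2), f φ ≤ w * (Real.cos ψ + ψ) := by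
    intro f hf h1 h2
    have hφ0 : 0 ≤ π / 2 - ψ := by linarith
    have hφ1 : π / 2 - ψ ≤ π / 2 := by linarith
    rw [← intervalIntegral.integral_add_adjacent_intervals
      (hf.intervalIntegrable 0 (π / 2 - ψ)) (hf.intervalIntegrable (π / 2 - ψ) (π / 2))]
    have i1 : ∫ φ in (0:ℝ)..(π / 2 - ψ), f φ ≤
        ∫ φ in (0:ℝ)..(π / 2 - ψ), (m * Real.cos φ + √(w ^ 2 - m ^ 2) * Real.sin φ) := by
      apply intervalIntegral.integral_mono_on hφ0 (hf.intervalIntegrable _ _)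
      · apply Continuous.intervalIntegrable
        fun_prop
      · intro φ hφ
        apply h2 φ ⟨hφ.1, hφ.2.trans hφ1⟩
        rw [hmm]
        apply mul_le_mul_of_nonneg_left _ hw.le
        rw [← Real.cos_pi_div_two_sub]
        exact Real.cos_le_cos_of_nonneg_of_le_pi hφ.1 (by linarith [Real.pi_pos]) hφ.2
    have i2 : ∫ φ in (π / 2 - ψ)..(π / 2), f φ ≤ ∫ _ in (π / 2 - ψ)..(π / 2), w := by
      apply intervalIntegral.integral_mono_on hφ1 (hf.intervalIntegrable _ _) (by simp)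
      intro φ hφ
      exact h1 φ ⟨hφ0.trans hφ.1, hφ.2⟩
    have i3 : ∫ φ in (0:ℝ)..(π / 2 - ψ), (m * Real.cos φ + √(w ^ 2 - m ^ 2) * Real.sin φ) =
        m * Real.cos ψ + √(w ^ 2 - m ^ 2) * (1 - Real.sin ψ) := by
      rw [intervalIntegral.integral_add (by apply Continuous.intervalIntegrable; fun_prop)
        (by apply Continuous.intervalIntegrable; fun_prop),
        intervalIntegral.integral_const_mul, intervalIntegral.integral_const_mul, integral_cos,
        integral_sin, Real.sin_zero, Real.cos_zero, Real.sin_pi_div_two_sub,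
        Real.cos_pi_div_two_sub]
      ring
    rw [intervalIntegral.integral_const, smul_eq_mul] at i2
    rw [i3, hr] at i1
    have e : m * Real.cos ψ + w * Real.cos ψ * (1 - Real.sin ψ) = w * Real.cos ψ := by
      rw [hmm]
      ring
    rw [e] at i1
    nlinarith
  have h2pi := two_pi_kap hC θ0
  have b1 := hb (fun φ => wd C (θ0 + φ)) (by fun_prop) (fun φ _ => wd_le hC hne hd _)
    (by
      intro φ hφ h
      have hc0 : 0 ≤ Real.cos φ := Real.cos_nonneg_of_mem_Icc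
        ⟨by linarith [hφ.1, Real.pi_pos], hφ.2⟩
      have := wd_le2 hC hne (θ0 := θ0) (φ := φ) hd hc0 h
      rwa [abs_of_nonneg (Real.sin_nonneg_of_nonneg_of_le_pi hφ.1
        (by linarith [hφ.2, Real.pi_pos]))] at this)
  have b2 := hb (fun φ => wd C (θ0 - φ)) (by fun_prop) (fun φ _ => wd_le hC hne hd _)
    (by
      intro φ hφ h
      have hc0 : 0 ≤ Real.cos φ := Real.cos_nonneg_of_mem_Icc
        ⟨by linarith [hφ.1, Real.pi_pos], hφ.2⟩
      have := wd_le2 hC hne (θ0 := θ0) (φ := -φ) hd (by rwa [Real.cos_neg])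
        (by rwa [Real.cos_neg])
      rw [Real.cos_neg, Real.sin_neg, abs_neg, ← sub_eq_add_neg] at this
      rwa [abs_of_nonneg (Real.sin_nonneg_of_nonneg_of_le_pi hφ.1
        (by linarith [hφ.2, Real.pi_pos]))] at this)
  have h3 : π * kap C ≤ w * (Real.cos ψ + ψ) := by
    have : 2 * (π * kap C) ≤ 2 * (w * (Real.cos ψ + ψ)) := by linarith
    linarith
  refine h3.trans ((mul_le_mul_of_nonneg_left (trig_ineq hψ0 hψ1) hw.le).trans (le_of_eq ?_))
  rw [hsin]
  field_simp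

/-- Chords: if all widths are at least `m` then every vector of length at most `m` is a
difference of two points of `C`. -/
theorem exists_chord {C : Set ℂ} (hC : IsCompact C) (hconv : Convex ℝ C) (hne : C.Nonempty)
    {m : ℝ} (hm : ∀ θ, m ≤ wd C θ) {v : ℂ} (hv : ‖v‖ ≤ m) : ∃ a ∈ C, ∃ b ∈ C, a - b = v := by
  by_contra hcon
  push Not at hcon
  have hD : IsCompact (C - C) := by
    have := (hC.prod hC).image (f := fun q : ℂ × ℂ => q.1 - q.2) (by fun_prop)
    rwa [Set.image_prod (fun a b : ℂ => a - b)] at this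
  have hDc : Convex ℝ (C - C) := hconv.sub hconv
  have hDne : (C - C).Nonempty := hne.sub hne
  have hvD : v ∉ C - C := by
    rintro ⟨a, ha, b, hb, hab⟩
    exact hcon a ha b hb hab
  obtain ⟨pr, hp1, hp2⟩ := exists_proj hD hDc hDne
  set p := pr v with hp
  have hpD : p ∈ C - C := hp1 v
  have hne' : v - p ≠ 0 := by
    intro h
    have : v = p := sub_eq_zero.mp h
    rw [this] at hvD
    exact hvD hpD
  set n := v - p with hn
  have hn0 : 0 < ‖n‖ := norm_pos_iff.mpr hne'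
  set θ := Complex.arg n with hθ
  have hre : n.re = ‖n‖ * Real.cos θ := (Complex.norm_mul_cos_arg n).symm
  have him : n.im = ‖n‖ * Real.sin θ := (Complex.norm_mul_sin_arg n).symm
  have hin : ∀ z : ℂ, ‖n‖ * dirf θ z = ⟪n, z⟫_ℝ := by
    intro z
    rw [dirf_eq, Complex.inner, Complex.mul_re, Complex.conj_re, Complex.conj_im, hre, him]
    ring
  have hnn : dirf θ n = ‖n‖ := by
    have h := hin n
    rw [real_inner_self_eq_norm_sq] at h
    have : ‖n‖ * dirf θ n = ‖n‖ * ‖n‖ := by rw [h]; ring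
    exact mul_left_cancel₀ hn0.ne' this
  obtain ⟨a, ha, b, hb, hab⟩ := exists_wd hC hne θ
  have h1 := hp2 v (a - b) (Set.sub_mem_sub ha hb)
  have h2 : dirf θ (a - b) ≤ dirf θ p := by
    have h3 : ‖n‖ * dirf θ (a - b - p) ≤ 0 := by
      rw [hin]
      exact h1
    have h4 : dirf θ (a - b - p) ≤ 0 := by
      by_contra h5
      push Not at h5
      have := mul_pos hn0 h5
      linarith
    rw [dirf_sub] at h4
    linarith
  have h5 : dirf θ n = dirf θ v - dirf θ p := dirf_sub _ _ _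
  have h6 := dirf_le_norm θ v
  have h7 := hm θ
  linarith

theorem exists_min_wd {C : Set ℂ} (hC : IsCompact C) : ∃ θ0, ∀ θ, wd C θ0 ≤ wd C θ := by
  obtain ⟨θ0, -, h0⟩ := (isCompact_Icc (a := (0 : ℝ)) (b := 2 * π)).exists_isMinOn
    ⟨0, by constructor <;> positivity⟩ (continuous_wd hC).continuousOn
  refine ⟨θ0, fun t => ?_⟩
  have hper : Function.Periodic (wd C) (2 * π) := by
    intro s
    unfold wd
    rw [hs_periodic C s, show s + 2 * π + π = s + π + 2 * π by ring, hs_periodic C (s + π)]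
  obtain ⟨s, hsI, hs'⟩ := hper.exists_mem_Ico₀ (by positivity) t
  rw [hs']
  exact h0 ⟨hsI.1, hsI.2.le⟩

theorem exists_diam {C : Set ℂ} (hC : IsCompact C) (hne : C.Nonempty) :
    ∃ P ∈ C, ∃ Q ∈ C, ∀ a ∈ C, ∀ b ∈ C, ‖a - b‖ ≤ ‖P - Q‖ := by
  obtain ⟨⟨P, Q⟩, hPQ, h⟩ := (hC.prod hC).exists_isMaxOn (hne.prod hne)
    (f := fun q : ℂ × ℂ => ‖q.1 - q.2‖) (by fun_prop)
  exact ⟨P, hPQ.1, Q, hPQ.2, fun a ha b hb => h (Set.mk_mem_prod ha hb)⟩

end Pool.Agent.Saus2
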