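import Pool.Agent.Saus2.ASheet

/-!
# The gain integral `H m l = ∫_1^l Fs (m s / l) ds`
-/

namespace Pool.Agent.Saus2

open MeasureTheory Set Metric Filter Topology Real

theorem Fs_mono {a b : ℝ} (ha : 0 ≤ a) (hab : a ≤ b) : Fs a ≤ Fs b := by
  unfold Fs
  apply one_div_le_one_div_of_le
  · have : (0:ℝ) < max (1 / 4) (1 - b ^ 2 / 4) := lt_of_lt_of_le (by norm_num) (le_max_left _ _)
    positivity
  · apply Real.sqrt_le_sqrt
    apply max_le_max le_rfl
    nlinarith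

theorem one_le_Fs (g : ℝ) : 1 ≤ Fs g := by
  unfold Fs
  have h0 : (0:ℝ) < max (1 / 4) (1 - g ^ 2 / 4) := lt_of_lt_of_le (by norm_num) (le_max_left _ _)
  rw [le_div_iff₀ (Real.sqrt_pos.mpr h0), one_mul]
  apply Real.sqrt_le_one.mpr
  apply max_le (by norm_num)
  nlinarith [sq_nonneg g]

theorem Fs_small {g : ℝ} (h : g ^ 2 ≤ 3) : Fs g = 1 / √(1 - g ^ 2 / 4) := by
  unfold Fs
  rw [max_eq_right]
  linarith

theorem Fs_big {g : ℝ} (h : 3 ≤ g ^ 2) : Fs g = 2 := by
  unfold Fs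
  rw [max_eq_left (by linarith)]
  rw [show (1 / 4 : ℝ) = (1 / 2) ^ 2 by norm_num, Real.sqrt_sq (by norm_num)]
  norm_num

/-- The gain integral. -/
noncomputable def Hg (m l : ℝ) : ℝ := ∫ s in (1:ℝ)..l, Fs (m * s / l)

theorem Hg_int (m l a b : ℝ) : IntervalIntegrable (fun s => Fs (m * s / l)) volume a b := by
  have := Fs_cont
  exact (Continuous.intervalIntegrable (by fun_prop) _ _)

/-- Derivative bound (Cusa's inequality in disguise). -/
theorem cusa_step {m l a b : ℝ} (hl : 0 < l) (ha : 0 ≤ a) (hab : a ≤ b)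
    (hb : (m * b / l) ^ 2 ≤ 3) :
    3 * b / (2 + √(1 - (m * b / l) ^ 2 / 4)) - 3 * a / (2 + √(1 - (m * a / l) ^ 2 / 4)) ≤
      ∫ s in a..b, Fs (m * s / l) := by
  set ρ : ℝ → ℝ := fun s => √(1 - (m * s / l) ^ 2 / 4) with hρ
  have hs3 : ∀ s ∈ Icc a b, (m * s / l) ^ 2 ≤ 3 := by
    intro s hs
    refine le_trans ?_ hb
    have h1 : s ^ 2 ≤ b ^ 2 := by nlinarith [hs.1, hs.2]
    have h2 : (m * s / l) ^ 2 = (m / l) ^ 2 * s ^ 2 := by ring
    have h3 : (m * b / l) ^ 2 = (m / l) ^ 2 * b ^ 2 := by ring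
    rw [h2, h3]
    exact mul_le_mul_of_nonneg_left h1 (sq_nonneg _)
  have hpos : ∀ s ∈ Icc a b, 0 < 1 - (m * s / l) ^ 2 / 4 := by
    intro s hs
    linarith [hs3 s hs]
  have hρpos : ∀ s ∈ Icc a b, 0 < ρ s := fun s hs => Real.sqrt_pos.mpr (hpos s hs)
  have hρ1 : ∀ s, ρ s ≤ 1 := by
    intro s
    apply Real.sqrt_le_one.mpr
    nlinarith [sq_nonneg (m * s / l)]
  have hρsq : ∀ s ∈ Icc a b, ρ s ^ 2 = 1 - (m * s / l) ^ 2 / 4 := fun s hs =>
    Real.sq_sqrt (hpos s hs).le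
  -- derivative
  have hder : ∀ s ∈ Icc a b, HasDerivAt (fun s => 3 * s / (2 + ρ s))
      (3 * (2 * ρ s + 1) / (ρ s * (2 + ρ s) ^ 2)) s := by
    intro s hs
    have hp := hpos s hs
    have hr := hρpos s hs
    have h1 : HasDerivAt (fun s => 1 - (m * s / l) ^ 2 / 4) (-(m / l) ^ 2 * s / 2) s := by
      have h2 : HasDerivAt (fun s : ℝ => m * s / l) (m / l) s := by
        have := ((hasDerivAt_id s).const_mul m).div_const l
        simpa using this
      have h3 := ((h2.pow 2).div_const 4).const_sub 1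
      refine h3.congr_deriv ?_
      simp
      ring
    have h4 : HasDerivAt ρ ((-(m / l) ^ 2 * s / 2) / (2 * ρ s)) s := h1.sqrt hp.ne'
    have h5 : HasDerivAt (fun s : ℝ => 3 * s) 3 s := by
      simpa using (hasDerivAt_id s).const_mul 3
    have h6 := h5.div (h4.const_add 2) (by positivity)
    refine h6.congr_deriv ?_
    have h7 : (m / l) ^ 2 * s ^ 2 = 4 * (1 - ρ s ^ 2) := by
      rw [hρsq s hs]
      ring
    have h8 : s * ((m / l) ^ 2 * s) = 4 * (1 - ρ s ^ 2) := by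
      rw [← h7]
      ring
    field_simp
    have h9 : m ^ 2 * s ^ 2 = 4 * (1 - ρ s ^ 2) * l ^ 2 := by
      rw [← h7]
      field_simp
    nlinarith [h9]
  have hcont : ContinuousOn (fun s => 3 * (2 * ρ s + 1) / (ρ s * (2 + ρ s) ^ 2)) (Icc a b) := by
    have hρc : Continuous ρ := by
      simp only [hρ]
      fun_prop
    apply ContinuousOn.div
    · exact Continuous.continuousOn (by fun_prop)
    · exact Continuous.continuousOn (by fun_prop)
    · intro s hs
      have := hρpos s hs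
      positivity
  have hFTC : ∫ s in a..b, 3 * (2 * ρ s + 1) / (ρ s * (2 + ρ s) ^ 2) =
      3 * b / (2 + ρ b) - 3 * a / (2 + ρ a) := by
    apply intervalIntegral.integral_eq_sub_of_hasDerivAt
    · intro s hs
      rw [uIcc_of_le hab] at hs
      exact hder s hs
    · apply ContinuousOn.intervalIntegrable
      rw [uIcc_of_le hab]
      exact hcont
  have hmain : ∫ s in a..b, 3 * (2 * ρ s + 1) / (ρ s * (2 + ρ s) ^ 2) ≤
      ∫ s in a..b, Fs (m * s / l) := by
    apply intervalIntegral.integral_mono_on hab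
    · apply ContinuousOn.intervalIntegrable
      rw [uIcc_of_le hab]
      exact hcont
    · exact Hg_int m l a b
    · intro s hs
      rw [Fs_small (hs3 s hs)]
      have hr := hρpos s hs
      change 3 * (2 * ρ s + 1) / (ρ s * (2 + ρ s) ^ 2) ≤ 1 / ρ s
      rw [div_le_div_iff₀ (by positivity) hr]
      nlinarith [mul_nonneg hr.le (sq_nonneg (1 - ρ s))]
  rw [hFTC] at hmain
  exact hmain

/-- Lower bound for `m ≤ √3`. -/
theorem Hg_small {m l : ℝ} (hl : 1 ≤ l) (hm : m ^ 2 ≤ 3) :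
    3 * l / (2 + √(1 - m ^ 2 / 4)) - 3 / (2 + √(1 - (m / l) ^ 2 / 4)) ≤ Hg m l := by
  have hl0 : 0 < l := by linarith
  have e1 : m * l / l = m := by field_simp
  have h := cusa_step (m := m) (l := l) (a := 1) (b := l) hl0 zero_le_one hl (by rw [e1]; exact hm)
  rw [e1] at h
  have e2 : m * 1 / l = m / l := by ring
  rw [e2] at h
  simpa [Hg] using h

/-- Lower bound for `m ≥ √3`. -/
theorem Hg_big {m l : ℝ} (hl : 1 ≤ l) (hm0 : 0 < m) (hm : 3 ≤ m ^ 2) (hml : m ^ 2 ≤ 3 * l ^ 2) :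
    2 * l - 4 / 5 * √3 * l / m - 3 / (2 + √(1 - (m / l) ^ 2 / 4)) ≤ Hg m l := by
  have hl0 : 0 < l := by linarith
  have h3 : √(3:ℝ) ^ 2 = 3 := Real.sq_sqrt (by norm_num)
  have h3p : 0 < √(3:ℝ) := Real.sqrt_pos.mpr (by norm_num)
  set b : ℝ := √3 * l / m with hb
  have hb1 : 1 ≤ b := by
    rw [hb, le_div_iff₀ hm0, one_mul]
    nlinarith [Real.sqrt_nonneg (3:ℝ), mul_pos h3p hl0]
  have hbl : b ≤ l := by
    rw [hb, div_le_iff₀ hm0]
    have : √3 ≤ m := by nlinarith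
    nlinarith
  have e1 : m * b / l = √3 := by
    rw [hb]
    field_simp
  have h := cusa_step (m := m) (l := l) (a := 1) (b := b) hl0 zero_le_one hb1
    (by rw [e1, h3])
  have e2 : m * 1 / l = m / l := by ring
  rw [e1, e2, h3] at h
  have e3 : √(1 - (3:ℝ) / 4) = 1 / 2 := by
    rw [show (1 - (3:ℝ) / 4) = (1 / 2) ^ 2 by norm_num, Real.sqrt_sq (by norm_num)]
  rw [e3] at h
  have h2 : ∫ s in b..l, Fs (m * s / l) = 2 * (l - b) := by
    rw [intervalIntegral.integral_congr (g := fun _ => (2:ℝ))]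
    · simp
      ring
    · intro s hs
      rw [uIcc_of_le hbl] at hs
      apply Fs_big
      have h4 : √3 ≤ m * s / l := by
        rw [← e1]
        have := hs.1
        gcongr
      nlinarith
  have h5 : Hg m l = (∫ s in (1:ℝ)..b, Fs (m * s / l)) + ∫ s in b..l, Fs (m * s / l) :=
    (intervalIntegral.integral_add_adjacent_intervals (Hg_int _ _ _ _) (Hg_int _ _ _ _)).symm
  rw [h5, h2]
  have h6 : 4 / 5 * √3 * l / m = 4 / 5 * b := by
    rw [hb]
    ring
  rw [h6]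
  have h7 : 3 * b / (2 + 1 / 2) = 6 / 5 * b := by ring
  rw [h7] at h
  have h8 : (3:ℝ) * 1 = 3 := by norm_num
  rw [h8] at h
  linarith

end Pool.Agent.Saus2
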