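import Pool.Agent.Saus2.ACrudeMass

/-!
# The inequality for long sets
-/

namespace Pool.Agent.Saus2

open MeasureTheory Set Metric Filter Topology Real

/-- Upper bound for `π κ`. -/
noncomputable def Nn (w m : ℝ) : ℝ := w + m - m ^ 2 / (2 * w) + m ^ 3 / (6 * w ^ 2)

theorem polyA1 {m : ℝ} (_hm : 0 ≤ m) (hm3 : m ≤ 1.7321) :
    m - m ^ 2 / 12 + m ^ 3 / 216 ≤ 0.684 + 0.2886 * m ^ 2 := by
  nlinarith [mul_nonneg (sq_nonneg (m - 1.38)) (by linarith : 0 ≤ 0.35 - 0.01 * m),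
    mul_nonneg (sq_nonneg (m - 1.38)) _hm, sq_nonneg (m - 1.38)]

theorem polyA2 {w m : ℝ} (hw : 6 ≤ w) (hm : 0 ≤ m) (hm3 : m ≤ 1.7321) :
    Nn w m ≤ w + 0.684 + 0.2886 * m ^ 2 + (w - 6) * m ^ 2 / 72 := by
  have h1 := polyA1 hm hm3
  have hw0 : 0 < w := by linarith
  have h2 : m ^ 3 / (6 * w ^ 2) ≤ m ^ 3 / 216 := by
    apply div_le_div_of_nonneg_left (by positivity) (by norm_num)
    nlinarith
  have h3 : m ^ 2 / 12 - m ^ 2 / (2 * w) ≤ (w - 6) * m ^ 2 / 72 := by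
    have e : m ^ 2 / 12 - m ^ 2 / (2 * w) = (w - 6) * m ^ 2 / (12 * w) := by
      field_simp
      ring
    rw [e]
    apply div_le_div_of_nonneg_left _ (by norm_num) (by linarith)
    have : 0 ≤ w - 6 := by linarith
    positivity
  unfold Nn
  linarith

theorem polyA3 {r : ℝ} (hr0 : 1 / 2 ≤ r) (_hr1 : r ≤ 1) :
    0.02 ≤ 0.91538 - 0.7048 * r - 3.02164 * r ^ 2 + 2.3368 * r ^ 3 + 1.1684 * r ^ 4 := by
  nlinarith [mul_nonneg (sq_nonneg (r - 0.69)) (by positivity : 0 ≤ 1.1684 * r ^ 2 + 3.949 * r + 1.871)]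

/-- The case `m ≤ √3`. -/
theorem polyA {w m r p : ℝ} (hw : 6 ≤ w) (hm : 0 ≤ m) (hr0 : 1 / 2 ≤ r) (hr1 : r ≤ 1)
    (hmr : m ^ 2 = 4 * (1 - r ^ 2)) (hp : 1.45769 ≤ p) :
    Nn w m ≤ p + (p - 1) * (1 / r) + 3 / (2 + r) * (w - p * (1 - r)) - (1 + 0.014 * (1 - r ^ 2)) := by
  have hm3 : m ≤ 1.7321 := by nlinarith
  have h1 := polyA2 hw hm hm3
  rw [hmr] at h1
  have h3 := polyA3 hr0 hr1
  have hr : 0 < r := by linarith
  have h2r : 0 < 2 + r := by linarith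
  -- the `w`-part
  have hA : (w - 6) * (4 * (1 - r ^ 2)) / 72 ≤ (w - 6) * (3 / (2 + r) - 1) := by
    have e : 3 / (2 + r) - 1 = (1 - r) / (2 + r) := by
      field_simp
      ring
    rw [e]
    have h4 : 4 * (1 - r ^ 2) / 72 ≤ (1 - r) / (2 + r) := by
      rw [div_le_div_iff₀ (by norm_num) h2r]
      nlinarith [mul_nonneg (by linarith : 0 ≤ 1 - r) (by linarith : 0 ≤ 1 - r), mul_nonneg (mul_nonneg (by linarith : 0 ≤ 1 - r) hr.le) hr.le, mul_nonneg (by linarith : 0 ≤ 1 - r) hr.le]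
    have := mul_le_mul_of_nonneg_left h4 (by linarith : 0 ≤ w - 6)
    linarith
  -- the part at `w = 6`
  have hB : 0.684 + 0.2886 * (4 * (1 - r ^ 2)) + 6 ≤
      p + (p - 1) * (1 / r) + 3 / (2 + r) * (6 - p * (1 - r)) - (1 + 0.014 * (1 - r ^ 2)) := by
    have e : p + (p - 1) * (1 / r) + 3 / (2 + r) * (6 - p * (1 - r)) - (1 + 0.014 * (1 - r ^ 2)) -
        (0.684 + 0.2886 * (4 * (1 - r ^ 2)) + 6) =
        (p * (4 * r ^ 2 + 2) - (2 + r) + 18 * r - 7.684 * (r * (2 + r)) -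
          1.1684 * ((1 - r ^ 2) * (r * (2 + r)))) / (r * (2 + r)) := by
      field_simp
      ring
    have h5 : 0 ≤ (p * (4 * r ^ 2 + 2) - (2 + r) + 18 * r - 7.684 * (r * (2 + r)) -
          1.1684 * ((1 - r ^ 2) * (r * (2 + r)))) / (r * (2 + r)) := by
      apply div_nonneg _ (by positivity)
      have : 1.45769 * (4 * r ^ 2 + 2) ≤ p * (4 * r ^ 2 + 2) :=
        mul_le_mul_of_nonneg_right hp (by positivity)
      nlinarith
    linarith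
  have e2 : 3 / (2 + r) * (w - p * (1 - r)) = 3 / (2 + r) * (6 - p * (1 - r)) +
      (w - 6) * (3 / (2 + r) - 1) + (w - 6) := by ring
  rw [e2]
  linarith

/-- The polynomial for `m ≥ √3`. -/
theorem polyB1 {w m : ℝ} (hw : 6 ≤ w) (hmw : m ≤ w) (hm : 1.732 ≤ m) :
    0 ≤ 6 * m * w ^ 3 - 0.93672 * m * w ^ 2 - 8.31408 * w ^ 3 + 6.05964 * w ^ 2 -
      6 * m ^ 2 * w ^ 2 + 3 * m ^ 3 * w - m ^ 4 := by
  rcases le_or_gt m 4.7 with h | h
  · obtain ⟨t, ht, rfl⟩ : ∃ t, 0 ≤ t ∧ w = 6 + t := ⟨w - 6, by linarith, by ring⟩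
    have e : 6 * m * (6 + t) ^ 3 - 0.93672 * m * (6 + t) ^ 2 - 8.31408 * (6 + t) ^ 3 +
        6.05964 * (6 + t) ^ 2 - 6 * m ^ 2 * (6 + t) ^ 2 + 3 * m ^ 3 * (6 + t) - m ^ 4 =
        t ^ 3 * (6 * m - 8.31408) + t ^ 2 * (-6 * m ^ 2 + 107.06328 * m - 143.5938) +
        t * (3 * m ^ 3 - 72 * m ^ 2 + 636.75936 * m - 825.20496) +
        (-m ^ 4 + 18 * m ^ 3 - 216 * m ^ 2 + 1262.27808 * m - 1577.69424) := by ring
    rw [e]
    have h0 : 0 ≤ 6 * m - 8.31408 := by linarith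
    have h1 : 0 ≤ -6 * m ^ 2 + 107.06328 * m - 143.5938 := by nlinarith
    have h2 : 0 ≤ 3 * m ^ 3 - 72 * m ^ 2 + 636.75936 * m - 825.20496 := by
      nlinarith [mul_nonneg (by linarith : 0 ≤ m - 1.732) (sq_nonneg (m - 8)), sq_nonneg (m - 8)]
    have h3 : 0 ≤ -m ^ 4 + 18 * m ^ 3 - 216 * m ^ 2 + 1262.27808 * m - 1577.69424 := by
      nlinarith [mul_nonneg (by linarith : 0 ≤ m - 1.732) (by linarith : 0 ≤ 4.7 - m),
        mul_nonneg (mul_nonneg (by linarith : 0 ≤ m - 1.732) (by linarith : 0 ≤ 4.7 - m)) (by linarith : 0 ≤ m - 1.732),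
        mul_nonneg (mul_nonneg (mul_nonneg (by linarith : 0 ≤ m - 1.732) (by linarith : 0 ≤ 4.7 - m)) (by linarith : 0 ≤ m - 1.732)) (by linarith : 0 ≤ m - 1.732),
        mul_nonneg (mul_nonneg (mul_nonneg (by linarith : 0 ≤ m - 1.732) (by linarith : 0 ≤ 4.7 - m)) (by linarith : 0 ≤ m - 1.732)) (by linarith : 0 ≤ 4.7 - m)]
    positivity
  · obtain ⟨t, ht, rfl⟩ : ∃ t, 0 ≤ t ∧ w = m + t := ⟨w - m, by linarith, by ring⟩
    have e : 6 * m * (m + t) ^ 3 - 0.93672 * m * (m + t) ^ 2 - 8.31408 * (m + t) ^ 3 +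
        6.05964 * (m + t) ^ 2 - 6 * m ^ 2 * (m + t) ^ 2 + 3 * m ^ 3 * (m + t) - m ^ 4 =
        t ^ 3 * (6 * m - 8.31408) + t ^ 2 * (12 * m ^ 2 - 25.87896 * m + 6.05964) +
        t * (m * (9 * m ^ 2 - 26.81568 * m + 12.11928)) +
        m ^ 2 * (2 * m ^ 2 - 9.2508 * m + 6.05964) := by ring
    rw [e]
    have h0 : 0 ≤ 6 * m - 8.31408 := by linarith
    have h1 : 0 ≤ 12 * m ^ 2 - 25.87896 * m + 6.05964 := by nlinarith
    have h2 : 0 ≤ 9 * m ^ 2 - 26.81568 * m + 12.11928 := by nlinarith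
    have h3 : 0 ≤ 2 * m ^ 2 - 9.2508 * m + 6.05964 := by nlinarith
    positivity

/-- The case `m ≥ √3`. -/
theorem polyB {w m p : ℝ} (hw : 6 ≤ w) (hmw : m ≤ w) (hm0 : 0 < m) (hm : 3 ≤ m ^ 2)
    (hp : 1.45769 ≤ p) :
    Nn w m ≤ p + (p - 1) * 2 + (2 - 4 / 5 * √3 / m) * (w - p * (1 / 2)) - 1.0715 := by
  have hw0 : 0 < w := by linarith
  have hm1 : 1.732 ≤ m := by nlinarith
  have h3 : √3 ≤ 1.7321 := by
    rw [Real.sqrt_le_left (by norm_num)]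
    norm_num
  have h3p : 0 ≤ √3 := Real.sqrt_nonneg 3
  have hP := polyB1 hw hmw hm1
  have h1 : (4 / 5 * √3 / m) * (w - p * (1 / 2)) ≤ 1.38568 * (w - 1.45769 / 2) / m := by
    have h4 : 4 / 5 * √3 / m * (w - p * (1 / 2)) ≤ 4 / 5 * √3 / m * (w - 1.45769 / 2) := by
      apply mul_le_mul_of_nonneg_left (by linarith) (by positivity)
    have h5 : 4 / 5 * √3 / m * (w - 1.45769 / 2) = 4 / 5 * √3 * (w - 1.45769 / 2) / m := by ring
    rw [h5] at h4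
    refine h4.trans ?_
    apply div_le_div_of_nonneg_right _ hm0.le
    apply mul_le_mul_of_nonneg_right (by linarith) (by linarith)
  have h2 : Nn w m ≤ 2 * w - 0.15612 - 1.38568 * (w - 1.45769 / 2) / m := by
    unfold Nn
    have e : 2 * w - 0.15612 - 1.38568 * (w - 1.45769 / 2) / m -
        (w + m - m ^ 2 / (2 * w) + m ^ 3 / (6 * w ^ 2)) =
        (6 * m * w ^ 3 - 0.93672 * m * w ^ 2 - 8.31408 * w ^ 3 + 6 * 1.38568 * (1.45769 / 2) * w ^ 2 -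
      6 * m ^ 2 * w ^ 2 + 3 * m ^ 3 * w - m ^ 4) / (6 * m * w ^ 2) := by
      field_simp
      ring
    have h6 : 0 ≤ (6 * m * w ^ 3 - 0.93672 * m * w ^ 2 - 8.31408 * w ^ 3 +
        6 * 1.38568 * (1.45769 / 2) * w ^ 2 -
      6 * m ^ 2 * w ^ 2 + 3 * m ^ 3 * w - m ^ 4) / (6 * m * w ^ 2) := by
      apply div_nonneg _ (by positivity)
      nlinarith [sq_nonneg w]
    linarith
  nlinarith

end Pool.Agent.Saus2
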