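import Pool.Agent.Saus2.ACrudeH

/-!
# Masses of the measures (S) and (U) in terms of `Hg`
-/

namespace Pool.Agent.Saus2

open MeasureTheory Set Metric Filter Topology Real

theorem Fs_frac_le {m s l : ℝ} (hm : 0 ≤ m) (hl : 0 < l) (hs0 : 0 ≤ s) (hs : s ≤ l) :
    Fs (m * s / l) ≤ Fs m := by
  apply Fs_mono
  · positivity
  · rw [div_le_iff₀ hl]
    exact mul_le_mul_of_nonneg_left hs hm

/-- Tail of the gain integral. -/
theorem Hg_le_add {m l a : ℝ} (hm : 0 ≤ m) (hl : 0 < l) (ha : 0 ≤ a) (hal : a ≤ l) :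
    Hg m l ≤ (∫ s in (1:ℝ)..a, Fs (m * s / l)) + (l - a) * Fs m := by
  have h : Hg m l = (∫ s in (1:ℝ)..a, Fs (m * s / l)) + ∫ s in a..l, Fs (m * s / l) :=
    (intervalIntegral.integral_add_adjacent_intervals (Hg_int _ _ _ _) (Hg_int _ _ _ _)).symm
  have h2 : ∫ s in a..l, Fs (m * s / l) ≤ ∫ _ in a..l, Fs m := by
    apply intervalIntegral.integral_mono_on hal (Hg_int _ _ _ _) (by simp)
    intro s hs
    exact Fs_frac_le hm hl (ha.trans hs.1) hs.2
  rw [intervalIntegral.integral_const, smul_eq_mul] at h2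
  linarith

theorem int_flip (w x0 m a b : ℝ) :
    ∫ x in a..b, Fs (m * ((w - x) / (w - x0))) = ∫ s in (w - b)..(w - a), Fs (m * s / (w - x0)) := by
  have := intervalIntegral.integral_comp_sub_left (fun s : ℝ => Fs (m * s / (w - x0))) w
    (a := a) (b := b)
  rw [← this]
  congr 1
  ext x
  congr 1
  ring

/-- Mass of (S). -/
theorem S_mass {w x0 m : ℝ} (hw : x0 + 2 ≤ w) (hm : 0 ≤ m) :
    Hg m (w - x0) - Fs m ≤ ∫ x in (x0 + 1)..(w - 1), Fs (m * ((w - x) / (w - x0))) := by
  rw [int_flip]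
  have e1 : w - (w - 1) = 1 := by ring
  have e2 : w - (x0 + 1) = w - x0 - 1 := by ring
  rw [e1, e2]
  have h := Hg_le_add (m := m) (l := w - x0) (a := w - x0 - 1) hm (by linarith) (by linarith)
    (by linarith)
  have e3 : (w - x0 - (w - x0 - 1)) = 1 := by ring
  rw [e3, one_mul] at h
  linarith

/-- Mass of (U) for `x₀ ≤ 1`. -/
theorem U_mass1 {w x0 m : ℝ} (hw : 2 ≤ w) (hx0 : 0 < x0) (hx1 : x0 ≤ 1) (hm : 0 ≤ m) :
    Hg m (w - x0) - (1 - x0) * Fs m ≤ ∫ x in (1:ℝ)..(w - 1), Fs (m * tent x0 w x) := by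
  have hL : 0 < w - x0 := by linarith
  have h1 : ∫ x in (1:ℝ)..(w - 1), Fs (m * tent x0 w x) =
      ∫ x in (1:ℝ)..(w - 1), Fs (m * ((w - x) / (w - x0))) := by
    apply intervalIntegral.integral_congr
    intro x hx
    rw [uIcc_of_le (by linarith)] at hx
    have h2 : tent x0 w x = (w - x) / (w - x0) := by
      unfold tent
      apply min_eq_right
      have h3 : 1 ≤ x / x0 := by rw [one_le_div hx0]; linarith [hx.1]
      have h4 : (w - x) / (w - x0) ≤ 1 := by rw [div_le_one hL]; linarith [hx.1]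
      linarith
    simp only
    rw [h2]
  rw [h1, int_flip]
  have e1 : w - (w - 1) = 1 := by ring
  rw [e1]
  have h := Hg_le_add (m := m) (l := w - x0) (a := w - 1) hm hL (by linarith) (by linarith)
  have e3 : (w - x0 - (w - 1)) = 1 - x0 := by ring
  rw [e3] at h
  exact (sub_le_iff_le_add.mpr h)

/-- `Hg` as an integral over the unit interval. -/
theorem Hg_unit {m l : ℝ} (hl : 1 ≤ l) :
    Hg m l = (l - 1) * ∫ σ in (0:ℝ)..1, Fs (m * (σ + (1 - σ) / l)) := by
  rcases eq_or_lt_of_le hl with h | h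
  · rw [← h]
    simp [Hg]
  · have hl0 : 0 < l := by linarith
    have hne : l - 1 ≠ 0 := by linarith [h]
    have := intervalIntegral.integral_comp_mul_add (fun s : ℝ => Fs (m * s / l)) hne 1
      (a := 0) (b := 1)
    have e1 : (l - 1) * 0 + 1 = 1 := by ring
    have e2 : (l - 1) * 1 + 1 = l := by ring
    rw [e1, e2] at this
    have e3 : ∫ σ in (0:ℝ)..1, Fs (m * (σ + (1 - σ) / l)) =
        ∫ σ in (0:ℝ)..1, Fs (m * ((l - 1) * σ + 1) / l) := by
      congr 1
      ext σ
      congr 1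
      field_simp
      ring
    rw [e3, this, smul_eq_mul, Hg]
    field_simp

/-- Superadditivity of the gain integral. -/
theorem Hg_super {m a b : ℝ} (hm : 0 ≤ m) (ha : 1 ≤ a) (hb : 1 ≤ b) :
    Hg m (a + b - 1) ≤ Hg m a + Hg m b := by
  have hanti : ∀ l l' : ℝ, 1 ≤ l' → l' ≤ l →
      ∫ σ in (0:ℝ)..1, Fs (m * (σ + (1 - σ) / l)) ≤ ∫ σ in (0:ℝ)..1, Fs (m * (σ + (1 - σ) / l')) := by
    intro l l' hl' hll
    have hc := Fs_cont
    apply intervalIntegral.integral_mono_on zero_le_one
    · apply Continuous.intervalIntegrable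
      fun_prop
    · apply Continuous.intervalIntegrable
      fun_prop
    · intro σ hσ
      have h1 : 0 ≤ 1 - σ := by linarith [hσ.2]
      apply Fs_mono
      · have : 0 ≤ (1 - σ) / l := div_nonneg h1 (by linarith)
        have := hσ.1
        positivity
      · apply mul_le_mul_of_nonneg_left _ hm
        have : (1 - σ) / l ≤ (1 - σ) / l' := div_le_div_of_nonneg_left h1 (by linarith) hll
        linarith
  rw [Hg_unit ha, Hg_unit hb, Hg_unit (by linarith : 1 ≤ a + b - 1)]
  have h1 := hanti (a + b - 1) a ha (by linarith)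
  have h2 := hanti (a + b - 1) b hb (by linarith)
  nlinarith [mul_le_mul_of_nonneg_left h1 (by linarith : 0 ≤ a - 1),
    mul_le_mul_of_nonneg_left h2 (by linarith : 0 ≤ b - 1)]

/-- Mass of (U) for `x₀ ≥ 1`. -/
theorem U_mass2 {w x0 m : ℝ} (hx1 : 1 ≤ x0) (hxw : x0 ≤ w - 1) (hm : 0 ≤ m) :
    Hg m (w - 1) ≤ ∫ x in (1:ℝ)..(w - 1), Fs (m * tent x0 w x) := by
  have hx0 : 0 < x0 := by linarith
  have hL : 0 < w - x0 := by linarith
  have hc : Continuous fun x => Fs (m * tent x0 w x) := by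
    have h1 := Fs_cont
    have h2 := tent_cont x0 w
    fun_prop
  rw [← intervalIntegral.integral_add_adjacent_intervals
    (hc.intervalIntegrable 1 x0) (hc.intervalIntegrable x0 (w - 1))]
  have h1 : ∫ x in (1:ℝ)..x0, Fs (m * tent x0 w x) = Hg m x0 := by
    unfold Hg
    apply intervalIntegral.integral_congr
    intro x hx
    rw [uIcc_of_le hx1] at hx
    have h2 : tent x0 w x = x / x0 := by
      unfold tent
      apply min_eq_left
      have h3 : x / x0 ≤ 1 := by rw [div_le_one hx0]; exact hx.2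
      have h4 : 1 ≤ (w - x) / (w - x0) := by rw [one_le_div hL]; linarith [hx.2]
      linarith
    simp only
    rw [h2]
    congr 1
    ring
  have h2 : ∫ x in x0..(w - 1), Fs (m * tent x0 w x) = Hg m (w - x0) := by
    have h3 : ∫ x in x0..(w - 1), Fs (m * tent x0 w x) =
        ∫ x in x0..(w - 1), Fs (m * ((w - x) / (w - x0))) := by
      apply intervalIntegral.integral_congr
      intro x hx
      rw [uIcc_of_le hxw] at hx
      have h2 : tent x0 w x = (w - x) / (w - x0) := by
        unfold tent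
        apply min_eq_right
        have h3 : 1 ≤ x / x0 := by rw [one_le_div hx0]; exact hx.1
        have h4 : (w - x) / (w - x0) ≤ 1 := by rw [div_le_one hL]; linarith [hx.1]
        linarith
      simp only
      rw [h2]
    rw [h3, int_flip]
    have e1 : w - (w - 1) = 1 := by ring
    rw [e1]
    rfl
  rw [h1, h2]
  have := Hg_super (m := m) (a := x0) (b := w - x0) hm hx1 (by linarith)
  have e : x0 + (w - x0) - 1 = w - 1 := by ring
  rw [e] at this
  exact this

end Pool.Agent.Saus2
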