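import Pool.Agent.Saus2.AAtoms

/-!
# Measures consisting of atoms at the vertices of a triangle
-/

set_option autoImplicit false

namespace Pool.Agent.Saus2

open MeasureTheory Set Metric Filter Topology Real
open scoped InnerProductSpace

/-- Three atoms `p, q, r` at the vertices `0`, `w`, `x + ih`. -/
theorem adm3 {w x h p q r : ℝ} (hx0 : 0 ≤ x) (hxw : x ≤ w) (hh : 0 ≤ h)
    (hp0 : 0 ≤ p) (hq0 : 0 ≤ q) (hr0 : 0 ≤ r) (hp : p ≤ 1 / 2) (hq : q ≤ 1 / 2) (hr : r ≤ 1 / 2)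
    (h1 : (p + q) ^ 2 - p * q * w ^ 2 ≤ 1 / 4)
    (h2 : (p + r) ^ 2 - p * r * (x ^ 2 + h ^ 2) ≤ 1 / 4)
    (h3 : (q + r) ^ 2 - q * r * ((w - x) ^ 2 + h ^ 2) ≤ 1 / 4)
    (h4 : (p + q + r) ^ 2 - p * q * w ^ 2 - p * r * (x ^ 2 + h ^ 2)
      - q * r * ((w - x) ^ 2 + h ^ 2) ≤ 1 / 4) :
    Adm (tri w x h) (p + q + r) := by
  set m : Fin 3 → ℝ := ![p, q, r] with hm
  set V : Fin 3 → ℂ := ![0, (w : ℂ), ⟨x, h⟩] with hV
  have hm0 : ∀ i, 0 ≤ m i := by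
    intro i
    fin_cases i <;> simp [hm, hp0, hq0, hr0]
  have hw : 0 ≤ w := hx0.trans hxw
  have d01 : ‖V 0 - V 1‖ ^ 2 = w ^ 2 := by
    rw [normSq_sub]
    simp [hV]
  have d02 : ‖V 0 - V 2‖ ^ 2 = x ^ 2 + h ^ 2 := by
    rw [normSq_sub]
    simp [hV]
  have d12 : ‖V 1 - V 2‖ ^ 2 = (w - x) ^ 2 + h ^ 2 := by
    rw [normSq_sub]
    simp [hV]
  have d10 : ‖V 1 - V 0‖ ^ 2 = w ^ 2 := by
    rw [norm_sub_rev, d01]
  have d20 : ‖V 2 - V 0‖ ^ 2 = x ^ 2 + h ^ 2 := by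
    rw [norm_sub_rev, d02]
  have d21 : ‖V 2 - V 1‖ ^ 2 = (w - x) ^ 2 + h ^ 2 := by
    rw [norm_sub_rev, d12]
  have e0 : m 0 = p := rfl
  have e1 : m 1 = q := rfl
  have e2 : m 2 = r := rfl
  have hload : ∀ c, ∑ i, m i * (2 * √(1 - ‖V i - c‖ ^ 2)) ≤ 1 := by
    apply atoms_load m hm0 V
    intro S
    have hSs : S ∈ (Finset.univ : Finset (Fin 3)).powerset := by simp
    have : (Finset.univ : Finset (Fin 3)).powerset =
        {∅, {0}, {1}, {2}, {0, 1}, {0, 2}, {1, 2}, {0, 1, 2}} := by decide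
    rw [this] at hSs
    simp only [Finset.mem_insert, Finset.mem_singleton] at hSs
    rcases hSs with rfl | rfl | rfl | rfl | rfl | rfl | rfl | rfl
    · norm_num
    · simp [e0]
      nlinarith
    · simp [e1]
      nlinarith
    · simp [e2]
      nlinarith
    · simp [e0, e1, d01, d10]
      nlinarith
    · simp [e0, e2, d02, d20]
      nlinarith
    · simp [e1, e2, d12, d21]
      nlinarith
    · simp [e0, e1, e2, d01, d10, d02, d20, d12, d21]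
      nlinarith
  have key := adm_of_atoms_curves (K := tri w x h) (ι := Fin 3) (κ := Fin 0) m V hm0
    (by
      intro i
      fin_cases i
      · have := seg_frontier hx0 hxw hh (s := 0) le_rfl hw
        simpa [hV] using this
      · simpa [hV] using seg_frontier hx0 hxw hh (s := w) hw le_rfl
      · simpa [hV] using apex_frontier hx0 hxw hh)
    (fun _ => 0) (fun _ => 0) (fun _ => le_rfl) (fun _ _ => 0)
    (fun k => k.elim0) (fun k => k.elim0) (fun _ _ => 0) (fun k => k.elim0) (fun k => k.elim0)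
    (by
      intro c _
      simpa using hload c)
  have hsum : ∑ i, m i = p + q + r := by
    rw [Fin.sum_univ_three, e0, e1, e2]
  rw [hsum] at key
  simpa using key

/-- Equal atoms. -/
theorem adm_E {w x h m : ℝ} (hx0 : 0 ≤ x) (hxw : x ≤ w) (hh : 0 ≤ h) (hm0 : 0 ≤ m)
    (hm : m ≤ 1 / 2) (ha : m ^ 2 * (4 - w ^ 2) ≤ 1 / 4)
    (hc : m ^ 2 * (4 - (x ^ 2 + h ^ 2)) ≤ 1 / 4)
    (hb : m ^ 2 * (4 - ((w - x) ^ 2 + h ^ 2)) ≤ 1 / 4)
    (hs : m ^ 2 * (9 - (w ^ 2 + (x ^ 2 + h ^ 2) + ((w - x) ^ 2 + h ^ 2))) ≤ 1 / 4) :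
    Adm (tri w x h) (3 * m) := by
  have := adm3 (w := w) (x := x) (h := h) (p := m) (q := m) (r := m) hx0 hxw hh hm0 hm0 hm0
    hm hm hm (by nlinarith) (by nlinarith) (by nlinarith) (by nlinarith)
  exact this.mono (by linarith)

/-- Two atoms `1/2` at distance at least `√3`. -/
theorem adm_P {w x h : ℝ} (hx0 : 0 ≤ x) (hxw : x ≤ w) (hh : 0 ≤ h) (hw : 3 ≤ w ^ 2) :
    Adm (tri w x h) 1 := by
  have := adm3 (w := w) (x := x) (h := h) (p := 1 / 2) (q := 1 / 2) (r := 0) hx0 hxw hh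
    (by norm_num) (by norm_num) le_rfl le_rfl le_rfl (by norm_num)
    (by nlinarith) (by norm_num) (by norm_num) (by nlinarith)
  exact this.mono (by norm_num)

/-- Atoms `1/2` at `A` and `m` at `B` and `X`. -/
theorem adm_M2 {w x h m : ℝ} (hx0 : 0 ≤ x) (hxw : x ≤ w) (hh : 0 ≤ h) (hm0 : 0 ≤ m)
    (hm : m ≤ 1 / 2) (hc : m ^ 2 * (4 - (x ^ 2 + h ^ 2)) ≤ 1 / 4)
    (ha : 1 + m ≤ w ^ 2 / 2) (hb : 1 + m ≤ ((w - x) ^ 2 + h ^ 2) / 2)
    (hs : (1 / 2 + 2 * m) ^ 2 - m / 2 * (w ^ 2 + ((w - x) ^ 2 + h ^ 2))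
      - m ^ 2 * (x ^ 2 + h ^ 2) ≤ 1 / 4) :
    Adm (tri w x h) (1 / 2 + 2 * m) := by
  have := adm3 (w := w) (x := x) (h := h) (p := m) (q := 1 / 2) (r := m) hx0 hxw hh hm0
    (by norm_num) hm0 hm le_rfl hm (by nlinarith) (by nlinarith) (by nlinarith) (by nlinarith)
  exact this.mono (by linarith)

end Pool.Agent.Saus2
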