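import Mathlib

/-!
# The one-dimensional measure `T₁`

Atoms `α = 58/125` at the two ends of an interval of length `w ≥ 2` and density `1/π` at distance
at least `1` from the ends.  Its load is at most one for every centre.
-/

namespace Pool.Agent.Saus2

open MeasureTheory Set Real intervalIntegral

/-- The integrand of the load of the density. -/
theorem cont_cap (u : ℝ) : Continuous fun x : ℝ => √(1 - (x - u) ^ 2) := by
  fun_prop

/-- A unit disc meets a density `1` on a line in at most `π/2` (weighted by half chords). -/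
theorem int_cap_le (a b u : ℝ) (hab : a ≤ b) :
    ∫ x in a..b, √(1 - (x - u) ^ 2) ≤ π / 2 := by
  have hc := cont_cap u
  have hii : ∀ p q : ℝ, IntervalIntegrable (fun x : ℝ => √(1 - (x - u) ^ 2)) volume p q :=
    fun p q => hc.intervalIntegrable p q
  have hnn : ∀ x : ℝ, 0 ≤ √(1 - (x - u) ^ 2) := fun x => Real.sqrt_nonneg _
  -- enlarge to an interval containing `[u-1,u+1]`
  set p := min a (u - 1) with hp
  set q := max b (u + 1) with hq
  have hpa : p ≤ a := min_le_left _ _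
  have hpu : p ≤ u - 1 := min_le_right _ _
  have hbq : b ≤ q := le_max_left _ _
  have huq : u + 1 ≤ q := le_max_right _ _
  have h1 : ∫ x in a..b, √(1 - (x - u) ^ 2) ≤ ∫ x in p..q, √(1 - (x - u) ^ 2) := by
    apply intervalIntegral.integral_mono_interval hpa hab hbq
    · exact Filter.Eventually.of_forall hnn
    · exact hii p q
  have hz1 : ∫ x in p..(u - 1), √(1 - (x - u) ^ 2) = 0 := by
    rw [intervalIntegral.integral_congr (g := fun _ => (0:ℝ))]
    · simp
    · intro x hx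
      rw [uIcc_of_le hpu] at hx
      apply Real.sqrt_eq_zero_of_nonpos
      nlinarith [hx.2]
  have hz2 : ∫ x in (u + 1)..q, √(1 - (x - u) ^ 2) = 0 := by
    rw [intervalIntegral.integral_congr (g := fun _ => (0:ℝ))]
    · simp
    · intro x hx
      rw [uIcc_of_le huq] at hx
      apply Real.sqrt_eq_zero_of_nonpos
      nlinarith [hx.1]
  have hmid : ∫ x in (u - 1)..(u + 1), √(1 - (x - u) ^ 2) = π / 2 := by
    have := intervalIntegral.integral_comp_sub_right (fun x : ℝ => √(1 - x ^ 2)) u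
      (a := u - 1) (b := u + 1)
    rw [this]
    have h2 : u - 1 - u = -1 := by ring
    have h3 : u + 1 - u = 1 := by ring
    rw [h2, h3]
    exact integral_sqrt_one_sub_sq
  have hsum : ∫ x in p..q, √(1 - (x - u) ^ 2) = π / 2 := by
    rw [← intervalIntegral.integral_add_adjacent_intervals (hii p (u - 1)) (hii (u - 1) q),
      ← intervalIntegral.integral_add_adjacent_intervals (hii (u - 1) (u + 1)) (hii (u + 1) q),
      hz1, hz2, hmid]
    ring
  linarith

/-- Upper bound for the cap area `∫_{1-s²}^1 √(1-t²) dt`. -/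
theorem cap_le (s : ℝ) (h0 : 0 ≤ s) (h1 : s ≤ 1) :
    ∫ t in (1 - s ^ 2)..1, √(1 - t ^ 2) ≤ √2 * (2 * s ^ 3 / 3 - s ^ 5 / 10 - s ^ 7 / 112) := by
  have hcont : Continuous fun t : ℝ => √(1 - t ^ 2) := by fun_prop
  set P : ℝ → ℝ := fun s => √2 * (2 * s ^ 3 / 3 - s ^ 5 / 10 - s ^ 7 / 112) with hP
  set J : ℝ → ℝ := fun s => ∫ t in (1 - s ^ 2)..1, √(1 - t ^ 2) with hJ
  have hJd : ∀ s : ℝ, HasDerivAt J (√(1 - (1 - s ^ 2) ^ 2) * (2 * s)) s := by
    intro s
    have h1 : HasDerivAt (fun y : ℝ => ∫ t in y..1, √(1 - t ^ 2)) (-√(1 - (1 - s ^ 2) ^ 2))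
        (1 - s ^ 2) :=
      intervalIntegral.integral_hasDerivAt_left (hcont.intervalIntegrable _ _)
        (hcont.stronglyMeasurableAtFilter _ _) hcont.continuousAt
    have h2 : HasDerivAt (fun s : ℝ => 1 - s ^ 2) (-(2 * s)) s := by
      have := ((hasDerivAt_pow 2 s).const_sub 1)
      simpa using this
    have h3 := h1.comp s h2
    have h4 : -√(1 - (1 - s ^ 2) ^ 2) * -(2 * s) = √(1 - (1 - s ^ 2) ^ 2) * (2 * s) := by ring
    rw [h4] at h3
    exact h3
  have hPd : ∀ s : ℝ, HasDerivAt P (√2 * (2 * s ^ 2 - s ^ 4 / 2 - s ^ 6 / 16)) s := by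
    intro s
    have h1 : HasDerivAt (fun s : ℝ => 2 * s ^ 3 / 3 - s ^ 5 / 10 - s ^ 7 / 112)
        (2 * s ^ 2 - s ^ 4 / 2 - s ^ 6 / 16) s := by
      have a := ((hasDerivAt_pow 3 s).const_mul 2).div_const 3
      have b := (hasDerivAt_pow 5 s).div_const 10
      have c := (hasDerivAt_pow 7 s).div_const 112
      have := (a.sub b).sub c
      refine this.congr_deriv ?_
      norm_num
      ring
    exact h1.const_mul _
  have hmono : MonotoneOn (fun s => P s - J s) (Icc 0 1) := by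
    apply monotoneOn_of_deriv_nonneg (convex_Icc 0 1)
    · intro x _
      exact ((hPd x).sub (hJd x)).continuousAt.continuousWithinAt
    · intro x _
      exact ((hPd x).sub (hJd x)).differentiableAt.differentiableWithinAt
    · intro x hx
      rw [interior_Icc] at hx
      have hder : deriv (fun s => P s - J s) x = √2 * (2 * x ^ 2 - x ^ 4 / 2 - x ^ 6 / 16) -
          √(1 - (1 - x ^ 2) ^ 2) * (2 * x) := ((hPd x).sub (hJd x)).deriv
      rw [hder]
      have hx0 : 0 < x := hx.1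
      have hx1 : x < 1 := hx.2
      have e1 : 1 - (1 - x ^ 2) ^ 2 = (2 - x ^ 2) * x ^ 2 := by ring
      have e2 : √(1 - (1 - x ^ 2) ^ 2) = √(2 - x ^ 2) * x := by
        rw [e1, Real.sqrt_mul (by nlinarith), Real.sqrt_sq hx0.le]
      have e3 : √(2 - x ^ 2) ≤ √2 * (1 - x ^ 2 / 4 - x ^ 4 / 32) := by
        apply Real.sqrt_le_iff.mpr
        constructor
        · have : 0 ≤ 1 - x ^ 2 / 4 - x ^ 4 / 32 := by nlinarith [pow_le_one₀ hx0.le hx1.le (n := 2), pow_le_one₀ hx0.le hx1.le (n := 4)]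
          positivity
        · rw [mul_pow, Real.sq_sqrt (by norm_num : (0:ℝ) ≤ 2)]
          nlinarith [pow_pos hx0 6, pow_pos hx0 8]
      rw [e2]
      have : √(2 - x ^ 2) * x * (2 * x) ≤ √2 * (1 - x ^ 2 / 4 - x ^ 4 / 32) * x * (2 * x) := by
        gcongr
      nlinarith
  have h00 : P 0 - J 0 = 0 := by simp [hP, hJ]
  have := hmono (left_mem_Icc.mpr zero_le_one) ⟨h0, h1⟩ h0
  have h3 : P 0 - J 0 ≤ P s - J s := this
  rw [h00] at h3
  have : J s ≤ P s := by linarith
  exact this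

/-- The polynomial inequality behind `T₁`. -/
theorem t1_poly (s : ℝ) (h0 : 0 ≤ s) (h1 : s ≤ 1) :
    116 / 125 * √(1 - s ^ 4) + 2 / π * (√2 * (2 * s ^ 3 / 3 - s ^ 5 / 10 - s ^ 7 / 112)) ≤ 1 := by
  have hs4 : 0 ≤ 1 - s ^ 4 := by
    have := pow_le_one₀ h0 h1 (n := 4)
    linarith
  have hA : √(1 - s ^ 4) ≤ (1 - s ^ 4 + (857 / 1000) ^ 2) / (2 * (857 / 1000)) := by
    rw [le_div_iff₀ (by norm_num)]
    nlinarith [sq_nonneg (√(1 - s ^ 4) - 857 / 1000), Real.sq_sqrt hs4]
  have hB0 : 0 ≤ 2 * s ^ 3 / 3 - s ^ 5 / 10 - s ^ 7 / 112 := by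
    have h5 : s ^ 5 ≤ s ^ 3 := pow_le_pow_of_le_one h0 h1 (by norm_num)
    have h7 : s ^ 7 ≤ s ^ 3 := pow_le_pow_of_le_one h0 h1 (by norm_num)
    have h3 : 0 ≤ s ^ 3 := by positivity
    nlinarith
  have hk : 2 / π * √2 ≤ 90032 / 100000 := by
    have hpi : (3.14159 : ℝ) < π := Real.pi_gt_d6.trans_le' (by norm_num)
    have h2 : √2 ≤ 1.414214 := by
      rw [Real.sqrt_le_left (by norm_num)]
      norm_num
    rw [div_mul_eq_mul_div, div_le_iff₀ Real.pi_pos]
    nlinarith
  have hB : 2 / π * (√2 * (2 * s ^ 3 / 3 - s ^ 5 / 10 - s ^ 7 / 112)) ≤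
      90032 / 100000 * (2 * s ^ 3 / 3 - s ^ 5 / 10 - s ^ 7 / 112) := by
    rw [← mul_assoc]
    exact mul_le_mul_of_nonneg_right hk hB0
  have key : 116 / 125 * ((1 - s ^ 4 + (857 / 1000) ^ 2) / (2 * (857 / 1000))) +
      90032 / 100000 * (2 * s ^ 3 / 3 - s ^ 5 / 10 - s ^ 7 / 112) ≤ 1 := by
    rcases le_or_gt s (3 / 5) with h | h
    · have hu : 0 ≤ 3 / 5 - s := by linarith
      have e : 1 - (116 / 125 * ((1 - s ^ 4 + (857 / 1000) ^ 2) / (2 * (857 / 1000))) +
          90032 / 100000 * (2 * s ^ 3 / 3 - s ^ 5 / 10 - s ^ 7 / 112)) =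
          (1942771 / 1339062500) + (3 / 5 - s) * ((6637017 / 66953125) + (1814678 / 13390625) * s + (397661 / 8034375) * s * (3 / 5 - s)
            + (464 / 857) * s * s * (3 / 5 - s)) + (5627 / 62500) * s ^ 5 + (5627 / 700000) * s ^ 7 := by
        ring
      have : 0 ≤ (1942771 / 1339062500) + (3 / 5 - s) * ((6637017 / 66953125) + (1814678 / 13390625) * s + (397661 / 8034375) * s * (3 / 5 - s)
            + (464 / 857) * s * s * (3 / 5 - s)) + (5627 / 62500) * s ^ 5 + (5627 / 700000) * s ^ 7 := by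
        positivity
      linarith
    · have h5 : 5 * (287 / 400) ^ 4 * s - 4 * (287 / 400) ^ 5 ≤ s ^ 5 := by
        nlinarith [mul_nonneg (sq_nonneg (s - 287 / 400)) (by positivity : 0 ≤ s ^ 3 + 2 * (287 / 400) * s ^ 2 + 3 * (287 / 400) ^ 2 * s + 4 * (287 / 400) ^ 3)]
      have h7 : 7 * (287 / 400) ^ 6 * s - 6 * (287 / 400) ^ 7 ≤ s ^ 7 := by
        nlinarith [mul_nonneg (sq_nonneg (s - 287 / 400)) (by positivity : 0 ≤ s ^ 5 + 2 * (287 / 400) * s ^ 4 + 3 * (287 / 400) ^ 2 * s ^ 3 + 4 * (287 / 400) ^ 3 * s ^ 2 + 5 * (287 / 400) ^ 4 * s + 6 * (287 / 400) ^ 5)]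
      have h8 : 0 ≤ (s - 287 / 400) ^ 2 * ((464 / 857) * s ^ 2 + (1419911 / 8034375) * s - (80733961 / 3213750000)) := by
        apply mul_nonneg (sq_nonneg _)
        nlinarith
      have e : 1 - (116 / 125 * ((1 - s ^ 4 + (857 / 1000) ^ 2) / (2 * (857 / 1000))) +
          90032 / 100000 * (2 * s ^ 3 / 3 - s ^ 5 / 10 - s ^ 7 / 112)) =
          (5627 / 62500) * (s ^ 5 - (5 * (287 / 400) ^ 4 * s - 4 * (287 / 400) ^ 5)) +
          (5627 / 700000) * (s ^ 7 - (7 * (287 / 400) ^ 6 * s - 6 * (287 / 400) ^ 7)) +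
          (s - 287 / 400) ^ 2 * ((464 / 857) * s ^ 2 + (1419911 / 8034375) * s - (80733961 / 3213750000)) +
          ((138824622924404230788781 / 210616320000000000000000000) - (17382123002193732349 / 351027200000000000000000) * s) := by
        ring
      linarith
  linarith

/-- The left end of `T₁`. -/
theorem t1_left {u b : ℝ} (hb : 1 ≤ b) (hu1 : u ≤ 1) :
    116 / 125 * √(1 - u ^ 2) + 2 / π * ∫ x in (1:ℝ)..b, √(1 - (x - u) ^ 2) ≤ 1 := by
  have hii : ∀ p q : ℝ, IntervalIntegrable (fun x : ℝ => √(1 - (x - u) ^ 2)) volume p q :=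
    fun p q => (cont_cap u).intervalIntegrable p q
  have hz : ∀ p q : ℝ, 1 + u ≤ p → p ≤ q → ∫ x in p..q, √(1 - (x - u) ^ 2) = 0 := by
    intro p q hp hpq
    rw [intervalIntegral.integral_congr (g := fun _ => (0:ℝ))]
    · simp
    · intro x hx
      rw [uIcc_of_le hpq] at hx
      apply Real.sqrt_eq_zero_of_nonpos
      nlinarith [hx.1]
  rcases le_or_gt u 0 with h | h
  · rw [hz 1 b (by linarith) hb]
    have : √(1 - u ^ 2) ≤ 1 := by
      apply Real.sqrt_le_one.mpr
      nlinarith [sq_nonneg u]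
    linarith
  · have h1 : ∫ x in (1:ℝ)..b, √(1 - (x - u) ^ 2) ≤ ∫ x in (1:ℝ)..(1 + u), √(1 - (x - u) ^ 2) := by
      rcases le_or_gt b (1 + u) with h2 | h2
      · apply intervalIntegral.integral_mono_interval le_rfl hb h2
        · exact Filter.Eventually.of_forall fun x => Real.sqrt_nonneg _
        · exact hii _ _
      · rw [← intervalIntegral.integral_add_adjacent_intervals (hii 1 (1 + u)) (hii (1 + u) b),
          hz (1 + u) b le_rfl h2.le]
        linarith
    have h2 : ∫ x in (1:ℝ)..(1 + u), √(1 - (x - u) ^ 2) = ∫ t in (1 - u)..1, √(1 - t ^ 2) := by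
      have := intervalIntegral.integral_comp_sub_right (fun x : ℝ => √(1 - x ^ 2)) u
        (a := 1) (b := 1 + u)
      rw [this]
      congr 1
      ring
    set s := √u with hs
    have hs0 : 0 ≤ s := Real.sqrt_nonneg _
    have hs1 : s ≤ 1 := by
      exact Real.sqrt_le_one.mpr hu1
    have hsu : s ^ 2 = u := Real.sq_sqrt h.le
    have h3 := cap_le s hs0 hs1
    rw [hsu] at h3
    have h4 := t1_poly s hs0 hs1
    have h5 : s ^ 4 = u ^ 2 := by
      rw [← hsu]
      ring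
    rw [h5] at h4
    have h6 : 2 / π * ∫ x in (1:ℝ)..b, √(1 - (x - u) ^ 2) ≤
        2 / π * (√2 * (2 * s ^ 3 / 3 - s ^ 5 / 10 - s ^ 7 / 112)) := by
      apply mul_le_mul_of_nonneg_left _ (by positivity)
      rw [h2] at h1
      exact h1.trans h3
    linarith

/-- The load of `T₁` on `[0, w]` at every centre `u` is at most one. -/
theorem t1_load {w u : ℝ} (hw : 2 ≤ w) :
    116 / 125 * √(1 - u ^ 2) + 116 / 125 * √(1 - (w - u) ^ 2)
      + 2 / π * ∫ x in (1:ℝ)..(w - 1), √(1 - (x - u) ^ 2) ≤ 1 := by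
  have hz : ∀ t : ℝ, 1 ≤ |t| → √(1 - t ^ 2) = 0 := by
    intro t ht
    apply Real.sqrt_eq_zero_of_nonpos
    have := sq_abs t
    nlinarith
  rcases le_or_gt u 1 with h1 | h1
  · have h2 : √(1 - (w - u) ^ 2) = 0 := hz _ (by
      rw [abs_of_nonneg (by linarith)]
      linarith)
    rw [h2]
    have := t1_left (u := u) (b := w - 1) (by linarith) h1
    linarith
  · rcases le_or_gt (w - u) 1 with h2 | h2
    · have h3 : √(1 - u ^ 2) = 0 := hz _ (by
        rw [abs_of_nonneg (by linarith)]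
        linarith)
      rw [h3]
      have h4 := t1_left (u := w - u) (b := w - 1) (by linarith) h2
      have h5 : ∫ x in (1:ℝ)..(w - 1), √(1 - (x - (w - u)) ^ 2) =
          ∫ x in (1:ℝ)..(w - 1), √(1 - (x - u) ^ 2) := by
        have := intervalIntegral.integral_comp_sub_left (fun x : ℝ => √(1 - (x - u) ^ 2)) w
          (a := 1) (b := w - 1)
        have e1 : w - (w - 1) = 1 := by ring
        rw [e1] at this
        rw [← this]
        congr 1
        ext x
        congr 2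
        ring
      rw [h5] at h4
      linarith
    · have h3 : √(1 - u ^ 2) = 0 := hz _ (by
        rw [abs_of_nonneg (by linarith)]
        linarith)
      have h4 : √(1 - (w - u) ^ 2) = 0 := hz _ (by
        rw [abs_of_nonneg (by linarith)]
        linarith)
      rw [h3, h4]
      have h5 := int_cap_le 1 (w - 1) u (by linarith)
      have h6 : 2 / π * ∫ x in (1:ℝ)..(w - 1), √(1 - (x - u) ^ 2) ≤ 2 / π * (π / 2) :=
        mul_le_mul_of_nonneg_left h5 (by positivity)
      have h7 : 2 / π * (π / 2) = 1 := by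
        field_simp
      linarith

/-- Scaling: for `0 ≤ r ≤ 1`, `√(r² - a²) ≤ r √(1 - a²)`. -/
theorem sqrt_scale {r a : ℝ} (hr0 : 0 ≤ r) (hr1 : r ≤ 1) : √(r ^ 2 - a ^ 2) ≤ r * √(1 - a ^ 2) := by
  rcases le_or_gt (r ^ 2) (a ^ 2) with h | h
  · rw [Real.sqrt_eq_zero_of_nonpos (by linarith)]
    positivity
  · apply Real.sqrt_le_iff.mpr
    refine ⟨by positivity, ?_⟩
    have h1 : a ^ 2 ≤ 1 := by nlinarith
    rw [mul_pow, Real.sq_sqrt (by linarith)]
    nlinarith [mul_nonneg (sq_nonneg a) (by nlinarith : 0 ≤ 1 - r ^ 2)]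

/-- The load of `T₁` at height `v`. -/
theorem t1_load_height {w u v : ℝ} (hw : 2 ≤ w) :
    116 / 125 * √(1 - (u ^ 2 + v ^ 2)) + 116 / 125 * √(1 - ((w - u) ^ 2 + v ^ 2))
      + 2 / π * ∫ x in (1:ℝ)..(w - 1), √(1 - ((x - u) ^ 2 + v ^ 2)) ≤ √(1 - v ^ 2) := by
  set r := √(1 - v ^ 2) with hr
  have hr0 : 0 ≤ r := Real.sqrt_nonneg _
  have hr1 : r ≤ 1 := by
    apply Real.sqrt_le_one.mpr
    nlinarith [sq_nonneg v]
  have hle : ∀ a : ℝ, √(1 - (a ^ 2 + v ^ 2)) ≤ r * √(1 - a ^ 2) := by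
    intro a
    rcases le_or_gt (1 - v ^ 2) 0 with h | h
    · rw [Real.sqrt_eq_zero_of_nonpos (by nlinarith [sq_nonneg a])]
      positivity
    · have h2 : r ^ 2 = 1 - v ^ 2 := Real.sq_sqrt h.le
      have := sqrt_scale (a := a) hr0 hr1
      rw [h2] at this
      convert this using 2
      ring
  have h1 := t1_load (w := w) (u := u) hw
  have h2 : ∫ x in (1:ℝ)..(w - 1), √(1 - ((x - u) ^ 2 + v ^ 2)) ≤
      ∫ x in (1:ℝ)..(w - 1), r * √(1 - (x - u) ^ 2) := by
    apply intervalIntegral.integral_mono_on (by linarith)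
    · apply Continuous.intervalIntegrable
      fun_prop
    · apply Continuous.intervalIntegrable
      fun_prop
    · intro x _
      exact hle _
  rw [intervalIntegral.integral_const_mul] at h2
  have h3 := hle u
  have h4 := hle (w - u)
  have h5 : 2 / π * ∫ x in (1:ℝ)..(w - 1), √(1 - ((x - u) ^ 2 + v ^ 2)) ≤
      2 / π * (r * ∫ x in (1:ℝ)..(w - 1), √(1 - (x - u) ^ 2)) :=
    mul_le_mul_of_nonneg_left h2 (by positivity)
  nlinarith [mul_le_mul_of_nonneg_left h1 hr0]

end Pool.Agent.Saus2
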