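import Pool.Agent.Saus2.Adm
import Pool.Agent.Saus2.T1

/-!
# The two-sheet measure

A pair of points at vertical distance `g` may carry `Fs g` times the mass of one point.
-/

namespace Pool.Agent.Saus2

open MeasureTheory Set Metric Filter Topology Real
open scoped InnerProductSpace

/-- The gain factor of a pair of points at distance `g`. -/
noncomputable def Fs (g : ℝ) : ℝ := 1 / √(max (1 / 4) (1 - g ^ 2 / 4))

theorem Fs_pos (g : ℝ) : 0 < Fs g := by
  unfold Fs
  have : (0:ℝ) < max (1 / 4) (1 - g ^ 2 / 4) := lt_of_lt_of_le (by norm_num) (le_max_left _ _)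
  positivity

theorem Fs_cont : Continuous Fs := by
  unfold Fs
  apply Continuous.div continuous_const (by fun_prop)
  intro g
  have : (0:ℝ) < max (1 / 4) (1 - g ^ 2 / 4) := lt_of_lt_of_le (by norm_num) (le_max_left _ _)
  exact (Real.sqrt_pos.mpr this).ne'

theorem Fs_le_two (g : ℝ) : Fs g ≤ 2 := by
  unfold Fs
  have h1 : (1 / 2 : ℝ) ≤ √(max (1 / 4) (1 - g ^ 2 / 4)) := by
    apply Real.le_sqrt_of_sq_le
    norm_num
  rw [div_le_iff₀ (by linarith)]
  linarith

theorem Fs_mul_le {g : ℝ} : Fs g * √(1 - g ^ 2 / 4) ≤ 1 := by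
  unfold Fs
  have h0 : (0:ℝ) < max (1 / 4) (1 - g ^ 2 / 4) := lt_of_lt_of_le (by norm_num) (le_max_left _ _)
  have h1 : √(1 - g ^ 2 / 4) ≤ √(max (1 / 4) (1 - g ^ 2 / 4)) :=
    Real.sqrt_le_sqrt (le_max_right _ _)
  have h2 : 0 < √(max (1 / 4) (1 - g ^ 2 / 4)) := Real.sqrt_pos.mpr h0
  rw [div_mul_eq_mul_div, one_mul, div_le_one h2]
  exact h1

/-- The pointwise two-sheet inequality. -/
theorem sheet_pt {R a b g : ℝ} (hR : R ≤ 1) (hg : g ^ 2 ≤ (a - b) ^ 2) :
    Fs g * (√(R - a ^ 2) + √(R - b ^ 2)) ≤ 2 * √R := by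
  have hF := Fs_pos g
  have hF2 := Fs_le_two g
  rcases le_or_gt R (a ^ 2) with ha | ha
  · rw [Real.sqrt_eq_zero_of_nonpos (by linarith : R - a ^ 2 ≤ 0), zero_add]
    have h1 : √(R - b ^ 2) ≤ √R := Real.sqrt_le_sqrt (by nlinarith [sq_nonneg b])
    have h2 := Real.sqrt_nonneg (R - b ^ 2)
    nlinarith
  · rcases le_or_gt R (b ^ 2) with hb | hb
    · rw [Real.sqrt_eq_zero_of_nonpos (by linarith : R - b ^ 2 ≤ 0), add_zero]
      have h1 : √(R - a ^ 2) ≤ √R := Real.sqrt_le_sqrt (by nlinarith [sq_nonneg a])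
      have h2 := Real.sqrt_nonneg (R - a ^ 2)
      nlinarith
    · have hR0 : 0 < R := lt_of_le_of_lt (sq_nonneg a) ha
      have h1 : √(R - a ^ 2) + √(R - b ^ 2) ≤ 2 * √(R - g ^ 2 / 4) := by
        have e1 := Real.sq_sqrt (by linarith : 0 ≤ R - a ^ 2)
        have e2 := Real.sq_sqrt (by linarith : 0 ≤ R - b ^ 2)
        have h3 : (√(R - a ^ 2) + √(R - b ^ 2)) ^ 2 ≤ 4 * (R - g ^ 2 / 4) := by
          nlinarith [sq_nonneg (√(R - a ^ 2) - √(R - b ^ 2)), sq_nonneg (a + b)]
        have h4 : √(R - a ^ 2) + √(R - b ^ 2) ≤ √(4 * (R - g ^ 2 / 4)) :=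
          Real.le_sqrt_of_sq_le h3
        rw [Real.sqrt_mul (by norm_num : (0:ℝ) ≤ 4)] at h4
        have h5 : √(4:ℝ) = 2 := by
          rw [show (4:ℝ) = 2 ^ 2 by norm_num, Real.sqrt_sq (by norm_num)]
        rw [h5] at h4
        exact h4
      have h2 : √(R - g ^ 2 / 4) ≤ √R * √(1 - g ^ 2 / 4) := by
        rw [← Real.sqrt_mul hR0.le]
        apply Real.sqrt_le_sqrt
        nlinarith [sq_nonneg g]
      have h6 := Fs_mul_le (g := g)
      have h7 : 0 ≤ √R := Real.sqrt_nonneg R
      calc Fs g * (√(R - a ^ 2) + √(R - b ^ 2)) ≤ Fs g * (2 * (√R * √(1 - g ^ 2 / 4))) := by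
            apply mul_le_mul_of_nonneg_left _ hF.le
            linarith
        _ = 2 * √R * (Fs g * √(1 - g ^ 2 / 4)) := by ring
        _ ≤ 2 * √R * 1 := mul_le_mul_of_nonneg_left h6 (by positivity)
        _ = 2 * √R := by ring

/-- The point with coordinates `x`, `y`. -/
def pt (x y : ℝ) : ℂ := ⟨x, y⟩

@[simp] theorem pt_re (x y : ℝ) : (pt x y).re = x := rfl

@[simp] theorem pt_im (x y : ℝ) : (pt x y).im = y := rfl

theorem pt_cont {f g : ℝ → ℝ} (hf : Continuous f) (hg : Continuous g) :
    Continuous fun t => pt (f t) (g t) := by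
  have h : (fun t => pt (f t) (g t)) = fun t => ((f t : ℝ) : ℂ) + ((g t : ℝ) : ℂ) * Complex.I := by
    ext t
    exact Complex.mk_eq_add_mul_I _ _
  rw [h]
  fun_prop

/-- Squared distance in coordinates. -/
theorem nsq (x y : ℝ) (c : ℂ) :
    ‖pt x y - c‖ ^ 2 = (x - c.re) ^ 2 + (y - c.im) ^ 2 := by
  rw [← Complex.normSq_eq_norm_sq, Complex.normSq_apply]
  simp
  ring

/-- Two points on one vertical line. -/
theorem pair_load (x y1 y2 : ℝ) (c : ℂ) {g : ℝ} (hg : g ^ 2 ≤ (y1 - y2) ^ 2) :
    Fs g * (√(1 - ‖pt x y1 - c‖ ^ 2) + √(1 - ‖pt x y2 - c‖ ^ 2)) ≤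
      2 * √(1 - (x - c.re) ^ 2) := by
  rw [nsq, nsq]
  have h := sheet_pt (R := 1 - (x - c.re) ^ 2) (a := y1 - c.im) (b := y2 - c.im) (g := g)
    (by nlinarith [sq_nonneg (x - c.re)]) (by ring_nf; ring_nf at hg; linarith)
  have e1 : 1 - ((x - c.re) ^ 2 + (y1 - c.im) ^ 2) = 1 - (x - c.re) ^ 2 - (y1 - c.im) ^ 2 := by ring
  have e2 : 1 - ((x - c.re) ^ 2 + (y2 - c.im) ^ 2) = 1 - (x - c.re) ^ 2 - (y2 - c.im) ^ 2 := by ring
  rw [e1, e2]
  exact h

/-- One point. -/
theorem one_load (x y : ℝ) (c : ℂ) :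
    √(1 - ‖pt x y - c‖ ^ 2) ≤ √(1 - (x - c.re) ^ 2) := by
  rw [nsq]
  apply Real.sqrt_le_sqrt
  nlinarith [sq_nonneg (y - c.im)]

/-- `T₁` on `[p, w]`. -/
theorem t1_shift {p w u : ℝ} (hw : p + 2 ≤ w) :
    116 / 125 * √(1 - (p - u) ^ 2) + 116 / 125 * √(1 - (w - u) ^ 2)
      + 2 / π * ∫ x in (p + 1)..(w - 1), √(1 - (x - u) ^ 2) ≤ 1 := by
  have h := t1_load (w := w - p) (u := u - p) (by linarith)
  have h2 : ∫ x in (1:ℝ)..(w - p - 1), √(1 - (x - (u - p)) ^ 2) =
      ∫ x in (p + 1)..(w - 1), √(1 - (x - u) ^ 2) := by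
    have := intervalIntegral.integral_comp_add_right (fun x : ℝ => √(1 - (x - u) ^ 2)) p
      (a := 1) (b := w - p - 1)
    have e1 : (1:ℝ) + p = p + 1 := by ring
    have e2 : w - p - 1 + p = w - 1 := by ring
    rw [e1, e2] at this
    rw [← this]
    congr 1
    ext x
    congr 2
    ring
  rw [h2] at h
  have e3 : (u - p) ^ 2 = (p - u) ^ 2 := by ring
  have e4 : (w - p - (u - p)) ^ 2 = (w - u) ^ 2 := by ring
  rw [e3, e4] at h
  exact h

/-- Linear inequalities pass to convex hulls. -/
theorem hull_le {S : Set ℂ} {a b c : ℝ} (h : ∀ z ∈ S, a * z.re + b * z.im ≤ c) :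
    ∀ z ∈ convexHull ℝ S, a * z.re + b * z.im ≤ c := by
  have hconv : Convex ℝ {z : ℂ | a * z.re + b * z.im ≤ c} := by
    intro z hz z' hz' s t hs ht hst
    simp only [mem_ofPred_eq] at *
    simp only [Complex.add_re, Complex.add_im, Complex.real_smul, Complex.mul_re, Complex.mul_im,
      Complex.ofReal_re, Complex.ofReal_im, zero_mul, sub_zero, add_zero]
    have e : a * (s * z.re + t * z'.re) + b * (s * z.im + t * z'.im) =
        s * (a * z.re + b * z.im) + t * (a * z'.re + b * z'.im) := by ring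
    rw [e]
    calc _ ≤ s * c + t * c := add_le_add (mul_le_mul_of_nonneg_left hz hs)
          (mul_le_mul_of_nonneg_left hz' ht)
      _ = c := by rw [← add_mul, hst, one_mul]
  exact fun z hz => convexHull_min (fun y hy => h y hy) hconv hz

/-- Convex combinations in coordinates. -/
theorem mix_mem {K : Set ℂ} (hK : Convex ℝ K) {z z' : ℂ} (hz : z ∈ K) (hz' : z' ∈ K) {s t : ℝ}
    (hs : 0 ≤ s) (ht : 0 ≤ t) (hst : s + t = 1) {x y : ℝ} (hx : x = s * z.re + t * z'.re)
    (hy : y = s * z.im + t * z'.im) : pt x y ∈ K := by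
  have := hK hz hz' hs ht hst
  have e : s • z + t • z' = pt x y := by
    apply Complex.ext
    · simp only [Complex.add_re, Complex.real_smul, Complex.mul_re,
        Complex.ofReal_re, Complex.ofReal_im, zero_mul, sub_zero, pt_re]
      linarith
    · simp only [Complex.add_im, Complex.real_smul, Complex.mul_im,
        Complex.ofReal_re, Complex.ofReal_im, zero_mul, add_zero, pt_im]
      linarith
  rw [← e]
  exact this

/-- Frontier points in coordinates. -/
theorem frontier_of {K : Set ℂ} {x : ℂ} (hx : x ∈ K) {a b : ℝ} (hab : a ≠ 0 ∨ b ≠ 0)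
    (h : ∀ z ∈ K, a * z.re + b * z.im ≤ a * x.re + b * x.im) : x ∈ frontier K := by
  have hin : ∀ z : ℂ, ⟪((a : ℂ) + (b : ℂ) * Complex.I), z⟫_ℝ = a * z.re + b * z.im := by
    intro z
    rw [Complex.inner]
    simp
    ring
  apply mem_frontier_of_max hx (n := (a : ℂ) + (b : ℂ) * Complex.I)
  · intro h0
    have h1 := congrArg Complex.re h0
    have h2 := congrArg Complex.im h0
    simp at h1 h2
    rcases hab with h3 | h3
    · exact h3 h1
    · exact h3 h2
  · intro y hy
    rw [hin, hin]
    exact h y hy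

/-- The two-sheet measure on a convex set `K`: left atom split on `p + i{y₁, y₂}`, right atom at
`w + i y₃`, sheets `x + i t(x)` and `x + i b(x)`. -/
theorem adm_sheet {K : Set ℂ} {p w y1 y2 y3 : ℝ} (hw : p + 2 ≤ w)
    (h1 : pt p y1 ∈ frontier K) (h2 : pt p y2 ∈ frontier K) (h3 : pt w y3 ∈ frontier K)
    {t b : ℝ → ℝ} (ht : ContinuousOn t (Icc (p + 1) (w - 1)))
    (hb : ContinuousOn b (Icc (p + 1) (w - 1)))
    (htK : ∀ x ∈ Icc (p + 1) (w - 1), pt x (t x) ∈ frontier K)
    (hbK : ∀ x ∈ Icc (p + 1) (w - 1), pt x (b x) ∈ frontier K) :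
    Adm K (58 / 125 * Fs (y1 - y2) + 58 / 125 +
      (∫ x in (p + 1)..(w - 1), Fs (t x - b x)) / π) := by
  have hle : p + 1 ≤ w - 1 := by linarith
  have hFG : ContinuousOn (fun x => Fs (t x - b x) / (2 * π)) (Icc (p + 1) (w - 1)) :=
    (Fs_cont.comp_continuousOn (ht.sub hb)).div_const _
  have hptc : ∀ f : ℝ → ℝ, ContinuousOn f (Icc (p + 1) (w - 1)) →
      ContinuousOn (fun x => pt x (f x)) (Icc (p + 1) (w - 1)) := by
    intro f hf
    have h : (fun x => pt x (f x)) = fun x => ((x : ℝ) : ℂ) + ((f x : ℝ) : ℂ) * Complex.I := by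
      ext x
      exact Complex.mk_eq_add_mul_I _ _
    rw [h]
    fun_prop
  have hld : ∀ c : ℂ, Continuous fun y : ℂ => 2 * √(1 - ‖y - c‖ ^ 2) := by
    intro c
    fun_prop
  have hint : ∀ (f : ℝ → ℝ) (c : ℂ), ContinuousOn f (Icc (p + 1) (w - 1)) → IntervalIntegrable
      (fun x => Fs (t x - b x) / (2 * π) * (2 * √(1 - ‖pt x (f x) - c‖ ^ 2))) volume
      (p + 1) (w - 1) := by
    intro f c hf
    apply ContinuousOn.intervalIntegrable
    rw [uIcc_of_le hle]
    exact hFG.mul ((hld c).comp_continuousOn (hptc f hf))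
  have main := adm_of_atoms_curves (K := K) (ι := Fin 3) (κ := Fin 2)
    ![29 / 125 * Fs (y1 - y2), 29 / 125 * Fs (y1 - y2), 58 / 125] ![pt p y1, pt p y2, pt w y3]
    (by
      intro i
      have := Fs_pos (y1 - y2)
      fin_cases i <;> simp <;> positivity)
    (by
      intro i
      fin_cases i
      · exact h1
      · exact h2
      · exact h3)
    (fun _ => p + 1) (fun _ => w - 1) (fun _ => hle)
    (fun _ x => Fs (t x - b x) / (2 * π)) (fun _ => hFG)
    (fun _ x _ => by
      have := Fs_pos (t x - b x)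
      positivity)
    ![fun x => pt x (t x), fun x => pt x (b x)]
    (by
      intro k
      fin_cases k
      · exact hptc t ht
      · exact hptc b hb)
    (by
      intro k
      fin_cases k
      · exact htK
      · exact hbK)
    (by
      intro c _
      simp only [Fin.sum_univ_three, Fin.sum_univ_two, Matrix.cons_val_zero, Matrix.cons_val_one,
        Matrix.cons_val]
      have k1 := pair_load p y1 y2 c (g := y1 - y2) le_rfl
      have k2 := one_load w y3 c
      have k3 : (∫ x in (p + 1)..(w - 1), Fs (t x - b x) / (2 * π) *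
            (2 * √(1 - ‖pt x (t x) - c‖ ^ 2))) +
          ∫ x in (p + 1)..(w - 1), Fs (t x - b x) / (2 * π) * (2 * √(1 - ‖pt x (b x) - c‖ ^ 2)) ≤
          2 / π * ∫ x in (p + 1)..(w - 1), √(1 - (x - c.re) ^ 2) := by
        rw [← intervalIntegral.integral_add (hint t c ht) (hint b c hb),
          ← intervalIntegral.integral_const_mul]
        apply intervalIntegral.integral_mono_on hle
        · exact (hint t c ht).add (hint b c hb)
        · apply Continuous.intervalIntegrable
          fun_prop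
        · intro x _
          have h4 := pair_load x (t x) (b x) c (g := t x - b x) le_rfl
          have h5 : Fs (t x - b x) / (2 * π) * (2 * √(1 - ‖pt x (t x) - c‖ ^ 2)) +
              Fs (t x - b x) / (2 * π) * (2 * √(1 - ‖pt x (b x) - c‖ ^ 2)) =
              1 / π * (Fs (t x - b x) * (√(1 - ‖pt x (t x) - c‖ ^ 2) +
                √(1 - ‖pt x (b x) - c‖ ^ 2))) := by
            field_simp
          rw [h5]
          have h6 : 2 / π * √(1 - (x - c.re) ^ 2) = 1 / π * (2 * √(1 - (x - c.re) ^ 2)) := by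
            ring
          rw [h6]
          exact mul_le_mul_of_nonneg_left h4 (by positivity)
      have k4 := t1_shift (p := p) (w := w) (u := c.re) hw
      linarith)
  refine main.mono (le_of_eq ?_)
  simp only [Fin.sum_univ_three, Fin.sum_univ_two, Matrix.cons_val_zero, Matrix.cons_val_one,
        Matrix.cons_val]
  rw [intervalIntegral.integral_div]
  ring

theorem Fs_zero : Fs 0 = 1 := by
  unfold Fs
  norm_num

/-- (S) The left atom of `T₁` is moved to the chord `x₀ + i[-y₂, y₁]`. -/
theorem adm_S {w x0 y1 y2 : ℝ} (hw : x0 + 2 ≤ w) (hy1 : 0 ≤ y1) (hy2 : 0 ≤ y2) :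
    Adm (convexHull ℝ {pt x0 y1, pt x0 (-y2), pt w 0})
      (58 / 125 * Fs (y1 + y2) + 58 / 125 +
        (∫ x in (x0 + 1)..(w - 1), Fs ((y1 + y2) * ((w - x) / (w - x0)))) / π) := by
  set T : ℂ := pt x0 y1 with hT
  set B : ℂ := pt x0 (-y2) with hB
  set W : ℂ := pt w 0 with hW
  set K : Set ℂ := convexHull ℝ {T, B, W} with hK
  have hc : Convex ℝ K := convex_convexHull ℝ _
  have hL : 0 < w - x0 := by linarith
  have hne : (w - x0) ≠ 0 := hL.ne'
  have hTK : T ∈ K := subset_convexHull ℝ _ (by simp)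
  have hBK : B ∈ K := subset_convexHull ℝ _ (by simp)
  have hWK : W ∈ K := subset_convexHull ℝ _ (by simp)
  have htop : ∀ z ∈ K, y1 * z.re + (w - x0) * z.im ≤ y1 * w := by
    apply hull_le
    intro z hz
    rcases hz with rfl | rfl | rfl
    · simp only [hT, pt_re, pt_im]; nlinarith
    · simp only [hB, pt_re, pt_im]; nlinarith [mul_nonneg hL.le hy2, mul_nonneg hL.le hy1]
    · simp only [hW, pt_re, pt_im]; nlinarith
  have hbot : ∀ z ∈ K, y2 * z.re + (-(w - x0)) * z.im ≤ y2 * w := by
    apply hull_le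
    intro z hz
    rcases hz with rfl | rfl | rfl
    · simp only [hT, pt_re, pt_im]; nlinarith [mul_nonneg hL.le hy2, mul_nonneg hL.le hy1]
    · simp only [hB, pt_re, pt_im]; nlinarith
    · simp only [hW, pt_re, pt_im]; nlinarith
  have hTf : T ∈ frontier K := frontier_of hTK (a := y1) (b := w - x0) (Or.inr hne) (by
    intro z hz
    have := htop z hz
    simp only [hT, pt_re, pt_im]
    nlinarith)
  have hBf : B ∈ frontier K := frontier_of hBK (a := y2) (b := -(w - x0))
    (Or.inr (neg_ne_zero.mpr hne)) (by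
    intro z hz
    have := hbot z hz
    simp only [hB, pt_re, pt_im]
    nlinarith)
  have hWf : W ∈ frontier K := frontier_of hWK (a := y1) (b := w - x0) (Or.inr hne) (by
    intro z hz
    have := htop z hz
    simp only [hW, pt_re, pt_im]
    nlinarith)
  have hlam : ∀ x ∈ Icc (x0 + 1) (w - 1), 0 ≤ (w - x) / (w - x0) ∧
      0 ≤ 1 - (w - x) / (w - x0) := by
    intro x hx
    refine ⟨div_nonneg (by linarith [hx.2]) hL.le, ?_⟩
    rw [sub_nonneg, div_le_one hL]
    linarith [hx.1]
  have main := adm_sheet (K := K) (p := x0) (w := w) (y1 := y1) (y2 := -y2) (y3 := 0) hw hTf hBf hWf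
    (t := fun x => y1 * ((w - x) / (w - x0))) (b := fun x => -y2 * ((w - x) / (w - x0)))
    (by fun_prop) (by fun_prop)
    (by
      intro x hx
      obtain ⟨ht0, ht1⟩ := hlam x hx
      apply frontier_of (a := y1) (b := w - x0) _ (Or.inr hne)
      · intro z hz
        have := htop z hz
        simp only [pt_re, pt_im]
        have e : y1 * x + (w - x0) * (y1 * ((w - x) / (w - x0))) = y1 * w := by
          field_simp
          ring
        linarith
      · apply mix_mem hc hTK hWK ht0 ht1 (by ring)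
        · simp only [hT, hW, pt_re]
          field_simp
          ring
        · simp only [hT, hW, pt_im]
          ring)
    (by
      intro x hx
      obtain ⟨ht0, ht1⟩ := hlam x hx
      apply frontier_of (a := y2) (b := -(w - x0)) _ (Or.inr (neg_ne_zero.mpr hne))
      · intro z hz
        have := hbot z hz
        simp only [pt_re, pt_im]
        have e : y2 * x + -(w - x0) * (-y2 * ((w - x) / (w - x0))) = y2 * w := by
          field_simp
          ring
        linarith
      · apply mix_mem hc hBK hWK ht0 ht1 (by ring)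
        · simp only [hB, hW, pt_re]
          field_simp
          ring
        · simp only [hB, hW, pt_im]
          ring)
  refine main.mono (le_of_eq ?_)
  have e1 : y1 - -y2 = y1 + y2 := by ring
  have e2 : ∀ x : ℝ, y1 * ((w - x) / (w - x0)) - -y2 * ((w - x) / (w - x0)) =
      (y1 + y2) * ((w - x) / (w - x0)) := by
    intro x
    ring
  simp only [e1, e2]

/-- Height profile of the quadrilateral `0, x₀ + i[-y₂, y₁], w`. -/
noncomputable def tent (x0 w x : ℝ) : ℝ := min (x / x0) ((w - x) / (w - x0))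

theorem tent_cont (x0 w : ℝ) : Continuous (tent x0 w) := by
  unfold tent
  fun_prop

/-- (U) `T₁` on the diameter `[0, w]`, two sheets on the quadrilateral. -/
theorem adm_U {w x0 y1 y2 : ℝ} (hw : 2 ≤ w) (hx0 : 0 < x0) (hx0w : x0 < w) (hy1 : 0 ≤ y1)
    (hy2 : 0 ≤ y2) :
    Adm (convexHull ℝ {pt 0 0, pt x0 y1, pt x0 (-y2), pt w 0})
      (116 / 125 + (∫ x in (1:ℝ)..(w - 1), Fs ((y1 + y2) * tent x0 w x)) / π) := by
  set P : ℂ := pt 0 0 with hP
  set T : ℂ := pt x0 y1 with hT
  set B : ℂ := pt x0 (-y2) with hB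
  set W : ℂ := pt w 0 with hW
  set K : Set ℂ := convexHull ℝ {P, T, B, W} with hK
  have hc : Convex ℝ K := convex_convexHull ℝ _
  have hL : 0 < w - x0 := by linarith
  have hne : (w - x0) ≠ 0 := hL.ne'
  have hPK : P ∈ K := subset_convexHull ℝ _ (by simp)
  have hTK : T ∈ K := subset_convexHull ℝ _ (by simp)
  have hBK : B ∈ K := subset_convexHull ℝ _ (by simp)
  have hWK : W ∈ K := subset_convexHull ℝ _ (by simp)
  -- four edges
  have htr : ∀ z ∈ K, y1 * z.re + (w - x0) * z.im ≤ y1 * w := by
    apply hull_le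
    intro z hz
    rcases hz with rfl | rfl | rfl | rfl
    · simp only [hP, pt_re, pt_im]; nlinarith [mul_nonneg hy1 (by linarith : 0 ≤ w)]
    · simp only [hT, pt_re, pt_im]; nlinarith
    · simp only [hB, pt_re, pt_im]; nlinarith [mul_nonneg hL.le hy2, mul_nonneg hL.le hy1]
    · simp only [hW, pt_re, pt_im]; nlinarith
  have hbr : ∀ z ∈ K, y2 * z.re + (-(w - x0)) * z.im ≤ y2 * w := by
    apply hull_le
    intro z hz
    rcases hz with rfl | rfl | rfl | rfl
    · simp only [hP, pt_re, pt_im]; nlinarith [mul_nonneg hy2 (by linarith : 0 ≤ w)]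
    · simp only [hT, pt_re, pt_im]; nlinarith [mul_nonneg hL.le hy2, mul_nonneg hL.le hy1]
    · simp only [hB, pt_re, pt_im]; nlinarith
    · simp only [hW, pt_re, pt_im]; nlinarith
  have htl : ∀ z ∈ K, (-y1) * z.re + x0 * z.im ≤ 0 := by
    apply hull_le
    intro z hz
    rcases hz with rfl | rfl | rfl | rfl
    · simp only [hP, pt_re, pt_im]; nlinarith
    · simp only [hT, pt_re, pt_im]; nlinarith
    · simp only [hB, pt_re, pt_im]; nlinarith [mul_nonneg hx0.le hy2, mul_nonneg hx0.le hy1]
    · simp only [hW, pt_re, pt_im]; nlinarith [mul_nonneg hy1 (by linarith : 0 ≤ w)]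
  have hbl : ∀ z ∈ K, (-y2) * z.re + (-x0) * z.im ≤ 0 := by
    apply hull_le
    intro z hz
    rcases hz with rfl | rfl | rfl | rfl
    · simp only [hP, pt_re, pt_im]; nlinarith
    · simp only [hT, pt_re, pt_im]; nlinarith [mul_nonneg hx0.le hy2, mul_nonneg hx0.le hy1]
    · simp only [hB, pt_re, pt_im]; nlinarith
    · simp only [hW, pt_re, pt_im]; nlinarith [mul_nonneg hy2 (by linarith : 0 ≤ w)]
  have hPf : P ∈ frontier K := frontier_of hPK (a := -y1) (b := x0) (Or.inr hx0.ne') (by
    intro z hz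
    have := htl z hz
    simp only [hP, pt_re, pt_im]
    linarith)
  have hWf : W ∈ frontier K := frontier_of hWK (a := y1) (b := w - x0) (Or.inr hne) (by
    intro z hz
    have := htr z hz
    simp only [hW, pt_re, pt_im]
    nlinarith)
  -- value of the tent
  have htent : ∀ x ∈ Icc (0 + 1 : ℝ) (w - 1), (x ≤ x0 ∧ tent x0 w x = x / x0 ∧ 0 ≤ x / x0 ∧
        0 ≤ 1 - x / x0) ∨
      (x0 ≤ x ∧ tent x0 w x = (w - x) / (w - x0) ∧ 0 ≤ (w - x) / (w - x0) ∧
        0 ≤ 1 - (w - x) / (w - x0)) := by
    intro x hx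
    rcases le_total x x0 with h | h
    · left
      have h1 : x / x0 ≤ 1 := by rw [div_le_one hx0]; exact h
      have h2 : 1 ≤ (w - x) / (w - x0) := by rw [one_le_div hL]; linarith
      exact ⟨h, min_eq_left (by linarith), div_nonneg (by linarith [hx.1]) hx0.le, by linarith⟩
    · right
      have h1 : 1 ≤ x / x0 := by rw [one_le_div hx0]; exact h
      have h2 : (w - x) / (w - x0) ≤ 1 := by rw [div_le_one hL]; linarith
      exact ⟨h, min_eq_right (by linarith), div_nonneg (by linarith [hx.2]) hL.le, by linarith⟩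
  have main := adm_sheet (K := K) (p := 0) (w := w) (y1 := 0) (y2 := 0) (y3 := 0) (by linarith)
    hPf hPf hWf
    (t := fun x => y1 * tent x0 w x) (b := fun x => -y2 * tent x0 w x)
    (by
      have := tent_cont x0 w
      fun_prop)
    (by
      have := tent_cont x0 w
      fun_prop)
    (by
      intro x hx
      rcases htent x hx with ⟨_, e, h0, h1⟩ | ⟨_, e, h0, h1⟩
      · rw [e]
        apply frontier_of (a := -y1) (b := x0) _ (Or.inr hx0.ne')
        · intro z hz
          have := htl z hz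
          simp only [pt_re, pt_im]
          have e2 : -y1 * x + x0 * (y1 * (x / x0)) = 0 := by
            field_simp
            ring
          linarith
        · apply mix_mem hc hTK hPK h0 h1 (by ring)
          · simp only [hT, hP, pt_re]
            field_simp
            ring
          · simp only [hT, hP, pt_im]
            ring
      · rw [e]
        apply frontier_of (a := y1) (b := w - x0) _ (Or.inr hne)
        · intro z hz
          have := htr z hz
          simp only [pt_re, pt_im]
          have e2 : y1 * x + (w - x0) * (y1 * ((w - x) / (w - x0))) = y1 * w := by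
            field_simp
            ring
          linarith
        · apply mix_mem hc hTK hWK h0 h1 (by ring)
          · simp only [hT, hW, pt_re]
            field_simp
            ring
          · simp only [hT, hW, pt_im]
            ring)
    (by
      intro x hx
      rcases htent x hx with ⟨_, e, h0, h1⟩ | ⟨_, e, h0, h1⟩
      · rw [e]
        apply frontier_of (a := -y2) (b := -x0) _ (Or.inr (neg_ne_zero.mpr hx0.ne'))
        · intro z hz
          have := hbl z hz
          simp only [pt_re, pt_im]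
          have e2 : -y2 * x + -x0 * (-y2 * (x / x0)) = 0 := by
            field_simp
            ring
          linarith
        · apply mix_mem hc hBK hPK h0 h1 (by ring)
          · simp only [hB, hP, pt_re]
            field_simp
            ring
          · simp only [hB, hP, pt_im]
            ring
      · rw [e]
        apply frontier_of (a := y2) (b := -(w - x0)) _ (Or.inr (neg_ne_zero.mpr hne))
        · intro z hz
          have := hbr z hz
          simp only [pt_re, pt_im]
          have e2 : y2 * x + -(w - x0) * (-y2 * ((w - x) / (w - x0))) = y2 * w := by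
            field_simp
            ring
          linarith
        · apply mix_mem hc hBK hWK h0 h1 (by ring)
          · simp only [hB, hW, pt_re]
            field_simp
            ring
          · simp only [hB, hW, pt_im]
            ring)
  refine main.mono (le_of_eq ?_)
  have e1 : (0:ℝ) - 0 = 0 := by ring
  have e2 : ∀ x : ℝ, y1 * tent x0 w x - -y2 * tent x0 w x = (y1 + y2) * tent x0 w x := by
    intro x
    ring
  have e3 : (0:ℝ) + 1 = 1 := by ring
  simp only [e1, e2, e3, Fs_zero]
  ring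

end Pool.Agent.Saus2
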