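import Pool.Agent.Saus2.ARegS
import Pool.Agent.Saus2.ASheet
import Pool.Agent.Saus2.ACrudeH

/-!
# Fat triangles

Triangles of height at least `√3`: `T₁` on the longest side and a measure on the chord at
height `√3`.
-/

set_option autoImplicit false

namespace Pool.Agent.Saus2

open MeasureTheory Set Metric Filter Topology Real
open scoped InnerProductSpace

/-- Load of `T₁` on a horizontal segment. -/
theorem t1_seg {p w y : ℝ} (hw : 2 ≤ w) (c : ℂ) :
    58 / 125 * (2 * √(1 - ‖pt p y - c‖ ^ 2)) + 58 / 125 * (2 * √(1 - ‖pt (p + w) y - c‖ ^ 2)) +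
      ∫ x in (1:ℝ)..(w - 1), 1 / π * (2 * √(1 - ‖pt (p + x) y - c‖ ^ 2)) ≤
      √(1 - (y - c.im) ^ 2) := by
  have h := t1_load_height (w := w) (u := c.re - p) (v := y - c.im) hw
  have e1 : ‖pt p y - c‖ ^ 2 = (c.re - p) ^ 2 + (y - c.im) ^ 2 := by
    rw [nsq]
    ring
  have e2 : ‖pt (p + w) y - c‖ ^ 2 = (w - (c.re - p)) ^ 2 + (y - c.im) ^ 2 := by
    rw [nsq]
    ring
  have e3 : ∀ x : ℝ, 1 / π * (2 * √(1 - ‖pt (p + x) y - c‖ ^ 2)) =
      2 / π * √(1 - ((x - (c.re - p)) ^ 2 + (y - c.im) ^ 2)) := by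
    intro x
    rw [nsq]
    have : (p + x - c.re) ^ 2 = (x - (c.re - p)) ^ 2 := by ring
    rw [this]
    ring
  simp only [e3]
  rw [e1, e2, intervalIntegral.integral_const_mul]
  linarith

/-- Load of a horizontal pair of points. -/
theorem pair_seg (p l y : ℝ) (c : ℂ) :
    Fs l / 4 * (2 * √(1 - ‖pt p y - c‖ ^ 2)) + Fs l / 4 * (2 * √(1 - ‖pt (p + l) y - c‖ ^ 2)) ≤
      √(1 - (y - c.im) ^ 2) := by
  have h := sheet_pt (R := 1 - (y - c.im) ^ 2) (a := p - c.re) (b := p + l - c.re) (g := l)
    (by nlinarith [sq_nonneg (y - c.im)]) (by nlinarith)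
  have e1 : 1 - ‖pt p y - c‖ ^ 2 = 1 - (y - c.im) ^ 2 - (p - c.re) ^ 2 := by
    rw [nsq]
    ring
  have e2 : 1 - ‖pt (p + l) y - c‖ ^ 2 = 1 - (y - c.im) ^ 2 - (p + l - c.re) ^ 2 := by
    rw [nsq]
    ring
  rw [e1, e2]
  linarith

theorem two_heights (v : ℝ) : √(1 - (0 - v) ^ 2) + √(1 - (√3 - v) ^ 2) ≤ 1 := by
  have hs := sq_sqrt_three
  set A := 1 - (0 - v) ^ 2 with hA
  set B := 1 - (√3 - v) ^ 2 with hB
  have hA1 : √A ≤ 1 := by
    apply Real.sqrt_le_one.mpr
    nlinarith [sq_nonneg v]
  have hB1 : √B ≤ 1 := by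
    apply Real.sqrt_le_one.mpr
    nlinarith [sq_nonneg (√3 - v)]
  rcases le_or_gt A 0 with h1 | h1
  · rw [Real.sqrt_eq_zero_of_nonpos h1]
    linarith
  rcases le_or_gt B 0 with h2 | h2
  · rw [Real.sqrt_eq_zero_of_nonpos h2]
    linarith
  have h3 : A + B ≤ 1 / 2 := by nlinarith [sq_nonneg (v - √3 / 2)]
  have h4 := Real.sq_sqrt h1.le
  have h5 := Real.sq_sqrt h2.le
  have h6 : (√A + √B) ^ 2 ≤ 1 := by nlinarith [sq_nonneg (√A - √B)]
  nlinarith [Real.sqrt_nonneg A, Real.sqrt_nonneg B]

/-- The trapezoid. -/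
def trap (w x1 l : ℝ) : Set ℂ := convexHull ℝ {pt 0 0, pt w 0, pt x1 √3, pt (x1 + l) √3}

theorem trap_compact (w x1 l : ℝ) : IsCompact (trap w x1 l) :=
  Set.Finite.isCompact_convexHull (𝕜 := ℝ) (by simp)

theorem trap_convex (w x1 l : ℝ) : Convex ℝ (trap w x1 l) := convex_convexHull ℝ _

theorem trap_nonempty (w x1 l : ℝ) : (trap w x1 l).Nonempty :=
  Set.Nonempty.convexHull ⟨_, mem_insert _ _⟩

theorem trap_bot {w x1 l : ℝ} : ∀ z ∈ trap w x1 l, 0 * z.re + (-1) * z.im ≤ 0 := by
  apply hull_le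
  intro z hz
  have := Real.sqrt_nonneg (3:ℝ)
  rcases hz with rfl | rfl | rfl | rfl <;> simp only [pt_re, pt_im] <;> linarith

theorem trap_top {w x1 l : ℝ} : ∀ z ∈ trap w x1 l, 0 * z.re + 1 * z.im ≤ √3 := by
  apply hull_le
  intro z hz
  have := Real.sqrt_nonneg (3:ℝ)
  rcases hz with rfl | rfl | rfl | rfl <;> simp only [pt_re, pt_im] <;> linarith

theorem trap_fbot {w x1 l s : ℝ} (hw : 0 < w) (h0 : 0 ≤ s) (h1 : s ≤ w) :
    pt s 0 ∈ frontier (trap w x1 l) := by
  have hP : pt 0 0 ∈ trap w x1 l := subset_convexHull ℝ _ (by simp)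
  have hW : pt w 0 ∈ trap w x1 l := subset_convexHull ℝ _ (by simp)
  apply frontier_of (a := 0) (b := -1) _ (Or.inr (by norm_num))
  · intro z hz
    have := trap_bot z hz
    simp only [pt_re, pt_im]
    linarith
  · have h2 : s / w ≤ 1 := (div_le_one hw).mpr h1
    apply mix_mem (trap_convex w x1 l) hP hW (s := 1 - s / w) (t := s / w) (by linarith)
      (by positivity) (by ring)
    · simp only [pt_re]
      field_simp
      ring
    · simp only [pt_im]
      ring

theorem trap_ftop {w x1 l s : ℝ} (hl : 0 ≤ l) (h0 : 0 ≤ s) (h1 : s ≤ l) :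
    pt (x1 + s) √3 ∈ frontier (trap w x1 l) := by
  have hP : pt x1 √3 ∈ trap w x1 l := subset_convexHull ℝ _ (by simp)
  have hW : pt (x1 + l) √3 ∈ trap w x1 l := subset_convexHull ℝ _ (by simp)
  apply frontier_of (a := 0) (b := 1) _ (Or.inr (by norm_num))
  · intro z hz
    have := trap_top z hz
    simp only [pt_re, pt_im]
    linarith
  · rcases eq_or_lt_of_le hl with h | h
    · have : s = 0 := by linarith
      rw [this, add_zero]
      exact hP
    · have h2 : s / l ≤ 1 := (div_le_one h).mpr h1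
      apply mix_mem (trap_convex w x1 l) hP hW (s := 1 - s / l) (t := s / l) (by linarith)
        (by positivity) (by ring)
      · simp only [pt_re]
        field_simp
        ring
      · simp only [pt_im]
        ring

theorem pt_cont' (p y : ℝ) : Continuous fun x : ℝ => pt (p + x) y := by
  have h : (fun x : ℝ => pt (p + x) y) = fun x => ((p + x : ℝ) : ℂ) + ((y : ℝ) : ℂ) * Complex.I := by
    ext x
    exact Complex.mk_eq_add_mul_I _ _
  rw [h]
  fun_prop

/-- `T₁` below, a pair above. -/
theorem adm_trap_pair {w x1 l : ℝ} (hw : 2 ≤ w) (hl : 0 ≤ l) :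
    Adm (trap w x1 l) (116 / 125 + (w - 2) / π + Fs l / 2) := by
  have hF := Fs_pos l
  have hpi := Real.pi_pos
  have main := adm_of_atoms_curves (K := trap w x1 l) (ι := Fin 4) (κ := Fin 1)
    ![58 / 125, 58 / 125, Fs l / 4, Fs l / 4] ![pt 0 0, pt w 0, pt x1 √3, pt (x1 + l) √3]
    (by
      intro i
      fin_cases i <;> simp <;> positivity)
    (by
      intro i
      fin_cases i
      · exact trap_fbot (by linarith) le_rfl (by linarith)
      · exact trap_fbot (by linarith) (by linarith) le_rfl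
      · have := trap_ftop (w := w) (x1 := x1) hl le_rfl hl
        rwa [add_zero] at this
      · exact trap_ftop (w := w) (x1 := x1) hl hl le_rfl)
    (fun _ => 1) (fun _ => w - 1) (fun _ => by linarith)
    (fun _ _ => 1 / π) (fun _ => continuousOn_const)
    (fun _ _ _ => by positivity)
    (fun _ x => pt (0 + x) 0)
    (fun _ => (pt_cont' 0 0).continuousOn)
    (fun _ x hx => by
      rw [zero_add]
      exact trap_fbot (by linarith) (by linarith [hx.1]) (by linarith [hx.2]))
    (by
      intro c _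
      simp only [Fin.sum_univ_four, Finset.univ_unique, Finset.sum_singleton,
        Matrix.cons_val_zero, Matrix.cons_val_one, Matrix.cons_val]
      have k1 := t1_seg (p := 0) (w := w) (y := 0) hw c
      have k2 := pair_seg x1 l √3 c
      have k3 := two_heights c.im
      rw [zero_add w] at k1
      linarith)
  refine main.mono (le_of_eq ?_)
  simp only [Fin.sum_univ_four, Finset.univ_unique, Finset.sum_singleton,
    Matrix.cons_val_zero, Matrix.cons_val_one, Matrix.cons_val]
  rw [intervalIntegral.integral_const, smul_eq_mul]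
  ring

/-- `T₁` below and above. -/
theorem adm_trap_t1 {w x1 l : ℝ} (hw : 2 ≤ w) (hl : 2 ≤ l) :
    Adm (trap w x1 l) (116 / 125 + (w - 2) / π + (116 / 125 + (l - 2) / π)) := by
  have hpi := Real.pi_pos
  have hl0 : 0 ≤ l := by linarith
  have main := adm_of_atoms_curves (K := trap w x1 l) (ι := Fin 4) (κ := Fin 2)
    ![58 / 125, 58 / 125, 58 / 125, 58 / 125] ![pt 0 0, pt w 0, pt x1 √3, pt (x1 + l) √3]
    (by
      intro i
      fin_cases i <;> simp <;> positivity)
    (by
      intro i
      fin_cases i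
      · exact trap_fbot (by linarith) le_rfl (by linarith)
      · exact trap_fbot (by linarith) (by linarith) le_rfl
      · have := trap_ftop (w := w) (x1 := x1) hl0 le_rfl hl0
        rwa [add_zero] at this
      · exact trap_ftop (w := w) (x1 := x1) hl0 hl0 le_rfl)
    (fun _ => 1) ![w - 1, l - 1] (by
      intro k
      fin_cases k
      · simp only [Fin.zero_eta, Matrix.cons_val_zero]
        linarith
      · simp only [Fin.mk_one, Matrix.cons_val_one, Matrix.cons_val_fin_one]
        linarith)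
    (fun _ _ => 1 / π) (fun _ => continuousOn_const)
    (fun _ _ _ => by positivity)
    ![fun x => pt (0 + x) 0, fun x => pt (x1 + x) √3]
    (by
      intro k
      fin_cases k
      · exact (pt_cont' 0 0).continuousOn
      · exact (pt_cont' x1 √3).continuousOn)
    (by
      intro k
      fin_cases k
      · intro x hx
        have hx' : x ∈ Icc (1:ℝ) (w - 1) := hx
        show pt (0 + x) 0 ∈ _
        rw [zero_add]
        exact trap_fbot (by linarith) (by linarith [hx'.1]) (by linarith [hx'.2])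
      · intro x hx
        have hx' : x ∈ Icc (1:ℝ) (l - 1) := hx
        exact trap_ftop hl0 (by linarith [hx'.1]) (by linarith [hx'.2]))
    (by
      intro c _
      simp only [Fin.sum_univ_four, Fin.sum_univ_two,
        Matrix.cons_val_zero, Matrix.cons_val_one, Matrix.cons_val]
      have k1 := t1_seg (p := 0) (w := w) (y := 0) hw c
      have k2 := t1_seg (p := x1) (w := l) (y := √3) hl c
      have k3 := two_heights c.im
      rw [zero_add w] at k1
      linarith)
  refine main.mono (le_of_eq ?_)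
  simp only [Fin.sum_univ_four, Fin.sum_univ_two,
    Matrix.cons_val_zero, Matrix.cons_val_one, Matrix.cons_val]
  rw [intervalIntegral.integral_const, intervalIntegral.integral_const, smul_eq_mul, smul_eq_mul]
  ring

/-- Both cases: the mass above is at least `.32 + l / 4`. -/
theorem adm_trap {w x1 l : ℝ} (hw : 2 ≤ w) (hl : 0 ≤ l) :
    Adm (trap w x1 l) (116 / 125 + (w - 2) / π + (0.32 + l / 4)) := by
  have hpi := Real.pi_pos
  rcases le_or_gt l 2 with h | h
  · refine (adm_trap_pair (x1 := x1) hw hl).mono ?_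
    have key : 0.32 + l / 4 ≤ Fs l / 2 := by
      rcases le_or_gt (l ^ 2) 3 with h3 | h3
      · rw [Fs_small h3, div_div, le_div_iff₀ (by
          have : 0 < 1 - l ^ 2 / 4 := by linarith
          positivity)]
        have h4 : 0 ≤ 1 - l ^ 2 / 4 := by linarith
        have h5 : 0 ≤ (0.32 + l / 4) * 2 := by positivity
        have h6 : ((0.32 + l / 4) * (√(1 - l ^ 2 / 4) * 2)) ^ 2 ≤ 1 ^ 2 := by
          have e : ((0.32 + l / 4) * (√(1 - l ^ 2 / 4) * 2)) ^ 2 =
              (0.32 + l / 4) ^ 2 * (4 - l ^ 2) := by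
            rw [mul_pow, mul_pow, Real.sq_sqrt h4]
            ring
          rw [e]
          nlinarith [sq_nonneg (l - 1.13), sq_nonneg (l ^ 2 - 1.277),
            mul_nonneg hl (sq_nonneg (l - 1.13))]
        exact le_of_sq_le_sq h6 (by norm_num)
      · rw [Fs_big h3.le]
        linarith
    linarith
  · refine (adm_trap_t1 (x1 := x1) hw h.le).mono ?_
    have h1 : (0.3183 : ℝ) * (l - 2) ≤ (l - 2) / π := by
      rw [le_div_iff₀ hpi]
      have := Real.pi_lt_d6
      norm_num at this
      nlinarith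
    linarith

end Pool.Agent.Saus2
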