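import Pool.Agent.Saus2.AFat

/-!
# Triangles of height at least `√3`

`adm_tall`: a triangle whose longest side is at most `6` and whose height over the longest side
is at least `√3` admits the load `√(nn w x h) / 3`.
-/

set_option autoImplicit false

namespace Pool.Agent.Saus2

open MeasureTheory Set Metric Filter Topology Real
open scoped InnerProductSpace

theorem fat_sqrt {w x h : ℝ} (hx0 : 0 ≤ x) (hxw : 2 * x ≤ w) (hh0 : 0 ≤ h) (hh : 3 ≤ h ^ 2)
    (hcb : x ^ 2 + h ^ 2 ≤ 2 * w * x) (hw : w ≤ 6) : √(nn w x h) ≤ w + 0.85 * h := by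
  have hw0 : 0 < w := by
    by_contra hcon
    push Not at hcon
    have : x = 0 := by linarith
    rw [this] at hcb
    nlinarith
  have hs : √3 ≤ 1.73206 := by
    rw [Real.sqrt_le_left (by norm_num)]
    norm_num
  have hxl : w ≤ 24 * x := by
    by_contra hcon
    push Not at hcon
    nlinarith [mul_pos hw0 (sub_pos.mpr hcon)]
  rw [Real.sqrt_le_left (by positivity)]
  unfold nn
  have h1 : √3 * w * h ≤ 1.73206 * w * h := by
    have := mul_le_mul_of_nonneg_right hs (mul_nonneg hw0.le hh0)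
    linarith
  have h2 : w * h ≤ h ^ 2 + w ^ 2 / 4 := by nlinarith [sq_nonneg (h - w / 2)]
  have h3 : 0 ≤ (24 * x - w) * (w - 2 * x) := mul_nonneg (by linarith) (by linarith)
  have h4 : 0 ≤ w * x := mul_nonneg hw0.le hx0
  nlinarith [sq_nonneg w]

theorem fat_lin {w x h : ℝ} (hx0 : 0 ≤ x) (hxw : 2 * x ≤ w) (hh : √3 ≤ h)
    (hcb : x ^ 2 + h ^ 2 ≤ 2 * w * x) (hw : w ≤ 6) :
    w + 0.85 * h ≤ 3 * (116 / 125 + 0.3183 * (w - 2) + (0.32 + w * (1 - √3 / h) / 4)) := by
  have hs := sq_sqrt_three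
  have hs1 : 1.73205 ≤ √3 := Real.le_sqrt_of_sq_le (by norm_num)
  have hs2 : √3 ≤ 1.73206 := by
    rw [Real.sqrt_le_left (by norm_num)]
    norm_num
  have hh0 : 0 < h := by linarith
  have hw0 : 0 ≤ w := by linarith
  -- `h ≤ (√3 / 2) w`
  have hhw : 2 * h ≤ √3 * w := by
    have h1 : (2 * h) ^ 2 ≤ (√3 * w) ^ 2 := by
      rw [mul_pow, mul_pow, hs]
      nlinarith [mul_nonneg (by linarith : 0 ≤ w - 2 * x) (by linarith : 0 ≤ 3 * w - 2 * x)]
    exact le_of_sq_le_sq h1 (by positivity)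
  set s := √3 with hsdef
  have hkey : 0 ≤ w * (0.7049 * h - 0.75 * s) - 0.85 * h ^ 2 + 1.8342 * h := by
    rcases le_or_gt (0.75 * s) (0.7049 * h) with h1 | h1
    · -- smallest `w`
      have h2 : s * w * (0.7049 * h - 0.75 * s) ≥ 2 * h * (0.7049 * h - 0.75 * s) :=
        mul_le_mul_of_nonneg_right hhw (by linarith)
      have h3 : h ≤ 5.2 := by nlinarith
      have h4 : 0 ≤ s * (w * (0.7049 * h - 0.75 * s) - 0.85 * h ^ 2 + 1.8342 * h) := by
        have h5 : 0 ≤ h * (1.4098 * h - 1.5 * s - s * (0.85 * h) + s * 1.8342) := by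
          apply mul_nonneg hh0.le
          nlinarith
        nlinarith
      exact nonneg_of_mul_nonneg_right h4 (by linarith)
    · -- largest `w`
      have h2 : 6 * (0.7049 * h - 0.75 * s) ≤ w * (0.7049 * h - 0.75 * s) := by
        nlinarith [mul_nonneg (by linarith : 0 ≤ 6 - w) (by linarith : 0 ≤ 0.75 * s - 0.7049 * h)]
      have h3 : h ≤ 1.85 := by nlinarith
      nlinarith [mul_nonneg (sub_nonneg.mpr hh) (by linarith : 0 ≤ 1.85 - h)]
  set q := s / h with hq
  have hqh : q * h = s := by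
    rw [hq]
    field_simp
  have h6 : 0 ≤ h * (3 * (116 / 125 + 0.3183 * (w - 2) + (0.32 + w * (1 - q) / 4)) -
      (w + 0.85 * h)) := by
    have e : h * (3 * (116 / 125 + 0.3183 * (w - 2) + (0.32 + w * (1 - q) / 4)) -
      (w + 0.85 * h)) = w * (0.7049 * h - 0.75 * (q * h)) - 0.85 * h ^ 2 + 1.8342 * h := by
      ring
    rw [e, hqh]
    exact hkey
  have h7 := nonneg_of_mul_nonneg_right h6 hh0
  linarith

/-- **Fat triangles.** -/
theorem adm_tall {w x h : ℝ} (hx0 : 0 ≤ x) (hxw : 2 * x ≤ w) (hh0 : 0 ≤ h) (hh : 3 ≤ h ^ 2)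
    (hcb : x ^ 2 + h ^ 2 ≤ 2 * w * x) (hw : w ≤ 6) : Adm (tri w x h) (√(nn w x h) / 3) := by
  have hs := sq_sqrt_three
  have hs1 : 1.73205 ≤ √3 := Real.le_sqrt_of_sq_le (by norm_num)
  have hh' : √3 ≤ h := by
    rw [Real.sqrt_le_left hh0]
    exact hh
  have hh1 : 0 < h := by linarith
  have hpi := Real.pi_pos
  have hhw : 2 * h ≤ √3 * w := by
    have h1 : (2 * h) ^ 2 ≤ (√3 * w) ^ 2 := by
      rw [mul_pow, mul_pow, hs]
      nlinarith [mul_nonneg (by linarith : 0 ≤ w - 2 * x) (by linarith : 0 ≤ 3 * w - 2 * x)]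
    exact le_of_sq_le_sq h1 (by nlinarith)
  have hw2 : 2 ≤ w := by nlinarith
  set q := √3 / h with hq
  have hqh : q * h = √3 := by
    rw [hq]
    field_simp
  have hq0 : 0 ≤ q := by positivity
  have hq1 : q ≤ 1 := (div_le_one hh1).mpr hh'
  have hA := adm_trap (w := w) (x1 := x * q) (l := w * (1 - q)) hw2
    (mul_nonneg (by linarith) (by linarith))
  have hsub : trap w (x * q) (w * (1 - q)) ⊆ tri w x h := by
    apply convexHull_min _ (tri_convex w x h)
    intro z hz
    have e0 : (0 : ℂ) = pt 0 0 := Complex.ext rfl rfl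
    have ew : (w : ℂ) = pt w 0 := Complex.ext rfl rfl
    have h0 := tri_zero w x h
    have h1 := tri_base w x h
    have h2 : pt x h ∈ tri w x h := tri_apex w x h
    rw [e0] at h0
    rw [ew] at h1
    rcases hz with rfl | rfl | rfl | rfl
    · exact h0
    · exact h1
    · apply mix_mem (tri_convex w x h) h0 h2 (s := 1 - q) (t := q) (by linarith) hq0 (by ring)
      · simp only [pt_re]
        ring
      · simp only [pt_im]
        rw [hqh]
        ring
    · apply mix_mem (tri_convex w x h) h1 h2 (s := 1 - q) (t := q) (by linarith) hq0 (by ring)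
      · simp only [pt_re]
        ring
      · simp only [pt_im]
        rw [hqh]
        ring
  have hle : √(nn w x h) / 3 ≤
      116 / 125 + (w - 2) / π + (0.32 + w * (1 - q) / 4) := by
    have h1 := fat_sqrt hx0 hxw hh0 hh hcb hw
    have h2 := fat_lin hx0 hxw hh' hcb hw
    have h3 : (0.3183 : ℝ) * (w - 2) ≤ (w - 2) / π := by
      rw [le_div_iff₀ hpi]
      have := Real.pi_lt_d6
      norm_num at this
      nlinarith
    linarith
  intro N z M hM _ hc
  exact (hA.mono hle).covers (trap_compact _ _ _) (trap_convex _ _ _) (trap_nonempty _ _ _)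
    (tri_compact w x h) hsub z hM hc

end Pool.Agent.Saus2
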