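import Pool.Agent.Saus2.ARegS
import Pool.Agent.Saus2.T1

/-!
# The measures `T₁` and `G` on a triangle
-/

set_option autoImplicit false

namespace Pool.Agent.Saus2

open MeasureTheory Set Metric Filter Topology Real
open scoped InnerProductSpace

/-- `T₁` on the base and an atom `γ` at the apex. -/
theorem adm_G {w x h g : ℝ} (hx0 : 0 ≤ x) (hxw : x ≤ w) (hh : 0 ≤ h) (hw : 2 ≤ w) (hg0 : 0 ≤ g)
    (hg : ∀ y, 0 ≤ y → y ≤ h → √(1 - y ^ 2) + 2 * g * √(1 - (h - y) ^ 2) ≤ 1) :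
    Adm (tri w x h) (116 / 125 + (w - 2) / π + g) := by
  have hw0 : 0 ≤ w := by linarith
  have hπ := Real.pi_pos
  have key := adm_of_atoms_curves (K := tri w x h) (ι := Fin 3) (κ := Fin 1)
    ![58 / 125, 58 / 125, g] ![0, (w : ℂ), ⟨x, h⟩]
    (by
      intro i
      fin_cases i <;> simp [hg0] <;> norm_num)
    (by
      intro i
      fin_cases i
      · have := seg_frontier hx0 hxw hh (s := 0) le_rfl hw0
        simpa using this
      · simpa using seg_frontier hx0 hxw hh (s := w) hw0 le_rfl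
      · simpa using apex_frontier hx0 hxw hh)
    (fun _ => 1) (fun _ => w - 1) (fun _ => by linarith) (fun _ _ => 1 / π)
    (fun _ => continuousOn_const) (fun _ _ _ => by positivity) (fun _ s => (s : ℂ))
    (fun _ => Complex.continuous_ofReal.continuousOn)
    (fun _ s hs => seg_frontier hx0 hxw hh (by linarith [hs.1]) (by linarith [hs.2]))
    (by
      intro c hc
      obtain ⟨hc1, hc2, hc3, hc4⟩ := tri_box hx0 hxw hh hc
      have h1 := t1_load_height (w := w) (u := c.re) (v := c.im) hw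
      have e0 : ‖(0 : ℂ) - c‖ ^ 2 = c.re ^ 2 + c.im ^ 2 := by
        rw [normSq_sub]
        simp
      have e1 : ‖(w : ℂ) - c‖ ^ 2 = (w - c.re) ^ 2 + c.im ^ 2 := by
        rw [normSq_sub]
        simp
      have e2 : ‖(⟨x, h⟩ : ℂ) - c‖ ^ 2 = (x - c.re) ^ 2 + (h - c.im) ^ 2 := by
        rw [normSq_sub]
      have e3 : ∀ s : ℝ, ‖(s : ℂ) - c‖ ^ 2 = (s - c.re) ^ 2 + c.im ^ 2 := by
        intro s
        rw [normSq_sub]
        simp
      have h2 : √(1 - ((x - c.re) ^ 2 + (h - c.im) ^ 2)) ≤ √(1 - (h - c.im) ^ 2) :=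
        Real.sqrt_le_sqrt (by nlinarith [sq_nonneg (x - c.re)])
      have h3 := hg c.im hc3 hc4
      have h4 : ∫ s in (1:ℝ)..(w - 1), 1 / π * (2 * √(1 - ((s - c.re) ^ 2 + c.im ^ 2))) =
          2 / π * ∫ s in (1:ℝ)..(w - 1), √(1 - ((s - c.re) ^ 2 + c.im ^ 2)) := by
        rw [← intervalIntegral.integral_const_mul]
        congr 1
        ext s
        ring
      rw [Fin.sum_univ_three, Fin.sum_univ_one]
      simp only [Matrix.cons_val_zero, Matrix.cons_val_one, Matrix.cons_val, e0, e1, e2, e3]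
      rw [h4]
      have h5 : g * √(1 - ((x - c.re) ^ 2 + (h - c.im) ^ 2)) ≤ g * √(1 - (h - c.im) ^ 2) :=
        mul_le_mul_of_nonneg_left h2 hg0
      linarith)
  refine key.mono (le_of_eq ?_)
  rw [Fin.sum_univ_three, Fin.sum_univ_one, intervalIntegral.integral_const]
  simp only [Matrix.cons_val_zero, Matrix.cons_val_one, Matrix.cons_val, smul_eq_mul]
  ring

/-- `T₁` on a triangle. -/
theorem adm_T1 {w x h : ℝ} (hx0 : 0 ≤ x) (hxw : x ≤ w) (hh : 0 ≤ h) (hw : 2 ≤ w) :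
    Adm (tri w x h) (116 / 125 + (w - 2) / π) := by
  refine (adm_G (g := 0) hx0 hxw hh hw le_rfl ?_).mono (by linarith)
  intro y _ _
  have : √(1 - y ^ 2) ≤ 1 := by
    apply Real.sqrt_le_one.mpr
    nlinarith [sq_nonneg y]
  linarith

/-- The condition on the atom at the apex. -/
theorem gam_ok {h g t : ℝ} (ht : 0 < t) (hg0 : 0 ≤ g) (hg1 : g ≤ 1 / 2)
    (hgt : (2 * g + t) * (t ^ 2 + 1) ≤ h ^ 2 * t) (y : ℝ) :
    √(1 - y ^ 2) + 2 * g * √(1 - (h - y) ^ 2) ≤ 1 := by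
  have hs1 : √(1 - (h - y) ^ 2) ≤ 1 := by
    apply Real.sqrt_le_one.mpr
    nlinarith [sq_nonneg (h - y)]
  have hs0 := Real.sqrt_nonneg (1 - (h - y) ^ 2)
  rcases le_or_gt (1 - y ^ 2) 0 with h1 | h1
  · rw [Real.sqrt_eq_zero_of_nonpos h1]
    nlinarith
  · have h2 : √(1 - y ^ 2) ≤ 1 - y ^ 2 / 2 := by
      apply Real.sqrt_le_iff.mpr
      constructor
      · nlinarith
      · nlinarith [sq_nonneg (y ^ 2)]
    rcases le_or_gt (1 - (h - y) ^ 2) 0 with h3 | h3
    · rw [Real.sqrt_eq_zero_of_nonpos h3]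
      nlinarith [sq_nonneg y]
    · have h4 : 2 * t * √(1 - (h - y) ^ 2) ≤ t ^ 2 + (1 - (h - y) ^ 2) := by
        nlinarith [sq_nonneg (√(1 - (h - y) ^ 2) - t), Real.sq_sqrt h3.le]
      have h5 : h ^ 2 * g * t ≤ (2 * g + t) * (g * (h - y) ^ 2 + t * y ^ 2 / 2) := by
        nlinarith [sq_nonneg (g * (h - y) - t * y / 2)]
      have hpos : 0 < 2 * g + t := by linarith
      have h6 : g * (t ^ 2 + 1) ≤ g * (h - y) ^ 2 + t * y ^ 2 / 2 := by
        have : (2 * g + t) * (g * (t ^ 2 + 1)) ≤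
            (2 * g + t) * (g * (h - y) ^ 2 + t * y ^ 2 / 2) := by
          nlinarith [mul_le_mul_of_nonneg_left hgt hg0]
        exact le_of_mul_le_mul_left this hpos
      have h7 : 2 * g * t * √(1 - (h - y) ^ 2) ≤ t * y ^ 2 / 2 := by
        nlinarith [mul_le_mul_of_nonneg_left h4 hg0]
      have h8 : 2 * g * √(1 - (h - y) ^ 2) ≤ y ^ 2 / 2 := by
        have : t * (2 * g * √(1 - (h - y) ^ 2)) ≤ t * (y ^ 2 / 2) := by linarith
        exact le_of_mul_le_mul_left this ht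
      linarith

end Pool.Agent.Saus2
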