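import Pool.Agent.Saus2.Defs

/-!
# Selection of three points

`exists_three`: a compact set `C` contains three points `X0, X1, X2` with
`3 κ(C) ≤ |X0 + w² X1 + w X2|`, `w = exp (2πi/3)`: the mean of
`h(θ) + h(θ + 2π/3) + h(θ + 4π/3)` is `3 κ(C)`, take the maximum.
-/

set_option autoImplicit false

namespace Pool.Agent.Saus2

open MeasureTheory Set Metric Filter Topology Real

/-- The linear functional `z ↦ Re (z exp (-iθ))`. -/
noncomputable def dirf (θ : ℝ) (z : ℂ) : ℝ := (z * Complex.exp (-(θ * Complex.I))).re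

theorem dirf_eq (θ : ℝ) (z : ℂ) : dirf θ z = z.re * Real.cos θ + z.im * Real.sin θ := by
  unfold dirf
  rw [show (-(θ * Complex.I) : ℂ) = ((-θ : ℝ) : ℂ) * Complex.I by push_cast; ring,
    Complex.exp_mul_I, ← Complex.ofReal_cos, ← Complex.ofReal_sin]
  simp [Complex.mul_re, Complex.add_re, Complex.add_im, Complex.mul_im, Complex.cos_ofReal_re,
    Complex.sin_ofReal_re]

theorem continuous_dirf : Continuous (fun p : ℝ × ℂ => dirf p.1 p.2) := by
  simp only [dirf_eq]
  fun_prop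

theorem hs_eq (C : Set ℂ) (θ : ℝ) : hs C θ = sSup (dirf θ '' C) := rfl

theorem exists_hs {C : Set ℂ} (hC : IsCompact C) (hne : C.Nonempty) (θ : ℝ) :
    ∃ z ∈ C, dirf θ z = hs C θ := by
  have hc : ContinuousOn (dirf θ) C := by
    have : Continuous (dirf θ) := continuous_dirf.comp (Continuous.prodMk_right θ)
    exact this.continuousOn
  obtain ⟨z, hz, h⟩ := hC.exists_sSup_image_eq hne hc
  exact ⟨z, hz, h.symm⟩

theorem bddAbove_dirf {C : Set ℂ} (hC : IsCompact C) (θ : ℝ) : BddAbove (dirf θ '' C) := by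
  have : Continuous (dirf θ) := continuous_dirf.comp (Continuous.prodMk_right θ)
  exact hC.bddAbove_image this.continuousOn

theorem dirf_le_hs {C : Set ℂ} (hC : IsCompact C) {z : ℂ} (hz : z ∈ C) (θ : ℝ) :
    dirf θ z ≤ hs C θ :=
  le_csSup (bddAbove_dirf hC θ) ⟨z, hz, rfl⟩

theorem hs_le {C : Set ℂ} (hne : C.Nonempty) {θ a : ℝ} (h : ∀ z ∈ C, dirf θ z ≤ a) :
    hs C θ ≤ a := by
  refine csSup_le (hne.image _) ?_
  rintro _ ⟨z, hz, rfl⟩
  exact h z hz

theorem hs_mono {C D : Set ℂ} (hD : IsCompact D) (hne : C.Nonempty) (h : C ⊆ D) (θ : ℝ) :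
    hs C θ ≤ hs D θ :=
  hs_le hne fun _ hz => dirf_le_hs hD (h hz) θ

theorem continuous_hs {C : Set ℂ} (hC : IsCompact C) : Continuous (hs C) :=
  hC.continuous_sSup continuous_dirf

theorem hs_periodic (C : Set ℂ) : Function.Periodic (hs C) (2 * π) := by
  intro θ
  have : dirf (θ + 2 * π) = dirf θ := by
    funext z
    simp [dirf_eq]
  rw [hs_eq, hs_eq, this]

theorem kap_mul (C : Set ℂ) : 2 * π * kap C = ∫ θ in (0 : ℝ)..(2 * π), hs C θ := by
  unfold kap
  field_simp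

theorem intervalIntegrable_hs {C : Set ℂ} (hC : IsCompact C) (a b : ℝ) :
    IntervalIntegrable (hs C) volume a b :=
  (continuous_hs hC).intervalIntegrable a b

/-- `κ` is monotone. -/
theorem kap_mono {C D : Set ℂ} (hC : IsCompact C) (hD : IsCompact D) (hne : C.Nonempty)
    (h : C ⊆ D) : kap C ≤ kap D := by
  have hpi : (0 : ℝ) < 2 * π := by positivity
  have : 2 * π * kap C ≤ 2 * π * kap D := by
    rw [kap_mul, kap_mul]
    exact intervalIntegral.integral_mono_on hpi.le (intervalIntegrable_hs hC _ _)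
      (intervalIntegrable_hs hD _ _) fun θ _ => hs_mono hD hne h θ
  exact le_of_mul_le_mul_left this hpi

theorem integral_hs_add {C : Set ℂ} (a : ℝ) :
    ∫ θ in (0 : ℝ)..(2 * π), hs C (θ + a) = 2 * π * kap C := by
  rw [kap_mul, intervalIntegral.integral_comp_add_right]
  have := (hs_periodic C).intervalIntegral_add_eq a 0
  rw [show (0 : ℝ) + a = a by ring, show 2 * π + a = a + 2 * π by ring, this]
  simp

/-- If `h(θ) + h(θ + 2π/3) + h(θ + 4π/3) ≤ a` for all `θ`, then `3 κ ≤ a`. -/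
theorem three_kap_le {C : Set ℂ} (hC : IsCompact C) {a : ℝ}
    (h : ∀ θ, hs C θ + hs C (θ + 2 * π / 3) + hs C (θ + 4 * π / 3) ≤ a) : 3 * kap C ≤ a := by
  have hpi : (0 : ℝ) < 2 * π := by positivity
  have hc : ∀ b : ℝ, IntervalIntegrable (fun θ => hs C (θ + b)) volume 0 (2 * π) := fun b =>
    ((continuous_hs hC).comp (continuous_add_const b)).intervalIntegrable _ _
  have h1 : ∫ θ in (0 : ℝ)..(2 * π),
      (hs C (θ + 0) + hs C (θ + 2 * π / 3) + hs C (θ + 4 * π / 3)) ≤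
      ∫ _ in (0 : ℝ)..(2 * π), a := by
    refine intervalIntegral.integral_mono_on hpi.le (((hc _).add (hc _)).add (hc _))
      intervalIntegrable_const fun θ _ => ?_
    have := h θ
    simpa using this
  rw [intervalIntegral.integral_add ((hc _).add (hc _)) (hc _),
    intervalIntegral.integral_add (hc _) (hc _), integral_hs_add, integral_hs_add,
    integral_hs_add, intervalIntegral.integral_const] at h1
  have h2 : 2 * π * (3 * kap C) ≤ 2 * π * a := by
    have : (2 * π - 0) • a = 2 * π * a := by simp [smul_eq_mul]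
    rw [this] at h1
    linarith
  exact le_of_mul_le_mul_left h2 hpi

/-- **Selection of three points.** -/
theorem exists_three_dir {C : Set ℂ} (hC : IsCompact C) (hne : C.Nonempty) :
    ∃ θ : ℝ, ∃ X0 ∈ C, ∃ X1 ∈ C, ∃ X2 ∈ C,
      dirf θ X0 = hs C θ ∧ dirf (θ + 2 * π / 3) X1 = hs C (θ + 2 * π / 3) ∧
      dirf (θ + 4 * π / 3) X2 = hs C (θ + 4 * π / 3) ∧
      3 * kap C ≤ dirf θ X0 + dirf (θ + 2 * π / 3) X1 + dirf (θ + 4 * π / 3) X2 := by
  have hcont : Continuous fun θ => hs C θ + hs C (θ + 2 * π / 3) + hs C (θ + 4 * π / 3) := by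
    have := continuous_hs hC
    fun_prop
  obtain ⟨θ, -, hθ⟩ := (isCompact_Icc (a := (0 : ℝ)) (b := 2 * π)).exists_isMaxOn
    ⟨0, by constructor <;> positivity⟩ hcont.continuousOn
  have hall : ∀ t, hs C t + hs C (t + 2 * π / 3) + hs C (t + 4 * π / 3) ≤
      hs C θ + hs C (θ + 2 * π / 3) + hs C (θ + 4 * π / 3) := by
    intro t
    have hper : Function.Periodic
        (fun θ => hs C θ + hs C (θ + 2 * π / 3) + hs C (θ + 4 * π / 3)) (2 * π) := by
      intro s
      have e := hs_periodic C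
      simp only
      rw [e s, show s + 2 * π + 2 * π / 3 = s + 2 * π / 3 + 2 * π by ring, e (s + 2 * π / 3),
        show s + 2 * π + 4 * π / 3 = s + 4 * π / 3 + 2 * π by ring, e (s + 4 * π / 3)]
    obtain ⟨s, hsI, hs'⟩ := hper.exists_mem_Ico₀ (by positivity) t
    have hs'' : hs C t + hs C (t + 2 * π / 3) + hs C (t + 4 * π / 3) =
        hs C s + hs C (s + 2 * π / 3) + hs C (s + 4 * π / 3) := hs'
    rw [hs'']
    exact hθ ⟨hsI.1, hsI.2.le⟩
  have h3 := three_kap_le hC hall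
  obtain ⟨X0, h0, e0⟩ := exists_hs hC hne θ
  obtain ⟨X1, h1, e1⟩ := exists_hs hC hne (θ + 2 * π / 3)
  obtain ⟨X2, h2, e2⟩ := exists_hs hC hne (θ + 4 * π / 3)
  exact ⟨θ, X0, h0, X1, h1, X2, h2, e0, e1, e2, by rw [e0, e1, e2]; exact h3⟩

theorem cos_two_pi_div_three' : Real.cos (2 * π / 3) = -1 / 2 := by
  rw [show 2 * π / 3 = π - π / 3 by ring, Real.cos_pi_sub, Real.cos_pi_div_three]
  ring

theorem sin_two_pi_div_three' : Real.sin (2 * π / 3) = √3 / 2 := by
  rw [show 2 * π / 3 = π - π / 3 by ring, Real.sin_pi_sub, Real.sin_pi_div_three]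

theorem cos_four_pi_div_three' : Real.cos (4 * π / 3) = -1 / 2 := by
  rw [show 4 * π / 3 = π / 3 + π by ring, Real.cos_add_pi, Real.cos_pi_div_three]
  ring

theorem sin_four_pi_div_three' : Real.sin (4 * π / 3) = -(√3 / 2) := by
  rw [show 4 * π / 3 = π / 3 + π by ring, Real.sin_add_pi, Real.sin_pi_div_three]

/-- The sum of the three functionals is the functional of `X0 + w² X1 + w X2`. -/
theorem dirf_three (θ : ℝ) (X0 X1 X2 : ℂ) :
    dirf θ X0 + dirf (θ + 2 * π / 3) X1 + dirf (θ + 4 * π / 3) X2 =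
      dirf θ (X0 + ⟨-1 / 2, -(√3 / 2)⟩ * X1 + ⟨-1 / 2, √3 / 2⟩ * X2) := by
  simp only [dirf_eq, Real.cos_add, Real.sin_add, cos_two_pi_div_three',
    sin_two_pi_div_three', cos_four_pi_div_three', sin_four_pi_div_three', Complex.add_re,
    Complex.add_im, Complex.mul_re, Complex.mul_im]
  ring

theorem dirf_le_norm (θ : ℝ) (z : ℂ) : dirf θ z ≤ ‖z‖ := by
  unfold dirf
  refine (Complex.re_le_norm _).trans ?_
  rw [norm_mul, show (-(θ * Complex.I) : ℂ) = ((-θ : ℝ) : ℂ) * Complex.I by push_cast; ring,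
    Complex.norm_exp_ofReal_mul_I, mul_one]

/-- **Selection of three points.** `w = exp (2πi/3) = ⟨-1/2, √3/2⟩`. -/
theorem exists_three {C : Set ℂ} (hC : IsCompact C) (hne : C.Nonempty) :
    ∃ X0 ∈ C, ∃ X1 ∈ C, ∃ X2 ∈ C,
      3 * kap C ≤ ‖X0 + ⟨-1 / 2, -(√3 / 2)⟩ * X1 + ⟨-1 / 2, √3 / 2⟩ * X2‖ := by
  obtain ⟨θ, X0, h0, X1, h1, X2, h2, -, -, -, h⟩ := exists_three_dir hC hne
  exact ⟨X0, h0, X1, h1, X2, h2, h.trans (by rw [dirf_three]; exact dirf_le_norm _ _)⟩

end Pool.Agent.Saus2
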