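import Pool.Agent.Saus2.ATri
import Pool.Agent.Saus2.ASel

/-!
# Reduction of the planar inequality to triangles in standard position
-/

set_option autoImplicit false

namespace Pool.Agent.Saus2

open MeasureTheory Set Metric Filter Topology Real
open scoped InnerProductSpace

/-- Four times the squared area of a triangle, in terms of the squares of its sides. -/
noncomputable def heron (A B C : ℝ) : ℝ :=
  (2 * A * B + 2 * B * C + 2 * C * A - A ^ 2 - B ^ 2 - C ^ 2) / 4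

/-- `(a² + b² + c²)/2 + 2 √3 area`. -/
noncomputable def phi3 (A B C : ℝ) : ℝ := (A + B + C) / 2 + √3 * √(heron A B C)

theorem norm_three_le (X0 X1 X2 : ℂ) :
    ‖X0 + ⟨-1 / 2, -(√3 / 2)⟩ * X1 + ⟨-1 / 2, √3 / 2⟩ * X2‖ ^ 2 ≤
      phi3 (‖X0 - X1‖ ^ 2) (‖X1 - X2‖ ^ 2) (‖X2 - X0‖ ^ 2) := by
  have h3 : √3 ^ 2 = 3 := Real.sq_sqrt (by norm_num)
  set cr : ℝ := (X1.re - X0.re) * (X2.im - X0.im) - (X1.im - X0.im) * (X2.re - X0.re) with hcr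
  have hT : heron (‖X0 - X1‖ ^ 2) (‖X1 - X2‖ ^ 2) (‖X2 - X0‖ ^ 2) = cr ^ 2 := by
    rw [heron, normSq_sub, normSq_sub, normSq_sub, hcr]
    ring
  have hF : ‖X0 + ⟨-1 / 2, -(√3 / 2)⟩ * X1 + ⟨-1 / 2, √3 / 2⟩ * X2‖ ^ 2 =
      (‖X0 - X1‖ ^ 2 + ‖X1 - X2‖ ^ 2 + ‖X2 - X0‖ ^ 2) / 2 + √3 * cr := by
    rw [normSq_sub, normSq_sub, normSq_sub, Complex.sq_norm, Complex.normSq_apply, hcr]
    simp only [Complex.add_re, Complex.add_im, Complex.mul_re, Complex.mul_im]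
    ring_nf
    rw [h3]
    ring
  rw [hF, phi3, hT, Real.sqrt_sq_eq_abs]
  have : √3 * cr ≤ √3 * |cr| := mul_le_mul_of_nonneg_left (le_abs_self cr) (Real.sqrt_nonneg 3)
  linarith

theorem heron_swap (A B C : ℝ) : heron A B C = heron B A C := by
  unfold heron; ring

theorem heron_rot (A B C : ℝ) : heron A B C = heron B C A := by
  unfold heron; ring

theorem phi3_swap (A B C : ℝ) : phi3 A B C = phi3 B A C := by
  unfold phi3; rw [heron_swap]; ring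

theorem phi3_rot (A B C : ℝ) : phi3 A B C = phi3 B C A := by
  unfold phi3; rw [heron_rot]; ring

theorem phi3_swap' (A B C : ℝ) : phi3 A B C = phi3 A C B := by
  have h : heron A B C = heron A C B := by unfold heron; ring
  unfold phi3; rw [h]; ring

/-- Ordering the sides. -/
theorem exists_order {C : Set ℂ} {X0 X1 X2 : ℂ} (h0 : X0 ∈ C) (h1 : X1 ∈ C) (h2 : X2 ∈ C) :
    ∃ P ∈ C, ∃ Q ∈ C, ∃ R ∈ C, ‖P - R‖ ≤ ‖Q - R‖ ∧ ‖Q - R‖ ≤ ‖P - Q‖ ∧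
      phi3 (‖P - Q‖ ^ 2) (‖Q - R‖ ^ 2) (‖R - P‖ ^ 2) =
        phi3 (‖X0 - X1‖ ^ 2) (‖X1 - X2‖ ^ 2) (‖X2 - X0‖ ^ 2) := by
  have key : ∀ Y0 ∈ C, ∀ Y1 ∈ C, ∀ Y2 ∈ C, ‖Y1 - Y2‖ ≤ ‖Y0 - Y1‖ → ‖Y2 - Y0‖ ≤ ‖Y0 - Y1‖ →
      ∃ P ∈ C, ∃ Q ∈ C, ∃ R ∈ C, ‖P - R‖ ≤ ‖Q - R‖ ∧ ‖Q - R‖ ≤ ‖P - Q‖ ∧
        phi3 (‖P - Q‖ ^ 2) (‖Q - R‖ ^ 2) (‖R - P‖ ^ 2) =
          phi3 (‖Y0 - Y1‖ ^ 2) (‖Y1 - Y2‖ ^ 2) (‖Y2 - Y0‖ ^ 2) := by
    intro Y0 g0 Y1 g1 Y2 g2 ha hb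
    rcases le_total ‖Y2 - Y0‖ ‖Y1 - Y2‖ with h | h
    · exact ⟨Y0, g0, Y1, g1, Y2, g2, by rw [norm_sub_rev]; exact h, ha, rfl⟩
    · refine ⟨Y1, g1, Y0, g0, Y2, g2, by rw [norm_sub_rev Y0 Y2]; exact h, ?_, ?_⟩
      · rw [norm_sub_rev Y0 Y2, norm_sub_rev Y1 Y0]; exact hb
      · rw [norm_sub_rev Y1 Y0, norm_sub_rev Y0 Y2, norm_sub_rev Y2 Y1]
        exact phi3_swap' _ _ _
  rcases le_total ‖X1 - X2‖ ‖X0 - X1‖ with h | h
  · rcases le_total ‖X2 - X0‖ ‖X0 - X1‖ with h' | h'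
    · exact key X0 h0 X1 h1 X2 h2 h h'
    · obtain ⟨P, hP, Q, hQ, R, hR, e1, e2, e3⟩ := key X2 h2 X0 h0 X1 h1 h' (h.trans h')
      exact ⟨P, hP, Q, hQ, R, hR, e1, e2, by rw [e3, phi3_rot]⟩
  · rcases le_total ‖X2 - X0‖ ‖X1 - X2‖ with h' | h'
    · obtain ⟨P, hP, Q, hQ, R, hR, e1, e2, e3⟩ := key X1 h1 X2 h2 X0 h0 h' h
      exact ⟨P, hP, Q, hQ, R, hR, e1, e2, by rw [e3, ← phi3_rot]⟩
    · obtain ⟨P, hP, Q, hQ, R, hR, e1, e2, e3⟩ := key X2 h2 X0 h0 X1 h1 (h.trans h') h'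
      exact ⟨P, hP, Q, hQ, R, hR, e1, e2, by rw [e3, phi3_rot]⟩

/-- Placement of a triangle. -/
theorem exists_place {P Q R : ℂ} (h1 : ‖P - R‖ ≤ ‖Q - R‖) (h2 : ‖Q - R‖ ≤ ‖P - Q‖) :
    ∃ (w x h : ℝ) (f : ℂ ≃ᵃⁱ[ℝ] ℂ), 0 ≤ x ∧ 2 * x ≤ w ∧ 0 ≤ h ∧ x ^ 2 + h ^ 2 ≤ 2 * w * x ∧
      w = ‖P - Q‖ ∧ f 0 = P ∧ f (w : ℂ) = Q ∧ f ⟨x, h⟩ = R := by
  rcases eq_or_ne P Q with rfl | hPQ
  · have hR : R = P := by
      have : ‖P - R‖ ≤ 0 := by simpa using h2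
      have h3 := norm_le_zero_iff.1 this
      exact (sub_eq_zero.1 h3).symm
    subst hR
    refine ⟨0, 0, 0, AffineIsometryEquiv.constVAdd ℝ ℂ R, le_rfl, by simp, le_rfl, by simp,
      by simp, by simp, by simp, ?_⟩
    have : (⟨0, 0⟩ : ℂ) = 0 := rfl
    rw [this]; simp
  have hw : 0 < ‖P - Q‖ := norm_pos_iff.2 (sub_ne_zero.2 hPQ)
  set w : ℝ := ‖P - Q‖ with hwdef
  have hwc : (w : ℂ) ≠ 0 := by exact_mod_cast hw.ne'
  set u : ℂ := (Q - P) / w with hu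
  have hun : ‖u‖ = 1 := by
    rw [hu, norm_div, Complex.norm_real, Real.norm_of_nonneg hw.le, norm_sub_rev Q P, ← hwdef,
      div_self hw.ne']
  have hu0 : u ≠ 0 := fun h => by rw [h, norm_zero] at hun; exact zero_ne_one hun
  have huw : u * w = Q - P := by rw [hu]; field_simp
  set v : ℂ := (R - P) / u with hv
  have huv : u * v = R - P := by rw [hv]; field_simp
  -- distances
  have hvn : ‖v‖ = ‖P - R‖ := by
    rw [hv, norm_div, hun, div_one, norm_sub_rev]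
  have hvw : ‖(w : ℂ) - v‖ = ‖Q - R‖ := by
    have e : Q - R = u * ((w : ℂ) - v) := by rw [mul_sub, huw, huv]; ring
    rw [e, norm_mul, hun, one_mul]
  have d1 : v.re ^ 2 + v.im ^ 2 = ‖P - R‖ ^ 2 := by
    rw [← hvn, Complex.sq_norm, Complex.normSq_apply]; ring
  have d2 : (w - v.re) ^ 2 + v.im ^ 2 = ‖Q - R‖ ^ 2 := by
    rw [← hvw, normSq_sub]; simp
  have c1 : ‖P - R‖ ^ 2 ≤ ‖Q - R‖ ^ 2 := pow_le_pow_left₀ (norm_nonneg _) h1 2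
  have c2 : ‖Q - R‖ ^ 2 ≤ w ^ 2 := pow_le_pow_left₀ (norm_nonneg _) h2 2
  have e1 : 2 * v.re ≤ w := by
    have : w * (2 * v.re) ≤ w * w := by nlinarith
    exact le_of_mul_le_mul_left this hw
  have e2 : v.re ^ 2 + v.im ^ 2 ≤ 2 * w * v.re := by nlinarith
  have e3 : 0 ≤ v.re := by
    have : 0 ≤ w * v.re := by nlinarith [sq_nonneg v.re, sq_nonneg v.im]
    exact nonneg_of_mul_nonneg_right this hw
  let uc : Circle := ⟨u, by simp [Submonoid.unitSphere, hun]⟩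
  have huc : (uc : ℂ) = u := rfl
  rcases le_total 0 v.im with hi | hi
  · refine ⟨w, v.re, v.im, (rotation uc).toAffineIsometryEquiv.trans
      (AffineIsometryEquiv.constVAdd ℝ ℂ P), e3, e1, hi, e2, rfl, ?_, ?_, ?_⟩
    · simp
    · simp [huc, huw]
    · have : (⟨v.re, v.im⟩ : ℂ) = v := by apply Complex.ext <;> rfl
      rw [this]
      simp [huc, huv]
  · refine ⟨w, v.re, -v.im, (Complex.conjLIE.trans (rotation uc)).toAffineIsometryEquiv.trans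
      (AffineIsometryEquiv.constVAdd ℝ ℂ P), e3, e1, by linarith, by nlinarith, rfl, ?_, ?_, ?_⟩
    · simp
    · simp [huc, huw]
    · have : (⟨v.re, -v.im⟩ : ℂ) = (starRingEnd ℂ) v := by apply Complex.ext <;> simp
      rw [this]
      simp [huc, huv]

/-- `phi3` in the standard position. -/
theorem phi3_place {w x h : ℝ} (hw : 0 ≤ w) (hh : 0 ≤ h) :
    phi3 (w ^ 2) ((w - x) ^ 2 + h ^ 2) (x ^ 2 + h ^ 2) =
      w ^ 2 - w * x + x ^ 2 + h ^ 2 + √3 * w * h := by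
  have h1 : heron (w ^ 2) ((w - x) ^ 2 + h ^ 2) (x ^ 2 + h ^ 2) = (w * h) ^ 2 := by
    unfold heron; ring
  rw [phi3, h1, Real.sqrt_sq (mul_nonneg hw hh)]
  ring

/-- Reduction to triangles in standard position. -/
theorem planar_of_tri {C : Set ℂ} (hC : IsCompact C) (hconv : Convex ℝ C) (hne : C.Nonempty)
    (htri : ∀ w x h : ℝ, 0 ≤ x → 2 * x ≤ w → 0 ≤ h → x ^ 2 + h ^ 2 ≤ 2 * w * x →
      (∃ P ∈ C, ∃ Q ∈ C, w = ‖P - Q‖) →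
      Adm (tri w x h) (√(w ^ 2 - w * x + x ^ 2 + h ^ 2 + √3 * w * h) / 3))
    {N : ℕ} (z : Fin N → ℂ) {M : ℝ} (hM : 0 < M)
    (hcov : ∀ x ∈ frontier C, M ≤ ∑ j, 2 * √(1 - ‖x - z j‖ ^ 2)) : M * kap C ≤ N := by
  obtain ⟨X0, g0, X1, g1, X2, g2, hk⟩ := exists_three hC hne
  obtain ⟨P, hP, Q, hQ, R, hR, o1, o2, o3⟩ := exists_order g0 g1 g2
  obtain ⟨w, x, h, f, k1, k2, k3, k4, k5, k6, k7, k8⟩ := exists_place o1 o2
  have hw : 0 ≤ w := by rw [k5]; exact norm_nonneg _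
  have hsub : tri w x h ⊆ f ⁻¹' C := by
    refine convexHull_min ?_ (hconv.affine_preimage f.toAffineEquiv.toAffineMap)
    intro y hy
    simp only [mem_insert_iff, mem_singleton_iff] at hy
    rcases hy with rfl | rfl | rfl
    · show f 0 ∈ C
      rw [k6]; exact hP
    · show f (w : ℂ) ∈ C
      rw [k7]; exact hQ
    · show f ⟨x, h⟩ ∈ C
      rw [k8]; exact hR
  have hA := (htri w x h k1 k2 k3 k4 ⟨P, hP, Q, hQ, k5⟩).isometry f.toIsometryEquiv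
  have hle : kap C ≤ √(w ^ 2 - w * x + x ^ 2 + h ^ 2 + √3 * w * h) / 3 := by
    have n1 := norm_three_le X0 X1 X2
    have e1 : ‖P - Q‖ ^ 2 = w ^ 2 := by rw [k5]
    have e2 : ‖Q - R‖ ^ 2 = (w - x) ^ 2 + h ^ 2 := by
      rw [← k7, ← k8, ← dist_eq_norm, f.dist_map, dist_eq_norm, normSq_sub]
      simp
    have e3 : ‖R - P‖ ^ 2 = x ^ 2 + h ^ 2 := by
      rw [← k6, ← k8, ← dist_eq_norm, f.dist_map, dist_eq_norm, normSq_sub]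
      simp
    rw [← o3, e1, e2, e3, phi3_place hw k3] at n1
    have n2 := Real.le_sqrt_of_sq_le n1
    linarith
  refine (hA.mono hle).covers ?_ ?_ ?_ hC ?_ z hM hcov
  · exact (tri_compact w x h).image f.toIsometryEquiv.continuous
  · exact (tri_convex w x h).affine_image f.toAffineEquiv.toAffineMap
  · exact (tri_nonempty w x h).image _
  · rintro _ ⟨y, hy, rfl⟩
    exact hsub hy

/-- The planar inequality for sets of diameter at most `6`, from the triangles. -/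
theorem planar_small {C : Set ℂ} (hC : IsCompact C) (hconv : Convex ℝ C) (hne : C.Nonempty)
    (hd : ∀ a ∈ C, ∀ b ∈ C, ‖a - b‖ ≤ 6)
    (htri : ∀ w x h : ℝ, 0 ≤ x → 2 * x ≤ w → 0 ≤ h → x ^ 2 + h ^ 2 ≤ 2 * w * x → w ≤ 6 →
      Adm (tri w x h) (√(w ^ 2 - w * x + x ^ 2 + h ^ 2 + √3 * w * h) / 3))
    {N : ℕ} (z : Fin N → ℂ) {M : ℝ} (hM : 0 < M)
    (hcov : ∀ x ∈ frontier C, M ≤ ∑ j, 2 * √(1 - ‖x - z j‖ ^ 2)) : M * kap C ≤ N := by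
  refine planar_of_tri hC hconv hne (fun w x h h1 h2 h3 h4 h5 => ?_) z hM hcov
  obtain ⟨P, hP, Q, hQ, rfl⟩ := h5
  exact htri _ x h h1 h2 h3 h4 (hd P hP Q hQ)

end Pool.Agent.Saus2
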