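import Mathlib

/-!
# The quartic inequality behind the pair measure
-/

set_option autoImplicit false

namespace Pool.Agent.Saus2

theorem quart_a {a y : ℝ} (h1 : 0 ≤ a) (h2 : a ≤ 1 / 2) (h3 : 0 ≤ y) (h4 : y ≤ 1 / 2) :
    0 ≤ 1 - ((262 / 1000 + 3 / 10 * y - 1 / 10 * a) * (77 / 100 + (1 - (a ^ 2 + y ^ 2) / 2) * (100 / 77)
        + (68 / 100) ^ 2 * (50 / 77))
      + (3163 / 10000 * (77 / 100 + (1 - (a ^ 2 + y ^ 2) / 2) * (100 / 77) + (68 / 100) ^ 2 * (50 / 77))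
        - (262 / 1000 + 3 / 10 * y - 1 / 10 * a) * (68 / 77)) ^ 2
          * (77 / 100 / (4 * (3163 / 10000) * (68 / 100)))
      + (13 / 100 + 18 / 100 * a + a ^ 2 / 5) * (2 * a - a ^ 2 - y ^ 2)) := by
  have hu : 0 ≤ 2 * a := by linarith
  have hu' : 0 ≤ 1 - 2 * a := by linarith
  have hv : 0 ≤ 2 * y := by linarith
  have hv' : 0 ≤ 1 - 2 * y := by linarith
  have e : 1 - ((262 / 1000 + 3 / 10 * y - 1 / 10 * a) * (77 / 100 + (1 - (a ^ 2 + y ^ 2) / 2) * (100 / 77)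
        + (68 / 100) ^ 2 * (50 / 77))
      + (3163 / 10000 * (77 / 100 + (1 - (a ^ 2 + y ^ 2) / 2) * (100 / 77) + (68 / 100) ^ 2 * (50 / 77))
        - (262 / 1000 + 3 / 10 * y - 1 / 10 * a) * (68 / 77)) ^ 2
          * (77 / 100 / (4 * (3163 / 10000) * (68 / 100)))
      + (13 / 100 + 18 / 100 * a + a ^ 2 / 5) * (2 * a - a ^ 2 - y ^ 2)) =
      (704722930579 / 5060800000000) * (2 * a) ^ 0 * (1 - 2 * a) ^ 4 * (2 * y) ^ 0 * (1 - 2 * y) ^ 4 +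
      (410519230579 / 1265200000000) * (2 * a) ^ 0 * (1 - 2 * a) ^ 4 * (2 * y) ^ 1 * (1 - 2 * y) ^ 3 +
      (47703371734999 / 194840800000000) * (2 * a) ^ 0 * (1 - 2 * a) ^ 4 * (2 * y) ^ 2 * (1 - 2 * y) ^ 2 +
      (8323220125833 / 97420400000000) * (2 * a) ^ 0 * (1 - 2 * a) ^ 4 * (2 * y) ^ 3 * (1 - 2 * y) ^ 1 +
      (155428565687911 / 6624587200000000) * (2 * a) ^ 0 * (1 - 2 * a) ^ 4 * (2 * y) ^ 4 * (1 - 2 * y) ^ 0 +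
      (638314830579 / 1265200000000) * (2 * a) ^ 1 * (1 - 2 * a) ^ 3 * (2 * y) ^ 0 * (1 - 2 * y) ^ 4 +
      (26751557054583 / 24355100000000) * (2 * a) ^ 1 * (1 - 2 * a) ^ 3 * (2 * y) ^ 1 * (1 - 2 * y) ^ 3 +
      (451836267987 / 632600000000) * (2 * a) ^ 1 * (1 - 2 * a) ^ 3 * (2 * y) ^ 2 * (1 - 2 * y) ^ 2 +
      (4873088425833 / 24355100000000) * (2 * a) ^ 1 * (1 - 2 * a) ^ 3 * (2 * y) ^ 3 * (1 - 2 * y) ^ 1 +
      (116382290787911 / 1656146800000000) * (2 * a) ^ 1 * (1 - 2 * a) ^ 3 * (2 * y) ^ 4 * (1 - 2 * y) ^ 0 +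
      (138129266934999 / 194840800000000) * (2 * a) ^ 2 * (1 - 2 * a) ^ 2 * (2 * y) ^ 0 * (1 - 2 * y) ^ 4 +
      (72291274734999 / 48710200000000) * (2 * a) ^ 2 * (1 - 2 * a) ^ 2 * (2 * y) ^ 1 * (1 - 2 * y) ^ 3 +
      (1496187651487449 / 1656146800000000) * (2 * a) ^ 2 * (1 - 2 * a) ^ 2 * (2 * y) ^ 2 * (1 - 2 * y) ^ 2 +
      (218022552897483 / 828073400000000) * (2 * a) ^ 2 * (1 - 2 * a) ^ 2 * (2 * y) ^ 3 * (1 - 2 * y) ^ 1 +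
      (400427635512483 / 3312293600000000) * (2 * a) ^ 2 * (1 - 2 * a) ^ 2 * (2 * y) ^ 4 * (1 - 2 * y) ^ 0 +
      (41867770725833 / 97420400000000) * (2 * a) ^ 3 * (1 - 2 * a) ^ 1 * (2 * y) ^ 0 * (1 - 2 * y) ^ 4 +
      (20572148325833 / 24355100000000) * (2 * a) ^ 3 * (1 - 2 * a) ^ 1 * (2 * y) ^ 1 * (1 - 2 * y) ^ 3 +
      (375987710597483 / 828073400000000) * (2 * a) ^ 3 * (1 - 2 * a) ^ 1 * (2 * y) ^ 2 * (1 - 2 * y) ^ 2 +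
      (5338579392651 / 37639700000000) * (2 * a) ^ 3 * (1 - 2 * a) ^ 1 * (2 * y) ^ 3 * (1 - 2 * y) ^ 1 +
      (154443916836661 / 1656146800000000) * (2 * a) ^ 3 * (1 - 2 * a) ^ 1 * (2 * y) ^ 4 * (1 - 2 * y) ^ 0 +
      (637522671287911 / 6624587200000000) * (2 * a) ^ 4 * (1 - 2 * a) ^ 0 * (2 * y) ^ 0 * (1 - 2 * y) ^ 4 +
      (289914152987911 / 1656146800000000) * (2 * a) ^ 4 * (1 - 2 * a) ^ 0 * (2 * y) ^ 1 * (1 - 2 * y) ^ 3 +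
      (267958521912483 / 3312293600000000) * (2 * a) ^ 4 * (1 - 2 * a) ^ 0 * (2 * y) ^ 2 * (1 - 2 * y) ^ 2 +
      (55902859236661 / 1656146800000000) * (2 * a) ^ 4 * (1 - 2 * a) ^ 0 * (2 * y) ^ 3 * (1 - 2 * y) ^ 1 +
      (194196194722911 / 6624587200000000) * (2 * a) ^ 4 * (1 - 2 * a) ^ 0 * (2 * y) ^ 4 * (1 - 2 * y) ^ 0 := by
    ring
  rw [e]
  positivity

theorem quart_b {a y : ℝ} (h1 : 0 ≤ a) (h2 : a ≤ 1 / 2) (h3 : 1 / 2 ≤ y) (h4 : y ≤ 1) :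
    0 ≤ 1 - ((262 / 1000 + 3 / 10 * y - 1 / 10 * a) * (77 / 100 + (1 - (a ^ 2 + y ^ 2) / 2) * (100 / 77)
        + (68 / 100) ^ 2 * (50 / 77))
      + (3163 / 10000 * (77 / 100 + (1 - (a ^ 2 + y ^ 2) / 2) * (100 / 77) + (68 / 100) ^ 2 * (50 / 77))
        - (262 / 1000 + 3 / 10 * y - 1 / 10 * a) * (68 / 77)) ^ 2
          * (77 / 100 / (4 * (3163 / 10000) * (68 / 100)))
      + (13 / 100 + 18 / 100 * a + a ^ 2 / 5) * (2 * a - a ^ 2 - y ^ 2)) := by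
  have hu : 0 ≤ 2 * a := by linarith
  have hu' : 0 ≤ 1 - 2 * a := by linarith
  have hv : 0 ≤ 2 * y - 1 := by linarith
  have hv' : 0 ≤ 2 - 2 * y := by linarith
  have e : 1 - ((262 / 1000 + 3 / 10 * y - 1 / 10 * a) * (77 / 100 + (1 - (a ^ 2 + y ^ 2) / 2) * (100 / 77)
        + (68 / 100) ^ 2 * (50 / 77))
      + (3163 / 10000 * (77 / 100 + (1 - (a ^ 2 + y ^ 2) / 2) * (100 / 77) + (68 / 100) ^ 2 * (50 / 77))
        - (262 / 1000 + 3 / 10 * y - 1 / 10 * a) * (68 / 77)) ^ 2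
          * (77 / 100 / (4 * (3163 / 10000) * (68 / 100)))
      + (13 / 100 + 18 / 100 * a + a ^ 2 / 5) * (2 * a - a ^ 2 - y ^ 2)) =
      (155428565687911 / 6624587200000000) * (2 * a) ^ 0 * (1 - 2 * a) ^ 4 * (2 * y - 1) ^ 0 * (2 - 2 * y) ^ 4 +
      (169362389236661 / 1656146800000000) * (2 * a) ^ 0 * (1 - 2 * a) ^ 4 * (2 * y - 1) ^ 1 * (2 - 2 * y) ^ 3 +
      (978163202079983 / 3312293600000000) * (2 * a) ^ 0 * (1 - 2 * a) ^ 4 * (2 * y - 1) ^ 2 * (2 - 2 * y) ^ 2 +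
      (90005226570773 / 236592400000000) * (2 * a) ^ 0 * (1 - 2 * a) ^ 4 * (2 * y - 1) ^ 3 * (2 - 2 * y) ^ 1 +
      (152886970288273 / 946369600000000) * (2 * a) ^ 0 * (1 - 2 * a) ^ 4 * (2 * y - 1) ^ 4 * (2 - 2 * y) ^ 0 +
      (116382290787911 / 1656146800000000) * (2 * a) ^ 1 * (1 - 2 * a) ^ 3 * (2 * y - 1) ^ 0 * (2 - 2 * y) ^ 4 +
      (149922078336661 / 414036700000000) * (2 * a) ^ 1 * (1 - 2 * a) ^ 3 * (2 * y - 1) ^ 1 * (2 - 2 * y) ^ 3 +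
      (141990160768569 / 118296200000000) * (2 * a) ^ 1 * (1 - 2 * a) ^ 3 * (2 * y - 1) ^ 2 * (2 - 2 * y) ^ 2 +
      (665079167095411 / 414036700000000) * (2 * a) ^ 1 * (1 - 2 * a) ^ 3 * (2 * y - 1) ^ 3 * (2 - 2 * y) ^ 1 +
      (162875471588273 / 236592400000000) * (2 * a) ^ 1 * (1 - 2 * a) ^ 3 * (2 * y - 1) ^ 4 * (2 - 2 * y) ^ 0 +
      (400427635512483 / 3312293600000000) * (2 * a) ^ 2 * (1 - 2 * a) ^ 2 * (2 * y - 1) ^ 0 * (2 - 2 * y) ^ 4 +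
      (582832718127483 / 828073400000000) * (2 * a) ^ 2 * (1 - 2 * a) ^ 2 * (2 * y - 1) ^ 1 * (2 - 2 * y) ^ 3 +
      (19706142475227 / 8856400000000) * (2 * a) ^ 2 * (1 - 2 * a) ^ 2 * (2 * y - 1) ^ 2 * (2 - 2 * y) ^ 2 +
      (2350574081809983 / 828073400000000) * (2 * a) ^ 2 * (1 - 2 * a) ^ 2 * (2 * y - 1) ^ 3 * (2 - 2 * y) ^ 1 +
      (3916205861314983 / 3312293600000000) * (2 * a) ^ 2 * (1 - 2 * a) ^ 2 * (2 * y - 1) ^ 4 * (2 - 2 * y) ^ 0 +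
      (154443916836661 / 1656146800000000) * (2 * a) ^ 3 * (1 - 2 * a) ^ 1 * (2 * y - 1) ^ 0 * (2 - 2 * y) ^ 4 +
      (250163460354161 / 414036700000000) * (2 * a) ^ 3 * (1 - 2 * a) ^ 1 * (2 * y - 1) ^ 1 * (2 - 2 * y) ^ 3 +
      (1524622232807483 / 828073400000000) * (2 * a) ^ 3 * (1 - 2 * a) ^ 1 * (2 * y - 1) ^ 2 * (2 - 2 * y) ^ 2 +
      (933107754519161 / 414036700000000) * (2 * a) ^ 3 * (1 - 2 * a) ^ 1 * (2 * y - 1) ^ 3 * (2 - 2 * y) ^ 1 +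
      (1513764337979161 / 1656146800000000) * (2 * a) ^ 3 * (1 - 2 * a) ^ 1 * (2 * y - 1) ^ 4 * (2 - 2 * y) ^ 0 +
      (194196194722911 / 6624587200000000) * (2 * a) ^ 4 * (1 - 2 * a) ^ 0 * (2 * y - 1) ^ 0 * (2 - 2 * y) ^ 4 +
      (332489530209161 / 1656146800000000) * (2 * a) ^ 4 * (1 - 2 * a) ^ 0 * (2 * y - 1) ^ 1 * (2 - 2 * y) ^ 3 +
      (1927478547747483 / 3312293600000000) * (2 * a) ^ 4 * (1 - 2 * a) ^ 0 * (2 * y - 1) ^ 2 * (2 - 2 * y) ^ 2 +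
      (1128738137780411 / 1656146800000000) * (2 * a) ^ 4 * (1 - 2 * a) ^ 0 * (2 * y - 1) ^ 3 * (2 - 2 * y) ^ 1 +
      (1780125242677911 / 6624587200000000) * (2 * a) ^ 4 * (1 - 2 * a) ^ 0 * (2 * y - 1) ^ 4 * (2 - 2 * y) ^ 0 := by
    ring
  rw [e]
  positivity

theorem quart_c {a y : ℝ} (h1 : 1 / 2 ≤ a) (h2 : a ≤ 1) (h3 : 0 ≤ y) (h4 : y ≤ 1 / 2) :
    0 ≤ 1 - ((262 / 1000 + 3 / 10 * y - 1 / 10 * a) * (77 / 100 + (1 - (a ^ 2 + y ^ 2) / 2) * (100 / 77)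
        + (68 / 100) ^ 2 * (50 / 77))
      + (3163 / 10000 * (77 / 100 + (1 - (a ^ 2 + y ^ 2) / 2) * (100 / 77) + (68 / 100) ^ 2 * (50 / 77))
        - (262 / 1000 + 3 / 10 * y - 1 / 10 * a) * (68 / 77)) ^ 2
          * (77 / 100 / (4 * (3163 / 10000) * (68 / 100)))
      + (13 / 100 + 18 / 100 * a + a ^ 2 / 5) * (2 * a - a ^ 2 - y ^ 2)) := by
  have hu : 0 ≤ 2 * a - 1 := by linarith
  have hu' : 0 ≤ 2 - 2 * a := by linarith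
  have hv : 0 ≤ 2 * y := by linarith
  have hv' : 0 ≤ 1 - 2 * y := by linarith
  have e : 1 - ((262 / 1000 + 3 / 10 * y - 1 / 10 * a) * (77 / 100 + (1 - (a ^ 2 + y ^ 2) / 2) * (100 / 77)
        + (68 / 100) ^ 2 * (50 / 77))
      + (3163 / 10000 * (77 / 100 + (1 - (a ^ 2 + y ^ 2) / 2) * (100 / 77) + (68 / 100) ^ 2 * (50 / 77))
        - (262 / 1000 + 3 / 10 * y - 1 / 10 * a) * (68 / 77)) ^ 2
          * (77 / 100 / (4 * (3163 / 10000) * (68 / 100)))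
      + (13 / 100 + 18 / 100 * a + a ^ 2 / 5) * (2 * a - a ^ 2 - y ^ 2)) =
      (637522671287911 / 6624587200000000) * (2 * a - 1) ^ 0 * (2 - 2 * a) ^ 4 * (2 * y) ^ 0 * (1 - 2 * y) ^ 4 +
      (289914152987911 / 1656146800000000) * (2 * a - 1) ^ 0 * (2 - 2 * a) ^ 4 * (2 * y) ^ 1 * (1 - 2 * y) ^ 3 +
      (267958521912483 / 3312293600000000) * (2 * a - 1) ^ 0 * (2 - 2 * a) ^ 4 * (2 * y) ^ 2 * (1 - 2 * y) ^ 2 +
      (55902859236661 / 1656146800000000) * (2 * a - 1) ^ 0 * (2 - 2 * a) ^ 4 * (2 * y) ^ 3 * (1 - 2 * y) ^ 1 +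
      (194196194722911 / 6624587200000000) * (2 * a - 1) ^ 0 * (2 - 2 * a) ^ 4 * (2 * y) ^ 4 * (1 - 2 * y) ^ 0 +
      (51208476385151 / 150558800000000) * (2 * a - 1) ^ 1 * (2 - 2 * a) ^ 3 * (2 * y) ^ 0 * (1 - 2 * y) ^ 4 +
      (230101784436661 / 414036700000000) * (2 * a - 1) ^ 1 * (2 - 2 * a) ^ 3 * (2 * y) ^ 1 * (1 - 2 * y) ^ 3 +
      (159929333227483 / 828073400000000) * (2 * a - 1) ^ 1 * (2 - 2 * a) ^ 3 * (2 * y) ^ 2 * (1 - 2 * y) ^ 2 +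
      (53081345154161 / 414036700000000) * (2 * a - 1) ^ 1 * (2 - 2 * a) ^ 3 * (2 * y) ^ 3 * (1 - 2 * y) ^ 1 +
      (233948472609161 / 1656146800000000) * (2 * a - 1) ^ 1 * (2 - 2 * a) ^ 3 * (2 * y) ^ 4 * (1 - 2 * y) ^ 0 +
      (1457444365279983 / 3312293600000000) * (2 * a - 1) ^ 2 * (2 - 2 * a) ^ 2 * (2 * y) ^ 0 * (1 - 2 * y) ^ 4 +
      (511203247879983 / 828073400000000) * (2 * a - 1) ^ 2 * (2 - 2 * a) ^ 2 * (2 * y) ^ 1 * (1 - 2 * y) ^ 3 +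
      (11755140427497 / 97420400000000) * (2 * a - 1) ^ 2 * (2 - 2 * a) ^ 2 * (2 * y) ^ 2 * (1 - 2 * y) ^ 2 +
      (26309197701069 / 118296200000000) * (2 * a - 1) ^ 2 * (2 - 2 * a) ^ 2 * (2 * y) ^ 3 * (1 - 2 * y) ^ 1 +
      (125350710021069 / 473184800000000) * (2 * a - 1) ^ 2 * (2 - 2 * a) ^ 2 * (2 * y) ^ 4 * (1 - 2 * y) ^ 0 +
      (38181554981401 / 150558800000000) * (2 * a - 1) ^ 3 * (2 - 2 * a) ^ 1 * (2 * y) ^ 0 * (1 - 2 * y) ^ 4 +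
      (125721836495411 / 414036700000000) * (2 * a - 1) ^ 3 * (2 - 2 * a) ^ 1 * (2 * y) ^ 1 * (1 - 2 * y) ^ 3 +
      (4676753758569 / 118296200000000) * (2 * a - 1) ^ 3 * (2 - 2 * a) ^ 1 * (2 * y) ^ 2 * (1 - 2 * y) ^ 2 +
      (8702999692651 / 37639700000000) * (2 * a - 1) ^ 3 * (2 - 2 * a) ^ 1 * (2 * y) ^ 3 * (1 - 2 * y) ^ 1 +
      (384715535980411 / 1656146800000000) * (2 * a - 1) ^ 3 * (2 - 2 * a) ^ 1 * (2 * y) ^ 4 * (1 - 2 * y) ^ 0 +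
      (447925179217911 / 6624587200000000) * (2 * a - 1) ^ 4 * (2 - 2 * a) ^ 0 * (2 * y) ^ 0 * (1 - 2 * y) ^ 4 +
      (178149035917911 / 1656146800000000) * (2 * a - 1) ^ 4 * (2 - 2 * a) ^ 0 * (2 * y) ^ 1 * (1 - 2 * y) ^ 3 +
      (43508392073569 / 473184800000000) * (2 * a - 1) ^ 4 * (2 - 2 * a) ^ 0 * (2 * y) ^ 2 * (1 - 2 * y) ^ 2 +
      (238200940979161 / 1656146800000000) * (2 * a - 1) ^ 4 * (2 - 2 * a) ^ 0 * (2 * y) ^ 3 * (1 - 2 * y) ^ 1 +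
      (592725100277911 / 6624587200000000) * (2 * a - 1) ^ 4 * (2 - 2 * a) ^ 0 * (2 * y) ^ 4 * (1 - 2 * y) ^ 0 := by
    ring
  rw [e]
  positivity

theorem quart_d {a y : ℝ} (h1 : 1 / 2 ≤ a) (h2 : a ≤ 1) (h3 : 1 / 2 ≤ y) (h4 : y ≤ 1) :
    0 ≤ 1 - ((262 / 1000 + 3 / 10 * y - 1 / 10 * a) * (77 / 100 + (1 - (a ^ 2 + y ^ 2) / 2) * (100 / 77)
        + (68 / 100) ^ 2 * (50 / 77))
      + (3163 / 10000 * (77 / 100 + (1 - (a ^ 2 + y ^ 2) / 2) * (100 / 77) + (68 / 100) ^ 2 * (50 / 77))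
        - (262 / 1000 + 3 / 10 * y - 1 / 10 * a) * (68 / 77)) ^ 2
          * (77 / 100 / (4 * (3163 / 10000) * (68 / 100)))
      + (13 / 100 + 18 / 100 * a + a ^ 2 / 5) * (2 * a - a ^ 2 - y ^ 2)) := by
  have hu : 0 ≤ 2 * a - 1 := by linarith
  have hu' : 0 ≤ 2 - 2 * a := by linarith
  have hv : 0 ≤ 2 * y - 1 := by linarith
  have hv' : 0 ≤ 2 - 2 * y := by linarith
  have e : 1 - ((262 / 1000 + 3 / 10 * y - 1 / 10 * a) * (77 / 100 + (1 - (a ^ 2 + y ^ 2) / 2) * (100 / 77)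
        + (68 / 100) ^ 2 * (50 / 77))
      + (3163 / 10000 * (77 / 100 + (1 - (a ^ 2 + y ^ 2) / 2) * (100 / 77) + (68 / 100) ^ 2 * (50 / 77))
        - (262 / 1000 + 3 / 10 * y - 1 / 10 * a) * (68 / 77)) ^ 2
          * (77 / 100 / (4 * (3163 / 10000) * (68 / 100)))
      + (13 / 100 + 18 / 100 * a + a ^ 2 / 5) * (2 * a - a ^ 2 - y ^ 2)) =
      (194196194722911 / 6624587200000000) * (2 * a - 1) ^ 0 * (2 - 2 * a) ^ 4 * (2 * y - 1) ^ 0 * (2 - 2 * y) ^ 4 +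
      (332489530209161 / 1656146800000000) * (2 * a - 1) ^ 0 * (2 - 2 * a) ^ 4 * (2 * y - 1) ^ 1 * (2 - 2 * y) ^ 3 +
      (1927478547747483 / 3312293600000000) * (2 * a - 1) ^ 0 * (2 - 2 * a) ^ 4 * (2 * y - 1) ^ 2 * (2 - 2 * y) ^ 2 +
      (1128738137780411 / 1656146800000000) * (2 * a - 1) ^ 0 * (2 - 2 * a) ^ 4 * (2 * y - 1) ^ 3 * (2 - 2 * y) ^ 1 +
      (1780125242677911 / 6624587200000000) * (2 * a - 1) ^ 0 * (2 - 2 * a) ^ 4 * (2 * y - 1) ^ 4 * (2 - 2 * y) ^ 0 +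
      (233948472609161 / 1656146800000000) * (2 * a - 1) ^ 1 * (2 - 2 * a) ^ 3 * (2 * y - 1) ^ 0 * (2 - 2 * y) ^ 4 +
      (24400917650833 / 24355100000000) * (2 * a - 1) ^ 1 * (2 - 2 * a) ^ 3 * (2 * y - 1) ^ 1 * (2 - 2 * y) ^ 3 +
      (2330334862687483 / 828073400000000) * (2 * a - 1) ^ 1 * (2 - 2 * a) ^ 3 * (2 * y - 1) ^ 2 * (2 - 2 * y) ^ 2 +
      (1324368521041661 / 414036700000000) * (2 * a - 1) ^ 1 * (2 - 2 * a) ^ 3 * (2 * y - 1) ^ 3 * (2 - 2 * y) ^ 1 +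
      (2046486147376661 / 1656146800000000) * (2 * a - 1) ^ 1 * (2 - 2 * a) ^ 3 * (2 * y - 1) ^ 4 * (2 - 2 * y) ^ 0 +
      (125350710021069 / 473184800000000) * (2 * a - 1) ^ 2 * (2 - 2 * a) ^ 2 * (2 * y - 1) ^ 0 * (2 - 2 * y) ^ 4 +
      (224392222341069 / 118296200000000) * (2 * a - 1) ^ 2 * (2 - 2 * a) ^ 2 * (2 * y - 1) ^ 1 * (2 - 2 * y) ^ 3 +
      (8519324422147449 / 1656146800000000) * (2 * a - 1) ^ 2 * (2 - 2 * a) ^ 2 * (2 * y - 1) ^ 2 * (2 - 2 * y) ^ 2 +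
      (4698138680944983 / 828073400000000) * (2 * a - 1) ^ 2 * (2 - 2 * a) ^ 2 * (2 * y - 1) ^ 3 * (2 - 2 * y) ^ 1 +
      (7112536717699983 / 3312293600000000) * (2 * a - 1) ^ 2 * (2 - 2 * a) ^ 2 * (2 * y - 1) ^ 4 * (2 - 2 * y) ^ 0 +
      (384715535980411 / 1656146800000000) * (2 * a - 1) ^ 3 * (2 - 2 * a) ^ 1 * (2 * y - 1) ^ 0 * (2 - 2 * y) ^ 4 +
      (673698075341661 / 414036700000000) * (2 * a - 1) ^ 3 * (2 - 2 * a) ^ 1 * (2 * y - 1) ^ 1 * (2 - 2 * y) ^ 3 +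
      (500075392663569 / 118296200000000) * (2 * a - 1) ^ 3 * (2 - 2 * a) ^ 1 * (2 * y - 1) ^ 2 * (2 - 2 * y) ^ 2 +
      (109922414384583 / 24355100000000) * (2 * a - 1) ^ 3 * (2 - 2 * a) ^ 1 * (2 * y - 1) ^ 3 * (2 - 2 * y) ^ 1 +
      (2768113307185411 / 1656146800000000) * (2 * a - 1) ^ 3 * (2 - 2 * a) ^ 1 * (2 * y - 1) ^ 4 * (2 - 2 * y) ^ 0 +
      (592725100277911 / 6624587200000000) * (2 * a - 1) ^ 4 * (2 - 2 * a) ^ 0 * (2 * y - 1) ^ 0 * (2 - 2 * y) ^ 4 +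
      (947249259576661 / 1656146800000000) * (2 * a - 1) ^ 4 * (2 - 2 * a) ^ 0 * (2 * y - 1) ^ 1 * (2 - 2 * y) ^ 3 +
      (651264093728569 / 473184800000000) * (2 * a - 1) ^ 4 * (2 - 2 * a) ^ 0 * (2 * y - 1) ^ 2 * (2 - 2 * y) ^ 2 +
      (2314357963585411 / 1656146800000000) * (2 * a - 1) ^ 4 * (2 - 2 * a) ^ 0 * (2 * y - 1) ^ 3 * (2 - 2 * y) ^ 1 +
      (3320374341107911 / 6624587200000000) * (2 * a - 1) ^ 4 * (2 - 2 * a) ^ 0 * (2 * y - 1) ^ 4 * (2 - 2 * y) ^ 0 := by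
    ring
  rw [e]
  positivity

/-- The quartic inequality. -/
theorem quart {a y : ℝ} (ha0 : 0 ≤ a) (ha1 : a ≤ 1) (hy0 : 0 ≤ y) (hy1 : y ≤ 1) :
    (262 / 1000 + 3 / 10 * y - 1 / 10 * a) * (77 / 100 + (1 - (a ^ 2 + y ^ 2) / 2) * (100 / 77)
        + (68 / 100) ^ 2 * (50 / 77))
      + (3163 / 10000 * (77 / 100 + (1 - (a ^ 2 + y ^ 2) / 2) * (100 / 77) + (68 / 100) ^ 2 * (50 / 77))
        - (262 / 1000 + 3 / 10 * y - 1 / 10 * a) * (68 / 77)) ^ 2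
          * (77 / 100 / (4 * (3163 / 10000) * (68 / 100)))
      + (13 / 100 + 18 / 100 * a + a ^ 2 / 5) * (2 * a - a ^ 2 - y ^ 2) ≤ 1 := by
  rcases le_or_gt a (1 / 2) with h | h
  · rcases le_or_gt y (1 / 2) with h' | h'
    · linarith [quart_a ha0 h hy0 h']
    · linarith [quart_b ha0 h h'.le hy1]
  · rcases le_or_gt y (1 / 2) with h' | h'
    · linarith [quart_c h.le ha1 hy0 h']
    · linarith [quart_d h.le ha1 h'.le hy1]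

end Pool.Agent.Saus2
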