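import Pool.Agent.Saus2.AG

/-!
# Triangles with middle side at least 2, height at most `√3`, base at most 6

Methods `T₁`, `G` and the pair measure (hypothesis `hstar`).
-/

set_option autoImplicit false

namespace Pool.Agent.Saus2

open MeasureTheory Set Metric Filter Topology Real
open scoped InnerProductSpace

theorem sqrt_three_lt : (√3 : ℝ) < 1732051 / 1000000 := by
  rw [Real.sqrt_lt' (by norm_num)]
  norm_num

/-- Lower bound for `(w - 2)/π`. -/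
theorem div_pi_ge {w : ℝ} (hw : 2 ≤ w) : 318309 / 1000000 * (w - 2) ≤ (w - 2) / π := by
  rw [le_div_iff₀ Real.pi_pos]
  have h1 : π < 3.141593 := Real.pi_lt_d6
  have h2 : 0 ≤ w - 2 := by linarith
  have h3 : 318309 / 1000000 * π ≤ 1 := by
    norm_num at h1
    linarith
  nlinarith

theorem nn_le_rat {w x h : ℝ} (hw : 0 ≤ w) (hh : 0 ≤ h) :
    nn w x h ≤ w ^ 2 - w * x + x ^ 2 + h ^ 2 + 1732051 / 1000000 * (w * h) := by
  unfold nn
  have h1 : 0 ≤ w * h := mul_nonneg hw hh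
  have h2 := mul_le_mul_of_nonneg_right sqrt_three_lt.le h1
  nlinarith

/-- The criterion used for all methods. -/
theorem lam_le_rat {w x h V V0 : ℝ} (hw : 0 ≤ w) (hh : 0 ≤ h) (h0 : 0 ≤ V0) (hV : V0 ≤ V)
    (hN : w ^ 2 - w * x + x ^ 2 + h ^ 2 + 1732051 / 1000000 * (w * h) ≤ 9 * V0 ^ 2) :
    √(nn w x h) / 3 ≤ V :=
  (lam_le h0 ((nn_le_rat hw hh).trans hN)).trans hV

theorem x_ge {w x a : ℝ} (hxa : a ≤ x) (hxw : 2 * x ≤ w) :
    x ^ 2 - w * x ≤ a ^ 2 - w * a := by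
  nlinarith [mul_nonneg (by linarith : 0 ≤ x - a) (by linarith : 0 ≤ w - a - x)]

theorem regT_one {w x h : ℝ} (hx0 : 0 ≤ x) (hxw : 2 * x ≤ w) (hh : 0 ≤ h) (hw : 2 ≤ w)
    (hw6 : w ≤ 6) (h1 : h ≤ 17 / 25) : √(nn w x h) / 3 ≤ 116 / 125 + (w - 2) / π := by
  have hp := div_pi_ge hw
  have hx := x_ge hx0 hxw
  refine lam_le_rat (V0 := 116 / 125 + 318309 / 1000000 * (w - 2)) (by linarith) hh
    (by linarith) (by linarith) ?_
  have a1 : 0 ≤ (w - 2) * (6 - w) := mul_nonneg (by linarith) (by linarith)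
  have a2 : h ^ 2 ≤ (17 / 25) ^ 2 := by nlinarith
  have a3 : w * h ≤ w * (17 / 25) := by nlinarith
  nlinarith

theorem regT_two {w x h : ℝ} (hx0 : 3 / 4 ≤ x) (hxw : 2 * x ≤ w) (hh : 0 ≤ h) (hw : 2 ≤ w)
    (hw6 : w ≤ 6) (h1 : h ≤ 1) : √(nn w x h) / 3 ≤ 116 / 125 + (w - 2) / π := by
  have hp := div_pi_ge hw
  have hx := x_ge hx0 hxw
  refine lam_le_rat (V0 := 116 / 125 + 318309 / 1000000 * (w - 2)) (by linarith) hh
    (by linarith) (by linarith) ?_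
  have a1 : 0 ≤ (w - 2) * (6 - w) := mul_nonneg (by linarith) (by linarith)
  have a2 : h ^ 2 ≤ 1 := by nlinarith
  have a3 : w * h ≤ w := by nlinarith
  nlinarith

theorem regT_three {w x h : ℝ} (hx0 : 9 / 10 ≤ x) (hxw : 2 * x ≤ w) (hh : 0 ≤ h) (hw : 2 ≤ w)
    (hw6 : w ≤ 6) (h1 : h ≤ 21 / 20) : √(nn w x h) / 3 ≤ 116 / 125 + (w - 2) / π := by
  have hp := div_pi_ge hw
  have hx := x_ge hx0 hxw
  refine lam_le_rat (V0 := 116 / 125 + 318309 / 1000000 * (w - 2)) (by linarith) hh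
    (by linarith) (by linarith) ?_
  have a1 : 0 ≤ (w - 2) * (6 - w) := mul_nonneg (by linarith) (by linarith)
  have a2 : h ^ 2 ≤ (21 / 20) ^ 2 := by nlinarith
  have a3 : w * h ≤ w * (21 / 20) := by nlinarith
  nlinarith

/-- A quadratic form on a box. -/
theorem regA_box {w x h a b c : ℝ} (hx0 : 0 ≤ x) (hxa : x ≤ a) (hbh : b ≤ h) (hhc : h ≤ c)
    (hw : 2 ≤ w) (hw6 : w ≤ 6) (hc : c = 1732051 / 1000000)
    (hab : (a = 3 / 4 ∧ b = 17 / 25) ∨ (a = 9 / 10 ∧ b = 1)) :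
    w ^ 2 - w * x + x ^ 2 + h ^ 2 + 1732051 / 1000000 * (w * h) ≤
      9 * (131 / 500 + 3 / 10 * h - 1 / 10 * x + 58 / 125 + 318309 / 1000000 * (w - 2)) ^ 2 := by
  have p1 : 0 ≤ w - 2 := by linarith
  have p2 : 0 ≤ 6 - w := by linarith
  have q1 : 0 ≤ x := hx0
  have q2 : 0 ≤ a - x := by linarith
  have r1 : 0 ≤ h - b := by linarith
  have r2 : 0 ≤ c - h := by linarith
  have m1 := mul_nonneg p1 p2
  have m2 := mul_nonneg q1 q2
  have m3 := mul_nonneg r1 r2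
  have v1 := mul_nonneg (mul_nonneg p1 q1) r1
  have v2 := mul_nonneg (mul_nonneg p1 q1) r2
  have v3 := mul_nonneg (mul_nonneg p1 q2) r1
  have v4 := mul_nonneg (mul_nonneg p1 q2) r2
  have v5 := mul_nonneg (mul_nonneg p2 q1) r1
  have v6 := mul_nonneg (mul_nonneg p2 q1) r2
  have v7 := mul_nonneg (mul_nonneg p2 q2) r1
  have v8 := mul_nonneg (mul_nonneg p2 q2) r2
  rcases hab with ⟨rfl, rfl⟩ | ⟨rfl, rfl⟩
  · subst hc
    linarith
  · subst hc
    linarith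

theorem regG_box {w h w1 h1 h2 g0 g1 : ℝ} (hw1 : w1 ≤ w) (hw6 : w ≤ 6) (hh1 : h1 ≤ h)
    (hh2 : h ≤ h2)
    (hcase : (w1 = 246 / 100 ∧ h1 = 105 / 100 ∧ h2 = 125 / 100 ∧ g0 = -361782 / 1000000 ∧
        g1 = 34223 / 100000) ∨
      (w1 = 222 / 100 ∧ h1 = 125 / 100 ∧ h2 = 150 / 100 ∧ g0 = -446316 / 1000000 ∧
        g1 = 409188 / 1000000) ∨
      (w1 = 2 ∧ h1 = 150 / 100 ∧ h2 = 1732051 / 1000000 ∧ g0 = -545918 / 1000000 ∧
        g1 = 476146 / 1000000)) :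
    w ^ 2 - 9 / 10 * w + 81 / 100 + h ^ 2 + 1732051 / 1000000 * (w * h) ≤
      9 * (116 / 125 + 318309 / 1000000 * (w - 2) + (g0 + g1 * h)) ^ 2 := by
  have p1 : 0 ≤ w - w1 := by linarith
  have p2 : 0 ≤ 6 - w := by linarith
  have r1 : 0 ≤ h - h1 := by linarith
  have r2 : 0 ≤ h2 - h := by linarith
  have m1 := mul_nonneg p1 p2
  have m3 := sq_nonneg (h - (h1 + h2) / 2)
  have v1 := mul_nonneg p1 r1
  have v2 := mul_nonneg p1 r2
  have v3 := mul_nonneg p2 r1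
  have v4 := mul_nonneg p2 r2
  rcases hcase with ⟨rfl, rfl, rfl, rfl, rfl⟩ | ⟨rfl, rfl, rfl, rfl, rfl⟩ |
    ⟨rfl, rfl, rfl, rfl, rfl⟩
  · linarith
  · linarith
  · linarith

/-- The gain of the atom at the apex (`t = 33/100`) and its tangents. -/
theorem regG {w x h : ℝ} (hx0 : 9 / 10 ≤ x) (hxw : 2 * x ≤ w) (hh : 21 / 20 ≤ h)
    (hh3 : h ^ 2 ≤ 3) (hw : 2 ≤ w) (hw6 : w ≤ 6) (hb : 4 ≤ (w - x) ^ 2 + h ^ 2) :
    √(nn w x h) / 3 ≤ 116 / 125 + (w - 2) / π +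
      (33 / 100 * h ^ 2 / (11089 / 10000) - 33 / 100) / 2 := by
  have hp := div_pi_ge hw
  have hx := x_ge hx0 hxw
  have hh2 : h ≤ 1732051 / 1000000 := by
    apply le_of_sq_le_sq _ (by norm_num)
    norm_num
    linarith
  have hwx : ∀ r : ℝ, 0 ≤ r → h ^ 2 + r ^ 2 ≤ 4 → 9 / 10 + r ≤ w := by
    intro r hr hr2
    have h1 : r ^ 2 ≤ (w - x) ^ 2 := by linarith
    have h2 : r ≤ w - x := by
      apply le_of_sq_le_sq h1
      linarith
    linarith
  rcases le_or_gt h (5 / 4) with h54 | h54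
  · have hw1 := hwx (156 / 100) (by norm_num) (by nlinarith)
    have key := regG_box (w := w) (h := h) (w1 := 246 / 100) (h1 := 105 / 100) (h2 := 125 / 100)
      (g0 := -361782 / 1000000) (g1 := 34223 / 100000) (by linarith) hw6
      (by linarith) (by linarith) (Or.inl ⟨rfl, rfl, rfl, rfl, rfl⟩)
    refine lam_le_rat (V0 := 116 / 125 + 318309 / 1000000 * (w - 2) +
      (-361782 / 1000000 + 34223 / 100000 * h)) (by linarith) (by linarith) (by linarith) ?_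
      (by linarith)
    nlinarith [sq_nonneg (h - 115 / 100)]
  · rcases le_or_gt h (3 / 2) with h32 | h32
    · have hw1 := hwx (132 / 100) (by norm_num) (by nlinarith)
      have key := regG_box (w := w) (h := h) (w1 := 222 / 100) (h1 := 125 / 100) (h2 := 150 / 100)
        (g0 := -446316 / 1000000) (g1 := 409188 / 1000000) (by linarith) hw6
        (by linarith) (by linarith) (Or.inr (Or.inl ⟨rfl, rfl, rfl, rfl, rfl⟩))
      refine lam_le_rat (V0 := 116 / 125 + 318309 / 1000000 * (w - 2) +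
        (-446316 / 1000000 + 409188 / 1000000 * h)) (by linarith) (by linarith) (by linarith) ?_
        (by linarith)
      nlinarith [sq_nonneg (h - 1375 / 1000)]
    · have key := regG_box (w := w) (h := h) (w1 := 2) (h1 := 150 / 100) (h2 := 1732051 / 1000000)
        (g0 := -545918 / 1000000) (g1 := 476146 / 1000000) hw hw6
        (by linarith) (by linarith) (Or.inr (Or.inr ⟨rfl, rfl, rfl, rfl, rfl⟩))
      refine lam_le_rat (V0 := 116 / 125 + 318309 / 1000000 * (w - 2) +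
        (-545918 / 1000000 + 476146 / 1000000 * h)) (by linarith) (by linarith) (by linarith) ?_
        (by linarith)
      nlinarith [sq_nonneg (h - 16 / 10)]

theorem reg_large {w x h : ℝ} (hx0 : 0 ≤ x) (hxw : 2 * x ≤ w) (hh : 0 ≤ h)
    (hcb : x ^ 2 + h ^ 2 ≤ 2 * w * x) (hb : 4 ≤ (w - x) ^ 2 + h ^ 2) (hh3 : h ^ 2 ≤ 3)
    (hw6 : w ≤ 6)
    (hstar : ((x ≤ 3 / 4 ∧ 17 / 25 ≤ h) ∨ (x ≤ 9 / 10 ∧ 1 ≤ h)) →
      Adm (tri w x h) ((131 / 500 + 3 / 10 * h - 1 / 10 * x) + 58 / 125 + (w - 2) / π)) :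
    Adm (tri w x h) (√(nn w x h) / 3) := by
  have hw0 : 0 ≤ w := by linarith
  have hxw' : x ≤ w := by linarith
  have hw : 2 ≤ w := by
    apply le_of_sq_le_sq _ hw0
    nlinarith
  have hp := div_pi_ge hw
  have hh2 : h ≤ 1732051 / 1000000 := by
    apply le_of_sq_le_sq _ (by norm_num)
    norm_num
    linarith
  rcases le_or_gt h (17 / 25) with h1 | h1
  · exact (adm_T1 hx0 hxw' hh hw).mono (regT_one hx0 hxw hh hw hw6 h1)
  rcases le_or_gt x (3 / 4) with h2 | h2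
  · refine (hstar (Or.inl ⟨h2, h1.le⟩)).mono ?_
    exact lam_le_rat (V0 := 131 / 500 + 3 / 10 * h - 1 / 10 * x + 58 / 125 +
      318309 / 1000000 * (w - 2)) hw0 hh (by linarith) (by linarith)
      (regA_box hx0 h2 h1.le hh2 hw hw6 rfl (Or.inl ⟨rfl, rfl⟩))
  rcases le_or_gt h 1 with h3 | h3
  · exact (adm_T1 hx0 hxw' hh hw).mono (regT_two h2.le hxw hh hw hw6 h3)
  rcases le_or_gt x (9 / 10) with h4 | h4
  · refine (hstar (Or.inr ⟨h4, h3.le⟩)).mono ?_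
    exact lam_le_rat (V0 := 131 / 500 + 3 / 10 * h - 1 / 10 * x + 58 / 125 +
      318309 / 1000000 * (w - 2)) hw0 hh (by linarith) (by linarith)
      (regA_box hx0 h4 h3.le hh2 hw hw6 rfl (Or.inr ⟨rfl, rfl⟩))
  rcases le_or_gt h (21 / 20) with h5 | h5
  · exact (adm_T1 hx0 hxw' hh hw).mono (regT_three h4.le hxw hh hw hw6 h5)
  · rcases le_or_gt ((33 / 100 * h ^ 2 / (11089 / 10000) - 33 / 100) / 2) 0 with h6 | h6
    · refine (adm_T1 hx0 hxw' hh hw).mono ((regG h4.le hxw h5.le hh3 hw hw6 hb).trans ?_)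
      linarith
    · refine (adm_G (g := (33 / 100 * h ^ 2 / (11089 / 10000) - 33 / 100) / 2) hx0 hxw' hh hw
        h6.le ?_).mono (regG h4.le hxw h5.le hh3 hw hw6 hb)
      intro y _ _
      apply gam_ok (t := 33 / 100) (by norm_num) h6.le
      · nlinarith
      · apply le_of_eq
        ring

end Pool.Agent.Saus2
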