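import Pool.Agent.Saus2.AE

/-!
# Triangles whose two shorter sides are at most 2

`nn w x h = |X0 + w² X1 + w X2|²` for the standard triangle.  If the middle side has length at most
`2`, then `tri w x h` admits the load `√(nn w x h) / 3`.
-/

set_option autoImplicit false

namespace Pool.Agent.Saus2

open MeasureTheory Set Metric Filter Topology Real
open scoped InnerProductSpace

/-- `9 Λ²`. -/
noncomputable def nn (w x h : ℝ) : ℝ := w ^ 2 - w * x + x ^ 2 + h ^ 2 + √3 * w * h

theorem sq_sqrt_three : (√3 : ℝ) ^ 2 = 3 := Real.sq_sqrt (by norm_num)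

theorem nn_le_sum (w x h : ℝ) :
    nn w x h ≤ w ^ 2 + (x ^ 2 + h ^ 2) + ((w - x) ^ 2 + h ^ 2) := by
  unfold nn
  nlinarith [sq_nonneg (x - w / 2), sq_nonneg (h - √3 * w / 2), sq_sqrt_three]

theorem nn_le_mul (w x h : ℝ) :
    nn w x h ≤ (√((w - x) ^ 2 + h ^ 2) + √(x ^ 2 + h ^ 2)) ^ 2 := by
  have hB : 0 ≤ (w - x) ^ 2 + h ^ 2 := by positivity
  have hC : 0 ≤ x ^ 2 + h ^ 2 := by positivity
  have h1 : (√((w - x) ^ 2 + h ^ 2) * √(x ^ 2 + h ^ 2)) ^ 2 =
      (x * (w - x) - h ^ 2) ^ 2 + (w * h) ^ 2 := by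
    rw [mul_pow, Real.sq_sqrt hB, Real.sq_sqrt hC]
    ring
  have h0 : 0 ≤ √((w - x) ^ 2 + h ^ 2) * √(x ^ 2 + h ^ 2) := by positivity
  have h2 : (x * (w - x) - h ^ 2) + √3 * (w * h) ≤
      2 * (√((w - x) ^ 2 + h ^ 2) * √(x ^ 2 + h ^ 2)) := by
    apply le_of_sq_le_sq _ (by positivity)
    rw [mul_pow, h1]
    nlinarith [sq_nonneg (√3 * (x * (w - x) - h ^ 2) - w * h), sq_sqrt_three]
  unfold nn
  rw [add_sq, Real.sq_sqrt hB, Real.sq_sqrt hC]
  nlinarith

theorem nn_nonneg {w x h : ℝ} (hw : 0 ≤ w) (hh : 0 ≤ h) : 0 ≤ nn w x h := by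
  unfold nn
  have : 0 ≤ √3 * w * h := by positivity
  nlinarith [sq_nonneg (x - w / 2), sq_nonneg w, sq_nonneg h]

/-- `√N / 3 ≤ V` from `N ≤ 9 V²`. -/
theorem lam_le {N V : ℝ} (hV : 0 ≤ V) (h : N ≤ 9 * V ^ 2) : √N / 3 ≤ V := by
  have : √N ≤ 3 * V := by
    rw [Real.sqrt_le_left (by positivity)]
    nlinarith
  linarith

theorem poly_one {c : ℝ} (h0 : 0 ≤ c) (_h1 : c ^ 2 ≤ 3) :
    (4 - c ^ 2) * (3 + 3 * c + c ^ 2 / 2) ≤ 81 / 4 := by
  nlinarith [sq_nonneg (c - 97 / 100), sq_nonneg (c ^ 2 - 94 / 100), mul_nonneg h0 (sq_nonneg (c - 97 / 100)),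
    mul_nonneg h0 (sq_nonneg (c - 1))]

theorem poly_two {c : ℝ} (h0 : 0 ≤ c) (_h1 : c ^ 2 ≤ 3) :
    (4 - c ^ 2) * (1 + 2 * c) ^ 2 ≤ 36 := by
  nlinarith [sq_nonneg (c - 13 / 10), sq_nonneg (c ^ 2 - 169 / 100), mul_nonneg h0 (sq_nonneg (c - 13 / 10))]

theorem poly_three {b c s : ℝ} (hb0 : 0 ≤ b) (hc0 : 0 ≤ c) (hs1 : 1 ≤ s)
    (hs2 : s ^ 2 = 4 - c ^ 2) (hbc : 3 < b + c) (hB : b ^ 2 < 2 + 1 / s) (hc3 : c ^ 2 ≤ 3) :
    (4 - c ^ 2) * (b + c) ^ 2 ≤ 81 / 4 := by
  have h10 : 0 ≤ 4 - c ^ 2 := by linarith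
  rcases le_or_gt c (7 / 5) with hc14 | hc14
  · have hs14 : 714 / 500 ≤ s := by
      apply le_of_sq_le_sq _ (by linarith)
      rw [hs2]
      nlinarith
    have h5 : 1 / s ≤ 500 / 714 := by
      rw [div_le_div_iff₀ (by positivity) (by norm_num)]
      linarith
    have h6 : b ≤ 16435 / 10000 := by
      apply le_of_sq_le_sq _ (by norm_num)
      norm_num
      linarith
    have h7 : 13565 / 10000 ≤ c := by linarith
    have h8 : (4 - c ^ 2) ≤ 216 / 100 := by nlinarith
    have h9' : (b + c) ^ 2 ≤ 9262 / 1000 := by nlinarith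
    calc (4 - c ^ 2) * (b + c) ^ 2 ≤ 216 / 100 * (9262 / 1000) := by gcongr
      _ ≤ 81 / 4 := by norm_num
  · have h5 : 1 / s ≤ 1 := by
      rw [div_le_one (by positivity)]
      exact hs1
    have h6 : b ≤ 17321 / 10000 := by
      apply le_of_sq_le_sq _ (by norm_num)
      norm_num
      linarith
    have h8 : (b + c) ^ 2 ≤ (17321 / 10000 + c) ^ 2 := by gcongr
    have h12 : c ≤ 17321 / 10000 := by
      apply le_of_sq_le_sq _ (by norm_num)
      norm_num
      linarith
    have h11 : (4 - c ^ 2) * (17321 / 10000 + c) ^ 2 ≤ 81 / 4 := by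
      nlinarith [mul_nonneg (by linarith : (0:ℝ) ≤ c - 7 / 5)
        (by linarith : (0:ℝ) ≤ 17321 / 10000 - c),
        mul_nonneg (mul_nonneg (by linarith : (0:ℝ) ≤ c - 7 / 5) hc0) hc0]
    exact (mul_le_mul_of_nonneg_left h8 h10).trans h11

theorem poly_four {C b c s N : ℝ} (hs1 : 1 ≤ s) (hb2 : b ≤ 2) (hb0 : 0 ≤ b)
    (hc0 : 0 ≤ c) (hs2 : s ^ 2 = 4 - C) (hc2 : c ^ 2 = C) (hC3 : C ≤ 3)
    (hNM : N ≤ (b + c) ^ 2) : √N / 3 ≤ 1 / 2 + 2 * (1 / (2 * s)) := by
  have h1 : √N ≤ b + c := by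
    rw [Real.sqrt_le_left (by positivity)]
    exact hNM
  have h2 : s * (1 + 2 * c) ≤ 6 := by
    apply le_of_sq_le_sq _ (by norm_num)
    rw [mul_pow, hs2, ← hc2]
    have := poly_two hc0 (by rw [hc2]; linarith)
    linarith
  have h3 : (2 + c) / 3 ≤ 1 / 2 + 2 * (1 / (2 * s)) := by
    have e : 1 / 2 + 2 * (1 / (2 * s)) = (s + 2) / (2 * s) := by
      field_simp
    rw [e, div_le_div_iff₀ (by norm_num) (by positivity)]
    nlinarith
  linarith

theorem poly_five {A B C s : ℝ} (hs1 : 1 ≤ s) (hs2 : s ^ 2 = 4 - C)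
    (hAB : 9 - C ≤ A + B) (hm2 : (1 / (2 * s)) ^ 2 * (4 - C) = 1 / 4) :
    (1 / 2 + 2 * (1 / (2 * s))) ^ 2 - 1 / (2 * s) / 2 * (A + B)
      - (1 / (2 * s)) ^ 2 * C ≤ 1 / 4 := by
  have h1 : 4 + s ≤ A + B := by nlinarith
  have h2 : 1 / (2 * s) / 2 * (4 + s) ≤ 1 / (2 * s) / 2 * (A + B) :=
    mul_le_mul_of_nonneg_left h1 (by positivity)
  have h3 : 1 / (2 * s) / 2 * (4 + s) = 2 * (1 / (2 * s)) + 1 / 4 := by
    field_simp
    ring
  have h4 : 0 ≤ 1 / (2 * s) := by positivity
  nlinarith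

theorem reg_small {w x h : ℝ} (hx0 : 0 ≤ x) (hxw : 2 * x ≤ w) (hh : 0 ≤ h)
    (hcb : x ^ 2 + h ^ 2 ≤ 2 * w * x) (hb : (w - x) ^ 2 + h ^ 2 ≤ 4) :
    Adm (tri w x h) (√(nn w x h) / 3) := by
  have hw0 : 0 ≤ w := by linarith
  have hxw' : x ≤ w := by linarith
  have hN0 := nn_nonneg (x := x) hw0 hh
  have hNS := nn_le_sum w x h
  have hNM := nn_le_mul w x h
  set A := w ^ 2 with hA
  set B := (w - x) ^ 2 + h ^ 2 with hB
  set C := x ^ 2 + h ^ 2 with hC
  set N := nn w x h with hN
  have hB0 : 0 ≤ B := by positivity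
  have hC0 : 0 ≤ C := by positivity
  have hBA : B ≤ A := by
    rw [hB, hA]
    nlinarith
  have hCB : C ≤ B := by
    rw [hB, hC]
    nlinarith
  set b := √B with hbd
  set c := √C with hcd
  have hb0 : 0 ≤ b := Real.sqrt_nonneg _
  have hc0 : 0 ≤ c := Real.sqrt_nonneg _
  have hb2 : b ^ 2 = B := Real.sq_sqrt hB0
  have hc2 : c ^ 2 = C := Real.sq_sqrt hC0
  have hcb' : c ≤ b := Real.sqrt_le_sqrt hCB
  have hb_2 : b ≤ 2 := by nlinarith
  -- general use of equal atoms with `4 m² (4 - C) = 1`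
  have useE : C ≤ 3 → 5 ≤ A + B → (4 - C) * N ≤ 81 / 4 → Adm (tri w x h) (√N / 3) := by
    intro h1 h2 h3
    have hs : 1 ≤ 4 - C := by linarith
    set s := √(4 - C) with hsd
    have hs2 : s ^ 2 = 4 - C := Real.sq_sqrt (by linarith)
    have hs1 : 1 ≤ s := by
      rw [hsd]
      exact Real.one_le_sqrt.mpr hs
    have hm2 : (1 / (2 * s)) ^ 2 * (4 - C) = 1 / 4 := by
      rw [← hs2]
      field_simp
      ring
    have hm2' : 0 ≤ (1 / (2 * s)) ^ 2 := by positivity
    refine (adm_E (m := 1 / (2 * s)) hx0 hxw' hh (by positivity) ?_ ?_ ?_ ?_ ?_).mono ?_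
    · rw [div_le_div_iff₀ (by positivity) (by norm_num)]
      linarith
    · rw [← hA]
      nlinarith
    · rw [← hC]
      linarith
    · rw [← hB]
      nlinarith
    · rw [← hA, ← hB, ← hC]
      nlinarith
    · apply lam_le (by positivity)
      have : 9 * (3 * (1 / (2 * s))) ^ 2 = 81 / 4 / (4 - C) := by
        rw [← hs2]
        field_simp
        ring
      rw [this, le_div_iff₀ (by linarith)]
      linarith
  rcases le_or_gt A 3 with hA3 | hA3
  · -- short base
    rcases le_or_gt (A + B) 5 with h5 | h5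
    · have hS : A + C + B ≤ 15 / 2 := by linarith
      set s := √(9 - (A + C + B)) with hsd
      have hs2 : s ^ 2 = 9 - (A + C + B) := Real.sq_sqrt (by linarith)
      have hs1 : 1 ≤ s := by
        rw [hsd]
        exact Real.one_le_sqrt.mpr (by linarith)
      have hm2 : (1 / (2 * s)) ^ 2 * (9 - (A + C + B)) = 1 / 4 := by
        rw [← hs2]
        field_simp
        ring
      have hm2' : 0 ≤ (1 / (2 * s)) ^ 2 := by positivity
      refine (adm_E (m := 1 / (2 * s)) hx0 hxw' hh (by positivity) ?_ ?_ ?_ ?_ ?_).mono ?_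
      · rw [div_le_div_iff₀ (by positivity) (by norm_num)]
        linarith
      · rw [← hA]
        nlinarith
      · rw [← hC]
        nlinarith
      · rw [← hB]
        nlinarith
      · rw [← hA, ← hB, ← hC]
        linarith
      · apply lam_le (by positivity)
        have e : 9 * (3 * (1 / (2 * s))) ^ 2 = 81 / 4 / (9 - (A + C + B)) := by
          rw [← hs2]
          field_simp
          ring
        rw [e, le_div_iff₀ (by linarith)]
        nlinarith [sq_nonneg (2 * (A + C + B) - 9)]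
    · apply useE (by linarith) h5.le
      have hhc : h ≤ c := by
        rw [hcd]
        apply Real.le_sqrt_of_sq_le
        rw [hC]
        nlinarith
      have hwh : √3 * w * h ≤ 3 * c := by
        have h1 : √3 * w ≤ 3 := by
          nlinarith [sq_nonneg (√3 - w), sq_sqrt_three]
        calc √3 * w * h ≤ 3 * h := by nlinarith
          _ ≤ 3 * c := by linarith
      have hNN : N ≤ 3 + 3 * c + c ^ 2 / 2 := by
        have e : N = (A + B + C) / 2 + √3 * w * h := by
          rw [hN, hA, hB, hC]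
          unfold nn
          ring
        rw [e, hc2]
        linarith
      have h4 : 0 ≤ 4 - C := by linarith
      have := poly_one hc0 (by rw [hc2]; linarith)
      rw [hc2] at this hNN
      nlinarith
  · rcases le_or_gt N 9 with h9 | h9
    · exact (adm_P hx0 hxw' hh (by rw [← hA]; exact hA3.le)).mono (lam_le zero_le_one (by linarith))
    · have hAB : 9 - C ≤ A + B := by linarith
      rcases le_or_gt 3 C with hC3 | hC3
      · -- all sides at least `√3`
        refine (adm_E (m := 1 / 2) hx0 hxw' hh (by norm_num) le_rfl ?_ ?_ ?_ ?_).mono ?_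
        · rw [← hA]
          linarith
        · rw [← hC]
          linarith
        · rw [← hB]
          linarith
        · rw [← hA, ← hB, ← hC]
          linarith
        · apply lam_le (by norm_num)
          have : (b + c) ^ 2 ≤ 16 := by nlinarith
          linarith
      · have hs : 1 ≤ 4 - C := by linarith
        set s := √(4 - C) with hsd
        have hs2 : s ^ 2 = 4 - C := Real.sq_sqrt (by linarith)
        have hs1 : 1 ≤ s := by
          rw [hsd]
          exact Real.one_le_sqrt.mpr hs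
        have hm2 : (1 / (2 * s)) ^ 2 * (4 - C) = 1 / 4 := by
          rw [← hs2]
          field_simp
          ring
        have hmh : 1 / (2 * s) ≤ 1 / 2 := by
          rw [div_le_div_iff₀ (by positivity) (by norm_num)]
          linarith
        rcases le_or_gt (1 + 1 / (2 * s)) (B / 2) with hB2 | hB2
        · refine (adm_M2 (m := 1 / (2 * s)) hx0 hxw' hh (by positivity) hmh ?_ ?_ ?_ ?_).mono ?_
          · rw [← hC]
            linarith
          · rw [← hA]
            linarith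
          · rw [← hB]
            exact hB2
          · rw [← hA, ← hB, ← hC]
            exact poly_five hs1 hs2 hAB hm2
          · exact poly_four hs1 hb_2 hb0 hc0 hs2 hc2 hC3.le hNM
        · apply useE hC3.le (by linarith)
          have hbc : 3 < b + c := by
            have : (3:ℝ) ^ 2 < (b + c) ^ 2 := by linarith
            nlinarith [this]
          have hBs : B < 2 + 1 / s := by
            have e : 1 / (2 * s) = 1 / s / 2 := by
              field_simp
            rw [e] at hB2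
            linarith
          have h4 : 0 ≤ 4 - C := by linarith
          refine (mul_le_mul_of_nonneg_left hNM h4).trans ?_
          rw [← hc2]
          exact poly_three hb0 hc0 hs1 (by rw [hs2, hc2]) hbc (by rw [hb2]; exact hBs)
            (by rw [hc2]; linarith)

end Pool.Agent.Saus2
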