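import Pool.Agent.Saus2.Adm

/-!
# The standard triangle

`tri w x h` is the triangle with vertices `B = 0`, `A = w`, `X = x + ih`.
-/

set_option autoImplicit false

namespace Pool.Agent.Saus2

open MeasureTheory Set Metric Filter Topology Real
open scoped InnerProductSpace

/-- The triangle with vertices `0`, `w` and `x + ih`. -/
def tri (w x h : ℝ) : Set ℂ := convexHull ℝ {0, (w : ℂ), (⟨x, h⟩ : ℂ)}

theorem tri_finite (w x h : ℝ) : ({0, (w : ℂ), (⟨x, h⟩ : ℂ)} : Set ℂ).Finite := by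
  simp

theorem tri_compact (w x h : ℝ) : IsCompact (tri w x h) :=
  (tri_finite w x h).isCompact_convexHull (𝕜 := ℝ)

theorem tri_convex (w x h : ℝ) : Convex ℝ (tri w x h) := convex_convexHull ℝ _

theorem tri_zero (w x h : ℝ) : (0 : ℂ) ∈ tri w x h := subset_convexHull ℝ _ (by simp)

theorem tri_base (w x h : ℝ) : (w : ℂ) ∈ tri w x h := subset_convexHull ℝ _ (by simp)

theorem tri_apex (w x h : ℝ) : (⟨x, h⟩ : ℂ) ∈ tri w x h := subset_convexHull ℝ _ (by simp)

theorem tri_nonempty (w x h : ℝ) : (tri w x h).Nonempty := ⟨0, tri_zero w x h⟩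

theorem tri_box {w x h : ℝ} (hx0 : 0 ≤ x) (hxw : x ≤ w) (hh : 0 ≤ h) {c : ℂ}
    (hc : c ∈ tri w x h) : 0 ≤ c.re ∧ c.re ≤ w ∧ 0 ≤ c.im ∧ c.im ≤ h := by
  have hconv : Convex ℝ {c : ℂ | 0 ≤ c.re ∧ c.re ≤ w ∧ 0 ≤ c.im ∧ c.im ≤ h} := by
    intro a ha b hb s t hs ht hst
    obtain ⟨a1, a2, a3, a4⟩ := ha
    obtain ⟨b1, b2, b3, b4⟩ := hb
    have et : t = 1 - s := by linarith
    subst et
    simp only [Set.mem_ofPred_eq, Complex.add_re, Complex.add_im, Complex.real_smul,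
      Complex.mul_re, Complex.mul_im, Complex.ofReal_re, Complex.ofReal_im, zero_mul, sub_zero,
      add_zero]
    refine ⟨by nlinarith, by nlinarith, by nlinarith, by nlinarith⟩
  have hsub : ({0, (w : ℂ), (⟨x, h⟩ : ℂ)} : Set ℂ) ⊆
      {c : ℂ | 0 ≤ c.re ∧ c.re ≤ w ∧ 0 ≤ c.im ∧ c.im ≤ h} := by
    intro z hz
    simp only [mem_insert_iff, mem_singleton_iff] at hz
    have hw : 0 ≤ w := hx0.trans hxw
    rcases hz with rfl | rfl | rfl
    · simp [hw, hh]
    · simp [hw, hh]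
    · simp [hx0, hxw, hh]
  exact (convexHull_min hsub hconv) hc

theorem tri_seg {w x h s : ℝ} (hs0 : 0 ≤ s) (hsw : s ≤ w) : (s : ℂ) ∈ tri w x h := by
  have hseg : segment ℝ (0 : ℂ) (w : ℂ) ⊆ tri w x h :=
    (tri_convex w x h).segment_subset (tri_zero w x h) (tri_base w x h)
  apply hseg
  rcases eq_or_lt_of_le (hs0.trans hsw) with hw | hw
  · have : s = 0 := le_antisymm (by linarith) hs0
    subst this
    simpa using left_mem_segment ℝ (0 : ℂ) (w : ℂ)
  · refine ⟨1 - s / w, s / w, ?_, by positivity, by ring, ?_⟩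
    · rw [sub_nonneg, div_le_one hw]
      exact hsw
    · rw [smul_zero, zero_add, Complex.real_smul, ← Complex.ofReal_mul]
      congr 1
      field_simp

/-- Points of the base are frontier points. -/
theorem seg_frontier {w x h s : ℝ} (hx0 : 0 ≤ x) (hxw : x ≤ w) (hh : 0 ≤ h) (hs0 : 0 ≤ s)
    (hsw : s ≤ w) : (s : ℂ) ∈ frontier (tri w x h) := by
  apply mem_frontier_of_max (n := -Complex.I) (tri_seg hs0 hsw) (by simp)
  intro y hy
  have := (tri_box hx0 hxw hh hy).2.2.1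
  simp [Complex.inner, this]

/-- The apex is a frontier point. -/
theorem apex_frontier {w x h : ℝ} (hx0 : 0 ≤ x) (hxw : x ≤ w) (hh : 0 ≤ h) :
    (⟨x, h⟩ : ℂ) ∈ frontier (tri w x h) := by
  apply mem_frontier_of_max (n := Complex.I) (tri_apex w x h) (by simp)
  intro y hy
  have := (tri_box hx0 hxw hh hy).2.2.2
  simp [Complex.inner, this]

theorem normSq_sub (a c : ℂ) : ‖a - c‖ ^ 2 = (a.re - c.re) ^ 2 + (a.im - c.im) ^ 2 := by
  rw [Complex.sq_norm, Complex.normSq_apply]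
  simp
  ring

end Pool.Agent.Saus2
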