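import Pool.Agent.Saus2.AStarL
import Pool.Agent.Saus2.ATri

/-!
# The measure `A*`

Atoms `β/2` at `B = 0` and at the apex `X = x + ih`, density `1/π` on `[1, w-1]` of the base, atom
`58/125` at `A = w`; `β = 131/500 + 3h/10 - x/10`.
-/

set_option autoImplicit false

namespace Pool.Agent.Saus2

open MeasureTheory Set Metric Filter Topology Real
open scoped InnerProductSpace

/-- The load of `A*`. -/
theorem astar_load {w x h a y : ℝ} (hx0 : 0 ≤ x) (hw : 2 ≤ w) (hh : h ^ 2 ≤ 3)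
    (hb : 4 ≤ (w - x) ^ 2 + h ^ 2)
    (hreg : (x ≤ 3 / 4 ∧ 17 / 25 ≤ h) ∨ (x ≤ 9 / 10 ∧ 1 ≤ h)) (ha : 0 ≤ a) (hy : 0 ≤ y)
    (hyh : y ≤ h) :
    (131 / 500 + 3 / 10 * h - 1 / 10 * x) *
      (√(1 - (a ^ 2 + y ^ 2)) + √(1 - ((a - x) ^ 2 + (h - y) ^ 2))) +
      116 / 125 * √(1 - ((w - a) ^ 2 + y ^ 2)) +
      2 / π * ∫ s in (1:ℝ)..(w - 1), √(1 - ((s - a) ^ 2 + y ^ 2)) ≤ 1 := by
  have hx9 : x ≤ 9 / 10 := by
    rcases hreg with h1 | h1 <;> linarith [h1.1]
  have hh0 : 17 / 25 ≤ h := by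
    rcases hreg with h1 | h1 <;> linarith [h1.2]
  have hh1 : h ≤ 17321 / 10000 := by
    clear hb hreg hw
    nlinarith
  have hβ0 : 0 ≤ 131 / 500 + 3 / 10 * h - 1 / 10 * x := by linarith
  have hβ1 : 131 / 500 + 3 / 10 * h - 1 / 10 * x ≤ 116 / 125 := by linarith
  have hβ2 : 131 / 500 + 3 / 10 * h - 1 / 10 * x ≤ 1 := by linarith
  rcases le_or_gt 1 ((a - x) ^ 2 + (h - y) ^ 2) with hX | hX
  · -- the apex is not visible
    rw [Real.sqrt_eq_zero_of_nonpos (by linarith : 1 - ((a - x) ^ 2 + (h - y) ^ 2) ≤ 0), add_zero]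
    have h1 := t1_load_height (w := w) (u := a) (v := y) hw
    have h2 : √(1 - y ^ 2) ≤ 1 := by
      apply Real.sqrt_le_one.mpr
      linarith [sq_nonneg y]
    have h3 := mul_le_mul_of_nonneg_right hβ1 (Real.sqrt_nonneg (1 - (a ^ 2 + y ^ 2)))
    linarith
  -- `A` is not visible
  have hA : 1 - ((w - a) ^ 2 + y ^ 2) ≤ 0 := by
    have e : (w - x) ^ 2 + h ^ 2 = 2 * ((a - x) ^ 2 + (h - y) ^ 2) + 2 * ((w - a) ^ 2 + y ^ 2) -
        ((w - a) - (a - x)) ^ 2 - (y - (h - y)) ^ 2 := by ring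
    have e1 := sq_nonneg ((w - a) - (a - x))
    have e2 := sq_nonneg (y - (h - y))
    linarith
  rw [Real.sqrt_eq_zero_of_nonpos hA, mul_zero, add_zero]
  have hD := mul_le_mul_of_nonneg_left (astar_half (a := a) (b := w - 1) (y := y) (by linarith))
    (by positivity : 0 ≤ 2 / π)
  refine (add_le_add_right hD _).trans ?_
  clear hD
  set v := √(1 - ((a - x) ^ 2 + (h - y) ^ 2)) with hv
  have hv0 : 0 ≤ v := Real.sqrt_nonneg _
  have hv2 : v ^ 2 = 1 - ((a - x) ^ 2 + (h - y) ^ 2) := Real.sq_sqrt (by linarith)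
  have hv1 : v ≤ 1 := by
    apply Real.sqrt_le_one.mpr
    linarith [sq_nonneg (a - x), sq_nonneg (h - y)]
  have hβv : (131 / 500 + 3 / 10 * h - 1 / 10 * x) * v ≤ 1 := mul_le_one₀ hβ2 hv0 hv1
  rcases le_or_gt a 1 with ha1 | ha1
  · -- `a ≤ 1`
    rcases le_or_gt (a ^ 2 + y ^ 2) 1 with hB | hB
    · -- `B` is visible
      have hy1 : y ≤ 1 := by
        have h1 : y ^ 2 ≤ 1 := by linarith [sq_nonneg a]
        exact (sq_le_one_iff₀ hy).1 h1
      rcases le_or_gt (y ^ 2) (2 * a - a ^ 2) with hd | hd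
      · have h1 := astar_D1 ha ha1 hd
        have h2 := astar_both (a := a) (y := y) (η := h - y) (z := a - x) ha ha1 hy hy1 hB hX.le
        rw [← hv] at h2
        have e : 131 / 500 + 3 / 10 * y - 1 / 10 * a + (3 / 10 * (h - y) + 1 / 10 * (a - x)) =
            131 / 500 + 3 / 10 * h - 1 / 10 * x := by ring
        rw [e] at h2
        linarith
      · have hz : 1 - y ^ 2 ≤ (1 - a) ^ 2 := by
          have e : (1 - a) ^ 2 = 1 - 2 * a + a ^ 2 := by ring
          rw [e]
          linarith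
        rw [astar_zero (by linarith) (by linarith) hz, mul_zero, add_zero]
        exact astar_both0 hx0 (by linarith) (by linarith) hh hB hX.le
    · -- `B` is not visible
      rw [Real.sqrt_eq_zero_of_nonpos (by linarith : 1 - (a ^ 2 + y ^ 2) ≤ 0), zero_add]
      rcases le_or_gt (y ^ 2) (2 * a - a ^ 2) with hd | hd
      · have h1 := astar_D1 ha ha1 hd
        have h2 : (13 / 100 + 18 / 100 * a + 20 / 100 * a ^ 2) * (2 * a - a ^ 2 - y ^ 2) ≤
            51 / 100 * (1 - y ^ 2) := by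
          have ha2 : a ^ 2 ≤ 1 := pow_le_one₀ ha ha1
          have e := sq_nonneg (a - 1)
          have e2 : (a - 1) ^ 2 = a ^ 2 - 2 * a + 1 := by ring
          rw [e2] at e
          apply mul_le_mul
          · linarith
          · linarith
          · linarith
          · norm_num
        -- `β v ≤ B0 + k / 2`
        set ρ := √((a - x) ^ 2 + (h - y) ^ 2) with hρ
        have hρ0 : 0 ≤ ρ := Real.sqrt_nonneg _
        have hρ2 : ρ ^ 2 = (a - x) ^ 2 + (h - y) ^ 2 := Real.sq_sqrt (by positivity)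
        have hlin : 3 / 10 * (h - y) + 1 / 10 * (a - x) ≤ 19 / 60 * ρ := by
          refine (le_abs_self _).trans (abs_le_of_sq_le_sq ?_ (by positivity))
          rw [mul_pow, hρ2]
          have e1 := sq_nonneg (3 / 10 * (a - x) - 1 / 10 * (h - y))
          have e2 := sq_nonneg (a - x)
          have e3 := sq_nonneg (h - y)
          have e4 : (19 / 60 : ℝ) ^ 2 * ((a - x) ^ 2 + (h - y) ^ 2) -
              (3 / 10 * (h - y) + 1 / 10 * (a - x)) ^ 2 =
              (3 / 10 * (a - x) - 1 / 10 * (h - y)) ^ 2 +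
              ((19 / 60) ^ 2 - 1 / 10) * ((a - x) ^ 2 + (h - y) ^ 2) := by ring
          have e5 : 0 ≤ ((19 / 60 : ℝ) ^ 2 - 1 / 10) * ((a - x) ^ 2 + (h - y) ^ 2) :=
            mul_nonneg (by norm_num) (by linarith)
          linarith
        have h3 : ρ * v ≤ 1 / 2 := by
          have e1 := sq_nonneg (ρ - v)
          have e2 : (ρ - v) ^ 2 = ρ ^ 2 + v ^ 2 - 2 * (ρ * v) := by ring
          rw [e2, hρ2, hv2] at e1
          linarith
        have h4 : (131 / 500 + 3 / 10 * h - 1 / 10 * x) * v ≤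
            (131 / 500 + 3 / 10 * y) + 19 / 60 * (1 / 2) := by
          have h5 : 131 / 500 + 3 / 10 * h - 1 / 10 * x ≤
              131 / 500 + 3 / 10 * y + 19 / 60 * ρ := by linarith
          have h6 := mul_le_mul_of_nonneg_right h5 hv0
          have h7 : (131 / 500 + 3 / 10 * y) * v ≤ (131 / 500 + 3 / 10 * y) * 1 :=
            mul_le_mul_of_nonneg_left hv1 (by positivity)
          have e : (131 / 500 + 3 / 10 * y + 19 / 60 * ρ) * v =
              (131 / 500 + 3 / 10 * y) * v + 19 / 60 * (ρ * v) := by ring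
          rw [e] at h6
          linarith
        have h8 := sq_nonneg (y - 15 / 51)
        have h9 : 51 / 100 * (1 - y ^ 2) + (131 / 500 + 3 / 10 * y + 19 / 60 * (1 / 2)) ≤ 1 := by
          have e2 : (y - 15 / 51) ^ 2 = y ^ 2 - 30 / 51 * y + (15 / 51) ^ 2 := by ring
          rw [e2] at h8
          linarith
        linarith
      · have hz : 1 - y ^ 2 ≤ (1 - a) ^ 2 := by
          have e : (1 - a) ^ 2 = 1 - 2 * a + a ^ 2 := by ring
          rw [e]
          linarith
        rw [astar_zero (by linarith) (by linarith) hz, mul_zero, add_zero]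
        exact hβv
  · -- `a > 1`
    have ha2 : 1 ≤ a ^ 2 := one_le_pow₀ ha1.le
    rw [Real.sqrt_eq_zero_of_nonpos (by linarith [sq_nonneg y] : 1 - (a ^ 2 + y ^ 2) ≤ 0),
      zero_add]
    clear ha2
    obtain ⟨τ, rfl⟩ : ∃ τ, a = 1 + τ := ⟨a - 1, by ring⟩
    have hτ0 : 0 ≤ τ := by linarith
    have hτ1 : τ ≤ 1 := by
      by_contra hcon
      push Not at hcon
      have e1 : 1 ≤ 1 + τ - x := by linarith
      have e2 : 1 ≤ (1 + τ - x) ^ 2 := one_le_pow₀ e1
      linarith [sq_nonneg (h - y)]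
    rcases le_or_gt (y ^ 2) 1 with hy1 | hy1
    · have h1 := astar_D2 hτ0 hτ1 hy1
      have hp1 : (3.14159 : ℝ) < π := by
        have := Real.pi_gt_d6
        linarith
      have hp2 : π < (3.141593 : ℝ) := Real.pi_lt_d6
      have h2 : 2 / π * (τ - τ ^ 3 / 6) ≤ 63663 / 100000 * τ - 10609 / 100000 * τ ^ 3 := by
        have k1 : 2 / π ≤ 63663 / 100000 := by
          rw [div_le_div_iff₀ Real.pi_pos (by norm_num)]
          linarith
        have k2 : 10609 / 100000 * 6 ≤ 2 / π := by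
          rw [le_div_iff₀ Real.pi_pos]
          linarith
        have k3 : 0 ≤ τ ^ 3 := pow_nonneg hτ0 3
        have k4 := mul_le_mul_of_nonneg_right k1 hτ0
        have k5 := mul_le_mul_of_nonneg_right k2 k3
        nlinarith
      have h3 : 0 ≤ τ / π * y ^ 2 := by positivity
      have h4 : (131 / 500 + 3 / 10 * h - 1 / 10 * x) * v ≤
          2 / 3 * (131 / 500 + 3 / 10 * h - 1 / 10 * x) ^ 2 + 3 / 8 * v ^ 2 := by
        have e := sq_nonneg (4 / 3 * (131 / 500 + 3 / 10 * h - 1 / 10 * x) - v)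
        have e2 : 2 / 3 * (131 / 500 + 3 / 10 * h - 1 / 10 * x) ^ 2 + 3 / 8 * v ^ 2 -
            (131 / 500 + 3 / 10 * h - 1 / 10 * x) * v =
            3 / 8 * (4 / 3 * (131 / 500 + 3 / 10 * h - 1 / 10 * x) - v) ^ 2 := by ring
        linarith
      rw [hv2] at h4
      have h5 : 2 / 3 * (131 / 500 + 3 / 10 * h - 1 / 10 * x) ^ 2 +
          3 / 8 * (1 - (1 + τ - x) ^ 2 - (h - y) ^ 2) +
          (1 - y ^ 2) / 2 + 63663 / 100000 * τ - 10609 / 100000 * τ ^ 3 ≤ 1 := by
        rcases hreg with hr | hr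
        · exact astar_X1 hr.1 hr.2 hh1 hτ0
        · exact astar_X2 hr.1 hr.2 hh1 hτ0
      linarith
    · have h1 : ∫ t in (1 - (1 + τ))..1, √(1 - y ^ 2 - t ^ 2) = 0 := by
        rw [intervalIntegral.integral_congr (g := fun _ => (0:ℝ))]
        · simp
        · intro t _
          apply Real.sqrt_eq_zero_of_nonpos
          linarith [sq_nonneg t]
      rw [h1, mul_zero, add_zero]
      exact hβv

/-- **`A*` is admissible.** -/
theorem adm_Astar {w x h : ℝ} (hx0 : 0 ≤ x) (hw : 2 ≤ w) (hh : h ^ 2 ≤ 3)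
    (hb : 4 ≤ (w - x) ^ 2 + h ^ 2)
    (hreg : (x ≤ 3 / 4 ∧ 17 / 25 ≤ h) ∨ (x ≤ 9 / 10 ∧ 1 ≤ h)) :
    Adm (tri w x h) ((131 / 500 + 3 / 10 * h - 1 / 10 * x) + 58 / 125 + (w - 2) / π) := by
  have hx9 : x ≤ 9 / 10 := by
    rcases hreg with h1 | h1 <;> linarith [h1.1]
  have hh0 : 17 / 25 ≤ h := by
    rcases hreg with h1 | h1 <;> linarith [h1.2]
  have hβ0 : 0 ≤ 131 / 500 + 3 / 10 * h - 1 / 10 * x := by linarith
  set β := 131 / 500 + 3 / 10 * h - 1 / 10 * x with hβ
  have hxw : x ≤ w := by linarith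
  have hh0' : 0 ≤ h := by linarith
  have key := adm_of_atoms_curves (K := tri w x h) (ι := Fin 3) (κ := Fin 1)
    ![β / 2, β / 2, 58 / 125] ![((0 : ℝ) : ℂ), (⟨x, h⟩ : ℂ), (w : ℂ)]
    (by
      intro i
      fin_cases i
      · exact div_nonneg hβ0 zero_le_two
      · exact div_nonneg hβ0 zero_le_two
      · exact (by norm_num : (0:ℝ) ≤ 58 / 125))
    (by
      intro i
      fin_cases i
      · exact seg_frontier hx0 hxw hh0' le_rfl (by linarith)
      · exact apex_frontier hx0 hxw hh0'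
      · exact seg_frontier hx0 hxw hh0' (by linarith) le_rfl)
    (fun _ => 1) (fun _ => w - 1) (fun _ => by linarith) (fun _ _ => 1 / π)
    (fun _ => continuousOn_const) (fun _ _ _ => by positivity)
    (fun _ s => ((s : ℝ) : ℂ)) (fun _ => Complex.continuous_ofReal.continuousOn)
    (fun _ s hs => seg_frontier hx0 hxw hh0' (by linarith [hs.1]) (by linarith [hs.2]))
    (by
      intro c hc
      obtain ⟨c1, c2, c3, c4⟩ := tri_box hx0 hxw hh0' hc
      have h1 := astar_load (a := c.re) (y := c.im) hx0 hw hh hb hreg c1 c3 c4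
      rw [Fin.sum_univ_three, Fin.sum_univ_one]
      have e0 : ‖((0 : ℝ) : ℂ) - c‖ ^ 2 = c.re ^ 2 + c.im ^ 2 := by
        rw [normSq_sub]
        simp
      have e1 : ‖(⟨x, h⟩ : ℂ) - c‖ ^ 2 = (c.re - x) ^ 2 + (h - c.im) ^ 2 := by
        rw [normSq_sub]
        simp only
        ring
      have e2 : ‖(w : ℂ) - c‖ ^ 2 = (w - c.re) ^ 2 + c.im ^ 2 := by
        rw [normSq_sub]
        simp
      have e3 : ∀ s : ℝ, ‖(s : ℂ) - c‖ ^ 2 = (s - c.re) ^ 2 + c.im ^ 2 := by
        intro s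
        rw [normSq_sub]
        simp
      have e4 : ∫ t in (1:ℝ)..(w - 1), 1 / π * (2 * √(1 - ‖(t : ℂ) - c‖ ^ 2)) =
          2 / π * ∫ s in (1:ℝ)..(w - 1), √(1 - ((s - c.re) ^ 2 + c.im ^ 2)) := by
        rw [← intervalIntegral.integral_const_mul]
        apply intervalIntegral.integral_congr
        intro s _
        simp only
        rw [e3]
        ring
      simp only [Matrix.cons_val_zero, Matrix.cons_val_one, Matrix.cons_val]
      rw [e0, e1, e2, e4]
      rw [← hβ] at h1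
      linarith)
  rw [Fin.sum_univ_three, Fin.sum_univ_one] at key
  simp only [Matrix.cons_val_zero, Matrix.cons_val_one, Matrix.cons_val] at key
  rw [intervalIntegral.integral_const] at key
  refine key.mono (le_of_eq ?_)
  simp only [smul_eq_mul]
  field_simp
  ring

end Pool.Agent.Saus2
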