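import Pool.Agent.Saus2.T1

/-!
# The density of `A*`

Bounds for the load of the density `1/π` on `[1, b]` of the base line at the centre `(a, y)`.
-/

set_option autoImplicit false

namespace Pool.Agent.Saus2

open MeasureTheory Set Real intervalIntegral

theorem astar_cont (q : ℝ) : Continuous fun t : ℝ => √(1 - q - t ^ 2) := by
  fun_prop

/-- Passage to the half line. -/
theorem astar_half {a b y : ℝ} (hb : 1 ≤ b) :
    ∫ s in (1:ℝ)..b, √(1 - ((s - a) ^ 2 + y ^ 2)) ≤ ∫ t in (1 - a)..1, √(1 - y ^ 2 - t ^ 2) := by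
  have hc : Continuous fun s : ℝ => √(1 - ((s - a) ^ 2 + y ^ 2)) := by fun_prop
  have hii : ∀ p q : ℝ, IntervalIntegrable (fun s : ℝ => √(1 - ((s - a) ^ 2 + y ^ 2)))
      volume p q := fun p q => hc.intervalIntegrable p q
  have hz : ∀ p q : ℝ, 1 + a ≤ p → p ≤ q → ∫ s in p..q, √(1 - ((s - a) ^ 2 + y ^ 2)) = 0 := by
    intro p q hp hpq
    rw [intervalIntegral.integral_congr (g := fun _ => (0:ℝ))]
    · simp
    · intro s hs
      rw [uIcc_of_le hpq] at hs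
      apply Real.sqrt_eq_zero_of_nonpos
      nlinarith [hs.1, sq_nonneg y]
  have h1 : ∫ s in (1:ℝ)..b, √(1 - ((s - a) ^ 2 + y ^ 2)) ≤
      ∫ s in (1:ℝ)..(1 + a), √(1 - ((s - a) ^ 2 + y ^ 2)) := by
    rcases le_or_gt b (1 + a) with h2 | h2
    · apply intervalIntegral.integral_mono_interval le_rfl hb h2
      · exact Filter.Eventually.of_forall fun s => Real.sqrt_nonneg _
      · exact hii _ _
    · rw [← intervalIntegral.integral_add_adjacent_intervals (hii 1 (1 + a)) (hii (1 + a) b),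
        hz (1 + a) b le_rfl h2.le]
      linarith
  refine h1.trans (le_of_eq ?_)
  have := intervalIntegral.integral_comp_sub_right (fun t : ℝ => √(1 - y ^ 2 - t ^ 2)) a
    (a := 1) (b := 1 + a)
  have e1 : (1:ℝ) + a - a = 1 := by ring
  rw [e1] at this
  rw [← this]
  apply intervalIntegral.integral_congr
  intro s _
  simp only
  congr 1
  ring

/-- No load. -/
theorem astar_zero {d q : ℝ} (hd1 : d ≤ 1) (hd0 : 0 ≤ d) (h : 1 - q ≤ d ^ 2) :
    ∫ t in d..1, √(1 - q - t ^ 2) = 0 := by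
  rw [intervalIntegral.integral_congr (g := fun _ => (0:ℝ))]
  · simp
  · intro t ht
    rw [uIcc_of_le hd1] at ht
    apply Real.sqrt_eq_zero_of_nonpos
    nlinarith [ht.1]

theorem astar_poly1 {s : ℝ} (h0 : 0 ≤ s) (h1 : s ≤ 1) :
    90032 / 100000 * (2 * s ^ 3 / 3 - s ^ 5 / 10 - s ^ 7 / 112) ≤
      (13 / 100 + 18 / 100 * s ^ 2 + 20 / 100 * s ^ 4) * (s ^ 2 * (2 - s ^ 2)) := by
  have key : 0 ≤ 26 / 100 - 60022 / 100000 * s + 23 / 100 * s ^ 2 + 9 / 100 * s ^ 3 +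
      22 / 100 * s ^ 4 + 8 / 1000 * s ^ 5 - 20 / 100 * s ^ 6 := by
    rcases le_total s (1 / 2) with h | h
    · have h2 : 0 ≤ 1 / 2 - s := by linarith
      have e : 26 / 100 - 60022 / 100000 * s + 23 / 100 * s ^ 2 + 9 / 100 * s ^ 3 +
          22 / 100 * s ^ 4 + 8 / 1000 * s ^ 5 - 20 / 100 * s ^ 6 =
          416 / 25 * (1 / 2 - s) ^ 6 + 251978 / 3125 * s * (1 / 2 - s) ^ 5 +
          98278 / 625 * s ^ 2 * (1 / 2 - s) ^ 4 + 97606 / 625 * s ^ 3 * (1 / 2 - s) ^ 3 +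
          51656 / 625 * s ^ 4 * (1 / 2 - s) ^ 2 + 14038 / 625 * s ^ 5 * (1 / 2 - s) +
          7903 / 3125 * s ^ 6 := by ring
      rw [e]
      positivity
    · have h2 : 0 ≤ 1 - s := by linarith
      have h3 : 0 ≤ s - 1 / 2 := by linarith
      have e : 26 / 100 - 60022 / 100000 * s + 23 / 100 * s ^ 2 + 9 / 100 * s ^ 3 +
          22 / 100 * s ^ 4 + 8 / 1000 * s ^ 5 - 20 / 100 * s ^ 6 =
          7903 / 3125 * (1 - s) ^ 6 + 24646 / 3125 * (s - 1 / 2) * (1 - s) ^ 5 +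
          6112 / 625 * (s - 1 / 2) ^ 2 * (1 - s) ^ 4 + 7018 / 625 * (s - 1 / 2) ^ 3 * (1 - s) ^ 3 +
          1738 / 125 * (s - 1 / 2) ^ 4 * (1 - s) ^ 2 + 24358 / 3125 * (s - 1 / 2) ^ 5 * (1 - s) +
          1556 / 3125 * (s - 1 / 2) ^ 6 := by ring
      rw [e]
      positivity
  have h3 := mul_nonneg (sq_nonneg s) key
  have h4 : 0 ≤ s ^ 7 := pow_nonneg h0 7
  have h5 : 0 ≤ s ^ 5 := pow_nonneg h0 5
  have h6 : 0 ≤ s ^ 3 := pow_nonneg h0 3
  have e : (13 / 100 + 18 / 100 * s ^ 2 + 20 / 100 * s ^ 4) * (s ^ 2 * (2 - s ^ 2)) -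
      90032 / 100000 * (2 * s ^ 3 / 3 - s ^ 5 / 10 - s ^ 7 / 112) =
      s ^ 2 * (26 / 100 - 60022 / 100000 * s + 23 / 100 * s ^ 2 + 9 / 100 * s ^ 3 +
      22 / 100 * s ^ 4 + 8 / 1000 * s ^ 5 - 20 / 100 * s ^ 6) +
      (60022 / 100000 - 90032 / 150000) * s ^ 3 + (90032 / 1000000 - 9 / 100) * s ^ 5 +
      (90032 / 11200000 - 8 / 1000) * s ^ 7 := by ring
  have h7 : 0 ≤ (60022 / 100000 - 90032 / 150000) * s ^ 3 + (90032 / 1000000 - 9 / 100) * s ^ 5 +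
      (90032 / 11200000 - 8 / 1000) * s ^ 7 := by
    have e1 : (0:ℝ) ≤ 60022 / 100000 - 90032 / 150000 := by norm_num
    have e2 : (0:ℝ) ≤ 90032 / 1000000 - 9 / 100 := by norm_num
    have e3 : (0:ℝ) ≤ 90032 / 11200000 - 8 / 1000 := by norm_num
    have f1 := mul_nonneg e1 h6
    have f2 := mul_nonneg e2 h5
    have f3 := mul_nonneg e3 h4
    linarith
  linarith

/-- Upper bound in the case `a ≤ 1`. -/
theorem astar_D1 {a y : ℝ} (ha0 : 0 ≤ a) (ha1 : a ≤ 1) (hy : y ^ 2 ≤ 2 * a - a ^ 2) :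
    2 / π * ∫ t in (1 - a)..1, √(1 - y ^ 2 - t ^ 2) ≤
      (13 / 100 + 18 / 100 * a + 20 / 100 * a ^ 2) * (2 * a - a ^ 2 - y ^ 2) := by
  rcases eq_or_lt_of_le hy with hy | hy
  · rw [astar_zero (by linarith) (by linarith) (by nlinarith)]
    rw [hy]
    simp
  have hy1 : y ^ 2 < 1 := by nlinarith [sq_nonneg (1 - a)]
  set ρ := √(1 - y ^ 2) with hρ
  have hρ2 : ρ ^ 2 = 1 - y ^ 2 := Real.sq_sqrt (by linarith)
  have hρ0 : 0 < ρ := Real.sqrt_pos.mpr (by linarith)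
  have hρ1 : ρ ≤ 1 := by
    apply Real.sqrt_le_one.mpr
    nlinarith [sq_nonneg y]
  have hd : 1 - a < ρ := by
    apply lt_of_pow_lt_pow_left₀ 2 hρ0.le
    rw [hρ2]
    nlinarith
  have hc := astar_cont (y ^ 2)
  have h1 : ∫ t in (1 - a)..1, √(1 - y ^ 2 - t ^ 2) =
      ∫ t in (1 - a)..ρ, √(1 - y ^ 2 - t ^ 2) := by
    rw [← intervalIntegral.integral_add_adjacent_intervals
      (hc.intervalIntegrable (1 - a) ρ) (hc.intervalIntegrable ρ 1),
      astar_zero hρ1 hρ0.le (by rw [hρ2])]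
    ring
  have h2 : ∫ t in (1 - a)..ρ, √(1 - y ^ 2 - t ^ 2) =
      ρ ^ 2 * ∫ s in ((1 - a) / ρ)..1, √(1 - s ^ 2) := by
    have : ρ * ∫ x in ((1 - a) / ρ)..1, √(1 - y ^ 2 - (ρ * x) ^ 2) =
        ∫ x in (ρ * ((1 - a) / ρ))..(ρ * 1), √(1 - y ^ 2 - x ^ 2) :=
      intervalIntegral.mul_integral_comp_mul_left (f := fun t : ℝ => √(1 - y ^ 2 - t ^ 2)) ρ
    have e1 : ρ * ((1 - a) / ρ) = 1 - a := by field_simp
    rw [e1, mul_one] at this
    rw [← this, ← intervalIntegral.integral_const_mul, ← intervalIntegral.integral_const_mul]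
    apply intervalIntegral.integral_congr
    intro s _
    simp only
    have e2 : 1 - y ^ 2 - (ρ * s) ^ 2 = ρ ^ 2 * (1 - s ^ 2) := by
      rw [← hρ2]
      ring
    rw [e2, Real.sqrt_mul (sq_nonneg ρ), Real.sqrt_sq hρ0.le]
    ring
  set u := (1 - a) / ρ with hu
  have hu0 : 0 ≤ u := div_nonneg (by linarith) hρ0.le
  have hu1 : u ≤ 1 := by
    rw [hu, div_le_one hρ0]
    exact hd.le
  have hud : 1 - a ≤ u := by
    rw [hu, le_div_iff₀ hρ0]
    nlinarith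
  set s := √(1 - u) with hs
  have hs0 : 0 ≤ s := Real.sqrt_nonneg _
  have hs1 : s ≤ 1 := Real.sqrt_le_one.mpr (by linarith)
  have hs2 : s ^ 2 = 1 - u := Real.sq_sqrt (by linarith)
  have hs4 : s ^ 4 = (1 - u) ^ 2 := by
    rw [← hs2]
    ring
  have h3 := cap_le s hs0 hs1
  have e3 : 1 - s ^ 2 = u := by
    rw [hs2]
    ring
  rw [e3] at h3
  have hk : 2 / π * √2 ≤ 90032 / 100000 := by
    have h2 : √2 ≤ 1.414214 := by
      rw [Real.sqrt_le_left (by norm_num)]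
      norm_num
    have hp : (3.14159 : ℝ) < π := by
      have := Real.pi_gt_d6
      linarith
    rw [div_mul_eq_mul_div, div_le_iff₀ Real.pi_pos]
    nlinarith
  have hB0 : 0 ≤ 2 * s ^ 3 / 3 - s ^ 5 / 10 - s ^ 7 / 112 := by
    have h5 : s ^ 5 ≤ s ^ 3 := pow_le_pow_of_le_one hs0 hs1 (by norm_num)
    have h7 : s ^ 7 ≤ s ^ 3 := pow_le_pow_of_le_one hs0 hs1 (by norm_num)
    have h6 : 0 ≤ s ^ 3 := pow_nonneg hs0 3
    linarith
  have h4 : 2 / π * ∫ s in u..1, √(1 - s ^ 2) ≤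
      (13 / 100 + 18 / 100 * s ^ 2 + 20 / 100 * s ^ 4) * (s ^ 2 * (2 - s ^ 2)) := by
    calc 2 / π * ∫ s in u..1, √(1 - s ^ 2)
        ≤ 2 / π * (√2 * (2 * s ^ 3 / 3 - s ^ 5 / 10 - s ^ 7 / 112)) :=
          mul_le_mul_of_nonneg_left h3 (by positivity)
      _ = 2 / π * √2 * (2 * s ^ 3 / 3 - s ^ 5 / 10 - s ^ 7 / 112) := by ring
      _ ≤ 90032 / 100000 * (2 * s ^ 3 / 3 - s ^ 5 / 10 - s ^ 7 / 112) :=
          mul_le_mul_of_nonneg_right hk hB0
      _ ≤ _ := astar_poly1 hs0 hs1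
  have h5 : (13 / 100 + 18 / 100 * s ^ 2 + 20 / 100 * s ^ 4) ≤
      (13 / 100 + 18 / 100 * a + 20 / 100 * a ^ 2) := by
    rw [hs4, hs2]
    nlinarith
  have h6 : 0 ≤ s ^ 2 * (2 - s ^ 2) := by
    rw [hs2]
    nlinarith
  have h7 : ρ ^ 2 * (s ^ 2 * (2 - s ^ 2)) = 2 * a - a ^ 2 - y ^ 2 := by
    have e4 : ρ * u = 1 - a := by
      rw [hu]
      field_simp
    have e5 : ρ ^ 2 * (s ^ 2 * (2 - s ^ 2)) = ρ ^ 2 - (ρ * u) ^ 2 := by
      rw [hs2]
      ring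
    rw [e5, e4, hρ2]
    ring
  rw [h1, h2]
  calc 2 / π * (ρ ^ 2 * ∫ s in u..1, √(1 - s ^ 2))
      = ρ ^ 2 * (2 / π * ∫ s in u..1, √(1 - s ^ 2)) := by ring
    _ ≤ ρ ^ 2 * ((13 / 100 + 18 / 100 * s ^ 2 + 20 / 100 * s ^ 4) * (s ^ 2 * (2 - s ^ 2))) :=
        mul_le_mul_of_nonneg_left h4 (sq_nonneg ρ)
    _ ≤ ρ ^ 2 * ((13 / 100 + 18 / 100 * a + 20 / 100 * a ^ 2) * (s ^ 2 * (2 - s ^ 2))) :=
        mul_le_mul_of_nonneg_left (mul_le_mul_of_nonneg_right h5 h6) (sq_nonneg ρ)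
    _ = (13 / 100 + 18 / 100 * a + 20 / 100 * a ^ 2) * (ρ ^ 2 * (s ^ 2 * (2 - s ^ 2))) := by ring
    _ = _ := by rw [h7]

/-- Upper bound in the case `a = 1 + τ ≥ 1`. -/
theorem astar_D2 {τ y : ℝ} (h0 : 0 ≤ τ) (h1 : τ ≤ 1) (hy : y ^ 2 ≤ 1) :
    2 / π * ∫ t in (1 - (1 + τ))..1, √(1 - y ^ 2 - t ^ 2) ≤
      (1 - y ^ 2) / 2 + 2 / π * (τ - τ ^ 3 / 6) - τ / π * y ^ 2 := by
  have hc := astar_cont (y ^ 2)
  have e0 : 1 - (1 + τ) = -τ := by ring
  rw [e0, ← intervalIntegral.integral_add_adjacent_intervals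
      (hc.intervalIntegrable (-τ) 0) (hc.intervalIntegrable 0 1)]
  have h2 : ∫ t in (-τ)..0, √(1 - y ^ 2 - t ^ 2) ≤ τ - τ ^ 3 / 6 - y ^ 2 * τ / 2 := by
    have h3 : ∫ t in (-τ)..0, √(1 - y ^ 2 - t ^ 2) ≤
        ∫ t in (-τ)..0, (1 - y ^ 2 / 2 - t ^ 2 / 2) := by
      apply intervalIntegral.integral_mono_on (by linarith)
      · exact hc.intervalIntegrable _ _
      · apply Continuous.intervalIntegrable
        fun_prop
      · intro t ht
        have h4 : t ^ 2 ≤ 1 := by nlinarith [ht.1, ht.2]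
        apply Real.sqrt_le_iff.mpr
        constructor
        · linarith
        · nlinarith [sq_nonneg (y ^ 2 + t ^ 2)]
    refine h3.trans (le_of_eq ?_)
    have hd : ∀ t : ℝ, HasDerivAt (fun t : ℝ => (1 - y ^ 2 / 2) * t - t ^ 3 / 6)
        (1 - y ^ 2 / 2 - t ^ 2 / 2) t := by
      intro t
      have a1 := (hasDerivAt_id t).const_mul (1 - y ^ 2 / 2)
      have a2 := (hasDerivAt_pow 3 t).div_const 6
      refine (a1.sub a2).congr_deriv ?_
      norm_num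
      ring
    rw [intervalIntegral.integral_eq_sub_of_hasDerivAt (fun t _ => hd t)
      (by apply Continuous.intervalIntegrable; fun_prop)]
    ring
  have h5 : ∫ t in (0:ℝ)..1, √(1 - y ^ 2 - t ^ 2) ≤ π / 4 * (1 - y ^ 2) := by
    rcases eq_or_lt_of_le hy with hy | hy
    · rw [astar_zero zero_le_one le_rfl (by rw [hy]; norm_num), hy]
      simp
    set ρ := √(1 - y ^ 2) with hρ
    have hρ2 : ρ ^ 2 = 1 - y ^ 2 := Real.sq_sqrt (by linarith)
    have hρ0 : 0 < ρ := Real.sqrt_pos.mpr (by linarith)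
    have hρ1 : ρ ≤ 1 := by
      apply Real.sqrt_le_one.mpr
      nlinarith [sq_nonneg y]
    have h6 : ∫ t in (0:ℝ)..1, √(1 - y ^ 2 - t ^ 2) =
        ∫ t in (0:ℝ)..ρ, √(1 - y ^ 2 - t ^ 2) := by
      rw [← intervalIntegral.integral_add_adjacent_intervals
        (hc.intervalIntegrable 0 ρ) (hc.intervalIntegrable ρ 1),
        astar_zero hρ1 hρ0.le (by rw [hρ2])]
      ring
    have h7 : ∫ t in (0:ℝ)..ρ, √(1 - y ^ 2 - t ^ 2) =
        ρ ^ 2 * ∫ s in (0:ℝ)..1, √(1 - s ^ 2) := by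
      have : ρ * ∫ x in (0:ℝ)..1, √(1 - y ^ 2 - (ρ * x) ^ 2) =
          ∫ x in (ρ * 0)..(ρ * 1), √(1 - y ^ 2 - x ^ 2) :=
        intervalIntegral.mul_integral_comp_mul_left (f := fun t : ℝ => √(1 - y ^ 2 - t ^ 2)) ρ
      rw [mul_zero, mul_one] at this
      rw [← this, ← intervalIntegral.integral_const_mul, ← intervalIntegral.integral_const_mul]
      apply intervalIntegral.integral_congr
      intro s _
      simp only
      have e2 : 1 - y ^ 2 - (ρ * s) ^ 2 = ρ ^ 2 * (1 - s ^ 2) := by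
        rw [← hρ2]
        ring
      rw [e2, Real.sqrt_mul (sq_nonneg ρ), Real.sqrt_sq hρ0.le]
      ring
    have h8 : ∫ s in (0:ℝ)..1, √(1 - s ^ 2) = π / 4 := by
      have h9 := integral_sqrt_one_sub_sq
      have h10 : ∫ s in (-1:ℝ)..0, √(1 - s ^ 2) = ∫ s in (0:ℝ)..1, √(1 - s ^ 2) := by
        have := intervalIntegral.integral_comp_neg (fun s : ℝ => √(1 - s ^ 2)) (a := -1) (b := 0)
        simp only [neg_neg, neg_zero, neg_sq] at this
        rw [this]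
      have hc1 : Continuous fun s : ℝ => √(1 - s ^ 2) := by fun_prop
      rw [← intervalIntegral.integral_add_adjacent_intervals
        (hc1.intervalIntegrable (-1) 0) (hc1.intervalIntegrable 0 1), h10] at h9
      linarith
    rw [h6, h7, h8, hρ2]
    linarith
  have h6 := add_le_add h2 h5
  have h7 := mul_le_mul_of_nonneg_left h6 (by positivity : 0 ≤ 2 / π)
  refine h7.trans (le_of_eq ?_)
  field_simp
  ring

end Pool.Agent.Saus2
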