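import Mathlib

/-!
# The polynomial inequality of `A*`

Bernstein certificates on the four quarters of the unit square.
-/

set_option autoImplicit false

namespace Pool.Agent.Saus2

private theorem astar_P2_1 {a y : ℝ} (h1 : 0 ≤ a) (h2 : a ≤ 1 / 2) (h3 : 0 ≤ y) (h4 : y ≤ 1 / 2) :
    0 ≤ 1 - ((262 / 1000 + 3 / 10 * y - 1 / 10 * a) *
      (77 / 100 + (1 - (a ^ 2 + y ^ 2) / 2) / (77 / 100) + (68 / 100) ^ 2 / (2 * (77 / 100))) +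
      (19 / 60 * (77 / 100 + (1 - (a ^ 2 + y ^ 2) / 2) / (77 / 100) +
        (68 / 100) ^ 2 / (2 * (77 / 100))) -
        (262 / 1000 + 3 / 10 * y - 1 / 10 * a) * ((68 / 100) / (77 / 100))) ^ 2 *
        ((77 / 100) / (4 * (19 / 60) * (68 / 100))) +
      (13 / 100 + 18 / 100 * a + 20 / 100 * a ^ 2) * (2 * a - a ^ 2 - y ^ 2)) := by
  have a1 : 0 ≤ a - 0 := by linarith
  have a2 : 0 ≤ 1 / 2 - a := by linarith
  have a3 : 0 ≤ y - 0 := by linarith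
  have a4 : 0 ≤ 1 / 2 - y := by linarith
  have a5 : 0 ≤ a := h1
  have a6 : 0 ≤ y := h3
  have e : 1 - ((262 / 1000 + 3 / 10 * y - 1 / 10 * a) *
      (77 / 100 + (1 - (a ^ 2 + y ^ 2) / 2) / (77 / 100) + (68 / 100) ^ 2 / (2 * (77 / 100))) +
      (19 / 60 * (77 / 100 + (1 - (a ^ 2 + y ^ 2) / 2) / (77 / 100) +
        (68 / 100) ^ 2 / (2 * (77 / 100))) -
        (262 / 1000 + 3 / 10 * y - 1 / 10 * a) * ((68 / 100) / (77 / 100))) ^ 2 *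
        ((77 / 100) / (4 * (19 / 60) * (68 / 100))) +
      (13 / 100 + 18 / 100 * a + 20 / 100 * a ^ 2) * (2 * a - a ^ 2 - y ^ 2)) =
          (283397 / 7980) * (1 / 2 - a) ^ 4 * (1 / 2 - y) ^ 4 +
          (164669 / 1995) * (1 / 2 - a) ^ 4 * y * (1 / 2 - y) ^ 3 +
          (13593059 / 219450) * (1 / 2 - a) ^ 4 * y ^ 2 * (1 / 2 - y) ^ 2 +
          (2351509 / 109725) * (1 / 2 - a) ^ 4 * y ^ 3 * (1 / 2 - y) +
          (44111971 / 7461300) * (1 / 2 - a) ^ 4 * y ^ 4 +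
          (183271 / 1425) * a * (1 / 2 - a) ^ 3 * (1 / 2 - y) ^ 4 +
          (30621068 / 109725) * a * (1 / 2 - a) ^ 3 * y * (1 / 2 - y) ^ 3 +
          (1794146 / 9975) * a * (1 / 2 - a) ^ 3 * y ^ 2 * (1 / 2 - y) ^ 2 +
          (5423476 / 109725) * a * (1 / 2 - a) ^ 3 * y ^ 3 * (1 / 2 - y) +
          (4691101 / 266475) * a * (1 / 2 - a) ^ 3 * y ^ 4 +
          (5664389 / 31350) * a ^ 2 * (1 / 2 - a) ^ 2 * (1 / 2 - y) ^ 4 +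
          (41344486 / 109725) * a ^ 2 * (1 / 2 - a) ^ 2 * y * (1 / 2 - y) ^ 3 +
          (423166013 / 1865325) * a ^ 2 * (1 / 2 - a) ^ 2 * y ^ 2 * (1 / 2 - y) ^ 2 +
          (40257274 / 621775) * a ^ 2 * (1 / 2 - a) ^ 2 * y ^ 3 * (1 / 2 - y) +
          (16189193 / 532950) * a ^ 2 * (1 / 2 - a) ^ 2 * y ^ 4 +
          (1716499 / 15675) * a ^ 3 * (1 / 2 - a) * (1 / 2 - y) ^ 4 +
          (3358156 / 15675) * a ^ 3 * (1 / 2 - a) * y * (1 / 2 - y) ^ 3 +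
          (70520266 / 621775) * a ^ 3 * (1 / 2 - a) * y ^ 2 * (1 / 2 - y) ^ 2 +
          (838564 / 24225) * a ^ 3 * (1 / 2 - a) * y ^ 3 * (1 / 2 - y) +
          (2088253 / 88825) * a ^ 3 * (1 / 2 - a) * y ^ 4 +
          (26131909 / 1065900) * a ^ 4 * (1 / 2 - y) ^ 4 +
          (11817229 / 266475) * a ^ 4 * y * (1 / 2 - y) ^ 3 +
          (74809151 / 3730650) * a ^ 4 * y ^ 2 * (1 / 2 - y) ^ 2 +
          (146521 / 17765) * a ^ 4 * y ^ 3 * (1 / 2 - y) +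
          (2636527 / 355300) * a ^ 4 * y ^ 4 := by
    ring
  rw [e]
  positivity

private theorem astar_P2_2 {a y : ℝ} (h1 : 0 ≤ a) (h2 : a ≤ 1 / 2) (h3 : 1 / 2 ≤ y) (h4 : y ≤ 1) :
    0 ≤ 1 - ((262 / 1000 + 3 / 10 * y - 1 / 10 * a) *
      (77 / 100 + (1 - (a ^ 2 + y ^ 2) / 2) / (77 / 100) + (68 / 100) ^ 2 / (2 * (77 / 100))) +
      (19 / 60 * (77 / 100 + (1 - (a ^ 2 + y ^ 2) / 2) / (77 / 100) +
        (68 / 100) ^ 2 / (2 * (77 / 100))) -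
        (262 / 1000 + 3 / 10 * y - 1 / 10 * a) * ((68 / 100) / (77 / 100))) ^ 2 *
        ((77 / 100) / (4 * (19 / 60) * (68 / 100))) +
      (13 / 100 + 18 / 100 * a + 20 / 100 * a ^ 2) * (2 * a - a ^ 2 - y ^ 2)) := by
  have a1 : 0 ≤ a - 0 := by linarith
  have a2 : 0 ≤ 1 / 2 - a := by linarith
  have a3 : 0 ≤ y - 1 / 2 := by linarith
  have a4 : 0 ≤ 1 - y := by linarith
  have a5 : 0 ≤ a := h1
  have e : 1 - ((262 / 1000 + 3 / 10 * y - 1 / 10 * a) *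
      (77 / 100 + (1 - (a ^ 2 + y ^ 2) / 2) / (77 / 100) + (68 / 100) ^ 2 / (2 * (77 / 100))) +
      (19 / 60 * (77 / 100 + (1 - (a ^ 2 + y ^ 2) / 2) / (77 / 100) +
        (68 / 100) ^ 2 / (2 * (77 / 100))) -
        (262 / 1000 + 3 / 10 * y - 1 / 10 * a) * ((68 / 100) / (77 / 100))) ^ 2 *
        ((77 / 100) / (4 * (19 / 60) * (68 / 100))) +
      (13 / 100 + 18 / 100 * a + 20 / 100 * a ^ 2) * (2 * a - a ^ 2 - y ^ 2)) =
          (44111971 / 7461300) * (1 / 2 - a) ^ 4 * (1 - y) ^ 4 +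
          (16082763 / 621775) * (1 / 2 - a) ^ 4 * (y - 1 / 2) * (1 - y) ^ 3 +
          (280717819 / 3730650) * (1 / 2 - a) ^ 4 * (y - 1 / 2) ^ 2 * (1 - y) ^ 2 +
          (60462141 / 621775) * (1 / 2 - a) ^ 4 * (y - 1 / 2) ^ 3 * (1 - y) +
          (308478739 / 7461300) * (1 / 2 - a) ^ 4 * (y - 1 / 2) ^ 4 +
          (4691101 / 266475) * a * (1 / 2 - a) ^ 3 * (1 - y) ^ 4 +
          (56834188 / 621775) * a * (1 / 2 - a) ^ 3 * (y - 1 / 2) * (1 - y) ^ 3 +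
          (570415718 / 1865325) * a * (1 / 2 - a) ^ 3 * (y - 1 / 2) ^ 2 * (1 - y) ^ 2 +
          (255293524 / 621775) * a * (1 / 2 - a) ^ 3 * (y - 1 / 2) ^ 3 * (1 - y) +
          (328617211 / 1865325) * a * (1 / 2 - a) ^ 3 * (y - 1 / 2) ^ 4 +
          (16189193 / 532950) * a ^ 2 * (1 / 2 - a) ^ 2 * (1 - y) ^ 4 +
          (332525582 / 1865325) * a ^ 2 * (1 / 2 - a) ^ 2 * (y - 1 / 2) * (1 - y) ^ 3 +
          (808577 / 1425) * a ^ 2 * (1 / 2 - a) ^ 2 * (y - 1 / 2) ^ 2 * (1 - y) ^ 2 +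
          (1353735542 / 1865325) * a ^ 2 * (1 / 2 - a) ^ 2 * (y - 1 / 2) ^ 3 * (1 - y) +
          (161257973 / 532950) * a ^ 2 * (1 / 2 - a) ^ 2 * (y - 1 / 2) ^ 4 +
          (2088253 / 88825) * a ^ 3 * (1 / 2 - a) * (1 - y) ^ 4 +
          (40893868 / 266475) * a ^ 3 * (1 / 2 - a) * (y - 1 / 2) * (1 - y) ^ 3 +
          (292207914 / 621775) * a ^ 3 * (1 / 2 - a) * (y - 1 / 2) ^ 2 * (1 - y) ^ 2 +
          (1075095508 / 1865325) * a ^ 3 * (1 / 2 - a) * (y - 1 / 2) ^ 3 * (1 - y) +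
          (145454343 / 621775) * a ^ 3 * (1 / 2 - a) * (y - 1 / 2) ^ 4 +
          (2636527 / 355300) * a ^ 4 * (1 - y) ^ 4 +
          (238971 / 4675) * a ^ 4 * (y - 1 / 2) * (1 - y) ^ 3 +
          (110919499 / 746130) * a ^ 4 * (y - 1 / 2) ^ 2 * (1 - y) ^ 2 +
          (228223 / 1309) * a ^ 4 * (y - 1 / 2) ^ 3 * (1 - y) +
          (171064753 / 2487100) * a ^ 4 * (y - 1 / 2) ^ 4 := by
    ring
  rw [e]
  positivity

private theorem astar_P2_3 {a y : ℝ} (h1 : 1 / 2 ≤ a) (h2 : a ≤ 1) (h3 : 0 ≤ y) (h4 : y ≤ 1 / 2) :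
    0 ≤ 1 - ((262 / 1000 + 3 / 10 * y - 1 / 10 * a) *
      (77 / 100 + (1 - (a ^ 2 + y ^ 2) / 2) / (77 / 100) + (68 / 100) ^ 2 / (2 * (77 / 100))) +
      (19 / 60 * (77 / 100 + (1 - (a ^ 2 + y ^ 2) / 2) / (77 / 100) +
        (68 / 100) ^ 2 / (2 * (77 / 100))) -
        (262 / 1000 + 3 / 10 * y - 1 / 10 * a) * ((68 / 100) / (77 / 100))) ^ 2 *
        ((77 / 100) / (4 * (19 / 60) * (68 / 100))) +
      (13 / 100 + 18 / 100 * a + 20 / 100 * a ^ 2) * (2 * a - a ^ 2 - y ^ 2)) := by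
  have a1 : 0 ≤ a - 1 / 2 := by linarith
  have a2 : 0 ≤ 1 - a := by linarith
  have a3 : 0 ≤ y - 0 := by linarith
  have a4 : 0 ≤ 1 / 2 - y := by linarith
  have a6 : 0 ≤ y := h3
  have e : 1 - ((262 / 1000 + 3 / 10 * y - 1 / 10 * a) *
      (77 / 100 + (1 - (a ^ 2 + y ^ 2) / 2) / (77 / 100) + (68 / 100) ^ 2 / (2 * (77 / 100))) +
      (19 / 60 * (77 / 100 + (1 - (a ^ 2 + y ^ 2) / 2) / (77 / 100) +
        (68 / 100) ^ 2 / (2 * (77 / 100))) -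
        (262 / 1000 + 3 / 10 * y - 1 / 10 * a) * ((68 / 100) / (77 / 100))) ^ 2 *
        ((77 / 100) / (4 * (19 / 60) * (68 / 100))) +
      (13 / 100 + 18 / 100 * a + 20 / 100 * a ^ 2) * (2 * a - a ^ 2 - y ^ 2)) =
          (26131909 / 1065900) * (1 - a) ^ 4 * (1 / 2 - y) ^ 4 +
          (11817229 / 266475) * (1 - a) ^ 4 * y * (1 / 2 - y) ^ 3 +
          (74809151 / 3730650) * (1 - a) ^ 4 * y ^ 2 * (1 / 2 - y) ^ 2 +
          (146521 / 17765) * (1 - a) ^ 4 * y ^ 3 * (1 / 2 - y) +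
          (2636527 / 355300) * (1 - a) ^ 4 * y ^ 4 +
          (139899 / 1615) * (a - 1 / 2) * (1 - a) ^ 3 * (1 / 2 - y) ^ 4 +
          (2496612 / 17765) * (a - 1 / 2) * (1 - a) ^ 3 * y * (1 / 2 - y) ^ 3 +
          (87675806 / 1865325) * (a - 1 / 2) * (1 - a) ^ 3 * y ^ 2 * (1 / 2 - y) ^ 2 +
          (8358316 / 266475) * (a - 1 / 2) * (1 - a) ^ 3 * y ^ 3 * (1 / 2 - y) +
          (3184801 / 88825) * (a - 1 / 2) * (1 - a) ^ 3 * y ^ 4 +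
          (2388469 / 21318) * (a - 1 / 2) ^ 2 * (1 - a) ^ 2 * (1 / 2 - y) ^ 4 +
          (611426 / 3927) * (a - 1 / 2) ^ 2 * (1 - a) ^ 2 * y * (1 / 2 - y) ^ 3 +
          (3030061 / 109725) * (a - 1 / 2) ^ 2 * (1 - a) ^ 2 * y ^ 2 * (1 / 2 - y) ^ 2 +
          (34196058 / 621775) * (a - 1 / 2) ^ 2 * (1 - a) ^ 2 * y ^ 3 * (1 / 2 - y) +
          (35927057 / 532950) * (a - 1 / 2) ^ 2 * (1 - a) ^ 2 * y ^ 4 +
          (20857 / 323) * (a - 1 / 2) ^ 3 * (1 - a) * (1 / 2 - y) ^ 4 +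
          (9498628 / 124355) * (a - 1 / 2) ^ 3 * (1 - a) * y * (1 / 2 - y) ^ 3 +
          (3075118 / 373065) * (a - 1 / 2) ^ 3 * (1 - a) * y ^ 2 * (1 / 2 - y) ^ 2 +
          (1970284 / 33915) * (a - 1 / 2) ^ 3 * (1 - a) * y ^ 3 * (1 / 2 - y) +
          (210491 / 3553) * (a - 1 / 2) ^ 3 * (1 - a) * y ^ 4 +
          (128606227 / 7461300) * (a - 1 / 2) ^ 4 * (1 / 2 - y) ^ 4 +
          (50839387 / 1865325) * (a - 1 / 2) ^ 4 * y * (1 / 2 - y) ^ 3 +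
          (86362547 / 3730650) * (a - 1 / 2) ^ 4 * y ^ 2 * (1 / 2 - y) ^ 2 +
          (22754871 / 621775) * (a - 1 / 2) ^ 4 * y ^ 3 * (1 / 2 - y) +
          (56857393 / 2487100) * (a - 1 / 2) ^ 4 * y ^ 4 := by
    ring
  rw [e]
  positivity

private theorem astar_P2_4 {a y : ℝ} (h1 : 1 / 2 ≤ a) (h2 : a ≤ 1) (h3 : 1 / 2 ≤ y) (h4 : y ≤ 1) :
    0 ≤ 1 - ((262 / 1000 + 3 / 10 * y - 1 / 10 * a) *
      (77 / 100 + (1 - (a ^ 2 + y ^ 2) / 2) / (77 / 100) + (68 / 100) ^ 2 / (2 * (77 / 100))) +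
      (19 / 60 * (77 / 100 + (1 - (a ^ 2 + y ^ 2) / 2) / (77 / 100) +
        (68 / 100) ^ 2 / (2 * (77 / 100))) -
        (262 / 1000 + 3 / 10 * y - 1 / 10 * a) * ((68 / 100) / (77 / 100))) ^ 2 *
        ((77 / 100) / (4 * (19 / 60) * (68 / 100))) +
      (13 / 100 + 18 / 100 * a + 20 / 100 * a ^ 2) * (2 * a - a ^ 2 - y ^ 2)) := by
  have a1 : 0 ≤ a - 1 / 2 := by linarith
  have a2 : 0 ≤ 1 - a := by linarith
  have a3 : 0 ≤ y - 1 / 2 := by linarith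
  have a4 : 0 ≤ 1 - y := by linarith
  have e : 1 - ((262 / 1000 + 3 / 10 * y - 1 / 10 * a) *
      (77 / 100 + (1 - (a ^ 2 + y ^ 2) / 2) / (77 / 100) + (68 / 100) ^ 2 / (2 * (77 / 100))) +
      (19 / 60 * (77 / 100 + (1 - (a ^ 2 + y ^ 2) / 2) / (77 / 100) +
        (68 / 100) ^ 2 / (2 * (77 / 100))) -
        (262 / 1000 + 3 / 10 * y - 1 / 10 * a) * ((68 / 100) / (77 / 100))) ^ 2 *
        ((77 / 100) / (4 * (19 / 60) * (68 / 100))) +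
      (13 / 100 + 18 / 100 * a + 20 / 100 * a ^ 2) * (2 * a - a ^ 2 - y ^ 2)) =
          (2636527 / 355300) * (1 - a) ^ 4 * (1 - y) ^ 4 +
          (238971 / 4675) * (1 - a) ^ 4 * (y - 1 / 2) * (1 - y) ^ 3 +
          (110919499 / 746130) * (1 - a) ^ 4 * (y - 1 / 2) ^ 2 * (1 - y) ^ 2 +
          (228223 / 1309) * (1 - a) ^ 4 * (y - 1 / 2) ^ 3 * (1 - y) +
          (171064753 / 2487100) * (1 - a) ^ 4 * (y - 1 / 2) ^ 4 +
          (3184801 / 88825) * (a - 1 / 2) * (1 - a) ^ 3 * (1 - y) ^ 4 +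
          (4004524 / 15675) * (a - 1 / 2) * (1 - a) ^ 3 * (y - 1 / 2) * (1 - y) ^ 3 +
          (1341766238 / 1865325) * (a - 1 / 2) * (1 - a) ^ 3 * (y - 1 / 2) ^ 2 * (1 - y) ^ 2 +
          (1526646692 / 1865325) * (a - 1 / 2) * (1 - a) ^ 3 * (y - 1 / 2) ^ 3 * (1 - y) +
          (196675163 / 621775) * (a - 1 / 2) * (1 - a) ^ 3 * (y - 1 / 2) ^ 4 +
          (35927057 / 532950) * (a - 1 / 2) ^ 2 * (1 - a) ^ 2 * (1 - y) ^ 4 +
          (903369422 / 1865325) * (a - 1 / 2) ^ 2 * (1 - a) ^ 2 * (y - 1 / 2) * (1 - y) ^ 3 +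
          (350550683 / 266475) * (a - 1 / 2) ^ 2 * (1 - a) ^ 2 * (y - 1 / 2) ^ 2 * (1 - y) ^ 2 +
          (2708389094 / 1865325) * (a - 1 / 2) ^ 2 * (1 - a) ^ 2 * (y - 1 / 2) ^ 3 * (1 - y) +
          (292968653 / 532950) * (a - 1 / 2) ^ 2 * (1 - a) ^ 2 * (y - 1 / 2) ^ 4 +
          (210491 / 3553) * (a - 1 / 2) ^ 3 * (1 - a) * (1 - y) ^ 4 +
          (155139316 / 373065) * (a - 1 / 2) ^ 3 * (1 - a) * (y - 1 / 2) * (1 - y) ^ 3 +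
          (403473694 / 373065) * (a - 1 / 2) ^ 3 * (1 - a) * (y - 1 / 2) ^ 2 * (1 - y) ^ 2 +
          (5070316 / 4389) * (a - 1 / 2) ^ 3 * (1 - a) * (y - 1 / 2) ^ 3 * (1 - y) +
          (53212809 / 124355) * (a - 1 / 2) ^ 3 * (1 - a) * (y - 1 / 2) ^ 4 +
          (56857393 / 2487100) * (a - 1 / 2) ^ 4 * (1 - y) ^ 4 +
          (18191983 / 124355) * (a - 1 / 2) ^ 4 * (y - 1 / 2) * (1 - y) ^ 3 +
          (1314053339 / 3730650) * (a - 1 / 2) ^ 4 * (y - 1 / 2) ^ 2 * (1 - y) ^ 2 +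
          (222429261 / 621775) * (a - 1 / 2) ^ 4 * (y - 1 / 2) ^ 3 * (1 - y) +
          (63831917 / 497420) * (a - 1 / 2) ^ 4 * (y - 1 / 2) ^ 4 := by
    ring
  rw [e]
  positivity

/-- The polynomial inequality. -/
theorem astar_P2 {a y : ℝ} (ha0 : 0 ≤ a) (ha1 : a ≤ 1) (hy0 : 0 ≤ y) (hy1 : y ≤ 1) :
    0 ≤ 1 - ((262 / 1000 + 3 / 10 * y - 1 / 10 * a) *
      (77 / 100 + (1 - (a ^ 2 + y ^ 2) / 2) / (77 / 100) + (68 / 100) ^ 2 / (2 * (77 / 100))) +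
      (19 / 60 * (77 / 100 + (1 - (a ^ 2 + y ^ 2) / 2) / (77 / 100) +
        (68 / 100) ^ 2 / (2 * (77 / 100))) -
        (262 / 1000 + 3 / 10 * y - 1 / 10 * a) * ((68 / 100) / (77 / 100))) ^ 2 *
        ((77 / 100) / (4 * (19 / 60) * (68 / 100))) +
      (13 / 100 + 18 / 100 * a + 20 / 100 * a ^ 2) * (2 * a - a ^ 2 - y ^ 2)) := by
  rcases le_total a (1 / 2) with h | h <;> rcases le_total y (1 / 2) with h' | h'
  · exact astar_P2_1 ha0 h hy0 h'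
  · exact astar_P2_2 ha0 h h' hy1
  · exact astar_P2_3 h ha1 hy0 h'
  · exact astar_P2_4 h ha1 h' hy1

end Pool.Agent.Saus2
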