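import Mathlib

/-!
# Polynomial inequalities for `A*`: only the apex is visible
-/

set_option autoImplicit false

namespace Pool.Agent.Saus2

/-- The apex alone, `a = 1 + τ ≥ 1`, first region. -/
theorem astar_X1 {x h τ y : ℝ} (hx1 : x ≤ 3 / 4) (hh0 : 17 / 25 ≤ h)
    (hh : h ≤ 17321 / 10000) (hτ0 : 0 ≤ τ) :
    2 / 3 * (131 / 500 + 3 / 10 * h - 1 / 10 * x) ^ 2 + 3 / 8 * (1 - (1 + τ - x) ^ 2 - (h - y) ^ 2) +
      (1 - y ^ 2) / 2 + 63663 / 100000 * τ - 10609 / 100000 * τ ^ 3 ≤ 1 := by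
  obtain ⟨p, rfl⟩ : ∃ p, x = 3 / 4 - p := ⟨3 / 4 - x, by ring⟩
  obtain ⟨r, rfl⟩ : ∃ r, h = 17 / 25 + r := ⟨h - 17 / 25, by ring⟩
  have hp : 0 ≤ p := by linarith
  have hr : 0 ≤ r := by linarith
  have hr1 : r ≤ 106 / 100 := by linarith
  have h3 : 3 / 4 * τ - 1 / 4 ≤ τ ^ 3 := by nlinarith [mul_nonneg (by linarith : 0 ≤ τ + 1) (sq_nonneg (τ - 1 / 2))]
  have h4 : 0 ≤ p * (106 / 100 - r) := mul_nonneg hp (by linarith)
  have h5 : 0 ≤ p * τ := mul_nonneg hp hτ0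
  rcases le_total y (44 / 100) with hy | hy
  · have h6 : 0 ≤ r * (44 / 100 - y) := mul_nonneg hr (by linarith)
    nlinarith [sq_nonneg (y - 51 / 175), sq_nonneg (τ - 1 / 2), sq_nonneg p, sq_nonneg r]
  · nlinarith [sq_nonneg (y - 51 / 175), sq_nonneg (τ - 1 / 2), sq_nonneg p,
      sq_nonneg (r - (75 / 63 * y - 3536 / 6300))]

/-- The apex alone, `a = 1 + τ ≥ 1`, second region. -/
theorem astar_X2 {x h τ y : ℝ} (hx1 : x ≤ 9 / 10) (hh0 : 1 ≤ h)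
    (hh : h ≤ 17321 / 10000) (hτ0 : 0 ≤ τ) :
    2 / 3 * (131 / 500 + 3 / 10 * h - 1 / 10 * x) ^ 2 + 3 / 8 * (1 - (1 + τ - x) ^ 2 - (h - y) ^ 2) +
      (1 - y ^ 2) / 2 + 63663 / 100000 * τ - 10609 / 100000 * τ ^ 3 ≤ 1 := by
  obtain ⟨p, rfl⟩ : ∃ p, x = 9 / 10 - p := ⟨9 / 10 - x, by ring⟩
  obtain ⟨r, rfl⟩ : ∃ r, h = 1 + r := ⟨h - 1, by ring⟩
  have hp : 0 ≤ p := by linarith
  have hr : 0 ≤ r := by linarith
  have hr1 : r ≤ 74 / 100 := by linarith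
  have h3 : 3 / 4 * τ - 1 / 4 ≤ τ ^ 3 := by nlinarith [mul_nonneg (by linarith : 0 ≤ τ + 1) (sq_nonneg (τ - 1 / 2))]
  have h4 : 0 ≤ p * (74 / 100 - r) := mul_nonneg hp (by linarith)
  have h5 : 0 ≤ p * τ := mul_nonneg hp hτ0
  rcases le_total y (70 / 100) with hy | hy
  · have h6 : 0 ≤ r * (70 / 100 - y) := mul_nonneg hr (by linarith)
    nlinarith [sq_nonneg (y - 3 / 7), sq_nonneg (τ - 64 / 100), sq_nonneg (p - 2 / 100), sq_nonneg r]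
  · nlinarith [sq_nonneg (y - 3 / 7), sq_nonneg (τ - 64 / 100), sq_nonneg (p - 2 / 100),
      sq_nonneg (r - (75 / 63 * y - 5612 / 6300))]

end Pool.Agent.Saus2
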