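import Pool.Agent.Saus2.AStarD
import Pool.Agent.Saus2.AStarP
import Pool.Agent.Saus2.AStarX

/-!
# The load of `A*`
-/

set_option autoImplicit false

namespace Pool.Agent.Saus2

open MeasureTheory Set Real intervalIntegral

/-- AM-GM. -/
theorem astar_amgm {u t : ℝ} (hu : 0 ≤ u) (ht : 0 < t) : √u ≤ t / 2 + u / (2 * t) := by
  have h := Real.sq_sqrt hu
  have h1 : t / 2 + u / (2 * t) - √u = (√u - t) ^ 2 / (2 * t) := by
    field_simp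
    nlinarith
  have h2 : 0 ≤ (√u - t) ^ 2 / (2 * t) := by positivity
  linarith

/-- Both `B` and `X` are visible, and the density. -/
theorem astar_both {a y η z : ℝ} (ha0 : 0 ≤ a) (ha1 : a ≤ 1) (hy0 : 0 ≤ y) (hy1 : y ≤ 1)
    (hB : a ^ 2 + y ^ 2 ≤ 1) (hX : z ^ 2 + η ^ 2 ≤ 1) :
    (131 / 500 + 3 / 10 * y - 1 / 10 * a + (3 / 10 * η + 1 / 10 * z)) *
      (√(1 - (a ^ 2 + y ^ 2)) + √(1 - (z ^ 2 + η ^ 2))) +
      (13 / 100 + 18 / 100 * a + 20 / 100 * a ^ 2) * (2 * a - a ^ 2 - y ^ 2) ≤ 1 := by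
  set ρ := √(z ^ 2 + η ^ 2) with hρ
  have hρ0 : 0 ≤ ρ := Real.sqrt_nonneg _
  have hρ2 : ρ ^ 2 = z ^ 2 + η ^ 2 := Real.sq_sqrt (by positivity)
  set B0 := 262 / 1000 + 3 / 10 * y - 1 / 10 * a with hB0
  have hlin : 3 / 10 * η + 1 / 10 * z ≤ 19 / 60 * ρ := by
    refine (le_abs_self _).trans (abs_le_of_sq_le_sq ?_ (by positivity))
    rw [mul_pow, hρ2]
    nlinarith [sq_nonneg (3 / 10 * z - 1 / 10 * η), sq_nonneg z, sq_nonneg η]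
  have hs : √(1 - (a ^ 2 + y ^ 2)) + √(1 - (z ^ 2 + η ^ 2)) ≤
      77 / 100 + (1 - (a ^ 2 + y ^ 2) / 2 - ρ ^ 2 / 2) / (77 / 100) := by
    have h1 := astar_amgm (u := 1 - (a ^ 2 + y ^ 2)) (t := 77 / 100) (by linarith) (by norm_num)
    have h2 := astar_amgm (u := 1 - (z ^ 2 + η ^ 2)) (t := 77 / 100) (by linarith) (by norm_num)
    have e : 77 / 100 + (1 - (a ^ 2 + y ^ 2) / 2 - ρ ^ 2 / 2) / (77 / 100) =
        (77 / 100 / 2 + (1 - (a ^ 2 + y ^ 2)) / (2 * (77 / 100))) +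
        (77 / 100 / 2 + (1 - (z ^ 2 + η ^ 2)) / (2 * (77 / 100))) := by
      rw [hρ2]
      ring
    rw [e]
    exact add_le_add h1 h2
  set S1 := 77 / 100 + (1 - (a ^ 2 + y ^ 2) / 2) / (77 / 100) +
    (68 / 100) ^ 2 / (2 * (77 / 100)) with hS1
  have hs2 : √(1 - (a ^ 2 + y ^ 2)) + √(1 - (z ^ 2 + η ^ 2)) ≤ S1 - (68 / 100) / (77 / 100) * ρ := by
    refine hs.trans ?_
    rw [hS1]
    nlinarith [sq_nonneg (ρ - 68 / 100)]
  have hsq : 0 ≤ √(1 - (a ^ 2 + y ^ 2)) + √(1 - (z ^ 2 + η ^ 2)) := by positivity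
  have h3 : (131 / 500 + 3 / 10 * y - 1 / 10 * a + (3 / 10 * η + 1 / 10 * z)) *
      (√(1 - (a ^ 2 + y ^ 2)) + √(1 - (z ^ 2 + η ^ 2))) ≤
      (B0 + 19 / 60 * ρ) * (√(1 - (a ^ 2 + y ^ 2)) + √(1 - (z ^ 2 + η ^ 2))) := by
    apply mul_le_mul_of_nonneg_right _ hsq
    rw [hB0]
    linarith
  have h4 : (B0 + 19 / 60 * ρ) * (√(1 - (a ^ 2 + y ^ 2)) + √(1 - (z ^ 2 + η ^ 2))) ≤
      (B0 + 19 / 60 * ρ) * (S1 - (68 / 100) / (77 / 100) * ρ) := by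
    apply mul_le_mul_of_nonneg_left hs2
    rw [hB0]
    linarith
  have h5 : (B0 + 19 / 60 * ρ) * (S1 - (68 / 100) / (77 / 100) * ρ) ≤
      B0 * S1 + (19 / 60 * S1 - B0 * ((68 / 100) / (77 / 100))) ^ 2 *
        ((77 / 100) / (4 * (19 / 60) * (68 / 100))) := by
    have h6 : 0 ≤ ((19 / 60 * S1 - B0 * ((68 / 100) / (77 / 100))) -
      2 * (19 / 60) * ((68 / 100) / (77 / 100)) * ρ) ^ 2 := sq_nonneg _
    have e : B0 * S1 + (19 / 60 * S1 - B0 * ((68 / 100) / (77 / 100))) ^ 2 *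
        ((77 / 100) / (4 * (19 / 60) * (68 / 100))) -
        (B0 + 19 / 60 * ρ) * (S1 - (68 / 100) / (77 / 100) * ρ) =
        ((77 / 100) / (4 * (19 / 60) * (68 / 100))) *
        ((19 / 60 * S1 - B0 * ((68 / 100) / (77 / 100))) -
        2 * (19 / 60) * ((68 / 100) / (77 / 100)) * ρ) ^ 2 := by
      ring
    have h7 : 0 ≤ ((77 / 100) / (4 * (19 / 60) * (68 / 100))) *
        ((19 / 60 * S1 - B0 * ((68 / 100) / (77 / 100))) -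
        2 * (19 / 60) * ((68 / 100) / (77 / 100)) * ρ) ^ 2 := by positivity
    linarith
  have h8 := astar_P2 ha0 ha1 hy0 hy1
  rw [← hB0, ← hS1] at h8
  linarith

/-- `B` and `X` are visible, without the density. -/
theorem astar_both0 {a y x h : ℝ} (hx0 : 0 ≤ x) (hx1 : x ≤ 1) (hh0 : 0 ≤ h) (hh : h ^ 2 ≤ 3)
    (hB : a ^ 2 + y ^ 2 ≤ 1) (hX : (a - x) ^ 2 + (h - y) ^ 2 ≤ 1) :
    (131 / 500 + 3 / 10 * h - 1 / 10 * x) *
      (√(1 - (a ^ 2 + y ^ 2)) + √(1 - ((a - x) ^ 2 + (h - y) ^ 2))) ≤ 1 := by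
  set u := √(1 - (a ^ 2 + y ^ 2)) with hu
  set v := √(1 - ((a - x) ^ 2 + (h - y) ^ 2)) with hv
  have hu0 : 0 ≤ u := Real.sqrt_nonneg _
  have hv0 : 0 ≤ v := Real.sqrt_nonneg _
  have hu2 : u ^ 2 = 1 - (a ^ 2 + y ^ 2) := Real.sq_sqrt (by linarith)
  have hv2 : v ^ 2 = 1 - ((a - x) ^ 2 + (h - y) ^ 2) := Real.sq_sqrt (by linarith)
  have h1 : (u + v) ^ 2 ≤ 4 - h ^ 2 := by
    nlinarith [sq_nonneg (u - v), sq_nonneg (2 * y - h), sq_nonneg (2 * a - x), sq_nonneg x]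
  have hβ0 : 0 ≤ 131 / 500 + 3 / 10 * h - 1 / 10 * x := by linarith
  have hβ1 : 131 / 500 + 3 / 10 * h - 1 / 10 * x ≤ 131 / 500 + 3 / 10 * h := by linarith
  have hh1 : h ≤ 7 / 4 := by nlinarith
  have h2 : (131 / 500 + 3 / 10 * h) ^ 2 * (4 - h ^ 2) ≤ 1 := by
    nlinarith [sq_nonneg (h - 13 / 10), sq_nonneg (h ^ 2 - 169 / 100), mul_nonneg hh0 (sq_nonneg (h - 13 / 10)), mul_nonneg hh0 (by linarith : 0 ≤ 7 / 4 - h)]
  have h3 : ((131 / 500 + 3 / 10 * h - 1 / 10 * x) * (u + v)) ^ 2 ≤ 1 := by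
    rw [mul_pow]
    calc (131 / 500 + 3 / 10 * h - 1 / 10 * x) ^ 2 * (u + v) ^ 2
        ≤ (131 / 500 + 3 / 10 * h) ^ 2 * (4 - h ^ 2) := by
          apply mul_le_mul (pow_le_pow_left₀ hβ0 hβ1 2) h1 (sq_nonneg _) (sq_nonneg _)
      _ ≤ 1 := h2
  exact (abs_le_of_sq_le_sq (by linarith) zero_le_one |>.trans' (le_abs_self _))

end Pool.Agent.Saus2
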