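import Pool.Agent.Saus2.ARegL
import Pool.Agent.Saus2.AStar
import Pool.Agent.Saus2.AFatMain

/-!
# All triangles with longest side at most 6
-/

set_option autoImplicit false

namespace Pool.Agent.Saus2

open MeasureTheory Set Metric Filter Topology Real

theorem tri_adm {w x h : ℝ} (hx0 : 0 ≤ x) (hxw : 2 * x ≤ w) (hh : 0 ≤ h)
    (hcb : x ^ 2 + h ^ 2 ≤ 2 * w * x) (hw6 : w ≤ 6) :
    Adm (tri w x h) (√(nn w x h) / 3) := by
  rcases le_or_gt 3 (h ^ 2) with h3 | h3
  · exact adm_tall hx0 hxw hh h3 hcb hw6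
  · rcases le_or_gt ((w - x) ^ 2 + h ^ 2) 4 with hb | hb
    · exact reg_small hx0 hxw hh hcb hb
    · have hw : 2 ≤ w := by
        apply le_of_sq_le_sq _ (by linarith)
        nlinarith
      exact reg_large hx0 hxw hh hcb hb.le h3.le hw6
        (fun hreg => adm_Astar hx0 hw h3.le hb.le hreg)

end Pool.Agent.Saus2
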