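import Pool.Agent.Saus2.DefsC

/-!
# Saus2, package CB: the constants betaV
-/

namespace Pool.Agent.Saus2

open MeasureTheory ProbabilityTheory Set Metric Filter Topology Real
open scoped InnerProductSpace
open Pool.Agent.Sausage27 (Eu Body skel hS betaV)

theorem betaV_pos {d : ℕ} (hd : 2 ≤ d) : 0 < betaV d := by
  have h1 : (2 : ℝ) ≤ d := by exact_mod_cast hd
  have h2 : 0 < Real.Gamma ((d : ℝ) / 2) := Real.Gamma_pos_of_pos (by linarith)
  have h3 : 0 < Real.Gamma (((d : ℝ) - 1) / 2) := Real.Gamma_pos_of_pos (by linarith)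
  have h4 : 0 < √Real.pi := Real.sqrt_pos.2 Real.pi_pos
  unfold betaV
  positivity

theorem betaV_three : betaV 3 = π := by
  unfold betaV
  have h1 : ((3 : ℕ) : ℝ) / 2 = 1 / 2 + 1 := by norm_num
  have h2 : (((3 : ℕ) : ℝ) - 1) / 2 = 1 := by norm_num
  rw [h1, h2, Real.Gamma_add_one (by norm_num), Real.Gamma_one_half_eq, Real.Gamma_one, div_one]
  have h3 : √Real.pi * √Real.pi = Real.pi := Real.mul_self_sqrt Real.pi_pos.le
  linear_combination h3

/-- `4 π Γ((j+1)/2) / Γ((j-1)/2) = 4 π (j-1)/2`. -/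
theorem betaV_mul {j : ℕ} (hj : 2 ≤ j) : betaV j * betaV (j + 1) = 2 * π * (j - 1) := by
  have h1 : (2 : ℝ) ≤ j := by exact_mod_cast hj
  have h2 : Real.Gamma ((j : ℝ) / 2) ≠ 0 := (Real.Gamma_pos_of_pos (by linarith)).ne'
  have h3 : Real.Gamma (((j : ℝ) - 1) / 2) ≠ 0 := (Real.Gamma_pos_of_pos (by linarith)).ne'
  have h4 : √Real.pi * √Real.pi = Real.pi := Real.mul_self_sqrt Real.pi_pos.le
  have h5 : (((j + 1 : ℕ) : ℝ)) / 2 = ((j : ℝ) - 1) / 2 + 1 := by
    push_cast
    ring
  have h6 : (((j + 1 : ℕ) : ℝ) - 1) / 2 = (j : ℝ) / 2 := by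
    push_cast
    ring
  unfold betaV
  rw [h5, h6, Real.Gamma_add_one (by linarith)]
  field_simp
  linear_combination ((j : ℝ) - 1) * h4

/-- `betaV (d+2) = betaV d * d / (d-1)` by `betaV_mul`; `betaV 3 = π`, `betaV 4 = 4`. -/
theorem pi_le_betaV {d : ℕ} (hd : 3 ≤ d) : π ≤ betaV d := by
  induction d using Nat.strong_induction_on with
  | _ d ih =>
    rcases Nat.lt_or_ge d 5 with h | h
    · have h1 : d = 3 ∨ d = 4 := by omega
      rcases h1 with rfl | rfl
      · exact betaV_three.ge
      · have h2 := betaV_mul (j := 3) (by norm_num)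
        rw [betaV_three] at h2
        have h3 : betaV 4 = 4 := by
          apply mul_left_cancel₀ Real.pi_ne_zero
          push_cast at h2
          linarith
        rw [h3]
        exact Real.pi_le_four
    · obtain ⟨c, rfl⟩ : ∃ c, d = c + 2 := ⟨d - 2, by omega⟩
      have h1 := ih c (by omega) (by omega)
      have h2 := betaV_mul (j := c) (by omega)
      have h3 := betaV_mul (j := c + 1) (by omega)
      have h4 : 0 < betaV (c + 1) := betaV_pos (by omega)
      have h5 : 0 < betaV c := betaV_pos (by omega)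
      have hc : (3 : ℝ) ≤ c := by exact_mod_cast (by omega : 3 ≤ c)
      push_cast at h3
      have h6 : betaV (c + 1 + 1) * ((c : ℝ) - 1) = betaV c * c := by
        apply mul_left_cancel₀ h4.ne'
        linear_combination ((c : ℝ) - 1) * h3 - (c : ℝ) * h2
      have h7 : betaV c ≤ betaV (c + 1 + 1) := by
        by_contra hlt
        rw [not_le] at hlt
        have h8 : betaV (c + 1 + 1) * ((c : ℝ) - 1) < betaV c * ((c : ℝ) - 1) :=
          mul_lt_mul_of_pos_right hlt (by linarith)
        nlinarith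
      exact h1.trans h7

end Pool.Agent.Saus2
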