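import Mathlib
import Pool.Agent.Sausage27.Defs
import Pool.Agent.Sausage27.DefsB

/-!
# The `2`-skeleton sausage problem: definitions

`kap C` is half the mean width of the planar set `C` (perimeter / (2π) for a planar convex body).
`V2 D` is the second intrinsic volume in Tsirelson's Gaussian form: the mean area of the random
planar shadow `z ↦ (⟪x, z⟫, ⟪y, z⟫)` of `D`, for two independent standard Gaussian vectors `x, y`.
-/

namespace Pool.Agent.Saus2

open MeasureTheory ProbabilityTheory Set Metric Filter Topology Real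
open scoped InnerProductSpace

/-- Support function of the planar set `C` in the direction `exp (iθ)`. -/
noncomputable def hs (C : Set ℂ) (θ : ℝ) : ℝ :=
  sSup ((fun z : ℂ => (z * Complex.exp (-(θ * Complex.I))).re) '' C)

/-- Half of the mean width of the planar set `C`. -/
noncomputable def kap (C : Set ℂ) : ℝ := (∫ θ in (0 : ℝ)..(2 * π), hs C θ) / (2 * π)

section general

variable {E : Type*} [NormedAddCommGroup E] [InnerProductSpace ℝ E]

/-- The planar shadow of `D` under `z ↦ (⟪p.1, z⟫, ⟪p.2, z⟫)`. -/
def shadow (D : Set E) (p : E × E) : Set (ℝ × ℝ) := (fun z => (⟪p.1, z⟫_ℝ, ⟪p.2, z⟫_ℝ)) '' D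

/-- Area of the planar shadow. -/
noncomputable def sarea (D : Set E) (p : E × E) : ℝ := (volume (shadow D p)).toReal

/-- The second intrinsic volume (Tsirelson's formula): mean area of the Gaussian planar shadow. -/
noncomputable def V2 [FiniteDimensional ℝ E] [MeasurableSpace E] [BorelSpace E] (D : Set E) : ℝ :=
  ∫ p : E × E, (volume (shadow D p)).toReal ∂((stdGaussian E).prod (stdGaussian E))

/-- Component of `x` orthogonal to the unit vector `e`. -/
noncomputable def perp (e x : E) : E := x - ⟪e, x⟫_ℝ • e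

/-- The normal direction `⟪p.2, e⟫ p.1 - ⟪p.1, e⟫ p.2`. -/
noncomputable def nrm (e : E) (p : E × E) : E := ⟪p.2, e⟫_ℝ • p.1 - ⟪p.1, e⟫_ℝ • p.2

/-- Complex coordinates of the projection onto the plane spanned by `J 1` and `J I`. -/
noncomputable def proj2 (J : ℂ →ₗᵢ[ℝ] E) (x : E) : ℂ :=
  (⟪J 1, x⟫_ℝ : ℂ) + (⟪J Complex.I, x⟫_ℝ : ℂ) * Complex.I

end general

end Pool.Agent.Saus2
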