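import Pool.Agent.Saus2.Defs
import Pool.Agent.Sausage27.Basic

/-!
# The `2`-skeleton sausage problem: auxiliary definitions
-/

namespace Pool.Agent.Saus2

open MeasureTheory ProbabilityTheory Set Metric Filter Topology Real
open scoped InnerProductSpace

section general

variable {E : Type*} [NormedAddCommGroup E] [InnerProductSpace ℝ E]

/-- Area of the parallelogram spanned by `p.1` and `p.2`. -/
noncomputable def wedge (p : E × E) : ℝ := √(‖p.1‖ ^ 2 * ‖p.2‖ ^ 2 - ⟪p.1, p.2⟫_ℝ ^ 2)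

/-- The slice of `D` at height `s`, moved to height `0` and enlarged by the factor `1 + M / s`. -/
noncomputable def sec (D : Set E) (e : E) (s M : ℝ) : Set E :=
  (fun z => (1 + M / s) • (z - s • e)) '' (D ∩ {z | ⟪e, z⟫_ℝ = s})

/-- The slice of `D` at height `s`, in the complex coordinates given by `J`. -/
noncomputable def slc (D : Set E) (e : E) (J : ℂ →ₗᵢ[ℝ] E) (s : ℝ) : Set ℂ :=
  proj2 J '' (D ∩ {z | ⟪e, z⟫_ℝ = s})

/-- The point at height `s + t` on the segment from the base point `y` (height `s`) to the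
apex (height `s + R`) of the cone. -/
noncomputable def cpt (e : E) (J : ℂ →ₗᵢ[ℝ] E) (s R t : ℝ) (y : ℂ) : E :=
  (s + t) • e + J ((1 - t / R) • y)

/-- The contraction factor of the tube lemma. -/
noncomputable def r0 (M R K : ℝ) : ℝ := (1 - (M + 1) / R) / √(1 + K ^ 2 / R ^ 2)

/-- The cylinder with axis `[0, L] e` and radius `r`. -/
def cyl (e : E) (L r : ℝ) : Set E := {x | 0 ≤ ⟪e, x⟫_ℝ ∧ ⟪e, x⟫_ℝ ≤ L ∧ ‖perp e x‖ ≤ r}

/-- First Gram-Schmidt vector. -/
noncomputable def gsu (p : E × E) : E := ‖p.1‖⁻¹ • p.1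

/-- Second Gram-Schmidt vector. -/
noncomputable def gsv (p : E × E) : E :=
  ‖p.2 - ⟪gsu p, p.2⟫_ℝ • gsu p‖⁻¹ • (p.2 - ⟪gsu p, p.2⟫_ℝ • gsu p)

end general

end Pool.Agent.Saus2
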