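import Pool.Agent.Sausage27.Defs

/-!
# The second intrinsic volume by the Steiner formula
-/

namespace Pool.Agent.Saus2

open MeasureTheory Metric Filter Topology
open scoped Pointwise
open Pool.Agent.Sausage27 (Eu)

/-- The second intrinsic volume of `D ⊆ ℝ^d`, read off from the Steiner formula
`vol (D + t B) = κ_d t^d + κ_{d-1} V₁(D) t^{d-1} + κ_{d-2} V₂(D) t^{d-2} + ...` : the limit, as
`t → ∞`, of `(vol (D + t B) - κ_d t^d - κ_{d-1} V₁(D) t^{d-1}) / (κ_{d-2} t^{d-2})`. -/
noncomputable def V2S {d : ℕ} (D : Set (Eu d)) : ℝ :=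
  limUnder atTop (fun t : ℝ =>
    ((volume (D + closedBall (0 : Eu d) t)).toReal - Sausage27.kap d * t ^ d -
      Sausage27.kap (d - 1) * Sausage27.V1 D * t ^ (d - 1)) / (Sausage27.kap (d - 2) * t ^ (d - 2)))

end Pool.Agent.Saus2
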