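import Pool.Agent.Saus2.DefsC
import Pool.Agent.Saus2.DefsS

/-!
# Saus2: definitions for the comparison with the Steiner formula
-/

namespace Pool.Agent.Saus2

open MeasureTheory ProbabilityTheory Set Metric Filter Topology Real
open scoped InnerProductSpace Pointwise
open Pool.Agent.Sausage27 (Eu Body hS)

section general

variable {E : Type*} [NormedAddCommGroup E] [InnerProductSpace ℝ E] [FiniteDimensional ℝ E]

/-- The gradient of the support function of `D` (`0` where it is not differentiable). -/
noncomputable def grd (D : Set E) (x : E) : E :=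
  ∑ i, (fderiv ℝ (hS D) x (stdOrthonormalBasis ℝ E i)) • stdOrthonormalBasis ℝ E i

/-- Square of the norm of the spherical gradient of the support function at a unit vector. -/
noncomputable def sg (D : Set E) (u : E) : ℝ := ‖grd D u‖ ^ 2 - hS D u ^ 2

/-- Lower bound for the radial function of `D + t B`. -/
noncomputable def lowf (D : Set E) (t : ℝ) (u : E) : ℝ := hS D u + √(t ^ 2 - sg D u)

/-- Upper bound for the radial function of `D + t B`. -/
noncomputable def upf (D : Set E) (t : ℝ) (u : E) : ℝ :=
  hS D (u - t⁻¹ • (grd D u - hS D u • u)) + √(t ^ 2 + sg D u)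

end general

/-- The planar shadow in the complex plane. -/
noncomputable def cshadow {E : Type*} [NormedAddCommGroup E] [InnerProductSpace ℝ E] (D : Set E)
    (p : E × E) : Set ℂ :=
  (fun z => (⟨⟪p.1, z⟫_ℝ, ⟪p.2, z⟫_ℝ⟩ : ℂ)) '' D

end Pool.Agent.Saus2
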