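import Pool.Agent.Saus2.DefsC
import Pool.Agent.Sausage27.ConstB

/-!
# Saus2, package G2: mean norm of a Gaussian vector
-/

namespace Pool.Agent.Saus2

open MeasureTheory ProbabilityTheory Set Metric Filter Topology Real
open scoped InnerProductSpace
open Pool.Agent.Sausage27 (Eu Body skel hS betaV)

private theorem G2_density (j : ℕ) :
    (Measure.pi fun _ : Fin j => gaussianReal 0 1) = (volume : Measure (Fin j → ℝ)).withDensity
      (fun x => ENNReal.ofReal (∏ i, gaussianPDFReal 0 1 (x i))) := by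
  apply Measure.pi_eq
  intro s hs
  rw [withDensity_apply _ (MeasurableSet.univ_pi hs)]
  have hm : ∀ i : Fin j, Integrable (gaussianPDFReal 0 1)
      ((volume : Measure ℝ).restrict (s i)) := fun i =>
    (integrable_gaussianPDFReal 0 1).restrict
  rw [volume_pi, Measure.restrict_pi_pi, ← ofReal_integral_eq_lintegral_ofReal]
  · rw [integral_fintype_prod_eq_prod (f := fun _ : Fin j => gaussianPDFReal 0 1),
      ENNReal.ofReal_prod_of_nonneg]
    · refine Finset.prod_congr rfl fun i _ => ?_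
      rw [gaussianReal_apply_eq_integral 0 one_ne_zero]
    · exact fun i _ => integral_nonneg fun x => gaussianPDFReal_nonneg 0 1 x
  · exact Integrable.fintype_prod hm
  · exact Filter.Eventually.of_forall fun x =>
      Finset.prod_nonneg fun i _ => gaussianPDFReal_nonneg 0 1 (x i)

private theorem G2_prod {j : ℕ} (x : EuclideanSpace ℝ (Fin j)) :
    ∏ i, gaussianPDFReal 0 1 (x i) = (√(2 * π))⁻¹ ^ j * rexp (-‖x‖ ^ 2 / 2) := by
  have h1 : ∀ t : ℝ, gaussianPDFReal 0 1 t = (√(2 * π))⁻¹ * rexp (-t ^ 2 / 2) := by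
    intro t
    simp [gaussianPDFReal]
  simp_rw [h1]
  rw [Finset.prod_mul_distrib, Finset.prod_const, ← Real.exp_sum, EuclideanSpace.real_norm_sq_eq]
  simp [neg_div, Finset.sum_div]

private theorem G2_pi (j : ℕ) :
    ∫ x : Fin j → ℝ, ‖(WithLp.toLp 2 x : EuclideanSpace ℝ (Fin j))‖
        ∂(Measure.pi fun _ : Fin j => gaussianReal 0 1) =
      (√(2 * π))⁻¹ ^ j * ∫ y : EuclideanSpace ℝ (Fin j), ‖y‖ * rexp (-‖y‖ ^ 2 / 2) := by
  rw [G2_density, integral_withDensity_eq_integral_toReal_smul]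
  · have h1 : ∀ x : Fin j → ℝ, (ENNReal.ofReal (∏ i, gaussianPDFReal 0 1 (x i))).toReal •
        ‖(WithLp.toLp 2 x : EuclideanSpace ℝ (Fin j))‖ =
        (fun y : EuclideanSpace ℝ (Fin j) => (√(2 * π))⁻¹ ^ j *
          (‖y‖ * rexp (-‖y‖ ^ 2 / 2))) (WithLp.toLp 2 x) := by
      intro x
      rw [ENNReal.toReal_ofReal
        (Finset.prod_nonneg fun i _ => gaussianPDFReal_nonneg 0 1 (x i)), smul_eq_mul]
      have := G2_prod (WithLp.toLp 2 x)
      simp only at this ⊢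
      rw [this]
      ring
    simp_rw [h1]
    rw [(PiLp.volume_preserving_toLp (Fin j)).integral_comp
      (MeasurableEquiv.toLp 2 (Fin j → ℝ)).measurableEmbedding
      (fun y : EuclideanSpace ℝ (Fin j) => (√(2 * π))⁻¹ ^ j * (‖y‖ * rexp (-‖y‖ ^ 2 / 2)))]
    rw [integral_const_mul]
  · fun_prop
  · simp

section S0

variable {E : Type*} [NormedAddCommGroup E] [InnerProductSpace ℝ E] [FiniteDimensional ℝ E]
  [MeasurableSpace E] [BorelSpace E]

/-- Gn. Reduce to `E = EuclideanSpace ℝ (Fin j)` by an isometry (`stdGaussian_map`,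
`stdOrthonormalBasis`), pass to the density `(2π)^(-j/2) exp(-‖x‖²/2)` (as in
`Pool.Agent.RRM.pg_density`, `prod_pdf`, which do it for `j = 3`), use
`Pool.Agent.Sausage27.SG2B_norm` and `Γ(x+1) = x Γ(x)`. -/
theorem gauss_norm_mean {j : ℕ} (hj : 1 ≤ j) (hE : Module.finrank ℝ E = j) :
    ∫ x, ‖x‖ ∂(stdGaussian E) = betaV (j + 1) / √(2 * π) := by
  obtain ⟨f, -⟩ : ∃ f : E ≃ₗᵢ[ℝ] EuclideanSpace ℝ (Fin j), f = f :=
    ⟨((stdOrthonormalBasis ℝ E).reindex (finCongr hE)).repr, rfl⟩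
  have h1 : ∫ x, ‖x‖ ∂(stdGaussian E) =
      ∫ y, ‖y‖ ∂(stdGaussian (EuclideanSpace ℝ (Fin j))) := by
    rw [← stdGaussian_map f, integral_map (by fun_prop) (by fun_prop)]
    refine integral_congr_ae (Filter.Eventually.of_forall fun x => ?_)
    exact (f.norm_map x).symm
  have h2 : ∫ y, ‖y‖ ∂(stdGaussian (EuclideanSpace ℝ (Fin j))) =
      ∫ x : Fin j → ℝ, ‖(WithLp.toLp 2 x : EuclideanSpace ℝ (Fin j))‖
        ∂(Measure.pi fun _ : Fin j => gaussianReal 0 1) := by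
    rw [← map_pi_eq_stdGaussian, integral_map (by fun_prop) (by fun_prop)]
  rw [h1, h2, G2_pi, Pool.Agent.Sausage27.SG2B_norm j hj, betaV]
  have hj0 : (0 : ℝ) < j := by exact_mod_cast hj
  have hΓ : Real.Gamma ((j : ℝ) / 2 + 1) = (j : ℝ) / 2 * Real.Gamma ((j : ℝ) / 2) :=
    Real.Gamma_add_one (by positivity)
  have hΓ0 : Real.Gamma ((j : ℝ) / 2) ≠ 0 := (Real.Gamma_pos_of_pos (by positivity)).ne'
  have e1 : (((j + 1 : ℕ) : ℝ) - 1) / 2 = (j : ℝ) / 2 := by
    push_cast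
    ring
  have e2 : ((j + 1 : ℕ) : ℝ) / 2 = ((j : ℝ) + 1) / 2 := by
    push_cast
    ring
  rw [hΓ, e1, e2, Real.sqrt_mul (by norm_num) π]
  have h3 : √(2 : ℝ) ≠ 0 := by positivity
  have h4 : √π ≠ 0 := by positivity
  have h5 : √(2 : ℝ) * √2 = 2 := Real.mul_self_sqrt (by norm_num)
  have h6 : (√2 * √π)⁻¹ ^ j * (√π ^ j * √2 ^ (j + 1)) = √2 := by
    rw [inv_pow, mul_pow, pow_succ]
    field_simp
  generalize Real.Gamma (((j : ℝ) + 1) / 2) = G at *
  generalize Real.Gamma ((j : ℝ) / 2) = G' at *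
  have h7 : (√2 * √π)⁻¹ ^ j * (j * (√π ^ j / (j / 2 * G')) * (√2 ^ (j + 1) / 2 * G)) =
      ((√2 * √π)⁻¹ ^ j * (√π ^ j * √2 ^ (j + 1))) * (G / G') := by
    field_simp
  rw [h7, h6, div_div, eq_div_iff (by positivity)]
  field_simp
  linear_combination G * h5

end S0

end Pool.Agent.Saus2
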