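import Pool.Agent.Saus2.DefsC
import Pool.Agent.Saus2.G1
import Pool.Agent.Saus2.G2
import Pool.Agent.Saus2.CB

/-!
# Saus2, package G3: mean norm of the orthogonal component
-/

namespace Pool.Agent.Saus2

open MeasureTheory ProbabilityTheory Set Metric Filter Topology Real
open scoped InnerProductSpace
open Pool.Agent.Sausage27 (Eu Body skel hS betaV)

section S0

variable {E : Type*} [NormedAddCommGroup E] [InnerProductSpace ℝ E] [FiniteDimensional ℝ E]
  [MeasurableSpace E] [BorelSpace E]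

/-- Gq. From `gauss_sub` with `W = (ℝ ∙ e)ᗮ` and `gauss_norm_mean`. -/
theorem gauss_perp {d : ℕ} (hd : 2 ≤ d) (hE : Module.finrank ℝ E = d) {e : E} (he : ‖e‖ = 1) :
    ∫ x, ‖perp e x‖ ∂(stdGaussian E) = betaV d / √(2 * π) := by
  set W : Submodule ℝ E := (ℝ ∙ e)ᗮ with hW
  have h0 : e ≠ 0 := by
    rintro rfl
    simp at he
  have h1 : Module.finrank ℝ W = d - 1 := by
    have h := Submodule.finrank_add_finrank_orthogonal (ℝ ∙ e)
    rw [finrank_span_singleton h0, hE, ← hW] at h
    omega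
  have h2 : ∀ x : E, ‖perp e x‖ = ‖W.orthogonalProjectionOnto x‖ := by
    intro x
    have h : ((W.orthogonalProjectionOnto x : W) : E) = perp e x := by
      have h4 := Submodule.starProjection_orthogonal_val (K := ℝ ∙ e) x
      rw [Submodule.starProjection_unit_singleton ℝ he] at h4
      exact h4
    rw [← h]
    rfl
  simp only [h2]
  have h3 := gauss_norm_mean (E := W) (j := d - 1) (by omega) h1
  rw [← gauss_sub W, integral_map (W.orthogonalProjectionOnto).continuous.measurable.aemeasurable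
    (by fun_prop), show d - 1 + 1 = d by omega] at h3
  exact h3

end S0

/-- Gc. The mean of the norm of a plane Gaussian vector. -/
theorem gauss_two :
    ∫ q : ℝ × ℝ, √(q.1 ^ 2 + q.2 ^ 2) ∂((gaussianReal 0 1).prod (gaussianReal 0 1)) =
      √(π / 2) := by
  have h1 := gauss_norm_mean (E := EuclideanSpace ℝ (Fin 2)) (j := 2) (by norm_num) (by simp)
  rw [← map_pi_eq_stdGaussian, integral_map (by fun_prop) (by fun_prop), betaV_three] at h1
  have h2 := (measurePreserving_finTwoArrow (gaussianReal 0 1)).integral_comp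
    MeasurableEquiv.finTwoArrow.measurableEmbedding (fun q : ℝ × ℝ => √(q.1 ^ 2 + q.2 ^ 2))
  rw [← h2]
  have h3 : ∀ x : Fin 2 → ℝ, √((MeasurableEquiv.finTwoArrow x).1 ^ 2 +
      (MeasurableEquiv.finTwoArrow x).2 ^ 2) = ‖(WithLp.toLp 2 x : EuclideanSpace ℝ (Fin 2))‖ := by
    intro x
    rw [EuclideanSpace.norm_eq]
    simp [Fin.sum_univ_two, MeasurableEquiv.finTwoArrow]
  simp only [h3]
  rw [h1]
  have hp := Real.pi_pos
  rw [Real.sqrt_div hp.le, Real.sqrt_mul (by norm_num : (0 : ℝ) ≤ 2)]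
  have h4 : √π * √π = π := Real.mul_self_sqrt hp.le
  have h5 : √π ≠ 0 := (Real.sqrt_pos.2 hp).ne'
  have h6 : √(2 : ℝ) ≠ 0 := (Real.sqrt_pos.2 (by norm_num)).ne'
  rw [div_eq_div_iff (mul_ne_zero h6 h5) h6]
  linear_combination (-√2) * h4

end Pool.Agent.Saus2
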