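import Pool.Agent.Saus2.DefsC

/-!
# Saus2, package GI: integrability and moments
-/

namespace Pool.Agent.Saus2

open MeasureTheory ProbabilityTheory Set Metric Filter Topology Real
open scoped InnerProductSpace
open Pool.Agent.Sausage27 (Eu Body skel hS betaV)

section S0

variable {E : Type*} [NormedAddCommGroup E] [InnerProductSpace ℝ E] [FiniteDimensional ℝ E]
  [MeasurableSpace E] [BorelSpace E]

theorem integrable_norm_mul :
    Integrable (fun p : E × E => ‖p.1‖ * ‖p.2‖) ((stdGaussian E).prod (stdGaussian E)) := by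
  have h : Integrable (fun x : E => ‖x‖) (stdGaussian E) :=
    (IsGaussian.integrable_id (μ := stdGaussian E)).norm
  exact h.mul_prod h

/-- `∫ ‖x‖ dγ ≤ √d` and Fubini. -/
theorem norm_mul_mean : ∫ p : E × E, ‖p.1‖ * ‖p.2‖ ∂((stdGaussian E).prod (stdGaussian E)) ≤
    Module.finrank ℝ E := by
  have hint : Integrable (fun x : E => ‖x‖) (stdGaussian E) :=
    (IsGaussian.integrable_id (μ := stdGaussian E)).norm
  have h1 : ∫ p : E × E, ‖p.1‖ * ‖p.2‖ ∂((stdGaussian E).prod (stdGaussian E)) =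
      (∫ x : E, ‖x‖ ∂(stdGaussian E)) * ∫ x : E, ‖x‖ ∂(stdGaussian E) :=
    integral_prod_mul (fun x : E => ‖x‖) (fun x : E => ‖x‖)
  have hL2 : MemLp (fun x : E => ‖x‖) 2 (stdGaussian E) :=
    (IsGaussian.memLp_two_id (μ := stdGaussian E)).norm
  have h2 := variance_eq_sub hL2
  have h3 := variance_nonneg (fun x : E => ‖x‖) (stdGaussian E)
  have h4 : ∫ x : E, ‖x‖ ^ 2 ∂(stdGaussian E) = Module.finrank ℝ E := by
    have h5 : ∀ x : E, ‖x‖ ^ 2 = ∑ i, (⟪stdOrthonormalBasis ℝ E i, x⟫_ℝ) ^ 2 := fun x =>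
      ((stdOrthonormalBasis ℝ E).sum_sq_inner_right x).symm
    have h6 : ∀ i, MemLp (fun x : E => ⟪stdOrthonormalBasis ℝ E i, x⟫_ℝ) 2 (stdGaussian E) := by
      intro i
      exact (innerSL ℝ (stdOrthonormalBasis ℝ E i)).comp_memLp'
        (IsGaussian.memLp_two_id (μ := stdGaussian E))
    simp_rw [h5]
    rw [integral_finsetSum _ fun i _ => (h6 i).integrable_sq]
    have h7 : ∀ i, ∫ x : E, ⟪stdOrthonormalBasis ℝ E i, x⟫_ℝ ^ 2 ∂(stdGaussian E) = 1 := by
      intro i
      have h8 := variance_dual_stdGaussian (E := E) (innerSL ℝ (stdOrthonormalBasis ℝ E i))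
      rw [variance_of_integral_eq_zero
        (innerSL ℝ (stdOrthonormalBasis ℝ E i)).continuous.aemeasurable
        (integral_strongDual_stdGaussian _)] at h8
      simpa using h8
    simp [h7]
  have h5 : (∫ x : E, ((fun x : E => ‖x‖) ^ 2) x ∂(stdGaussian E)) = Module.finrank ℝ E := h4
  rw [h1, ← pow_two, ← h5]
  linarith

/-- Integrability of `f ∘ nrm`: `|f z| ≤ C ‖z‖` and `‖nrm e p‖ ≤ 2 ‖p.1‖ ‖p.2‖`. -/
theorem integrable_nrm {f : E → ℝ} (hf : Continuous f)
    (hhom : ∀ r : ℝ, 0 ≤ r → ∀ z, f (r • z) = r * f z) {e : E} (he : ‖e‖ = 1) :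
    Integrable (fun p => f (nrm e p)) ((stdGaussian E).prod (stdGaussian E)) := by
  obtain ⟨C, hC⟩ := (isCompact_sphere (0 : E) 1).exists_bound_of_continuousOn hf.continuousOn
  have hC0 : 0 ≤ C := (norm_nonneg _).trans (hC e (by simpa using he))
  have hb : ∀ z : E, |f z| ≤ C * ‖z‖ := by
    intro z
    by_cases hz : z = 0
    · have h1 := hhom 0 le_rfl z
      rw [zero_smul, zero_mul] at h1
      rw [hz, h1]
      simp
    · have hz0 : ‖z‖ ≠ 0 := norm_ne_zero_iff.2 hz
      have h1 := hhom ‖z‖ (norm_nonneg z) (‖z‖⁻¹ • z)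
      rw [smul_smul, mul_inv_cancel₀ hz0, one_smul] at h1
      have h2 := hC (‖z‖⁻¹ • z) (by
        rw [mem_sphere_zero_iff_norm, norm_smul, norm_inv, norm_norm, inv_mul_cancel₀ hz0])
      rw [h1, abs_mul, abs_of_nonneg (norm_nonneg z), mul_comm]
      exact mul_le_mul_of_nonneg_right h2 (norm_nonneg z)
  have hn : ∀ p : E × E, ‖nrm e p‖ ≤ 2 * (‖p.1‖ * ‖p.2‖) := by
    intro p
    unfold nrm
    refine (norm_sub_le _ _).trans ?_
    rw [norm_smul, norm_smul]
    have h1 := norm_inner_le_norm (𝕜 := ℝ) p.2 e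
    have h2 := norm_inner_le_norm (𝕜 := ℝ) p.1 e
    rw [he, mul_one] at h1 h2
    have h3 := mul_le_mul_of_nonneg_right h1 (norm_nonneg p.1)
    have h4 := mul_le_mul_of_nonneg_right h2 (norm_nonneg p.2)
    linarith
  have hcont : Continuous (fun p : E × E => f (nrm e p)) := by
    refine hf.comp ?_
    unfold nrm
    fun_prop
  refine Integrable.mono' ((integrable_norm_mul (E := E)).const_mul (2 * C))
    hcont.aestronglyMeasurable (Filter.Eventually.of_forall fun p => ?_)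
  rw [Real.norm_eq_abs]
  have h1 := mul_le_mul_of_nonneg_left (hn p) hC0
  exact (hb _).trans (h1.trans (le_of_eq (by ring)))

end S0

end Pool.Agent.Saus2
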