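import Pool.Agent.Saus2.DefsC
import Pool.Agent.Saus2.G1
import Pool.Agent.Saus2.G3
import Pool.Agent.Saus2.GI

/-!
# Saus2, package G4: the normal vector nrm
-/

namespace Pool.Agent.Saus2

open MeasureTheory ProbabilityTheory Set Metric Filter Topology Real
open scoped InnerProductSpace
open Pool.Agent.Sausage27 (Eu Body skel hS betaV)

private theorem reorder_G4 {α β γ δ : Type*} [MeasurableSpace α] [MeasurableSpace β]
    [MeasurableSpace γ] [MeasurableSpace δ] (μa : Measure α) (μb : Measure β) (μc : Measure γ)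
    (μd : Measure δ) [SFinite μa] [SFinite μb] [SFinite μc] [SFinite μd] :
    MeasurePreserving (fun q : (α × β) × (γ × δ) => ((q.1.1, q.2.1), (q.1.2, q.2.2)))
      ((μa.prod μb).prod (μc.prod μd)) ((μa.prod μc).prod (μb.prod μd)) := by
  have h1 := measurePreserving_prodAssoc μa μb (μc.prod μd)
  have h2 := (MeasurePreserving.id μa).prod
    ((measurePreserving_prodAssoc μb μc μd).symm MeasurableEquiv.prodAssoc)
  have h3 := (MeasurePreserving.id μa).prod
    ((Measure.measurePreserving_swap (μ := μb) (ν := μc)).prod (MeasurePreserving.id μd))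
  have h4 := (MeasurePreserving.id μa).prod (measurePreserving_prodAssoc μc μb μd)
  have h5 := (measurePreserving_prodAssoc μa μc (μb.prod μd)).symm MeasurableEquiv.prodAssoc
  exact h5.comp (h4.comp (h3.comp (h2.comp h1)))

section S0

variable {E : Type*} [NormedAddCommGroup E] [InnerProductSpace ℝ E] [FiniteDimensional ℝ E]
  [MeasurableSpace E] [BorelSpace E]

private theorem perp_add_G4 (e x y : E) : perp e (x + y) = perp e x + perp e y := by
  unfold perp
  rw [inner_add_right, add_smul]
  abel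

private theorem perp_smul_G4 (e : E) (c : ℝ) (x : E) : perp e (c • x) = c • perp e x := by
  unfold perp
  rw [inner_smul_right, smul_sub, smul_smul]

private theorem inner_perp_G4 {e : E} (he : ‖e‖ = 1) (x : E) : ⟪perp e x, e⟫_ℝ = 0 := by
  unfold perp
  rw [inner_sub_left, real_inner_smul_left, real_inner_self_eq_norm_sq, he, real_inner_comm]
  ring

private theorem continuous_perp_G4 (e : E) : Continuous (perp e) := by
  unfold perp
  fun_prop

private theorem continuous_nrm_G4 (e : E) : Continuous (nrm e) := by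
  unfold nrm
  fun_prop

private theorem nrm_split_G4 {e : E} (he : ‖e‖ = 1) (s t : ℝ) (x y : E) :
    nrm e (s • e + perp e x, t • e + perp e y) = perp e (t • x + (-s) • y) := by
  have h1 : ∀ (r : ℝ) (z : E), ⟪r • e + perp e z, e⟫_ℝ = r := by
    intro r z
    rw [inner_add_left, real_inner_smul_left, real_inner_self_eq_norm_sq, he, inner_perp_G4 he]
    ring
  unfold nrm
  rw [h1, h1, perp_add_G4, perp_smul_G4, perp_smul_G4, smul_add, smul_add, smul_smul, smul_smul,
    mul_comm s t, neg_smul]
  abel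

private theorem inner_G4 {f : E → ℝ} (hf : Continuous f)
    (hhom : ∀ r : ℝ, 0 ≤ r → ∀ z, f (r • z) = r * f z) (e : E) (s t : ℝ) :
    ∫ y : E × E, f (perp e (t • y.1 + (-s) • y.2)) ∂((stdGaussian E).prod (stdGaussian E)) =
      √(s ^ 2 + t ^ 2) * ∫ x, f (perp e x) ∂(stdGaussian E) := by
  rcases eq_or_ne (s ^ 2 + t ^ 2) 0 with h0 | h0
  · have hs : s = 0 := by nlinarith [sq_nonneg s, sq_nonneg t]
    have ht : t = 0 := by nlinarith [sq_nonneg s, sq_nonneg t]
    have hf0 : f 0 = 0 := by
      have := hhom 0 le_rfl 0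
      rwa [zero_smul, zero_mul] at this
    have h1 : ∀ y : E × E, f (perp e (t • y.1 + (-s) • y.2)) = 0 := by
      intro y
      rw [hs, ht, neg_zero, zero_smul, zero_smul, add_zero]
      have h2 : perp e (0 : E) = 0 := by
        unfold perp
        rw [inner_zero_right, zero_smul, sub_zero]
      rw [h2, hf0]
    rw [h0, Real.sqrt_zero, zero_mul]
    simp only [h1, integral_zero]
  · have hpos : 0 < s ^ 2 + t ^ 2 := lt_of_le_of_ne (by positivity) (Ne.symm h0)
    set ρ := √(s ^ 2 + t ^ 2) with hρ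
    have hρ0 : 0 < ρ := Real.sqrt_pos.2 hpos
    have hρ2 : ρ ^ 2 = s ^ 2 + t ^ 2 := Real.sq_sqrt hpos.le
    have hab : (t / ρ) ^ 2 + (-s / ρ) ^ 2 = 1 := by
      rw [div_pow, div_pow, neg_sq, ← add_div, hρ2, add_comm, div_self hpos.ne']
    have h1 : ∀ y : E × E, f (perp e (t • y.1 + (-s) • y.2)) =
        ρ * f (perp e ((t / ρ) • y.1 + (-s / ρ) • y.2)) := by
      intro y
      rw [← hhom ρ hρ0.le, ← perp_smul_G4, smul_add, smul_smul, smul_smul,
        mul_div_cancel₀ _ hρ0.ne', mul_div_cancel₀ _ hρ0.ne']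
    simp only [h1]
    rw [integral_const_mul]
    congr 1
    have h2 := gauss_comb (E := E) hab
    have hm : Measurable fun p : E × E => (t / ρ) • p.1 + (-s / ρ) • p.2 :=
      Continuous.measurable (by fun_prop)
    conv_rhs => rw [← h2]
    exact (integral_map hm.aemeasurable
      ((hf.comp (continuous_perp_G4 e)).aestronglyMeasurable)).symm

/-- G1. Put `x = s e + perp e X`, `y = t e + perp e Y` (`gauss_split` twice): then
`nrm e (x, y) = perp e (t X - s Y)`; for fixed `(s, t) ≠ 0` and `ρ = √(s²+t²)` the vector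
`(t X - s Y) / ρ` is standard Gaussian (`gauss_comb`), so the inner integral is
`ρ ∫ f (perp e Z)`; finally `gauss_two`. -/
theorem nrm_mean {f : E → ℝ} (hf : Continuous f)
    (hhom : ∀ r : ℝ, 0 ≤ r → ∀ z, f (r • z) = r * f z) {e : E} (he : ‖e‖ = 1) :
    ∫ p, f (nrm e p) ∂((stdGaussian E).prod (stdGaussian E)) =
      √(π / 2) * ∫ x, f (perp e x) ∂(stdGaussian E) := by
  set γ := stdGaussian E with hγ
  set g := gaussianReal 0 1 with hg
  let T : ℝ × E → E := fun p => p.1 • e + perp e p.2
  have hTc : Continuous T :=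
    (continuous_fst.smul continuous_const).add ((continuous_perp_G4 e).comp continuous_snd)
  have hT : MeasurePreserving T (g.prod γ) γ := ⟨hTc.measurable, gauss_split he⟩
  have hTT : MeasurePreserving (Prod.map T T) ((g.prod γ).prod (g.prod γ)) (γ.prod γ) :=
    hT.prod hT
  have hS := hTT.comp (reorder_G4 g g γ γ)
  have hc : Continuous fun p : E × E => f (nrm e p) := hf.comp (continuous_nrm_G4 e)
  have hint := hS.integrable_comp_of_integrable (integrable_nrm hf hhom he)
  have h1 : ∫ p, f (nrm e p) ∂(γ.prod γ) =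
      ∫ q, f (nrm e ((Prod.map T T ∘ fun q : (ℝ × ℝ) × (E × E) =>
        ((q.1.1, q.2.1), (q.1.2, q.2.2))) q)) ∂((g.prod g).prod (γ.prod γ)) := by
    conv_lhs => rw [← hS.map_eq]
    rw [integral_map hS.measurable.aemeasurable hc.aestronglyMeasurable]
  rw [h1]
  refine (integral_prod _ hint).trans ?_
  have h2 : ∀ x : ℝ × ℝ, ∫ y : E × E, f (nrm e ((Prod.map T T ∘ fun q : (ℝ × ℝ) × (E × E) =>
        ((q.1.1, q.2.1), (q.1.2, q.2.2))) (x, y))) ∂(γ.prod γ) =
      √(x.1 ^ 2 + x.2 ^ 2) * ∫ x, f (perp e x) ∂γ := by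
    intro x
    rw [hγ, ← inner_G4 hf hhom e x.1 x.2]
    refine integral_congr_ae (Filter.Eventually.of_forall fun y => ?_)
    change f (nrm e (x.1 • e + perp e y.1, x.2 • e + perp e y.2)) = _
    rw [nrm_split_G4 he]
  refine (integral_congr_ae (Filter.Eventually.of_forall h2)).trans ?_
  rw [integral_mul_const, gauss_two]

end S0

end Pool.Agent.Saus2
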