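import Pool.Agent.Saus2.DefsC

/-!
# Saus2, package S1: areas of shadows
-/

namespace Pool.Agent.Saus2

open MeasureTheory ProbabilityTheory Set Metric Filter Topology Real
open scoped InnerProductSpace
open Pool.Agent.Sausage27 (Eu Body skel hS betaV)

section S0

variable {E : Type*} [NormedAddCommGroup E] [InnerProductSpace ℝ E]

private theorem shadowBddS1 {D : Set E} (hb : Bornology.IsBounded D) (p : E × E) :
    Bornology.IsBounded (shadow D p) :=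
  ((innerSL ℝ p.1).prod (innerSL ℝ p.2)).lipschitz.isBounded_image hb

private theorem shadowNeTopS1 {D : Set E} (hb : Bornology.IsBounded D) (p : E × E) :
    volume (shadow D p) ≠ ⊤ := (shadowBddS1 hb p).measure_lt_top.ne

theorem sarea_nonneg (D : Set E) (p : E × E) : 0 ≤ sarea D p := ENNReal.toReal_nonneg

theorem sarea_mono {D D' : Set E} (h : D ⊆ D') (hb : Bornology.IsBounded D') (p : E × E) :
    sarea D p ≤ sarea D' p :=
  ENNReal.toReal_mono (shadowNeTopS1 hb p) (measure_mono (image_mono h))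

private theorem volInnerS1 {D : Set E} {ρ : ℝ} (h : ∀ x ∈ D, ∀ y ∈ D, ‖x - y‖ ≤ ρ) (q : E) :
    volume ((fun z => ⟪q, z⟫_ℝ) '' D) ≤ ENNReal.ofReal (ρ * ‖q‖) := by
  refine (Real.volume_le_diam _).trans (Metric.ediam_le ?_)
  rintro _ ⟨x, hx, rfl⟩ _ ⟨y, hy, rfl⟩
  rw [edist_dist, Real.dist_eq]
  refine ENNReal.ofReal_le_ofReal ?_
  simp only
  rw [← inner_sub_right, mul_comm ρ]
  exact (abs_real_inner_le_norm _ _).trans
    (mul_le_mul_of_nonneg_left (h x hx y hy) (norm_nonneg _))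

/-- The shadow lies in a box with sides `ρ ‖p.1‖` and `ρ ‖p.2‖`. -/
theorem sarea_le {D : Set E} {ρ : ℝ} (hρ : 0 ≤ ρ) (h : ∀ x ∈ D, ∀ y ∈ D, ‖x - y‖ ≤ ρ)
    (p : E × E) : sarea D p ≤ ρ ^ 2 * (‖p.1‖ * ‖p.2‖) := by
  have h0 : 0 ≤ ρ ^ 2 * (‖p.1‖ * ‖p.2‖) := by positivity
  refine ENNReal.toReal_le_of_le_ofReal h0 ?_
  have h1 : shadow D p ⊆ ((fun z => ⟪p.1, z⟫_ℝ) '' D) ×ˢ ((fun z => ⟪p.2, z⟫_ℝ) '' D) := by
    rintro _ ⟨x, hx, rfl⟩
    exact ⟨⟨x, hx, rfl⟩, ⟨x, hx, rfl⟩⟩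
  calc volume (shadow D p)
      ≤ volume (((fun z => ⟪p.1, z⟫_ℝ) '' D) ×ˢ ((fun z => ⟪p.2, z⟫_ℝ) '' D)) :=
        measure_mono h1
    _ = volume ((fun z => ⟪p.1, z⟫_ℝ) '' D) * volume ((fun z => ⟪p.2, z⟫_ℝ) '' D) := by
        rw [Measure.volume_eq_prod, Measure.prod_prod]
    _ ≤ ENNReal.ofReal (ρ * ‖p.1‖) * ENNReal.ofReal (ρ * ‖p.2‖) :=
        mul_le_mul' (volInnerS1 h p.1) (volInnerS1 h p.2)
    _ = ENNReal.ofReal (ρ ^ 2 * (‖p.1‖ * ‖p.2‖)) := by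
        rw [← ENNReal.ofReal_mul (by positivity)]
        congr 1
        ring

theorem sarea_le_sum {ι : Type*} (S : Finset ι) (Di : ι → Set E) {D : Set E}
    (hb : ∀ i ∈ S, Bornology.IsBounded (Di i)) (h : D ⊆ ⋃ i ∈ S, Di i) (p : E × E) :
    sarea D p ≤ ∑ i ∈ S, sarea (Di i) p := by
  have h1 : shadow D p ⊆ ⋃ i ∈ S, shadow (Di i) p := by
    rintro _ ⟨x, hx, rfl⟩
    have h2 := h hx
    simp only [mem_iUnion] at h2 ⊢
    obtain ⟨i, hi, h3⟩ := h2
    exact ⟨i, hi, ⟨x, h3, rfl⟩⟩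
  have hfin : ∀ i ∈ S, volume (shadow (Di i) p) ≠ ⊤ := fun i hi => shadowNeTopS1 (hb i hi) p
  unfold sarea
  rw [← ENNReal.toReal_sum hfin]
  refine ENNReal.toReal_mono ?_ ((measure_mono h1).trans (measure_biUnion_finset_le S _))
  exact (ENNReal.sum_lt_top.2 fun i hi => (hfin i hi).lt_top).ne

theorem sarea_translate (D : Set E) (a : E) (p : E × E) :
    sarea ((fun x => x + a) '' D) p = sarea D p := by
  have h1 : shadow ((fun x => x + a) '' D) p =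
      (fun w : ℝ × ℝ => w + (⟪p.1, a⟫_ℝ, ⟪p.2, a⟫_ℝ)) '' shadow D p := by
    unfold shadow
    rw [image_image, image_image]
    refine image_congr fun x _ => ?_
    simp only [inner_add_right, Prod.mk_add_mk]
  unfold sarea
  rw [h1, image_add_right, measure_preimage_add_right]

end S0

end Pool.Agent.Saus2
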