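import Pool.Agent.Saus2.DefsC
import Pool.Agent.Saus2.S1
import Pool.Agent.Saus2.GI

/-!
# Saus2, package L1: integrability of the area of the shadow
-/

namespace Pool.Agent.Saus2

open MeasureTheory ProbabilityTheory Set Metric Filter Topology Real
open scoped InnerProductSpace
open Pool.Agent.Sausage27 (Eu Body skel hS betaV)

section S0

variable {E : Type*} [NormedAddCommGroup E] [InnerProductSpace ℝ E] [FiniteDimensional ℝ E]
  [MeasurableSpace E] [BorelSpace E]

omit [FiniteDimensional ℝ E] [MeasurableSpace E] [BorelSpace E] in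
private theorem isClosed_L1 {D : Set E} (hD : IsCompact D) :
    IsClosed {q : (E × E) × (ℝ × ℝ) | q.2 ∈ shadow D q.1} := by
  have : CompactSpace D := isCompact_iff_compactSpace.1 hD
  have h1 : IsClosed {q : D × ((E × E) × (ℝ × ℝ)) |
      (⟪q.2.1.1, (q.1 : E)⟫_ℝ, ⟪q.2.1.2, (q.1 : E)⟫_ℝ) = q.2.2} :=
    isClosed_eq (by fun_prop) (by fun_prop)
  have h2 := isClosedMap_snd_of_compactSpace _ h1
  convert h2 using 1
  ext q
  constructor
  · rintro ⟨z, hz, hq⟩
    exact ⟨(⟨z, hz⟩, q), hq, rfl⟩
  · rintro ⟨⟨z, q'⟩, hq, rfl⟩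
    exact ⟨z, z.2, hq⟩

/-- L1. The set `{(p, w) | w ∈ shadow D p}` is closed (projection along the compact `D`), so
`p ↦ volume (shadow D p)` is measurable (`measurable_measure_prodMk_left`); it is bounded by
`(2R)² ‖p.1‖ ‖p.2‖`, which is integrable. -/
theorem integrable_sarea {D : Set E} (hD : Body D) :
    Integrable (fun p : E × E => sarea D p) ((stdGaussian E).prod (stdGaussian E)) := by
  obtain ⟨ρ, hρ, hb, -, -⟩ := hD.exists_bound
  have h1 : ∀ x ∈ D, ∀ y ∈ D, ‖x - y‖ ≤ 2 * ρ := fun x hx y hy => by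
    have h2 := norm_sub_le x y
    have h3 := hb x hx
    have h4 := hb y hy
    linarith
  have h2 : Measurable fun p : E × E => sarea D p := by
    have h3 : Measurable fun p : E × E => (volume : Measure (ℝ × ℝ))
        (Prod.mk p ⁻¹' {q : (E × E) × (ℝ × ℝ) | q.2 ∈ shadow D q.1}) :=
      measurable_measure_prodMk_left (isClosed_L1 hD.comp).measurableSet
    exact h3.ennreal_toReal
  refine Integrable.mono' ((integrable_norm_mul (E := E)).const_mul ((2 * ρ) ^ 2))
    h2.aestronglyMeasurable (Filter.Eventually.of_forall fun p => ?_)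
  rw [Real.norm_eq_abs, abs_of_nonneg (sarea_nonneg D p)]
  exact sarea_le (by positivity) h1 p

end S0

end Pool.Agent.Saus2
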