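import Pool.Agent.Saus2.DefsC

/-!
# Saus2, package P1: area of a parallelogram
-/

namespace Pool.Agent.Saus2

open MeasureTheory ProbabilityTheory Set Metric Filter Topology Real
open scoped InnerProductSpace
open Pool.Agent.Sausage27 (Eu Body skel hS betaV)

/-- The linear map `(s, t) ↦ s b + t c`. -/
private noncomputable def lmap_P1 (b c : ℝ × ℝ) : ℝ × ℝ →ₗ[ℝ] ℝ × ℝ :=
  (LinearMap.fst ℝ ℝ ℝ).smulRight b + (LinearMap.snd ℝ ℝ ℝ).smulRight c

private theorem lmap_apply_P1 (b c q : ℝ × ℝ) : lmap_P1 b c q = q.1 • b + q.2 • c := rfl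

private theorem lmap_det_P1 (b c : ℝ × ℝ) :
    LinearMap.det (lmap_P1 b c) = b.1 * c.2 - b.2 * c.1 := by
  rw [← LinearMap.det_toMatrix (Module.Basis.finTwoProd ℝ), Matrix.det_fin_two]
  simp only [LinearMap.toMatrix_apply, lmap_apply_P1, Module.Basis.finTwoProd_zero,
    Module.Basis.finTwoProd_one, Module.Basis.coe_finTwoProd_repr, Matrix.cons_val_zero,
    Matrix.cons_val_one, one_smul, zero_smul, add_zero, zero_add]
  ring

/-- P1. The parallelogram is the translate of the image of the unit square under the linear map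
with matrix `(b, c)`; `MeasureTheory.Measure.addHaar_image_linearMap`. -/
theorem par_area (A b c : ℝ × ℝ) :
    volume ((fun q : ℝ × ℝ => A + q.1 • b + q.2 • c) '' (Icc 0 1 ×ˢ Icc 0 1)) =
      ENNReal.ofReal |b.1 * c.2 - b.2 * c.1| := by
  have h1 : (fun q : ℝ × ℝ => A + q.1 • b + q.2 • c) '' (Icc 0 1 ×ˢ Icc 0 1) =
      (fun x => A + x) '' (lmap_P1 b c '' (Icc 0 1 ×ˢ Icc 0 1)) := by
    rw [Set.image_image]
    refine Set.image_congr fun q _ => ?_
    rw [lmap_apply_P1, add_assoc]
  rw [h1, Set.image_add_left, measure_preimage_add, Measure.addHaar_image_linearMap, lmap_det_P1,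
    Measure.volume_eq_prod, Measure.prod_prod, Real.volume_Icc]
  simp

end Pool.Agent.Saus2
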