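import Pool.Agent.Saus2.DefsC
import Pool.Agent.Saus2.P1
import Pool.Agent.Saus2.S1

/-!
# Saus2, package L2: the cylinder
-/

namespace Pool.Agent.Saus2

open MeasureTheory ProbabilityTheory Set Metric Filter Topology Real
open scoped InnerProductSpace
open Pool.Agent.Sausage27 (Eu Body skel hS betaV)

section aux

variable {E : Type*} [NormedAddCommGroup E] [InnerProductSpace ℝ E]

private theorem perp_add_L2 (e x y : E) : perp e (x + y) = perp e x + perp e y := by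
  unfold perp
  rw [inner_add_right, add_smul]
  abel

private theorem perp_smul_L2 (e : E) (c : ℝ) (x : E) : perp e (c • x) = c • perp e x := by
  unfold perp
  rw [inner_smul_right, smul_sub, smul_smul]

private theorem eq_add_L2 (e x : E) : x = ⟪e, x⟫_ℝ • e + perp e x := by
  unfold perp
  abel

private theorem inner_perp_L2 {e : E} (he : ‖e‖ = 1) (x : E) : ⟪e, perp e x⟫_ℝ = 0 := by
  unfold perp
  rw [inner_sub_right, inner_smul_right, real_inner_self_eq_norm_sq, he]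
  ring

private theorem dist_L2 {e : E} (he : ‖e‖ = 1) (x : E) (c : ℝ) :
    ‖x - c • e‖ ^ 2 = ‖perp e x‖ ^ 2 + (⟪e, x⟫_ℝ - c) ^ 2 := by
  have h1 : x - c • e = perp e x + (⟪e, x⟫_ℝ - c) • e := by
    unfold perp
    rw [sub_smul]
    abel
  rw [h1, norm_add_sq_real, inner_smul_right, real_inner_comm e (perp e x),
    inner_perp_L2 he, norm_smul, he, mul_one, Real.norm_eq_abs, sq_abs]
  ring

end aux

section S0

variable {E : Type*} [NormedAddCommGroup E] [InnerProductSpace ℝ E] [FiniteDimensional ℝ E]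

theorem cyl_body {e : E} (he : ‖e‖ = 1) {L r : ℝ} (hL : 0 ≤ L) (hr : 0 ≤ r) :
    Body (cyl e L r) := by
  refine ⟨?_, ?_, ⟨0, ?_⟩⟩
  · rintro x ⟨x1, x2, x3⟩ y ⟨y1, y2, y3⟩ a b ha hb hab
    refine ⟨?_, ?_, ?_⟩
    · rw [inner_add_right, inner_smul_right, inner_smul_right]
      positivity
    · rw [inner_add_right, inner_smul_right, inner_smul_right]
      have h1 := mul_le_mul_of_nonneg_left x2 ha
      have h2 := mul_le_mul_of_nonneg_left y2 hb
      have h3 : a * L + b * L = L := by rw [← add_mul, hab, one_mul]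
      linarith
    · rw [perp_add_L2, perp_smul_L2, perp_smul_L2]
      refine (norm_add_le _ _).trans ?_
      rw [norm_smul, norm_smul, Real.norm_of_nonneg ha, Real.norm_of_nonneg hb]
      have h1 := mul_le_mul_of_nonneg_left x3 ha
      have h2 := mul_le_mul_of_nonneg_left y3 hb
      have h3 : a * r + b * r = r := by rw [← add_mul, hab, one_mul]
      linarith
  · refine Metric.isCompact_of_isClosed_isBounded ?_ ?_
    · have h1 : cyl e L r = {x | 0 ≤ ⟪e, x⟫_ℝ} ∩ ({x | ⟪e, x⟫_ℝ ≤ L} ∩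
          {x | ‖x - ⟪e, x⟫_ℝ • e‖ ≤ r}) := rfl
      rw [h1]
      refine (isClosed_le continuous_const (by fun_prop)).inter
        ((isClosed_le (by fun_prop) continuous_const).inter
          (isClosed_le (by fun_prop) continuous_const))
    · refine (Metric.isBounded_closedBall (x := (0 : E)) (r := L + r)).subset ?_
      rintro x ⟨x1, x2, x3⟩
      rw [mem_closedBall_zero_iff]
      calc ‖x‖ = ‖⟪e, x⟫_ℝ • e + perp e x‖ := by rw [← eq_add_L2]
        _ ≤ ‖⟪e, x⟫_ℝ • e‖ + ‖perp e x‖ := norm_add_le _ _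
        _ ≤ L + r := by
          rw [norm_smul, he, mul_one, Real.norm_of_nonneg x1]
          exact add_le_add x2 x3
  · refine ⟨?_, ?_, ?_⟩
    · rw [inner_zero_right]
    · rw [inner_zero_right]
      exact hL
    · have h1 : perp e (0 : E) = 0 := by
        unfold perp
        rw [inner_zero_right, zero_smul, sub_zero]
      rw [h1, norm_zero]
      exact hr

/-- L2. The shadow of the cylinder contains the parallelogram spanned by `L (⟪p.1,e⟫, ⟪p.2,e⟫)`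
and `2 r (⟪p.1,v⟫, ⟪p.2,v⟫)`, `v = nrm e p / ‖nrm e p‖` (orthogonal to `e`); `par_area`. -/
theorem cyl_area {e : E} (he : ‖e‖ = 1) {L r : ℝ} (hL : 0 ≤ L) (hr : 0 ≤ r) (p : E × E) :
    2 * r * L * ‖nrm e p‖ ≤ sarea (cyl e L r) p := by
  by_cases hw : nrm e p = 0
  · rw [hw, norm_zero, mul_zero]
    exact ENNReal.toReal_nonneg
  have hn : 0 < ‖nrm e p‖ := norm_pos_iff.2 hw
  obtain ⟨v, hv⟩ : ∃ v, v = ‖nrm e p‖⁻¹ • nrm e p := ⟨_, rfl⟩
  have hv1 : ‖v‖ = 1 := by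
    rw [hv, norm_smul, norm_inv, norm_norm, inv_mul_cancel₀ hn.ne']
  have hew : ⟪e, nrm e p⟫_ℝ = 0 := by
    unfold nrm
    rw [inner_sub_right, inner_smul_right, inner_smul_right, real_inner_comm e p.1,
      real_inner_comm e p.2]
    ring
  have hev : ⟪e, v⟫_ℝ = 0 := by
    rw [hv, inner_smul_right, hew, mul_zero]
  have hvw : ⟪nrm e p, v⟫_ℝ = ‖nrm e p‖ := by
    rw [hv, inner_smul_right, real_inner_self_eq_norm_sq]
    field_simp
  have hvw' : ⟪p.2, e⟫_ℝ * ⟪p.1, v⟫_ℝ - ⟪p.1, e⟫_ℝ * ⟪p.2, v⟫_ℝ = ‖nrm e p‖ := by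
    rw [← hvw]
    unfold nrm
    rw [inner_sub_left, inner_smul_left, inner_smul_left]
    simp
  have hee : ⟪e, e⟫_ℝ = 1 := by
    rw [real_inner_self_eq_norm_sq, he]
    norm_num
  -- the parallelogram
  have hsub : (fun q : ℝ × ℝ => (-r * ⟪p.1, v⟫_ℝ, -r * ⟪p.2, v⟫_ℝ) +
      q.1 • (L * ⟪p.1, e⟫_ℝ, L * ⟪p.2, e⟫_ℝ) +
      q.2 • (2 * r * ⟪p.1, v⟫_ℝ, 2 * r * ⟪p.2, v⟫_ℝ)) '' (Icc 0 1 ×ˢ Icc 0 1) ⊆
      shadow (cyl e L r) p := by
    rintro _ ⟨⟨a, b⟩, ⟨⟨a1, a2⟩, ⟨b1, b2⟩⟩, rfl⟩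
    have b1' : 0 ≤ b := b1
    have b2' : b ≤ 1 := b2
    have a1' : 0 ≤ a := a1
    have a2' : a ≤ 1 := a2
    have hin : ⟪e, (a * L) • e + ((2 * b - 1) * r) • v⟫_ℝ = a * L := by
      rw [inner_add_right, inner_smul_right, inner_smul_right, hee, hev]
      ring
    refine ⟨(a * L) • e + ((2 * b - 1) * r) • v, ⟨?_, ?_, ?_⟩, ?_⟩
    · rw [hin]
      positivity
    · rw [hin]
      have := mul_le_mul_of_nonneg_right a2' hL
      linarith
    · have h1 : perp e ((a * L) • e + ((2 * b - 1) * r) • v) = ((2 * b - 1) * r) • v := by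
        unfold perp
        rw [hin]
        abel
      rw [h1, norm_smul, hv1, mul_one, Real.norm_eq_abs, abs_mul, abs_of_nonneg hr]
      have h2 : |2 * b - 1| ≤ 1 := by
        rw [abs_le]
        constructor <;> linarith
      have := mul_le_mul_of_nonneg_right h2 hr
      linarith
    · refine Prod.ext ?_ ?_
      · simp only [inner_add_right, inner_smul_right, Prod.fst_add, Prod.smul_mk, smul_eq_mul]
        ring
      · simp only [inner_add_right, inner_smul_right, Prod.snd_add, Prod.smul_mk, smul_eq_mul]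
        ring
  have hfin : volume (shadow (cyl e L r) p) ≠ ⊤ := by
    refine (IsCompact.measure_lt_top ?_).ne
    exact (cyl_body he hL hr).comp.image (by fun_prop)
  have h1 := measure_mono (μ := volume) hsub
  rw [par_area] at h1
  have h2 : |L * ⟪p.1, e⟫_ℝ * (2 * r * ⟪p.2, v⟫_ℝ) - L * ⟪p.2, e⟫_ℝ * (2 * r * ⟪p.1, v⟫_ℝ)| =
      2 * r * L * ‖nrm e p‖ := by
    have h3 : L * ⟪p.1, e⟫_ℝ * (2 * r * ⟪p.2, v⟫_ℝ) - L * ⟪p.2, e⟫_ℝ * (2 * r * ⟪p.1, v⟫_ℝ) =
        -(2 * r * L * ‖nrm e p‖) := by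
      rw [← hvw']
      ring
    rw [h3, abs_neg, abs_of_nonneg (by positivity)]
  have h4 := (ENNReal.ofReal_le_iff_le_toReal hfin).1 h1
  rw [← h2]
  exact h4

end S0

/-- L3. The cylinder of length `√2 n` and radius `1/√2` is covered by the `n` unit balls centred
at `√2 (j + 1/2) e`. -/
theorem cyl_cover {E : Type*} [NormedAddCommGroup E] [InnerProductSpace ℝ E] {e : E}
    (he : ‖e‖ = 1) {n : ℕ} (hn : 1 ≤ n) :
    cyl e (√2 * n) (1 / √2) ⊆ ⋃ j : Fin n, closedBall ((√2 * ((j : ℝ) + 1 / 2)) • e) 1 := by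
  rintro x ⟨x1, x2, x3⟩
  have h2 : (0 : ℝ) < √2 := by positivity
  have h22 : √2 * √2 = 2 := Real.mul_self_sqrt (by norm_num)
  obtain ⟨a, ha⟩ : ∃ a, a = ⟪e, x⟫_ℝ / √2 := ⟨_, rfl⟩
  have hax : ⟪e, x⟫_ℝ = √2 * a := by
    rw [ha]
    field_simp
  have ha0 : 0 ≤ a := by
    rw [ha]
    positivity
  have han : a ≤ n := by
    rw [hax] at x2
    exact le_of_mul_le_mul_left x2 h2
  obtain ⟨j, hj, hj1, hj2⟩ : ∃ j : ℕ, j < n ∧ (j : ℝ) ≤ a ∧ a ≤ j + 1 := by
    rcases Nat.lt_or_ge ⌊a⌋₊ n with h | h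
    · exact ⟨⌊a⌋₊, h, Nat.floor_le ha0, (Nat.lt_floor_add_one a).le⟩
    · have h3 : (n : ℝ) ≤ a := (Nat.cast_le.2 h).trans (Nat.floor_le ha0)
      refine ⟨n - 1, by omega, ?_, ?_⟩
      · rw [Nat.cast_sub hn]
        push_cast
        linarith
      · rw [Nat.cast_sub hn]
        push_cast
        linarith
  refine mem_iUnion.2 ⟨⟨j, hj⟩, ?_⟩
  rw [mem_closedBall, dist_eq_norm]
  have h5 := dist_L2 he x (√2 * ((j : ℝ) + 1 / 2))
  have h6 : ‖perp e x‖ ^ 2 ≤ 1 / 2 := by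
    have h7 : ‖perp e x‖ ^ 2 ≤ (1 / √2) ^ 2 := pow_le_pow_left₀ (norm_nonneg _) x3 2
    rwa [div_pow, one_pow, sq (√2), h22] at h7
  have h8 : (⟪e, x⟫_ℝ - √2 * ((j : ℝ) + 1 / 2)) ^ 2 ≤ 1 / 2 := by
    have h9 : (⟪e, x⟫_ℝ - √2 * ((j : ℝ) + 1 / 2)) ^ 2 = √2 * √2 * (a - j - 1 / 2) ^ 2 := by
      rw [hax]
      ring
    rw [h9, h22]
    nlinarith
  have h10 : ‖x - (√2 * ((j : ℝ) + 1 / 2)) • e‖ ^ 2 ≤ 1 ^ 2 := by
    rw [h5]
    linarith
  exact (pow_le_pow_iff_left₀ (norm_nonneg _) zero_le_one two_ne_zero).1 h10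

end Pool.Agent.Saus2
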