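import Pool.Agent.Saus2.DefsC
import Pool.Agent.Saus2.L1
import Pool.Agent.Saus2.L2
import Pool.Agent.Saus2.G3
import Pool.Agent.Saus2.G4
import Pool.Agent.Saus2.GI

/-!
# Saus2, package L3: the lower bound
-/

namespace Pool.Agent.Saus2

open MeasureTheory ProbabilityTheory Set Metric Filter Topology Real
open scoped InnerProductSpace
open Pool.Agent.Sausage27 (Eu Body skel hS betaV)

/-- The lower bound: the cylinder of length `√2 n` and radius `1/√2` (`cyl_cover`, `cyl_area`,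
`integrable_sarea`, `nrm_mean` with `f = ‖·‖`, `gauss_perp`). -/
theorem lower {d : ℕ} (hd : 2 ≤ d) {n : ℕ} (hn : 1 ≤ n) :
    ∃ D : Set (Eu d), Body D ∧ (∃ c : Fin n → Eu d, D ⊆ ⋃ j, closedBall (c j) 1) ∧
      betaV d * n ≤ V2 D := by
  obtain ⟨e, he⟩ : ∃ e : Eu d, ‖e‖ = 1 :=
    ⟨EuclideanSpace.single ⟨0, by omega⟩ (1 : ℝ), by simp⟩
  have hL : (0 : ℝ) ≤ √2 * n := by positivity
  have hr : (0 : ℝ) ≤ 1 / √2 := by positivity
  have hB : Body (cyl e (√2 * n) (1 / √2)) := cyl_body he hL hr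
  refine ⟨cyl e (√2 * n) (1 / √2), hB, ⟨_, cyl_cover he hn⟩, ?_⟩
  have hhom : ∀ r : ℝ, 0 ≤ r → ∀ z : Eu d, ‖r • z‖ = r * ‖z‖ := fun r hr0 z => by
    rw [norm_smul, Real.norm_of_nonneg hr0]
  have h1 := nrm_mean (E := Eu d) (f := fun z => ‖z‖) continuous_norm hhom he
  rw [gauss_perp hd (by simp) he] at h1
  have h2 := integrable_nrm (E := Eu d) (f := fun z => ‖z‖) continuous_norm hhom he
  have h3 : ∫ p : Eu d × Eu d, 2 * (1 / √2) * (√2 * n) * ‖nrm e p‖
      ∂((stdGaussian (Eu d)).prod (stdGaussian (Eu d))) ≤ V2 (cyl e (√2 * n) (1 / √2)) := by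
    refine integral_mono (h2.const_mul _) (integrable_sarea hB) fun p => ?_
    exact cyl_area he hL hr p
  rw [integral_const_mul, h1] at h3
  refine le_trans (le_of_eq ?_) h3
  have h4 : √(2 * π) = 2 * √(π / 2) := by
    rw [show 2 * π = 2 ^ 2 * (π / 2) by ring, Real.sqrt_mul (by positivity),
      Real.sqrt_sq (by norm_num)]
  have h5 : √(π / 2) ≠ 0 := by positivity
  have h6 : √2 ≠ 0 := by positivity
  rw [h4]
  field_simp

end Pool.Agent.Saus2
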