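import Pool.Agent.Saus2.Upper
import Pool.Agent.Saus2.L3

/-!
# Saus2: the lower bound with aligned, equally spaced balls
-/

namespace Pool.Agent.Saus2

open MeasureTheory ProbabilityTheory Set Metric Filter Topology Real
open scoped InnerProductSpace
open Pool.Agent.Sausage27 (Eu Body skel hS betaV)

/-- The lower bound, with centres in arithmetic progression. -/
theorem lower_aligned {d : ℕ} (hd : 2 ≤ d) {n : ℕ} (hn : 1 ≤ n) :
    ∃ (D : Set (Eu d)) (p v : Eu d), Body D ∧
      D ⊆ ⋃ j : Fin n, closedBall (p + ((j : ℕ) : ℝ) • v) 1 ∧ betaV d * n ≤ V2 D := by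
  obtain ⟨e, he⟩ : ∃ e : Eu d, ‖e‖ = 1 := by
    have : Nonempty (Fin d) := ⟨⟨0, by omega⟩⟩
    exact exists_norm_eq (Eu d) zero_le_one
  have hn0 : (0 : ℝ) ≤ n := Nat.cast_nonneg n
  have hL : (0 : ℝ) ≤ √2 * n := by positivity
  have hr : (0 : ℝ) ≤ 1 / √2 := by positivity
  have hb : Body (cyl e (√2 * n) (1 / √2)) := cyl_body he hL hr
  refine ⟨cyl e (√2 * n) (1 / √2), (√2 * (1 / 2)) • e, √2 • e, hb, ?_, ?_⟩
  · refine (cyl_cover he hn).trans (iUnion_mono fun j => ?_)
    have h1 : (√2 * (((j : ℕ) : ℝ) + 1 / 2)) • e = (√2 * (1 / 2)) • e + ((j : ℕ) : ℝ) • √2 • e := by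
      rw [smul_smul, ← add_smul]
      congr 1
      ring
    rw [h1]
  · have hs : 2 * (1 / √2) * (√2 * n) = 2 * (n : ℝ) := by
      have : √2 ≠ 0 := by positivity
      field_simp
    have hhom : ∀ r : ℝ, 0 ≤ r → ∀ z : Eu d, ‖r • z‖ = r * ‖z‖ := fun r hr z => by
      rw [norm_smul, Real.norm_of_nonneg hr]
    have h1 : ∫ p : Eu d × Eu d, 2 * (1 / √2) * (√2 * n) * ‖nrm e p‖
        ∂((stdGaussian (Eu d)).prod (stdGaussian (Eu d))) ≤
        ∫ p, sarea (cyl e (√2 * n) (1 / √2)) p
          ∂((stdGaussian (Eu d)).prod (stdGaussian (Eu d))) :=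
      integral_mono ((integrable_nrm (f := fun z => ‖z‖) continuous_norm hhom he).const_mul _)
        (integrable_sarea hb) fun p => cyl_area he hL hr p
    rw [integral_const_mul, hs, nrm_mean (f := fun z => ‖z‖) continuous_norm hhom he,
      gauss_perp (by omega) (by simp) he] at h1
    have h2 : √(π / 2) * (betaV d / √(2 * π)) = betaV d / 2 := by
      have hp := Real.pi_pos
      have e1 : √(2 * π) = 2 * √(π / 2) := by
        rw [show 2 * π = 2 ^ 2 * (π / 2) by ring, Real.sqrt_mul (by norm_num),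
          Real.sqrt_sq (by norm_num)]
      have e2 : √(π / 2) ≠ 0 := by positivity
      rw [e1]
      field_simp
    rw [h2] at h1
    have h3 : betaV d * n = 2 * n * (betaV d / 2) := by ring
    rw [h3]
    exact h1

end Pool.Agent.Saus2
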