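import Pool.Agent.Saus2.DefsC
import Pool.Agent.Saus2.G1
import Pool.Agent.Saus2.G2
import Pool.Agent.Saus2.G3
import Pool.Agent.Saus2.CB
import Pool.Agent.Saus2.GI

/-!
# Saus2, package G5: mean of the wedge
-/

namespace Pool.Agent.Saus2

open MeasureTheory ProbabilityTheory Set Metric Filter Topology Real
open scoped InnerProductSpace
open Pool.Agent.Sausage27 (Eu Body skel hS betaV)

section S0

variable {E : Type*} [NormedAddCommGroup E] [InnerProductSpace ℝ E] [FiniteDimensional ℝ E]
  [MeasurableSpace E] [BorelSpace E]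

private theorem G5_wedge_nonneg (p : E × E) : 0 ≤ wedge p := Real.sqrt_nonneg _

private theorem G5_wedge_le (p : E × E) : wedge p ≤ ‖p.1‖ * ‖p.2‖ := by
  unfold wedge
  rw [show ‖p.1‖ * ‖p.2‖ = √((‖p.1‖ * ‖p.2‖) ^ 2) by
    rw [Real.sqrt_sq (by positivity)]]
  apply Real.sqrt_le_sqrt
  nlinarith [sq_nonneg (⟪p.1, p.2⟫_ℝ)]

private theorem G5_wedge_cont : Continuous (fun p : E × E => wedge p) := by
  unfold wedge
  fun_prop

private theorem G5_wedge_int :
    Integrable (fun p : E × E => wedge p) ((stdGaussian E).prod (stdGaussian E)) := by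
  refine Integrable.mono' integrable_norm_mul G5_wedge_cont.aestronglyMeasurable ?_
  refine Filter.Eventually.of_forall fun p => ?_
  rw [Real.norm_of_nonneg (G5_wedge_nonneg p)]
  exact G5_wedge_le p

private theorem G5_perp_norm {e : E} (he : ‖e‖ = 1) (y : E) :
    ‖perp e y‖ ^ 2 = ‖y‖ ^ 2 - ⟪e, y⟫_ℝ ^ 2 := by
  unfold perp
  rw [norm_sub_sq_real, norm_smul, he, real_inner_smul_right, real_inner_comm, Real.norm_eq_abs,
    mul_one, sq_abs]
  ring

private theorem G5_wedge_eq (x y : E) :
    wedge (x, y) = ‖x‖ * ‖perp (‖x‖⁻¹ • x) y‖ := by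
  by_cases hx : x = 0
  · subst hx
    simp [wedge]
  · have hn : ‖x‖ ≠ 0 := norm_ne_zero_iff.2 hx
    have he : ‖‖x‖⁻¹ • x‖ = 1 := by
      rw [norm_smul, norm_inv, norm_norm, inv_mul_cancel₀ hn]
    unfold wedge
    rw [← Real.sqrt_sq (show 0 ≤ ‖x‖ * ‖perp (‖x‖⁻¹ • x) y‖ by positivity)]
    congr 1
    rw [mul_pow, G5_perp_norm he, real_inner_smul_left]
    field_simp

/-- G4. `wedge (x, y) = ‖x‖ ‖perp e y‖` with `e = x / ‖x‖`; inner integral `gauss_perp`, outer
`gauss_norm_mean`, and `betaV_mul`. -/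
theorem wedge_mean {j : ℕ} (hj : 2 ≤ j) (hE : Module.finrank ℝ E = j) :
    ∫ p : E × E, wedge p ∂((stdGaussian E).prod (stdGaussian E)) = j - 1 := by
  rw [integral_prod _ G5_wedge_int]
  have h1 : ∀ x : E, ∫ y, wedge (x, y) ∂(stdGaussian E) = ‖x‖ * (betaV j / √(2 * π)) := by
    intro x
    by_cases hx : x = 0
    · subst hx
      simp [wedge]
    · have hn : ‖x‖ ≠ 0 := norm_ne_zero_iff.2 hx
      have he : ‖‖x‖⁻¹ • x‖ = 1 := by
        rw [norm_smul, norm_inv, norm_norm, inv_mul_cancel₀ hn]
      simp_rw [G5_wedge_eq x]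
      rw [integral_const_mul, gauss_perp hj hE he]
  simp_rw [h1]
  rw [integral_mul_const, gauss_norm_mean (by omega) hE]
  have h2 := betaV_mul hj
  have h3 : (√(2 * π)) ^ 2 = 2 * π := Real.sq_sqrt (by positivity)
  have h4 : √(2 * π) ≠ 0 := by positivity
  have hpi : π ≠ 0 := Real.pi_ne_zero
  rw [div_mul_div_comm, ← sq, h3, mul_comm (betaV (j + 1)), h2]
  field_simp

private theorem G5_wedge_proj (W : Submodule ℝ E) (p : E × E) :
    wedge (W.starProjection p.1, W.starProjection p.2) =
      wedge (W.orthogonalProjectionOnto p.1, W.orthogonalProjectionOnto p.2) := by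
  unfold wedge
  simp only [Submodule.starProjection_apply]
  rfl

/-- G4'. By `gauss_sub` for both variables and `wedge_mean` in `W`. -/
theorem wedge_mean_proj (W : Submodule ℝ E) (hW : 2 ≤ Module.finrank ℝ W) :
    ∫ p : E × E, wedge (W.starProjection p.1, W.starProjection p.2)
      ∂((stdGaussian E).prod (stdGaussian E)) = Module.finrank ℝ W - 1 := by
  simp_rw [G5_wedge_proj W]
  rw [← wedge_mean (E := W) hW rfl]
  have hm : Measurable (fun x : E => W.orthogonalProjectionOnto x) :=
    (W.orthogonalProjectionOnto).continuous.measurable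
  have h1 : ((stdGaussian E).prod (stdGaussian E)).map
      (Prod.map (fun x => W.orthogonalProjectionOnto x) (fun x => W.orthogonalProjectionOnto x)) =
      (stdGaussian W).prod (stdGaussian W) := by
    rw [← Measure.map_prod_map _ _ hm hm, gauss_sub W]
  rw [← h1, integral_map (hm.prodMap hm).aemeasurable G5_wedge_cont.aestronglyMeasurable]
  rfl

theorem integrable_wedge_proj (W : Submodule ℝ E) :
    Integrable (fun p : E × E => wedge (W.starProjection p.1, W.starProjection p.2))
      ((stdGaussian E).prod (stdGaussian E)) := by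
  have hc : Continuous (fun p : E × E => wedge (W.starProjection p.1, W.starProjection p.2)) :=
    G5_wedge_cont.comp (by fun_prop)
  refine Integrable.mono' integrable_norm_mul hc.aestronglyMeasurable ?_
  refine Filter.Eventually.of_forall fun p => ?_
  rw [Real.norm_of_nonneg (G5_wedge_nonneg _)]
  refine (G5_wedge_le _).trans ?_
  have h1 : ‖W.starProjection p.1‖ ≤ ‖p.1‖ := W.norm_starProjection_apply_le p.1
  have h2 : ‖W.starProjection p.2‖ ≤ ‖p.2‖ := W.norm_starProjection_apply_le p.2
  exact mul_le_mul h1 h2 (norm_nonneg _) (norm_nonneg _)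

end S0

end Pool.Agent.Saus2
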