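import Pool.Agent.Saus2.DefsC

/-!
# Saus2, package K1: invariant measures on the sphere
-/

namespace Pool.Agent.Saus2

open MeasureTheory ProbabilityTheory Set Metric Filter Topology Real
open scoped InnerProductSpace
open Pool.Agent.Sausage27 (Eu Body skel hS betaV)

section S0

variable {E : Type*} [NormedAddCommGroup E] [InnerProductSpace ℝ E] [FiniteDimensional ℝ E]
  [MeasurableSpace E] [BorelSpace E]

omit [FiniteDimensional ℝ E] in
private theorem k1_charFun_isometry {μ : Measure E} {R : E ≃ₗᵢ[ℝ] E} (h : μ.map R = μ) (t : E) :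
    charFun μ (R t) = charFun μ t := by
  rw [charFun_apply, charFun_apply]
  conv_lhs => rw [← h]
  rw [integral_map R.continuous.measurable.aemeasurable]
  · simp only [R.inner_map_map]
  · exact (by fun_prop : Continuous fun x : E =>
      Complex.exp (inner ℝ x (R t) * Complex.I)).aestronglyMeasurable

private theorem k1_charFun_norm {μ : Measure E} (h : ∀ R : E ≃ₗᵢ[ℝ] E, μ.map R = μ) {v w : E}
    (hvw : ‖v‖ = ‖w‖) : charFun μ v = charFun μ w := by
  have h1 := k1_charFun_isometry (h (Submodule.reflection (Submodule.span ℝ {v - w})ᗮ)) v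
  rw [Submodule.reflection_sub hvw] at h1
  exact h1.symm

/-- K1. Invariant probability measures on the unit sphere coincide. For `r : ℝ` and `‖w‖ = 1` the
number `charFun μ (r w)` does not depend on the unit vector `w` (invariance and
`Submodule.reflection_sub`); call it `φ_μ(r)`. Then `∫∫ exp(i r ⟪u, w⟫) dμ(u) dν(w) = φ_μ(r)`, and
by Fubini it is also `φ_ν(r)`. So the characteristic functions agree: `Measure.ext_of_charFun`. -/
theorem sphere_unique {μ ν : Measure E} [IsProbabilityMeasure μ] [IsProbabilityMeasure ν]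
    (hμ : ∀ᵐ x ∂μ, ‖x‖ = 1) (hν : ∀ᵐ x ∂ν, ‖x‖ = 1)
    (hμi : ∀ R : E ≃ₗᵢ[ℝ] E, μ.map R = μ) (hνi : ∀ R : E ≃ₗᵢ[ℝ] E, ν.map R = ν) : μ = ν := by
  apply Measure.ext_of_charFun
  funext t
  have key : ∀ {μ ν : Measure E} [IsProbabilityMeasure μ] [IsProbabilityMeasure ν],
      (∀ᵐ x ∂ν, ‖x‖ = 1) → (∀ R : E ≃ₗᵢ[ℝ] E, μ.map R = μ) →
      charFun μ t = ∫ w, charFun μ (‖t‖ • w) ∂ν := by
    intro μ ν _ _ hν hμi
    have h1 : (fun w => charFun μ (‖t‖ • w)) =ᵐ[ν] fun _ => charFun μ t := by
      filter_upwards [hν] with w hw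
      apply k1_charFun_norm hμi
      rw [norm_smul, norm_norm, hw, mul_one]
    rw [integral_congr_ae h1, integral_const, probReal_univ, one_smul]
  rw [key hν hμi, key hμ hνi]
  simp only [charFun_apply]
  rw [integral_integral_swap]
  · refine integral_congr_ae (ae_of_all _ fun x => ?_)
    refine integral_congr_ae (ae_of_all _ fun w => ?_)
    simp only [inner_smul_right, real_inner_comm]
  · refine Integrable.of_bound (C := 1) ?_ ?_
    · exact (by fun_prop : Continuous fun p : E × E =>
        Complex.exp (inner ℝ p.2 (‖t‖ • p.1) * Complex.I)).aestronglyMeasurable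
    · refine ae_of_all _ fun p => ?_
      exact (Complex.norm_exp_ofReal_mul_I _).le

end S0

end Pool.Agent.Saus2
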