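import Pool.Agent.Saus2.DefsC

/-!
# Saus2, package K2: Gram-Schmidt vectors are orthonormal almost surely
-/

namespace Pool.Agent.Saus2

open MeasureTheory ProbabilityTheory Set Metric Filter Topology Real
open scoped InnerProductSpace
open Pool.Agent.Sausage27 (Eu Body skel hS betaV)

section S0

variable {E : Type*} [NormedAddCommGroup E] [InnerProductSpace ℝ E] [FiniteDimensional ℝ E]
  [MeasurableSpace E] [BorelSpace E]

private theorem ae_inner_ne {w : E} (hw : w ≠ 0) :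
    ∀ᵐ y : E ∂(stdGaussian E), ⟪w, y⟫_ℝ ≠ 0 := by
  have h1 := IsGaussian.map_eq_gaussianReal (μ := stdGaussian E) (innerSL ℝ w)
  have h2 : Var[innerSL ℝ w; stdGaussian E] = ‖w‖ ^ 2 := by
    rw [variance_dual_stdGaussian, innerSL_apply_norm]
  have h3 : Var[innerSL ℝ w; stdGaussian E].toNNReal ≠ 0 := by
    rw [h2]
    have : 0 < ‖w‖ := norm_pos_iff.2 hw
    simp only [ne_eq, Real.toNNReal_eq_zero, not_le]
    positivity
  have h4 : ((stdGaussian E).map (innerSL ℝ w)) {0} = 0 := by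
    rw [h1]
    haveI := noAtoms_gaussianReal (μ := (stdGaussian E)[innerSL ℝ w]) h3
    exact measure_singleton _
  rw [Measure.map_apply (by fun_prop) (measurableSet_singleton 0)] at h4
  rw [ae_iff]
  refine measure_mono_null (fun y hy => ?_) h4
  simp only [mem_setOf_eq, not_not] at hy
  simpa using hy

private theorem ae_ne (hE : 2 ≤ Module.finrank ℝ E) : ∀ᵐ x : E ∂(stdGaussian E), x ≠ 0 := by
  haveI : Nontrivial E := Module.nontrivial_of_finrank_pos (R := ℝ) (by omega)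
  obtain ⟨w, hw⟩ := exists_ne (0 : E)
  filter_upwards [ae_inner_ne hw] with x hx h0
  exact hx (by rw [h0, inner_zero_right])

private theorem exists_perp (hE : 2 ≤ Module.finrank ℝ E) (u : E) :
    ∃ w : E, w ≠ 0 ∧ ⟪w, u⟫_ℝ = 0 := by
  have h1 : (ℝ ∙ u)ᗮ ≠ ⊥ := by
    intro h
    have h2 : (ℝ ∙ u) = ⊤ := (Submodule.orthogonal_eq_bot_iff).1 h
    have h3 : Module.finrank ℝ (ℝ ∙ u) ≤ 1 := by
      have := finrank_span_le_card (R := ℝ) ({u} : Set E)
      simpa using this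
    rw [h2, finrank_top] at h3
    omega
  obtain ⟨w, hw, hw0⟩ := Submodule.exists_mem_ne_zero_of_ne_bot h1
  refine ⟨w, hw0, ?_⟩
  have h4 := Submodule.mem_orthogonal_singleton_iff_inner_right.1 hw
  rw [real_inner_comm]
  exact h4

private theorem gs_good {p : E × E} (h1 : p.1 ≠ 0) (h2 : p.2 - ⟪gsu p, p.2⟫_ℝ • gsu p ≠ 0) :
    ‖gsu p‖ = 1 ∧ ‖gsv p‖ = 1 ∧ ⟪gsu p, gsv p⟫_ℝ = 0 := by
  have hu : ‖gsu p‖ = 1 := by
    unfold gsu
    rw [norm_smul, norm_inv, norm_norm, inv_mul_cancel₀ (norm_ne_zero_iff.2 h1)]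
  refine ⟨hu, ?_, ?_⟩
  · unfold gsv
    rw [norm_smul, norm_inv, norm_norm, inv_mul_cancel₀ (norm_ne_zero_iff.2 h2)]
  · unfold gsv
    rw [inner_smul_right, inner_sub_right, inner_smul_right, real_inner_self_eq_norm_sq, hu]
    ring

/-- K2a. Almost surely the Gram-Schmidt vectors are orthonormal: `p.1 ≠ 0` almost surely, and for
fixed `p.1 ≠ 0` there is a unit vector `w ⊥ p.1` and `⟪w, p.2⟫ ≠ 0` almost surely. -/
theorem gs_ae (hE : 2 ≤ Module.finrank ℝ E) :
    ∀ᵐ p : E × E ∂((stdGaussian E).prod (stdGaussian E)),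
      ‖gsu p‖ = 1 ∧ ‖gsv p‖ = 1 ∧ ⟪gsu p, gsv p⟫_ℝ = 0 := by
  have hm : Measurable (fun p : E × E => gsu p) := by
    unfold gsu
    exact (measurable_fst.norm.inv).smul measurable_fst
  have hm2 : Measurable (fun p : E × E => p.2 - ⟪gsu p, p.2⟫_ℝ • gsu p) :=
    measurable_snd.sub ((hm.inner measurable_snd).smul hm)
  have hset : MeasurableSet {p : E × E | p.1 ≠ 0 ∧ p.2 - ⟪gsu p, p.2⟫_ℝ • gsu p ≠ 0} := by
    refine MeasurableSet.inter ?_ ?_
    · exact (measurableSet_singleton (0 : E)).compl.preimage measurable_fst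
    · exact (measurableSet_singleton (0 : E)).compl.preimage hm2
  have h : ∀ᵐ p : E × E ∂((stdGaussian E).prod (stdGaussian E)),
      p.1 ≠ 0 ∧ p.2 - ⟪gsu p, p.2⟫_ℝ • gsu p ≠ 0 := by
    rw [Measure.ae_prod_iff_ae_ae hset]
    filter_upwards [ae_ne hE] with x hx
    obtain ⟨w, hw, hwx⟩ := exists_perp hE x
    filter_upwards [ae_inner_ne hw] with y hy
    refine ⟨hx, fun h0 => hy ?_⟩
    have h1 : y = ⟪gsu (x, y), y⟫_ℝ • gsu (x, y) := sub_eq_zero.1 h0
    rw [h1]
    unfold gsu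
    simp only [inner_smul_right, hwx, mul_zero]
  filter_upwards [h] with p hp
  exact gs_good hp.1 hp.2

end S0

end Pool.Agent.Saus2
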