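import Pool.Agent.Saus2.DefsC
import Pool.Agent.Saus2.K1
import Pool.Agent.Saus2.K2

/-!
# Saus2, package K3: the law of a Gram-Schmidt combination
-/

namespace Pool.Agent.Saus2

open MeasureTheory ProbabilityTheory Set Metric Filter Topology Real
open scoped InnerProductSpace
open Pool.Agent.Sausage27 (Eu Body skel hS betaV)

section S0

variable {E : Type*} [NormedAddCommGroup E] [InnerProductSpace ℝ E] [FiniteDimensional ℝ E]
  [MeasurableSpace E] [BorelSpace E]

private theorem K3_gsu (R : E ≃ₗᵢ[ℝ] E) (p : E × E) : gsu (R p.1, R p.2) = R (gsu p) := by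
  simp [gsu]

private theorem K3_gsv (R : E ≃ₗᵢ[ℝ] E) (p : E × E) : gsv (R p.1, R p.2) = R (gsv p) := by
  unfold gsv
  rw [K3_gsu]
  simp only [LinearIsometryEquiv.inner_map_map]
  rw [← map_smul R, ← map_sub R, LinearIsometryEquiv.norm_map, map_smul R]

/-- the direction of a vector -/
private noncomputable def K3_dir (x : E) : E := ‖x‖⁻¹ • x

private theorem K3_dir_map (R : E ≃ₗᵢ[ℝ] E) (x : E) : K3_dir (R x) = R (K3_dir x) := by
  simp [K3_dir]

private theorem K3_mp (R : E ≃ₗᵢ[ℝ] E) :
    MeasurePreserving R (stdGaussian E) (stdGaussian E) :=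
  ⟨R.continuous.measurable, stdGaussian_map R⟩

private theorem K3_norm_int : Integrable (fun x : E => ‖x‖) (stdGaussian E) :=
  (IsGaussian.integrable_id (μ := stdGaussian E)).norm

/-- the measure with density proportional to the norm -/
private noncomputable def K3_nu (E : Type*) [NormedAddCommGroup E] [InnerProductSpace ℝ E]
    [FiniteDimensional ℝ E] [MeasurableSpace E] [BorelSpace E] : Measure E :=
  (stdGaussian E).withDensity fun x => ENNReal.ofReal (‖x‖ / ∫ y, ‖y‖ ∂(stdGaussian E))

private theorem K3_dens_meas :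
    Measurable fun x : E => ENNReal.ofReal (‖x‖ / ∫ y, ‖y‖ ∂(stdGaussian E)) := by
  fun_prop

private theorem K3_nu_map (R : E ≃ₗᵢ[ℝ] E) : (K3_nu E).map R = K3_nu E := by
  ext s hs
  rw [Measure.map_apply R.continuous.measurable hs, K3_nu,
    withDensity_apply _ (R.continuous.measurable hs), withDensity_apply _ hs]
  have h := (K3_mp R).setLIntegral_comp_preimage hs
    (f := fun x : E => ENNReal.ofReal (‖x‖ / ∫ y, ‖y‖ ∂(stdGaussian E))) K3_dens_meas
  simpa using h

/-- K2b. The law of `cos θ • gsu + sin θ • gsv` is an invariant probability measure on the unit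
sphere (Gram-Schmidt commutes with isometries, and `stdGaussian_map`), and so is the law of
`x / ‖x‖` under the measure with density `‖x‖ / ∫‖x‖`; by `sphere_unique` they coincide. -/
theorem gs_mean (hE : 2 ≤ Module.finrank ℝ E) {f : E → ℝ} (hf : Continuous f)
    (hhom : ∀ r : ℝ, 0 ≤ r → ∀ z, f (r • z) = r * f z) (θ : ℝ) :
    (∫ p : E × E, f (cos θ • gsu p + sin θ • gsv p) ∂((stdGaussian E).prod (stdGaussian E))) *
      ∫ x, ‖x‖ ∂(stdGaussian E) = ∫ x, f x ∂(stdGaussian E) := by
  have hsc : SecondCountableTopology E := inferInstance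
  have hX : Measurable fun p : E × E => cos θ • gsu p + sin θ • gsv p := by
    unfold gsv gsu
    fun_prop
  have hdir : Measurable (K3_dir : E → E) := by
    unfold K3_dir
    fun_prop
  have hgs := gs_ae (E := E) hE
  -- the mean norm is positive
  have hc : 0 < ∫ x, ‖x‖ ∂(stdGaussian E) := by
    refine lt_of_le_of_ne (integral_nonneg fun x => norm_nonneg x) fun h0 => ?_
    have h1 := (integral_eq_zero_iff_of_nonneg (fun x : E => norm_nonneg x) K3_norm_int).1 h0.symm
    have h2 : ∀ᵐ p : E × E ∂((stdGaussian E).prod (stdGaussian E)), ‖p.1‖ = 0 :=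
      Measure.quasiMeasurePreserving_fst.ae h1
    obtain ⟨p, hp, hp'⟩ := (h2.and hgs).exists
    have h3 := hp'.1
    simp [gsu, hp] at h3
  obtain ⟨m, hm⟩ : ∃ m, m = ∫ x, ‖x‖ ∂(stdGaussian E) := ⟨_, rfl⟩
  have hprob : IsProbabilityMeasure (K3_nu E) := by
    refine ⟨?_⟩
    rw [K3_nu, withDensity_apply _ MeasurableSet.univ, Measure.restrict_univ,
      ← ofReal_integral_eq_lintegral_ofReal (K3_norm_int.div_const _)
        (Eventually.of_forall fun x => by positivity), integral_div, div_self hc.ne',
      ENNReal.ofReal_one]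
  have hP1 : IsProbabilityMeasure (((stdGaussian E).prod (stdGaussian E)).map
      fun p : E × E => cos θ • gsu p + sin θ • gsv p) :=
    Measure.isProbabilityMeasure_map hX.aemeasurable
  have hP2 : IsProbabilityMeasure ((K3_nu E).map K3_dir) :=
    Measure.isProbabilityMeasure_map hdir.aemeasurable
  have key : ((stdGaussian E).prod (stdGaussian E)).map
      (fun p : E × E => cos θ • gsu p + sin θ • gsv p) = (K3_nu E).map K3_dir := by
    refine sphere_unique ?_ ?_ ?_ ?_
    · rw [ae_map_iff hX.aemeasurable (measurableSet_eq_fun measurable_norm measurable_const)]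
      filter_upwards [hgs] with p hp
      have h4 : ‖cos θ • gsu p + sin θ • gsv p‖ ^ 2 = 1 := by
        rw [norm_add_sq_real, norm_smul, norm_smul, hp.1, hp.2.1, real_inner_smul_left,
          real_inner_smul_right, hp.2.2]
        simp [mul_pow, sq_abs]
      have h5 : (0 : ℝ) ≤ ‖cos θ • gsu p + sin θ • gsv p‖ := norm_nonneg _
      nlinarith [sq_nonneg (‖cos θ • gsu p + sin θ • gsv p‖ - 1)]
    · rw [ae_map_iff hdir.aemeasurable (measurableSet_eq_fun measurable_norm measurable_const),
        K3_nu, ae_withDensity_iff K3_dens_meas]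
      refine Eventually.of_forall fun x hx => ?_
      have hx0 : ‖x‖ ≠ 0 := fun h => hx (by simp [h])
      rw [K3_dir, norm_smul, norm_inv, norm_norm, inv_mul_cancel₀ hx0]
    · intro R
      rw [Measure.map_map R.continuous.measurable hX]
      have h6 : ((stdGaussian E).prod (stdGaussian E)).map (Prod.map R R) =
          (stdGaussian E).prod (stdGaussian E) := by
        rw [← Measure.map_prod_map _ _ R.continuous.measurable R.continuous.measurable,
          (K3_mp R).map_eq]
      have h7 : (R ∘ fun p : E × E => cos θ • gsu p + sin θ • gsv p) =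
          (fun p : E × E => cos θ • gsu p + sin θ • gsv p) ∘ Prod.map R R := by
        funext p
        show R (cos θ • gsu p + sin θ • gsv p) =
          cos θ • gsu (R p.1, R p.2) + sin θ • gsv (R p.1, R p.2)
        rw [K3_gsu, K3_gsv, map_add, map_smul, map_smul]
      rw [h7, ← Measure.map_map hX (R.continuous.measurable.prodMap R.continuous.measurable), h6]
    · intro R
      rw [Measure.map_map R.continuous.measurable hdir]
      have h7 : (R ∘ K3_dir : E → E) = K3_dir ∘ R := funext fun x => (K3_dir_map R x).symm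
      rw [h7, ← Measure.map_map hdir R.continuous.measurable, K3_nu_map]
  have h8 : (∫ p : E × E, f (cos θ • gsu p + sin θ • gsv p)
      ∂((stdGaussian E).prod (stdGaussian E))) = ∫ x, f (K3_dir x) ∂(K3_nu E) := by
    rw [← integral_map hX.aemeasurable hf.aestronglyMeasurable, key,
      integral_map hdir.aemeasurable hf.aestronglyMeasurable]
  have h9 : (∫ x, f (K3_dir x) ∂(K3_nu E)) = ∫ x, (f x) / m ∂(stdGaussian E) := by
    rw [K3_nu, integral_withDensity_eq_integral_toReal_smul K3_dens_meas
      (Eventually.of_forall fun x => ENNReal.ofReal_lt_top)]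
    refine integral_congr_ae (Eventually.of_forall fun x => ?_)
    show (ENNReal.ofReal (‖x‖ / ∫ y, ‖y‖ ∂(stdGaussian E))).toReal • f (K3_dir x) = f x / m
    rw [ENNReal.toReal_ofReal (by positivity), smul_eq_mul, ← hm, div_mul_eq_mul_div]
    congr 1
    rw [← hhom _ (norm_nonneg x), K3_dir, smul_smul]
    by_cases hx : x = 0
    · simp [hx]
    · rw [mul_inv_cancel₀ (norm_ne_zero_iff.2 hx), one_smul]
  rw [h8, h9, integral_div, ← hm, div_mul_cancel₀]
  rw [hm]
  exact hc.ne'

end S0

end Pool.Agent.Saus2
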