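import Pool.Agent.Saus2.DefsC
import Pool.Agent.Saus2.K2
import Pool.Agent.Saus2.K3

/-!
# Saus2, package K4: a great circle above the average
-/

namespace Pool.Agent.Saus2

open MeasureTheory ProbabilityTheory Set Metric Filter Topology Real
open scoped InnerProductSpace
open Pool.Agent.Sausage27 (Eu Body skel hS betaV)

section S0

variable {E : Type*} [NormedAddCommGroup E] [InnerProductSpace ℝ E] [FiniteDimensional ℝ E]
  [MeasurableSpace E] [BorelSpace E]

/-- The planar isometric embedding of an orthonormal pair. -/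
private noncomputable def K4J {u v : E} (hu : ‖u‖ = 1) (hv : ‖v‖ = 1) (huv : ⟪u, v⟫_ℝ = 0) :
    ℂ →ₗᵢ[ℝ] E where
  toFun z := z.re • u + z.im • v
  map_add' z w := by
    simp only [Complex.add_re, Complex.add_im, add_smul]
    abel
  map_smul' c z := by
    simp only [Complex.real_smul, Complex.re_ofReal_mul, Complex.im_ofReal_mul, mul_smul,
      smul_add, RingHom.id_apply]
  norm_map' z := by
    change ‖z.re • u + z.im • v‖ = ‖z‖
    have h1 : ‖z.re • u + z.im • v‖ ^ 2 = z.re ^ 2 + z.im ^ 2 := by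
      rw [norm_add_sq_real, norm_smul, norm_smul, hu, hv, real_inner_smul_left,
        real_inner_smul_right, huv, mul_one, mul_one, Real.norm_eq_abs, Real.norm_eq_abs,
        sq_abs, sq_abs]
      ring
    have h2 : ‖z‖ ^ 2 = z.re ^ 2 + z.im ^ 2 := by
      rw [← Complex.normSq_eq_norm_sq, Complex.normSq_apply]
      ring
    have h3 : ‖z.re • u + z.im • v‖ ^ 2 = ‖z‖ ^ 2 := by rw [h1, h2]
    exact (sq_eq_sq₀ (norm_nonneg _) (norm_nonneg _)).1 h3

omit [FiniteDimensional ℝ E] [MeasurableSpace E] [BorelSpace E] in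
private theorem K4hs {u v : E} (hu : ‖u‖ = 1) (hv : ‖v‖ = 1) (huv : ⟪u, v⟫_ℝ = 0) (K : Set E)
    (θ : ℝ) : hs (proj2 (K4J hu hv huv) '' K) θ = hS K (cos θ • u + sin θ • v) := by
  unfold hs hS
  rw [image_image]
  congr 1
  refine image_congr fun x _ => ?_
  have hJ1 : K4J hu hv huv 1 = u := by
    change (1 : ℂ).re • u + (1 : ℂ).im • v = u
    simp
  have hJI : K4J hu hv huv Complex.I = v := by
    change Complex.I.re • u + Complex.I.im • v = v
    simp
  have he : Complex.exp (-((θ : ℂ) * Complex.I)) = ((cos θ : ℝ) : ℂ) - ((sin θ : ℝ) : ℂ) *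
      Complex.I := by
    have : -((θ : ℂ) * Complex.I) = ((-θ : ℝ) : ℂ) * Complex.I := by push_cast; ring
    rw [this, Complex.exp_mul_I, ← Complex.ofReal_cos, ← Complex.ofReal_sin, Real.cos_neg,
      Real.sin_neg]
    push_cast
    ring
  unfold proj2
  rw [hJ1, hJI, he, inner_add_right, real_inner_smul_right, real_inner_smul_right,
    real_inner_comm u x, real_inner_comm v x]
  simp only [Complex.mul_re, Complex.add_re, Complex.add_im, Complex.sub_re, Complex.sub_im,
    Complex.ofReal_re, Complex.ofReal_im, Complex.I_re, Complex.I_im, Complex.mul_im]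
  ring

omit [FiniteDimensional ℝ E] [MeasurableSpace E] [BorelSpace E] in
private theorem K4norm (x : E) : ‖(‖x‖⁻¹ • x)‖ ≤ 1 := by
  rw [norm_smul, norm_inv, norm_norm]
  rcases eq_or_ne ‖x‖ 0 with h | h
  · rw [h]; simp
  · rw [inv_mul_cancel₀ h]

/-- K3. `hs (proj2 J '' K) θ = hS K (J (exp (iθ)))`; average `∫ hS K (cos θ gsu + sin θ gsv) dθ`
over the Gaussian pair (Fubini and `gs_mean`), and take a pair which is orthonormal and not below
the average (`exists_notMem_null_integral_le`). -/
theorem great_circle (hE : 2 ≤ Module.finrank ℝ E) {K : Set E} (hK : Body K) :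
    ∃ J : ℂ →ₗᵢ[ℝ] E, ∫ x, hS K x ∂(stdGaussian E) ≤
      kap (proj2 J '' K) * ∫ x, ‖x‖ ∂(stdGaussian E) := by
  classical
  set μ : Measure (E × E) := (stdGaussian E).prod (stdGaussian E) with hμ
  set c : ℝ := ∫ x, ‖x‖ ∂(stdGaussian E) with hc
  set A : ℝ := ∫ x, hS K x ∂(stdGaussian E) with hA
  have hc0 : 0 ≤ c := integral_nonneg fun x => norm_nonneg x
  have hcont := hK.continuous_hS
  obtain ⟨R, hR, -, hRb, -⟩ := hK.exists_bound
  set F : E × E → ℝ → ℝ := fun p θ => hS K (cos θ • gsu p + sin θ • gsv p) with hF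
  have hmu : Measurable (fun p : E × E => gsu p) := by
    unfold gsu
    fun_prop
  have hmv : Measurable (fun p : E × E => gsv p) := by
    unfold gsv
    fun_prop
  have hmF : Measurable (Function.uncurry F) := by
    refine hcont.measurable.comp ?_
    have h1 : Measurable (fun q : (E × E) × ℝ => gsu q.1) := hmu.comp measurable_fst
    have h2 : Measurable (fun q : (E × E) × ℝ => gsv q.1) := hmv.comp measurable_fst
    have h3 : Measurable (fun q : (E × E) × ℝ => cos q.2) := measurable_cos.comp measurable_snd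
    have h4 : Measurable (fun q : (E × E) × ℝ => sin q.2) := measurable_sin.comp measurable_snd
    exact (h3.smul h1).add (h4.smul h2)
  have hbd : ∀ p θ, ‖F p θ‖ ≤ R * 2 := by
    intro p θ
    rw [Real.norm_eq_abs]
    refine (hRb _).trans (mul_le_mul_of_nonneg_left ?_ hR.le)
    have h1 : ‖gsu p‖ ≤ 1 := K4norm _
    have h2 : ‖gsv p‖ ≤ 1 := K4norm _
    calc ‖cos θ • gsu p + sin θ • gsv p‖ ≤ ‖cos θ • gsu p‖ + ‖sin θ • gsv p‖ := norm_add_le _ _
      _ = |cos θ| * ‖gsu p‖ + |sin θ| * ‖gsv p‖ := by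
        rw [norm_smul, norm_smul, Real.norm_eq_abs, Real.norm_eq_abs]
      _ ≤ 1 * 1 + 1 * 1 := by
        refine add_le_add ?_ ?_
        · exact mul_le_mul (abs_cos_le_one θ) h1 (norm_nonneg _) zero_le_one
        · exact mul_le_mul (abs_sin_le_one θ) h2 (norm_nonneg _) zero_le_one
      _ = 2 := by norm_num
  have hint : Integrable (Function.uncurry F)
      (μ.prod (volume.restrict (Ioc (0 : ℝ) (2 * π)))) :=
    Integrable.of_bound hmF.aestronglyMeasurable (R * 2)
      (Eventually.of_forall fun q => hbd q.1 q.2)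
  have hpi : (0 : ℝ) ≤ 2 * π := by positivity
  set G : E × E → ℝ := fun p => ∫ θ in (0 : ℝ)..(2 * π), F p θ with hG
  have hGint : Integrable G μ := by
    have := hint.integral_prod_left
    refine this.congr (Eventually.of_forall fun p => ?_)
    rw [hG]
    simp only [Function.uncurry_apply_pair]
    rw [intervalIntegral.integral_of_le hpi]
  have hGA : (∫ p, G p ∂μ) * c = 2 * π * A := by
    have h1 : ∫ p, G p ∂μ = ∫ θ in (0 : ℝ)..(2 * π), ∫ p, F p θ ∂μ := by
      rw [hG, intervalIntegral.integral_of_le hpi]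
      rw [← integral_integral_swap hint]
      refine integral_congr_ae (Eventually.of_forall fun p => ?_)
      simp only
      rw [intervalIntegral.integral_of_le hpi]
    rw [h1, ← intervalIntegral.integral_mul_const]
    have h2 : ∀ θ : ℝ, (∫ p, F p θ ∂μ) * c = A := fun θ =>
      gs_mean hE hcont (fun r hr z => hK.hS_smul hr z) θ
    simp only [h2, intervalIntegral.integral_const, sub_zero, smul_eq_mul]
  have hnull : μ {p : E × E | ¬ (‖gsu p‖ = 1 ∧ ‖gsv p‖ = 1 ∧ ⟪gsu p, gsv p⟫_ℝ = 0)} = 0 :=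
    gs_ae hE
  have : IsProbabilityMeasure μ := by rw [hμ]; infer_instance
  obtain ⟨p, hpn, hp⟩ := exists_notMem_null_integral_le hGint hnull
  replace hpn := not_not.1 hpn
  obtain ⟨hu, hv, huv⟩ := hpn
  refine ⟨K4J hu hv huv, ?_⟩
  have hk : kap (proj2 (K4J hu hv huv) '' K) = G p / (2 * π) := by
    unfold kap
    simp only [K4hs hu hv huv K]
    rfl
  have hpi' : (0 : ℝ) < 2 * π := by positivity
  rw [hk, div_mul_eq_mul_div, le_div_iff₀ hpi']
  have := mul_le_mul_of_nonneg_right hp hc0
  linarith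

end S0

end Pool.Agent.Saus2
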