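import Pool.Agent.Saus2.DefsC
import Pool.Agent.Saus2.G1
import Pool.Agent.Saus2.K4

/-!
# Saus2, package K5: a great circle orthogonal to e above the average
-/

namespace Pool.Agent.Saus2

open MeasureTheory ProbabilityTheory Set Metric Filter Topology Real
open scoped InnerProductSpace
open Pool.Agent.Sausage27 (Eu Body skel hS betaV)

section S0

variable {E : Type*} [NormedAddCommGroup E] [InnerProductSpace ℝ E] [FiniteDimensional ℝ E]
  [MeasurableSpace E] [BorelSpace E]

private theorem K5_perp {e : E} (he : ‖e‖ = 1) (x : E) :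
    (((ℝ ∙ e)ᗮ.orthogonalProjectionOnto x : (ℝ ∙ e)ᗮ) : E) = perp e x := by
  rw [Submodule.orthogonalProjectionOnto_orthogonal]
  unfold perp
  simp [Submodule.starProjection_singleton, he]

private theorem K5_inner (W : Submodule ℝ E) (w : W) (y : E) :
    ⟪w, W.orthogonalProjectionOnto y⟫_ℝ = ⟪(w : E), y⟫_ℝ := by
  rw [Submodule.coe_inner]
  exact Submodule.inner_orthogonalProjectionOnto_eq_of_mem_left w y

/-- K4. Apply `great_circle` in `W = (ℝ ∙ e)ᗮ` to the projection of `K`, and `gauss_sub W`. -/
theorem great_circle_perp (hE : 3 ≤ Module.finrank ℝ E) {e : E} (he : ‖e‖ = 1) {K : Set E}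
    (hK : Body K) :
    ∃ J : ℂ →ₗᵢ[ℝ] E, (∀ z, ⟪e, J z⟫_ℝ = 0) ∧ ∫ x, hS K (perp e x) ∂(stdGaussian E) ≤
      kap (proj2 J '' K) * ∫ x, ‖perp e x‖ ∂(stdGaussian E) := by
  set W : Submodule ℝ E := (ℝ ∙ e)ᗮ with hWdef
  have hW : 2 ≤ Module.finrank ℝ W := by
    have h1 := (ℝ ∙ e).finrank_add_finrank_orthogonal
    have he0 : e ≠ 0 := by
      intro h
      rw [h, norm_zero] at he
      exact zero_ne_one he
    rw [finrank_span_singleton he0, ← hWdef] at h1
    omega
  set P : E → W := fun x => W.orthogonalProjectionOnto x with hP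
  have hPc : Continuous P := (W.orthogonalProjectionOnto).continuous
  have hPperp : ∀ x, ((P x : W) : E) = perp e x := fun x => K5_perp he x
  have hB : Body (P '' K) := by
    refine ⟨?_, hK.comp.image hPc, hK.ne.image _⟩
    exact hK.conv.linear_image (W.orthogonalProjectionOnto : E →L[ℝ] W).toLinearMap
  obtain ⟨J, hJ⟩ := great_circle hW hB
  refine ⟨W.subtypeₗᵢ.comp J, ?_, ?_⟩
  · intro z
    have : ((J z : W) : E) ∈ (ℝ ∙ e)ᗮ := (J z).2
    rw [Submodule.mem_orthogonal_singleton_iff_inner_right] at this
    exact this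
  · have hh : ∀ x : E, hS K (perp e x) = hS (P '' K) (P x) := by
      intro x
      unfold hS
      rw [image_image]
      congr 1
      refine image_congr fun y _ => ?_
      rw [real_inner_comm, ← hPperp, real_inner_comm (P x)]
      exact (K5_inner W (P x) y).symm
    have hp : proj2 (W.subtypeₗᵢ.comp J) '' K = proj2 J '' (P '' K) := by
      rw [image_image]
      refine image_congr fun y _ => ?_
      unfold proj2
      rw [hP]
      simp only [K5_inner]
      rfl
    have h1 : ∫ x, hS K (perp e x) ∂(stdGaussian E) = ∫ w, hS (P '' K) w ∂(stdGaussian W) := by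
      rw [← gauss_sub W, integral_map hPc.measurable.aemeasurable
        hB.continuous_hS.aestronglyMeasurable]
      exact integral_congr_ae (Filter.Eventually.of_forall hh)
    have h2 : ∫ x, ‖perp e x‖ ∂(stdGaussian E) = ∫ w, ‖w‖ ∂(stdGaussian W) := by
      rw [← gauss_sub W, integral_map hPc.measurable.aemeasurable
        continuous_norm.aestronglyMeasurable]
      refine integral_congr_ae (Filter.Eventually.of_forall fun x => ?_)
      show ‖perp e x‖ = ‖P x‖
      rw [← hPperp]
      rfl
    rw [h1, h2, hp]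
    exact hJ

end S0

end Pool.Agent.Saus2
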