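import Pool.Agent.Saus2.DefsC
import Pool.Agent.Sausage27.WS5

/-!
# Saus2, package N0: a gap in the widths
-/

namespace Pool.Agent.Saus2

open MeasureTheory ProbabilityTheory Set Metric Filter Topology Real
open scoped InnerProductSpace
open Pool.Agent.Sausage27 (Eu Body skel hS betaV)

section S0

variable {E : Type*} [NormedAddCommGroup E] [InnerProductSpace ℝ E] [FiniteDimensional ℝ E]

/-- N0. A gap in the widths. Put `d = finrank E`, `H_k = K₀ (2 d Λ)^k / d`, and `W_k` from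
`Sausage27.exists_wide_subspace` with `H = H_k`, `k = 0, ..., d + 1`, `Δ_k = d H_k`. The width
`b(v) = hS D v + hS D (-v)` is a seminorm in `v`, `b ≥ H_k` on the unit sphere of `W_k` and
`b(v) ≤ Δ_k ‖v‖` on `W_kᗮ`. As `H_{k+1} > Δ_k` (`d ≥ 1`, `Λ ≥ 1`), `W_{k+1} ∩ W_kᗮ = 0`, so the
dimensions do not increase, and `finrank W_k = finrank W_{k+1}` for some `k ≤ d`. Take `W = W_k`,
`Δ = Δ_k`: for a unit vector `w ∈ W_k` the subspace `W_kᗮ ⊔ ℝ w` has dimension `d - j + 1`, hence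
meets `W_{k+1}` (dimension `j`) in a unit vector `u = α w + v`, `|α| ≤ 1`, `‖v‖ ≤ 1`, and
`H_{k+1} ≤ b(u) ≤ b(w) + Δ_k`, so `b(w) ≥ (2 Λ - 1) Δ_k ≥ Λ Δ_k`. -/
theorem exists_gap (hE : 1 ≤ Module.finrank ℝ E) {D : Set E} (hD : Body D) {K₀ Λ : ℝ}
    (hK₀ : 0 < K₀) (hΛ : 1 ≤ Λ) :
    ∃ (W : Submodule ℝ E) (Δ : ℝ), K₀ ≤ Δ ∧
      Δ ≤ K₀ * (2 * Module.finrank ℝ E * Λ) ^ (Module.finrank ℝ E) ∧
      (∀ w ∈ W, ‖w‖ = 1 → Λ * Δ ≤ hS D w + hS D (-w)) ∧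
      ∀ x ∈ D, ∀ y ∈ D, ∀ v ∈ Wᗮ, ‖v‖ ≤ 1 → ⟪v, x - y⟫_ℝ ≤ Δ := by
  classical
  set d : ℕ := Module.finrank ℝ E with hd
  have hd1 : (1 : ℝ) ≤ d := by exact_mod_cast hE
  have hdΛ : 1 ≤ 2 * (d : ℝ) * Λ := by nlinarith
  -- the width
  have hb1 : ∀ v : E, ∃ x ∈ D, ∃ y ∈ D, hS D v + hS D (-v) = ⟪v, x - y⟫_ℝ := by
    intro v
    obtain ⟨x, hx, hx'⟩ := hD.exists_eq v
    obtain ⟨y, hy, hy'⟩ := hD.exists_eq (-v)
    refine ⟨x, hx, y, hy, ?_⟩
    rw [hx', hy', inner_neg_right, inner_sub_right, real_inner_comm x v, real_inner_comm y v]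
    ring
  have hb2 : ∀ v : E, ∀ x ∈ D, ∀ y ∈ D, ⟪v, x - y⟫_ℝ ≤ hS D v + hS D (-v) := by
    intro v x hx y hy
    have h1 := hD.inner_le hx v
    have h2 := hD.inner_le hy (-v)
    rw [inner_neg_right] at h2
    rw [inner_sub_right, real_inner_comm x v, real_inner_comm y v]
    linarith
  have hHpos : ∀ k : ℕ, 0 < K₀ * (2 * (d : ℝ) * Λ) ^ k / d := by
    intro k
    positivity
  choose W hW1 hW2 using fun k : ℕ => Sausage27.exists_wide_subspace hD (hHpos k)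
  have hHd : ∀ k : ℕ, K₀ * (2 * (d : ℝ) * Λ) ^ k / d * d = K₀ * (2 * (d : ℝ) * Λ) ^ k := by
    intro k
    field_simp
  have hW2' : ∀ k : ℕ, ∀ x ∈ D, ∀ y ∈ D, ∀ v ∈ (W k)ᗮ, ‖v‖ ≤ 1 →
      ⟪v, x - y⟫_ℝ ≤ K₀ * (2 * (d : ℝ) * Λ) ^ k := by
    intro k x hx y hy v hv hv1
    have h1 := hW2 k x hx y hy v hv hv1
    rw [← hd, hHd] at h1
    exact h1
  have hHs : ∀ k : ℕ, K₀ * (2 * (d : ℝ) * Λ) ^ (k + 1) / d =
      2 * Λ * (K₀ * (2 * (d : ℝ) * Λ) ^ k) := by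
    intro k
    field_simp
    ring
  have hΔpos : ∀ k : ℕ, 0 < K₀ * (2 * (d : ℝ) * Λ) ^ k := by
    intro k
    positivity
  -- the dimensions
  have hdis : ∀ k : ℕ, Disjoint (W (k + 1)) (W k)ᗮ := by
    intro k
    rw [Submodule.disjoint_def]
    intro v hv hv'
    by_contra hv0
    have hn : ‖v‖ ≠ 0 := norm_ne_zero_iff.2 hv0
    have hu : ‖(‖v‖⁻¹ • v)‖ = 1 := by
      rw [norm_smul, norm_inv, norm_norm, inv_mul_cancel₀ hn]
    have h1 := hW1 (k + 1) _ ((W (k + 1)).smul_mem ‖v‖⁻¹ hv) hu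
    obtain ⟨x, hx, y, hy, hxy⟩ := hb1 (‖v‖⁻¹ • v)
    have h2 := hW2' k x hx y hy _ ((W k)ᗮ.smul_mem ‖v‖⁻¹ hv') hu.le
    rw [hxy, hHs] at h1
    have h3 := hΔpos k
    nlinarith
  have hdim : ∀ k : ℕ, Module.finrank ℝ (W k) + Module.finrank ℝ (W k)ᗮ = d := fun k =>
    (W k).finrank_add_finrank_orthogonal
  have hmono : ∀ k : ℕ, Module.finrank ℝ (W (k + 1)) ≤ Module.finrank ℝ (W k) := by
    intro k
    have h1 := Submodule.finrank_add_finrank_le_of_disjoint (hdis k)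
    have h2 := hdim k
    omega
  obtain ⟨k, hkd, hk⟩ : ∃ k : ℕ, k ≤ d ∧
      Module.finrank ℝ (W (k + 1)) = Module.finrank ℝ (W k) := by
    by_contra hcon
    push Not at hcon
    have h1 : ∀ k : ℕ, k ≤ d + 1 → Module.finrank ℝ (W k) + k ≤ d := by
      intro k
      induction k with
      | zero =>
        intro _
        have := hdim 0
        omega
      | succ k ih =>
        intro hk
        have h2 := ih (by omega)
        have h3 := hcon k (by omega)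
        have h4 := hmono k
        omega
    have h2 := h1 (d + 1) le_rfl
    omega
  refine ⟨W k, K₀ * (2 * (d : ℝ) * Λ) ^ k, ?_, ?_, ?_, hW2' k⟩
  · have h1 : (1 : ℝ) ≤ (2 * (d : ℝ) * Λ) ^ k := one_le_pow₀ hdΛ
    nlinarith
  · exact mul_le_mul_of_nonneg_left (pow_le_pow_right₀ hdΛ hkd) hK₀.le
  · intro w hw hw1
    have hw0 : w ≠ 0 := by
      intro h
      rw [h, norm_zero] at hw1
      exact zero_ne_one hw1
    have hdis2 : Disjoint (W k)ᗮ (Submodule.span ℝ {w}) :=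
      ((W k).orthogonal_disjoint.mono_left
        ((Submodule.span_singleton_le_iff_mem w (W k)).2 hw)).symm
    have hU : Module.finrank ℝ ((W k)ᗮ ⊔ Submodule.span ℝ {w} : Submodule ℝ E) =
        Module.finrank ℝ (W k)ᗮ + 1 := by
      have h1 := Submodule.finrank_sup_add_finrank_inf_eq (W k)ᗮ (Submodule.span ℝ {w})
      rw [hdis2.eq_bot, finrank_bot, finrank_span_singleton hw0, add_zero] at h1
      exact h1
    have hnd : ¬ Disjoint ((W k)ᗮ ⊔ Submodule.span ℝ {w}) (W (k + 1)) := by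
      intro h
      have h1 := Submodule.finrank_add_finrank_le_of_disjoint h
      have h2 := hdim k
      rw [hU, hk] at h1
      omega
    rw [Submodule.disjoint_def] at hnd
    push Not at hnd
    obtain ⟨u0, hu0, hu0', hu0n⟩ := hnd
    have hn : ‖u0‖ ≠ 0 := norm_ne_zero_iff.2 hu0n
    have hu1 : ‖(‖u0‖⁻¹ • u0)‖ = 1 := by
      rw [norm_smul, norm_inv, norm_norm, inv_mul_cancel₀ hn]
    have huU := ((W k)ᗮ ⊔ Submodule.span ℝ {w}).smul_mem ‖u0‖⁻¹ hu0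
    have huW := (W (k + 1)).smul_mem ‖u0‖⁻¹ hu0'
    generalize ‖u0‖⁻¹ • u0 = u at hu1 huU huW
    obtain ⟨v, hv, z, hz, hvz⟩ := Submodule.mem_sup.1 huU
    obtain ⟨α, rfl⟩ := Submodule.mem_span_singleton.1 hz
    have hvw : ⟪v, w⟫_ℝ = 0 := by
      rw [real_inner_comm]
      exact (Submodule.mem_orthogonal _ _).1 hv w hw
    have hpy : ‖v‖ ^ 2 + α ^ 2 = 1 := by
      have h1 : ‖u‖ ^ 2 = ‖v‖ ^ 2 + α ^ 2 := by
        rw [← hvz, norm_add_sq_real, inner_smul_right, hvw, norm_smul, hw1, mul_one,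
          Real.norm_eq_abs, sq_abs]
        ring
      rw [← h1, hu1, one_pow]
    have hv1 : ‖v‖ ≤ 1 := by nlinarith [norm_nonneg v, sq_nonneg α]
    have hα : |α| ≤ 1 := by
      rw [abs_le]
      constructor <;> nlinarith [sq_nonneg ‖v‖]
    have h1 := hW1 (k + 1) u huW hu1
    obtain ⟨x, hx, y, hy, hxy⟩ := hb1 u
    rw [hxy, hHs, ← hvz, inner_add_left, inner_smul_left] at h1
    have h2 := hW2' k x hx y hy v hv hv1
    have h3 := hb2 w x hx y hy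
    have h4 := hb2 w y hy x hx
    have h5 : ⟪w, y - x⟫_ℝ = - ⟪w, x - y⟫_ℝ := by
      rw [← neg_sub x y, inner_neg_right]
    rw [h5] at h4
    have h6 : |⟪w, x - y⟫_ℝ| ≤ hS D w + hS D (-w) := abs_le.2 ⟨by linarith, h3⟩
    have h7 : α * ⟪w, x - y⟫_ℝ ≤ hS D w + hS D (-w) := by
      calc α * ⟪w, x - y⟫_ℝ ≤ |α * ⟪w, x - y⟫_ℝ| := le_abs_self _
        _ = |α| * |⟪w, x - y⟫_ℝ| := abs_mul _ _
        _ ≤ 1 * |⟪w, x - y⟫_ℝ| := mul_le_mul_of_nonneg_right hα (abs_nonneg _)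
        _ ≤ hS D w + hS D (-w) := by rw [one_mul]; exact h6
    have h8 := hΔpos k
    simp only [conj_trivial] at h1
    nlinarith

end S0

end Pool.Agent.Saus2
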