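import Pool.Agent.Saus2.DefsC

/-!
# Saus2, package P2: sweeping a planar body
-/

namespace Pool.Agent.Saus2

open MeasureTheory ProbabilityTheory Set Metric Filter Topology Real
open scoped InnerProductSpace
open Pool.Agent.Sausage27 (Eu Body skel hS betaV)

/-- the slices of a horizontally swept planar body -/
private theorem slice_P2 {Y : Set (ℝ × ℝ)} (hY : IsCompact Y) (hc : Convex ℝ Y) {m M' : ℝ}
    (hm : ∀ y ∈ Y, m ≤ y.2) (hM : ∀ y ∈ Y, y.2 ≤ M') (v : ℝ) :
    volume ((fun x : ℝ => (x, v)) ⁻¹'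
      ((fun q : (ℝ × ℝ) × ℝ => q.1 + q.2 • ((1 : ℝ), (0 : ℝ))) '' (Y ×ˢ Icc 0 1))) ≤
      volume ((fun x : ℝ => (x, v)) ⁻¹' Y) + (Icc m M').indicator 1 v := by
  set Z : Set ℝ := (fun x : ℝ => (x, v)) ⁻¹' Y with hZ
  by_cases hne : Z.Nonempty
  · have hind : (Icc m M').indicator (1 : ℝ → ENNReal) v = 1 := by
      obtain ⟨x, hx⟩ := hne
      have h1 : (x, v) ∈ Y := hx
      rw [indicator_of_mem (show v ∈ Icc m M' from ⟨hm _ h1, hM _ h1⟩)]
      rfl
    have hZc : IsCompact Z := by
      refine IsCompact.of_isClosed_subset (hY.image continuous_fst)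
        (hY.isClosed.preimage (by fun_prop)) ?_
      intro x hx
      exact ⟨(x, v), hx, rfl⟩
    have hZconv : Convex ℝ Z := by
      intro x hx y hy α β hα hβ hαβ
      have h1 := hc hx hy hα hβ hαβ
      have h2 : α • (x, v) + β • (y, v) = (α • x + β • y, v) := by
        ext
        · simp
        · simp only [Prod.snd_add, Prod.smul_snd, smul_eq_mul]
          rw [← add_mul, hαβ, one_mul]
      rw [h2] at h1
      exact h1
    have hZe : Z = Icc (sInf Z) (sSup Z) :=
      eq_Icc_of_connected_compact ⟨hne, hZconv.isPreconnected⟩ hZc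
    have hle : sInf Z ≤ sSup Z := by
      obtain ⟨x, hx⟩ := hne
      rw [hZe] at hx
      exact hx.1.trans hx.2
    have hsub : (fun x : ℝ => (x, v)) ⁻¹'
        ((fun q : (ℝ × ℝ) × ℝ => q.1 + q.2 • ((1 : ℝ), (0 : ℝ))) '' (Y ×ˢ Icc 0 1)) ⊆
        Icc (sInf Z) (sSup Z + 1) := by
      rintro x ⟨⟨y, t⟩, ⟨hy, ht⟩, hq⟩
      have h1 : y.1 + t = x := by
        have := congrArg Prod.fst hq
        simpa using this
      have h2 : y.2 = v := by
        have := congrArg Prod.snd hq
        simpa using this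
      have h3 : y.1 ∈ Z := by
        change (y.1, v) ∈ Y
        rw [← h2]
        exact hy
      rw [hZe] at h3
      have ht1 : 0 ≤ t := ht.1
      have ht2 : t ≤ 1 := ht.2
      exact ⟨by linarith [h3.1], by linarith [h3.2]⟩
    have hvZ : volume Z = ENNReal.ofReal (sSup Z - sInf Z) := by
      conv_lhs => rw [hZe]
      exact Real.volume_Icc
    refine (measure_mono hsub).trans ?_
    rw [Real.volume_Icc, hvZ, hind, ← ENNReal.ofReal_one,
      ← ENNReal.ofReal_add (by linarith) zero_le_one]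
    exact ENNReal.ofReal_le_ofReal (by linarith)
  · have hemp : (fun x : ℝ => (x, v)) ⁻¹'
        ((fun q : (ℝ × ℝ) × ℝ => q.1 + q.2 • ((1 : ℝ), (0 : ℝ))) '' (Y ×ˢ Icc 0 1)) = ∅ := by
      rw [eq_empty_iff_forall_notMem]
      rintro x ⟨⟨y, t⟩, ⟨hy, _⟩, hq⟩
      have h2 : y.2 = v := by
        have := congrArg Prod.snd hq
        simpa using this
      refine hne ⟨y.1, ?_⟩
      change (y.1, v) ∈ Y
      rw [← h2]
      exact hy
    rw [hemp, measure_empty]
    exact zero_le

/-- the horizontal case -/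
private theorem horiz_P2 {Y : Set (ℝ × ℝ)} (hY : IsCompact Y) (hc : Convex ℝ Y) {m M' : ℝ}
    (hm : ∀ y ∈ Y, m ≤ y.2) (hM : ∀ y ∈ Y, y.2 ≤ M') :
    volume ((fun q : (ℝ × ℝ) × ℝ => q.1 + q.2 • ((1 : ℝ), (0 : ℝ))) '' (Y ×ˢ Icc 0 1)) ≤
      volume Y + ENNReal.ofReal (M' - m) := by
  have hS : IsCompact ((fun q : (ℝ × ℝ) × ℝ => q.1 + q.2 • ((1 : ℝ), (0 : ℝ))) ''
      (Y ×ˢ Icc 0 1)) := (hY.prod isCompact_Icc).image (by fun_prop)
  have h1 : volume ((fun q : (ℝ × ℝ) × ℝ => q.1 + q.2 • ((1 : ℝ), (0 : ℝ))) ''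
      (Y ×ˢ Icc 0 1)) = ∫⁻ v : ℝ, volume ((fun x : ℝ => (x, v)) ⁻¹'
      ((fun q : (ℝ × ℝ) × ℝ => q.1 + q.2 • ((1 : ℝ), (0 : ℝ))) '' (Y ×ˢ Icc 0 1))) := by
    rw [Measure.volume_eq_prod, Measure.prod_apply_symm hS.measurableSet]
  have h2 : volume Y = ∫⁻ v : ℝ, volume ((fun x : ℝ => (x, v)) ⁻¹' Y) := by
    rw [Measure.volume_eq_prod, Measure.prod_apply_symm hY.measurableSet]
  rw [h1, h2]
  refine (lintegral_mono (slice_P2 hY hc hm hM)).trans ?_
  rw [lintegral_add_right _ (measurable_one.indicator measurableSet_Icc),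
    lintegral_indicator_one measurableSet_Icc, Real.volume_Icc]

/-- the change of coordinates -/
private noncomputable def chg_P2 (a : ℝ × ℝ) : (ℝ × ℝ) →ₗ[ℝ] (ℝ × ℝ) where
  toFun p := (p.1 * a.1 - p.2 * a.2, p.1 * a.2 + p.2 * a.1)
  map_add' p q := by
    ext
    · simp only [Prod.fst_add, Prod.snd_add]
      ring
    · simp only [Prod.fst_add, Prod.snd_add]
      ring
  map_smul' r p := by
    ext
    · simp only [Prod.smul_fst, Prod.smul_snd, smul_eq_mul, RingHom.id_apply]
      ring
    · simp only [Prod.smul_fst, Prod.smul_snd, smul_eq_mul, RingHom.id_apply]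
      ring

private theorem det_P2 (a : ℝ × ℝ) : LinearMap.det (chg_P2 a) = a.1 ^ 2 + a.2 ^ 2 := by
  rw [← LinearMap.det_toMatrix (Module.Basis.finTwoProd ℝ), Matrix.det_fin_two]
  simp only [LinearMap.toMatrix_apply, Module.Basis.finTwoProd_zero, Module.Basis.finTwoProd_one,
    chg_P2, LinearMap.coe_mk, AddHom.coe_mk, Module.Basis.coe_finTwoProd_repr]
  simp
  ring

/-- P2. Sweeping a planar convex body along a segment. If `a = 0` trivial. Otherwise change
coordinates by the linear map `M : (x₁,x₂) ↦ x₁ a + x₂ a'`, `a' = (-a.2, a.1)`, of determinant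
`|a|²`: it suffices to do `a = (1,0)` (with the width multiplied by the determinant). For
`a = (1,0)`: every horizontal line meets `Y` in a (possibly empty) segment, hence meets
`Y + [0,1] a` in a segment longer by exactly `1`, if nonempty; integrate over the heights, which
lie in an interval of length `M' - m`. -/
theorem sweep_area {Y : Set (ℝ × ℝ)} (hY : IsCompact Y) (hc : Convex ℝ Y) (a : ℝ × ℝ) {m M' : ℝ}
    (hm : ∀ y ∈ Y, m ≤ a.1 * y.2 - a.2 * y.1) (hM : ∀ y ∈ Y, a.1 * y.2 - a.2 * y.1 ≤ M')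
    (hmM : m ≤ M') :
    (volume ((fun q : (ℝ × ℝ) × ℝ => q.1 + q.2 • a) '' (Y ×ˢ Icc 0 1))).toReal ≤
      (volume Y).toReal + (M' - m) := by
  have hfin : volume Y ≠ ⊤ := hY.measure_lt_top.ne
  have hkey : volume ((fun q : (ℝ × ℝ) × ℝ => q.1 + q.2 • a) '' (Y ×ˢ Icc 0 1)) ≤
      volume Y + ENNReal.ofReal (M' - m) := by
    by_cases ha : a = 0
    · refine (measure_mono ?_).trans le_self_add
      rintro x ⟨⟨y, t⟩, ⟨hy, _⟩, hq⟩
      have h1 : y = x := by
        rw [ha] at hq
        simpa using hq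
      rw [← h1]
      exact hy
    · set D : ℝ := a.1 ^ 2 + a.2 ^ 2 with hD
      have hD0 : 0 < D := by
        rcases eq_or_ne a.1 0 with h1 | h1
        · have h2 : a.2 ≠ 0 := by
            intro h2
            exact ha (Prod.ext h1 h2)
          positivity
        · positivity
      set L := chg_P2 a with hL
      have hLa : ∀ p : ℝ × ℝ, L p = (p.1 * a.1 - p.2 * a.2, p.1 * a.2 + p.2 * a.1) :=
        fun p => rfl
      set G : ℝ × ℝ → ℝ × ℝ :=
        fun p => ((p.1 * a.1 + p.2 * a.2) / D, (a.1 * p.2 - a.2 * p.1) / D) with hG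
      have hLG : ∀ p, L (G p) = p := by
        intro p
        rw [hLa]
        ext
        · simp only [hG]
          rw [div_mul_eq_mul_div, div_mul_eq_mul_div, ← sub_div, div_eq_iff hD0.ne', hD]
          ring
        · simp only [hG]
          rw [div_mul_eq_mul_div, div_mul_eq_mul_div, ← add_div, div_eq_iff hD0.ne', hD]
          ring
      have hGL : ∀ p, G (L p) = p := by
        intro p
        rw [hLa]
        ext
        · simp only [hG]
          rw [div_eq_iff hD0.ne', hD]
          ring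
        · simp only [hG]
          rw [div_eq_iff hD0.ne', hD]
          ring
      have hGc : Continuous G := by
        simp only [hG]
        fun_prop
      have hLc : Continuous L := L.continuous_of_finiteDimensional
      have hYc : IsCompact (L ⁻¹' Y) := by
        refine IsCompact.of_isClosed_subset (hY.image hGc) (hY.isClosed.preimage hLc) ?_
        intro p hp
        exact ⟨L p, hp, hGL p⟩
      have hYconv : Convex ℝ (L ⁻¹' Y) := hc.linear_preimage L
      have hsurj : Function.Surjective L := fun p => ⟨G p, hLG p⟩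
      have hYL : L '' (L ⁻¹' Y) = Y := image_preimage_eq Y hsurj
      have hcr : ∀ p : ℝ × ℝ, a.1 * (L p).2 - a.2 * (L p).1 = p.2 * D := by
        intro p
        rw [hLa, hD]
        ring
      have h1 := horiz_P2 hYc hYconv (m := m / D) (M' := M' / D)
        (fun y hy => by
          rw [div_le_iff₀ hD0, ← hcr]
          exact hm _ hy)
        (fun y hy => by
          rw [le_div_iff₀ hD0, ← hcr]
          exact hM _ hy)
      have hsub : (fun q : (ℝ × ℝ) × ℝ => q.1 + q.2 • a) '' (Y ×ˢ Icc 0 1) ⊆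
          L '' ((fun q : (ℝ × ℝ) × ℝ => q.1 + q.2 • ((1 : ℝ), (0 : ℝ))) ''
            ((L ⁻¹' Y) ×ˢ Icc 0 1)) := by
        rintro x ⟨⟨y, t⟩, ⟨hy, ht⟩, hq⟩
        refine ⟨G y + t • ((1 : ℝ), (0 : ℝ)), ⟨(G y, t), ⟨?_, ht⟩, rfl⟩, ?_⟩
        · change L (G y) ∈ Y
          rw [hLG]
          exact hy
        · rw [map_add, map_smul, hLG]
          have h3 : L ((1 : ℝ), (0 : ℝ)) = a := by
            rw [hLa]
            ext
            · simp
            · simp
          rw [h3]
          exact hq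
      have hdet : |LinearMap.det L| = D := by
        rw [hL, det_P2, abs_of_pos hD0]
      refine (measure_mono hsub).trans ?_
      rw [Measure.addHaar_image_linearMap, hdet]
      refine (mul_le_mul_right h1 (ENNReal.ofReal D)).trans ?_
      rw [mul_add, ← ENNReal.ofReal_mul hD0.le]
      have h4 : D * (M' / D - m / D) = M' - m := by
        rw [← sub_div, mul_div_cancel₀ _ hD0.ne']
      have h5 : ENNReal.ofReal D * volume (L ⁻¹' Y) = volume Y := by
        conv_rhs => rw [← hYL, Measure.addHaar_image_linearMap, hdet]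
      rw [h4, h5]
  have h6 := ENNReal.toReal_mono (ENNReal.add_ne_top.mpr ⟨hfin, ENNReal.ofReal_ne_top⟩) hkey
  rw [ENNReal.toReal_add hfin ENNReal.ofReal_ne_top, ENNReal.toReal_ofReal (by linarith)] at h6
  exact h6

end Pool.Agent.Saus2
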