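import Pool.Agent.Saus2.DefsC
import Pool.Agent.Saus2.P2
import Pool.Agent.Saus2.S1

/-!
# Saus2, package N1: projecting the Gaussian pair
-/

namespace Pool.Agent.Saus2

open MeasureTheory ProbabilityTheory Set Metric Filter Topology Real
open scoped InnerProductSpace
open Pool.Agent.Sausage27 (Eu Body skel hS betaV)

section S0

variable {E : Type*} [NormedAddCommGroup E] [InnerProductSpace ℝ E] [FiniteDimensional ℝ E]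

omit [FiniteDimensional ℝ E] in
private theorem n1_min {D : Set E} (hD : Body D) (r : E) :
    ∃ z ∈ D, ∀ x ∈ D, ⟪r, z⟫_ℝ ≤ ⟪r, x⟫_ℝ := by
  obtain ⟨z, hz, hmin⟩ := hD.comp.exists_isMinOn hD.ne (f := fun x => ⟪r, x⟫_ℝ) (by fun_prop)
  exact ⟨z, hz, fun x hx => hmin hx⟩

omit [FiniteDimensional ℝ E] in
private theorem n1_range {D : Set E} (W : Submodule ℝ E) {Δ : ℝ} (hΔ0 : 0 ≤ Δ)
    (hΔ : ∀ x ∈ D, ∀ y ∈ D, ∀ v ∈ Wᗮ, ‖v‖ ≤ 1 → ⟪v, x - y⟫_ℝ ≤ Δ)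
    {r : E} (hr : r ∈ Wᗮ) {c : ℝ} (hc : ‖r‖ ≤ c) {x y : E} (hx : x ∈ D) (hy : y ∈ D) :
    ⟪r, x - y⟫_ℝ ≤ c * Δ := by
  have hc0 : 0 ≤ c := (norm_nonneg r).trans hc
  by_cases h0 : r = 0
  · rw [h0, inner_zero_left]; positivity
  · have hn : 0 < ‖r‖ := norm_pos_iff.2 h0
    have h1 := hΔ x hx y hy (‖r‖⁻¹ • r) (Submodule.smul_mem _ _ hr)
      (by rw [norm_smul, norm_inv, norm_norm, inv_mul_cancel₀ hn.ne'])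
    rw [real_inner_smul_left, inv_mul_le_iff₀ hn] at h1
    exact h1.trans (mul_le_mul_of_nonneg_right hc hΔ0)

omit [FiniteDimensional ℝ E] in
private theorem n1_len {D : Set E} {δ : ℝ}
    (hδ : ∀ x ∈ D, ∀ y ∈ D, ‖x - y‖ ≤ δ) {q : E} {c : ℝ} (hc : ‖q‖ ≤ c) {x y : E}
    (hx : x ∈ D) (hy : y ∈ D) : ⟪q, x - y⟫_ℝ ≤ c * δ := by
  have hc0 : 0 ≤ c := (norm_nonneg q).trans hc
  calc ⟪q, x - y⟫_ℝ ≤ ‖q‖ * ‖x - y‖ := real_inner_le_norm _ _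
    _ ≤ c * δ := mul_le_mul hc (hδ x hx y hy) (norm_nonneg _) hc0

private theorem n1_swc {Y : Set (ℝ × ℝ)} (hY : IsCompact Y) (a : ℝ × ℝ) :
    IsCompact ((fun q : (ℝ × ℝ) × ℝ => q.1 + q.2 • a) '' (Y ×ˢ Icc 0 1)) :=
  (hY.prod isCompact_Icc).image (by fun_prop)

private theorem n1_swv {Y : Set (ℝ × ℝ)} (hY : Convex ℝ Y) (a : ℝ × ℝ) :
    Convex ℝ ((fun q : (ℝ × ℝ) × ℝ => q.1 + q.2 • a) '' (Y ×ˢ Icc 0 1)) := by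
  refine (hY.prod (convex_Icc 0 1)).is_linear_image ⟨fun x y => ?_, fun t x => ?_⟩
  · simp only [Prod.fst_add, Prod.snd_add, add_smul]; abel
  · simp only [Prod.smul_fst, Prod.smul_snd, smul_add, smul_assoc]

omit [FiniteDimensional ℝ E] in
private theorem n1_shc {D : Set E} (hD : Body D) (p : E × E) : IsCompact (shadow D p) :=
  hD.comp.image (by fun_prop)

omit [FiniteDimensional ℝ E] in
private theorem n1_shv {D : Set E} (hD : Body D) (p : E × E) : Convex ℝ (shadow D p) := by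
  refine hD.conv.is_linear_image ⟨fun x y => ?_, fun t x => ?_⟩
  · simp only [inner_add_right, Prod.mk_add_mk]
  · simp only [inner_smul_right, Prod.smul_mk, smul_eq_mul]

private theorem n1_coef {u b : ℝ} (h0 : 0 ≤ u) (h1 : u ≤ b) :
    ∃ s ∈ Icc (0 : ℝ) 1, s * b = u := by
  rcases (h0.trans h1).eq_or_lt with hb | hb
  · exact ⟨0, ⟨le_refl _, zero_le_one⟩, by rw [zero_mul]; linarith⟩
  · exact ⟨u / b, ⟨by positivity, (div_le_one hb).2 h1⟩, div_mul_cancel₀ _ hb.ne'⟩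

/-- N1. `⟪p.1, z⟫ = ⟪P p.1, z⟫ + ⟪p.1 - P p.1, z⟫`, and the last term ranges over an interval of
length at most `‖p.1‖ Δ`. So the shadow is contained in a translate of `A + [0,α] × [0,β]`,
`A` the shadow for the projected pair, `α = ‖p.1‖ Δ`, `β = ‖p.2‖ Δ`; apply `sweep_area` twice
(`a = (α, 0)`, `a = (0, β)`); the coordinate widths of `A` are at most `‖p.1‖ δ`, `‖p.2‖ δ`. -/
theorem sarea_proj {D : Set E} (hD : Body D) (W : Submodule ℝ E) {Δ δ : ℝ} (hΔ0 : 0 ≤ Δ)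
    (hΔ : ∀ x ∈ D, ∀ y ∈ D, ∀ v ∈ Wᗮ, ‖v‖ ≤ 1 → ⟪v, x - y⟫_ℝ ≤ Δ)
    (hδ : ∀ x ∈ D, ∀ y ∈ D, ‖x - y‖ ≤ δ) (p : E × E) :
    sarea D p ≤ sarea D (W.starProjection p.1, W.starProjection p.2) +
      (2 * Δ * δ + Δ ^ 2) * (‖p.1‖ * ‖p.2‖) := by
  obtain ⟨p₁, p₂⟩ := p
  obtain ⟨x₀, hx₀⟩ := hD.ne
  have hδ0 : 0 ≤ δ := (norm_nonneg _).trans (hδ x₀ hx₀ x₀ hx₀)
  have hq : ∀ v : E, ‖W.starProjection v‖ ≤ ‖v‖ := fun v => W.norm_starProjection_apply_le v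
  have hrm : ∀ v : E, v - W.starProjection v ∈ Wᗮ := fun v =>
    W.sub_starProjection_mem_orthogonal v
  have hrn : ∀ v : E, ‖v - W.starProjection v‖ ≤ ‖v‖ := by
    intro v
    have h1 : v - W.starProjection v = Wᗮ.starProjection v := by
      rw [Submodule.starProjection_orthogonal_val]
    rw [h1]; exact Wᗮ.norm_starProjection_apply_le v
  have hα0 : 0 ≤ ‖p₁‖ * Δ := by positivity
  have hβ0 : 0 ≤ ‖p₂‖ * Δ := by positivity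
  set q₁ := W.starProjection p₁ with hq₁
  set q₂ := W.starProjection p₂ with hq₂
  have hq1 : ‖q₁‖ ≤ ‖p₁‖ := hq p₁
  have hq2 : ‖q₂‖ ≤ ‖p₂‖ := hq p₂
  have hr1 : p₁ - q₁ ∈ Wᗮ := hrm p₁
  have hr2 : p₂ - q₂ ∈ Wᗮ := hrm p₂
  have hn1 : ‖p₁ - q₁‖ ≤ ‖p₁‖ := hrn p₁
  have hn2 : ‖p₂ - q₂‖ ≤ ‖p₂‖ := hrn p₂
  obtain ⟨z₁, hz₁, hm₁⟩ := n1_min hD (p₁ - q₁)
  obtain ⟨z₂, hz₂, hm₂⟩ := n1_min hD (p₂ - q₂)
  obtain ⟨w₁, hw₁, hv₁⟩ := n1_min hD q₁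
  obtain ⟨w₂, hw₂, hv₂⟩ := n1_min hD q₂
  set A := shadow D (q₁, q₂) with hA
  have hAc : IsCompact A := n1_shc hD _
  have hAv : Convex ℝ A := n1_shv hD _
  set Y₁ := (fun q : (ℝ × ℝ) × ℝ => q.1 + q.2 • ((‖p₁‖ * Δ, 0) : ℝ × ℝ)) '' (A ×ˢ Icc 0 1)
    with hY₁
  have hY₁c : IsCompact Y₁ := n1_swc hAc _
  have hY₁v : Convex ℝ Y₁ := n1_swv hAv _
  set Y₂ := (fun q : (ℝ × ℝ) × ℝ => q.1 + q.2 • ((0, ‖p₂‖ * Δ) : ℝ × ℝ)) '' (Y₁ ×ˢ Icc 0 1)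
    with hY₂
  have hY₂c : IsCompact Y₂ := n1_swc hY₁c _
  have e1 : (volume Y₁).toReal ≤ (volume A).toReal +
      ((‖p₁‖ * Δ) * (⟪q₂, w₂⟫_ℝ + ‖p₂‖ * δ) - (‖p₁‖ * Δ) * ⟪q₂, w₂⟫_ℝ) := by
    refine sweep_area hAc hAv _ ?_ ?_ ?_
    · rintro _ ⟨z, hz, rfl⟩
      have := mul_le_mul_of_nonneg_left (hv₂ z hz) hα0
      simpa using this
    · rintro _ ⟨z, hz, rfl⟩
      have h1 := n1_len hδ hq2 hz hw₂
      rw [inner_sub_right] at h1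
      have := mul_le_mul_of_nonneg_left (show ⟪q₂, z⟫_ℝ ≤ ⟪q₂, w₂⟫_ℝ + ‖p₂‖ * δ by linarith) hα0
      simpa using this
    · exact mul_le_mul_of_nonneg_left (by have : 0 ≤ ‖p₂‖ * δ := by positivity
                                          linarith) hα0
  have e2 : (volume Y₂).toReal ≤ (volume Y₁).toReal +
      (-((‖p₂‖ * Δ) * ⟪q₁, w₁⟫_ℝ) -
        -((‖p₂‖ * Δ) * (⟪q₁, w₁⟫_ℝ + ‖p₁‖ * δ + ‖p₁‖ * Δ))) := by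
    have hpos : 0 ≤ ‖p₁‖ * δ := by positivity
    refine sweep_area hY₁c hY₁v _ ?_ ?_ ?_
    · rintro _ ⟨⟨_, s⟩, ⟨⟨z, hz, rfl⟩, hs⟩, rfl⟩
      have h1 := n1_len hδ hq1 hz hw₁
      rw [inner_sub_right] at h1
      have h2 : s * (‖p₁‖ * Δ) ≤ ‖p₁‖ * Δ := mul_le_of_le_one_left hα0 hs.2
      have := mul_le_mul_of_nonneg_left
        (show ⟪q₁, z⟫_ℝ + s * (‖p₁‖ * Δ) ≤ ⟪q₁, w₁⟫_ℝ + ‖p₁‖ * δ + ‖p₁‖ * Δ by linarith) hβ0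
      simp only [Prod.fst_add, Prod.smul_fst, smul_eq_mul, zero_mul, zero_sub]
      linarith
    · rintro _ ⟨⟨_, s⟩, ⟨⟨z, hz, rfl⟩, hs⟩, rfl⟩
      have h2 : 0 ≤ s * (‖p₁‖ * Δ) := mul_nonneg hs.1 hα0
      have := mul_le_mul_of_nonneg_left
        (show ⟪q₁, w₁⟫_ℝ ≤ ⟪q₁, z⟫_ℝ + s * (‖p₁‖ * Δ) by linarith [hv₁ z hz]) hβ0
      simp only [Prod.fst_add, Prod.smul_fst, smul_eq_mul, zero_mul, zero_sub]
      linarith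
    · have := mul_le_mul_of_nonneg_left
        (show ⟪q₁, w₁⟫_ℝ ≤ ⟪q₁, w₁⟫_ℝ + ‖p₁‖ * δ + ‖p₁‖ * Δ by linarith) hβ0
      linarith
  have hsub : shadow D (p₁, p₂) ⊆
      (fun y => ((⟪p₁ - q₁, z₁⟫_ℝ, ⟪p₂ - q₂, z₂⟫_ℝ) : ℝ × ℝ) + y) '' Y₂ := by
    rintro _ ⟨z, hz, rfl⟩
    have h1 := n1_range W hΔ0 hΔ hr1 hn1 hz hz₁
    have h2 := n1_range W hΔ0 hΔ hr2 hn2 hz hz₂
    rw [inner_sub_right] at h1 h2
    obtain ⟨s, hs, hse⟩ := n1_coef (sub_nonneg.2 (hm₁ z hz)) h1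
    obtain ⟨t, ht, hte⟩ := n1_coef (sub_nonneg.2 (hm₂ z hz)) h2
    refine ⟨(⟪q₁, z⟫_ℝ, ⟪q₂, z⟫_ℝ) + s • (‖p₁‖ * Δ, 0) + t • (0, ‖p₂‖ * Δ),
      ⟨((⟪q₁, z⟫_ℝ, ⟪q₂, z⟫_ℝ) + s • (‖p₁‖ * Δ, 0), t),
        ⟨⟨((⟪q₁, z⟫_ℝ, ⟪q₂, z⟫_ℝ), s), ⟨⟨z, hz, rfl⟩, hs⟩, rfl⟩, ht⟩, rfl⟩, ?_⟩
    have k1 : ⟪p₁ - q₁, z⟫_ℝ = ⟪p₁, z⟫_ℝ - ⟪q₁, z⟫_ℝ := inner_sub_left _ _ _
    have k2 : ⟪p₂ - q₂, z⟫_ℝ = ⟪p₂, z⟫_ℝ - ⟪q₂, z⟫_ℝ := inner_sub_left _ _ _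
    ext
    · simp only [Prod.fst_add, Prod.smul_fst, smul_eq_mul, mul_zero]
      linarith
    · simp only [Prod.snd_add, Prod.smul_snd, smul_eq_mul, mul_zero]
      linarith
  have e3 : (volume (shadow D (p₁, p₂))).toReal ≤ (volume Y₂).toReal := by
    refine ENNReal.toReal_mono hY₂c.measure_lt_top.ne ((measure_mono hsub).trans ?_)
    rw [image_add_left, measure_preimage_add]
  change (volume (shadow D (p₁, p₂))).toReal ≤ (volume A).toReal +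
    (2 * Δ * δ + Δ ^ 2) * (‖p₁‖ * ‖p₂‖)
  nlinarith [e1, e2, e3]

end S0

end Pool.Agent.Saus2
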