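import Pool.Agent.Saus2.DefsC

/-!
# Saus2, package N2: slices of codimension two
-/

namespace Pool.Agent.Saus2

open MeasureTheory ProbabilityTheory Set Metric Filter Topology Real
open scoped InnerProductSpace
open Pool.Agent.Sausage27 (Eu Body skel hS betaV)

section S0

variable {E : Type*} [NormedAddCommGroup E] [InnerProductSpace ℝ E] [FiniteDimensional ℝ E]

/-- Bessel for two orthonormal vectors. -/
private lemma N2_bessel {u v : E} (hu : ‖u‖ = 1) (hv : ‖v‖ = 1) (huv : ⟪u, v⟫_ℝ = 0) (z : E) :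
    ⟪u, z⟫_ℝ ^ 2 + ⟪v, z⟫_ℝ ^ 2 ≤ ‖z‖ ^ 2 := by
  set a : ℝ := ⟪u, z⟫_ℝ with ha
  set b : ℝ := ⟪v, z⟫_ℝ with hb
  have h1 : ‖z - a • u‖ ^ 2 = ‖z‖ ^ 2 - a ^ 2 := by
    rw [norm_sub_sq_real, inner_smul_right, norm_smul, hu, mul_one, real_inner_comm, ← ha,
      Real.norm_eq_abs, sq_abs]
    ring
  have h2 : ⟪z - a • u, b • v⟫_ℝ = b ^ 2 := by
    rw [inner_smul_right, inner_sub_left, inner_smul_left, huv, real_inner_comm, ← hb]
    simp
    ring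
  have h3 : ‖z - a • u - b • v‖ ^ 2 = ‖z‖ ^ 2 - a ^ 2 - b ^ 2 := by
    rw [norm_sub_sq_real, h1, h2, norm_smul, hv, mul_one, Real.norm_eq_abs, sq_abs]
    ring
  have h4 : 0 ≤ ‖z - a • u - b • v‖ ^ 2 := sq_nonneg _
  linarith

private lemma N2_isClosed_hyp (u v : E) (s t : ℝ) :
    IsClosed {x : E | ⟪u, x⟫_ℝ = s ∧ ⟪v, x⟫_ℝ = t} := by
  have h1 : IsClosed {x : E | ⟪u, x⟫_ℝ = s} := isClosed_eq (by fun_prop) continuous_const
  have h2 : IsClosed {x : E | ⟪v, x⟫_ℝ = t} := isClosed_eq (by fun_prop) continuous_const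
  exact h1.inter h2

private lemma N2_convex_hyp (u v : E) (s t : ℝ) :
    Convex ℝ {x : E | ⟪u, x⟫_ℝ = s ∧ ⟪v, x⟫_ℝ = t} := by
  intro x hx y hy a b _ _ hab
  simp only [mem_setOf_eq] at hx hy ⊢
  refine ⟨?_, ?_⟩
  · rw [inner_add_right, inner_smul_right, inner_smul_right, hx.1, hy.1, ← add_mul, hab, one_mul]
  · rw [inner_add_right, inner_smul_right, inner_smul_right, hx.2, hy.2, ← add_mul, hab, one_mul]

private lemma N2_slice_subset {D : Set E} (hD : Body D) {u v : E} {s t : ℝ} {C : Set E}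
    (hC : Convex ℝ C) (hC' : IsClosed C)
    (h : (D ∩ {x | ⟪u, x⟫_ℝ = s ∧ ⟪v, x⟫_ℝ = t}).extremePoints ℝ ⊆ C) :
    D ∩ {x | ⟪u, x⟫_ℝ = s ∧ ⟪v, x⟫_ℝ = t} ⊆ C := by
  have h1 := closure_convexHull_extremePoints (hD.comp.inter_right (N2_isClosed_hyp u v s t))
    (hD.conv.inter (N2_convex_hyp u v s t))
  rw [← h1]
  exact closure_minimal (convexHull_min h hC) hC'

/-- In a three-dimensional subspace there is a nonzero vector orthogonal to two given vectors. -/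
private lemma N2_exists_orth {P : Submodule ℝ E} (hP : Module.finrank ℝ P = 3) (u v : E) :
    ∃ w ∈ P, w ≠ 0 ∧ ⟪u, w⟫_ℝ = 0 ∧ ⟪v, w⟫_ℝ = 0 := by
  let f : P →ₗ[ℝ] (ℝ × ℝ) :=
    ((innerₛₗ ℝ u).comp P.subtype).prod ((innerₛₗ ℝ v).comp P.subtype)
  have hk : LinearMap.ker f ≠ ⊥ := by
    apply LinearMap.ker_ne_bot_of_finrank_lt
    rw [hP, Module.finrank_prod, Module.finrank_self]
    norm_num
  obtain ⟨w, hw, hw0⟩ := Submodule.exists_mem_ne_zero_of_ne_bot hk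
  have hfw : f w = 0 := hw
  refine ⟨w, w.2, ?_, ?_, ?_⟩
  · intro h
    exact hw0 (Subtype.ext h)
  · have := congrArg Prod.fst hfw
    simpa [f] using this
  · have := congrArg Prod.snd hfw
    simpa [f] using this

/-- Extreme points of the slice are in the `2`-skeleton. -/
private lemma N2_extreme_skel {D : Set E} {u v : E} {s t : ℝ} {x : E}
    (hx : x ∈ (D ∩ {x | ⟪u, x⟫_ℝ = s ∧ ⟪v, x⟫_ℝ = t}).extremePoints ℝ) : x ∈ skel 2 D := by
  refine ⟨hx.1.1, ?_⟩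
  rintro ⟨P, r, hP, hr, hPr⟩
  obtain ⟨w, hwP, hw0, huw, hvw⟩ := N2_exists_orth (by simpa using hP) u v
  have hn : 0 < ‖w‖ := norm_pos_iff.mpr hw0
  set y : E := (r / ‖w‖) • w with hy
  have hyP : y ∈ P := P.smul_mem _ hwP
  have hyn : ‖y‖ ≤ r := by
    rw [hy, norm_smul, Real.norm_of_nonneg (by positivity), div_mul_cancel₀ _ hn.ne']
  have hy0 : y ≠ 0 := smul_ne_zero (by positivity) hw0
  have huy : ⟪u, y⟫_ℝ = 0 := by rw [hy, inner_smul_right, huw, mul_zero]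
  have hvy : ⟪v, y⟫_ℝ = 0 := by rw [hy, inner_smul_right, hvw, mul_zero]
  have hxs : ⟪u, x⟫_ℝ = s := hx.1.2.1
  have hxt : ⟪v, x⟫_ℝ = t := hx.1.2.2
  have h1 : x + y ∈ D ∩ {x | ⟪u, x⟫_ℝ = s ∧ ⟪v, x⟫_ℝ = t} := by
    refine ⟨hPr y hyP hyn, ?_, ?_⟩
    · rw [inner_add_right, huy, hxs, add_zero]
    · rw [inner_add_right, hvy, hxt, add_zero]
  have h2 : x - y ∈ D ∩ {x | ⟪u, x⟫_ℝ = s ∧ ⟪v, x⟫_ℝ = t} := by
    refine ⟨?_, ?_, ?_⟩
    · have := hPr (-y) (P.neg_mem hyP) (by rwa [norm_neg])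
      rwa [← sub_eq_add_neg] at this
    · rw [inner_sub_right, huy, hxs, sub_zero]
    · rw [inner_sub_right, hvy, hxt, sub_zero]
  have h3 : x ∈ openSegment ℝ (x + y) (x - y) := by
    refine ⟨1 / 2, 1 / 2, by norm_num, by norm_num, by norm_num, ?_⟩
    module
  have h4 := hx.2 h1 h2 h3
  apply hy0
  have : x + y = x + 0 := by rw [h4, add_zero]
  exact add_left_cancel this

/-- N2. As `Sausage27.slice_card`: every extreme point of the slice is in `skel 2 D` (a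
3-dimensional subspace contains a nonzero vector orthogonal to `u` and `v`), hence in one of the
balls, whose centre then satisfies the condition. If there are fewer than `finrank W - 1` such
balls, some unit `w ∈ W` is orthogonal to `u`, `v` and all differences of their centres, so the
slice has extent at most `2` in the direction `w`. -/
theorem slice_card2 {n : ℕ} {D : Set E} (hD : Body D) {c : Fin n → E}
    (hc : skel 2 D ⊆ ⋃ j, closedBall (c j) 1) {u v : E} (hu : ‖u‖ = 1) (hv : ‖v‖ = 1)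
    (huv : ⟪u, v⟫_ℝ = 0) (W : Submodule ℝ E) (huW : u ∈ W) (hvW : v ∈ W) (s t : ℝ)
    (hne : (D ∩ {x | ⟪u, x⟫_ℝ = s ∧ ⟪v, x⟫_ℝ = t}).Nonempty)
    (hw : ∀ w ∈ W, ‖w‖ = 1 → ⟪u, w⟫_ℝ = 0 → ⟪v, w⟫_ℝ = 0 →
      ∃ x ∈ D, ∃ y ∈ D, ⟪u, x⟫_ℝ = s ∧ ⟪u, y⟫_ℝ = s ∧ ⟪v, x⟫_ℝ = t ∧ ⟪v, y⟫_ℝ = t ∧
        2 < ⟪w, x - y⟫_ℝ) :
    Module.finrank ℝ W ≤
      (Finset.univ.filter (fun j => (⟪u, c j⟫_ℝ - s) ^ 2 + (⟪v, c j⟫_ℝ - t) ^ 2 ≤ 1)).card + 1 := by
  classical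
  set S := Finset.univ.filter
    (fun j => (⟪u, c j⟫_ℝ - s) ^ 2 + (⟪v, c j⟫_ℝ - t) ^ 2 ≤ 1) with hS
  -- a point of the slice in the ball `j` forces `j ∈ S`
  have hmem : ∀ x j, ⟪u, x⟫_ℝ = s → ⟪v, x⟫_ℝ = t → x ∈ closedBall (c j) 1 → j ∈ S := by
    intro x j hxs hxt hj
    rw [hS, Finset.mem_filter]
    refine ⟨Finset.mem_univ _, ?_⟩
    have h1 : ⟪u, c j⟫_ℝ - s = ⟪u, c j - x⟫_ℝ := by rw [inner_sub_right, hxs]
    have h2 : ⟪v, c j⟫_ℝ - t = ⟪v, c j - x⟫_ℝ := by rw [inner_sub_right, hxt]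
    rw [h1, h2]
    refine (N2_bessel hu hv huv _).trans ?_
    have h3 : ‖c j - x‖ ≤ 1 := by
      rw [← dist_eq_norm, dist_comm]
      exact mem_closedBall.1 hj
    have h4 : 0 ≤ ‖c j - x‖ := norm_nonneg _
    nlinarith
  by_contra hlt
  push Not at hlt
  obtain ⟨x₀, hx₀⟩ :=
    (hD.comp.inter_right (N2_isClosed_hyp u v s t)).extremePoints_nonempty hne
  obtain ⟨j₀, hj₀⟩ := mem_iUnion.1 (hc (N2_extreme_skel hx₀))
  have hx₀' := (extremePoints_subset hx₀).2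
  have hj₀S : j₀ ∈ S := hmem x₀ j₀ hx₀'.1 hx₀'.2 hj₀
  let f : W →ₗ[ℝ] (Option S → ℝ) := LinearMap.pi fun j =>
    (innerₛₗ ℝ (match j with
      | none => v
      | some j => if (j : Fin n) = j₀ then u else c j - c j₀)) ∘ₗ W.subtype
  have hdim : Module.finrank ℝ (Option S → ℝ) < Module.finrank ℝ W := by
    rw [Module.finrank_fintype_fun_eq_card, Fintype.card_option, Fintype.card_coe]
    exact hlt
  obtain ⟨w', hw'0, hw'⟩ : ∃ v : W, v ≠ 0 ∧ f v = 0 := by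
    have hker : LinearMap.ker f ≠ ⊥ := LinearMap.ker_ne_bot_of_finrank_lt hdim
    obtain ⟨v, hv, hv0⟩ := Submodule.exists_mem_ne_zero_of_ne_bot hker
    exact ⟨v, hv0, hv⟩
  have hzv : ⟪v, (w' : E)⟫_ℝ = 0 := congrFun hw' none
  have hz : ∀ j ∈ S, ⟪(if j = j₀ then u else c j - c j₀), (w' : E)⟫_ℝ = 0 := by
    intro j hj
    exact congrFun hw' (some ⟨j, hj⟩)
  have hn0 : ‖(w' : E)‖ ≠ 0 := by
    simpa using hw'0
  set w : E := (‖(w' : E)‖)⁻¹ • (w' : E) with hwdef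
  have hwW : w ∈ W := W.smul_mem _ w'.2
  have hw1 : ‖w‖ = 1 := by
    rw [hwdef, norm_smul, norm_inv, norm_norm, inv_mul_cancel₀ hn0]
  have hvw : ⟪v, w⟫_ℝ = 0 := by
    rw [hwdef, inner_smul_right, hzv, mul_zero]
  have hwz : ∀ j ∈ S, ⟪(if j = j₀ then u else c j - c j₀), w⟫_ℝ = 0 := by
    intro j hj
    rw [hwdef, inner_smul_right, hz j hj, mul_zero]
  have huw : ⟪u, w⟫_ℝ = 0 := by
    have := hwz j₀ hj₀S
    rwa [if_pos rfl] at this
  have hcw : ∀ j ∈ S, ⟪w, c j⟫_ℝ = ⟪w, c j₀⟫_ℝ := by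
    intro j hj
    by_cases h : j = j₀
    · rw [h]
    · have := hwz j hj
      rw [if_neg h, real_inner_comm, inner_sub_right] at this
      linarith
  set C : Set E := {x | ⟪w, c j₀⟫_ℝ - 1 ≤ ⟪w, x⟫_ℝ} ∩ {x | ⟪w, x⟫_ℝ ≤ ⟪w, c j₀⟫_ℝ + 1} with hC
  have hCc : Convex ℝ C := by
    refine Convex.inter ?_ ?_
    · exact convex_halfSpace_ge (f := fun x => ⟪w, x⟫_ℝ)
        ⟨fun x y => inner_add_right _ _ _, fun a x => by rw [inner_smul_right]; rfl⟩ _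
    · exact convex_halfSpace_le (f := fun x => ⟪w, x⟫_ℝ)
        ⟨fun x y => inner_add_right _ _ _, fun a x => by rw [inner_smul_right]; rfl⟩ _
  have hCc' : IsClosed C := by
    refine IsClosed.inter ?_ ?_
    · exact isClosed_le continuous_const (by fun_prop)
    · exact isClosed_le (by fun_prop) continuous_const
  have hsub : D ∩ {x | ⟪u, x⟫_ℝ = s ∧ ⟪v, x⟫_ℝ = t} ⊆ C := by
    refine N2_slice_subset hD hCc hCc' fun x hx => ?_
    obtain ⟨j, hj⟩ := mem_iUnion.1 (hc (N2_extreme_skel hx))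
    have hx' := (extremePoints_subset hx).2
    have hjS : j ∈ S := hmem x j hx'.1 hx'.2 hj
    have h1 : |⟪w, x - c j⟫_ℝ| ≤ 1 := by
      refine (abs_real_inner_le_norm _ _).trans ?_
      rw [hw1, one_mul, ← dist_eq_norm]
      exact mem_closedBall.1 hj
    rw [inner_sub_right, hcw j hjS, abs_le] at h1
    refine ⟨?_, ?_⟩
    · simp only [mem_setOf_eq]
      linarith [h1.1]
    · simp only [mem_setOf_eq]
      linarith [h1.2]
  obtain ⟨x, hx, y, hy, hxs, hys, hxt, hyt, hxy⟩ := hw w hwW hw1 huw hvw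
  have h1 := hsub ⟨hx, hxs, hxt⟩
  have h2 := hsub ⟨hy, hys, hyt⟩
  simp only [hC, mem_inter_iff, mem_setOf_eq] at h1 h2
  rw [inner_sub_right] at hxy
  linarith [h1.2, h2.1]

end S0

end Pool.Agent.Saus2
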