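import Pool.Agent.Saus2.DefsC
import Pool.Agent.Saus2.N2
import Pool.Agent.Sausage27.HB6

/-!
# Saus2, package N3: area of a wide shadow
-/

namespace Pool.Agent.Saus2

open MeasureTheory ProbabilityTheory Set Metric Filter Topology Real
open scoped InnerProductSpace
open Pool.Agent.Sausage27 (Eu Body skel hS betaV)

section S0

variable {E : Type*} [NormedAddCommGroup E] [InnerProductSpace ℝ E] [FiniteDimensional ℝ E]

/-- the area of a disc -/
private theorem n3_disc (a b : ℝ) :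
    volume {q : ℝ × ℝ | (a - q.1) ^ 2 + (b - q.2) ^ 2 ≤ 1} = ENNReal.ofReal π := by
  have hcl : IsClosed {q : ℝ × ℝ | (a - q.1) ^ 2 + (b - q.2) ^ 2 ≤ 1} :=
    isClosed_le (by fun_prop) (by fun_prop)
  have h1 := Complex.volume_preserving_equiv_real_prod.measure_preimage
    hcl.measurableSet.nullMeasurableSet
  rw [← h1]
  have h2 : Complex.measurableEquivRealProd ⁻¹'
      {q : ℝ × ℝ | (a - q.1) ^ 2 + (b - q.2) ^ 2 ≤ 1} = closedBall (⟨a, b⟩ : ℂ) 1 := by
    ext z
    rw [mem_preimage, mem_setOf_eq, mem_closedBall, dist_eq_norm, Complex.norm_def,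
      Real.sqrt_le_one, Complex.normSq_apply]
    simp only [Complex.measurableEquivRealProd_apply, Complex.sub_re, Complex.sub_im]
    constructor <;> intro h <;> nlinarith
  rw [h2, Complex.volume_closedBall, ENNReal.ofReal_one, one_pow, one_mul]
  rw [← ENNReal.ofReal_coe_nnreal]
  rfl

/-- N3. Let `j = finrank W`, `o` from `Sausage27.exists_ball_proj` with `ω = ρ (j+1)`, so that
`D` projects onto a set containing the `W`-ball of radius `ρ` about the projection of `o`. Let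
`1/ρ < η < 1` and `q = (1-η) q_S + η (⟪u,o⟫, ⟪v,o⟫)` with `q_S` in the shadow `S` of `D` for
`(u,v)`. For a unit `w ∈ W` orthogonal to `u, v`, the points `(1-η) z + η x_±` (`z` over `q_S`,
`x_± ∈ D` with projection that of `o ± ρ w`) lie over `q` and differ by `2 η ρ > 2` in direction
`w`; so by `slice_card2` at least `j - 1` balls have `q` in the disc of radius `1` about
`(⟪u,c⟫, ⟪v,c⟫)`. Integrating over the homothetic copy of `S`:
`(j-1) (1-η)² area S ≤ π n`. Let `η → 1/ρ`. -/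
theorem wide_area {n : ℕ} {D : Set E} (hD : Body D) {c : Fin n → E}
    (hc : skel 2 D ⊆ ⋃ j, closedBall (c j) 1) (W : Submodule ℝ E)
    {ρ : ℝ} (hρ : 1 < ρ)
    (hw : ∀ w ∈ W, ‖w‖ = 1 → ρ * ((Module.finrank ℝ W : ℝ) + 1) ≤ hS D w + hS D (-w))
    {u v : E} (huW : u ∈ W) (hvW : v ∈ W) (hu : ‖u‖ = 1) (hv : ‖v‖ = 1) (huv : ⟪u, v⟫_ℝ = 0) :
    ((Module.finrank ℝ W : ℝ) - 1) * (1 - 1 / ρ) ^ 2 * sarea D (u, v) ≤ π * n := by
  classical
  have hρ0 : 0 < ρ := by linarith
  set m : ℕ := Module.finrank ℝ W with hm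
  have hk : (0 : ℝ) < (m : ℝ) + 1 := by positivity
  obtain ⟨o, ho⟩ := Pool.Agent.Sausage27.exists_ball_proj hD W (mul_pos hρ0 hk) hw
  have hdiv : ρ * ((m : ℝ) + 1) / ((m : ℝ) + 1) = ρ := by
    field_simp
  rw [← hm, hdiv] at ho
  have hcont : Continuous fun z : E => (⟪u, z⟫_ℝ, ⟪v, z⟫_ℝ) := by fun_prop
  have hScomp : IsCompact (shadow D (u, v)) := hD.comp.image hcont
  -- the homothetic copy
  have main : ∀ η : ℝ, 1 / ρ < η → η < 1 →
      ((m : ℝ) - 1) * (1 - η) ^ 2 * sarea D (u, v) ≤ π * n := by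
    intro η h1 h2
    have hη0 : 0 < η := lt_trans (by positivity) h1
    have hηρ : 1 < η * ρ := by
      rwa [div_lt_iff₀ hρ0] at h1
    set o' : ℝ × ℝ := (⟪u, o⟫_ℝ, ⟪v, o⟫_ℝ) with ho'
    set T : Set (ℝ × ℝ) := AffineMap.homothety o' (1 - η) '' shadow D (u, v) with hT
    have hTcomp : IsCompact T := by
      refine hScomp.image ?_
      exact (AffineMap.homothety_continuous o' (1 - η))
    have hvol : volume T = ENNReal.ofReal ((1 - η) ^ 2) * volume (shadow D (u, v)) := by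
      rw [hT, Measure.addHaar_image_homothety]
      have : Module.finrank ℝ (ℝ × ℝ) = 2 := by simp
      rw [this, abs_of_nonneg (by positivity)]
    -- the slices
    have hcard : ∀ q ∈ T, m ≤ (Finset.univ.filter (fun j =>
        (⟪u, c j⟫_ℝ - q.1) ^ 2 + (⟪v, c j⟫_ℝ - q.2) ^ 2 ≤ 1)).card + 1 := by
      rintro q ⟨_, ⟨z, hz, rfl⟩, hq⟩
      have hq' : q = ((1 - η) * ⟪u, z⟫_ℝ + η * ⟪u, o⟫_ℝ, (1 - η) * ⟪v, z⟫_ℝ + η * ⟪v, o⟫_ℝ) := by
        rw [← hq, AffineMap.homothety_apply, ho']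
        ext
        · simp
          ring
        · simp
          ring
      have key : ∀ w ∈ W, ‖w‖ ≤ ρ → ⟪u, w⟫_ℝ = 0 → ⟪v, w⟫_ℝ = 0 → ∃ x ∈ D,
          ⟪u, x⟫_ℝ = q.1 ∧ ⟪v, x⟫_ℝ = q.2 ∧ ∀ v' ∈ W,
            ⟪v', x⟫_ℝ = (1 - η) * ⟪v', z⟫_ℝ + η * (⟪v', o⟫_ℝ + ⟪v', w⟫_ℝ) := by
        intro w hw1 hw2 hwu hwv
        obtain ⟨x, hx, hxv⟩ := ho w hw1 hw2
        have h3 : ∀ v' ∈ W, ⟪v', (1 - η) • z + η • x⟫_ℝ =
            (1 - η) * ⟪v', z⟫_ℝ + η * (⟪v', o⟫_ℝ + ⟪v', w⟫_ℝ) := by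
          intro v' hv'
          rw [inner_add_right, inner_smul_right, inner_smul_right, hxv v' hv', inner_add_right]
        refine ⟨(1 - η) • z + η • x, hD.conv hz hx (by linarith) hη0.le (by ring), ?_, ?_, h3⟩
        · rw [h3 u huW, hwu, add_zero, hq']
        · rw [h3 v hvW, hwv, add_zero, hq']
      refine slice_card2 hD hc hu hv huv W huW hvW q.1 q.2 ?_ ?_
      · obtain ⟨x, hx, hx1, hx2, -⟩ := key 0 W.zero_mem (by rw [norm_zero]; exact hρ0.le)
          (inner_zero_right _) (inner_zero_right _)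
        exact ⟨x, hx, hx1, hx2⟩
      · intro w hw1 hw2 hwu hwv
        obtain ⟨x, hx, hx1, hx2, hx3⟩ := key (ρ • w) (W.smul_mem _ hw1)
          (by rw [norm_smul, hw2, Real.norm_eq_abs, abs_of_pos hρ0, mul_one])
          (by rw [inner_smul_right, hwu, mul_zero]) (by rw [inner_smul_right, hwv, mul_zero])
        obtain ⟨y, hy, hy1, hy2, hy3⟩ := key ((-ρ) • w) (W.smul_mem _ hw1)
          (by rw [norm_smul, hw2, Real.norm_eq_abs, abs_neg, abs_of_pos hρ0, mul_one])
          (by rw [inner_smul_right, hwu, mul_zero]) (by rw [inner_smul_right, hwv, mul_zero])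
        refine ⟨x, hx, y, hy, hx1, hy1, hx2, hy2, ?_⟩
        rw [inner_sub_right, hx3 w hw1, hy3 w hw1, inner_smul_right, inner_smul_right,
          real_inner_self_eq_norm_sq, hw2]
        nlinarith
    -- integration
    set A : Fin n → Set (ℝ × ℝ) := fun j =>
      {q : ℝ × ℝ | (⟪u, c j⟫_ℝ - q.1) ^ 2 + (⟪v, c j⟫_ℝ - q.2) ^ 2 ≤ 1} with hA
    have hAm : ∀ j, MeasurableSet (A j) := fun j =>
      (isClosed_le (by fun_prop) (by fun_prop) :
        IsClosed {q : ℝ × ℝ | (⟪u, c j⟫_ℝ - q.1) ^ 2 + (⟪v, c j⟫_ℝ - q.2) ^ 2 ≤ 1}).measurableSet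
    have hint : ((m - 1 : ℕ) : ENNReal) * volume T ≤ ∑ j : Fin n, volume (A j) := by
      calc ((m - 1 : ℕ) : ENNReal) * volume T = ∫⁻ _ in T, ((m - 1 : ℕ) : ENNReal) := by
            rw [setLIntegral_const]
        _ ≤ ∫⁻ q in T, ∑ j : Fin n, (A j).indicator (fun _ => (1 : ENNReal)) q := by
            refine setLIntegral_mono' hTcomp.measurableSet fun q hq => ?_
            have h3 := hcard q hq
            have h4 : ∑ j : Fin n, (A j).indicator (fun _ => (1 : ENNReal)) q =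
                ((Finset.univ.filter (fun j => (⟪u, c j⟫_ℝ - q.1) ^ 2 +
                  (⟪v, c j⟫_ℝ - q.2) ^ 2 ≤ 1)).card : ENNReal) := by
              rw [Finset.card_filter]
              push_cast
              refine Finset.sum_congr rfl fun j _ => ?_
              by_cases hj : (⟪u, c j⟫_ℝ - q.1) ^ 2 + (⟪v, c j⟫_ℝ - q.2) ^ 2 ≤ 1
              · rw [indicator_of_mem (show q ∈ A j from hj), if_pos hj]
              · rw [indicator_of_notMem (show q ∉ A j from hj), if_neg hj]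
            rw [h4]
            exact_mod_cast (by omega : m - 1 ≤ _)
        _ ≤ ∫⁻ q, ∑ j : Fin n, (A j).indicator (fun _ => (1 : ENNReal)) q :=
            setLIntegral_le_lintegral _ _
        _ = ∑ j : Fin n, volume (A j) := by
            rw [lintegral_finsetSum _ fun j _ => measurable_const.indicator (hAm j)]
            refine Finset.sum_congr rfl fun j _ => ?_
            rw [lintegral_indicator (hAm j), setLIntegral_one]
    have hsum : ∑ j : Fin n, volume (A j) = ENNReal.ofReal (π * n) := by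
      rw [Finset.sum_congr rfl fun j _ => n3_disc ⟪u, c j⟫_ℝ ⟪v, c j⟫_ℝ, Finset.sum_const,
        Finset.card_univ, Fintype.card_fin, nsmul_eq_mul, mul_comm π, 
        ENNReal.ofReal_mul (by positivity), ENNReal.ofReal_natCast]
    rw [hsum, hvol] at hint
    have h5 := ENNReal.toReal_mono ENNReal.ofReal_ne_top hint
    rw [ENNReal.toReal_ofReal (by positivity), ENNReal.toReal_mul, ENNReal.toReal_mul,
      ENNReal.toReal_natCast, ENNReal.toReal_ofReal (by positivity)] at h5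
    have h6 : (m : ℝ) - 1 ≤ ((m - 1 : ℕ) : ℝ) := by
      rcases Nat.eq_zero_or_pos m with h | h
      · rw [h]
        norm_num
      · rw [Nat.cast_sub h]
        norm_num
    have h7 : 0 ≤ (1 - η) ^ 2 * sarea D (u, v) :=
      mul_nonneg (by positivity) ENNReal.toReal_nonneg
    calc ((m : ℝ) - 1) * (1 - η) ^ 2 * sarea D (u, v)
        = ((m : ℝ) - 1) * ((1 - η) ^ 2 * sarea D (u, v)) := by ring
      _ ≤ ((m - 1 : ℕ) : ℝ) * ((1 - η) ^ 2 * sarea D (u, v)) :=
          mul_le_mul_of_nonneg_right h6 h7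
      _ ≤ π * n := h5
  -- the limit
  have hlt : 1 / ρ < 1 := by
    rw [div_lt_one hρ0]
    exact hρ
  have hcont2 : Continuous fun η : ℝ => ((m : ℝ) - 1) * (1 - η) ^ 2 * sarea D (u, v) := by
    fun_prop
  have hlim : Tendsto (fun η : ℝ => ((m : ℝ) - 1) * (1 - η) ^ 2 * sarea D (u, v))
      (𝓝[>] (1 / ρ)) (𝓝 (((m : ℝ) - 1) * (1 - 1 / ρ) ^ 2 * sarea D (u, v))) :=
    (hcont2.tendsto (1 / ρ)).mono_left nhdsWithin_le_nhds
  refine le_of_tendsto hlim ?_
  filter_upwards [Ioo_mem_nhdsGT hlt] with η hη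
  exact main η hη.1 hη.2

end S0

end Pool.Agent.Saus2
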