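import Pool.Agent.Saus2.DefsC
import Pool.Agent.Saus2.N3

/-!
# Saus2, package N3w: area of a wide shadow, general pairs
-/

namespace Pool.Agent.Saus2

open MeasureTheory ProbabilityTheory Set Metric Filter Topology Real
open scoped InnerProductSpace
open Pool.Agent.Sausage27 (Eu Body skel hS betaV)

section S0

variable {E : Type*} [NormedAddCommGroup E] [InnerProductSpace ℝ E] [FiniteDimensional ℝ E]

private theorem N3w_unit (W : Submodule ℝ E) (hW : 0 < Module.finrank ℝ W) {x : E}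
    (hx : x ∈ W) : ∃ u ∈ W, ‖u‖ = 1 ∧ x = ‖x‖ • u := by
  by_cases h0 : x = 0
  · have hne : W ≠ ⊥ := by
      intro h
      rw [h, finrank_bot] at hW
      exact lt_irrefl _ hW
    obtain ⟨w, hw, hw0⟩ := W.exists_mem_ne_zero_of_ne_bot hne
    have hn : ‖w‖ ≠ 0 := norm_ne_zero_iff.2 hw0
    refine ⟨‖w‖⁻¹ • w, W.smul_mem _ hw, ?_, ?_⟩
    · rw [norm_smul, norm_inv, norm_norm, inv_mul_cancel₀ hn]
    · rw [h0, norm_zero, zero_smul]
  · have hn : ‖x‖ ≠ 0 := norm_ne_zero_iff.2 h0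
    refine ⟨‖x‖⁻¹ • x, W.smul_mem _ hx, ?_, ?_⟩
    · rw [norm_smul, norm_inv, norm_norm, inv_mul_cancel₀ hn]
    · rw [smul_smul, mul_inv_cancel₀ hn, one_smul]

private theorem N3w_pair (W : Submodule ℝ E) (hW : 2 ≤ Module.finrank ℝ W) {x y : E}
    (hx : x ∈ W) (hy : y ∈ W) : ∃ u ∈ W, ∃ v ∈ W, ‖u‖ = 1 ∧ ‖v‖ = 1 ∧ ⟪u, v⟫_ℝ = 0 ∧
      ∃ a c d : ℝ, x = a • u ∧ y = c • u + d • v := by
  obtain ⟨u, hu, hu1, hxu⟩ := N3w_unit W (by omega) hx
  have hu0 : u ≠ 0 := by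
    intro h
    rw [h, norm_zero] at hu1
    exact zero_ne_one hu1
  have hle : (ℝ ∙ u) ≤ W := (Submodule.span_singleton_le_iff_mem _ _).2 hu
  have hf := Submodule.finrank_add_inf_finrank_orthogonal hle
  rw [finrank_span_singleton hu0] at hf
  have hy' : y - ⟪u, y⟫_ℝ • u ∈ (ℝ ∙ u)ᗮ ⊓ W := by
    refine ⟨?_, W.sub_mem hy (W.smul_mem _ hu)⟩
    rw [SetLike.mem_coe, Submodule.mem_orthogonal_singleton_iff_inner_right, inner_sub_right,
      real_inner_smul_right, real_inner_self_eq_norm_sq, hu1]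
    ring
  obtain ⟨v, hv, hv1, hyv⟩ := N3w_unit ((ℝ ∙ u)ᗮ ⊓ W) (by omega) hy'
  refine ⟨u, hu, v, hv.2, hu1, hv1, ?_, ‖x‖, ⟪u, y⟫_ℝ, ‖y - ⟪u, y⟫_ℝ • u‖, hxu, ?_⟩
  · exact Submodule.mem_orthogonal_singleton_iff_inner_right.1 hv.1
  · rw [← hyv]
    abel

/-- N3'. Choose an orthonormal pair `u, v ∈ W` with `x, y` in its span (`finrank W ≥ 2`). The
shadow for `(x, y)` is the image of the shadow for `(u, v)` under a linear map of determinant
`±wedge (x, y)`; apply `wide_area`. -/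
theorem wide_area_wedge {n : ℕ} {D : Set E} (hD : Body D) {c : Fin n → E}
    (hc : skel 2 D ⊆ ⋃ j, closedBall (c j) 1) (W : Submodule ℝ E)
    (hW : 2 ≤ Module.finrank ℝ W) {ρ : ℝ} (hρ : 1 < ρ)
    (hw : ∀ w ∈ W, ‖w‖ = 1 → ρ * ((Module.finrank ℝ W : ℝ) + 1) ≤ hS D w + hS D (-w))
    {x y : E} (hx : x ∈ W) (hy : y ∈ W) :
    ((Module.finrank ℝ W : ℝ) - 1) * (1 - 1 / ρ) ^ 2 * sarea D (x, y) ≤
      π * n * wedge (x, y) := by
  obtain ⟨u, hu, v, hv, hu1, hv1, huv, a, b, d, hxa, hyb⟩ := N3w_pair W hW hx hy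
  have key := wide_area hD hc W hρ hw hu hv hu1 hv1 huv
  set f : ℝ × ℝ →ₗ[ℝ] ℝ × ℝ := Matrix.toLin (Module.Basis.finTwoProd ℝ)
    (Module.Basis.finTwoProd ℝ) !![a, 0; b, d] with hf
  have hdet : LinearMap.det f = a * d := by
    rw [hf, LinearMap.det_toLin, Matrix.det_fin_two_of]
    ring
  have hsh : shadow D (x, y) = f '' shadow D (u, v) := by
    unfold shadow
    rw [image_image]
    refine image_congr fun z _ => ?_
    rw [hf, Matrix.toLin_finTwoProd_apply, hxa, hyb]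
    simp only [inner_add_left, real_inner_smul_left]
    ring_nf
  have hvol : sarea D (x, y) = |a * d| * sarea D (u, v) := by
    unfold sarea
    rw [hsh, Measure.addHaar_image_linearMap, hdet, ENNReal.toReal_mul,
      ENNReal.toReal_ofReal (abs_nonneg _)]
  have hwd : wedge (x, y) = |a * d| := by
    unfold wedge
    rw [← Real.sqrt_sq_eq_abs]
    congr 1
    have h1 : ‖x‖ ^ 2 = a ^ 2 := by
      rw [hxa, norm_smul, hu1, mul_one, Real.norm_eq_abs, sq_abs]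
    have h2 : ‖y‖ ^ 2 = b ^ 2 + d ^ 2 := by
      rw [hyb, norm_add_sq_real, norm_smul, norm_smul, hu1, hv1, real_inner_smul_left,
        real_inner_smul_right, huv, Real.norm_eq_abs, Real.norm_eq_abs, mul_one, mul_one,
        sq_abs, sq_abs]
      ring
    have h3 : ⟪x, y⟫_ℝ = a * b := by
      rw [hxa, hyb, real_inner_smul_left, inner_add_right, real_inner_smul_right,
        real_inner_smul_right, huv, real_inner_self_eq_norm_sq, hu1]
      ring
    show ‖x‖ ^ 2 * ‖y‖ ^ 2 - ⟪x, y⟫_ℝ ^ 2 = (a * d) ^ 2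
    rw [h1, h2, h3]
    ring
  rw [hvol, hwd]
  calc ((Module.finrank ℝ W : ℝ) - 1) * (1 - 1 / ρ) ^ 2 * (|a * d| * sarea D (u, v))
      = |a * d| * (((Module.finrank ℝ W : ℝ) - 1) * (1 - 1 / ρ) ^ 2 * sarea D (u, v)) := by ring
    _ ≤ |a * d| * (π * n) := mul_le_mul_of_nonneg_left key (abs_nonneg _)
    _ = π * n * |a * d| := by ring

end S0

end Pool.Agent.Saus2
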