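import Pool.Agent.Saus2.DefsC
import Pool.Agent.Saus2.N3
import Pool.Agent.Saus2.P1

/-!
# Saus2, package N4: diameter of a wide body
-/

namespace Pool.Agent.Saus2

open MeasureTheory ProbabilityTheory Set Metric Filter Topology Real
open scoped InnerProductSpace
open Pool.Agent.Sausage27 (Eu Body skel hS betaV)

section S0

variable {E : Type*} [NormedAddCommGroup E] [InnerProductSpace ℝ E] [FiniteDimensional ℝ E]

private theorem exists_perp_N4 {W : Submodule ℝ E} (hW : 2 ≤ Module.finrank ℝ W) {u : E}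
    (hu : u ∈ W) : ∃ v ∈ W, ‖v‖ = 1 ∧ ⟪v, u⟫_ℝ = 0 := by
  have h1 := Submodule.finrank_add_finrank_orthogonal (Submodule.span ℝ {(⟨u, hu⟩ : W)})
  have h2 : Module.finrank ℝ (Submodule.span ℝ {(⟨u, hu⟩ : W)}) ≤ 1 :=
    (finrank_span_le_card ({(⟨u, hu⟩ : W)} : Set W)).trans (by simp)
  have h3 : (Submodule.span ℝ {(⟨u, hu⟩ : W)})ᗮ ≠ ⊥ := by
    intro h
    rw [h, finrank_bot] at h1
    omega
  obtain ⟨v', hv', hne⟩ := Submodule.exists_mem_ne_zero_of_ne_bot h3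
  have h4' : ⟪v', (⟨u, hu⟩ : W)⟫_ℝ = 0 := Submodule.mem_orthogonal_singleton_iff_inner_left.1 hv'
  have h4 : ⟪(v' : E), u⟫_ℝ = 0 := h4'
  have h5 : ‖(v' : E)‖ ≠ 0 := by
    rw [norm_ne_zero_iff]
    exact fun h => hne (Subtype.ext h)
  refine ⟨‖(v' : E)‖⁻¹ • (v' : E), W.smul_mem _ v'.2, ?_, ?_⟩
  · rw [norm_smul, norm_inv, norm_norm, inv_mul_cancel₀ h5]
  · rw [inner_smul_left, h4, mul_zero]

/-- two points of the body at distance at least `H` in the direction `w` -/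
private theorem exists_width_N4 {D : Set E} (hD : Body D) {H : ℝ} {w : E}
    (hw : H ≤ hS D w + hS D (-w)) : ∃ p ∈ D, ∃ q ∈ D, H ≤ ⟪w, p - q⟫_ℝ := by
  obtain ⟨p, hp, hp'⟩ := hD.exists_eq w
  obtain ⟨q, hq, hq'⟩ := hD.exists_eq (-w)
  refine ⟨p, hp, q, hq, ?_⟩
  rw [hp', hq', inner_neg_right] at hw
  rw [inner_sub_right, real_inner_comm, real_inner_comm q w]
  linarith

/-- the area of the shadow is at least a quarter of the parallelogram with a side in it -/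
private theorem shadow_area_N4 {D : Set E} (hD : Body D) {u v x y z : E} (hx : x ∈ D)
    (hy : y ∈ D) (hz : z ∈ D) (hv : ⟪v, y - x⟫_ℝ = 0) :
    1 / 4 * (|⟪u, y - x⟫_ℝ| * |⟪v, z - x⟫_ℝ|) ≤ sarea D (u, v) := by
  have hsub : (fun q : ℝ × ℝ => ((⟪u, x⟫_ℝ, ⟪v, x⟫_ℝ) : ℝ × ℝ) +
      q.1 • ((⟪u, y - x⟫_ℝ / 2, ⟪v, y - x⟫_ℝ / 2) : ℝ × ℝ) +
      q.2 • ((⟪u, z - x⟫_ℝ / 2, ⟪v, z - x⟫_ℝ / 2) : ℝ × ℝ)) '' (Icc 0 1 ×ˢ Icc 0 1) ⊆
      shadow D (u, v) := by
    rintro _ ⟨⟨s, t⟩, ⟨⟨hs0, hs1⟩, ht0, ht1⟩, rfl⟩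
    have hs0' : (0 : ℝ) ≤ s := hs0
    have hs1' : s ≤ (1 : ℝ) := hs1
    have ht0' : (0 : ℝ) ≤ t := ht0
    have ht1' : t ≤ (1 : ℝ) := ht1
    refine ⟨(1 - s / 2 - t / 2) • x + (s / 2) • y + (t / 2) • z, ?_, ?_⟩
    · have h1 : (1 - s / 2 - t / 2) • x + (s / 2) • y + (t / 2) • z =
          (1 - t / 2) • ((1 - s / (2 - t)) • x + (s / (2 - t)) • y) + (t / 2) • z := by
        have h2 : (1 - t / 2) * (s / (2 - t)) = s / 2 := by
          field_simp [show (2 - t : ℝ) ≠ 0 by linarith]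
        rw [smul_add, smul_smul, smul_smul, h2]
        congr 3
        rw [mul_sub, h2]
        ring
      rw [h1]
      refine hD.conv (hD.conv hx hy ?_ ?_ ?_) hz ?_ ?_ ?_
      · rw [sub_nonneg, div_le_one (by linarith)]
        linarith
      · exact div_nonneg hs0' (by linarith)
      · ring
      · linarith
      · linarith
      · ring
    · simp only [inner_add_right, inner_smul_right, inner_sub_right, Prod.mk_add_mk,
        Prod.smul_mk, smul_eq_mul, Prod.mk.injEq]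
      constructor <;> ring
  have hcomp : IsCompact (shadow D (u, v)) :=
    hD.comp.image (by fun_prop)
  have h1 := measure_mono (μ := (volume : Measure (ℝ × ℝ))) hsub
  rw [par_area, hv] at h1
  have h2 : ENNReal.ofReal (1 / 4 * (|⟪u, y - x⟫_ℝ| * |⟪v, z - x⟫_ℝ|)) ≤
      volume (shadow D (u, v)) := by
    refine le_trans (le_of_eq ?_) h1
    congr 1
    rw [zero_div, zero_mul, sub_zero, abs_mul, abs_div, abs_div,
      abs_of_pos (show (0 : ℝ) < 2 by norm_num)]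
    ring
  exact (ENNReal.ofReal_le_iff_le_toReal hcomp.measure_lt_top.ne).1 h2

/-- N4. Let `x, y ∈ D` be at maximal distance `δ`. Then `δ ≥ H ≥ 2Δ`, and the projection of
`x - y` to `W` has norm at least `δ - Δ ≥ δ/2`; let `u` be its direction, `v ∈ W` a unit vector
orthogonal to `u`. In the shadow for `(u, v)` the points of `x, y` are on a line `v = const` at
distance `≥ δ/2`, and some point has distance `≥ H/2` from this line. So the shadow contains a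
parallelogram of area `≥ (δ/2)(H/2)/4` (`par_area`; sides half of two sides of the triangle).
`wide_area` with `ρ ≥ 2` gives `π n ≥ δ H / 64`. -/
theorem diam_count {n : ℕ} {D : Set E} (hD : Body D) {c : Fin n → E}
    (hc : skel 2 D ⊆ ⋃ j, closedBall (c j) 1) (W : Submodule ℝ E)
    (hW : 2 ≤ Module.finrank ℝ W) {H Δ : ℝ} (hΔ0 : 0 ≤ Δ) (hΔH : 2 * Δ ≤ H)
    (hH : 2 * ((Module.finrank ℝ W : ℝ) + 1) ≤ H)
    (hw : ∀ w ∈ W, ‖w‖ = 1 → H ≤ hS D w + hS D (-w))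
    (hΔ : ∀ x ∈ D, ∀ y ∈ D, ∀ v ∈ Wᗮ, ‖v‖ ≤ 1 → ⟪v, x - y⟫_ℝ ≤ Δ) :
    ∀ x ∈ D, ∀ y ∈ D, ‖x - y‖ * H ≤ 64 * π * n := by
  have hj : (2 : ℝ) ≤ (Module.finrank ℝ W : ℝ) := by exact_mod_cast hW
  have hH0 : 0 < H := by linarith
  -- a pair at maximal distance
  obtain ⟨⟨x, y⟩, hxy, hmax⟩ := (hD.comp.prod hD.comp).exists_isMaxOn (hD.ne.prod hD.ne)
    (f := fun p : E × E => ‖p.1 - p.2‖) (by fun_prop)
  have hx : x ∈ D := hxy.1
  have hy : y ∈ D := hxy.2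
  have hmax' : ∀ p ∈ D, ∀ q ∈ D, ‖p - q‖ ≤ ‖x - y‖ := fun p hp q hq =>
    hmax (show ((p, q) : E × E) ∈ D ×ˢ D from ⟨hp, hq⟩)
  suffices hmain : ‖x - y‖ * H ≤ 64 * π * n from fun p hp q hq =>
    (mul_le_mul_of_nonneg_right (hmax' p hp q hq) hH0.le).trans hmain
  -- the distance is at least `H`
  have hδ : H ≤ ‖x - y‖ := by
    obtain ⟨w, hwW, hw1, -⟩ := exists_perp_N4 hW W.zero_mem
    obtain ⟨p, hp, q, hq, hpq⟩ := exists_width_N4 hD (hw w hwW hw1)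
    refine (hpq.trans (real_inner_le_norm _ _)).trans ?_
    rw [hw1, one_mul]
    exact hmax' p hp q hq
  -- the projection to `W`
  obtain ⟨a, haW, b, hb, hab⟩ : ∃ a ∈ W, ∃ b ∈ Wᗮ, x - y = a + b :=
    ⟨W.starProjection (x - y), W.starProjection_apply_mem _, x - y - W.starProjection (x - y),
      W.sub_starProjection_mem_orthogonal (x - y), (add_sub_cancel _ _).symm⟩
  have hbΔ : ‖b‖ ≤ Δ := by
    rcases eq_or_ne b 0 with h | h
    · rw [h, norm_zero]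
      exact hΔ0
    · have h1 : ‖b‖ ≠ 0 := norm_ne_zero_iff.2 h
      have h2 := hΔ x hx y hy (‖b‖⁻¹ • b) (Submodule.smul_mem _ _ hb) (by
        rw [norm_smul, norm_inv, norm_norm, inv_mul_cancel₀ h1])
      rw [hab, inner_smul_left, inner_add_right,
        Submodule.inner_left_of_mem_orthogonal haW hb, zero_add,
        real_inner_self_eq_norm_sq] at h2
      simp only [conj_trivial] at h2
      have h3 : ‖b‖⁻¹ * ‖b‖ ^ 2 = ‖b‖ := by field_simp
      rwa [h3] at h2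
  have ha1 : ‖x - y‖ / 2 ≤ ‖a‖ := by
    have h1 : ‖x - y‖ ≤ ‖a‖ + ‖b‖ := by
      rw [hab]
      exact norm_add_le _ _
    linarith
  have ha0 : 0 < ‖a‖ := lt_of_lt_of_le (by linarith) ha1
  obtain ⟨v, hvW, hv1, hva⟩ := exists_perp_N4 hW haW
  have hu1 : ‖‖a‖⁻¹ • a‖ = 1 := by
    rw [norm_smul, norm_inv, norm_norm, inv_mul_cancel₀ ha0.ne']
  have hua : ⟪‖a‖⁻¹ • a, x - y⟫_ℝ = ‖a‖ := by
    rw [hab, inner_smul_left, inner_add_right, Submodule.inner_right_of_mem_orthogonal haW hb,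
      add_zero, real_inner_self_eq_norm_sq]
    simp only [conj_trivial]
    field_simp
  have hvxy : ⟪v, x - y⟫_ℝ = 0 := by
    rw [hab, inner_add_right, hva, Submodule.inner_right_of_mem_orthogonal hvW hb, add_zero]
  have huv : ⟪‖a‖⁻¹ • a, v⟫_ℝ = 0 := by
    rw [inner_smul_left, real_inner_comm, hva, mul_zero]
  -- a point far from the line
  obtain ⟨z, hz, hzv⟩ : ∃ z ∈ D, H / 2 ≤ |⟪v, z - y⟫_ℝ| := by
    obtain ⟨p, hp, q, hq, hpq⟩ := exists_width_N4 hD (hw v hvW hv1)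
    by_contra hcon
    push Not at hcon
    have h1 := hcon p hp
    have h2 := hcon q hq
    have h3 : ⟪v, p - q⟫_ℝ = ⟪v, p - y⟫_ℝ - ⟪v, q - y⟫_ℝ := by
      rw [← inner_sub_right]
      congr 1
      abel
    rw [h3] at hpq
    have h4 := le_abs_self ⟪v, p - y⟫_ℝ
    have h5 := neg_abs_le ⟪v, q - y⟫_ℝ
    linarith
  -- the area
  have hA := shadow_area_N4 hD (u := ‖a‖⁻¹ • a) (v := v) hy hx hz hvxy
  have hρ1 : 2 ≤ H / ((Module.finrank ℝ W : ℝ) + 1) := by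
    rw [le_div_iff₀ (by linarith)]
    exact hH
  have hB := wide_area hD hc W (ρ := H / ((Module.finrank ℝ W : ℝ) + 1)) (by linarith)
    (fun w hwW hw1 => by
      rw [div_mul_cancel₀ _ (by linarith)]
      exact hw w hwW hw1) (W.smul_mem _ haW) hvW hu1 hv1 huv
  rw [hua, abs_of_pos ha0] at hA
  have hs0 : 0 ≤ sarea D (‖a‖⁻¹ • a, v) := ENNReal.toReal_nonneg
  have h1 : 1 / 4 ≤ ((Module.finrank ℝ W : ℝ) - 1) *
      (1 - 1 / (H / ((Module.finrank ℝ W : ℝ) + 1))) ^ 2 := by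
    have h2 : 1 / (H / ((Module.finrank ℝ W : ℝ) + 1)) ≤ 1 / 2 :=
      one_div_le_one_div_of_le (by norm_num) hρ1
    have h3 : (1 / 2 : ℝ) ≤ 1 - 1 / (H / ((Module.finrank ℝ W : ℝ) + 1)) := by linarith
    nlinarith
  have h2 : 1 / 4 * sarea D (‖a‖⁻¹ • a, v) ≤ π * n :=
    (mul_le_mul_of_nonneg_right h1 hs0).trans hB
  have h3 : ‖x - y‖ / 2 * (H / 2) ≤ ‖a‖ * |⟪v, z - y⟫_ℝ| :=
    mul_le_mul ha1 hzv (by linarith) ha0.le
  nlinarith

end S0

end Pool.Agent.Saus2
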