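import Pool.Agent.Saus2.DefsC
import Pool.Agent.Saus2.N1
import Pool.Agent.Saus2.N3w
import Pool.Agent.Saus2.N4
import Pool.Agent.Saus2.G5
import Pool.Agent.Saus2.CB
import Pool.Agent.Saus2.GI
import Pool.Agent.Saus2.S1

/-!
# Saus2, package N5: wide bodies
-/

namespace Pool.Agent.Saus2

open MeasureTheory ProbabilityTheory Set Metric Filter Topology Real
open scoped InnerProductSpace
open Pool.Agent.Sausage27 (Eu Body skel hS betaV)

private theorem N5_const (d : ℕ) {ε : ℝ} (hε : 0 < ε) :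
    ∃ Λ : ℝ, 2 * ((d : ℝ) + 1) ≤ Λ ∧ 2 ≤ Λ ∧
      π / (1 - (d + 1) / Λ) ^ 2 + 192 * π * d / Λ ≤ π + ε := by
  have h1 : Tendsto (fun Λ : ℝ => π / (1 - (d + 1) / Λ) ^ 2 + 192 * π * d / Λ) atTop
      (𝓝 (π / (1 - 0) ^ 2 + 0)) := by
    refine Tendsto.add (Tendsto.div tendsto_const_nhds ?_ (by norm_num)) ?_
    · exact (tendsto_const_nhds.sub (tendsto_const_nhds.div_atTop tendsto_id)).pow 2
    · exact tendsto_const_nhds.div_atTop tendsto_id
  have h2 : π / (1 - 0) ^ 2 + 0 < π + ε := by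
    norm_num
    exact hε
  have h3 := h1.eventually (gt_mem_nhds h2)
  obtain ⟨Λ, h4, h5, h6⟩ := (h3.and ((eventually_ge_atTop (2 * ((d : ℝ) + 1))).and
    (eventually_ge_atTop (2 : ℝ)))).exists
  exact ⟨Λ, h5, h6, h4.le⟩

private theorem N5_wedge_int {d : ℕ} (W : Submodule ℝ (Eu d)) :
    Integrable (fun p : Eu d × Eu d => wedge (W.starProjection p.1, W.starProjection p.2))
      ((stdGaussian (Eu d)).prod (stdGaussian (Eu d))) := by
  have hc : Continuous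
      (fun p : Eu d × Eu d => wedge (W.starProjection p.1, W.starProjection p.2)) := by
    unfold wedge
    have h1 : Continuous fun p : Eu d × Eu d => W.starProjection p.1 :=
      W.starProjection.continuous.comp continuous_fst
    have h2 : Continuous fun p : Eu d × Eu d => W.starProjection p.2 :=
      W.starProjection.continuous.comp continuous_snd
    exact Real.continuous_sqrt.comp
      (((h1.norm.pow 2).mul (h2.norm.pow 2)).sub ((h1.inner h2).pow 2))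
  refine Integrable.mono' integrable_norm_mul hc.aestronglyMeasurable ?_
  refine Filter.Eventually.of_forall fun p => ?_
  rw [Real.norm_of_nonneg (show (0 : ℝ) ≤ wedge _ from Real.sqrt_nonneg _)]
  have h3 : wedge (W.starProjection p.1, W.starProjection p.2) ≤
      ‖W.starProjection p.1‖ * ‖W.starProjection p.2‖ := by
    unfold wedge
    rw [show ‖W.starProjection p.1‖ * ‖W.starProjection p.2‖ =
      √((‖W.starProjection p.1‖ * ‖W.starProjection p.2‖) ^ 2) by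
        rw [Real.sqrt_sq (by positivity)]]
    apply Real.sqrt_le_sqrt
    nlinarith [sq_nonneg (⟪W.starProjection p.1, W.starProjection p.2⟫_ℝ)]
  exact h3.trans (mul_le_mul (W.norm_starProjection_apply_le p.1)
    (W.norm_starProjection_apply_le p.2) (norm_nonneg _) (norm_nonneg _))

/-- N5. `ρ = Λ Δ / (d + 1)`, `δ` the diameter. `sarea_proj`, `wide_area_wedge`,
`wedge_mean_proj` give `V2 D ≤ π n / (1 - 1/ρ)² + 3 Δ δ d`, and `Δ δ = H δ / Λ ≤ 64 π n / Λ` by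
`diam_count` with `H = Λ Δ`. -/
theorem wide_bound_pi {d : ℕ} (hd : 3 ≤ d) {ε : ℝ} (hε : 0 < ε) :
    ∃ Λ : ℝ, 1 ≤ Λ ∧ ∀ (n : ℕ) (D : Set (Eu d)) (c : Fin n → Eu d) (W : Submodule ℝ (Eu d))
      (Δ : ℝ), Body D → skel 2 D ⊆ ⋃ j, closedBall (c j) 1 → 2 ≤ Module.finrank ℝ W → 1 ≤ Δ →
      (∀ w ∈ W, ‖w‖ = 1 → Λ * Δ ≤ hS D w + hS D (-w)) →
      (∀ x ∈ D, ∀ y ∈ D, ∀ v ∈ Wᗮ, ‖v‖ ≤ 1 → ⟪v, x - y⟫_ℝ ≤ Δ) → V2 D ≤ (π + ε) * n := by
  obtain ⟨Λ, hΛ1, hΛ2, hΛ3⟩ := N5_const d hε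
  refine ⟨Λ, by linarith, fun n D c W Δ hD hc hW hΔ1 hw hΔ => ?_⟩
  have hd3 : (3 : ℝ) ≤ d := by exact_mod_cast hd
  have hΛ0 : 0 < Λ := by linarith
  have hH0 : 0 < Λ * Δ := by positivity
  have hjd : (Module.finrank ℝ W : ℝ) ≤ d := by
    have h1 := Submodule.finrank_le W
    rw [finrank_euclideanSpace_fin] at h1
    exact_mod_cast h1
  have hj2 : (2 : ℝ) ≤ Module.finrank ℝ W := by exact_mod_cast hW
  have hΔ0 : 0 ≤ Δ := by linarith
  have hΛΔ : Λ ≤ Λ * Δ := le_mul_of_one_le_right hΛ0.le hΔ1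
  have hdiam := diam_count hD hc W hW (H := Λ * Δ) hΔ0
    (mul_le_mul_of_nonneg_right hΛ2 hΔ0) (by linarith) hw hΔ
  -- the bound for the diameter
  obtain ⟨δ, hδe⟩ : ∃ δ, δ = 64 * π * n / (Λ * Δ) := ⟨_, rfl⟩
  have hδ : ∀ x ∈ D, ∀ y ∈ D, ‖x - y‖ ≤ δ := by
    intro x hx y hy
    rw [hδe, le_div_iff₀ hH0]
    exact hdiam x hx y hy
  have hδΔ : Δ * δ = 64 * π * n / Λ := by
    rw [hδe]
    field_simp
  -- the diameter is at least `Δ`
  have hΔδ : Δ ≤ δ := by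
    have hWne : W ≠ ⊥ := by
      rintro rfl
      rw [finrank_bot] at hW
      omega
    obtain ⟨w0, hw0, hw0n⟩ := W.exists_mem_ne_zero_of_ne_bot hWne
    have hn0 : ‖w0‖ ≠ 0 := norm_ne_zero_iff.2 hw0n
    have hw1 : ‖(‖w0‖⁻¹ • w0 : Eu d)‖ = 1 := by
      rw [norm_smul, norm_inv, norm_norm, inv_mul_cancel₀ hn0]
    have h1 := hw _ (W.smul_mem _ hw0) hw1
    obtain ⟨x, hx, hxe⟩ := hD.exists_eq (‖w0‖⁻¹ • w0)
    obtain ⟨y, hy, hye⟩ := hD.exists_eq (-(‖w0‖⁻¹ • w0))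
    rw [hxe, hye, inner_neg_right] at h1
    have h2 : ⟪x - y, ‖w0‖⁻¹ • w0⟫_ℝ ≤ ‖x - y‖ := by
      have h3 := real_inner_le_norm (x - y) (‖w0‖⁻¹ • w0)
      rwa [hw1, mul_one] at h3
    rw [inner_sub_left] at h2
    have h3 := hδ x hx y hy
    have h4 : Δ ≤ Λ * Δ := le_mul_of_one_le_left hΔ0 (by linarith)
    linarith
  -- the factor `ρ`
  obtain ⟨ρ, hρe⟩ : ∃ ρ, ρ = Λ * Δ / (d + 1) := ⟨_, rfl⟩
  have hd1 : (0 : ℝ) < d + 1 := by positivity
  have hρΛ : Λ / (d + 1) ≤ ρ := by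
    rw [hρe]
    exact div_le_div_of_nonneg_right hΛΔ hd1.le
  have hρ2 : 2 ≤ Λ / (d + 1) := by
    rw [le_div_iff₀ hd1]
    exact hΛ1
  have hρ1 : 1 < ρ := by linarith
  have hwide := fun (x y : Eu d) (hx : x ∈ W) (hy : y ∈ W) =>
    wide_area_wedge hD hc W hW hρ1 (fun w h1 h2 => (show
      ρ * ((Module.finrank ℝ W : ℝ) + 1) ≤ hS D w + hS D (-w) from by
        refine le_trans ?_ (hw w h1 h2)
        calc ρ * ((Module.finrank ℝ W : ℝ) + 1) ≤ ρ * ((d : ℝ) + 1) :=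
              mul_le_mul_of_nonneg_left (by linarith) (by linarith)
          _ = Λ * Δ := by rw [hρe]; field_simp)) hx hy
  have hq0 : 0 < 1 - 1 / ρ := by
    have : 1 / ρ < 1 := by
      rw [div_lt_one (by linarith)]
      exact hρ1
    linarith
  have hq1 : 0 < 1 - (d + 1) / Λ := by
    have : (d + 1 : ℝ) / Λ ≤ 1 / 2 := by
      rw [div_le_iff₀ hΛ0]
      linarith
    linarith
  have hqq : 1 - (d + 1) / Λ ≤ 1 - 1 / ρ := by
    have h1 : 1 / ρ ≤ (d + 1) / Λ := by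
      have h2 := one_div_le_one_div_of_le (by positivity) hρΛ
      rwa [one_div_div] at h2
    linarith
  have hj1 : 0 < (Module.finrank ℝ W : ℝ) - 1 := by linarith
  -- the pointwise bound
  have hpt : ∀ p : Eu d × Eu d, sarea D p ≤
      π * n / (((Module.finrank ℝ W : ℝ) - 1) * (1 - 1 / ρ) ^ 2) *
        wedge (W.starProjection p.1, W.starProjection p.2) +
      (2 * Δ * δ + Δ ^ 2) * (‖p.1‖ * ‖p.2‖) := by
    intro p
    refine (sarea_proj hD W hΔ0 hΔ hδ p).trans (add_le_add ?_ le_rfl)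
    have h1 := hwide _ _ (W.starProjection_apply_mem p.1) (W.starProjection_apply_mem p.2)
    rw [div_mul_eq_mul_div, le_div_iff₀ (by positivity)]
    linarith
  have hint := ((N5_wedge_int W).const_mul
    (π * n / (((Module.finrank ℝ W : ℝ) - 1) * (1 - 1 / ρ) ^ 2))).add
    ((integrable_norm_mul (E := Eu d)).const_mul (2 * Δ * δ + Δ ^ 2))
  have hV : V2 D ≤ π * n / (1 - 1 / ρ) ^ 2 + (2 * Δ * δ + Δ ^ 2) * d := by
    have h1 : V2 D ≤ ∫ p : Eu d × Eu d,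
        (π * n / (((Module.finrank ℝ W : ℝ) - 1) * (1 - 1 / ρ) ^ 2) *
          wedge (W.starProjection p.1, W.starProjection p.2) +
        (2 * Δ * δ + Δ ^ 2) * (‖p.1‖ * ‖p.2‖))
        ∂((stdGaussian (Eu d)).prod (stdGaussian (Eu d))) :=
      integral_mono_of_nonneg (Filter.Eventually.of_forall fun p => sarea_nonneg D p) hint
        (Filter.Eventually.of_forall hpt)
    rw [integral_add ((N5_wedge_int W).const_mul _) (integrable_norm_mul.const_mul _),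
      integral_const_mul, integral_const_mul, wedge_mean_proj W hW] at h1
    refine h1.trans (add_le_add (le_of_eq ?_) ?_)
    · field_simp
    · have h2 := norm_mul_mean (E := Eu d)
      rw [finrank_euclideanSpace_fin] at h2
      have hδ0 : 0 ≤ δ := hΔ0.trans hΔδ
      exact mul_le_mul_of_nonneg_left h2 (by positivity)
  have hn0 : (0 : ℝ) ≤ n := Nat.cast_nonneg n
  have hA : π * n / (1 - 1 / ρ) ^ 2 ≤ π / (1 - (d + 1) / Λ) ^ 2 * n := by
    rw [div_mul_eq_mul_div]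
    refine div_le_div_of_nonneg_left (by positivity) (by positivity) ?_
    exact pow_le_pow_left₀ hq1.le hqq 2
  have hB : (2 * Δ * δ + Δ ^ 2) * d ≤ 192 * π * d / Λ * n := by
    have h1 : 2 * Δ * δ + Δ ^ 2 ≤ 3 * (Δ * δ) := by nlinarith
    calc (2 * Δ * δ + Δ ^ 2) * d ≤ 3 * (Δ * δ) * d :=
          mul_le_mul_of_nonneg_right h1 (by linarith)
      _ = 192 * π * d / Λ * n := by rw [hδΔ]; ring
  have hfin : V2 D ≤ (π / (1 - (d + 1) / Λ) ^ 2 + 192 * π * d / Λ) * n := by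
    rw [add_mul]
    linarith
  exact hfin.trans (mul_le_mul_of_nonneg_right hΛ3 hn0)

/-- N5, with the constant `betaV d ≥ π`. -/
theorem wide_bound {d : ℕ} (hd : 3 ≤ d) {ε : ℝ} (hε : 0 < ε) :
    ∃ Λ : ℝ, 1 ≤ Λ ∧ ∀ (n : ℕ) (D : Set (Eu d)) (c : Fin n → Eu d) (W : Submodule ℝ (Eu d))
      (Δ : ℝ), Body D → skel 2 D ⊆ ⋃ j, closedBall (c j) 1 → 2 ≤ Module.finrank ℝ W → 1 ≤ Δ →
      (∀ w ∈ W, ‖w‖ = 1 → Λ * Δ ≤ hS D w + hS D (-w)) →
      (∀ x ∈ D, ∀ y ∈ D, ∀ v ∈ Wᗮ, ‖v‖ ≤ 1 → ⟪v, x - y⟫_ℝ ≤ Δ) → V2 D ≤ (betaV d + ε) * n := by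
  obtain ⟨Λ, hΛ, h⟩ := wide_bound_pi hd hε
  refine ⟨Λ, hΛ, fun n D c W Δ hD hc hW hΔ1 hw hΔ => ?_⟩
  refine (h n D c W Δ hD hc hW hΔ1 hw hΔ).trans
    (mul_le_mul_of_nonneg_right ?_ (Nat.cast_nonneg n))
  have := pi_le_betaV hd
  linarith

end Pool.Agent.Saus2
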