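import Pool.Agent.Saus2.ATriAll
import Pool.Agent.Saus2.ANormal
import Pool.Agent.Saus2.ACrude

/-!
# Part (A): the planar inequality

If the frontier of a planar convex body `C` is covered by `N` unit discs with weighted
multiplicity `M` (a disc with centre `z` counts `2 √(1 - |x - z|²)` at `x`), then
`M κ(C) ≤ N`, where `κ(C)` is half the mean width of `C` (its perimeter divided by `2π`).
-/

set_option autoImplicit false

namespace Pool.Agent.Saus2

open MeasureTheory ProbabilityTheory Set Metric Filter Topology Real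

theorem planar {C : Set ℂ} (hC : IsCompact C) (hconv : Convex ℝ C) (hne : C.Nonempty) {N : ℕ}
    (z : Fin N → ℂ) {M : ℝ} (hM : 0 < M)
    (hcov : ∀ x ∈ frontier C, M ≤ ∑ j, 2 * √(1 - ‖x - z j‖ ^ 2)) : M * kap C ≤ N := by
  obtain ⟨P, hP, Q, hQ, hd⟩ := exists_diam hC hne
  rcases le_or_gt (‖P - Q‖) 6 with h6 | h6
  · exact planar_small hC hconv hne (fun a ha b hb => (hd a ha b hb).trans h6)
      (fun w x h h1 h2 h3 h4 h5 => tri_adm h1 h2 h3 h4 h5) z hM hcov
  · obtain ⟨K, hKC, hK, hKc, hKne, hA⟩ := crude hC hconv hP hQ h6.le hd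
    exact hA.covers hK hKc hKne hC hKC z hM hcov

end Pool.Agent.Saus2
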