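import Pool.Agent.Saus2.DefsC

/-!
# Saus2, package S2: sections
-/

namespace Pool.Agent.Saus2

open MeasureTheory ProbabilityTheory Set Metric Filter Topology Real
open scoped InnerProductSpace Pointwise
open Pool.Agent.Sausage27 (Eu Body skel hS betaV)

section S0

variable {E : Type*} [NormedAddCommGroup E] [InnerProductSpace ℝ E]

/-- The section is a body. -/
theorem sec_body {D : Set E} (hD : Body D) {e : E} (he : ‖e‖ = 1) {s M : ℝ} (hse : s • e ∈ D) :
    Body (sec D e s M) := by
  have hconv : Convex ℝ (D ∩ {z | ⟪e, z⟫_ℝ = s}) := by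
    refine hD.conv.inter ?_
    exact convex_hyperplane (f := fun z : E => ⟪e, z⟫_ℝ)
      ⟨fun x y => inner_add_right e x y, fun c x => by
        simp [inner_smul_right]⟩ s
  have hcl : IsClosed {z : E | ⟪e, z⟫_ℝ = s} :=
    isClosed_eq (continuous_const.inner continuous_id) continuous_const
  have hcomp : IsCompact (D ∩ {z | ⟪e, z⟫_ℝ = s}) := hD.comp.inter_right hcl
  have hne : (D ∩ {z | ⟪e, z⟫_ℝ = s}).Nonempty := by
    refine ⟨s • e, hse, ?_⟩
    simp [inner_smul_right, he]
  refine ⟨?_, ?_, ?_⟩
  · unfold sec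
    have h1 : (fun z : E => (1 + M / s) • (z - s • e)) =
        (fun z : E => (1 + M / s) • z) ∘ (fun z : E => z - s • e) := rfl
    rw [h1, image_comp]
    have h2 : Convex ℝ ((fun z : E => z - s • e) '' (D ∩ {z | ⟪e, z⟫_ℝ = s})) := by
      have h3 : (fun z : E => z - s • e) = (fun z : E => -(s • e) + z) := by
        funext z
        abel
      rw [h3]
      exact hconv.translate _
    exact h2.smul (1 + M / s)
  · unfold sec
    exact hcomp.image (by fun_prop)
  · unfold sec
    exact hne.image _

/-- Complex coordinates of the enlarged section (`J` orthogonal to `e`). -/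
theorem proj2_sec {D : Set E} {e : E} {J : ℂ →ₗᵢ[ℝ] E} (hJ : ∀ z, ⟪e, J z⟫_ℝ = 0) (s M : ℝ) :
    proj2 J '' sec D e s M = (fun z : ℂ => ((1 + M / s : ℝ) : ℂ) * z) '' slc D e J s := by
  unfold sec slc
  rw [image_image, image_image]
  refine image_congr fun z _ => ?_
  have h1 : ⟪J 1, e⟫_ℝ = 0 := by rw [real_inner_comm]; exact hJ 1
  have h2 : ⟪J Complex.I, e⟫_ℝ = 0 := by rw [real_inner_comm]; exact hJ Complex.I
  unfold proj2
  rw [inner_smul_right, inner_smul_right, inner_sub_right, inner_sub_right, inner_smul_right,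
    inner_smul_right, h1, h2]
  push_cast
  ring

/-- `kap` is homogeneous. -/
theorem kap_smul {C : Set ℂ} (hC : IsCompact C) (hne : C.Nonempty) {a : ℝ} (ha : 0 ≤ a) :
    kap ((fun z : ℂ => (a : ℂ) * z) '' C) = a * kap C := by
  have h1 : ∀ θ : ℝ, hs ((fun z : ℂ => (a : ℂ) * z) '' C) θ = a * hs C θ := by
    intro θ
    unfold hs
    rw [image_image]
    have h2 : (fun z : ℂ => ((a : ℂ) * z * Complex.exp (-(θ * Complex.I))).re) '' C =
        a • ((fun z : ℂ => (z * Complex.exp (-(θ * Complex.I))).re) '' C) := by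
      rw [← image_smul, image_image]
      refine image_congr fun z _ => ?_
      rw [mul_assoc, Complex.re_ofReal_mul, smul_eq_mul]
    rw [h2, Real.sSup_smul_of_nonneg ha, smul_eq_mul]
  unfold kap
  simp_rw [h1]
  rw [intervalIntegral.integral_const_mul, mul_div_assoc]

end S0

end Pool.Agent.Saus2
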