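import Pool.Agent.Saus2.DefsC
import Pool.Agent.Saus2.P2
import Pool.Agent.Saus2.S1
import Pool.Agent.Saus2.S2

/-!
# Saus2, package S3: the block lemma
-/

namespace Pool.Agent.Saus2

open MeasureTheory ProbabilityTheory Set Metric Filter Topology Real
open scoped InnerProductSpace
open Pool.Agent.Sausage27 (Eu Body skel hS betaV)

section S0

variable {E : Type*} [NormedAddCommGroup E] [InnerProductSpace ℝ E]

/-- S5, the block lemma. For `z ∈ D` with `t = ⟪e,z⟫ ∈ [s, s+M]`: `(s/t) z ∈ D` has height `s`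
(as `0 ∈ D`), so `perp e z = (t/s) perp e ((s/t) z)`, and `0 ∈ D_s - s e` gives
`z - t e ∈ sec D e s M` (`t/s ≤ 1 + M/s`). Hence the block lies in `[s, s+M] e + sec D e s M`,
so its shadow lies in a translate of `Y + [0,1] a` with `Y` the shadow of `sec D e s M` (compact,
convex) and `a = M (⟪p.1,e⟫, ⟪p.2,e⟫)`; `a.1 y.2 - a.2 y.1 = - M ⟪nrm e p, z⟫`. Conclude with
`sweep_area` and `sarea_le` (`sec` has norm at most `(1+M/s) K`). -/
theorem block_area {D : Set E} (hD : Body D) {e : E} (he : ‖e‖ = 1) {s M K : ℝ} (hs : 0 < s)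
    (hM : 0 < M) (h0 : (0 : E) ∈ D) (hse : s • e ∈ D) (hK : ∀ x ∈ D, ‖perp e x‖ ≤ K) (p : E × E) :
    sarea (D ∩ {x | s ≤ ⟪e, x⟫_ℝ ∧ ⟪e, x⟫_ℝ ≤ s + M}) p ≤
      4 * ((1 + M / s) * K) ^ 2 * (‖p.1‖ * ‖p.2‖) +
        M * (hS (sec D e s M) (nrm e p) + hS (sec D e s M) (-nrm e p)) := by
  have hee : ⟪e, e⟫_ℝ = 1 := by
    rw [real_inner_self_eq_norm_sq, he, one_pow]
  have hZ : Body (sec D e s M) := sec_body hD he hse
  obtain ⟨Z, hZd⟩ : ∃ Z, Z = sec D e s M := ⟨_, rfl⟩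
  rw [← hZd] at hZ ⊢
  obtain ⟨L, hL⟩ : ∃ L : E →L[ℝ] ℝ × ℝ, L = (innerSL ℝ p.1).prod (innerSL ℝ p.2) := ⟨_, rfl⟩
  have hLx : ∀ x, L x = (⟪p.1, x⟫_ℝ, ⟪p.2, x⟫_ℝ) := by
    intro x
    rw [hL]
    rfl
  have hsh : ∀ X : Set E, shadow X p = L '' X := by
    intro X
    unfold shadow
    refine image_congr fun x _ => ?_
    rw [hLx]
  obtain ⟨a, ha⟩ : ∃ a : ℝ × ℝ, a = M • L e := ⟨_, rfl⟩
  have ha1 : a.1 = M * ⟪p.1, e⟫_ℝ := by
    rw [ha, hLx]
    rfl
  have ha2 : a.2 = M * ⟪p.2, e⟫_ℝ := by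
    rw [ha, hLx]
    rfl
  have hSc : IsCompact (shadow Z p) := by
    rw [hsh]
    exact hZ.comp.image L.continuous
  have hSv : Convex ℝ (shadow Z p) := by
    rw [hsh]
    exact hZ.conv.linear_image L.toLinearMap
  -- the widths
  have hw : ∀ y ∈ shadow Z p, ∃ z ∈ Z, a.1 * y.2 - a.2 * y.1 = -(M * ⟪z, nrm e p⟫_ℝ) := by
    intro y hy
    rw [hsh] at hy
    obtain ⟨z, hz, rfl⟩ := hy
    refine ⟨z, hz, ?_⟩
    rw [ha1, ha2, hLx]
    unfold nrm
    rw [inner_sub_right, inner_smul_right, inner_smul_right, real_inner_comm z p.1,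
      real_inner_comm z p.2]
    ring
  have hm : ∀ y ∈ shadow Z p, -(M * hS Z (nrm e p)) ≤ a.1 * y.2 - a.2 * y.1 := by
    intro y hy
    obtain ⟨z, hz, h1⟩ := hw y hy
    rw [h1]
    have h2 := mul_le_mul_of_nonneg_left (hZ.inner_le hz (nrm e p)) hM.le
    linarith
  have hM' : ∀ y ∈ shadow Z p, a.1 * y.2 - a.2 * y.1 ≤ M * hS Z (-nrm e p) := by
    intro y hy
    obtain ⟨z, hz, h1⟩ := hw y hy
    rw [h1]
    have h2 := mul_le_mul_of_nonneg_left (hZ.inner_le hz (-nrm e p)) hM.le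
    rw [inner_neg_right] at h2
    linarith
  have hmM : -(M * hS Z (nrm e p)) ≤ M * hS Z (-nrm e p) := by
    obtain ⟨z, hz⟩ := hZ.ne
    have h1 : L z ∈ shadow Z p := by
      rw [hsh]
      exact mem_image_of_mem _ hz
    exact (hm _ h1).trans (hM' _ h1)
  have hsweep := sweep_area hSc hSv a hm hM' hmM
  -- the area of the shadow of the section
  have hK0 : 0 ≤ K := (norm_nonneg _).trans (hK 0 h0)
  have hr : 0 < 1 + M / s := by positivity
  have hZn : ∀ x ∈ Z, ‖x‖ ≤ (1 + M / s) * K := by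
    intro x hx
    rw [hZd] at hx
    obtain ⟨z, ⟨hz1, hz2⟩, rfl⟩ := hx
    have h1 := hK z hz1
    have hz2' : ⟪e, z⟫_ℝ = s := hz2
    unfold perp at h1
    rw [hz2'] at h1
    simp only
    rw [norm_smul, Real.norm_of_nonneg hr.le]
    exact mul_le_mul_of_nonneg_left h1 hr.le
  have harea : (volume (shadow Z p)).toReal ≤ 4 * ((1 + M / s) * K) ^ 2 * (‖p.1‖ * ‖p.2‖) := by
    have h1 := sarea_le (D := Z) (ρ := 2 * ((1 + M / s) * K)) (by positivity) (by
      intro x hx y hy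
      have h2 := hZn x hx
      have h3 := hZn y hy
      have h4 := norm_sub_le x y
      linarith) p
    unfold sarea at h1
    calc (volume (shadow Z p)).toReal ≤ (2 * ((1 + M / s) * K)) ^ 2 * (‖p.1‖ * ‖p.2‖) := h1
      _ = 4 * ((1 + M / s) * K) ^ 2 * (‖p.1‖ * ‖p.2‖) := by ring
  -- the block
  have hsub : shadow ((fun x => x + -(s • e)) '' (D ∩ {x | s ≤ ⟪e, x⟫_ℝ ∧ ⟪e, x⟫_ℝ ≤ s + M})) p ⊆
      (fun q : (ℝ × ℝ) × ℝ => q.1 + q.2 • a) '' (shadow Z p ×ˢ Icc 0 1) := by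
    rw [hsh, hsh]
    rintro _ ⟨_, ⟨z, ⟨hz, hz1, hz2⟩, rfl⟩, rfl⟩
    obtain ⟨t, ht⟩ : ∃ t, t = ⟪e, z⟫_ℝ := ⟨_, rfl⟩
    rw [← ht] at hz1 hz2
    have ht0 : 0 < t := hs.trans_le hz1
    have hsM : 0 < s + M := by positivity
    have hy : (s / t) • z ∈ D := by
      have h1 := hD.conv h0 hz (a := 1 - s / t) (b := s / t)
        (by rw [sub_nonneg, div_le_one ht0]; exact hz1) (by positivity) (by ring)
      rwa [smul_zero, zero_add] at h1
    have hy2 : ⟪e, (s / t) • z⟫_ℝ = s := by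
      rw [inner_smul_right, ← ht]
      field_simp
    have hz' : (1 - t / (s + M)) • (s • e) + (t / (s + M)) • ((s / t) • z) ∈ D :=
      hD.conv hse hy (by rw [sub_nonneg, div_le_one hsM]; exact hz2) (by positivity) (by ring)
    have hwZ : z - t • e ∈ Z := by
      rw [hZd]
      refine ⟨(1 - t / (s + M)) • (s • e) + (t / (s + M)) • ((s / t) • z), ⟨hz', ?_⟩, ?_⟩
      · show ⟪e, _⟫_ℝ = s
        have e1 : ⟪e, (1 - t / (s + M)) • (s • e)⟫_ℝ = (1 - t / (s + M)) * s := by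
          rw [inner_smul_right, inner_smul_right, hee, mul_one]
        have e2 : ⟪e, (t / (s + M)) • ((s / t) • z)⟫_ℝ = t / (s + M) * s := by
          rw [inner_smul_right _ ((s / t) • z), hy2]
        rw [inner_add_right, e1, e2]
        ring
      · show (1 + M / s) • (_ - s • e) = _
        have h1 : (1 + M / s) * (t / (s + M)) = t / s := by
          field_simp
        have h2 : (1 - t / (s + M)) • (s • e) + (t / (s + M)) • ((s / t) • z) - s • e =
            (t / (s + M)) • ((s / t) • z - s • e) := by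
          rw [smul_sub, sub_smul, one_smul]
          abel
        rw [h2, smul_smul, h1, smul_sub, smul_smul, smul_smul]
        have h3 : t / s * (s / t) = 1 := by field_simp
        have h4 : t / s * s = t := by field_simp
        rw [h3, h4, one_smul]
    refine ⟨(L (z - t • e), (t - s) / M), ⟨mem_image_of_mem _ hwZ, ?_, ?_⟩, ?_⟩
    · exact div_nonneg (by linarith) hM.le
    · rw [div_le_one hM]
      linarith
    · show L (z - t • e) + ((t - s) / M) • a = L (z + -(s • e))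
      rw [ha, smul_smul, div_mul_cancel₀ _ hM.ne', ← map_smul, ← map_add]
      congr 1
      rw [sub_smul]
      abel
  have hfin : volume ((fun q : (ℝ × ℝ) × ℝ => q.1 + q.2 • a) '' (shadow Z p ×ˢ Icc 0 1)) ≠ ⊤ := by
    have h1 : IsCompact ((fun q : (ℝ × ℝ) × ℝ => q.1 + q.2 • a) '' (shadow Z p ×ˢ Icc 0 1)) :=
      (hSc.prod isCompact_Icc).image (by fun_prop)
    exact h1.measure_lt_top.ne
  rw [← sarea_translate _ (-(s • e)) p]
  calc sarea ((fun x => x + -(s • e)) '' (D ∩ {x | s ≤ ⟪e, x⟫_ℝ ∧ ⟪e, x⟫_ℝ ≤ s + M})) p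
      ≤ (volume ((fun q : (ℝ × ℝ) × ℝ => q.1 + q.2 • a) '' (shadow Z p ×ˢ Icc 0 1))).toReal :=
        ENNReal.toReal_mono hfin (measure_mono hsub)
    _ ≤ (volume (shadow Z p)).toReal + (M * hS Z (-nrm e p) - -(M * hS Z (nrm e p))) := hsweep
    _ ≤ 4 * ((1 + M / s) * K) ^ 2 * (‖p.1‖ * ‖p.2‖) +
        M * (hS Z (nrm e p) + hS Z (-nrm e p)) := by linarith

end S0

end Pool.Agent.Saus2
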