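import Pool.Agent.Saus2.DefsC

/-!
# Saus2, package T0: the diameter as an axis
-/

namespace Pool.Agent.Saus2

open MeasureTheory ProbabilityTheory Set Metric Filter Topology Real
open scoped InnerProductSpace
open Pool.Agent.Sausage27 (Eu Body skel hS betaV)

section S0

variable {E : Type*} [NormedAddCommGroup E] [InnerProductSpace ℝ E]

private lemma t0_perp_le {e : E} (he : ‖e‖ = 1) (y : E) (t : ℝ) : ‖perp e y‖ ≤ ‖y - t • e‖ := by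
  have h1 : ⟪e, e⟫_ℝ = 1 := by rw [real_inner_self_eq_norm_sq, he]; norm_num
  have hdec : y - t • e = perp e y + (⟪e, y⟫_ℝ - t) • e := by
    unfold perp; rw [sub_smul]; abel
  have hort : ⟪perp e y, (⟪e, y⟫_ℝ - t) • e⟫_ℝ = 0 := by
    unfold perp
    rw [inner_smul_right, inner_sub_left, real_inner_smul_left, h1, real_inner_comm]
    ring
  have h2 := norm_add_sq_real (perp e y) ((⟪e, y⟫_ℝ - t) • e)
  rw [hort, ← hdec] at h2
  have h3 : ‖perp e y‖ ^ 2 ≤ ‖y - t • e‖ ^ 2 := by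
    rw [h2]; nlinarith [sq_nonneg ‖(⟪e, y⟫_ℝ - t) • e‖]
  exact (sq_le_sq₀ (norm_nonneg _) (norm_nonneg _)).1 h3

private lemma t0_perp_norm {w : E} (hw : ‖w‖ = 1) {K : ℝ} (hK : 0 ≤ K) {y : E}
    (h : ∀ v : E, ⟪v, w⟫_ℝ = 0 → ‖v‖ ≤ 1 → ⟪v, y⟫_ℝ ≤ K) : ‖perp w y‖ ≤ K := by
  have h1 : ⟪w, w⟫_ℝ = 1 := by rw [real_inner_self_eq_norm_sq, hw]; norm_num
  rcases eq_or_ne (perp w y) 0 with h0 | h0
  · rw [h0, norm_zero]; exact hK
  have hpos : 0 < ‖perp w y‖ := norm_pos_iff.2 h0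
  have hort : ⟪perp w y, w⟫_ℝ = 0 := by
    unfold perp
    rw [inner_sub_left, real_inner_smul_left, h1, real_inner_comm]; ring
  have hself : ⟪perp w y, y⟫_ℝ = ‖perp w y‖ ^ 2 := by
    have hy : y = perp w y + ⟪w, y⟫_ℝ • w := by unfold perp; abel
    have : ⟪perp w y, y⟫_ℝ = ⟪perp w y, perp w y + ⟪w, y⟫_ℝ • w⟫_ℝ := by
      rw [← hy]
    rw [this, inner_add_right, inner_smul_right, hort, real_inner_self_eq_norm_sq]; ring
  have h2 := h (‖perp w y‖⁻¹ • perp w y)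
    (by rw [real_inner_smul_left, hort, mul_zero])
    (by rw [norm_smul, norm_inv, norm_norm, inv_mul_cancel₀ hpos.ne'])
  rw [real_inner_smul_left, hself, pow_two, ← mul_assoc, inv_mul_cancel₀ hpos.ne', one_mul] at h2
  exact h2

/-- T0. The diameter as an axis. Let `x₀, x₁ ∈ D` have `‖x₁ - x₀‖ = L` maximal and
`x₁ - x₀ = L e`. The slab condition holds by maximality. For `x ∈ D` write
`x - x₀ = α w + a`, `x₁ - x₀ = β w + b` with `a, b ⊥ w`, of norm at most `K`. If `L ≤ 2K` the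
distance of `x` to the axis is at most `‖x - x₀‖ ≤ 2K`. Otherwise `β² ≥ 3K²`,
`α² ≤ β² + K²`, so `|α/β| ≤ 2`, and the distance is at most `‖a - (α/β) b‖ ≤ 3K`. -/
theorem exists_axis [FiniteDimensional ℝ E] {D : Set E} (hD : Body D) {w : E} (hw : ‖w‖ = 1)
    {K : ℝ} (hK : 0 ≤ K)
    (hex : ∀ x ∈ D, ∀ y ∈ D, ∀ v : E, ⟪v, w⟫_ℝ = 0 → ‖v‖ ≤ 1 → ⟪v, x - y⟫_ℝ ≤ K) :
    ∃ x₀ ∈ D, ∃ (e : E) (L : ℝ), ‖e‖ = 1 ∧ 0 ≤ L ∧ x₀ + L • e ∈ D ∧
      ∀ x ∈ D, 0 ≤ ⟪e, x - x₀⟫_ℝ ∧ ⟪e, x - x₀⟫_ℝ ≤ L ∧ ‖perp e (x - x₀)‖ ≤ 3 * K := by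
  obtain ⟨hne, hcpt, hconv⟩ : D.Nonempty ∧ IsCompact D ∧ Convex ℝ D := by
    obtain ⟨h1, h2, h3⟩ := hD
    tauto
  obtain ⟨⟨x₁, x₀⟩, ⟨hx₁, hx₀⟩, hmax⟩ := (hcpt.prod hcpt).exists_isMaxOn
    (hne.prod hne) (f := fun p : E × E => ‖p.1 - p.2‖) (by fun_prop)
  have hmax' : ∀ x ∈ D, ∀ y ∈ D, ‖x - y‖ ≤ ‖x₁ - x₀‖ := fun x hx y hy =>
    hmax (show (x, y) ∈ D ×ˢ D from ⟨hx, hy⟩)
  rcases eq_or_ne (x₁ - x₀) 0 with h0 | h0
  · refine ⟨x₀, hx₀, w, 0, hw, le_rfl, by simpa using hx₀, fun x hx => ?_⟩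
    have h1 := hmax' x hx x₀ hx₀
    rw [h0, norm_zero] at h1
    have h2 : x - x₀ = 0 := norm_le_zero_iff.1 h1
    rw [h2]
    refine ⟨by simp, by simp, ?_⟩
    have : perp w (0 : E) = 0 := by simp [perp]
    rw [this, norm_zero]; positivity
  set L : ℝ := ‖x₁ - x₀‖ with hL
  have hLpos : 0 < L := norm_pos_iff.2 h0
  set e : E := L⁻¹ • (x₁ - x₀) with he
  have hLe : L • e = x₁ - x₀ := by rw [he, smul_smul, mul_inv_cancel₀ hLpos.ne', one_smul]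
  have hen : ‖e‖ = 1 := by
    rw [he, norm_smul, norm_inv, Real.norm_of_nonneg hLpos.le, ← hL, inv_mul_cancel₀ hLpos.ne']
  refine ⟨x₀, hx₀, e, L, hen, hLpos.le, by rw [hLe]; simpa using hx₁, fun x hx => ?_⟩
  have hxle : ‖x - x₀‖ ≤ L := hmax' x hx x₀ hx₀
  refine ⟨?_, ?_, ?_⟩
  · have h1 : ‖x₁ - x‖ ≤ L := hmax' x₁ hx₁ x hx
    have h2 : x₁ - x = L • e - (x - x₀) := by rw [hLe]; abel
    have h3 := norm_sub_sq_real (L • e) (x - x₀)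
    rw [← h2, real_inner_smul_left, norm_smul, hen, mul_one, Real.norm_of_nonneg hLpos.le] at h3
    have h4 : ‖x₁ - x‖ ^ 2 ≤ L ^ 2 := by
      have := norm_nonneg (x₁ - x)
      nlinarith
    have h5 : 0 ≤ 2 * L * ⟪e, x - x₀⟫_ℝ := by nlinarith [sq_nonneg ‖x - x₀‖]
    by_contra hc
    push Not at hc
    nlinarith
  · calc ⟪e, x - x₀⟫_ℝ ≤ ‖e‖ * ‖x - x₀‖ := real_inner_le_norm _ _
      _ ≤ L := by rw [hen, one_mul]; exact hxle
  · rcases le_or_gt L (2 * K) with hLK | hLK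
    · have h1 := t0_perp_le hen (x - x₀) 0
      rw [zero_smul, sub_zero] at h1
      linarith
    have ha : ‖perp w (x - x₀)‖ ≤ K := t0_perp_norm hw hK (hex x hx x₀ hx₀)
    have hb : ‖perp w (x₁ - x₀)‖ ≤ K := t0_perp_norm hw hK (hex x₁ hx₁ x₀ hx₀)
    have h1 : ⟪w, w⟫_ℝ = 1 := by rw [real_inner_self_eq_norm_sq, hw]; norm_num
    have hpyth : ∀ y : E, ‖y‖ ^ 2 = ⟪w, y⟫_ℝ ^ 2 + ‖perp w y‖ ^ 2 := by
      intro y
      have hy : y = ⟪w, y⟫_ℝ • w + perp w y := by unfold perp; abel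
      have hort : ⟪⟪w, y⟫_ℝ • w, perp w y⟫_ℝ = 0 := by
        rw [real_inner_smul_left]
        unfold perp
        rw [inner_sub_right, inner_smul_right, h1]; ring
      have h2 := norm_add_sq_real (⟪w, y⟫_ℝ • w) (perp w y)
      rw [hort, ← hy, norm_smul, hw, mul_one, Real.norm_eq_abs, sq_abs] at h2
      linarith
    set α : ℝ := ⟪w, x - x₀⟫_ℝ with hα
    set β : ℝ := ⟪w, x₁ - x₀⟫_ℝ with hβ
    have hp1 := hpyth (x - x₀)
    have hp2 := hpyth (x₁ - x₀)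
    rw [← hα] at hp1
    rw [← hβ, ← hL] at hp2
    have hbn := norm_nonneg (perp w (x₁ - x₀))
    have han := norm_nonneg (perp w (x - x₀))
    have hb2 : ‖perp w (x₁ - x₀)‖ ^ 2 ≤ K ^ 2 := by nlinarith
    have hL2 : 4 * K ^ 2 < L ^ 2 := by nlinarith
    have hβ2 : 3 * K ^ 2 < β ^ 2 := by nlinarith
    have hx2 : ‖x - x₀‖ ^ 2 ≤ L ^ 2 := by nlinarith [norm_nonneg (x - x₀)]
    have hα2 : α ^ 2 ≤ β ^ 2 + K ^ 2 := by nlinarith [sq_nonneg ‖perp w (x - x₀)‖]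
    have hβ0 : β ≠ 0 := by
      intro h; rw [h] at hβ2; nlinarith [sq_nonneg K]
    have hβ2' : 0 < β ^ 2 := by positivity
    have hratio : |α / β| ≤ 2 := by
      apply abs_le_of_sq_le_sq _ (by norm_num)
      rw [div_pow, div_le_iff₀ hβ2']
      nlinarith
    have hkey : x - x₀ - ((α / β) * L) • e
        = perp w (x - x₀) - (α / β) • perp w (x₁ - x₀) := by
      rw [mul_smul, hLe]
      unfold perp
      rw [← hα, ← hβ, smul_sub (α / β) (x₁ - x₀), smul_smul, div_mul_cancel₀ _ hβ0]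
      abel
    calc ‖perp e (x - x₀)‖ ≤ ‖x - x₀ - ((α / β) * L) • e‖ := t0_perp_le hen _ _
      _ = ‖perp w (x - x₀) - (α / β) • perp w (x₁ - x₀)‖ := by rw [hkey]
      _ ≤ ‖perp w (x - x₀)‖ + ‖(α / β) • perp w (x₁ - x₀)‖ := norm_sub_le _ _
      _ = ‖perp w (x - x₀)‖ + |α / β| * ‖perp w (x₁ - x₀)‖ := by
          rw [norm_smul, Real.norm_eq_abs]
      _ ≤ K + 2 * K := by
          have := mul_le_mul hratio hb hbn (by norm_num : (0 : ℝ) ≤ 2)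
          linarith
      _ = 3 * K := by ring

end S0

end Pool.Agent.Saus2
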