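import Pool.Agent.Saus2.DefsC

/-!
# Saus2, package T2: the ray lemma
-/

namespace Pool.Agent.Saus2

open MeasureTheory ProbabilityTheory Set Metric Filter Topology Real
open scoped InnerProductSpace
open Pool.Agent.Sausage27 (Eu Body skel hS betaV)

section S0

variable {E : Type*} [NormedAddCommGroup E] [InnerProductSpace ℝ E]

/-- The pairing with `F` as a linear map into the dual. -/
private noncomputable def pairT2 (F : Submodule ℝ E) : E →ₗ[ℝ] Module.Dual ℝ F where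
  toFun v :=
    { toFun := fun f => ⟪(f : E), v⟫_ℝ
      map_add' := fun f g => by rw [Submodule.coe_add, inner_add_left]
      map_smul' := fun c f => by
        rw [Submodule.coe_smul, inner_smul_left]
        simp }
  map_add' v w := by
    ext f
    simp [inner_add_right]
  map_smul' c v := by
    ext f
    simp [inner_smul_right]

private theorem pairT2_apply (F : Submodule ℝ E) (v : E) (f : F) :
    pairT2 F v f = ⟪(f : E), v⟫_ℝ := rfl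

/-- If no nonzero vector of the three-dimensional `P` is orthogonal to `F` then `P` realizes
every vector. -/
private theorem surjT2 [FiniteDimensional ℝ E] (F P : Submodule ℝ E)
    (hF : Module.finrank ℝ F ≤ 3) (hP : Module.finrank ℝ P = 3)
    (h : ∀ v ∈ P, (∀ f ∈ F, ⟪f, v⟫_ℝ = 0) → v = 0) (N : E) :
    ∃ q ∈ P, ∀ f ∈ F, ⟪f, q⟫_ℝ = ⟪f, N⟫_ℝ := by
  have hinj : Function.Injective ((pairT2 F).comp P.subtype) := by
    rw [← LinearMap.ker_eq_bot, LinearMap.ker_eq_bot']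
    intro v hv
    have h1 := h v v.2 fun f hf => by
      have h2 := LinearMap.congr_fun hv ⟨f, hf⟩
      exact h2
    exact Subtype.ext h1
  have hd : Module.finrank ℝ (Module.Dual ℝ F) = Module.finrank ℝ F :=
    Subspace.dual_finrank_eq
  have hle := LinearMap.finrank_le_finrank_of_injective hinj
  have heq : Module.finrank ℝ P = Module.finrank ℝ (Module.Dual ℝ F) := by omega
  obtain ⟨q, hq⟩ := (LinearMap.injective_iff_surjective_of_finrank_eq_finrank heq).1 hinj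
    (pairT2 F N)
  exact ⟨q, q.2, fun f hf => LinearMap.congr_fun hq ⟨f, hf⟩⟩

/-- T2. The ray lemma. The set of `(σ, x')` with `σ ≥ 0`, `x' ∈ D` and
`⟪f, x'⟫ = ⟪f, x⟫ + σ ⟪f, N⟫` for all `f ∈ F` is nonempty and compact (`σ` is bounded: `f = N`).
Take one with `σ` maximal, and then `x'` an extreme point of the fibre
`{x' ∈ D | ∀ f ∈ F, ⟪f, x'⟫ = ⟪f, x⟫ + σ ⟪f, N⟫}` (`IsCompact.extremePoints_nonempty`). If
`x' + P`-ball of radius `r` lies in `D` with `finrank P = 3`: either `P ∩ Fᗮ ≠ 0`, contradicting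
extremality, or the projection `P → F` is injective, hence bijective (`finrank F ≤ 3`), so some
`q ∈ P` has projection `N`, and `x' + η q`, `η > 0` small, contradicts the maximality of `σ`. -/
theorem ray_skel [FiniteDimensional ℝ E] {D : Set E} (hD : Body D) (F : Submodule ℝ E)
    (hF : Module.finrank ℝ F ≤ 3) {N : E} (hN : N ∈ F) (hN0 : N ≠ 0) {x : E} (hx : x ∈ D) :
    ∃ σ : ℝ, 0 ≤ σ ∧ ∃ x' ∈ skel 2 D, ∀ f ∈ F, ⟪f, x'⟫_ℝ = ⟪f, x⟫_ℝ + σ * ⟪f, N⟫_ℝ := by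
  have hNN : 0 < ⟪N, N⟫_ℝ := by
    rw [real_inner_self_eq_norm_sq]
    have := norm_pos_iff.2 hN0
    positivity
  -- the parameter of a point
  obtain ⟨s, hs⟩ : ∃ s : E → ℝ, ∀ z, s z = (⟪N, z⟫_ℝ - ⟪N, x⟫_ℝ) / ⟪N, N⟫_ℝ :=
    ⟨_, fun _ => rfl⟩
  have hsc : Continuous s := by
    have : s = fun z => (⟪N, z⟫_ℝ - ⟪N, x⟫_ℝ) / ⟪N, N⟫_ℝ := funext hs
    rw [this]
    fun_prop
  have hsσ : ∀ (z : E) (σ : ℝ), (∀ f ∈ F, ⟪f, z⟫_ℝ = ⟪f, x⟫_ℝ + σ * ⟪f, N⟫_ℝ) → s z = σ := by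
    intro z σ h
    rw [hs, h N hN]
    field_simp
    ring
  -- the compact set of the admissible points
  have hAc : IsCompact (D ∩ {z | 0 ≤ s z ∧ ∀ f ∈ F, ⟪f, z⟫_ℝ = ⟪f, x⟫_ℝ + s z * ⟪f, N⟫_ℝ}) := by
    refine hD.comp.inter_right ?_
    have h1 : {z | 0 ≤ s z ∧ ∀ f ∈ F, ⟪f, z⟫_ℝ = ⟪f, x⟫_ℝ + s z * ⟪f, N⟫_ℝ} =
        {z | 0 ≤ s z} ∩ ⋂ f ∈ F, {z | ⟪f, z⟫_ℝ = ⟪f, x⟫_ℝ + s z * ⟪f, N⟫_ℝ} := by
      ext z
      simp
    rw [h1]
    refine (isClosed_le continuous_const hsc).inter ?_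
    exact isClosed_biInter fun f _ => isClosed_eq (by fun_prop) (by fun_prop)
  have hx0 : s x = 0 := by
    rw [hs, sub_self, zero_div]
  obtain ⟨x₀, hx₀, hmax⟩ := hAc.exists_isMaxOn
    ⟨x, hx, by rw [hx0], fun f _ => by rw [hx0, zero_mul, add_zero]⟩ hsc.continuousOn
  obtain ⟨σ, hσ⟩ : ∃ σ, σ = s x₀ := ⟨_, rfl⟩
  obtain ⟨hx₀D, hσ0, hx₀F⟩ := hx₀
  rw [← hσ] at hσ0
  -- the fibre
  have hBc : IsCompact (D ∩ {z | ∀ f ∈ F, ⟪f, z⟫_ℝ = ⟪f, x⟫_ℝ + σ * ⟪f, N⟫_ℝ}) := by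
    refine hD.comp.inter_right ?_
    have h1 : {z | ∀ f ∈ F, ⟪f, z⟫_ℝ = ⟪f, x⟫_ℝ + σ * ⟪f, N⟫_ℝ} =
        ⋂ f ∈ F, {z | ⟪f, z⟫_ℝ = ⟪f, x⟫_ℝ + σ * ⟪f, N⟫_ℝ} := by
      ext z
      simp
    rw [h1]
    exact isClosed_biInter fun f _ => isClosed_eq (by fun_prop) (by fun_prop)
  obtain ⟨x', hx'⟩ := hBc.extremePoints_nonempty ⟨x₀, hx₀D, by rw [hσ]; exact hx₀F⟩
  rw [mem_extremePoints] at hx'
  obtain ⟨⟨hx'D, hx'F⟩, hext⟩ := hx'
  refine ⟨σ, hσ0, x', ⟨hx'D, ?_⟩, hx'F⟩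
  rintro ⟨P, r, hP, hr, hball⟩
  -- no vector of `P` is orthogonal to `F`
  have hno : ∀ v ∈ P, (∀ f ∈ F, ⟪f, v⟫_ℝ = 0) → v = 0 := by
    intro v hv hvF
    by_contra hv0
    have hvn : 0 < ‖v‖ := norm_pos_iff.2 hv0
    obtain ⟨t, ht⟩ : ∃ t, t = r / ‖v‖ := ⟨_, rfl⟩
    have ht0 : 0 < t := by
      rw [ht]
      positivity
    have htv : ‖t • v‖ ≤ r := by
      rw [norm_smul, Real.norm_eq_abs, abs_of_pos ht0, ht, div_mul_cancel₀ _ hvn.ne']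
    have htv' : ‖(-t) • v‖ ≤ r := by
      rw [neg_smul, norm_neg]
      exact htv
    have hmem : ∀ c : ℝ, ‖c • v‖ ≤ r →
        x' + c • v ∈ D ∩ {z | ∀ f ∈ F, ⟪f, z⟫_ℝ = ⟪f, x⟫_ℝ + σ * ⟪f, N⟫_ℝ} := by
      intro c hc
      refine ⟨hball _ (P.smul_mem c hv) hc, fun f hf => ?_⟩
      rw [inner_add_right, inner_smul_right, hvF f hf, mul_zero, add_zero]
      exact hx'F f hf
    have h1 := (hext _ (hmem t htv) _ (hmem (-t) htv') ⟨1 / 2, 1 / 2, by norm_num,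
      by norm_num, by norm_num, by
        rw [← smul_add]
        have : x' + t • v + (x' + (-t) • v) = (2 : ℝ) • x' := by
          rw [neg_smul, two_smul]
          abel
        rw [this, smul_smul]
        norm_num⟩).1
    have h2 : t • v = 0 := by
      have h3 : x' + t • v = x' + 0 := by rw [h1, add_zero]
      exact add_left_cancel h3
    rcases smul_eq_zero.1 h2 with h3 | h3
    · exact ht0.ne' h3
    · exact hv0 h3
  obtain ⟨q, hqP, hq⟩ := surjT2 F P hF hP hno N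
  have hq0 : q ≠ 0 := by
    intro h
    have h1 := hq N hN
    rw [h, inner_zero_right] at h1
    exact hNN.ne h1
  have hqn : 0 < ‖q‖ := norm_pos_iff.2 hq0
  obtain ⟨t, ht⟩ : ∃ t, t = r / ‖q‖ := ⟨_, rfl⟩
  have ht0 : 0 < t := by
    rw [ht]
    positivity
  have htq : ‖t • q‖ ≤ r := by
    rw [norm_smul, Real.norm_eq_abs, abs_of_pos ht0, ht, div_mul_cancel₀ _ hqn.ne']
  have hF2 : ∀ f ∈ F, ⟪f, x' + t • q⟫_ℝ = ⟪f, x⟫_ℝ + (σ + t) * ⟪f, N⟫_ℝ := by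
    intro f hf
    rw [inner_add_right, inner_smul_right, hq f hf, hx'F f hf]
    ring
  have hs2 := hsσ _ _ hF2
  have h3 := hmax (show x' + t • q ∈ D ∩
      {z | 0 ≤ s z ∧ ∀ f ∈ F, ⟪f, z⟫_ℝ = ⟪f, x⟫_ℝ + s z * ⟪f, N⟫_ℝ} from
    ⟨hball _ (P.smul_mem t hqP) htq, by rw [hs2]; linarith, fun f hf => by
      rw [hs2]
      exact hF2 f hf⟩)
  have h4 : s (x' + t • q) ≤ s x₀ := h3
  rw [hs2, ← hσ] at h4
  linarith

end S0

end Pool.Agent.Saus2
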