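import Pool.Agent.Saus2.DefsC

/-!
# Saus2, package T3: the cone
-/

namespace Pool.Agent.Saus2

open MeasureTheory ProbabilityTheory Set Metric Filter Topology Real
open scoped InnerProductSpace
open Pool.Agent.Sausage27 (Eu Body skel hS betaV)

section S0

variable {E : Type*} [NormedAddCommGroup E] [InnerProductSpace ℝ E]

/-- T3a. The cone is compact. -/
theorem cone_compact (e : E) (J : ℂ →ₗᵢ[ℝ] E) {C : Set ℂ} (hC : IsCompact C) (s R : ℝ) :
    IsCompact ((fun q : ℝ × ℂ => cpt e J s R q.1 q.2) '' (Icc 0 R ×ˢ C)) := by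
  refine (isCompact_Icc.prod hC).image ?_
  unfold cpt
  have hJ := J.continuous
  fun_prop

/-- T3b. The cone is convex: `a (1 - t₁/R) z₁ + b (1 - t₂/R) z₂ = (1 - t/R) z` with
`t = a t₁ + b t₂` and `z` a convex combination of `z₁, z₂` (any, if `t = R`). -/
theorem cone_convex (e : E) (J : ℂ →ₗᵢ[ℝ] E) {C : Set ℂ} (hC : Convex ℝ C) (s : ℝ) {R : ℝ}
    (hR : 0 < R) :
    Convex ℝ ((fun q : ℝ × ℂ => cpt e J s R q.1 q.2) '' (Icc 0 R ×ˢ C)) := by
  rintro _ ⟨⟨t₁, z₁⟩, ⟨ht₁, hz₁⟩, rfl⟩ _ ⟨⟨t₂, z₂⟩, ⟨ht₂, hz₂⟩, rfl⟩ a b ha hb hab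
  simp only [mem_Icc] at ht₁ ht₂ hz₁ hz₂
  have hc₁ : 0 ≤ 1 - t₁ / R := by
    rw [sub_nonneg, div_le_one hR]
    exact ht₁.2
  have hc₂ : 0 ≤ 1 - t₂ / R := by
    rw [sub_nonneg, div_le_one hR]
    exact ht₂.2
  have ht : a * t₁ + b * t₂ ∈ Icc 0 R := by
    constructor
    · have := mul_nonneg ha ht₁.1
      have := mul_nonneg hb ht₂.1
      linarith
    · calc a * t₁ + b * t₂ ≤ a * R + b * R :=
            add_le_add (mul_le_mul_of_nonneg_left ht₁.2 ha) (mul_le_mul_of_nonneg_left ht₂.2 hb)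
        _ = R := by rw [← add_mul, hab, one_mul]
  have hlam : 1 - (a * t₁ + b * t₂) / R = a * (1 - t₁ / R) + b * (1 - t₂ / R) := by
    have h1 : a * (1 - t₁ / R) + b * (1 - t₂ / R) = (a + b) - (a * t₁ + b * t₂) / R := by ring
    rw [h1, hab]
  obtain ⟨z, hz, hzz⟩ : ∃ z ∈ C, (1 - (a * t₁ + b * t₂) / R) • z =
      (a * (1 - t₁ / R)) • z₁ + (b * (1 - t₂ / R)) • z₂ := by
    have h1 : 0 ≤ a * (1 - t₁ / R) := mul_nonneg ha hc₁
    have h2 : 0 ≤ b * (1 - t₂ / R) := mul_nonneg hb hc₂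
    rw [hlam]
    rcases (add_nonneg h1 h2).eq_or_lt with h | h
    · refine ⟨z₁, hz₁, ?_⟩
      have h3 : a * (1 - t₁ / R) = 0 := by linarith
      have h4 : b * (1 - t₂ / R) = 0 := by linarith
      rw [h3, h4]
      simp
    · refine ⟨(a * (1 - t₁ / R) / (a * (1 - t₁ / R) + b * (1 - t₂ / R))) • z₁ +
        (b * (1 - t₂ / R) / (a * (1 - t₁ / R) + b * (1 - t₂ / R))) • z₂, ?_, ?_⟩
      · refine hC hz₁ hz₂ (by positivity) (by positivity) ?_
        rw [← add_div, div_self h.ne']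
      · rw [smul_add, smul_smul, smul_smul, mul_div_cancel₀ _ h.ne', mul_div_cancel₀ _ h.ne']
  refine ⟨(a * t₁ + b * t₂, z), ⟨ht, hz⟩, ?_⟩
  change cpt e J s R (a * t₁ + b * t₂) z = a • cpt e J s R t₁ z₁ + b • cpt e J s R t₂ z₂
  unfold cpt
  rw [hzz, map_add, smul_add, smul_add, smul_smul, smul_smul, ← map_smul, ← map_smul, smul_smul,
    smul_smul]
  have h5 : s + (a * t₁ + b * t₂) = a * (s + t₁) + b * (s + t₂) := by
    have : s = (a + b) * s := by rw [hab, one_mul]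
    linear_combination this
  rw [h5, add_smul]
  abel

end S0

end Pool.Agent.Saus2
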