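import Pool.Agent.Saus2.DefsC

/-!
# Saus2, package TNormal: supporting lines of planar convex bodies
-/

namespace Pool.Agent.Saus2

open MeasureTheory ProbabilityTheory Set Metric Filter Topology Real
open scoped InnerProductSpace
open Pool.Agent.Sausage27 (Eu Body skel hS betaV)

/-- A point outside the body is separated from it by a unit vector. -/
private theorem tnormal_sep {C : Set ℂ} (hC : IsCompact C) (hconv : Convex ℝ C)
    (hne : C.Nonempty) {u : ℂ} (hu : u ∉ C) :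
    ∃ ν : ℂ, ‖ν‖ = 1 ∧ ∀ z ∈ C, ⟪ν, z⟫_ℝ ≤ ⟪ν, u⟫_ℝ := by
  obtain ⟨v, hv, hmin⟩ := exists_norm_eq_iInf_of_complete_convex hne hC.isComplete hconv u
  rw [norm_eq_iInf_iff_real_inner_le_zero hconv hv] at hmin
  have hne' : u - v ≠ 0 := by
    intro h
    exact hu (by rw [sub_eq_zero.1 h]; exact hv)
  have hpos : 0 < ‖u - v‖ := norm_pos_iff.2 hne'
  have hn1 : ‖‖u - v‖⁻¹ • (u - v)‖ = 1 := by
    rw [norm_smul, norm_inv, norm_norm, inv_mul_cancel₀ hpos.ne']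
  refine ⟨‖u - v‖⁻¹ • (u - v), hn1, fun z hz => ?_⟩
  rw [real_inner_smul_left, real_inner_smul_left]
  refine mul_le_mul_of_nonneg_left ?_ (inv_nonneg.2 hpos.le)
  have h1 := hmin z hz
  have h2 : 0 ≤ ⟪u - v, u - v⟫_ℝ := real_inner_self_nonneg
  have h3 : ⟪u - v, z⟫_ℝ = ⟪u - v, z - v⟫_ℝ + ⟪u - v, v⟫_ℝ := by
    rw [← inner_add_right, sub_add_cancel]
  have h4 : ⟪u - v, u⟫_ℝ = ⟪u - v, u - v⟫_ℝ + ⟪u - v, v⟫_ℝ := by
    rw [← inner_add_right, sub_add_cancel]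
  rw [h3, h4]
  linarith

/-- T1. Supporting line at a boundary point of a planar convex body (possibly with empty
interior). Take points `y_k ∉ C` tending to `y`, separate each of them from `C` by a unit vector
`ν_k` (`geometric_hahn_banach_point_closed` or nearest points), and pass to a convergent
subsequence. -/
theorem exists_normal {C : Set ℂ} (hC : IsCompact C) (hconv : Convex ℝ C) {y : ℂ}
    (hy : y ∈ frontier C) : ∃ ν : ℂ, ‖ν‖ = 1 ∧ ∀ z ∈ C, ⟪ν, z⟫_ℝ ≤ ⟪ν, y⟫_ℝ := by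
  have hyC : y ∈ C := hC.isClosed.frontier_subset hy
  have hcl : y ∈ closure Cᶜ := by
    rw [closure_compl]
    exact fun h => hy.2 h
  obtain ⟨u, hu, hlim⟩ := mem_closure_iff_seq_limit.1 hcl
  choose ν hν hsep using fun k => tnormal_sep hC hconv ⟨y, hyC⟩ (hu k)
  obtain ⟨ν₀, hν₀, φ, hφ, hνlim⟩ := (isCompact_sphere (0 : ℂ) 1).tendsto_subseq
    (x := ν) (fun k => by
      rw [mem_sphere_iff_norm, sub_zero]
      exact hν k)
  refine ⟨ν₀, by rwa [mem_sphere_iff_norm, sub_zero] at hν₀, fun z hz => ?_⟩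
  have h1 : Tendsto (fun k => ⟪(ν ∘ φ) k, z⟫_ℝ) atTop (𝓝 ⟪ν₀, z⟫_ℝ) :=
    hνlim.inner tendsto_const_nhds
  have h2 : Tendsto (fun k => ⟪(ν ∘ φ) k, (u ∘ φ) k⟫_ℝ) atTop (𝓝 ⟪ν₀, y⟫_ℝ) :=
    hνlim.inner (hlim.comp hφ.tendsto_atTop)
  exact le_of_tendsto_of_tendsto' h1 h2 fun k => hsep (φ k) z hz

end Pool.Agent.Saus2
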