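import Pool.Agent.Saus2.DefsC
import Pool.Agent.Saus2.TNormal
import Pool.Agent.Saus2.T2
import Pool.Agent.Saus2.T3

/-!
# Saus2, package T4: covering the lines on the cone
-/

namespace Pool.Agent.Saus2

open MeasureTheory ProbabilityTheory Set Metric Filter Topology Real
open scoped InnerProductSpace
open Pool.Agent.Sausage27 (Eu Body skel hS betaV)

section S0

variable {E : Type*} [NormedAddCommGroup E] [InnerProductSpace ℝ E]

private theorem t4_inner_J (J : ℂ →ₗᵢ[ℝ] E) (ν : ℂ) (x : E) :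
    ⟪J ν, x⟫_ℝ = ⟪ν, proj2 J x⟫_ℝ := by
  have hν : ν = ν.re • (1 : ℂ) + ν.im • Complex.I := by
    apply Complex.ext <;> simp
  have h1 : J ν = ν.re • J 1 + ν.im • J Complex.I := by
    conv_lhs => rw [hν]
    rw [map_add, map_smul, map_smul]
  rw [h1, inner_add_left, real_inner_smul_left, real_inner_smul_left, Complex.inner]
  simp [proj2]
  ring

private theorem t4_proj2_add (J : ℂ →ₗᵢ[ℝ] E) (x y : E) :
    proj2 J (x + y) = proj2 J x + proj2 J y := by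
  unfold proj2
  rw [inner_add_right, inner_add_right]
  push_cast
  ring

private theorem t4_proj2_smul (J : ℂ →ₗᵢ[ℝ] E) (a : ℝ) (x : E) :
    proj2 J (a • x) = a • proj2 J x := by
  unfold proj2
  rw [inner_smul_right, inner_smul_right, Complex.real_smul]
  push_cast
  ring

private theorem t4_proj2_cont (J : ℂ →ₗᵢ[ℝ] E) : Continuous (proj2 J) := by
  unfold proj2
  fun_prop

private theorem t4_inner_e {e : E} (he : ‖e‖ = 1) {J : ℂ →ₗᵢ[ℝ] E} (hJ : ∀ z, ⟪e, J z⟫_ℝ = 0)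
    (s R t : ℝ) (y : ℂ) : ⟪e, cpt e J s R t y⟫_ℝ = s + t := by
  unfold cpt
  rw [inner_add_right, inner_smul_right, real_inner_self_eq_norm_sq, he, hJ]
  ring

private theorem t4_inner_Jc {e : E} {J : ℂ →ₗᵢ[ℝ] E} (hJ : ∀ z, ⟪e, J z⟫_ℝ = 0)
    (s R t : ℝ) (y ζ : ℂ) : ⟪J ζ, cpt e J s R t y⟫_ℝ = (1 - t / R) * ⟪ζ, y⟫_ℝ := by
  unfold cpt
  rw [inner_add_right, inner_smul_right, real_inner_comm, hJ, J.inner_map_map, inner_smul_right]
  ring

private theorem t4_slc_compact {D : Set E} (hD : Body D) (e : E) (J : ℂ →ₗᵢ[ℝ] E) (s : ℝ) :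
    IsCompact (slc D e J s) := by
  have h : IsClosed {z : E | ⟪e, z⟫_ℝ = s} :=
    isClosed_eq (continuous_const.inner continuous_id) continuous_const
  exact (hD.comp.inter_right h).image (t4_proj2_cont J)

private theorem t4_slc_convex {D : Set E} (hD : Body D) (e : E) (J : ℂ →ₗᵢ[ℝ] E) (s : ℝ) :
    Convex ℝ (slc D e J s) := by
  rintro _ ⟨z, ⟨hz, hz'⟩, rfl⟩ _ ⟨w, ⟨hw, hw'⟩, rfl⟩ a b ha hb hab
  refine ⟨a • z + b • w, ⟨hD.conv hz hw ha hb hab, ?_⟩, ?_⟩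
  · have e1 : ⟪e, z⟫_ℝ = s := hz'
    have e2 : ⟪e, w⟫_ℝ = s := hw'
    change ⟪e, a • z + b • w⟫_ℝ = s
    rw [inner_add_right, inner_smul_right, inner_smul_right, e1, e2, ← add_mul, hab, one_mul]
  · rw [t4_proj2_add, t4_proj2_smul, t4_proj2_smul]

/-- nearest points of a convex set are a contraction, in the variational form -/
private theorem t4_contr {x c q p : E} (h1 : ⟪x - q, p - q⟫_ℝ ≤ 0) (h2 : ⟪c - p, q - p⟫_ℝ ≤ 0) :
    ‖q - p‖ ≤ ‖x - c‖ := by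
  have h3 : ‖q - p‖ ^ 2 ≤ ⟪x - c, q - p⟫_ℝ := by
    have e1 : ⟪x - q, p - q⟫_ℝ = -⟪x - q, q - p⟫_ℝ := by
      rw [← inner_neg_right, neg_sub]
    have e2 : ⟪x - c, q - p⟫_ℝ = ⟪x - q, q - p⟫_ℝ - ⟪c - p, q - p⟫_ℝ + ⟪q - p, q - p⟫_ℝ := by
      rw [← inner_sub_left, ← inner_add_left]
      congr 1
      abel
    rw [e2, real_inner_self_eq_norm_sq]
    linarith
  have h4 := real_inner_le_norm (x - c) (q - p)
  by_contra hlt
  push Not at hlt
  have h5 : 0 < ‖q - p‖ := (norm_nonneg _).trans_lt hlt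
  nlinarith

/-- T4. Covering of the lines on the cone. `C = slc D e J s` contains `0` (`s e ∈ D`). Let
`T` be the cone over `C` (T3) and `b j` the coordinates of the point of `T` nearest to `c j`.
Let `y ∈ frontier C`, `ν` from `exists_normal`, `N = (⟪ν,y⟫ / R) • e + J ν`, `F` the span of
`e, J 1, J I`, `q = cpt e J s R t y`. Some `x ∈ D` has the same inner products with `F` as `q`
(it is on the segment from a point of `D` at height `s` to `(s+R) e`). `ray_skel` gives `σ, x'`.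
`⟪x' - q, z - q⟫ = σ ⟪N, z - q⟫ ≤ 0` for `z ∈ T`: `⟪N, cpt e J s R t' z⟫ ≤ ⟪ν,y⟫ (1 + s/R)` with
equality at `q`; so `q` is the point of `T` nearest to `x'`. If `‖x' - c j‖ ≤ 1` then, nearest
point maps being contractions, `‖q - b‖ ≤ 1`. Finally `σ ≤ K` (`f = J ν`:
`⟪J ν, x'⟫ ≤ ‖perp e x'‖ ≤ K`, `⟪J ν, q⟫ ≥ 0`), so `0 ≤ ⟪e, x' - q⟫ = σ ⟪ν,y⟫ / R ≤ K²/R ≤ 1/2`. -/
theorem tube_cover [FiniteDimensional ℝ E] {n : ℕ} {D : Set E} (hD : Body D) {c : Fin n → E}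
    (hc : skel 2 D ⊆ ⋃ j, closedBall (c j) 1) {e : E} (he : ‖e‖ = 1) {J : ℂ →ₗᵢ[ℝ] E}
    (hJ : ∀ z, ⟪e, J z⟫_ℝ = 0) {s R M K : ℝ} (hM : 0 < M) (hMR : M + 1 ≤ R)
    (hKR : 2 * K ^ 2 ≤ R) (h0 : s • e ∈ D) (h1 : (s + R) • e ∈ D)
    (hK : ∀ x ∈ D, ‖perp e x‖ ≤ K) :
    ∃ b : Fin n → ℝ × ℂ, (∀ j, b j ∈ Icc 0 R ×ˢ slc D e J s) ∧
      ∀ y ∈ frontier (slc D e J s), ∀ t ∈ Icc 0 M, ∃ j, s - 1 ≤ ⟪e, c j⟫_ℝ ∧
        ⟪e, c j⟫_ℝ ≤ s + M + 2 ∧ ‖cpt e J s R t y - cpt e J s R (b j).1 (b j).2‖ ≤ 1 := by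
  classical
  have hR : 0 < R := by linarith
  set C := slc D e J s with hC
  have hCc : IsCompact C := t4_slc_compact hD e J s
  have hCv : Convex ℝ C := t4_slc_convex hD e J s
  have hJe : ∀ z, ⟪J z, e⟫_ℝ = 0 := fun z => by rw [real_inner_comm]; exact hJ z
  have h0C : (0 : ℂ) ∈ C := by
    refine ⟨s • e, ⟨h0, ?_⟩, ?_⟩
    · change ⟪e, s • e⟫_ℝ = s
      rw [inner_smul_right, real_inner_self_eq_norm_sq, he]
      ring
    · rw [t4_proj2_smul]
      unfold proj2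
      rw [hJe, hJe]
      simp
  set T : Set E := (fun q : ℝ × ℂ => cpt e J s R q.1 q.2) '' (Icc 0 R ×ˢ C) with hT
  have hTc : IsCompact T := cone_compact e J hCc s R
  have hTv : Convex ℝ T := cone_convex e J hCv s hR
  have hTn : T.Nonempty := ⟨_, (0, 0), ⟨⟨le_rfl, hR.le⟩, h0C⟩, rfl⟩
  -- the nearest points
  have hb : ∀ j, ∃ b : ℝ × ℂ, b ∈ Icc 0 R ×ˢ C ∧
      ∀ w ∈ T, ⟪c j - cpt e J s R b.1 b.2, w - cpt e J s R b.1 b.2⟫_ℝ ≤ 0 := by
    intro j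
    obtain ⟨v, hv, hv'⟩ := exists_norm_eq_iInf_of_complete_convex hTn hTc.isComplete hTv (c j)
    have h2 := (norm_eq_iInf_iff_real_inner_le_zero hTv hv).1 hv'
    obtain ⟨b, hb, rfl⟩ := hv
    exact ⟨b, hb, h2⟩
  choose b hbm hbn using hb
  refine ⟨b, hbm, fun y hy t ht => ?_⟩
  have hyC : y ∈ C := hCc.isClosed.frontier_subset hy
  obtain ⟨ν, hν, hνC⟩ := exists_normal hCc hCv hy
  set a : ℝ := ⟪ν, y⟫_ℝ with ha
  have ha0 : 0 ≤ a := by
    have := hνC 0 h0C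
    rwa [inner_zero_right] at this
  obtain ⟨z₀, ⟨hz₀, hz₀'⟩, hz₀y⟩ := id hyC
  have hz₀e : ⟪e, z₀⟫_ℝ = s := hz₀'
  have htR : t ≤ R := by linarith [ht.2]
  have htR1 : 0 ≤ 1 - t / R := by
    rw [sub_nonneg, div_le_one hR]
    exact htR
  set N : E := (a / R) • e + J ν with hN
  set F : Submodule ℝ E := Submodule.span ℝ (Set.range ![e, J 1, J Complex.I]) with hF
  have hFr : Module.finrank ℝ F ≤ 3 := by
    have h := finrank_range_le_card (R := ℝ) ![e, J 1, J Complex.I]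
    rw [Fintype.card_fin] at h
    exact h
  have heF : e ∈ F := Submodule.subset_span ⟨0, rfl⟩
  have h1F : J 1 ∈ F := Submodule.subset_span ⟨1, rfl⟩
  have hIF : J Complex.I ∈ F := Submodule.subset_span ⟨2, rfl⟩
  have hJF : ∀ ζ : ℂ, J ζ ∈ F := by
    intro ζ
    have hζ : ζ = ζ.re • (1 : ℂ) + ζ.im • Complex.I := by
      apply Complex.ext <;> simp
    rw [hζ, map_add, map_smul, map_smul]
    exact F.add_mem (F.smul_mem _ h1F) (F.smul_mem _ hIF)
  have hNF : N ∈ F := F.add_mem (F.smul_mem _ heF) (hJF ν)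
  have hNν : ∀ ζ : ℂ, ⟪J ζ, N⟫_ℝ = ⟪ζ, ν⟫_ℝ := by
    intro ζ
    rw [hN, inner_add_right, inner_smul_right, hJe, J.inner_map_map]
    ring
  have hNe : ⟪e, N⟫_ℝ = a / R := by
    rw [hN, inner_add_right, inner_smul_right, hJ, real_inner_self_eq_norm_sq, he]
    ring
  have hνν : ⟪ν, ν⟫_ℝ = 1 := by
    rw [real_inner_self_eq_norm_sq, hν]
    norm_num
  have hN0 : N ≠ 0 := by
    intro h
    have := hNν ν
    rw [h, inner_zero_right, hνν] at this
    exact zero_ne_one this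
  -- the point `x`
  set x : E := (1 - t / R) • z₀ + (t / R) • ((s + R) • e) with hx
  have htR0 : 0 ≤ t / R := div_nonneg ht.1 hR.le
  have hxD : x ∈ D := hD.conv hz₀ h1 htR1 htR0 (by ring)
  have hxe : ⟪e, x⟫_ℝ = s + t := by
    rw [hx, inner_add_right, inner_smul_right, inner_smul_right, inner_smul_right, hz₀e,
      real_inner_self_eq_norm_sq, he]
    field_simp
    ring
  have hxJ : ∀ ζ : ℂ, ⟪J ζ, x⟫_ℝ = (1 - t / R) * ⟪ζ, y⟫_ℝ := by
    intro ζ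
    rw [hx, inner_add_right, inner_smul_right, inner_smul_right, inner_smul_right, hJe,
      t4_inner_J, hz₀y]
    ring
  obtain ⟨σ, hσ, x', hx', hf⟩ := ray_skel hD F hFr hNF hN0 hxD
  have hx'D : x' ∈ D := hx'.1
  have hfe : ⟪e, x'⟫_ℝ = s + t + σ * (a / R) := by rw [hf e heF, hxe, hNe]
  have hfJ : ∀ ζ : ℂ, ⟪J ζ, x'⟫_ℝ = (1 - t / R) * ⟪ζ, y⟫_ℝ + σ * ⟪ζ, ν⟫_ℝ := by
    intro ζ
    rw [hf _ (hJF ζ), hxJ, hNν]
  obtain ⟨j, hj⟩ := Set.mem_iUnion.1 (hc hx')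
  have hj1 : ‖x' - c j‖ ≤ 1 := by
    rw [mem_closedBall, dist_eq_norm] at hj
    exact hj
  set q : E := cpt e J s R t y with hq
  have hqT : q ∈ T := ⟨(t, y), ⟨⟨ht.1, htR⟩, hyC⟩, rfl⟩
  -- `q` is the nearest point to `x'`
  have hqn : ∀ z ∈ T, ⟪x' - q, z - q⟫_ℝ ≤ 0 := by
    rintro _ ⟨⟨t', w⟩, ⟨ht', hw⟩, rfl⟩
    have hw' : w ∈ C := hw
    have ht'1 : 0 ≤ 1 - t' / R := by
      rw [sub_nonneg, div_le_one hR]
      exact ht'.2
    have e1 : cpt e J s R t' w - q = (t' - t) • e + J ((1 - t' / R) • w - (1 - t / R) • y) := by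
      rw [hq]
      unfold cpt
      rw [map_sub]
      module
    have e2 : ⟪x' - q, cpt e J s R t' w - q⟫_ℝ =
        σ * ((t' - t) * (a / R) + ((1 - t' / R) * ⟪ν, w⟫_ℝ - (1 - t / R) * a)) := by
      rw [e1, real_inner_comm, inner_sub_right, inner_add_left, inner_add_left,
        real_inner_smul_left, real_inner_smul_left, hfe, hfJ, hq, t4_inner_e he hJ,
        t4_inner_Jc hJ, inner_sub_left (E := ℂ) _ _ ν, real_inner_smul_left,
        real_inner_smul_left, real_inner_comm ν w, real_inner_comm ν y]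
      ring
    change ⟪x' - q, cpt e J s R t' w - q⟫_ℝ ≤ 0
    rw [e2]
    have h3 := mul_le_mul_of_nonneg_left (hνC w hw') ht'1
    have h4 : (t' - t) * (a / R) + ((1 - t' / R) * ⟪ν, w⟫_ℝ - (1 - t / R) * a) ≤ 0 := by
      have h5 : (t' - t) * (a / R) + ((1 - t' / R) * a - (1 - t / R) * a) = 0 := by
        field_simp
        ring
      linarith
    exact mul_nonpos_of_nonneg_of_nonpos hσ h4
  refine ⟨j, ?_, ?_, ?_⟩
  · have h3 := abs_real_inner_le_norm e (x' - c j)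
    rw [he, one_mul, inner_sub_right, hfe] at h3
    have h4 := (abs_le.1 (h3.trans hj1)).2
    have h5 : 0 ≤ σ * (a / R) := mul_nonneg hσ (div_nonneg ha0 hR.le)
    linarith [ht.1]
  · have h3 := abs_real_inner_le_norm e (x' - c j)
    rw [he, one_mul, inner_sub_right, hfe] at h3
    have h4 := (abs_le.1 (h3.trans hj1)).1
    -- the bound for `σ`
    have hper : ∀ z ∈ D, ⟪J ν, z⟫_ℝ ≤ K := by
      intro z hz
      have e1 : ⟪J ν, z⟫_ℝ = ⟪J ν, perp e z⟫_ℝ := by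
        unfold perp
        rw [inner_sub_right, inner_smul_right, hJe]
        ring
      rw [e1]
      refine (real_inner_le_norm _ _).trans ?_
      rw [J.norm_map, hν, one_mul]
      exact hK z hz
    have hσK : σ ≤ K := by
      have h5 := hper x' hx'D
      rw [hfJ, hνν] at h5
      have h6 : 0 ≤ (1 - t / R) * ⟪ν, y⟫_ℝ := mul_nonneg htR1 ha0
      linarith
    have haK : a ≤ K := by
      have h5 := hper z₀ hz₀
      rw [t4_inner_J, hz₀y] at h5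
      exact h5
    have h7 : σ * (a / R) ≤ 1 / 2 := by
      have h8 : σ * a ≤ K * K := mul_le_mul hσK haK ha0 (hσ.trans hσK)
      rw [← mul_div_assoc, div_le_div_iff₀ hR two_pos]
      nlinarith
    linarith [ht.2]
  · exact (t4_contr (hqn _ ⟨b j, hbm j, rfl⟩) (hbn j q hqT)).trans hj1

end S0

end Pool.Agent.Saus2
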