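import Pool.Agent.Saus2.DefsC

/-!
# Saus2, package T5: interval lengths
-/

namespace Pool.Agent.Saus2

open MeasureTheory ProbabilityTheory Set Metric Filter Topology Real
open scoped InnerProductSpace
open Pool.Agent.Sausage27 (Eu Body skel hS betaV)

section S0

variable {E : Type*} [NormedAddCommGroup E] [InnerProductSpace ℝ E]

/-- T5. Length of the part of a line on the cone within distance `1` of a point of the cone. Put
`h = t - τ`, `a = 1 - τ/R`. The difference is `h (e - J y / R) + a J (y - z)`, of square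
`A h² - 2 B h + G`, `A = 1 + ‖y‖²/R²`, `B = (a/R) ⟪y, y - z⟫`, `G = a² ‖y - z‖²`. If the set is
nonempty then `|h| ≤ 1` for some `t ≤ M`, so `a ≥ 1 - (M+1)/R ≥ 0`. The solutions `h` form an
interval of length `2 √((1 - (G - B²/A)) / A) ≤ 2 √(1 - (G - B²/A))`, and
`G - B²/A ≥ G / A ≥ (r0 ‖y - z‖)²`. -/
theorem interval_len {e : E} (he : ‖e‖ = 1) {J : ℂ →ₗᵢ[ℝ] E} (hJ : ∀ z, ⟪e, J z⟫_ℝ = 0)
    {s R M K : ℝ} (hM : 0 ≤ M) (hMR : M + 1 ≤ R) {y z : ℂ} (hy : ‖y‖ ≤ K) {τ : ℝ}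
    (hτ : τ ∈ Icc 0 R) :
    (volume {t : ℝ | t ∈ Icc 0 M ∧ ‖cpt e J s R t y - cpt e J s R τ z‖ ≤ 1}).toReal ≤
      2 * √(1 - ‖(r0 M R K : ℂ) * y - (r0 M R K : ℂ) * z‖ ^ 2) := by
  have hR : 0 < R := by linarith
  have hwe : ‖(r0 M R K : ℂ) * y - (r0 M R K : ℂ) * z‖ ^ 2 = r0 M R K ^ 2 * ‖y - z‖ ^ 2 := by
    rw [← mul_sub, norm_mul, Complex.norm_real, Real.norm_eq_abs, mul_pow, sq_abs]
  rw [hwe]
  have hr0 : r0 M R K ^ 2 = (1 - (M + 1) / R) ^ 2 / (1 + K ^ 2 / R ^ 2) := by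
    unfold r0
    rw [div_pow, Real.sq_sqrt (by positivity)]
  obtain ⟨w, hw⟩ : ∃ w : ℝ, w = 1 - r0 M R K ^ 2 * ‖y - z‖ ^ 2 := ⟨_, rfl⟩
  rw [← hw]
  obtain ⟨A, hA⟩ : ∃ A : ℝ, A = 1 + ‖y‖ ^ 2 / R ^ 2 := ⟨_, rfl⟩
  obtain ⟨a, ha⟩ : ∃ a : ℝ, a = 1 - τ / R := ⟨_, rfl⟩
  obtain ⟨P, hP⟩ : ∃ P : ℝ, P = ⟪y, y - z⟫_ℝ := ⟨_, rfl⟩
  obtain ⟨B, hB⟩ : ∃ B : ℝ, B = a / R * P := ⟨_, rfl⟩
  have hA1 : 1 ≤ A := by
    rw [hA]
    have : 0 ≤ ‖y‖ ^ 2 / R ^ 2 := by positivity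
    linarith
  have hA0 : 0 < A := by linarith
  have hPsq : P ^ 2 ≤ ‖y‖ ^ 2 * ‖y - z‖ ^ 2 := by
    rw [← mul_pow, hP]
    exact sq_le_sq' (neg_le_of_abs_le (abs_real_inner_le_norm _ _))
      (le_of_abs_le (abs_real_inner_le_norm _ _))
  have key : ∀ t, t ∈ Icc 0 M → ‖cpt e J s R t y - cpt e J s R τ z‖ ≤ 1 →
      t ∈ Icc (τ + B / A - √w) (τ + B / A + √w) := by
    intro t ht hn
    obtain ⟨h, hh⟩ : ∃ h : ℝ, h = t - τ := ⟨_, rfl⟩
    have e1 : cpt e J s R t y - cpt e J s R τ z =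
        h • e + J (a • (y - z) - (h / R) • y) := by
      have e2 : a • (y - z) - (h / R) • y = (1 - t / R) • y - (1 - τ / R) • z := by
        rw [ha, hh, sub_div]
        module
      rw [e2, hh, map_sub]
      unfold cpt
      module
    have e3 : ‖cpt e J s R t y - cpt e J s R τ z‖ ^ 2 =
        h ^ 2 + (a ^ 2 * ‖y - z‖ ^ 2 - 2 * (a * (h / R) * P) + (h / R) ^ 2 * ‖y‖ ^ 2) := by
      rw [e1, norm_add_sq_real, real_inner_smul_left, hJ, mul_zero, mul_zero, add_zero,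
        norm_smul, he, mul_one, Real.norm_eq_abs, sq_abs, J.norm_map, norm_sub_sq_real,
        real_inner_smul_left, real_inner_smul_right, real_inner_comm, ← hP, norm_smul, norm_smul,
        mul_pow, mul_pow, Real.norm_eq_abs, Real.norm_eq_abs, sq_abs, sq_abs]
      ring
    have e4 : ‖cpt e J s R t y - cpt e J s R τ z‖ ^ 2 ≤ 1 := by
      have := norm_nonneg (cpt e J s R t y - cpt e J s R τ z)
      nlinarith
    have e5 : h ^ 2 ≤ 1 := by
      have h1 : 0 ≤ ‖a • (y - z) - (h / R) • y‖ ^ 2 := sq_nonneg _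
      have h2 : ‖a • (y - z) - (h / R) • y‖ ^ 2 =
          a ^ 2 * ‖y - z‖ ^ 2 - 2 * (a * (h / R) * P) + (h / R) ^ 2 * ‖y‖ ^ 2 := by
        rw [norm_sub_sq_real, real_inner_smul_left, real_inner_smul_right, real_inner_comm,
          ← hP, norm_smul, norm_smul, mul_pow, mul_pow, Real.norm_eq_abs, Real.norm_eq_abs,
          sq_abs, sq_abs]
        ring
      rw [h2] at h1
      linarith
    have e6 : -1 ≤ h := by nlinarith
    have haM : 1 - (M + 1) / R ≤ a := by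
      rw [ha]
      have : τ / R ≤ (M + 1) / R := by
        apply div_le_div_of_nonneg_right _ hR.le
        have := ht.2
        linarith
      linarith
    have hM0 : 0 ≤ 1 - (M + 1) / R := by
      have : (M + 1) / R ≤ 1 := (div_le_one hR).2 hMR
      linarith
    -- the completed square
    have e7 : A * h ^ 2 - 2 * B * h + a ^ 2 * ‖y - z‖ ^ 2 ≤ 1 := by
      rw [e3] at e4
      have : A * h ^ 2 - 2 * B * h + a ^ 2 * ‖y - z‖ ^ 2 =
          h ^ 2 + (a ^ 2 * ‖y - z‖ ^ 2 - 2 * (a * (h / R) * P) + (h / R) ^ 2 * ‖y‖ ^ 2) := by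
        rw [hA, hB]
        field_simp
        ring
      rw [this]
      exact e4
    have e8 : B ^ 2 ≤ a ^ 2 * ‖y - z‖ ^ 2 * (A - 1) := by
      have h1 : B ^ 2 = a ^ 2 / R ^ 2 * P ^ 2 := by
        rw [hB]
        ring
      have h2 : a ^ 2 * ‖y - z‖ ^ 2 * (A - 1) = a ^ 2 / R ^ 2 * (‖y‖ ^ 2 * ‖y - z‖ ^ 2) := by
        rw [hA]
        ring
      rw [h1, h2]
      exact mul_le_mul_of_nonneg_left hPsq (by positivity)
    have e9 : r0 M R K ^ 2 * ‖y - z‖ ^ 2 * A ≤ a ^ 2 * ‖y - z‖ ^ 2 := by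
      have h1 : r0 M R K ^ 2 * A ≤ a ^ 2 := by
        rw [hr0, div_mul_eq_mul_div, div_le_iff₀ (by positivity)]
        have h2 : A ≤ 1 + K ^ 2 / R ^ 2 := by
          rw [hA]
          have h3 : ‖y‖ ^ 2 ≤ K ^ 2 := pow_le_pow_left₀ (norm_nonneg _) hy 2
          have h4 := div_le_div_of_nonneg_right h3 (sq_nonneg R)
          linarith
        exact mul_le_mul (pow_le_pow_left₀ hM0 haM 2) h2 hA0.le (sq_nonneg _)
      calc r0 M R K ^ 2 * ‖y - z‖ ^ 2 * A = r0 M R K ^ 2 * A * ‖y - z‖ ^ 2 := by ring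
        _ ≤ a ^ 2 * ‖y - z‖ ^ 2 := mul_le_mul_of_nonneg_right h1 (sq_nonneg _)
    have e10 : (h - B / A) ^ 2 ≤ w := by
      have h1 : A * (A * (h - B / A) ^ 2) ≤ A * w := by
        have h2 : A * (A * (h - B / A) ^ 2) = A * (A * h ^ 2 - 2 * B * h) + B ^ 2 := by
          field_simp
          ring
        rw [h2, hw]
        have h3 := mul_le_mul_of_nonneg_left e7 hA0.le
        nlinarith
      have h2 : A * (h - B / A) ^ 2 ≤ w := le_of_mul_le_mul_left h1 hA0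
      have h3 : 0 ≤ (h - B / A) ^ 2 := sq_nonneg _
      nlinarith
    have e11 := Real.abs_le_sqrt e10
    rw [abs_le] at e11
    constructor
    · have := e11.1
      linarith
    · have := e11.2
      linarith
  calc (volume {t : ℝ | t ∈ Icc 0 M ∧ ‖cpt e J s R t y - cpt e J s R τ z‖ ≤ 1}).toReal ≤
      (volume (Icc (τ + B / A - √w) (τ + B / A + √w))).toReal := by
        refine ENNReal.toReal_mono ?_ (measure_mono fun t ht => key t ht.1 ht.2)
        rw [Real.volume_Icc]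
        exact ENNReal.ofReal_ne_top
    _ = 2 * √w := by
        rw [Real.volume_Icc, ENNReal.toReal_ofReal]
        · ring
        · have := Real.sqrt_nonneg w
          linarith

end S0

end Pool.Agent.Saus2
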