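import Pool.Agent.Saus2.DefsC
import Pool.Agent.Saus2.Planar
import Pool.Agent.Saus2.T4
import Pool.Agent.Saus2.T5
import Pool.Agent.Saus2.S2

/-!
# Saus2, package T6: the tube lemma
-/

namespace Pool.Agent.Saus2

open MeasureTheory ProbabilityTheory Set Metric Filter Topology Real
open scoped InnerProductSpace
open Pool.Agent.Sausage27 (Eu Body skel hS betaV)

section S0

variable {E : Type*} [NormedAddCommGroup E] [InnerProductSpace ℝ E] [FiniteDimensional ℝ E]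

/-- `J` in coordinates. -/
private theorem T6_J (J : ℂ →ₗᵢ[ℝ] E) (z : ℂ) : J z = z.re • J 1 + z.im • J Complex.I := by
  rw [← J.map_smul, ← J.map_smul, ← J.map_add]
  congr 1
  apply Complex.ext <;> simp

private theorem T6_re (J : ℂ →ₗᵢ[ℝ] E) (x : E) : (proj2 J x).re = ⟪J 1, x⟫_ℝ := by
  unfold proj2
  simp

private theorem T6_im (J : ℂ →ₗᵢ[ℝ] E) (x : E) : (proj2 J x).im = ⟪J Complex.I, x⟫_ℝ := by
  unfold proj2
  simp

private theorem T6_norm (J : ℂ →ₗᵢ[ℝ] E) (x : E) : ‖proj2 J x‖ ≤ ‖x‖ := by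
  have h1 : ‖proj2 J x‖ ^ 2 = ⟪J (proj2 J x), x⟫_ℝ := by
    rw [T6_J J (proj2 J x), inner_add_left, real_inner_smul_left, real_inner_smul_left, T6_re,
      T6_im, Complex.sq_norm, Complex.normSq_apply, T6_re, T6_im]
  have h2 : ⟪J (proj2 J x), x⟫_ℝ ≤ ‖J (proj2 J x)‖ * ‖x‖ := real_inner_le_norm _ _
  rw [J.norm_map] at h2
  rcases eq_or_lt_of_le (norm_nonneg (proj2 J x)) with h3 | h3
  · rw [← h3]
    exact norm_nonneg x
  · nlinarith

private theorem T6_cont (J : ℂ →ₗᵢ[ℝ] E) : Continuous (proj2 J) := by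
  unfold proj2
  fun_prop

private theorem T6_lin (J : ℂ →ₗᵢ[ℝ] E) (a b : ℝ) (x y : E) :
    proj2 J (a • x + b • y) = a • proj2 J x + b • proj2 J y := by
  apply Complex.ext
  · simp only [T6_re, inner_add_right, real_inner_smul_right, Complex.add_re, Complex.real_smul,
      Complex.mul_re, Complex.ofReal_re, Complex.ofReal_im]
    ring
  · simp only [T6_im, inner_add_right, real_inner_smul_right, Complex.add_im, Complex.real_smul,
      Complex.mul_im, Complex.ofReal_re, Complex.ofReal_im]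
    ring

private theorem T6_slc {D : Set E} (hD : Body D) (e : E) (J : ℂ →ₗᵢ[ℝ] E) (s : ℝ) :
    IsCompact (slc D e J s) ∧ Convex ℝ (slc D e J s) := by
  have hcl : IsClosed {z : E | ⟪e, z⟫_ℝ = s} :=
    isClosed_eq (by fun_prop) continuous_const
  refine ⟨(hD.comp.inter_right hcl).image (T6_cont J), ?_⟩
  rintro _ ⟨x, ⟨hx, hxs⟩, rfl⟩ _ ⟨y, ⟨hy, hys⟩, rfl⟩ a b ha hb hab
  refine ⟨a • x + b • y, ⟨hD.conv hx hy ha hb hab, ?_⟩, T6_lin J a b x y⟩
  simp only [mem_ofPred_eq] at hxs hys ⊢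
  rw [inner_add_right, real_inner_smul_right, real_inner_smul_right, hxs, hys, ← add_mul, hab,
    one_mul]

private theorem T6_perp {e : E} {J : ℂ →ₗᵢ[ℝ] E} (hJ : ∀ z, ⟪e, J z⟫_ℝ = 0) (x : E) :
    proj2 J x = proj2 J (perp e x) := by
  have h : ∀ z, ⟪J z, e⟫_ℝ = 0 := fun z => by rw [real_inner_comm]; exact hJ z
  apply Complex.ext
  · rw [T6_re, T6_re, perp, inner_sub_right, real_inner_smul_right, h, mul_zero, sub_zero]
  · rw [T6_im, T6_im, perp, inner_sub_right, real_inner_smul_right, h, mul_zero, sub_zero]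

/-- T6. Apply `planar` to `r0 • slc D e J s` with the points `r0 * (b j).2` (`b` from
`tube_cover`), `j` in the filter: for `y` in the frontier of the slice, the sets
`{t ∈ Icc 0 M | ‖cpt .. t y - cpt .. (b j)‖ ≤ 1}` with `j` in the filter cover `Icc 0 M`, and
their lengths are bounded by `interval_len`. `kap_smul`. -/
theorem tube_count {n : ℕ} {D : Set E} (hD : Body D) {c : Fin n → E}
    (hc : skel 2 D ⊆ ⋃ j, closedBall (c j) 1) {e : E} (he : ‖e‖ = 1) {J : ℂ →ₗᵢ[ℝ] E}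
    (hJ : ∀ z, ⟪e, J z⟫_ℝ = 0) {s R M K : ℝ} (hM : 0 < M) (hMR : M + 1 < R)
    (hKR : 2 * K ^ 2 ≤ R) (h0 : s • e ∈ D) (h1 : (s + R) • e ∈ D)
    (hK : ∀ x ∈ D, ‖perp e x‖ ≤ K) :
    M * (r0 M R K * kap (slc D e J s)) ≤
      ((Finset.univ.filter (fun j => s - 1 ≤ ⟪e, c j⟫_ℝ ∧ ⟪e, c j⟫_ℝ ≤ s + M + 2)).card : ℝ) := by
  classical
  have hR : 0 < R := by linarith
  obtain ⟨hCc, hCv⟩ := T6_slc hD e J s
  obtain ⟨C, hC⟩ : ∃ C, C = slc D e J s := ⟨_, rfl⟩
  obtain ⟨r, hr⟩ : ∃ r, r = r0 M R K := ⟨_, rfl⟩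
  have hr0 : 0 < r := by
    rw [hr]
    unfold r0
    have h2 : (M + 1) / R < 1 := by
      rw [div_lt_one hR]
      exact hMR
    have h3 : 0 < √(1 + K ^ 2 / R ^ 2) := Real.sqrt_pos.2 (by positivity)
    exact div_pos (by linarith) h3
  obtain ⟨b, hb, hcov⟩ := tube_cover hD hc he hJ hM hMR.le hKR h0 h1 hK
  rw [← hC] at hCc hCv hb hcov ⊢
  rw [← hr]
  have hCne : C.Nonempty := by
    rw [hC]
    refine ⟨_, s • e, ⟨h0, ?_⟩, rfl⟩
    simp only [mem_ofPred_eq]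
    rw [real_inner_smul_right, real_inner_self_eq_norm_sq, he, one_pow, mul_one]
  have hCK : ∀ y ∈ C, ‖y‖ ≤ K := by
    intro y hy
    rw [hC] at hy
    obtain ⟨x, ⟨hx, _⟩, rfl⟩ := hy
    rw [T6_perp hJ]
    exact (T6_norm J _).trans (hK x hx)
  obtain ⟨S, hS⟩ : ∃ S : Finset (Fin n), S = Finset.univ.filter
    (fun j => s - 1 ≤ ⟪e, c j⟫_ℝ ∧ ⟪e, c j⟫_ℝ ≤ s + M + 2) := ⟨_, rfl⟩
  rw [← hS]
  have hrC : (r : ℂ) ≠ 0 := by exact_mod_cast hr0.ne'
  have hk := kap_smul hCc hCne hr0.le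
  have hcomp : IsCompact ((fun z : ℂ => (r : ℂ) * z) '' C) :=
    hCc.image (by fun_prop)
  have hconv : Convex ℝ ((fun z : ℂ => (r : ℂ) * z) '' C) := by
    rintro _ ⟨x, hx, rfl⟩ _ ⟨y, hy, rfl⟩ a b' ha hb' hab
    refine ⟨a • x + b' • y, hCv hx hy ha hb' hab, ?_⟩
    simp only [Complex.real_smul]
    ring
  have hp := planar hcomp hconv (hCne.image _)
    (fun i : Fin S.card => (r : ℂ) * (b (S.equivFin.symm i)).2) hM (by
      intro x hx
      have hfr : x ∈ (fun z : ℂ => (r : ℂ) * z) '' frontier C := by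
        have h2 := (Homeomorph.mulLeft₀ (r : ℂ) hrC).image_frontier C
        have h3 : ((Homeomorph.mulLeft₀ (r : ℂ) hrC) : ℂ → ℂ) = fun z : ℂ => (r : ℂ) * z := rfl
        rw [h3] at h2
        rw [h2]
        exact hx
      obtain ⟨y, hy, rfl⟩ := hfr
      have hyC : y ∈ C := hCc.isClosed.frontier_subset hy
      have h4 : Icc (0 : ℝ) M ⊆ ⋃ j ∈ S, {t : ℝ | t ∈ Icc 0 M ∧
          ‖cpt e J s R t y - cpt e J s R (b j).1 (b j).2‖ ≤ 1} := by
        intro t ht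
        obtain ⟨j, hj1, hj2, hj3⟩ := hcov y hy t ht
        rw [mem_iUnion₂]
        refine ⟨j, ?_, ht, hj3⟩
        rw [hS, Finset.mem_filter]
        exact ⟨Finset.mem_univ _, hj1, hj2⟩
      have h5 : ENNReal.ofReal M ≤ ∑ j ∈ S, volume {t : ℝ | t ∈ Icc 0 M ∧
          ‖cpt e J s R t y - cpt e J s R (b j).1 (b j).2‖ ≤ 1} := by
        have h6 := (measure_mono h4).trans (measure_biUnion_finset_le (μ := volume) S _)
        rwa [Real.volume_Icc, sub_zero] at h6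
      have h6 : ∀ j ∈ S, volume {t : ℝ | t ∈ Icc 0 M ∧
          ‖cpt e J s R t y - cpt e J s R (b j).1 (b j).2‖ ≤ 1} ≠ ⊤ := by
        intro j _
        have h7 : volume {t : ℝ | t ∈ Icc 0 M ∧
            ‖cpt e J s R t y - cpt e J s R (b j).1 (b j).2‖ ≤ 1} ≤ volume (Icc (0 : ℝ) M) :=
          measure_mono fun t ht => ht.1
        rw [Real.volume_Icc] at h7
        exact (h7.trans_lt ENNReal.ofReal_lt_top).ne
      have h7 : M ≤ ∑ j ∈ S, (volume {t : ℝ | t ∈ Icc 0 M ∧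
          ‖cpt e J s R t y - cpt e J s R (b j).1 (b j).2‖ ≤ 1}).toReal := by
        rw [← ENNReal.toReal_sum h6]
        rw [← ENNReal.ofReal_le_iff_le_toReal]
        · exact h5
        · exact ENNReal.sum_ne_top.2 h6
      refine h7.trans ?_
      have h8 : ∑ i : Fin S.card, 2 * √(1 - ‖(r : ℂ) * y - (r : ℂ) *
          (b (S.equivFin.symm i)).2‖ ^ 2) =
          ∑ j ∈ S, 2 * √(1 - ‖(r : ℂ) * y - (r : ℂ) * (b j).2‖ ^ 2) := by
        rw [← Finset.sum_coe_sort S (fun j => 2 * √(1 - ‖(r : ℂ) * y - (r : ℂ) * (b j).2‖ ^ 2))]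
        exact Equiv.sum_comp S.equivFin.symm (fun j : S => 2 * √(1 - ‖(r : ℂ) * y - (r : ℂ) *
          (b j).2‖ ^ 2))
      rw [h8]
      refine Finset.sum_le_sum fun j _ => ?_
      have h9 := interval_len he hJ (s := s) (z := (b j).2) hM.le hMR.le (hCK y hyC)
        (hb j).1
      rw [← hr] at h9
      exact h9)
  rw [hk] at hp
  exact hp

end S0

end Pool.Agent.Saus2
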