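import Pool.Agent.Saus2.DefsC
import Pool.Agent.Saus2.G3
import Pool.Agent.Saus2.G4
import Pool.Agent.Saus2.GI
import Pool.Agent.Saus2.K5
import Pool.Agent.Saus2.S2

/-!
# Saus2, package T7: mean area of a block
-/

namespace Pool.Agent.Saus2

open MeasureTheory ProbabilityTheory Set Metric Filter Topology Real
open scoped InnerProductSpace
open Pool.Agent.Sausage27 (Eu Body skel hS betaV)

section S0

variable {E : Type*} [NormedAddCommGroup E] [InnerProductSpace ℝ E] [FiniteDimensional ℝ E]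
  [MeasurableSpace E] [BorelSpace E]

omit [FiniteDimensional ℝ E] [MeasurableSpace E] [BorelSpace E] in
private theorem continuous_perp_T7 (e : E) : Continuous (perp e) := by
  unfold perp
  fun_prop

private theorem symm_T7 {f : E → ℝ} (hf : Continuous f) (e : E) :
    ∫ x, f (-(perp e x)) ∂(stdGaussian E) = ∫ x, f (perp e x) ∂(stdGaussian E) := by
  have h1 : (stdGaussian E).map (LinearIsometryEquiv.neg ℝ : E ≃ₗᵢ[ℝ] E) = stdGaussian E :=
    stdGaussian_map _
  have h3 : ∫ x, f (perp e x) ∂((stdGaussian E).map (LinearIsometryEquiv.neg ℝ : E ≃ₗᵢ[ℝ] E)) =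
      ∫ x, f (perp e ((LinearIsometryEquiv.neg ℝ : E ≃ₗᵢ[ℝ] E) x)) ∂(stdGaussian E) :=
    integral_map (LinearIsometryEquiv.continuous _).measurable.aemeasurable
      (hf.comp (continuous_perp_T7 e)).aestronglyMeasurable
  rw [h1] at h3
  rw [h3]
  refine integral_congr_ae (Filter.Eventually.of_forall fun x => ?_)
  have h2 : perp e (-x) = -(perp e x) := by
    unfold perp
    rw [inner_neg_right, neg_smul]
    abel
  show f (-(perp e x)) = f (perp e (-x))
  rw [h2]

omit [FiniteDimensional ℝ E] [MeasurableSpace E] [BorelSpace E] in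
private theorem slc_T7 {D : Set E} (hD : Body D) {e : E} (he : ‖e‖ = 1) {s : ℝ}
    (hse : s • e ∈ D) (J : ℂ →ₗᵢ[ℝ] E) :
    IsCompact (slc D e J s) ∧ (slc D e J s).Nonempty := by
  have hcl : IsClosed {z : E | ⟪e, z⟫_ℝ = s} :=
    isClosed_eq (continuous_const.inner continuous_id) continuous_const
  have hcont : Continuous (proj2 J) := by
    unfold proj2
    fun_prop
  refine ⟨(hD.comp.inter_right hcl).image hcont, ⟨proj2 J (s • e), s • e, ⟨hse, ?_⟩, rfl⟩⟩
  show ⟪e, s • e⟫_ℝ = s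
  rw [real_inner_smul_right, real_inner_self_eq_norm_sq, he]
  ring

/-- T7. `nrm_mean` for `z ↦ hS (sec ..) z` and `z ↦ hS (sec ..) (-z)` (equal means by the symmetry
of the Gaussian measure), `great_circle_perp`, `gauss_perp`, `proj2_sec`, `kap_smul`,
`norm_mul_mean`; `2 √(π/2) / √(2π) = 1`. -/
theorem block_mean {d : ℕ} (hd : 3 ≤ d) (hE : Module.finrank ℝ E = d) {D : Set E} (hD : Body D)
    {e : E} (he : ‖e‖ = 1) {s M : ℝ} (hs : 0 < s) (hM : 0 < M) (hse : s • e ∈ D) (κ : ℝ)
    (hκ : 0 ≤ κ) :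
    ∃ J : ℂ →ₗᵢ[ℝ] E, (∀ z, ⟪e, J z⟫_ℝ = 0) ∧
      ∫ p : E × E, (κ * (‖p.1‖ * ‖p.2‖) +
        M * (hS (sec D e s M) (nrm e p) + hS (sec D e s M) (-nrm e p)))
        ∂((stdGaussian E).prod (stdGaussian E)) ≤
      κ * d + M * (1 + M / s) * betaV d * kap (slc D e J s) := by
  have hK : Body (sec D e s M) := sec_body hD he hse
  obtain ⟨J, hJ, hI⟩ := great_circle_perp (E := E) (by rw [hE]; exact hd) he hK
  refine ⟨J, hJ, ?_⟩
  have hc1 : Continuous (hS (sec D e s M)) := hK.continuous_hS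
  have hh1 : ∀ r : ℝ, 0 ≤ r → ∀ z, hS (sec D e s M) (r • z) = r * hS (sec D e s M) z :=
    fun r hr z => hK.hS_smul hr z
  have hc2 : Continuous (fun z => hS (sec D e s M) (-z)) := hc1.comp continuous_neg
  have hh2 : ∀ r : ℝ, 0 ≤ r → ∀ z, hS (sec D e s M) (-(r • z)) =
      r * hS (sec D e s M) (-z) := fun r hr z => by
    rw [← smul_neg]
    exact hK.hS_smul hr (-z)
  have m1 := nrm_mean hc1 hh1 he
  have m2 := nrm_mean (f := fun z => hS (sec D e s M) (-z)) hc2 hh2 he
  have i1 := integrable_nrm hc1 hh1 he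
  have i2 := integrable_nrm (f := fun z => hS (sec D e s M) (-z)) hc2 hh2 he
  simp only [symm_T7 hc1 e] at m2
  rw [proj2_sec hJ s M, kap_smul (slc_T7 hD he hse J).1 (slc_T7 hD he hse J).2
    (by positivity), gauss_perp (by omega) hE he] at hI
  have hn := norm_mul_mean (E := E)
  rw [hE] at hn
  have i3 : Integrable (fun p => hS (sec D e s M) (nrm e p) + hS (sec D e s M) (-nrm e p))
      ((stdGaussian E).prod (stdGaussian E)) := i1.add i2
  rw [integral_add (integrable_norm_mul.const_mul κ) (i3.const_mul M),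
    integral_const_mul, integral_const_mul, integral_add i1 i2, m1, m2]
  have h1 : κ * ∫ p : E × E, ‖p.1‖ * ‖p.2‖ ∂((stdGaussian E).prod (stdGaussian E)) ≤ κ * d :=
    mul_le_mul_of_nonneg_left hn hκ
  have h2 : √(2 * π) = 2 * √(π / 2) := by
    have e1 : 2 * π = 2 ^ 2 * (π / 2) := by ring
    rw [e1, Real.sqrt_mul (by positivity), Real.sqrt_sq (by norm_num)]
  have h3 : 0 < √(π / 2) := Real.sqrt_pos.2 (by positivity)
  have h4 := mul_le_mul_of_nonneg_left hI (by positivity : 0 ≤ M * (2 * √(π / 2)))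
  have h5 : M * (2 * √(π / 2)) * ((1 + M / s) * kap (slc D e J s) * (betaV d / √(2 * π))) =
      M * (1 + M / s) * betaV d * kap (slc D e J s) := by
    rw [h2]
    field_simp
  rw [h5] at h4
  have h6 : M * (√(π / 2) * ∫ x, hS (sec D e s M) (perp e x) ∂(stdGaussian E) +
      √(π / 2) * ∫ x, hS (sec D e s M) (perp e x) ∂(stdGaussian E)) =
      M * (2 * √(π / 2)) * ∫ x, hS (sec D e s M) (perp e x) ∂(stdGaussian E) := by ring
  rw [h6]
  exact add_le_add h1 h4

end S0

end Pool.Agent.Saus2
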