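import Pool.Agent.Saus2.DefsC

/-!
# Saus2, package TS: skeletons
-/

namespace Pool.Agent.Saus2

open MeasureTheory ProbabilityTheory Set Metric Filter Topology Real
open scoped InnerProductSpace
open Pool.Agent.Sausage27 (Eu Body skel hS betaV)

section S0

variable {E : Type*} [NormedAddCommGroup E] [InnerProductSpace ℝ E]

theorem skel_translate (i : ℕ) (D : Set E) (a : E) :
    skel i ((fun x => x + a) '' D) = (fun x => x + a) '' skel i D := by
  ext x
  constructor
  · rintro ⟨⟨y, hy, rfl⟩, hn⟩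
    refine ⟨y, ⟨hy, ?_⟩, rfl⟩
    rintro ⟨P, r, hP, hr, h⟩
    exact hn ⟨P, r, hP, hr, fun v hv hvr => ⟨y + v, h v hv hvr, add_right_comm y v a⟩⟩
  · rintro ⟨y, ⟨hy, hn⟩, rfl⟩
    refine ⟨⟨y, hy, rfl⟩, ?_⟩
    rintro ⟨P, r, hP, hr, h⟩
    refine hn ⟨P, r, hP, hr, fun v hv hvr => ?_⟩
    obtain ⟨z, hz, hza⟩ := h v hv hvr
    have h1 : z + a = y + v + a := by
      have h2 : z + a = y + a + v := hza
      rw [h2, add_right_comm]
    rw [← add_right_cancel h1]
    exact hz

/-- The `1`-skeleton is contained in the `2`-skeleton. -/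
theorem skel_mono [FiniteDimensional ℝ E] (D : Set E) : skel 1 D ⊆ skel 2 D := by
  rintro x ⟨hx, hn⟩
  refine ⟨hx, ?_⟩
  rintro ⟨P, r, hP, hr, h⟩
  obtain ⟨b⟩ : Nonempty (Module.Basis (Fin 3) ℝ P) := ⟨Module.finBasisOfFinrankEq ℝ P hP⟩
  have h1 : LinearIndependent ℝ fun i : Fin 2 => (b (Fin.castSucc i) : E) :=
    (b.linearIndependent.comp Fin.castSucc (Fin.castSucc_injective 2)).map' P.subtype
      P.ker_subtype
  have h2 := finrank_span_eq_card h1
  rw [Fintype.card_fin] at h2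
  refine hn ⟨_, r, h2, hr, fun v hv hvr => h v ?_ hvr⟩
  have h3 : Submodule.span ℝ (Set.range fun i : Fin 2 => (b (Fin.castSucc i) : E)) ≤ P := by
    rw [Submodule.span_le]
    rintro _ ⟨i, rfl⟩
    exact (b (Fin.castSucc i)).2
  exact h3 hv

end S0

end Pool.Agent.Saus2
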