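import Pool.Agent.Saus2.DefsC
import Pool.Agent.Saus2.S1
import Pool.Agent.Saus2.GI

/-!
# Saus2, package TV: translates and bounded sets
-/

namespace Pool.Agent.Saus2

open MeasureTheory ProbabilityTheory Set Metric Filter Topology Real
open scoped InnerProductSpace
open Pool.Agent.Sausage27 (Eu Body skel hS betaV)

section S0

variable {E : Type*} [NormedAddCommGroup E] [InnerProductSpace ℝ E] [FiniteDimensional ℝ E]
  [MeasurableSpace E] [BorelSpace E]

theorem V2_translate (D : Set E) (a : E) : V2 ((fun x => x + a) '' D) = V2 D := by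
  unfold V2
  exact integral_congr_ae (Filter.Eventually.of_forall fun p => sarea_translate D a p)

/-- `V2` is bounded by `ρ² d` for sets of diameter at most `ρ`. -/
theorem V2_le {D : Set E} {ρ : ℝ} (hρ : 0 ≤ ρ) (h : ∀ x ∈ D, ∀ y ∈ D, ‖x - y‖ ≤ ρ) :
    V2 D ≤ ρ ^ 2 * Module.finrank ℝ E := by
  have h1 : V2 D ≤ ∫ p : E × E, ρ ^ 2 * (‖p.1‖ * ‖p.2‖)
      ∂((stdGaussian E).prod (stdGaussian E)) := by
    unfold V2
    exact integral_mono_of_nonneg (Filter.Eventually.of_forall fun p => sarea_nonneg D p)
      ((integrable_norm_mul (E := E)).const_mul _)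
      (Filter.Eventually.of_forall fun p => sarea_le hρ h p)
  rw [integral_const_mul] at h1
  exact h1.trans (mul_le_mul_of_nonneg_left norm_mul_mean (by positivity))

end S0

end Pool.Agent.Saus2
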