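import Pool.Agent.Saus2.DefsC
import Pool.Agent.Saus2.S1
import Pool.Agent.Saus2.S3
import Pool.Agent.Saus2.T6
import Pool.Agent.Saus2.T7
import Pool.Agent.Saus2.TS
import Pool.Agent.Saus2.TV
import Pool.Agent.Saus2.GI
import Pool.Agent.Saus2.CB
import Pool.Agent.Sausage27.SK1
import Pool.Agent.Sausage27.WW7

/-!
# Saus2, package T8: tubes
-/

namespace Pool.Agent.Saus2

open MeasureTheory ProbabilityTheory Set Metric Filter Topology Real
open scoped InnerProductSpace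
open Pool.Agent.Sausage27 (Eu Body skel hS betaV)

section general

variable {E : Type*} [NormedAddCommGroup E] [InnerProductSpace ℝ E]

private theorem t8_perp_sub (e x y : E) : perp e (x - y) = perp e x - perp e y := by
  simp only [perp, inner_sub_right, sub_smul]
  abel

private theorem t8_norm_le {e : E} (he : ‖e‖ = 1) (x : E) :
    ‖x‖ ≤ |⟪e, x⟫_ℝ| + ‖perp e x‖ := by
  have h : x = ⟪e, x⟫_ℝ • e + perp e x := by simp [perp]
  calc ‖x‖ = ‖⟪e, x⟫_ℝ • e + perp e x‖ := by rw [← h]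
    _ ≤ ‖⟪e, x⟫_ℝ • e‖ + ‖perp e x‖ := norm_add_le _ _
    _ = |⟪e, x⟫_ℝ| + ‖perp e x‖ := by rw [norm_smul, he, mul_one, Real.norm_eq_abs]

/-- Points of a slab of a tube. -/
private theorem t8_diam {e : E} (he : ‖e‖ = 1) {K a b : ℝ} {x y : E} (hx : ‖perp e x‖ ≤ K)
    (hy : ‖perp e y‖ ≤ K) (hxa : a ≤ ⟪e, x⟫_ℝ) (hxb : ⟪e, x⟫_ℝ ≤ b) (hya : a ≤ ⟪e, y⟫_ℝ)
    (hyb : ⟪e, y⟫_ℝ ≤ b) : ‖x - y‖ ≤ (b - a) + 2 * K := by
  refine (t8_norm_le he _).trans ?_
  have h1 : |⟪e, x - y⟫_ℝ| ≤ b - a := by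
    rw [inner_sub_right, abs_le]
    constructor <;> linarith
  have h2 : ‖perp e (x - y)‖ ≤ 2 * K := by
    rw [t8_perp_sub]
    exact (norm_sub_le _ _).trans (by linarith)
  linarith

end general

/-- The contraction factor is monotone in `R`. -/
private theorem r0_mono {M R R' K : ℝ} (hM : 0 ≤ M) (hR : M + 1 < R) (hRR : R ≤ R') :
    r0 M R K ≤ r0 M R' K := by
  have hR0 : 0 < R := by linarith
  have hR0' : 0 < R' := by linarith
  unfold r0
  have h1 : (M + 1) / R' ≤ (M + 1) / R := div_le_div_of_nonneg_left (by linarith) hR0 hRR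
  have h2 : K ^ 2 / R' ^ 2 ≤ K ^ 2 / R ^ 2 := by
    apply div_le_div_of_nonneg_left (sq_nonneg K) (by positivity)
    exact pow_le_pow_left₀ hR0.le hRR 2
  have h3 : (M + 1) / R < 1 := by rw [div_lt_one hR0]; exact hR
  have h4 : 0 < √(1 + K ^ 2 / R' ^ 2) := Real.sqrt_pos.mpr (by positivity)
  have h5 : √(1 + K ^ 2 / R' ^ 2) ≤ √(1 + K ^ 2 / R ^ 2) := Real.sqrt_le_sqrt (by linarith)
  exact div_le_div₀ (by linarith) (by linarith) h4 h5

private theorem r0_pos {M R K : ℝ} (hM : 0 ≤ M) (hR : M + 1 < R) : 0 < r0 M R K := by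
  have hR0 : 0 < R := by linarith
  have h3 : (M + 1) / R < 1 := by rw [div_lt_one hR0]; exact hR
  unfold r0
  have h4 : 0 < √(1 + K ^ 2 / R ^ 2) := Real.sqrt_pos.mpr (by positivity)
  exact div_pos (by linarith) h4

/-- The sum over the blocks. -/
private theorem t8_sum {d : ℕ} (hd : 3 ≤ d) {K M S : ℝ} (hK : 0 ≤ K) (hM : 0 < M)
    (hMS : M + 4 < S) (hKS : 2 * K ^ 2 ≤ S) {n : ℕ} {D : Set (Eu d)} {c : Fin n → Eu d}
    {e : Eu d} {L : ℝ} (hD : Body D) (hc : skel 2 D ⊆ ⋃ j, closedBall (c j) 1) (he : ‖e‖ = 1)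
    (h0 : (0 : Eu d) ∈ D) (hLe : L • e ∈ D)
    (hDe : ∀ x ∈ D, 0 ≤ ⟪e, x⟫_ℝ ∧ ⟪e, x⟫_ℝ ≤ L ∧ ‖perp e x‖ ≤ K)
    (hL : 2 * S + (M + 4) ≤ L) :
    V2 D ≤ 2 * (S + (M + 4) + 2 * K) ^ 2 * d + (2 * n / (M + 4)) * (16 * K ^ 2 * d) +
      (M + 4) * (1 + (M + 4) / S) * betaV d * (n / (M * r0 M S K)) := by
  set B : ℝ := M + 4 with hB
  have hB0 : 0 < B := by rw [hB]; linarith
  have hS0 : 0 < S := by linarith
  set m : ℕ := ⌊(L - 2 * S) / B⌋₊ with hm
  have hm1 : (m : ℝ) * B ≤ L - 2 * S := by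
    have h1 : (m : ℝ) ≤ (L - 2 * S) / B := Nat.floor_le (div_nonneg (by linarith) hB0.le)
    calc (m : ℝ) * B ≤ (L - 2 * S) / B * B := mul_le_mul_of_nonneg_right h1 hB0.le
      _ = L - 2 * S := div_mul_cancel₀ _ hB0.ne'
  have hm2 : L - 2 * S < ((m : ℝ) + 1) * B := by
    have h1 : (L - 2 * S) / B < (m : ℝ) + 1 := Nat.lt_floor_add_one _
    calc L - 2 * S = (L - 2 * S) / B * B := (div_mul_cancel₀ _ hB0.ne').symm
      _ < ((m : ℝ) + 1) * B := mul_lt_mul_of_pos_right h1 hB0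
  -- the length is at most `2n`
  have hL2 : L ≤ 2 * n := by
    have hsc : Pool.Agent.Sausage27.SliceCov D c :=
      Pool.Agent.Sausage27.sliceCov_of_skel ((skel_mono D).trans hc)
    have h1 := Pool.Agent.Sausage27.width_le hD hsc he
    have h2 := hD.inner_le hLe e
    have h3 := hD.inner_le h0 (-e)
    rw [real_inner_smul_left, real_inner_self_eq_norm_sq, he] at h2
    rw [inner_zero_left] at h3
    linarith
  -- axis points
  have haxis : ∀ s, 0 ≤ s → s ≤ L → s • e ∈ D := by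
    intro s hs hsL
    have hL0 : 0 < L := by linarith
    have h1 := hD.conv h0 hLe (a := 1 - s / L) (b := s / L)
      (by rw [sub_nonneg, div_le_one hL0]; exact hsL) (by positivity) (by ring)
    rw [smul_zero, zero_add, smul_smul, div_mul_cancel₀ _ hL0.ne'] at h1
    exact h1
  -- the cutting heights
  set s : Fin m → ℝ := fun k => S + (k : ℝ) * B with hs
  have hs0 : ∀ k, S ≤ s k := fun k => by
    simp only [hs]
    have : 0 ≤ (k : ℝ) * B := by positivity
    linarith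
  have hs1 : ∀ k : Fin m, s k + B ≤ L - S := fun k => by
    simp only [hs]
    have h1 : ((k : ℕ) : ℝ) + 1 ≤ m := by
      have := k.2
      exact_mod_cast this
    nlinarith
  have hspos : ∀ k, 0 < s k := fun k => lt_of_lt_of_le hS0 (hs0 k)
  have hsD : ∀ k, s k • e ∈ D := fun k => haxis _ (hspos k).le (by linarith [hs1 k])
  -- the blocks
  set blk : Fin m → Set (Eu d) := fun k => D ∩ {x | s k ≤ ⟪e, x⟫_ℝ ∧ ⟪e, x⟫_ℝ ≤ s k + B} with hblk
  set A0 : Set (Eu d) := D ∩ {x | ⟪e, x⟫_ℝ ≤ S} with hA0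
  set A1 : Set (Eu d) := D ∩ {x | S + m * B ≤ ⟪e, x⟫_ℝ} with hA1
  set ρ : ℝ := S + B + 2 * K with hρ
  have hρ0 : 0 ≤ ρ := by rw [hρ]; positivity
  have hdA0 : ∀ x ∈ A0, ∀ y ∈ A0, ‖x - y‖ ≤ ρ := by
    rintro x ⟨hx, hx'⟩ y ⟨hy, hy'⟩
    have h1 := t8_diam he (hDe x hx).2.2 (hDe y hy).2.2 (hDe x hx).1 hx' (hDe y hy).1 hy'
    refine h1.trans ?_
    rw [hρ]; linarith
  have hdA1 : ∀ x ∈ A1, ∀ y ∈ A1, ‖x - y‖ ≤ ρ := by
    rintro x ⟨hx, hx'⟩ y ⟨hy, hy'⟩
    have h1 := t8_diam he (hDe x hx).2.2 (hDe y hy).2.2 hx' (hDe x hx).2.1 hy' (hDe y hy).2.1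
    refine h1.trans ?_
    rw [hρ]
    nlinarith
  -- covering of `D`
  set Di : Option (Option (Fin m)) → Set (Eu d) := fun i =>
    match i with
    | none => A0
    | some none => A1
    | some (some k) => blk k with hDi
  have hbd : Bornology.IsBounded D := hD.comp.isBounded
  have hDib : ∀ i ∈ (Finset.univ : Finset (Option (Option (Fin m)))), Bornology.IsBounded (Di i) := by
    rintro (_ | _ | k) -
    · exact hbd.subset inter_subset_left
    · exact hbd.subset inter_subset_left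
    · exact hbd.subset inter_subset_left
  have hcov : D ⊆ ⋃ i ∈ (Finset.univ : Finset (Option (Option (Fin m)))), Di i := by
    intro x hx
    simp only [Finset.mem_univ, iUnion_true, mem_iUnion]
    by_cases h1 : ⟪e, x⟫_ℝ ≤ S
    · exact ⟨none, hx, h1⟩
    push Not at h1
    by_cases h2 : S + m * B ≤ ⟪e, x⟫_ℝ
    · exact ⟨some none, hx, h2⟩
    push Not at h2
    set k : ℕ := ⌊(⟪e, x⟫_ℝ - S) / B⌋₊ with hk
    have hq0 : 0 ≤ (⟪e, x⟫_ℝ - S) / B := div_nonneg (by linarith) hB0.le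
    have hk1 : (k : ℝ) * B ≤ ⟪e, x⟫_ℝ - S := by
      calc (k : ℝ) * B ≤ (⟪e, x⟫_ℝ - S) / B * B :=
            mul_le_mul_of_nonneg_right (Nat.floor_le hq0) hB0.le
        _ = _ := div_mul_cancel₀ _ hB0.ne'
    have hk2 : ⟪e, x⟫_ℝ - S < ((k : ℝ) + 1) * B := by
      calc ⟪e, x⟫_ℝ - S = (⟪e, x⟫_ℝ - S) / B * B := (div_mul_cancel₀ _ hB0.ne').symm
        _ < _ := mul_lt_mul_of_pos_right (Nat.lt_floor_add_one _) hB0
    have hkm : k < m := by
      have : (k : ℝ) < m := by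
        by_contra hcon
        push Not at hcon
        have := mul_le_mul_of_nonneg_right hcon hB0.le
        linarith
      exact_mod_cast this
    refine ⟨some (some ⟨k, hkm⟩), hx, ?_, ?_⟩
    · show S + (k : ℝ) * B ≤ _
      linarith
    · show _ ≤ S + (k : ℝ) * B + B
      linarith
  -- the majorants
  set g : Fin m → Eu d × Eu d → ℝ := fun k p =>
    4 * ((1 + B / S) * K) ^ 2 * (‖p.1‖ * ‖p.2‖) +
        B * (hS (sec D e (s k) B) (nrm e p) + hS (sec D e (s k) B) (-nrm e p)) with hg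
  have hBs : ∀ k, B / s k ≤ B / S := fun k => div_le_div_of_nonneg_left hB0.le hS0 (hs0 k)
  have hBs0 : ∀ k, 0 ≤ B / s k := fun k => div_nonneg hB0.le (hspos k).le
  have hgk : ∀ k p, sarea (blk k) p ≤ g k p := by
    intro k p
    have h1 := block_area hD he (hspos k) hB0 h0 (hsD k) (fun x hx => (hDe x hx).2.2) p
    refine h1.trans ?_
    simp only [hg]
    have h2 : ((1 + B / s k) * K) ^ 2 ≤ ((1 + B / S) * K) ^ 2 := by
      apply pow_le_pow_left₀ (mul_nonneg (by linarith [hBs0 k]) hK)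
      exact mul_le_mul_of_nonneg_right (by linarith [hBs k]) hK
    have h3 : 4 * ((1 + B / s k) * K) ^ 2 * (‖p.1‖ * ‖p.2‖) ≤
        4 * ((1 + B / S) * K) ^ 2 * (‖p.1‖ * ‖p.2‖) :=
      mul_le_mul_of_nonneg_right (by linarith) (by positivity)
    linarith
  set γ : Measure (Eu d × Eu d) := (stdGaussian (Eu d)).prod (stdGaussian (Eu d)) with hγ
  have hint0 : Integrable (fun p : Eu d × Eu d => ‖p.1‖ * ‖p.2‖) γ := integrable_norm_mul
  have hgint : ∀ k, Integrable (g k) γ := by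
    intro k
    have hb : Body (sec D e (s k) B) := sec_body hD he (hsD k)
    have h1 : Integrable (fun p => hS (sec D e (s k) B) (nrm e p)) γ :=
      integrable_nrm hb.continuous_hS (fun r hr z => hb.hS_smul hr z) he
    have h2 : Integrable (fun p => (fun z => hS (sec D e (s k) B) (-z)) (nrm e p)) γ :=
      integrable_nrm (f := fun z => hS (sec D e (s k) B) (-z))
        (hb.continuous_hS.comp continuous_neg)
        (fun r hr z => by simp only [← smul_neg]; exact hb.hS_smul hr _) he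
    exact (hint0.const_mul _).add ((h1.add h2).const_mul _)
  -- the means
  have hmean : ∀ k, ∫ p, g k p ∂γ ≤ 16 * K ^ 2 * d + B * (1 + B / S) * betaV d *
      (((Finset.univ.filter (fun j => s k - 1 ≤ ⟪e, c j⟫_ℝ ∧ ⟪e, c j⟫_ℝ ≤ s k + M + 2)).card : ℝ)
        / (M * r0 M S K)) := by
    intro k
    obtain ⟨J, hJ, hJm⟩ := block_mean (E := Eu d) hd (by simp) hD he (hspos k) hB0 (hsD k)
      (4 * ((1 + B / S) * K) ^ 2) (by positivity)
    have hR : S ≤ L - s k := by linarith [hs1 k]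
    have hcount := tube_count (s := s k) (R := L - s k) (M := M) (K := K) hD hc he hJ hM
      (by linarith) (by linarith) (hsD k)
      (by rw [add_sub_cancel]; exact hLe) (fun x hx => (hDe x hx).2.2)
    have hr0 : 0 < r0 M S K := r0_pos hM.le (by linarith)
    have hr1 : r0 M S K ≤ r0 M (L - s k) K := r0_mono hM.le (by linarith) hR
    have hr2 : 0 < r0 M (L - s k) K := lt_of_lt_of_le hr0 hr1
    set N : ℝ := ((Finset.univ.filter (fun j => s k - 1 ≤ ⟪e, c j⟫_ℝ ∧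
      ⟪e, c j⟫_ℝ ≤ s k + M + 2)).card : ℝ) with hN
    have hN0 : 0 ≤ N := by rw [hN]; positivity
    have hk1 : kap (slc D e J (s k)) ≤ N / (M * r0 M S K) := by
      have h1 : kap (slc D e J (s k)) ≤ N / (M * r0 M (L - s k) K) := by
        rw [le_div_iff₀ (by positivity)]
        calc kap (slc D e J (s k)) * (M * r0 M (L - s k) K)
            = M * (r0 M (L - s k) K * kap (slc D e J (s k))) := by ring
          _ ≤ N := hcount
      refine h1.trans (div_le_div_of_nonneg_left hN0 (by positivity) ?_)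
      exact mul_le_mul_of_nonneg_left hr1 hM.le
    have hβ : 0 ≤ betaV d := (betaV_pos (by omega)).le
    refine hJm.trans ?_
    have h2 : B * (1 + B / s k) * betaV d * kap (slc D e J (s k)) ≤
        B * (1 + B / S) * betaV d * (N / (M * r0 M S K)) := by
      have h3 : 0 ≤ N / (M * r0 M S K) := by positivity
      have h4 : 0 ≤ B * (1 + B / s k) * betaV d :=
        mul_nonneg (mul_nonneg hB0.le (by linarith [hBs0 k])) hβ
      calc B * (1 + B / s k) * betaV d * kap (slc D e J (s k))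
          ≤ B * (1 + B / s k) * betaV d * (N / (M * r0 M S K)) :=
            mul_le_mul_of_nonneg_left hk1 h4
        _ ≤ B * (1 + B / S) * betaV d * (N / (M * r0 M S K)) := by
            apply mul_le_mul_of_nonneg_right _ h3
            apply mul_le_mul_of_nonneg_right _ hβ
            exact mul_le_mul_of_nonneg_left (by linarith [hBs k]) hB0.le
    have h5 : 4 * ((1 + B / S) * K) ^ 2 * (d : ℝ) ≤ 16 * K ^ 2 * d := by
      have h6 : B / S ≤ 1 := by rw [div_le_one hS0]; exact hMS.le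
      have h7 : ((1 + B / S) * K) ^ 2 ≤ (2 * K) ^ 2 := by
        apply pow_le_pow_left₀ (by positivity)
        exact mul_le_mul_of_nonneg_right (by linarith) hK
      have : (0 : ℝ) ≤ d := Nat.cast_nonneg d
      nlinarith
    linarith
  -- the counts
  have hcnt : ∑ k : Fin m, ((Finset.univ.filter (fun j => s k - 1 ≤ ⟪e, c j⟫_ℝ ∧
      ⟪e, c j⟫_ℝ ≤ s k + M + 2)).card : ℝ) ≤ n := by
    classical
    have h1 : ∑ k : Fin m, (Finset.univ.filter (fun j : Fin n => s k - 1 ≤ ⟪e, c j⟫_ℝ ∧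
      ⟪e, c j⟫_ℝ ≤ s k + M + 2)).card ≤ n := by
      rw [← Finset.card_biUnion]
      · exact (Finset.card_le_univ _).trans (by simp)
      · intro i _ k _ hik
        rw [Function.onFun, Finset.disjoint_left]
        intro j hj hj'
        rw [Finset.mem_filter] at hj hj'
        have hij : (i : ℕ) ≠ k := fun h => hik (Fin.ext h)
        have key : ∀ a b : Fin m, (a : ℕ) < b → s b - 1 ≤ ⟪e, c j⟫_ℝ →
            ⟪e, c j⟫_ℝ ≤ s a + M + 2 → False := by
          intro a b hab h2 h3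
          have h4 : ((a : ℕ) : ℝ) + 1 ≤ (b : ℕ) := by exact_mod_cast hab
          simp only [hs] at h2 h3
          have h5 : (((a : ℕ) : ℝ) + 1) * B ≤ ((b : ℕ) : ℝ) * B :=
            mul_le_mul_of_nonneg_right h4 hB0.le
          linarith
        rcases lt_or_gt_of_ne hij with h | h
        · exact key i k h hj'.2.1 hj.2.2
        · exact key k i h hj.2.1 hj'.2.2
    exact_mod_cast h1
  -- summation
  have hdR : (0 : ℝ) ≤ d := Nat.cast_nonneg d
  have hstep : V2 D ≤ ∫ p, (2 * ρ ^ 2 * (‖p.1‖ * ‖p.2‖) + ∑ k, g k p) ∂γ := by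
    refine integral_mono_of_nonneg (Eventually.of_forall fun p => sarea_nonneg D p)
      ((hint0.const_mul _).add (integrable_finsetSum _ fun k _ => hgint k))
      (Eventually.of_forall fun p => ?_)
    have h1 := sarea_le_sum Finset.univ Di hDib hcov p
    rw [Fintype.sum_option, Fintype.sum_option] at h1
    have h2 : sarea (Di none) p ≤ ρ ^ 2 * (‖p.1‖ * ‖p.2‖) := sarea_le hρ0 hdA0 p
    have h3 : sarea (Di (some none)) p ≤ ρ ^ 2 * (‖p.1‖ * ‖p.2‖) := sarea_le hρ0 hdA1 p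
    have h4 : ∑ k : Fin m, sarea (Di (some (some k))) p ≤ ∑ k, g k p :=
      Finset.sum_le_sum fun k _ => hgk k p
    have h5 : sarea D p ≤ 2 * ρ ^ 2 * (‖p.1‖ * ‖p.2‖) + ∑ k, g k p := by linarith
    exact h5
  have hsum : ∫ p, (2 * ρ ^ 2 * (‖p.1‖ * ‖p.2‖) + ∑ k, g k p) ∂γ ≤
      2 * ρ ^ 2 * d + m * (16 * K ^ 2 * d) +
        B * (1 + B / S) * betaV d * (n / (M * r0 M S K)) := by
    rw [integral_add (hint0.const_mul _) (integrable_finsetSum _ fun k _ => hgint k),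
      integral_const_mul, integral_finsetSum _ fun k _ => hgint k]
    have h1 : ∫ p : Eu d × Eu d, ‖p.1‖ * ‖p.2‖ ∂γ ≤ d := by
      have := norm_mul_mean (E := Eu d)
      simpa using this
    have h2 : ∑ k, ∫ p, g k p ∂γ ≤ ∑ k : Fin m, (16 * K ^ 2 * d + B * (1 + B / S) * betaV d *
      (((Finset.univ.filter (fun j => s k - 1 ≤ ⟪e, c j⟫_ℝ ∧ ⟪e, c j⟫_ℝ ≤ s k + M + 2)).card : ℝ)
        / (M * r0 M S K))) := Finset.sum_le_sum fun k _ => hmean k
    rw [Finset.sum_add_distrib, Finset.sum_const, Finset.card_univ, Fintype.card_fin,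
      nsmul_eq_mul, ← Finset.mul_sum, ← Finset.sum_div] at h2
    have hr0 : 0 < r0 M S K := r0_pos hM.le (by linarith)
    have hβ : 0 ≤ betaV d := (betaV_pos (by omega)).le
    have h3 : B * (1 + B / S) * betaV d * ((∑ k : Fin m, ((Finset.univ.filter (fun j =>
        s k - 1 ≤ ⟪e, c j⟫_ℝ ∧ ⟪e, c j⟫_ℝ ≤ s k + M + 2)).card : ℝ)) / (M * r0 M S K)) ≤
        B * (1 + B / S) * betaV d * (n / (M * r0 M S K)) := by
      apply mul_le_mul_of_nonneg_left
      · exact div_le_div_of_nonneg_right hcnt (by positivity)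
      · exact mul_nonneg (mul_nonneg hB0.le (by positivity)) hβ
    have h4 : 2 * ρ ^ 2 * ∫ p : Eu d × Eu d, ‖p.1‖ * ‖p.2‖ ∂γ ≤ 2 * ρ ^ 2 * d :=
      mul_le_mul_of_nonneg_left h1 (by positivity)
    linarith
  have hmn : (m : ℝ) ≤ 2 * n / B := by
    rw [le_div_iff₀ hB0]
    linarith
  have hfin : (m : ℝ) * (16 * K ^ 2 * d) ≤ 2 * n / B * (16 * K ^ 2 * d) :=
    mul_le_mul_of_nonneg_right hmn (by positivity)
  linarith

theorem tube_bound {d : ℕ} (hd : 3 ≤ d) {K ε : ℝ} (hK : 0 ≤ K) (hε : 0 < ε) :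
    ∃ N₀ : ℕ, ∀ n ≥ N₀, ∀ (D : Set (Eu d)) (c : Fin n → Eu d) (e : Eu d) (L : ℝ), Body D →
      skel 2 D ⊆ ⋃ j, closedBall (c j) 1 → ‖e‖ = 1 → 0 ≤ L → (0 : Eu d) ∈ D → L • e ∈ D →
      (∀ x ∈ D, 0 ≤ ⟪e, x⟫_ℝ ∧ ⟪e, x⟫_ℝ ≤ L ∧ ‖perp e x‖ ≤ K) → V2 D ≤ (betaV d + ε) * n := by
  have hβ : 0 < betaV d := betaV_pos (by omega)
  have hd0 : (0 : ℝ) ≤ d := Nat.cast_nonneg d
  -- the choice of `M`
  obtain ⟨M, hM0, hM1, hM2⟩ : ∃ M : ℝ, 0 < M ∧ 128 * K ^ 2 * d / ε ≤ M ∧
      16 * betaV d / ε ≤ M := by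
    refine ⟨max 1 (max (128 * K ^ 2 * d / ε) (16 * betaV d / ε)), ?_, ?_, ?_⟩
    · exact lt_of_lt_of_le one_pos (le_max_left _ _)
    · exact (le_max_left _ _).trans (le_max_right _ _)
    · exact (le_max_right _ _).trans (le_max_right _ _)
  have hMa : 2 / (M + 4) * (16 * K ^ 2 * d) ≤ ε / 4 := by
    rw [div_le_iff₀ hε] at hM1
    rw [div_mul_eq_mul_div, div_le_iff₀ (by linarith)]
    nlinarith
  have hMb : (M + 4) * betaV d / M ≤ betaV d + ε / 4 := by
    rw [div_le_iff₀ hε] at hM2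
    rw [div_le_iff₀ hM0]
    nlinarith
  -- the choice of `S`
  have hlim : Tendsto (fun S : ℝ => (M + 4) * betaV d / M * ((1 + (M + 4) / S) / r0 M S K)) atTop
      (𝓝 ((M + 4) * betaV d / M * ((1 + 0) / ((1 - 0) / √(1 + 0))))) := by
    have h1 : Tendsto (fun S : ℝ => (M + 4) / S) atTop (𝓝 0) :=
      tendsto_const_nhds.div_atTop tendsto_id
    have h2 : Tendsto (fun S : ℝ => (M + 1) / S) atTop (𝓝 0) :=
      tendsto_const_nhds.div_atTop tendsto_id
    have h3 : Tendsto (fun S : ℝ => K ^ 2 / S ^ 2) atTop (𝓝 0) :=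
      tendsto_const_nhds.div_atTop (tendsto_pow_atTop two_ne_zero)
    have h4 : Tendsto (fun S : ℝ => r0 M S K) atTop (𝓝 ((1 - 0) / √(1 + 0))) := by
      unfold r0
      refine (tendsto_const_nhds.sub h2).div ?_ (by simp)
      exact (Real.continuous_sqrt.tendsto _).comp (tendsto_const_nhds.add h3)
    exact tendsto_const_nhds.mul ((tendsto_const_nhds.add h1).div h4 (by simp))
  have hlim2 : (M + 4) * betaV d / M * ((1 + 0) / ((1 - 0) / √(1 + 0))) < betaV d + ε / 2 := by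
    have : ((1 : ℝ) + 0) / ((1 - 0) / √(1 + 0)) = 1 := by simp
    rw [this]; linarith
  obtain ⟨S, hS1, hS2, hS3⟩ : ∃ S : ℝ, (M + 4) * betaV d / M * ((1 + (M + 4) / S) / r0 M S K) <
      betaV d + ε / 2 ∧ M + 4 < S ∧ 2 * K ^ 2 ≤ S :=
    ((hlim.eventually (gt_mem_nhds hlim2)).and
      ((eventually_gt_atTop (M + 4)).and (eventually_ge_atTop (2 * K ^ 2)))).exists
  -- the choice of `N₀`
  obtain ⟨N₁, hN₁⟩ := exists_nat_ge (2 * (S + (M + 4) + 2 * K) ^ 2 * d / (ε / 4))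
  obtain ⟨N₂, hN₂⟩ := exists_nat_ge ((2 * S + (M + 4) + 2 * K) ^ 2 * d / ε)
  refine ⟨max N₁ N₂, fun n hn D c e L hD hc he hL0 h0 hLe hDe => ?_⟩
  have hn1 : 2 * (S + (M + 4) + 2 * K) ^ 2 * d ≤ ε / 4 * n := by
    rw [div_le_iff₀ (by linarith)] at hN₁
    have : (N₁ : ℝ) ≤ n := by exact_mod_cast (le_max_left _ _).trans hn
    nlinarith
  have hn2 : (2 * S + (M + 4) + 2 * K) ^ 2 * d ≤ ε * n := by
    rw [div_le_iff₀ hε] at hN₂
    have : (N₂ : ℝ) ≤ n := by exact_mod_cast (le_max_right _ _).trans hn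
    nlinarith
  have hn0 : (0 : ℝ) ≤ n := Nat.cast_nonneg n
  rcases lt_or_ge L (2 * S + (M + 4)) with hL | hL
  · -- a short body
    have h1 : V2 D ≤ (2 * S + (M + 4) + 2 * K) ^ 2 * Module.finrank ℝ (Eu d) := by
      refine V2_le (by linarith) fun x hx y hy => ?_
      have h2 := t8_diam he (hDe x hx).2.2 (hDe y hy).2.2 (hDe x hx).1 (hDe x hx).2.1
        (hDe y hy).1 (hDe y hy).2.1
      linarith
    rw [finrank_euclideanSpace_fin] at h1
    have h3 : 0 ≤ betaV d * n := by positivity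
    linarith
  · have h1 := t8_sum hd hK hM0 hS2 hS3 hD hc he h0 hLe hDe hL
    have hr0 : 0 < r0 M S K := r0_pos hM0.le (by linarith)
    have h2 : (M + 4) * (1 + (M + 4) / S) * betaV d * (n / (M * r0 M S K)) =
        (M + 4) * betaV d / M * ((1 + (M + 4) / S) / r0 M S K) * n := by
      field_simp
    have h3 : (M + 4) * betaV d / M * ((1 + (M + 4) / S) / r0 M S K) * n ≤
        (betaV d + ε / 2) * n := mul_le_mul_of_nonneg_right hS1.le hn0
    have h4 : 2 * n / (M + 4) * (16 * K ^ 2 * d) = 2 / (M + 4) * (16 * K ^ 2 * d) * n := by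
      ring
    have h5 : 2 / (M + 4) * (16 * K ^ 2 * d) * n ≤ ε / 4 * n :=
      mul_le_mul_of_nonneg_right hMa hn0
    rw [h2, h4] at h1
    linarith

end Pool.Agent.Saus2
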