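import Pool.Agent.Saus2.DefsC
import Pool.Agent.Saus2.N0
import Pool.Agent.Saus2.N5
import Pool.Agent.Saus2.TV
import Pool.Agent.Saus2.S1

/-!
# Saus2: near-optimal bodies are thin when `d ≥ 4`
-/

namespace Pool.Agent.Saus2

open MeasureTheory ProbabilityTheory Set Metric Filter Topology Real
open scoped InnerProductSpace
open Pool.Agent.Sausage27 (Eu Body skel hS betaV)

theorem betaV_step {c : ℕ} (hc : 2 ≤ c) : betaV (c + 2) * ((c : ℝ) - 1) = betaV c * c := by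
  have h2 := betaV_mul (j := c) hc
  have h3 := betaV_mul (j := c + 1) (by omega)
  have h4 : 0 < betaV (c + 1) := betaV_pos (by omega)
  push_cast at h3
  apply mul_left_cancel₀ h4.ne'
  have h5 : betaV (c + 1 + 1) = betaV (c + 2) := rfl
  rw [h5] at h3
  linear_combination ((c : ℝ) - 1) * h3 - (c : ℝ) * h2

theorem pi_lt_betaV {d : ℕ} (hd : 4 ≤ d) : π < betaV d := by
  rcases Nat.lt_or_ge d 5 with h | h
  · obtain rfl : d = 4 := by omega
    have h2 := betaV_mul (j := 3) (by norm_num)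
    rw [betaV_three] at h2
    have h3 : betaV 4 = 4 := by
      apply mul_left_cancel₀ Real.pi_ne_zero
      push_cast at h2
      linarith
    rw [h3]
    exact Real.pi_lt_four
  · obtain ⟨c, rfl⟩ : ∃ c, d = c + 2 := ⟨d - 2, by omega⟩
    have h1 := betaV_step (c := c) (by omega)
    have h2 := pi_le_betaV (d := c) (by omega)
    have hc : (3 : ℝ) ≤ c := by exact_mod_cast (by omega : 3 ≤ c)
    have hpi := Real.pi_pos
    have h3 : betaV c < betaV (c + 2) := by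
      by_contra hlt
      rw [not_lt] at hlt
      have h8 : betaV (c + 2) * ((c : ℝ) - 1) ≤ betaV c * ((c : ℝ) - 1) :=
        mul_le_mul_of_nonneg_right hlt (by linarith)
      nlinarith
    linarith

/-- A unit vector whose orthogonal complement is orthogonal to a subspace of dimension at most
one. -/
theorem exists_unit_of_finrank_le_one {d : ℕ} (hd : 1 ≤ d) (W : Submodule ℝ (Eu d))
    (hW : Module.finrank ℝ W ≤ 1) :
    ∃ w : Eu d, ‖w‖ = 1 ∧ ∀ v : Eu d, ⟪v, w⟫_ℝ = 0 → v ∈ Wᗮ := by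
  by_cases h0 : W = ⊥
  · obtain ⟨w, hw⟩ : ∃ w : Eu d, ‖w‖ = 1 := by
      have : Nonempty (Fin d) := ⟨⟨0, by omega⟩⟩
      obtain ⟨w, hw⟩ := exists_norm_eq (Eu d) zero_le_one
      exact ⟨w, hw⟩
    exact ⟨w, hw, fun v _ => by rw [h0]; simp⟩
  · obtain ⟨x, hxW, hx0⟩ := Submodule.exists_mem_ne_zero_of_ne_bot h0
    have hnx : ‖x‖ ≠ 0 := norm_ne_zero_iff.mpr hx0
    refine ⟨‖x‖⁻¹ • x, ?_, ?_⟩
    · rw [norm_smul, norm_inv, norm_norm, inv_mul_cancel₀ hnx]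
    · intro v hv
      rw [inner_smul_right, mul_eq_zero] at hv
      have hvx : ⟪v, x⟫_ℝ = 0 := by
        rcases hv with h | h
        · exact absurd h (inv_ne_zero hnx)
        · exact h
      rw [Submodule.mem_orthogonal]
      intro y hy
      have hsp : ∃ a : ℝ, a • x = y := by
        have hfr : Module.finrank ℝ W = 1 := by
          have : 0 < Module.finrank ℝ W := by
            rw [Module.finrank_pos_iff_exists_ne_zero]
            exact ⟨⟨x, hxW⟩, fun h => hx0 (congrArg Subtype.val h)⟩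
          omega
        obtain ⟨a, ha⟩ := (finrank_eq_one_iff_of_nonzero' (⟨x, hxW⟩ : W)
          (fun h => hx0 (congrArg Subtype.val h))).1 hfr ⟨y, hy⟩
        exact ⟨a, congrArg Subtype.val ha⟩
      obtain ⟨a, rfl⟩ := hsp
      rw [real_inner_smul_left, real_inner_comm, hvx, mul_zero]

private theorem thin_perp_inner {d : ℕ} {w : Eu d} (hw : ‖w‖ = 1) (z : Eu d) :
    ⟪perp w z, w⟫_ℝ = 0 ∧ ⟪perp w z, z⟫_ℝ = ‖perp w z‖ ^ 2 := by
  have h1 : ⟪perp w z, w⟫_ℝ = 0 := by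
    rw [perp, inner_sub_left, real_inner_smul_left, real_inner_self_eq_norm_sq, hw,
      real_inner_comm]
    ring
  refine ⟨h1, ?_⟩
  have h2 : z = perp w z + ⟪w, z⟫_ℝ • w := by simp [perp]
  calc ⟪perp w z, z⟫_ℝ = ⟪perp w z, perp w z + ⟪w, z⟫_ℝ • w⟫_ℝ := by rw [← h2]
    _ = ‖perp w z‖ ^ 2 := by
      rw [inner_add_right, inner_smul_right, h1, real_inner_self_eq_norm_sq]; ring

/-- For `d ≥ 4` every body with `2`-skeleton covered by `n ≥ 1` unit balls and `V2 ≥ betaV d * n`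
has width at most `K` (a constant depending on `d`) in all directions orthogonal to a suitable
unit vector. -/
theorem thin_of_large {d : ℕ} (hd : 4 ≤ d) : ∃ K : ℝ, ∀ (n : ℕ), 1 ≤ n → ∀ (D : Set (Eu d))
    (c : Fin n → Eu d), Body D → skel 2 D ⊆ ⋃ j, closedBall (c j) 1 → betaV d * n ≤ V2 D →
      ∃ w : Eu d, ‖w‖ = 1 ∧ ∀ x ∈ D, ∀ y ∈ D, ‖perp w (x - y)‖ ≤ K := by
  have hβ := pi_lt_betaV hd
  obtain ⟨Λ, hΛ, hwide⟩ := wide_bound_pi (d := d) (by omega) (ε := (betaV d - π) / 2) (by linarith)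
  refine ⟨1 * (2 * Module.finrank ℝ (Eu d) * Λ) ^ (Module.finrank ℝ (Eu d)), ?_⟩
  intro n hn D c hD hc hV
  have hdim : 1 ≤ Module.finrank ℝ (Eu d) := by simp; omega
  obtain ⟨W, Δ, hΔ1, hΔK, hwW, hWo⟩ := exists_gap hdim hD one_pos hΛ
  by_cases hW : 2 ≤ Module.finrank ℝ W
  · exfalso
    have h1 := hwide n D c W Δ hD hc hW hΔ1 hwW hWo
    have h2 : (1 : ℝ) ≤ n := by exact_mod_cast hn
    nlinarith
  obtain ⟨w, hw, hWw⟩ := exists_unit_of_finrank_le_one (by omega) W (by omega)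
  refine ⟨w, hw, fun x hx y hy => ?_⟩
  refine le_trans ?_ hΔK
  obtain ⟨h1, h2⟩ := thin_perp_inner hw (x - y)
  by_cases h0 : ‖perp w (x - y)‖ = 0
  · rw [h0]; linarith
  have h3 := hWo x hx y hy (‖perp w (x - y)‖⁻¹ • perp w (x - y))
    (hWw _ (by rw [real_inner_smul_left, h1, mul_zero]))
    (by rw [norm_smul, norm_inv, norm_norm, inv_mul_cancel₀ h0])
  rw [real_inner_smul_left, h2, sq, ← mul_assoc, inv_mul_cancel₀ h0, one_mul] at h3
  exact h3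

/-- A thin body has second intrinsic volume at most a constant times its length plus one: cut it
into slabs of unit thickness. -/
theorem V2_le_thin {d : ℕ} {D : Set (Eu d)} (hD : Body D) {w : Eu d} (hw : ‖w‖ = 1) {K δ : ℝ}
    (hK : ∀ x ∈ D, ∀ y ∈ D, ‖perp w (x - y)‖ ≤ K) (hδ : ∀ x ∈ D, ∀ y ∈ D, ‖x - y‖ ≤ δ) :
    V2 D ≤ (δ + 1) * ((1 + K) ^ 2 * d) := by
  obtain ⟨z, hz⟩ := hD.ne
  have hK0 : 0 ≤ K := (norm_nonneg _).trans (hK z hz z hz)
  have hδ0 : 0 ≤ δ := (norm_nonneg _).trans (hδ z hz z hz)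
  -- the lowest point
  obtain ⟨a, ha, hmin⟩ := hD.comp.exists_isMinOn hD.ne (f := fun x => ⟪w, x⟫_ℝ)
    (by fun_prop : Continuous fun x => ⟪w, x⟫_ℝ).continuousOn
  have hlow : ∀ x ∈ D, 0 ≤ ⟪w, x - a⟫_ℝ := fun x hx => by
    rw [inner_sub_right]
    have : ⟪w, a⟫_ℝ ≤ ⟪w, x⟫_ℝ := hmin hx
    linarith
  have hup : ∀ x ∈ D, ⟪w, x - a⟫_ℝ ≤ δ := fun x hx => by
    have h1 := real_inner_le_norm w (x - a)
    rw [hw, one_mul] at h1
    exact h1.trans (hδ x hx a ha)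
  obtain ⟨m, hm⟩ : ∃ m : ℕ, m = ⌊δ⌋₊ + 1 := ⟨_, rfl⟩
  let Di : Fin m → Set (Eu d) := fun k =>
    D ∩ {x | ((k : ℕ) : ℝ) ≤ ⟪w, x - a⟫_ℝ ∧ ⟪w, x - a⟫_ℝ ≤ ((k : ℕ) : ℝ) + 1}
  have hbd : Bornology.IsBounded D := hD.comp.isBounded
  have hcov : D ⊆ ⋃ i ∈ (Finset.univ : Finset (Fin m)), Di i := by
    intro x hx
    simp only [Finset.mem_univ, iUnion_true, mem_iUnion]
    have h0 := hlow x hx
    have h1 : ⌊⟪w, x - a⟫_ℝ⌋₊ < m := by
      rw [hm, Nat.lt_succ_iff]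
      exact Nat.floor_le_floor (hup x hx)
    exact ⟨⟨_, h1⟩, hx, Nat.floor_le h0, (Nat.lt_floor_add_one _).le⟩
  have hdi : ∀ i, ∀ x ∈ Di i, ∀ y ∈ Di i, ‖x - y‖ ≤ 1 + K := by
    rintro i x ⟨hx, hx1, hx2⟩ y ⟨hy, hy1, hy2⟩
    have h1 : x - y = ⟪w, x - y⟫_ℝ • w + perp w (x - y) := by simp [perp]
    have h2 : ⟪w, x - y⟫_ℝ = ⟪w, x - a⟫_ℝ - ⟪w, y - a⟫_ℝ := by
      rw [← inner_sub_right]
      congr 1
      abel
    have h3 : |⟪w, x - y⟫_ℝ| ≤ 1 := by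
      rw [h2, abs_le]
      constructor <;> linarith
    calc ‖x - y‖ = ‖⟪w, x - y⟫_ℝ • w + perp w (x - y)‖ := by rw [← h1]
      _ ≤ ‖⟪w, x - y⟫_ℝ • w‖ + ‖perp w (x - y)‖ := norm_add_le _ _
      _ ≤ 1 + K := by
        rw [norm_smul, hw, mul_one, Real.norm_eq_abs]
        exact add_le_add h3 (hK x hx y hy)
  have hint : Integrable (fun p : Eu d × Eu d => ‖p.1‖ * ‖p.2‖)
      ((stdGaussian (Eu d)).prod (stdGaussian (Eu d))) := integrable_norm_mul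
  have hstep : V2 D ≤ ∫ p : Eu d × Eu d, (m * (1 + K) ^ 2) * (‖p.1‖ * ‖p.2‖)
      ∂((stdGaussian (Eu d)).prod (stdGaussian (Eu d))) := by
    refine integral_mono_of_nonneg (Eventually.of_forall fun p => sarea_nonneg D p)
      (hint.const_mul _) (Eventually.of_forall fun p => ?_)
    have h1 := sarea_le_sum Finset.univ Di (fun i _ => hbd.subset inter_subset_left) hcov p
    have h2 : ∑ i : Fin m, sarea (Di i) p ≤ ∑ _i : Fin m, (1 + K) ^ 2 * (‖p.1‖ * ‖p.2‖) :=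
      Finset.sum_le_sum fun i _ => sarea_le (by linarith) (hdi i) p
    rw [Finset.sum_const, Finset.card_univ, Fintype.card_fin, nsmul_eq_mul, ← mul_assoc] at h2
    exact h1.trans h2
  rw [integral_const_mul] at hstep
  have h1 : ∫ p : Eu d × Eu d, ‖p.1‖ * ‖p.2‖ ∂((stdGaussian (Eu d)).prod (stdGaussian (Eu d))) ≤
      d := by
    have := norm_mul_mean (E := Eu d)
    simpa using this
  have hmδ : (m : ℝ) ≤ δ + 1 := by
    rw [hm]
    push_cast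
    linarith [Nat.floor_le hδ0]
  have h2 : (m : ℝ) * (1 + K) ^ 2 *
      ∫ p : Eu d × Eu d, ‖p.1‖ * ‖p.2‖ ∂((stdGaussian (Eu d)).prod (stdGaussian (Eu d))) ≤
        (m : ℝ) * (1 + K) ^ 2 * d := mul_le_mul_of_nonneg_left h1 (by positivity)
  have h3 : (m : ℝ) * ((1 + K) ^ 2 * d) ≤ (δ + 1) * ((1 + K) ^ 2 * d) :=
    mul_le_mul_of_nonneg_right hmδ (by positivity)
  have h4 : (m : ℝ) * (1 + K) ^ 2 * d = (m : ℝ) * ((1 + K) ^ 2 * d) := by ring
  exact (hstep.trans h2).trans (h4.le.trans h3)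

/-- Thin and long. -/
theorem thin_long {d : ℕ} (hd : 4 ≤ d) : ∃ K κ : ℝ, 0 < κ ∧ ∀ (n : ℕ), 1 ≤ n →
    ∀ (D : Set (Eu d)) (c : Fin n → Eu d), Body D → skel 2 D ⊆ ⋃ j, closedBall (c j) 1 →
      betaV d * n ≤ V2 D →
      (∃ w : Eu d, ‖w‖ = 1 ∧ ∀ x ∈ D, ∀ y ∈ D, ‖perp w (x - y)‖ ≤ K) ∧
        ∃ x ∈ D, ∃ y ∈ D, κ * n ≤ ‖x - y‖ + 1 := by
  obtain ⟨K, hK⟩ := thin_of_large hd
  have hβ : 0 < betaV d := betaV_pos (by omega)
  have hd0 : (0 : ℝ) < d := by exact_mod_cast (by omega : 0 < d)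
  have hA : 0 < (1 + |K|) ^ 2 * (d : ℝ) := by positivity
  refine ⟨K, betaV d / ((1 + |K|) ^ 2 * d), by positivity, ?_⟩
  intro n hn D c hD hc hV
  obtain ⟨w, hw, hwK⟩ := hK n hn D c hD hc hV
  refine ⟨⟨w, hw, hwK⟩, ?_⟩
  obtain ⟨δ, hδ⟩ : ∃ δ : ℝ, (∃ a ∈ D, ∃ b ∈ D, δ = ‖a - b‖) ∧ ∀ x ∈ D, ∀ y ∈ D, ‖x - y‖ ≤ δ := by
    have hcont : Continuous (fun q : Eu d × Eu d => ‖q.1 - q.2‖) := by fun_prop
    obtain ⟨q, hq, hmax⟩ := (hD.comp.prod hD.comp).exists_isMaxOn (hD.ne.prod hD.ne)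
      hcont.continuousOn
    rw [isMaxOn_iff] at hmax
    refine ⟨_, ⟨q.1, hq.1, q.2, hq.2, rfl⟩, fun x hx y hy => ?_⟩
    exact hmax (x, y) (mk_mem_prod hx hy)
  obtain ⟨⟨a, ha, b, hb, rfl⟩, hmax'⟩ := hδ
  refine ⟨a, ha, b, hb, ?_⟩
  have hK' : ∀ x ∈ D, ∀ y ∈ D, ‖perp w (x - y)‖ ≤ |K| :=
    fun x hx y hy => (hwK x hx y hy).trans (le_abs_self K)
  have h1 := V2_le_thin hD hw hK' hmax'
  rw [div_mul_eq_mul_div, div_le_iff₀ hA]
  exact hV.trans h1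

end Pool.Agent.Saus2
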