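import Pool.Agent.Saus2.DefsC
import Pool.Agent.Saus2.N0
import Pool.Agent.Saus2.N5
import Pool.Agent.Saus2.T0
import Pool.Agent.Saus2.T8
import Pool.Agent.Saus2.TS
import Pool.Agent.Saus2.TV

/-!
# Saus2, package Upper: the upper bound
-/

namespace Pool.Agent.Saus2

open MeasureTheory ProbabilityTheory Set Metric Filter Topology Real
open scoped InnerProductSpace
open Pool.Agent.Sausage27 (Eu Body skel hS betaV)

/-- The case of a body which is thin in all directions orthogonal to `w`. -/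
private theorem upper_thin {d : ℕ} (hd : 3 ≤ d) {K ε : ℝ} (hK : 0 ≤ K) (hε : 0 < ε) :
    ∃ N₀ : ℕ, ∀ n ≥ N₀, ∀ (D : Set (Eu d)) (c : Fin n → Eu d) (w : Eu d), Body D →
      skel 2 D ⊆ ⋃ j, closedBall (c j) 1 → ‖w‖ = 1 →
      (∀ x ∈ D, ∀ y ∈ D, ∀ v : Eu d, ⟪v, w⟫_ℝ = 0 → ‖v‖ ≤ 1 → ⟪v, x - y⟫_ℝ ≤ K) →
      V2 D ≤ (betaV d + ε) * n := by
  obtain ⟨N₀, hN₀⟩ := tube_bound hd (K := 3 * K) (by positivity) hε
  refine ⟨N₀, fun n hn D c w hD hc hw hex => ?_⟩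
  obtain ⟨x₀, hx₀, e, L, he, hL, hxL, hDe⟩ := exists_axis hD hw hK hex
  have hD' : Body ((fun x => x + (-x₀)) '' D) := hD.translate (-x₀)
  rw [← V2_translate D (-x₀)]
  refine hN₀ n hn _ (fun j => c j + (-x₀)) e L hD' ?_ he hL ?_ ?_ ?_
  · rw [skel_translate]
    rintro _ ⟨x, hx, rfl⟩
    obtain ⟨j, hj⟩ := mem_iUnion.1 (hc hx)
    refine mem_iUnion.2 ⟨j, ?_⟩
    rw [mem_closedBall] at hj ⊢
    rwa [dist_add_right]
  · exact ⟨x₀, hx₀, by simp⟩
  · exact ⟨x₀ + L • e, hxL, by simp⟩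
  · rintro _ ⟨x, hx, rfl⟩
    have := hDe x hx
    simpa [sub_eq_add_neg] using this

theorem upper {d : ℕ} (hd : 3 ≤ d) {ε : ℝ} (hε : 0 < ε) :
    ∃ N₀ : ℕ, ∀ n ≥ N₀, ∀ (D : Set (Eu d)) (c : Fin n → Eu d), Body D →
      skel 2 D ⊆ ⋃ j, closedBall (c j) 1 → V2 D ≤ (betaV d + ε) * n := by
  obtain ⟨Λ, hΛ, hwide⟩ := wide_bound hd hε
  set K : ℝ := 1 * (2 * Module.finrank ℝ (Eu d) * Λ) ^ (Module.finrank ℝ (Eu d)) with hKdef
  have hK : 0 ≤ K := by positivity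
  obtain ⟨N₀, hthin⟩ := upper_thin hd hK hε
  refine ⟨N₀, fun n hn D c hD hc => ?_⟩
  have hdim : 1 ≤ Module.finrank ℝ (Eu d) := by simp; omega
  obtain ⟨W, Δ, hΔ1, hΔK, hwW, hWo⟩ := exists_gap hdim hD one_pos hΛ
  by_cases hW : 2 ≤ Module.finrank ℝ W
  · exact hwide n D c W Δ hD hc hW hΔ1 hwW hWo
  -- a unit vector spanning `W`
  obtain ⟨w, hw, hWw⟩ : ∃ w : Eu d, ‖w‖ = 1 ∧ ∀ v : Eu d, ⟪v, w⟫_ℝ = 0 → v ∈ Wᗮ := by
    by_cases h0 : W = ⊥
    · obtain ⟨w, hw⟩ : ∃ w : Eu d, ‖w‖ = 1 := by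
        haveI : Nonempty (Fin d) := ⟨⟨0, by omega⟩⟩
        obtain ⟨w, hw⟩ := exists_norm_eq (Eu d) zero_le_one
        exact ⟨w, hw⟩
      exact ⟨w, hw, fun v _ => by rw [h0]; simp⟩
    · obtain ⟨x, hxW, hx0⟩ := Submodule.exists_mem_ne_zero_of_ne_bot h0
      have hnx : ‖x‖ ≠ 0 := norm_ne_zero_iff.mpr hx0
      refine ⟨‖x‖⁻¹ • x, ?_, ?_⟩
      · rw [norm_smul, norm_inv, norm_norm, inv_mul_cancel₀ hnx]
      · intro v hv
        rw [inner_smul_right, mul_eq_zero] at hv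
        have hvx : ⟪v, x⟫_ℝ = 0 := by
          rcases hv with h | h
          · exact absurd h (inv_ne_zero hnx)
          · exact h
        rw [Submodule.mem_orthogonal]
        intro y hy
        have hsp : ∃ a : ℝ, a • x = y := by
          have hfr : Module.finrank ℝ W = 1 := by
            have : 0 < Module.finrank ℝ W := by
              rw [Module.finrank_pos_iff_exists_ne_zero]
              exact ⟨⟨x, hxW⟩, fun h => hx0 (congrArg Subtype.val h)⟩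
            omega
          obtain ⟨a, ha⟩ := (finrank_eq_one_iff_of_nonzero' (⟨x, hxW⟩ : W)
            (fun h => hx0 (congrArg Subtype.val h))).1 hfr ⟨y, hy⟩
          exact ⟨a, congrArg Subtype.val ha⟩
        obtain ⟨a, rfl⟩ := hsp
        rw [real_inner_smul_left, real_inner_comm, hvx, mul_zero]
  refine hthin n hn D c w hD hc hw fun x hx y hy v hv hv1 => ?_
  exact (hWo x hx y hy v (hWw v hv) hv1).trans hΔK

end Pool.Agent.Saus2
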